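import Mathlib
import Pool.Agent.HpBall.Defs2

set_option autoImplicit false

open MeasureTheory Complex
open scoped ENNReal NNReal

namespace Pool.Agent.HpBall2

open Pool.Agent.HpBall

/-- reproducing constant of degree k on the sphere -/
noncomputable def cn (n k : ℕ) : ℝ := ((k + n - 1).choose (n - 1) : ℝ) / Real.pi ^ n

/-- localised reproducing kernel on the sphere, centred at x, evaluated at z -/
noncomputable def kk (n : ℕ) (β : ℝ → ℝ) (N : ℝ) (x z : E n) : ℂ :=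
  ∑' k : ℕ, ((β ((k : ℝ) / N) * cn n k : ℝ) : ℂ) * (inner ℂ x z) ^ k

/-- smoothed modulus of a frequency cut off of g, at the point x of the sphere -/
noncomputable def gav (n : ℕ) (β : ℝ → ℝ) (N K : ℝ) (g : E n → ℂ) (x : E n) : ℝ :=
  N ^ (n : ℝ) * ∫ ξ, ‖cut β N g ξ‖ * (1 + N * rho ξ x) ^ (-K) ∂(sig n)

/-- g is holomorphic in the unit ball and the p-th power of its Hardy quasi-norm is at most M -/
def HB (n : ℕ) (p M : ℝ) (g : E n → ℂ) : Prop :=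
  DifferentiableOn ℂ g (Metric.ball 0 1) ∧ ∀ r : ℝ, 0 ≤ r → r < 1 →
    ∫⁻ ξ, ENNReal.ofReal (‖g ((r : ℂ) • ξ)‖ ^ p) ∂(sig n) ≤ ENNReal.ofReal M

/-- the p-th power of the Hardy quasi-norm -/
noncomputable def NF (n : ℕ) (p : ℝ) (g : E n → ℂ) : ℝ≥0∞ :=
  ⨆ r ∈ Set.Ico (0 : ℝ) 1, ∫⁻ ξ, ENNReal.ofReal (‖g ((r : ℂ) • ξ)‖ ^ p) ∂(sig n)

/-- F is a finite sum of homogeneous continuous functions of degrees in (a N, b N) -/
def Band (n : ℕ) (a b N : ℝ) (F : E n → ℂ) : Prop :=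
  ∃ P : ℕ → E n → ℂ, (∀ k, Continuous (P k)) ∧ (∀ k (c : ℂ) z, P k (c • z) = c ^ k * P k z) ∧
    (∀ k : ℕ, ((k : ℝ) ≤ a * N ∨ b * N ≤ k) → ∀ z, P k z = 0) ∧
    ∀ z, F z = ∑ k ∈ Finset.range ⌈b * N⌉₊, P k z

/-- a p-homogeneous subadditive functional dominated by the p-th power of the norm -/
structure PFun (p : ℝ) {H : Type} [NormedAddCommGroup H] [InnerProductSpace ℂ H]
    (N : H → ℝ≥0∞) : Prop where
  add : ∀ x y, N (x + y) ≤ N x + N y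
  smul : ∀ (c : ℂ) x, N (c • x) = ENNReal.ofReal (‖c‖ ^ p) * N x
  bd : ∃ C : ℝ, 0 < C ∧ ∀ x, N x ≤ ENNReal.ofReal (C * ‖x‖ ^ p)

/-- A model of the Hilbert space of the Hardy space of the ball: v k y is the function
(inner y z)^k, ev is the evaluation at the points of the ball. -/
structure HModel (n : ℕ) (H : Type) [NormedAddCommGroup H] [InnerProductSpace ℂ H] where
  v : ℕ → E n → H
  ev : H →ₗ[ℂ] (E n → ℂ)
  gram : ∀ j k x y, inner ℂ (v j x) (v k y) =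
    if j = k then (inner ℂ y x : ℂ) ^ k / (cn n k : ℂ) else 0
  dense : (Submodule.span ℂ (Set.range fun q : ℕ × E n => v q.1 q.2)).topologicalClosure = ⊤
  ev_v : ∀ k y z, ‖z‖ < 1 → ev (v k y) z = (inner ℂ y z : ℂ) ^ k
  ev_bd : ∀ z, ‖z‖ < 1 → ∃ C : ℝ, 0 < C ∧ ∀ h, ‖ev h z‖ ≤ C * ‖h‖
  hol : ∀ h, DifferentiableOn ℂ (ev h) (Metric.ball 0 1)
  hc_ev : ∀ h k x, hc (ev h) k x = (cn n k : ℂ) * inner ℂ (v k x) h
  two : ∀ h (r : ℝ), 0 ≤ r → r < 1 →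
    ∫⁻ ξ, ENNReal.ofReal (‖ev h ((r : ℂ) • ξ)‖ ^ (2 : ℝ)) ∂(sig n) ≤ ENNReal.ofReal (‖h‖ ^ 2)
  lim : ∀ g h, Filter.Tendsto (fun r : ℝ =>
    ∫ ξ, (starRingEnd ℂ) (ev g ((r : ℂ) • ξ)) * ev h ((r : ℂ) • ξ) ∂(sig n))
    (nhdsWithin (1 : ℝ) (Set.Iio 1)) (nhds (inner ℂ g h))

/-- index set of the dyadic tree -/
abbrev Ix := Σ l : ℕ, Fin (2 ^ l)

/-- square summable arrays on the dyadic tree -/
noncomputable abbrev KS : Type := ↥(lp (fun _ : Ix => ℂ) 2)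

/-- the array of a vector, with the normalisation used in fnorm -/
noncomputable def arr (y : Ix → ℂ) (l i : ℕ) : ℂ :=
  if h : i < 2 ^ l then (((2 : ℝ) ^ ((l : ℝ) / 2) : ℝ) : ℂ) * y ⟨l, ⟨i, h⟩⟩ else 0

/-- the p-th power of the sequence space quasi-norm -/
noncomputable def NK (p : ℝ) (y : Ix → ℂ) : ℝ≥0∞ :=
  ⨆ L : ℕ, ENNReal.ofReal (fnorm p L (arr y))

end Pool.Agent.HpBall2
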