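import Mathlib
import Pool.Agent.HpBall2.Defs
import Pool.Agent.HpBall.Geom
import Pool.Agent.HpBall.Sphere
import Pool.Agent.HpBall.Coef
import Pool.Agent.HopfPinch.GLib

set_option autoImplicit false

open MeasureTheory Complex
open scoped ENNReal NNReal

namespace Pool.Agent.HpBall2

open Pool.Agent.HpBall

/-- The homogeneous components in terms of the iterated derivatives at the origin. -/
theorem B03_hc_eq {n : ℕ} {g : E n → ℂ} (hg : DifferentiableOn ℂ g (Metric.ball 0 1)) (k : ℕ)
    (z : E n) : hc g k z = (k.factorial : ℂ)⁻¹ * iteratedFDeriv ℂ k g 0 (fun _ => z) := by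
  have hcd : ContDiffOn ℂ k g (Metric.ball 0 1) :=
    Pool.Agent.HopfPinch.contDiffOn_of_differentiableOn Metric.isOpen_ball hg k
  let L : ℂ →L[ℂ] E n := ContinuousLinearMap.toSpanSingleton ℂ z
  have hL : ∀ t, L t = t • z := fun t => ContinuousLinearMap.toSpanSingleton_apply ℂ z t
  have hpo : IsOpen (L ⁻¹' (Metric.ball 0 1)) := Metric.isOpen_ball.preimage L.continuous
  have h0 : L 0 ∈ Metric.ball (0 : E n) 1 := by
    rw [map_zero]
    exact Metric.mem_ball_self one_pos
  have h00 : (0 : ℂ) ∈ L ⁻¹' (Metric.ball 0 1) := h0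
  have key := L.iteratedFDerivWithin_comp_right hcd Metric.isOpen_ball.uniqueDiffOn
    hpo.uniqueDiffOn h0 (le_refl (k : WithTop ℕ∞))
  rw [iteratedFDerivWithin_of_isOpen k hpo h00, iteratedFDerivWithin_of_isOpen k
    Metric.isOpen_ball h0, map_zero] at key
  unfold hc tc
  congr 1
  rw [iteratedDeriv_eq_iteratedFDeriv]
  have hfun : (fun t : ℂ => g (t • z)) = g ∘ L := by
    funext t
    show _ = g (L t)
    rw [hL]
  rw [hfun, key, ContinuousMultilinearMap.compContinuousLinearMap_apply]
  congr 1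
  funext i
  rw [hL, one_smul]

/-- TARGET -/
theorem hc_props (n : ℕ) (g : E n → ℂ) (hg : DifferentiableOn ℂ g (Metric.ball 0 1)) :
    (∀ k, Differentiable ℂ (hc g k)) ∧ (∀ (k : ℕ) (c : ℂ) (z : E n), hc g k (c • z) = c ^ k * hc g k z) ∧
    (∀ z : E n, ‖z‖ < 1 → Summable (fun k => ‖hc g k z‖) ∧ HasSum (fun k => hc g k z) (g z)) := by
  refine ⟨?_, ?_, ?_⟩
  · intro k
    have h1 : hc g k = fun z => (k.factorial : ℂ)⁻¹ * iteratedFDeriv ℂ k g 0 (fun _ => z) := by
      funext z
      exact B03_hc_eq hg k z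
    rw [h1]
    refine Differentiable.const_mul ?_ _
    intro z
    have h2 : HasFDerivAt (fun z : E n => (fun _ : Fin k => z))
        (ContinuousLinearMap.pi fun _ : Fin k => ContinuousLinearMap.id ℂ (E n)) z := by
      rw [hasFDerivAt_pi]
      intro i
      exact hasFDerivAt_id z
    exact ((ContinuousMultilinearMap.hasFDerivAt (iteratedFDeriv ℂ k g 0) (fun _ => z)).comp z
      h2).differentiableAt
  · intro k c z
    rw [B03_hc_eq hg, B03_hc_eq hg]
    have h1 := (iteratedFDeriv ℂ k g 0).map_smul_univ (fun _ => c) (fun _ => z)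
    rw [h1]
    simp only [Finset.prod_const, Finset.card_univ, Fintype.card_fin, smul_eq_mul]
    ring
  · intro z hz
    have hz0 := norm_nonneg z
    have hr1 : (1 : ℝ) < 2 / (1 + ‖z‖) := by
      rw [lt_div_iff₀ (by linarith)]
      linarith
    have hr2 : 2 / (1 + ‖z‖) * ‖z‖ < 1 := by
      rw [div_mul_eq_mul_div, div_lt_one (by linarith)]
      linarith
    have hG : DifferentiableOn ℂ (fun t : ℂ => g (t • z)) (Metric.ball 0 (2 / (1 + ‖z‖))) := by
      apply hg.comp (f := fun t : ℂ => t • z)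
      · exact (differentiable_id.smul_const z).differentiableOn
      · intro t ht
        rw [mem_ball_zero_iff] at ht ⊢
        rw [norm_smul]
        exact lt_of_le_of_lt (mul_le_mul_of_nonneg_right ht.le hz0) hr2
    have h1 : (1 : ℂ) ∈ Metric.ball (0 : ℂ) (2 / (1 + ‖z‖)) := by
      rw [mem_ball_zero_iff, norm_one]
      exact hr1
    have hs := Complex.hasSum_taylorSeries_on_ball hG h1
    have hs' : HasSum (fun k => hc g k z) (g z) := by
      have e : (fun k => hc g k z) = fun k : ℕ => (k.factorial : ℂ)⁻¹ • ((1 : ℂ) - 0) ^ k •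
          iteratedDeriv k (fun t : ℂ => g (t • z)) 0 := by
        funext k
        rw [sub_zero, one_pow, one_smul, smul_eq_mul]
        rfl
      rw [e]
      simpa using hs
    exact ⟨hs'.summable.norm, hs'⟩

end Pool.Agent.HpBall2
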