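import Mathlib
import Pool.Agent.HpBall2.Defs
import Pool.Agent.HpBall.Geom
import Pool.Agent.HpBall.Sphere
import Pool.Agent.HpBall.Caps

set_option autoImplicit false

open MeasureTheory Complex
open scoped ENNReal NNReal

namespace Pool.Agent.HpBall2

open Pool.Agent.HpBall

lemma B01_polar {V : Type*} [NormedAddCommGroup V] [NormedSpace ℝ V] [MeasurableSpace V]
    [BorelSpace V] [FiniteDimensional ℝ V] [Nontrivial V] (μ : Measure V) [μ.IsAddHaarMeasure]
    (g : V → ℝ) (h : ℝ → ℝ) :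
    ∫ z, g (‖z‖⁻¹ • z) * h ‖z‖ ∂μ = (∫ θ : Metric.sphere (0 : V) 1, g θ ∂μ.toSphere) *
      ∫ y in Set.Ioi (0:ℝ), y ^ (Module.finrank ℝ V - 1) * h y := by
  calc
    ∫ z, g (‖z‖⁻¹ • z) * h ‖z‖ ∂μ
      = ∫ x : ({(0)}ᶜ : Set V), g (‖x.1‖⁻¹ • x.1) * h (‖x.1‖) ∂(μ.comap (↑)) := by
      rw [integral_subtype_comap (measurableSet_singleton _).compl
        (fun x ↦ g (‖x‖⁻¹ • x) * h (‖x‖)), restrict_compl_singleton]
    _ = ∫ x : Metric.sphere (0 : V) 1 × Set.Ioi (0 : ℝ), g x.1 * h x.2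
          ∂μ.toSphere.prod (.volumeIoiPow (Module.finrank ℝ V - 1)) := by
      rw [← μ.measurePreserving_homeomorphUnitSphereProd.integral_comp
        (Homeomorph.measurableEmbedding _)
        (fun p : Metric.sphere (0 : V) 1 × Set.Ioi (0 : ℝ) => g p.1 * h p.2)]
      simp
    _ = (∫ θ : Metric.sphere (0 : V) 1, g θ ∂μ.toSphere) *
          ∫ x : Set.Ioi (0 : ℝ), h x ∂.volumeIoiPow (Module.finrank ℝ V - 1) :=
      integral_prod_mul (fun θ : Metric.sphere (0 : V) 1 => g θ) (fun x : Set.Ioi (0 : ℝ) => h x)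
    _ = _ := by
      congr 1
      simp only [Measure.volumeIoiPow, ENNReal.ofReal]
      rw [integral_withDensity_eq_integral_smul,
        integral_subtype_comap measurableSet_Ioi
          fun a ↦ Real.toNNReal (a ^ (Module.finrank ℝ V - 1)) • h a,
        setIntegral_congr_fun measurableSet_Ioi fun x hx ↦ ?_]
      · rw [NNReal.smul_def, Real.coe_toNNReal _ (pow_nonneg hx.out.le _), smul_eq_mul]
      · exact (measurable_subtype_coe.pow_const _).real_toNNReal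

lemma B01_rad (m k : ℕ) (hm : 1 ≤ m) :
    ∫ y in Set.Ioi (0:ℝ), y ^ (2 * m - 1) * (y ^ (2 * k) * Real.exp (-y ^ 2)) =
      ((m + k - 1).factorial : ℝ) / 2 := by
  have h := _root_.integral_rpow_mul_exp_neg_rpow (p := 2) (q := ((2 * m - 1 + 2 * k : ℕ) : ℝ))
    (by norm_num) (by
      have : (0 : ℝ) ≤ ((2 * m - 1 + 2 * k : ℕ) : ℝ) := Nat.cast_nonneg _
      linarith)
  have e : (((2 * m - 1 + 2 * k : ℕ) : ℝ) + 1) / 2 = ((m + k - 1 : ℕ) : ℝ) + 1 := by
    have h1 : (2 * m - 1 + 2 * k : ℕ) + 1 = 2 * ((m + k - 1) + 1) := by omega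
    have h2 : ((2 * m - 1 + 2 * k : ℕ) : ℝ) + 1 = 2 * (((m + k - 1 : ℕ) : ℝ) + 1) := by
      exact_mod_cast h1
    rw [h2]; ring
  rw [e, Real.Gamma_nat_eq_factorial] at h
  rw [show ((m + k - 1).factorial : ℝ) / 2 = 1 / 2 * ((m + k - 1).factorial : ℝ) by ring, ← h]
  refine setIntegral_congr_fun measurableSet_Ioi fun y hy => ?_
  have hy' : (0 : ℝ) < y := hy
  simp only [Real.rpow_natCast, Real.rpow_two]
  rw [pow_add]
  ring

lemma B01_gauss1 (k : ℕ) : ∫ w : ℂ, ‖w‖ ^ (2 * k) * Real.exp (-‖w‖ ^ 2) =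
    Real.pi * (k.factorial : ℝ) := by
  have h := Complex.integral_rpow_mul_exp_neg_rpow (p := 2) (q := ((2 * k : ℕ) : ℝ))
    (by norm_num) (by
      have : (0 : ℝ) ≤ ((2 * k : ℕ) : ℝ) := Nat.cast_nonneg _
      linarith)
  have e : (((2 * k : ℕ) : ℝ) + 2) / 2 = (k : ℝ) + 1 := by push_cast; ring
  rw [e, Real.Gamma_nat_eq_factorial] at h
  simp only [Real.rpow_natCast, Real.rpow_two] at h
  rw [h]
  ring

lemma B01_gauss (n : ℕ) (hn : 1 ≤ n) (ζ : E n) (hζ : ‖ζ‖ = 1) (k : ℕ) :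
    ∫ z, ‖(inner ℂ ζ z : ℂ)‖ ^ (2 * k) * Real.exp (-‖z‖ ^ 2) ∂(vol n) =
      Real.pi ^ n * (k.factorial : ℝ) := by
  let i0 : Fin n := ⟨0, hn⟩
  obtain ⟨U, hU⟩ := J1_exists_isom i0 ζ hζ
  have hUm : MeasurableEmbedding U := U.toHomeomorph.measurableEmbedding
  have h1 : ∫ z, ‖(inner ℂ ζ z : ℂ)‖ ^ (2 * k) * Real.exp (-‖z‖ ^ 2) ∂(vol n) =
      ∫ z, ‖z i0‖ ^ (2 * k) * Real.exp (-‖z‖ ^ 2) ∂(vol n) := by
    conv_lhs => rw [← vol_map_isometry U]
    rw [hUm.integral_map]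
    refine integral_congr_ae (Filter.Eventually.of_forall fun z => ?_)
    simp only [U.norm_map]
    rw [← hU, U.inner_map_map, EuclideanSpace.inner_single_left]
    simp
  rw [h1]
  have h2 : ∫ z, ‖z i0‖ ^ (2 * k) * Real.exp (-‖z‖ ^ 2) ∂(vol n) =
      ∫ x : Fin n → ℂ, ∏ i, (‖x i‖ ^ (2 * (if i = i0 then k else 0)) * Real.exp (-‖x i‖ ^ 2)) := by
    have h0 : vol n = (volume : Measure (Fin n → ℂ)).map (MeasurableEquiv.toLp 2 (Fin n → ℂ)) := rfl
    rw [h0, integral_map_equiv]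
    refine integral_congr_ae (Filter.Eventually.of_forall fun x => ?_)
    simp only [MeasurableEquiv.toLp_apply]
    rw [Finset.prod_mul_distrib, ← Real.exp_sum, EuclideanSpace.norm_sq_eq, Finset.sum_neg_distrib]
    congr 1
    rw [Finset.prod_eq_single i0]
    · simp
    · intro i _ hi
      simp [hi]
    · simp
  rw [h2]
  rw [integral_fintype_prod_volume_eq_prod
    (fun (i : Fin n) (w : ℂ) => ‖w‖ ^ (2 * (if i = i0 then k else 0)) * Real.exp (-‖w‖ ^ 2))]
  simp only [B01_gauss1]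
  rw [Finset.prod_mul_distrib, Finset.prod_const, Finset.card_univ, Fintype.card_fin]
  congr 1
  rw [Finset.prod_eq_single i0]
  · simp
  · intro i _ hi
    simp [hi]
  · simp

lemma B01_finrank (n : ℕ) : Module.finrank ℝ (E n) = 2 * n := by
  have h1 : Module.finrank ℝ (E n) = Module.finrank ℝ (Fin n → ℂ) :=
    (PiLp.continuousLinearEquiv 2 ℝ (fun _ : Fin n => ℂ)).toLinearEquiv.finrank_eq
  rw [h1, Module.finrank_pi_fintype]
  simp [Complex.finrank_real_complex, mul_comm]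

/-- TARGET -/
theorem moment_eq (n : ℕ) (hn : 1 ≤ n) (ζ : E n) (hζ : ‖ζ‖ = 1) (k : ℕ) :
    ∫ ξ, ‖(inner ℂ ζ ξ : ℂ)‖ ^ (2 * k) ∂(sig n) = 1 / cn n k := by
  have : Nonempty (Fin n) := ⟨⟨0, hn⟩⟩
  have : Nontrivial (E n) := inferInstance
  have hsm : ∀ (r : ℝ) (z : E n), ((r : ℝ) : ℂ) • z = r • z := by
    intro r z
    ext i
    simp
  set g : E n → ℝ := fun ξ => ‖(inner ℂ ζ ξ : ℂ)‖ ^ (2 * k) with hg
  have hgc : Continuous g := by
    simp only [hg]
    fun_prop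
  have h1 : ∫ ξ, g ξ ∂(sig n) = ∫ z, g (‖z‖⁻¹ • z) * Real.exp (-‖z‖ ^ 2) ∂(vol n) := by
    unfold sig
    rw [integral_map measurable_proj.aemeasurable hgc.aestronglyMeasurable, gam,
      integral_withDensity_eq_integral_toReal_smul (by fun_prop)
        (Filter.Eventually.of_forall fun z => ENNReal.ofReal_lt_top)]
    refine integral_congr_ae (Filter.Eventually.of_forall fun z => ?_)
    simp only [hsm]
    rw [ENNReal.toReal_ofReal (Real.exp_pos _).le, smul_eq_mul, mul_comm]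
  have h2 := B01_polar (vol n) g (fun y => Real.exp (-y ^ 2))
  have h3 := B01_polar (vol n) g (fun y => y ^ (2 * k) * Real.exp (-y ^ 2))
  have h4 : ∫ z, g (‖z‖⁻¹ • z) * (‖z‖ ^ (2 * k) * Real.exp (-‖z‖ ^ 2)) ∂(vol n) =
      Real.pi ^ n * (k.factorial : ℝ) := by
    rw [← B01_gauss n hn ζ hζ k]
    refine integral_congr_ae (Filter.Eventually.of_forall fun z => ?_)
    simp only [hg]
    rw [← mul_assoc, ← mul_pow]
    congr 2
    rw [← hsm, inner_smul_right, norm_mul]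
    by_cases hz : ‖z‖ = 0
    · have : z = 0 := norm_eq_zero.1 hz
      simp [this]
    · simp
      field_simp
  rw [h4, B01_finrank, B01_rad n k hn] at h3
  have h5 := B01_rad n 0 hn
  simp only [mul_zero, pow_zero, one_mul, add_zero] at h5
  rw [B01_finrank, h5] at h2
  rw [h1, h2]
  set A : ℝ := ∫ θ : Metric.sphere (0 : E n) 1, g θ ∂(vol n).toSphere
  have h6 : (((n + k - 1).factorial : ℕ) : ℝ) ≠ 0 := by positivity
  have h7 : A = 2 * Real.pi ^ n * (k.factorial : ℝ) / ((n + k - 1).factorial : ℝ) := by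
    rw [eq_div_iff h6]
    linarith
  have h8 : ((k + n - 1).choose (n - 1)) * (n - 1).factorial * k.factorial =
      (k + n - 1).factorial := by
    have := Nat.choose_mul_factorial_mul_factorial (n := k + n - 1) (k := n - 1) (by omega)
    rwa [show k + n - 1 - (n - 1) = k by omega] at this
  have h9 : (((k + n - 1).choose (n - 1) : ℕ) : ℝ) * ((n - 1).factorial : ℝ) * (k.factorial : ℝ) =
      ((k + n - 1).factorial : ℝ) := by exact_mod_cast h8
  have h10 : n + k - 1 = k + n - 1 := by omega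
  rw [h7, h10, ← h9]
  unfold cn
  have h11 : (((k + n - 1).choose (n - 1) : ℕ) : ℝ) ≠ 0 := by
    have : 0 < (k + n - 1).choose (n - 1) := Nat.choose_pos (by omega)
    positivity
  have h12 : (((n - 1).factorial : ℕ) : ℝ) ≠ 0 := by positivity
  have h13 : ((k.factorial : ℕ) : ℝ) ≠ 0 := by positivity
  field_simp

end Pool.Agent.HpBall2
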