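import Mathlib
import Pool.Agent.HpBall2.Defs
import Pool.Agent.HpBall.Geom
import Pool.Agent.HpBall.Sphere
import Pool.Agent.HpBall.Growth
import Pool.Agent.HpBall2.Moment

set_option autoImplicit false

open MeasureTheory Complex
open scoped ENNReal NNReal

namespace Pool.Agent.HpBall2

open Pool.Agent.HpBall

theorem B02_cn_pos (n k : ℕ) : 0 < cn n k := by
  unfold cn
  have h : 0 < (k + n - 1).choose (n - 1) := Nat.choose_pos (by omega)
  have h' : (0 : ℝ) < ((k + n - 1).choose (n - 1) : ℝ) := by exact_mod_cast h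
  exact div_pos h' (by positivity)

theorem B02_inner {n : ℕ} {x : E n} (hx : ‖x‖ = 1) (φ : ℝ) (ζ : E n) :
    (inner ℂ (urot n x hx φ ζ) x : ℂ) = (starRingEnd ℂ) (inner ℂ x ζ : ℂ) := by
  rw [← inner_conj_symm, urot_apply]
  congr 1
  rw [inner_add_right, inner_smul_right, inner_smul_right, orth_unit hx, inner_unit hx]
  ring

theorem B02_mean {n : ℕ} (P : E n → ℂ) (hP : Differentiable ℂ P) (a b : E n) :
    ∫ φ in Set.Ioc 0 (2 * Real.pi), P (a + Complex.exp (φ * I) • b) =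
      ((2 * Real.pi : ℝ) : ℂ) * P a := by
  set h : ℂ → ℂ := fun w => P (a + w • b) with hh
  have hd : Differentiable ℂ h := hP.comp (by fun_prop)
  have hmean := (hd.diffContOnCl (s := Metric.ball 0 |1|)).circleAverage
  rw [Real.circleAverage_def] at hmean
  have h0 : h 0 = P a := by simp [hh]
  rw [h0, intervalIntegral.integral_of_le (by positivity)] at hmean
  rw [← hmean, Complex.real_smul, ← mul_assoc, ← Complex.ofReal_mul,
    mul_inv_cancel₀ (by positivity), Complex.ofReal_one, one_mul]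
  apply setIntegral_congr_fun measurableSet_Ioc
  intro φ _
  simp only [hh]
  simp [circleMap]

theorem B02_unit (n : ℕ) (hn : 1 ≤ n) (k : ℕ) (P : E n → ℂ) (hP : Differentiable ℂ P)
    (hh : ∀ (c : ℂ) (z : E n), P (c • z) = c ^ k * P z) (x : E n) (hx : ‖x‖ = 1) :
    P x = (cn n k : ℂ) * ∫ ζ, P ζ * (inner ℂ ζ x : ℂ) ^ k ∂(sig n) := by
  have hc := hP.continuous
  set f : E n → ℂ := fun ζ => P ζ * (inner ℂ ζ x : ℂ) ^ k with hf
  have hfc : Continuous f := by fun_prop
  obtain ⟨B, hB⟩ : ∃ B : ℝ, ∀ z : E n, ‖z‖ ≤ 1 → ‖f z‖ ≤ B := by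
    obtain ⟨B, hB⟩ := (isCompact_closedBall (0 : E n) 1).exists_bound_of_continuousOn
      hfc.continuousOn
    exact ⟨B, fun y hy => hB y (by rw [mem_closedBall_zero_iff]; exact hy)⟩
  have h1 : ∀ φ : ℝ, ∫ ζ, f (urot n x hx φ ζ) ∂(sig n) = ∫ ζ, f ζ ∂(sig n) := fun φ =>
    integral_sig_isometry _ f
  have h2 : ∫ φ in Set.Ioc 0 (2 * Real.pi), (∫ ζ, f (urot n x hx φ ζ) ∂(sig n)) =
      ((2 * Real.pi : ℝ) : ℂ) * ∫ ζ, f ζ ∂(sig n) := by
    simp only [h1]
    rw [setIntegral_const, Measure.real, Real.volume_Ioc, sub_zero,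
      ENNReal.toReal_ofReal (by positivity), Complex.real_smul]
  have h3 : ∫ φ in Set.Ioc 0 (2 * Real.pi), (∫ ζ, f (urot n x hx φ ζ) ∂(sig n)) =
      ∫ ζ, (∫ φ in Set.Ioc 0 (2 * Real.pi), f (urot n x hx φ ζ)) ∂(sig n) := by
    apply integral_integral_swap
    refine Integrable.mono' (integrable_const B) ?_ ?_
    · apply Continuous.aestronglyMeasurable
      have hcu : Continuous fun q : ℝ × E n => (inner ℂ x q.2 : ℂ) • x +
          Complex.exp (q.1 * I) • (q.2 - (inner ℂ x q.2 : ℂ) • x) := by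
        fun_prop
      exact hfc.comp hcu
    · filter_upwards [Measure.quasiMeasurePreserving_snd.ae (sig_ae_norm hn)] with q hq
      apply hB
      rw [LinearIsometryEquiv.norm_map, hq]
  have h4 : ∀ ζ, ∫ φ in Set.Ioc 0 (2 * Real.pi), f (urot n x hx φ ζ) =
      (((2 * Real.pi : ℝ) : ℂ) * P x) * ((inner ℂ x ζ : ℂ) ^ k *
        (starRingEnd ℂ (inner ℂ x ζ : ℂ)) ^ k) := by
    intro ζ
    simp only [hf, B02_inner hx]
    rw [integral_mul_const]
    simp only [urot_apply]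
    rw [B02_mean P hP, hh]
    ring
  rw [h2] at h3
  simp only [h4] at h3
  rw [integral_const_mul, mom_int] at h3
  unfold mom at h3
  rw [moment_eq n hn x hx k] at h3
  have hcn := B02_cn_pos n k
  have hpi : ((2 * Real.pi : ℝ) : ℂ) ≠ 0 := by
    exact_mod_cast (by positivity : (2 * Real.pi : ℝ) ≠ 0)
  have h5 : ∫ ζ, f ζ ∂(sig n) = P x * ((1 / cn n k : ℝ) : ℂ) := by
    apply mul_left_cancel₀ hpi
    rw [h3]; ring
  rw [h5]
  have hcn' : (cn n k : ℂ) ≠ 0 := by exact_mod_cast hcn.ne'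
  push_cast
  field_simp

/-- TARGET -/
theorem repro_hom (n : ℕ) (hn : 1 ≤ n) (k : ℕ) (P : E n → ℂ) (hP : Differentiable ℂ P)
    (hh : ∀ (c : ℂ) (z : E n), P (c • z) = c ^ k * P z) (x : E n) :
    P x = (cn n k : ℂ) * ∫ ζ, P ζ * (inner ℂ ζ x : ℂ) ^ k ∂(sig n) := by
  by_cases hx : x = 0
  · rcases Nat.eq_zero_or_pos k with hk | hk
    · subst hk
      set u : E n := EuclideanSpace.single ⟨0, hn⟩ (1 : ℂ) with hu
      have hu1 : ‖u‖ = 1 := by rw [hu]; simp
      have h1 := B02_unit n hn 0 P hP hh u hu1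
      have h2 : P x = P u := by
        have := hh 0 u
        rw [zero_smul, pow_zero, one_mul] at this
        rw [hx, this]
      rw [h2, h1]
      simp only [pow_zero]
    · rw [hx]
      have h1 := hh 0 (0 : E n)
      rw [zero_smul, zero_pow hk.ne', zero_mul] at h1
      rw [h1]
      simp [hk.ne']
  · have hx0 : ‖x‖ ≠ 0 := by simpa using hx
    have hxc : ((‖x‖ : ℝ) : ℂ) ≠ 0 := by exact_mod_cast hx0
    set u : E n := ((‖x‖ : ℂ))⁻¹ • x with hu
    have hu1 : ‖u‖ = 1 := by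
      rw [hu, norm_smul, norm_inv, Complex.norm_real, norm_norm, inv_mul_cancel₀ hx0]
    have hxu : x = (‖x‖ : ℂ) • u := by
      rw [hu, smul_smul, mul_inv_cancel₀ hxc, one_smul]
    have h1 := B02_unit n hn k P hP hh u hu1
    have h2 : P x = (‖x‖ : ℂ) ^ k * P u := by
      conv_lhs => rw [hxu]
      rw [hh]
    have h3 : ∀ ζ : E n, P ζ * (inner ℂ ζ x : ℂ) ^ k =
        (‖x‖ : ℂ) ^ k * (P ζ * (inner ℂ ζ u : ℂ) ^ k) := by
      intro ζ
      conv_lhs => rw [hxu]
      rw [inner_smul_right, mul_pow]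
      ring
    simp only [h3]
    rw [integral_const_mul, h2, h1]
    ring

end Pool.Agent.HpBall2
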