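import Mathlib
import Pool.Agent.HpBall2.Defs
import Pool.Agent.HpBall.Geom
import Pool.Agent.HpBall.Sphere
import Pool.Agent.HpBall.Growth
import Pool.Agent.HpBall.Molecules
import Pool.Agent.HpBall2.Repro
import Pool.Agent.HpBall2.HcProps

set_option autoImplicit false

open MeasureTheory Complex
open scoped ENNReal NNReal

namespace Pool.Agent.HpBall2

open Pool.Agent.HpBall

/-! auxiliary lemmas -/

lemma B16_zero {β : ℝ → ℝ} {a b : ℝ} (hβ : Bump β a b) {N : ℝ} (hN : 0 < N) {R k : ℕ}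
    (hR : ⌈b * N⌉₊ ≤ R) (hk : k ∉ Finset.range R) : β ((k : ℝ) / N) = 0 := by
  apply hβ.hi
  rw [Finset.mem_range, not_lt] at hk
  rw [le_div_iff₀ hN]
  exact (Nat.le_ceil _).trans (by exact_mod_cast hR.trans hk)

lemma B16_vanish {β : ℝ → ℝ} {a b : ℝ} (hβ : Bump β a b) {N : ℝ} (hN : 0 < N) {k : ℕ}
    (hk : (k : ℝ) ≤ a * N ∨ b * N ≤ k) : β ((k : ℝ) / N) = 0 := by
  rcases hk with h | h
  · apply hβ.lo
    rwa [div_le_iff₀ hN]
  · apply hβ.hi
    rwa [le_div_iff₀ hN]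

lemma B16_cut {n : ℕ} {β : ℝ → ℝ} {a b : ℝ} (hβ : Bump β a b) {N : ℝ} (hN : 0 < N) {R : ℕ}
    (hR : ⌈b * N⌉₊ ≤ R) (g : E n → ℂ) (ζ : E n) :
    cut β N g ζ = ∑ k ∈ Finset.range R, (β ((k : ℝ) / N) : ℂ) * hc g k ζ := by
  unfold cut
  apply tsum_eq_sum
  intro k hk
  rw [B16_zero hβ hN hR hk]
  simp

lemma B16_kk {n : ℕ} {β : ℝ → ℝ} {a b : ℝ} (hβ : Bump β a b) {N : ℝ} (hN : 0 < N) {R : ℕ}
    (hR : ⌈b * N⌉₊ ≤ R) (x z : E n) :
    kk n β N x z = ∑ k ∈ Finset.range R, ((β ((k : ℝ) / N) * cn n k : ℝ) : ℂ) * (inner ℂ x z) ^ k := by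
  unfold kk
  apply tsum_eq_sum
  intro k hk
  rw [B16_zero hβ hN hR hk]
  simp

/-- TARGET -/
theorem cut_cont (n : ℕ) (β : ℝ → ℝ) (a b : ℝ) (hβ : Bump β a b) (N : ℝ) (hN : 0 < N)
    (g : E n → ℂ) (hg : DifferentiableOn ℂ g (Metric.ball 0 1)) : Continuous (cut β N g) := by
  have h : cut β N g = fun ζ => ∑ k ∈ Finset.range ⌈b * N⌉₊, (β ((k : ℝ) / N) : ℂ) * hc g k ζ := by
    funext ζ
    exact B16_cut hβ hN le_rfl g ζ
  rw [h]
  refine continuous_finsetSum _ (fun k _ => ?_)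
  exact continuous_const.mul ((hc_props n g hg).1 k).continuous

/-- TARGET -/
theorem kk_cont (n : ℕ) (β : ℝ → ℝ) (a b : ℝ) (hβ : Bump β a b) (N : ℝ) (hN : 0 < N) :
    Continuous (fun q : E n × E n => kk n β N q.1 q.2) := by
  have h : (fun q : E n × E n => kk n β N q.1 q.2) = fun q : E n × E n =>
      ∑ k ∈ Finset.range ⌈b * N⌉₊, ((β ((k : ℝ) / N) * cn n k : ℝ) : ℂ) * (inner ℂ q.1 q.2) ^ k := by
    funext q
    exact B16_kk hβ hN le_rfl q.1 q.2
  rw [h]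
  refine continuous_finsetSum _ (fun k _ => ?_)
  exact continuous_const.mul ((continuous_fst.inner continuous_snd).pow k)

/-- TARGET -/
theorem cut_conv (n : ℕ) (hn : 1 ≤ n) (β γ : ℝ → ℝ) (a b a' b' : ℝ) (hβ : Bump β a b)
    (hγ : Bump γ a' b') (N : ℝ) (hN : 0 < N) (g : E n → ℂ)
    (hg : DifferentiableOn ℂ g (Metric.ball 0 1)) (z : E n) :
    cut (fun t => β t * γ t) N g z = ∫ ζ, cut β N g ζ * kk n γ N ζ z ∂(sig n) := by
  set R : ℕ := max ⌈b * N⌉₊ ⌈b' * N⌉₊ with hR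
  have hR1 : ⌈b * N⌉₊ ≤ R := le_max_left _ _
  have hR2 : ⌈b' * N⌉₊ ≤ R := le_max_right _ _
  obtain ⟨hd, hh, -⟩ := hc_props n g hg
  have hL : cut (fun t => β t * γ t) N g z = ∑ k ∈ Finset.range R,
      ((β ((k : ℝ) / N) * γ ((k : ℝ) / N) : ℝ) : ℂ) * hc g k z := by
    unfold cut
    apply tsum_eq_sum
    intro k hk
    show ((β ((k : ℝ) / N) * γ ((k : ℝ) / N) : ℝ) : ℂ) * hc g k z = 0
    rw [B16_zero hβ hN hR1 hk]
    simp
  have hint : ∀ j k : ℕ, ∫ ζ, hc g j ζ * (inner ℂ ζ z : ℂ) ^ k ∂(sig n) =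
      if j = k then hc g k z / (cn n k : ℂ) else 0 := by
    intro j k
    by_cases hjk : j = k
    · rw [if_pos hjk, hjk]
      have h1 := repro_hom n hn k (hc g k) (hd k) (hh k) z
      have hcn : (cn n k : ℂ) ≠ 0 := by
        unfold cn
        have h2 : 0 < (k + n - 1).choose (n - 1) := Nat.choose_pos (by omega)
        have h3 : ((k + n - 1).choose (n - 1) : ℝ) / Real.pi ^ n ≠ 0 := by
          have : (0 : ℝ) < ((k + n - 1).choose (n - 1) : ℝ) := by exact_mod_cast h2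
          have := Real.pi_pos
          positivity
        exact_mod_cast h3
      rw [eq_div_iff hcn, mul_comm]
      exact h1.symm
    · rw [if_neg hjk]
      have h1 := m_orth hjk (hc g j) (fun ξ => (inner ℂ z ξ : ℂ) ^ k) (hh j) (by
        intro c ξ
        rw [inner_smul_right, mul_pow])
      rw [← h1]
      congr 1
      funext ξ
      rw [map_pow, inner_conj_symm]
  have hcont : ∀ j k : ℕ, Continuous (fun ζ : E n =>
      ((β ((j : ℝ) / N) : ℂ) * hc g j ζ) *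
        (((γ ((k : ℝ) / N) * cn n k : ℝ) : ℂ) * (inner ℂ ζ z : ℂ) ^ k)) := by
    intro j k
    exact (continuous_const.mul (hd j).continuous).mul
      (continuous_const.mul ((continuous_id.inner continuous_const).pow k))
  have hterm : ∀ j k : ℕ, ∫ ζ, ((β ((j : ℝ) / N) : ℂ) * hc g j ζ) *
        (((γ ((k : ℝ) / N) * cn n k : ℝ) : ℂ) * (inner ℂ ζ z : ℂ) ^ k) ∂(sig n) =
      if j = k then ((β ((k : ℝ) / N) * γ ((k : ℝ) / N) : ℝ) : ℂ) * hc g k z else 0 := by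
    intro j k
    have e1 : ∀ ζ : E n, ((β ((j : ℝ) / N) : ℂ) * hc g j ζ) *
        (((γ ((k : ℝ) / N) * cn n k : ℝ) : ℂ) * (inner ℂ ζ z : ℂ) ^ k) =
        ((β ((j : ℝ) / N) : ℂ) * ((γ ((k : ℝ) / N) * cn n k : ℝ) : ℂ)) *
          (hc g j ζ * (inner ℂ ζ z : ℂ) ^ k) := by
      intro ζ; ring
    simp_rw [e1]
    rw [integral_const_mul, hint]
    by_cases hjk : j = k
    · rw [if_pos hjk, if_pos hjk, hjk]
      have hcn : (cn n k : ℂ) ≠ 0 := by
        unfold cn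
        have h2 : 0 < (k + n - 1).choose (n - 1) := Nat.choose_pos (by omega)
        have h3 : ((k + n - 1).choose (n - 1) : ℝ) / Real.pi ^ n ≠ 0 := by
          have : (0 : ℝ) < ((k + n - 1).choose (n - 1) : ℝ) := by exact_mod_cast h2
          have := Real.pi_pos
          positivity
        exact_mod_cast h3
      push_cast
      field_simp
    · rw [if_neg hjk, if_neg hjk, mul_zero]
  have hRHS : ∀ ζ : E n, cut β N g ζ * kk n γ N ζ z = ∑ j ∈ Finset.range R, ∑ k ∈ Finset.range R,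
      ((β ((j : ℝ) / N) : ℂ) * hc g j ζ) *
        (((γ ((k : ℝ) / N) * cn n k : ℝ) : ℂ) * (inner ℂ ζ z : ℂ) ^ k) := by
    intro ζ
    rw [B16_cut hβ hN hR1, B16_kk hγ hN hR2, Finset.sum_mul_sum]
  simp_rw [hRHS]
  rw [integral_finsetSum _ (fun j _ => integrable_finsetSum _ (fun k _ => m_integrable hn (hcont j k))),
    hL]
  apply Finset.sum_congr rfl
  intro j hj
  rw [integral_finsetSum _ (fun k _ => m_integrable hn (hcont j k))]
  simp_rw [hterm]
  rw [Finset.sum_ite_eq, if_pos hj]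

/-- TARGET -/
theorem band_orth (n : ℕ) (hn : 1 ≤ n) (a b N N' : ℝ) (F F' : E n → ℂ) (hF : Band n a b N F)
    (hF' : Band n a b N' F') (h : b * N ≤ a * N') (r : ℝ) :
    ∫ ξ, F ((r : ℂ) • ξ) * (starRingEnd ℂ) (F' ((r : ℂ) • ξ)) ∂(sig n) = 0 := by
  obtain ⟨P, hPc, hPh, hPv, hPs⟩ := hF
  obtain ⟨P', hPc', hPh', hPv', hPs'⟩ := hF'
  have e : ∀ ξ : E n, F ((r : ℂ) • ξ) * (starRingEnd ℂ) (F' ((r : ℂ) • ξ)) =
      ∑ j ∈ Finset.range ⌈b * N⌉₊, ∑ k ∈ Finset.range ⌈b * N'⌉₊,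
        P j ((r : ℂ) • ξ) * (starRingEnd ℂ) (P' k ((r : ℂ) • ξ)) := by
    intro ξ
    rw [hPs, hPs', map_sum, Finset.sum_mul_sum]
  have hcont : ∀ j k : ℕ, Continuous (fun ξ : E n =>
      P j ((r : ℂ) • ξ) * (starRingEnd ℂ) (P' k ((r : ℂ) • ξ))) := by
    intro j k
    have h1 : Continuous (fun ξ : E n => (r : ℂ) • ξ) := continuous_const_smul _
    exact ((hPc j).comp h1).mul (Complex.continuous_conj.comp ((hPc' k).comp h1))
  simp_rw [e]
  rw [integral_finsetSum _ (fun j _ => integrable_finsetSum _ (fun k _ => m_integrable hn (hcont j k)))]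
  apply Finset.sum_eq_zero
  intro j _
  rw [integral_finsetSum _ (fun k _ => m_integrable hn (hcont j k))]
  apply Finset.sum_eq_zero
  intro k _
  by_cases h1 : (j : ℝ) ≤ a * N ∨ b * N ≤ j
  · simp [hPv j h1]
  by_cases h2 : (k : ℝ) ≤ a * N' ∨ b * N' ≤ k
  · simp [hPv' k h2]
  push Not at h1 h2
  have hjk : j ≠ k := by
    intro hc
    rw [hc] at h1
    linarith [h1.2, h2.1]
  apply m_orth hjk (fun ξ => P j ((r : ℂ) • ξ)) (fun ξ => P' k ((r : ℂ) • ξ))
  · intro c ξ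
    show P j ((r : ℂ) • (c • ξ)) = _
    rw [smul_comm, hPh]
  · intro c ξ
    show P' k ((r : ℂ) • (c • ξ)) = _
    rw [smul_comm, hPh']

/-- TARGET -/
theorem band_cont (n : ℕ) (a b N : ℝ) (F : E n → ℂ) (hF : Band n a b N F) : Continuous F := by
  obtain ⟨P, hPc, hPh, hPv, hPs⟩ := hF
  rw [show F = fun z => ∑ k ∈ Finset.range ⌈b * N⌉₊, P k z from funext hPs]
  exact continuous_finsetSum _ (fun k _ => hPc k)

/-- TARGET -/
theorem band_kk (n : ℕ) (β : ℝ → ℝ) (a b : ℝ) (hβ : Bump β a b) (N : ℝ) (hN : 0 < N) (x : E n) :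
    Band n a b N (kk n β N x) := by
  refine ⟨fun k z => ((β ((k : ℝ) / N) * cn n k : ℝ) : ℂ) * (inner ℂ x z) ^ k, ?_, ?_, ?_, ?_⟩
  · intro k
    exact continuous_const.mul ((continuous_const.inner continuous_id).pow k)
  · intro k c z
    simp only
    rw [inner_smul_right, mul_pow]
    ring
  · intro k hk z
    simp only
    rw [B16_vanish hβ hN hk]
    simp
  · intro z
    exact B16_kk hβ hN le_rfl x z

/-- TARGET -/
theorem band_sum (n : ℕ) (a b N : ℝ) {ι : Type} (s : Finset ι) (y : ι → ℂ) (F : ι → E n → ℂ)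
    (hF : ∀ i ∈ s, Band n a b N (F i)) : Band n a b N (fun z => ∑ i ∈ s, y i * F i z) := by
  unfold Band at hF
  choose! P hP using hF
  refine ⟨fun k z => ∑ i ∈ s, y i * P i k z, ?_, ?_, ?_, ?_⟩
  · intro k
    exact continuous_finsetSum _ (fun i hi => continuous_const.mul ((hP i hi).1 k))
  · intro k c z
    simp only
    rw [Finset.mul_sum]
    apply Finset.sum_congr rfl
    intro i hi
    rw [(hP i hi).2.1]
    ring
  · intro k hk z
    apply Finset.sum_eq_zero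
    intro i hi
    rw [(hP i hi).2.2.1 k hk, mul_zero]
  · intro z
    simp only
    rw [Finset.sum_comm]
    apply Finset.sum_congr rfl
    intro i hi
    rw [(hP i hi).2.2.2, Finset.mul_sum]

lemma B16_int_cont (n : ℕ) (hn : 1 ≤ n) (φ : E n → ℂ) (hφ : Continuous φ) (R : Set (E n)) (k : ℕ) :
    Continuous (fun z : E n => ∫ ζ in R, φ ζ * (inner ℂ ζ z : ℂ) ^ k ∂(sig n)) := by
  rw [continuous_iff_continuousAt]
  intro z₀
  refine continuousAt_of_dominated (bound := fun ζ => ‖φ ζ‖ * (‖z₀‖ + 1) ^ k) ?_ ?_ ?_ ?_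
  · refine Filter.Eventually.of_forall fun z => ?_
    exact (hφ.mul ((continuous_id.inner continuous_const).pow k)).aestronglyMeasurable
  · filter_upwards [Metric.ball_mem_nhds z₀ one_pos] with z hz
    filter_upwards [ae_restrict_of_ae (sig_ae_norm hn)] with ζ hζ
    rw [norm_mul, norm_pow]
    have h1 : ‖(inner ℂ ζ z : ℂ)‖ ≤ ‖z₀‖ + 1 := by
      calc ‖(inner ℂ ζ z : ℂ)‖ ≤ ‖ζ‖ * ‖z‖ := norm_inner_le_norm _ _
        _ = ‖z‖ := by rw [hζ, one_mul]
        _ = ‖z₀ + (z - z₀)‖ := by rw [add_sub_cancel]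
        _ ≤ ‖z₀‖ + ‖z - z₀‖ := norm_add_le _ _
        _ ≤ ‖z₀‖ + 1 := by
          rw [Metric.mem_ball, dist_eq_norm] at hz
          linarith
    gcongr
  · exact ((m_integrable hn hφ).norm.mul_const _).integrableOn
  · refine Filter.Eventually.of_forall fun ζ => ?_
    exact (continuous_const.mul ((continuous_const.inner continuous_id).pow k)).continuousAt

/-- TARGET -/
theorem band_int (n : ℕ) (hn : 1 ≤ n) (β : ℝ → ℝ) (a b : ℝ) (hβ : Bump β a b) (N : ℝ) (hN : 0 < N)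
    (φ : E n → ℂ) (hφ : Continuous φ) (R : Set (E n)) (hR : MeasurableSet R) :
    Band n a b N (fun z => ∫ ζ in R, φ ζ * kk n β N ζ z ∂(sig n)) := by
  refine ⟨fun k z => ((β ((k : ℝ) / N) * cn n k : ℝ) : ℂ) *
    ∫ ζ in R, φ ζ * (inner ℂ ζ z : ℂ) ^ k ∂(sig n), ?_, ?_, ?_, ?_⟩
  · intro k
    exact continuous_const.mul (B16_int_cont n hn φ hφ R k)
  · intro k c z
    simp only
    have e : ∀ ζ : E n, φ ζ * (inner ℂ ζ (c • z) : ℂ) ^ k = c ^ k * (φ ζ * (inner ℂ ζ z : ℂ) ^ k) := by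
      intro ζ
      rw [inner_smul_right, mul_pow]
      ring
    simp_rw [e]
    rw [integral_const_mul]
    ring
  · intro k hk z
    simp only
    rw [B16_vanish hβ hN hk]
    simp
  · intro z
    simp only
    have e : ∀ ζ : E n, φ ζ * kk n β N ζ z = ∑ k ∈ Finset.range ⌈b * N⌉₊,
        ((β ((k : ℝ) / N) * cn n k : ℝ) : ℂ) * (φ ζ * (inner ℂ ζ z : ℂ) ^ k) := by
      intro ζ
      rw [B16_kk hβ hN le_rfl, Finset.mul_sum]
      apply Finset.sum_congr rfl
      intro k _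
      ring
    simp_rw [e]
    rw [integral_finsetSum]
    · apply Finset.sum_congr rfl
      intro k _
      rw [integral_const_mul]
    · intro k _
      have hc : Continuous (fun ζ : E n => ((β ((k : ℝ) / N) * cn n k : ℝ) : ℂ) *
          (φ ζ * (inner ℂ ζ z : ℂ) ^ k)) :=
        continuous_const.mul (hφ.mul ((continuous_id.inner continuous_const).pow k))
      exact (m_integrable hn hc).integrableOn

end Pool.Agent.HpBall2
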