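import Mathlib
import Pool.Agent.HpBall2.Defs
import Pool.Agent.HpBall.Geom
import Pool.Agent.HpBall.Sphere
import Pool.Agent.HpBall.Kernel

set_option autoImplicit false

open MeasureTheory Complex
open scoped ENNReal NNReal

namespace Pool.Agent.HpBall2

open Pool.Agent.HpBall

theorem B04_poly (m : ℕ) : ∃ P : Polynomial ℝ, P.natDegree ≤ m ∧
    ∀ k : ℕ, ((k + m).choose m : ℝ) = P.eval (k : ℝ) := by
  induction m with
  | zero =>
    refine ⟨1, ?_, ?_⟩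
    · rw [Polynomial.natDegree_one]
    · intro k
      simp
  | succ m ih =>
    obtain ⟨P, hP1, hP2⟩ := ih
    refine ⟨P * (Polynomial.X + Polynomial.C ((m : ℝ) + 1)) * Polynomial.C (((m : ℝ) + 1)⁻¹), ?_, ?_⟩
    · refine (Polynomial.natDegree_mul_le).trans ?_
      rw [Polynomial.natDegree_C, add_zero]
      refine (Polynomial.natDegree_mul_le).trans ?_
      rw [Polynomial.natDegree_X_add_C]
      omega
    · intro k
      rw [Polynomial.eval_mul, Polynomial.eval_mul, Polynomial.eval_add, Polynomial.eval_X,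
        Polynomial.eval_C, Polynomial.eval_C, ← hP2]
      have h := Nat.add_one_mul_choose_eq (k + m) m
      have h2 : ((k : ℝ) + m + 1) * ((k + m).choose m : ℝ) =
          ((k + (m + 1)).choose (m + 1) : ℝ) * ((m : ℝ) + 1) := by
        exact_mod_cast h
      have hm : (m : ℝ) + 1 ≠ 0 := by positivity
      field_simp
      linarith

theorem B04_cn (n : ℕ) (hn : 1 ≤ n) : ∃ g : ℕ → ℝ, ∀ k : ℕ,
    cn n k = ∑ j ∈ Finset.range n, g j * (k : ℝ) ^ j := by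
  obtain ⟨m, rfl⟩ : ∃ m, n = m + 1 := ⟨n - 1, by omega⟩
  obtain ⟨P, hP1, hP2⟩ := B04_poly m
  refine ⟨fun j => P.coeff j / Real.pi ^ (m + 1), ?_⟩
  intro k
  unfold cn
  have e : k + (m + 1) - 1 = k + m := by omega
  have e2 : m + 1 - 1 = m := by omega
  rw [e, e2, hP2, Polynomial.eval_eq_sum_range' (n := m + 1) (by omega), Finset.sum_div]
  apply Finset.sum_congr rfl
  intro j _
  ring

theorem B04_bump (β : ℝ → ℝ) (a b : ℝ) (hβ : Bump β a b) (j : ℕ) :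
    Bump (fun t => t ^ j * β t) a b where
  apos := hβ.apos
  ab := hβ.ab
  smooth := (contDiff_id.pow j).mul hβ.smooth
  lo := fun x hx => by
    show x ^ j * β x = 0
    rw [hβ.lo x hx, mul_zero]
  hi := fun x hx => by
    show x ^ j * β x = 0
    rw [hβ.hi x hx, mul_zero]

theorem B04_kk (n : ℕ) (β : ℝ → ℝ) (a b : ℝ) (hβ : Bump β a b) (g : ℕ → ℝ)
    (hg : ∀ k : ℕ, cn n k = ∑ j ∈ Finset.range n, g j * (k : ℝ) ^ j) (N : ℝ) (hN : 0 < N) (x z : E n) :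
    kk n β N x z = ∑ j ∈ Finset.range n, ((g j * N ^ j : ℝ) : ℂ) *
      ker (fun t => t ^ j * β t) N (inner ℂ x z) := by
  obtain ⟨K, hK⟩ : ∃ K : ℕ, K = ⌈b * N⌉₊ := ⟨_, rfl⟩
  have hKb : b * N ≤ K := by
    rw [hK]
    exact Nat.le_ceil _
  have h1 : kk n β N x z = ∑ k ∈ Finset.range K, ((β ((k : ℝ) / N) * cn n k : ℝ) : ℂ) * (inner ℂ x z) ^ k := by
    unfold kk
    apply tsum_eq_sum
    intro k hk
    have hk' : K ≤ k := by simpa using hk
    have h2 : b ≤ (k : ℝ) / N := by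
      rw [le_div_iff₀ hN]
      exact hKb.trans (by exact_mod_cast hk')
    rw [hβ.hi _ h2]
    simp
  rw [h1]
  have h3 : ∀ j, ker (fun t => t ^ j * β t) N (inner ℂ x z) = ∑ k ∈ Finset.range K,
      ((((k : ℝ) / N) ^ j * β ((k : ℝ) / N) : ℝ) : ℂ) * (inner ℂ x z) ^ k := by
    intro j
    exact ker_eq_sum (fun t => t ^ j * β t) b N hN (B04_bump β a b hβ j).hi _ K hKb
  simp only [h3, Finset.mul_sum]
  rw [Finset.sum_comm]
  apply Finset.sum_congr rfl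
  intro k _
  have h4 : β ((k : ℝ) / N) * cn n k =
      ∑ j ∈ Finset.range n, (g j * N ^ j) * (((k : ℝ) / N) ^ j * β ((k : ℝ) / N)) := by
    rw [hg, Finset.mul_sum]
    apply Finset.sum_congr rfl
    intro j _
    have : N ^ j ≠ 0 := by positivity
    rw [div_pow]
    field_simp
  rw [h4]
  push_cast
  rw [Finset.sum_mul]
  apply Finset.sum_congr rfl
  intro j _
  ring

theorem B04_half (u : ℂ) (hu : ‖u‖ ≤ 1) (r : ℝ) (hr0 : 0 ≤ r) (hr1 : r ≤ 1) :
    ‖1 - u‖ / 2 ≤ ‖1 - (r : ℂ) * u‖ := by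
  have h1 : ‖1 - u‖ ≤ ‖1 - (r : ℂ) * u‖ + ‖((r - 1 : ℝ) : ℂ) * u‖ := by
    have e : 1 - u = (1 - (r : ℂ) * u) + ((r - 1 : ℝ) : ℂ) * u := by
      push_cast
      ring
    calc ‖1 - u‖ = ‖(1 - (r : ℂ) * u) + ((r - 1 : ℝ) : ℂ) * u‖ := by rw [← e]
      _ ≤ _ := norm_add_le _ _
  have h2 : ‖((r - 1 : ℝ) : ℂ) * u‖ ≤ 1 - r := by
    rw [norm_mul, Complex.norm_real, Real.norm_eq_abs, abs_of_nonpos (by linarith)]
    nlinarith [norm_nonneg u]
  have h3 : 1 - r ≤ ‖1 - (r : ℂ) * u‖ := by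
    have h4 : ‖(1 : ℂ)‖ - ‖(r : ℂ) * u‖ ≤ ‖1 - (r : ℂ) * u‖ := norm_sub_norm_le _ _
    rw [norm_one, norm_mul, Complex.norm_real, Real.norm_eq_abs, abs_of_nonneg hr0] at h4
    nlinarith [norm_nonneg u]
  linarith

/-- TARGET -/
theorem kk_decay (n : ℕ) (hn : 1 ≤ n) (β : ℝ → ℝ) (a b : ℝ) (hβ : Bump β a b) (K : ℝ) (hK : 0 ≤ K)
    (N₀ : ℝ) (hN₀ : 0 < N₀) : ∃ B : ℝ, 0 < B ∧ ∀ N : ℝ, N₀ ≤ N → ∀ x ξ : E n, ‖x‖ = 1 → ‖ξ‖ = 1 →
    ∀ r : ℝ, 0 ≤ r → r ≤ 1 →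
      ‖kk n β N x ((r : ℂ) • ξ)‖ ≤ B * N ^ (n : ℝ) * (1 + N * rho ξ x) ^ (-K) := by
  obtain ⟨g, hg⟩ := B04_cn n hn
  obtain ⟨M, hM⟩ : ∃ M : ℕ, M = ⌈K⌉₊ := ⟨_, rfl⟩
  have hKM : K ≤ M := by
    rw [hM]
    exact Nat.le_ceil _
  have hker := fun j : ℕ => multiplier_kernel (fun t => t ^ j * β t) a b (B04_bump β a b hβ j) M N₀ hN₀
  choose C hC0 hC using hker
  obtain ⟨B, hB⟩ : ∃ B : ℝ, B = ∑ j ∈ Finset.range n, |g j| * C j * (N₀ ^ (n - (j + 1)))⁻¹ * 2 ^ M := ⟨_, rfl⟩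
  have hB0 : 0 ≤ B := by
    rw [hB]
    apply Finset.sum_nonneg
    intro j _
    have := hC0 j
    positivity
  refine ⟨B + 1, by linarith, ?_⟩
  intro N hN x ξ hx hξ r hr0 hr1
  have hNp : 0 < N := hN₀.trans_le hN
  obtain ⟨u, hu⟩ : ∃ u : ℂ, u = inner ℂ x ξ := ⟨_, rfl⟩
  have hun : ‖u‖ ≤ 1 := by
    rw [hu]
    refine (norm_inner_le_norm _ _).trans ?_
    rw [hx, hξ, mul_one]
  have hw : (inner ℂ x ((r : ℂ) • ξ) : ℂ) = (r : ℂ) * u := by
    rw [inner_smul_right, hu]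
  have hrho : rho ξ x = ‖1 - u‖ := by
    rw [rho_comm, hu]
    rfl
  obtain ⟨s, hs⟩ : ∃ s : ℝ, s = ‖1 - u‖ := ⟨_, rfl⟩
  have hs0 : 0 ≤ s := by rw [hs]; positivity
  rw [hrho, ← hs, Real.rpow_natCast]
  rw [B04_kk n β a b hβ g hg N hNp, hw]
  have hwn : ‖(r : ℂ) * u‖ ≤ 1 := by
    rw [norm_mul, Complex.norm_real, Real.norm_eq_abs, abs_of_nonneg hr0]
    nlinarith [norm_nonneg u]
  have hdec : (1 + N * ‖1 - (r : ℂ) * u‖) ^ (-(M : ℝ)) ≤ 2 ^ M * (1 + N * s) ^ (-K) := by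
    have h1 : (1 + N * s) / 2 ≤ 1 + N * ‖1 - (r : ℂ) * u‖ := by
      have h2 := B04_half u hun r hr0 hr1
      rw [← hs] at h2
      have h3 := mul_le_mul_of_nonneg_left h2 hNp.le
      linarith
    have h4 : 0 < (1 + N * s) / 2 := by positivity
    calc (1 + N * ‖1 - (r : ℂ) * u‖) ^ (-(M : ℝ)) ≤ ((1 + N * s) / 2) ^ (-(M : ℝ)) :=
          Real.rpow_le_rpow_of_nonpos h4 h1 (by
            have : (0 : ℝ) ≤ M := by positivity
            linarith)
      _ = 2 ^ M * (1 + N * s) ^ (-(M : ℝ)) := by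
          rw [Real.div_rpow (by positivity) (by norm_num), Real.rpow_neg (by norm_num : (0 : ℝ) ≤ 2),
            Real.rpow_natCast]
          field_simp
      _ ≤ 2 ^ M * (1 + N * s) ^ (-K) := by
          apply mul_le_mul_of_nonneg_left _ (by positivity)
          apply Real.rpow_le_rpow_of_exponent_le
          · nlinarith
          · linarith
  calc ‖∑ j ∈ Finset.range n, ((g j * N ^ j : ℝ) : ℂ) * ker (fun t => t ^ j * β t) N ((r : ℂ) * u)‖
      ≤ ∑ j ∈ Finset.range n, ‖((g j * N ^ j : ℝ) : ℂ) * ker (fun t => t ^ j * β t) N ((r : ℂ) * u)‖ :=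
        norm_sum_le _ _
    _ ≤ ∑ j ∈ Finset.range n, |g j| * C j * (N₀ ^ (n - (j + 1)))⁻¹ * 2 ^ M * (N ^ n * (1 + N * s) ^ (-K)) := by
        apply Finset.sum_le_sum
        intro j hj
        rw [Finset.mem_range] at hj
        have hCj := hC0 j
        rw [norm_mul, Complex.norm_real, Real.norm_eq_abs, abs_mul, abs_of_pos (by positivity : 0 < N ^ j)]
        have h5 : N ^ j * N ≤ (N₀ ^ (n - (j + 1)))⁻¹ * N ^ n := by
          have h6 : N ^ n = N ^ (n - (j + 1)) * (N ^ j * N) := by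
            rw [← pow_succ, ← pow_add]
            congr 1
            omega
          have h7 : N₀ ^ (n - (j + 1)) ≤ N ^ (n - (j + 1)) := pow_le_pow_left₀ hN₀.le hN _
          rw [h6, ← mul_assoc]
          have h8 : 1 ≤ (N₀ ^ (n - (j + 1)))⁻¹ * N ^ (n - (j + 1)) := by
            rw [inv_mul_eq_div, le_div_iff₀ (by positivity), one_mul]
            exact h7
          nlinarith [mul_pos (pow_pos hNp j) hNp]
        calc |g j| * N ^ j * ‖ker (fun t => t ^ j * β t) N ((r : ℂ) * u)‖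
            ≤ |g j| * N ^ j * (C j * N * (1 + N * ‖1 - (r : ℂ) * u‖) ^ (-(M : ℝ))) :=
              mul_le_mul_of_nonneg_left (hC j N hN _ hwn) (by positivity)
          _ ≤ |g j| * N ^ j * (C j * N * (2 ^ M * (1 + N * s) ^ (-K))) := by
              apply mul_le_mul_of_nonneg_left _ (by positivity)
              exact mul_le_mul_of_nonneg_left hdec (by positivity)
          _ = (|g j| * C j * 2 ^ M * (1 + N * s) ^ (-K)) * (N ^ j * N) := by ring
          _ ≤ (|g j| * C j * 2 ^ M * (1 + N * s) ^ (-K)) * ((N₀ ^ (n - (j + 1)))⁻¹ * N ^ n) :=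
              mul_le_mul_of_nonneg_left h5 (by positivity)
          _ = _ := by ring
    _ = B * N ^ n * (1 + N * s) ^ (-K) := by
        rw [← Finset.sum_mul, ← hB]
        ring
    _ ≤ (B + 1) * N ^ n * (1 + N * s) ^ (-K) := by
        apply mul_le_mul_of_nonneg_right _ (by positivity)
        apply mul_le_mul_of_nonneg_right _ (by positivity)
        linarith

end Pool.Agent.HpBall2
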