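import Mathlib
import Pool.Agent.HpBall.Defs2
import Pool.Agent.HpBall.Geom
import Pool.Agent.HpBall.Sphere

set_option autoImplicit false

open MeasureTheory Complex
open scoped ENNReal NNReal

namespace Pool.Agent.HpBall2

open Pool.Agent.HpBall

theorem J17b_sum_div (g : ℕ → ℝ) (b : ℕ) (hb : 0 < b) (a : ℕ) :
    ∑ j ∈ Finset.range (a * b), g (j / b) = b * ∑ i ∈ Finset.range a, g i := by
  induction a with
  | zero => simp
  | succ a ih =>
    rw [Nat.succ_mul, Finset.sum_range_add, ih, Finset.sum_range_succ, mul_add]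
    congr 1
    rw [Finset.sum_congr rfl (g := fun _ => g a)]
    · simp
    · intro i hi
      congr 1
      rw [mul_comm, Nat.mul_add_div hb, Nat.div_eq_of_lt (Finset.mem_range.1 hi)]
      simp

theorem J17b_mean (g : ℕ → ℝ) (L l : ℕ) (h : l ≤ L) :
    (1 / 2 ^ L : ℝ) * ∑ j ∈ Finset.range (2 ^ L), g (j / 2 ^ (L - l)) =
      (1 / 2 ^ l) * ∑ i ∈ Finset.range (2 ^ l), g i := by
  have e : 2 ^ L = 2 ^ l * 2 ^ (L - l) := by
    rw [← pow_add]; congr 1; omega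
  have e' : (2 : ℝ) ^ L = 2 ^ l * 2 ^ (L - l) := by
    rw [← pow_add]; congr 1; omega
  rw [e, J17b_sum_div g _ (by positivity), e']
  push_cast
  have h1 : (2 : ℝ) ^ l ≠ 0 := by positivity
  have h2 : (2 : ℝ) ^ (L - l) ≠ 0 := by positivity
  field_simp

/-- TARGET -/
theorem fnorm_of_weights (p : ℝ) (hp : 0 < p) (hp1 : p < 2) (D : ℝ) (hD : 0 < D) :
    ∃ D' : ℝ, 0 < D' ∧ ∀ (L : ℕ) (x : ℕ → ℕ → ℂ) (W : ℕ → ℕ → ℝ) (M : ℝ), 1 ≤ L → 0 < M →
      (∀ l i, 0 ≤ W l i) →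
      (∀ sel : ℕ → ℕ, (∀ j, sel j < L) →
        (1 / 2 ^ L) * ∑ j ∈ Finset.range (2 ^ L), W (sel j) (j / 2 ^ (L - sel j)) ^ 2 ≤ D * M) →
      ∑ l ∈ Finset.range L, (1 / 2 ^ l) * ∑ i ∈ Finset.range (2 ^ l),
        ‖x l i‖ ^ 2 * (W l i ^ (4 / p) + M ^ (2 / p)) ^ (-((2 - p) / 2)) ≤ D * M →
      fnorm p L x ≤ D' * M := by
  refine ⟨D + 1, by linarith, ?_⟩
  intro L x W M hL hM hW hsel hsum
  set w : ℕ → ℕ → ℝ := fun l i => W l i ^ (4 / p) + M ^ (2 / p) with hw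
  have hwpos : ∀ l i, 0 < w l i := fun l i => by
    have h1 : 0 ≤ W l i ^ (4 / p) := Real.rpow_nonneg (hW l i) _
    have h2 : 0 < M ^ (2 / p) := Real.rpow_pos_of_pos hM _
    show 0 < W l i ^ (4 / p) + M ^ (2 / p)
    linarith
  set f : ℕ → ℕ → ℝ := fun l i => ‖x l i‖ ^ 2 * w l i ^ (-((2 - p) / 2)) with hf
  have hf0 : ∀ l i, 0 ≤ f l i := fun l i =>
    mul_nonneg (by positivity) (Real.rpow_nonneg (hwpos l i).le _)
  have hex : ∀ j, ∃ s < L, ∀ l < L, W l (j / 2 ^ (L - l)) ≤ W s (j / 2 ^ (L - s)) := by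
    intro j
    obtain ⟨s, hs, hmax⟩ := Finset.exists_max_image (Finset.range L)
      (fun l => W l (j / 2 ^ (L - l))) ⟨0, Finset.mem_range.2 hL⟩
    exact ⟨s, Finset.mem_range.1 hs, fun l hl => hmax l (Finset.mem_range.2 hl)⟩
  choose sel hselL hselmax using hex
  have hS := hsel sel hselL
  set ws : ℕ → ℝ := fun j => w (sel j) (j / 2 ^ (L - sel j)) with hws
  have hws0 : ∀ j, 0 < ws j := fun j => hwpos _ _
  set F : ℕ → ℝ := fun j => ∑ l ∈ Finset.range L, f l (j / 2 ^ (L - l)) with hF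
  have hF0 : ∀ j, 0 ≤ F j := fun j => Finset.sum_nonneg fun l _ => hf0 _ _
  have hG : ∀ j, ∑ l ∈ Finset.range L, ‖x l (j / 2 ^ (L - l))‖ ^ 2 ≤
      ws j ^ ((2 - p) / 2) * F j := by
    intro j
    rw [hF]
    simp only
    rw [Finset.mul_sum]
    refine Finset.sum_le_sum fun l hl => ?_
    have hlL := Finset.mem_range.1 hl
    set i := j / 2 ^ (L - l) with hi
    have e1 : ‖x l i‖ ^ 2 = w l i ^ ((2 - p) / 2) * f l i := by
      simp only [hf]
      rw [mul_comm (‖x l i‖ ^ 2), ← mul_assoc, ← Real.rpow_add (hwpos l i)]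
      simp
    rw [e1]
    refine mul_le_mul_of_nonneg_right ?_ (hf0 _ _)
    refine Real.rpow_le_rpow (hwpos _ _).le ?_ (by linarith)
    show W l i ^ (4 / p) + M ^ (2 / p) ≤
      W (sel j) (j / 2 ^ (L - sel j)) ^ (4 / p) + M ^ (2 / p)
    have := Real.rpow_le_rpow (hW l i) (hselmax j l hlL) (by positivity : (0:ℝ) ≤ 4 / p)
    linarith
  have hpt : ∀ j, (∑ l ∈ Finset.range L, ‖x l (j / 2 ^ (L - l))‖ ^ 2) ^ (p / 2) ≤
      (W (sel j) (j / 2 ^ (L - sel j)) ^ 2 + M) * ((2 - p) / 2) + (p / 2) * F j := by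
    intro j
    have h1 : (∑ l ∈ Finset.range L, ‖x l (j / 2 ^ (L - l))‖ ^ 2) ^ (p / 2) ≤
        (ws j ^ ((2 - p) / 2) * F j) ^ (p / 2) :=
      Real.rpow_le_rpow (Finset.sum_nonneg fun l _ => by positivity) (hG j) (by linarith)
    have h2 : (ws j ^ ((2 - p) / 2) * F j) ^ (p / 2) =
        (ws j ^ (p / 2)) ^ ((2 - p) / 2) * (F j) ^ (p / 2) := by
      rw [Real.mul_rpow (Real.rpow_nonneg (hws0 j).le _) (hF0 j), ← Real.rpow_mul (hws0 j).le,
        ← Real.rpow_mul (hws0 j).le]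
      congr 2
      ring
    have h3 : (ws j ^ (p / 2)) ^ ((2 - p) / 2) * (F j) ^ (p / 2) ≤
        ((2 - p) / 2) * (ws j ^ (p / 2)) + (p / 2) * F j :=
      Real.geom_mean_le_arith_mean2_weighted (by linarith) (by linarith)
        (Real.rpow_nonneg (hws0 j).le _) (hF0 j) (by ring)
    have h4 : ws j ^ (p / 2) ≤ W (sel j) (j / 2 ^ (L - sel j)) ^ 2 + M := by
      have h5 : ws j ^ (p / 2) ≤ (W (sel j) (j / 2 ^ (L - sel j)) ^ (4 / p)) ^ (p / 2) +
          (M ^ (2 / p)) ^ (p / 2) := by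
        exact Real.rpow_add_le_add_rpow (Real.rpow_nonneg (hW _ _) _)
          (Real.rpow_nonneg hM.le _) (by linarith) (by linarith)
      have h6 : (W (sel j) (j / 2 ^ (L - sel j)) ^ (4 / p)) ^ (p / 2) =
          W (sel j) (j / 2 ^ (L - sel j)) ^ 2 := by
        rw [← Real.rpow_mul (hW _ _)]
        have : 4 / p * (p / 2) = 2 := by field_simp; norm_num
        rw [this]
        norm_cast
      have h7 : (M ^ (2 / p)) ^ (p / 2) = M := by
        rw [← Real.rpow_mul hM.le]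
        have : 2 / p * (p / 2) = 1 := by field_simp
        rw [this, Real.rpow_one]
      rw [h6, h7] at h5
      exact h5
    have h8 : (0 : ℝ) < (2 - p) / 2 := by linarith
    have h9 := mul_le_mul_of_nonneg_left h4 h8.le
    linarith
  have hA : fnorm p L x ≤ (1 / 2 ^ L) * ∑ j ∈ Finset.range (2 ^ L),
      ((W (sel j) (j / 2 ^ (L - sel j)) ^ 2 + M) * ((2 - p) / 2) + (p / 2) * F j) := by
    unfold fnorm
    exact mul_le_mul_of_nonneg_left (Finset.sum_le_sum fun j _ => hpt j) (by positivity)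
  have hB : (1 / 2 ^ L : ℝ) * ∑ j ∈ Finset.range (2 ^ L),
      ((W (sel j) (j / 2 ^ (L - sel j)) ^ 2 + M) * ((2 - p) / 2) + (p / 2) * F j) =
      ((1 / 2 ^ L) * ∑ j ∈ Finset.range (2 ^ L), W (sel j) (j / 2 ^ (L - sel j)) ^ 2 + M) *
        ((2 - p) / 2) + (p / 2) * ((1 / 2 ^ L) * ∑ j ∈ Finset.range (2 ^ L), F j) := by
    rw [Finset.sum_add_distrib, ← Finset.sum_mul, Finset.sum_add_distrib, ← Finset.mul_sum]
    simp only [Finset.sum_const, Finset.card_range, nsmul_eq_mul]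
    push_cast
    have : (2 : ℝ) ^ L ≠ 0 := by positivity
    field_simp
  have hC : (1 / 2 ^ L : ℝ) * ∑ j ∈ Finset.range (2 ^ L), F j ≤ D * M := by
    have e : (1 / 2 ^ L : ℝ) * ∑ j ∈ Finset.range (2 ^ L), F j =
        ∑ l ∈ Finset.range L, (1 / 2 ^ l) * ∑ i ∈ Finset.range (2 ^ l), f l i := by
      simp only [hF]
      rw [Finset.sum_comm, Finset.mul_sum]
      refine Finset.sum_congr rfl fun l hl => ?_
      exact J17b_mean (f l) L l (Finset.mem_range.1 hl).le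
    rw [e]
    exact hsum
  have h8 : (0 : ℝ) < (2 - p) / 2 := by linarith
  have h10 : ((1 / 2 ^ L) * ∑ j ∈ Finset.range (2 ^ L), W (sel j) (j / 2 ^ (L - sel j)) ^ 2 + M) *
        ((2 - p) / 2) ≤ (D * M + M) * ((2 - p) / 2) :=
    mul_le_mul_of_nonneg_right (by linarith) h8.le
  have h11 : (p / 2) * ((1 / 2 ^ L : ℝ) * ∑ j ∈ Finset.range (2 ^ L), F j) ≤
      (p / 2) * (D * M + M) :=
    mul_le_mul_of_nonneg_left (by linarith) (by linarith)
  calc fnorm p L x ≤ _ := hA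
    _ = _ := hB
    _ ≤ (D * M + M) * ((2 - p) / 2) + (p / 2) * (D * M + M) := add_le_add h10 h11
    _ = (D + 1) * M := by ring

end Pool.Agent.HpBall2
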