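import Mathlib
import Pool.Agent.HpBall2.Defs
import Pool.Agent.HpBall.Weights

set_option autoImplicit false

open MeasureTheory Complex
open scoped ENNReal NNReal

namespace Pool.Agent.HpBall2

open Pool.Agent.HpBall

theorem step3b (p : ℝ) (hp : 0 < p) (hp1 : p < 2) (K1 : ℝ) (hK1 : 0 ≤ K1) (C1 : ℝ) (hC1 : 1 ≤ C1)
    (G W Y ε : ℝ) (hG : 0 ≤ G) (hW : 0 ≤ W) (hY : 1 ≤ Y) (hε : 0 < ε)
    (h : G ^ (p / 2) ≤ C1 * Y ^ K1 * W) :
    (W ^ (4 / p) + ε) ^ (-((2 - p) / 2)) ≤
      C1 ^ ((4 / p) * ((2 - p) / 2)) * Y ^ (K1 * (2 - p) / (p / 2)) * (G ^ 2 + ε) ^ (p / 2 - 1) := by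
  have hY0 : 0 < Y := by linarith
  have hC0 : 0 < C1 := by linarith
  have h4p : 0 < 4 / p := by positivity
  have e1 : G ^ 2 = (G ^ (p / 2)) ^ (4 / p) := by
    rw [← Real.rpow_mul hG]
    have : p / 2 * (4 / p) = 2 := by field_simp; norm_num
    rw [this]; norm_num
  have e2 : G ^ 2 ≤ C1 ^ (4 / p) * Y ^ (K1 * (4 / p)) * W ^ (4 / p) := by
    rw [e1]
    calc (G ^ (p / 2)) ^ (4 / p) ≤ (C1 * Y ^ K1 * W) ^ (4 / p) :=
          Real.rpow_le_rpow (by positivity) h h4p.le
      _ = _ := by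
          rw [Real.mul_rpow (by positivity) hW, Real.mul_rpow hC0.le (by positivity),
            ← Real.rpow_mul hY0.le]
  have hc1 : 1 ≤ C1 ^ (4 / p) := Real.one_le_rpow hC1 h4p.le
  have hy1 : 1 ≤ Y ^ (K1 * (4 / p)) := Real.one_le_rpow hY (by positivity)
  have hcy : 1 ≤ C1 ^ (4 / p) * Y ^ (K1 * (4 / p)) := one_le_mul_of_one_le_of_one_le hc1 hy1
  have hw0 : 0 < W ^ (4 / p) + ε := by positivity
  have e3 : G ^ 2 + ε ≤ C1 ^ (4 / p) * Y ^ (K1 * (4 / p)) * (W ^ (4 / p) + ε) := by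
    nlinarith
  have hg0 : 0 < G ^ 2 + ε := by positivity
  have e4 : (C1 ^ (4 / p) * Y ^ (K1 * (4 / p)) * (W ^ (4 / p) + ε)) ^ (-((2 - p) / 2)) ≤
      (G ^ 2 + ε) ^ (-((2 - p) / 2)) :=
    Real.rpow_le_rpow_of_nonpos hg0 e3 (by linarith)
  rw [Real.mul_rpow (by positivity) hw0.le, Real.mul_rpow (by positivity) (by positivity),
    ← Real.rpow_mul hC0.le, ← Real.rpow_mul hY0.le] at e4
  have e5 : C1 ^ ((4 / p) * ((2 - p) / 2)) * C1 ^ ((4 / p) * (-((2 - p) / 2))) = 1 := by
    rw [← Real.rpow_add hC0]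
    have : (4 / p) * ((2 - p) / 2) + (4 / p) * (-((2 - p) / 2)) = 0 := by ring
    rw [this, Real.rpow_zero]
  have e6 : Y ^ (K1 * (2 - p) / (p / 2)) * Y ^ (K1 * (4 / p) * (-((2 - p) / 2))) = 1 := by
    rw [← Real.rpow_add hY0]
    have : K1 * (2 - p) / (p / 2) + K1 * (4 / p) * (-((2 - p) / 2)) = 0 := by
      field_simp; ring
    rw [this, Real.rpow_zero]
  have e7 : (p / 2 - 1) = -((2 - p) / 2) := by ring
  rw [e7]
  calc (W ^ (4 / p) + ε) ^ (-((2 - p) / 2))
      = (C1 ^ ((4 / p) * ((2 - p) / 2)) * C1 ^ ((4 / p) * (-((2 - p) / 2)))) *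
        (Y ^ (K1 * (2 - p) / (p / 2)) * Y ^ (K1 * (4 / p) * (-((2 - p) / 2)))) *
        (W ^ (4 / p) + ε) ^ (-((2 - p) / 2)) := by rw [e5, e6]; ring
    _ = C1 ^ ((4 / p) * ((2 - p) / 2)) * Y ^ (K1 * (2 - p) / (p / 2)) *
        (C1 ^ ((4 / p) * (-((2 - p) / 2))) * Y ^ (K1 * (4 / p) * (-((2 - p) / 2))) *
        (W ^ (4 / p) + ε) ^ (-((2 - p) / 2))) := by ring
    _ ≤ _ := mul_le_mul_of_nonneg_left e4 (by positivity)

set_option maxHeartbeats 2000000 in
theorem weights_gen (n : ℕ) (hn : 1 ≤ n) (p : ℝ) (hp : 0 < p) (hp1 : p < 2) :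
    ∃ K₀ : ℝ, (n : ℝ) < K₀ ∧ ∀ K' : ℝ, K₀ ≤ K' →
    ∀ (pt : ℕ → ℕ → E n) (c C : ℝ) (_ : TreeFam n pt c C) (A : ℝ) (_ : 0 < A)
    (Cc : ℝ) (_ : 0 < Cc), ∃ D : ℝ, 0 < D ∧
    ∀ g : E n → ℂ, DifferentiableOn ℂ g (Metric.ball 0 1) → ∀ M : ℝ, 0 < M →
    (∀ r : ℝ, 0 ≤ r → r < 1 →
      ∫⁻ ξ, ENNReal.ofReal (‖g ((r : ℂ) • ξ)‖ ^ p) ∂(sig n) ≤ ENNReal.ofReal M) →
    ∀ L : ℕ, 1 ≤ L → ∃ W : ℕ → ℕ → ℝ, (∀ l i, 0 ≤ W l i) ∧
      (∀ sel : ℕ → ℕ, (∀ j, sel j < L) →
        (1 / 2 ^ L) * ∑ j ∈ Finset.range (2 ^ L), W (sel j) (j / 2 ^ (L - sel j)) ^ 2 ≤ D * M) ∧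
      ∀ x : ℕ → ℕ → ℂ,
      (∀ l < L, ∀ i, ENNReal.ofReal (‖x l i‖ ^ 2) ≤
        ENNReal.ofReal (Cc * (A * sc n l) ^ ((n : ℝ) - 1)) *
        ∫⁻ t in Set.Ioc ((2 : ℝ) ^ (-(1 / (n : ℝ))) / (A * sc n l)) (1 / (A * sc n l)), ∫⁻ ξ,
          ENNReal.ofReal (‖rad g ((Real.exp (-t) : ℂ) • ξ)‖ ^ 2 *
            (1 + (A * sc n l) * rho ξ (pt l i)) ^ (-K')) ∂(sig n)) →
      ∑ l ∈ Finset.range L, (1 / 2 ^ l) * ∑ i ∈ Finset.range (2 ^ l),
        ‖x l i‖ ^ 2 *
          (W l i ^ (4 / p) + M ^ (2 / p)) ^ (-((2 - p) / 2)) ≤ D * M := by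
  classical
  have hn0 : (0 : ℝ) < n := by exact_mod_cast hn
  set κ : ℝ := (2 : ℝ) ^ (-(1 / (n : ℝ))) with hκdef
  have hκ : 0 < κ := Real.rpow_pos_of_pos (by norm_num) _
  have hκ1 : κ ≤ 1 := by
    apply Real.rpow_le_one_of_one_le_of_nonpos (by norm_num)
    rw [neg_nonpos]; positivity
  have hq : 0 < p / 2 := by positivity
  have hq2 : p / 2 ≤ 2 := by linarith
  have h2p : 0 < 2 - p := by linarith
  set K : ℝ := ((n : ℝ) + 1) + ((n : ℝ) + 1) * (2 - p) / (p / 2) with hKdef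
  have hK : 0 ≤ K := by positivity
  refine ⟨K, by
    have : 0 ≤ ((n : ℝ) + 1) * (2 - p) / (p / 2) := by positivity
    linarith, ?_⟩
  intro K' hK' pt c C hT A hA Cc hCc
  obtain ⟨C1, hC1, hst1⟩ := step1 n hn (p / 2) hq hq2 A hA κ hκ
  have hC10 : 0 < C1 := by linarith
  obtain ⟨Dc, hDc, hcount⟩ := counting n hn pt c C hT ((n : ℝ) + 1) (by linarith)
  obtain ⟨Dt, hDt, htree⟩ := tree_maximal n hn pt c C hT A hA ((n : ℝ) + 1) (by linarith)
  set C3 : ℝ := C1 ^ ((4 / p) * ((2 - p) / 2)) with hC3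
  have hC30 : 0 < C3 := Real.rpow_pos_of_pos hC10 _
  set mA : ℝ := max 1 (1 / A) with hmA
  have hmA0 : 0 < mA := lt_of_lt_of_le one_pos (le_max_left _ _)
  set D4 : ℝ := mA ^ ((n : ℝ) + 1) * Dc with hD4
  have hD40 : 0 < D4 := by positivity
  set S : ℝ := (sig n Set.univ).toReal with hS
  have hS0 : 0 ≤ S := ENNReal.toReal_nonneg
  have hSe : sig n Set.univ = ENNReal.ofReal S := (ENNReal.ofReal_toReal (measure_ne_top _ _)).symm
  set C6 : ℝ := Cc * C3 * D4 * A ^ (n : ℝ) * (2 / κ) with hC6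
  have hC60 : 0 < C6 := by positivity
  set D5 : ℝ := C6 * (1 / p ^ 2 * (1 + S)) with hD5
  have hD50 : 0 < D5 := by positivity
  refine ⟨Dt + D5, by positivity, ?_⟩
  intro g hg M hM hMb L hL
  set ε : ℝ := M ^ (2 / p) with hε
  have hε0 : 0 < ε := Real.rpow_pos_of_pos hM _
  have hεp : ε ^ (p / 2) = M := by
    rw [hε, ← Real.rpow_mul hM.le]
    have : 2 / p * (p / 2) = 1 := by field_simp
    rw [this, Real.rpow_one]
  have hNpos : ∀ l, 0 < A * sc n l := fun l => mul_pos hA (w_sc_pos n l)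
  have hNA : ∀ l, A ≤ A * sc n l := fun l => le_mul_of_one_le_right hA.le (w_one_le_sc n l)
  set x₀ : ℝ := κ / (2 * (A * sc n (L - 1))) with hx₀
  have hx0 : 0 < x₀ := div_pos hκ (mul_pos two_pos (hNpos _))
  have hx2 : ∀ l < L, 2 * x₀ ≤ κ / (A * sc n l) := by
    intro l hl
    have h1 : A * sc n l ≤ A * sc n (L - 1) :=
      mul_le_mul_of_nonneg_left (sc_mono n (by omega)) hA.le
    have h2 : 2 * x₀ = κ / (A * sc n (L - 1)) := by
      rw [hx₀]; field_simp
    rw [h2]
    exact div_le_div_of_nonneg_left hκ.le (hNpos l) h1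
  -- the function `u`
  set u : E n → ℝ≥0∞ := fun η => ENNReal.ofReal
    (‖(Metric.ball (0 : E n) 1).indicator g ((Real.exp (-x₀) : ℂ) • η)‖ ^ (p / 2)) with hu
  have humeas : Measurable u := by
    have h1 : Measurable (fun η : E n =>
        (Metric.ball (0 : E n) 1).indicator g ((Real.exp (-x₀) : ℂ) • η)) :=
      (meas_ind g hg).comp (measurable_const_smul _)
    exact (h1.norm.pow_const _).ennreal_ofReal
  have hu2 : ∫⁻ η, u η ^ 2 ∂(sig n) ≤ ENNReal.ofReal M := by
    refine le_trans (le_of_eq ?_) (hMb (Real.exp (-x₀)) (Real.exp_pos _).le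
      (by rw [← Real.exp_zero]; exact Real.exp_lt_exp.2 (by linarith)))
    apply lintegral_congr_ae
    filter_upwards [sig_ae_norm hn] with η hη
    rw [hu]
    dsimp only
    rw [Set.indicator_of_mem (exp_smul_mem hx0 hη), ← ENNReal.ofReal_pow (by positivity),
      ← Real.rpow_natCast, ← Real.rpow_mul (norm_nonneg _)]
    congr 2
    push_cast; ring
  have hWfin : ∀ l i, WI n (p / 2) x₀ g (A * sc n l) (pt l i) ≠ ⊤ := by
    intro l i
    rw [WI]
    apply ENNReal.mul_ne_top ENNReal.ofReal_ne_top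
    have h1 : ∫⁻ η, ENNReal.ofReal ((1 + A * sc n l * rho η (pt l i)) ^ (-((n : ℝ) + 1))) * u η
        ∂(sig n) ≤ sig n Set.univ + ENNReal.ofReal M := by
      calc _ ≤ ∫⁻ η, (1 + u η ^ 2) ∂(sig n) := by
            apply lintegral_mono
            intro η
            have h2 : ENNReal.ofReal ((1 + A * sc n l * rho η (pt l i)) ^ (-((n : ℝ) + 1))) ≤ 1 := by
              rw [← ENNReal.ofReal_one]
              apply ENNReal.ofReal_le_ofReal
              apply Real.rpow_le_one_of_one_le_of_nonpos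
              · have := mul_nonneg (hNpos l).le (rho_nonneg η (pt l i)); linarith
              · linarith
            have h3 : u η ≤ 1 + u η ^ 2 := by
              rcases le_total (u η) 1 with h | h
              · exact h.trans le_self_add
              · calc u η = u η * 1 := (mul_one _).symm
                  _ ≤ u η * u η := by gcongr
                  _ = u η ^ 2 := by ring
                  _ ≤ _ := le_add_self
            calc _ ≤ 1 * u η := mul_le_mul_left h2 _
              _ ≤ _ := by rw [one_mul]; exact h3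
        _ = sig n Set.univ + ∫⁻ η, u η ^ 2 ∂(sig n) := by
            rw [lintegral_add_left measurable_const]; simp
        _ ≤ _ := add_le_add le_rfl hu2
    exact (h1.trans_lt (ENNReal.add_lt_top.2 ⟨measure_lt_top _ _, ENNReal.ofReal_lt_top⟩)).ne
  refine ⟨fun l i => (WI n (p / 2) x₀ g (A * sc n l) (pt l i)).toReal,
    fun l i => ENNReal.toReal_nonneg, ?_, ?_⟩
  · intro sel hsel
    have h1 := htree u humeas L sel hsel
    have h2 : ENNReal.ofReal ((1 / 2 ^ L) * ∑ j ∈ Finset.range (2 ^ L),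
        (WI n (p / 2) x₀ g (A * sc n (sel j)) (pt (sel j) (j / 2 ^ (L - sel j)))).toReal ^ 2) ≤
        ENNReal.ofReal (Dt * M) := by
      rw [ENNReal.ofReal_mul (by positivity), ENNReal.ofReal_sum_of_nonneg (fun _ _ => sq_nonneg _),
        ENNReal.ofReal_mul hDt.le]
      refine le_trans (le_of_eq ?_) (h1.trans (mul_le_mul_right hu2 _))
      congr 1
      apply Finset.sum_congr rfl
      intro j _
      rw [ENNReal.ofReal_pow ENNReal.toReal_nonneg, ENNReal.ofReal_toReal (hWfin _ _)]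
      rfl
    rw [ENNReal.ofReal_le_ofReal_iff (by positivity)] at h2
    refine h2.trans ?_
    exact mul_le_mul_of_nonneg_right (by linarith) hM.le
  · intro x hcoef0
    have hcoef : ∀ l < L, ∀ i, ENNReal.ofReal (‖x l i‖ ^ 2) ≤
        ENNReal.ofReal (Cc * (A * sc n l) ^ ((n : ℝ) - 1)) *
        ∫⁻ t in Set.Ioc ((2 : ℝ) ^ (-(1 / (n : ℝ))) / (A * sc n l)) (1 / (A * sc n l)), ∫⁻ ξ,
          ENNReal.ofReal (‖rad g ((Real.exp (-t) : ℂ) • ξ)‖ ^ 2 *
            (1 + (A * sc n l) * rho ξ (pt l i)) ^ (-K)) ∂(sig n) := by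
      intro l hl i
      refine (hcoef0 l hl i).trans ?_
      gcongr with t ξ
      · have := mul_nonneg (hNpos l).le (rho_nonneg ξ (pt l i)); linarith
    set W : ℕ → ℕ → ℝ := fun l i => (WI n (p / 2) x₀ g (A * sc n l) (pt l i)).toReal with hW
    have hW0 : ∀ l i, 0 ≤ W l i := fun l i => ENNReal.toReal_nonneg
    set h : ℝ → E n → ℝ := fun t ξ => ‖rad g ((Real.exp (-t) : ℂ) • ξ)‖ ^ 2 *
          (‖g ((Real.exp (-t) : ℂ) • ξ)‖ ^ 2 + ε) ^ (p / 2 - 1) with hh
    have hh0 : ∀ t ξ, 0 ≤ h t ξ := by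
      intro t ξ
      rw [hh]; positivity
    set T : ℕ → Set ℝ := fun l => Set.Ioc (κ / (A * sc n l)) (1 / (A * sc n l)) with hTdef
    have hTm : ∀ l, MeasurableSet (T l) := fun l => measurableSet_Ioc
    -- one term
    have term : ∀ l < L, ∀ i, ENNReal.ofReal ((1 / 2 ^ l) * (‖x l i‖ ^ 2 *
          (W l i ^ (4 / p) + ε) ^ (-((2 - p) / 2)))) ≤
        ∫⁻ t in T l, ∫⁻ ξ, ENNReal.ofReal ((1 / 2 ^ l) * Cc * (A * sc n l) ^ ((n : ℝ) - 1) * C3 *
          h t ξ * (1 + A * sc n l * rho ξ (pt l i)) ^ (-((n : ℝ) + 1))) ∂(sig n) := by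
      intro l hl i
      have hN := hNpos l
      have hcb := hcoef l hl i
      set w : ℝ := (W l i ^ (4 / p) + ε) ^ (-((2 - p) / 2)) with hw
      have hw0 : 0 ≤ w := by
        rw [hw]; apply Real.rpow_nonneg
        have := hW0 l i; positivity
      have e1 : (1 / 2 ^ l) * (‖x l i‖ ^ 2 * w) =
          ((1 / 2 ^ l) * w) * ‖x l i‖ ^ 2 := by ring
      rw [e1, ENNReal.ofReal_mul (by positivity)]
      refine (mul_le_mul_right hcb _).trans ?_
      rw [← mul_assoc, ← ENNReal.ofReal_mul (by positivity),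
        ← lintegral_const_mul' _ _ ENNReal.ofReal_ne_top]
      apply setLIntegral_mono' (hTm l)
      intro t ht
      rw [← lintegral_const_mul' _ _ ENNReal.ofReal_ne_top]
      apply lintegral_mono_ae
      filter_upwards [sig_ae_norm hn] with ξ hξ
      rw [← ENNReal.ofReal_mul (by positivity)]
      apply ENNReal.ofReal_le_ofReal
      set Y : ℝ := 1 + A * sc n l * rho ξ (pt l i) with hY
      have hY1 : 1 ≤ Y := by
        have := mul_nonneg hN.le (rho_nonneg ξ (pt l i)); linarith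
      have hY0 : 0 < Y := by linarith
      have hs1 := hst1 g hg x₀ hx0 (A * sc n l) (hNA l) t ((hx2 l hl).trans ht.1.le) ht.1 ht.2 ξ
        (pt l i) hξ (hT.unit l i)
      have hs1' : ‖g ((Real.exp (-t) : ℂ) • ξ)‖ ^ (p / 2) ≤ C1 * Y ^ ((n : ℝ) + 1) * W l i := by
        have h5 : WI n (p / 2) x₀ g (A * sc n l) (pt l i) = ENNReal.ofReal (W l i) :=
          (ENNReal.ofReal_toReal (hWfin l i)).symm
        rw [h5, ← ENNReal.ofReal_mul (by positivity)] at hs1
        exact (ENNReal.ofReal_le_ofReal_iff (by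
          have := hW0 l i; positivity)).1 hs1
      have hs3 := step3b p hp hp1 ((n : ℝ) + 1) (by positivity) C1 hC1
        ‖g ((Real.exp (-t) : ℂ) • ξ)‖ (W l i) Y ε (norm_nonneg _) (hW0 l i) hY1 hε0 hs1'
      rw [← hw, ← hC3] at hs3
      have hYY : Y ^ (((n : ℝ) + 1) * (2 - p) / (p / 2)) * Y ^ (-K) = Y ^ (-((n : ℝ) + 1)) := by
        rw [← Real.rpow_add hY0]
        congr 1
        rw [hKdef]; ring
      set R : ℝ := ‖rad g ((Real.exp (-t) : ℂ) • ξ)‖ ^ 2 with hR
      have hR0 : 0 ≤ R := sq_nonneg _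
      calc (1 / 2 ^ l) * w * (Cc * (A * sc n l) ^ ((n : ℝ) - 1)) * (R * Y ^ (-K))
          = ((1 / 2 ^ l) * (Cc * (A * sc n l) ^ ((n : ℝ) - 1)) * (R * Y ^ (-K))) * w := by ring
        _ ≤ ((1 / 2 ^ l) * (Cc * (A * sc n l) ^ ((n : ℝ) - 1)) * (R * Y ^ (-K))) *
            (C3 * Y ^ (((n : ℝ) + 1) * (2 - p) / (p / 2)) *
              (‖g ((Real.exp (-t) : ℂ) • ξ)‖ ^ 2 + ε) ^ (p / 2 - 1)) :=
            mul_le_mul_of_nonneg_left hs3 (by positivity)
        _ = (1 / 2 ^ l) * Cc * (A * sc n l) ^ ((n : ℝ) - 1) * C3 *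
            (R * (‖g ((Real.exp (-t) : ℂ) • ξ)‖ ^ 2 + ε) ^ (p / 2 - 1)) *
              (Y ^ (((n : ℝ) + 1) * (2 - p) / (p / 2)) * Y ^ (-K)) := by ring
        _ = _ := by rw [hYY]
    -- one level
    have level : ∀ l < L, ∑ i ∈ Finset.range (2 ^ l), ENNReal.ofReal ((1 / 2 ^ l) *
          (‖x l i‖ ^ 2 *
          (W l i ^ (4 / p) + ε) ^ (-((2 - p) / 2)))) ≤
        ∫⁻ t in T l, ∫⁻ ξ, ENNReal.ofReal (C6 * ((t - x₀) * h t ξ)) ∂(sig n) := by
      intro l hl
      have hN := hNpos l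
      refine (Finset.sum_le_sum (fun i _ => term l hl i)).trans ?_
      refine (sum_lintegral_le _ _ _).trans ?_
      apply setLIntegral_mono' (hTm l)
      intro t ht
      refine (sum_lintegral_le _ _ _).trans ?_
      apply lintegral_mono_ae
      filter_upwards [sig_ae_norm hn] with ξ hξ
      have hY : ∀ i, 0 < 1 + A * sc n l * rho ξ (pt l i) := by
        intro i
        have := mul_nonneg hN.le (rho_nonneg ξ (pt l i)); linarith
      rw [← ENNReal.ofReal_sum_of_nonneg (fun i _ => by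
        have := hh0 t ξ
        have := hY i
        positivity), ← Finset.mul_sum]
      apply ENNReal.ofReal_le_ofReal
      have hsum : ∑ i ∈ Finset.range (2 ^ l), (1 + A * sc n l * rho ξ (pt l i)) ^ (-((n : ℝ) + 1)) ≤
          D4 := by
        have h1 := hcount l ξ hξ
        calc _ ≤ ∑ i ∈ Finset.range (2 ^ l), mA ^ ((n : ℝ) + 1) *
              (1 + sc n l * rho ξ (pt l i)) ^ (-((n : ℝ) + 1)) := by
              apply Finset.sum_le_sum
              intro i _
              have hy := mul_nonneg (w_sc_pos n l).le (rho_nonneg ξ (pt l i))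
              set y := sc n l * rho ξ (pt l i) with hydef
              have e1 : A * sc n l * rho ξ (pt l i) = A * y := by rw [hydef]; ring
              rw [e1]
              have hAy : 0 < 1 + A * y := by positivity
              have h2 : 1 + y ≤ mA * (1 + A * y) := by
                have a1 : 1 ≤ mA := le_max_left _ _
                have a2 : 1 / A ≤ mA := le_max_right _ _
                have a3 : 1 ≤ mA * A := by
                  rw [div_le_iff₀ hA] at a2; exact a2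
                nlinarith
              have h3 : (mA * (1 + A * y)) ^ (-((n : ℝ) + 1)) ≤ (1 + y) ^ (-((n : ℝ) + 1)) :=
                Real.rpow_le_rpow_of_nonpos (by positivity) h2 (by linarith)
              rw [Real.mul_rpow hmA0.le hAy.le] at h3
              have h4 : mA ^ ((n : ℝ) + 1) * mA ^ (-((n : ℝ) + 1)) = 1 := by
                rw [← Real.rpow_add hmA0]; simp
              calc (1 + A * y) ^ (-((n : ℝ) + 1)) = (mA ^ ((n : ℝ) + 1) * mA ^ (-((n : ℝ) + 1))) *
                    (1 + A * y) ^ (-((n : ℝ) + 1)) := by rw [h4, one_mul]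
                _ = mA ^ ((n : ℝ) + 1) * (mA ^ (-((n : ℝ) + 1)) *
                    (1 + A * y) ^ (-((n : ℝ) + 1))) := by ring
                _ ≤ _ := mul_le_mul_of_nonneg_left h3 (by positivity)
          _ = mA ^ ((n : ℝ) + 1) * ∑ i ∈ Finset.range (2 ^ l),
              (1 + sc n l * rho ξ (pt l i)) ^ (-((n : ℝ) + 1)) := by rw [Finset.mul_sum]
          _ ≤ _ := mul_le_mul_of_nonneg_left h1 (by positivity)
      have hBl : (1 / 2 ^ l) * (A * sc n l) ^ ((n : ℝ) - 1) = A ^ (n : ℝ) / (A * sc n l) := by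
        rw [Real.rpow_sub hN, Real.rpow_one, Real.mul_rpow hA.le (w_sc_pos n l).le, w_sc_pow n hn]
        field_simp
      have htx : A ^ (n : ℝ) / (A * sc n l) ≤ A ^ (n : ℝ) * (2 / κ) * (t - x₀) := by
        have h1 : κ / (A * sc n l) / 2 ≤ t - x₀ := by
          have := hx2 l hl
          have := ht.1
          linarith
        calc A ^ (n : ℝ) / (A * sc n l) = A ^ (n : ℝ) * (2 / κ) * (κ / (A * sc n l) / 2) := by
              field_simp
          _ ≤ _ := mul_le_mul_of_nonneg_left h1 (by positivity)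
      have hhn := hh0 t ξ
      calc (1 / 2 ^ l) * Cc * (A * sc n l) ^ ((n : ℝ) - 1) * C3 * h t ξ *
            ∑ i ∈ Finset.range (2 ^ l), (1 + A * sc n l * rho ξ (pt l i)) ^ (-((n : ℝ) + 1))
          ≤ (1 / 2 ^ l) * Cc * (A * sc n l) ^ ((n : ℝ) - 1) * C3 * h t ξ * D4 :=
            mul_le_mul_of_nonneg_left hsum (by positivity)
        _ = (Cc * C3 * D4 * h t ξ) * ((1 / 2 ^ l) * (A * sc n l) ^ ((n : ℝ) - 1)) := by ring
        _ ≤ (Cc * C3 * D4 * h t ξ) * (A ^ (n : ℝ) * (2 / κ) * (t - x₀)) := by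
            rw [hBl]; exact mul_le_mul_of_nonneg_left htx (by positivity)
        _ = C6 * ((t - x₀) * h t ξ) := by rw [hC6]; ring
    -- sum of the levels
    have hdisj : (↑(Finset.range L) : Set ℕ).PairwiseDisjoint T := by
      have key : ∀ l m, l < m → Disjoint (T l) (T m) := by
        intro l m hlm
        rw [Set.disjoint_left]
        intro t h1 h2
        have h3 : 1 / (A * sc n m) ≤ κ / (A * sc n l) := by
          have h4 : sc n (l + 1) ≤ sc n m := sc_mono n (by omega)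
          have h5 : κ / (A * sc n l) = 1 / (A * sc n (l + 1)) := by
            have h6 := sc_succ n l
            rw [← hκdef] at h6
            rw [← h6]
            have := w_sc_pos n (l + 1)
            field_simp
          rw [h5]
          exact one_div_le_one_div_of_le (hNpos _) (mul_le_mul_of_nonneg_left h4 hA.le)
        have h7 := h1.1
        have h8 := h2.2
        linarith
      intro l _ m _ hlm
      rcases lt_or_gt_of_ne hlm with h1 | h1
      · exact key l m h1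
      · exact (key m l h1).symm
    have hsubT : (⋃ l ∈ Finset.range L, T l) ⊆ Set.Ioc x₀ (1 / A) := by
      intro t ht
      simp only [Set.mem_iUnion, Finset.mem_range] at ht
      obtain ⟨l, hl, h1, h2⟩ := ht
      have h3 := hx2 l hl
      refine ⟨by linarith, h2.trans (one_div_le_one_div_of_le hA (hNA l))⟩
    have hx1 : x₀ ≤ 1 / A := by
      rw [hx₀, div_le_div_iff₀ (mul_pos two_pos (hNpos _)) hA]
      have := hNA (L - 1)
      nlinarith
    have htot : ENNReal.ofReal (∑ l ∈ Finset.range L, (1 / 2 ^ l) * ∑ i ∈ Finset.range (2 ^ l),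
        ‖x l i‖ ^ 2 *
          (W l i ^ (4 / p) + ε) ^ (-((2 - p) / 2))) ≤ ENNReal.ofReal (D5 * M) := by
      have hnn : ∀ l i, 0 ≤ (1 / 2 ^ l) * (‖x l i‖ ^ 2 *
          (W l i ^ (4 / p) + ε) ^ (-((2 - p) / 2))) := by
        intro l i
        have := hW0 l i
        positivity
      rw [ENNReal.ofReal_sum_of_nonneg (fun l _ => by
        rw [Finset.mul_sum]; exact Finset.sum_nonneg (fun i _ => hnn l i))]
      calc _ = ∑ l ∈ Finset.range L, ∑ i ∈ Finset.range (2 ^ l), ENNReal.ofReal ((1 / 2 ^ l) *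
            (‖x l i‖ ^ 2 *
              (W l i ^ (4 / p) + ε) ^ (-((2 - p) / 2)))) := by
            apply Finset.sum_congr rfl
            intro l _
            rw [Finset.mul_sum, ENNReal.ofReal_sum_of_nonneg (fun i _ => hnn l i)]
        _ ≤ ∑ l ∈ Finset.range L, ∫⁻ t in T l, ∫⁻ ξ,
              ENNReal.ofReal (C6 * ((t - x₀) * h t ξ)) ∂(sig n) :=
            Finset.sum_le_sum (fun l hl => level l (Finset.mem_range.1 hl))
        _ = ∫⁻ t in ⋃ l ∈ Finset.range L, T l, ∫⁻ ξ,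
              ENNReal.ofReal (C6 * ((t - x₀) * h t ξ)) ∂(sig n) :=
            (lintegral_biUnion_finset hdisj (fun l _ => hTm l) _).symm
        _ ≤ ∫⁻ t in Set.Ioc x₀ (1 / A), ∫⁻ ξ,
              ENNReal.ofReal (C6 * ((t - x₀) * h t ξ)) ∂(sig n) := lintegral_mono_set hsubT
        _ = ENNReal.ofReal C6 * ∫⁻ t in Set.Ioc x₀ (1 / A), ∫⁻ ξ,
              ENNReal.ofReal ((t - x₀) * h t ξ) ∂(sig n) := by
            rw [← lintegral_const_mul' _ _ ENNReal.ofReal_ne_top]
            apply lintegral_congr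
            intro t
            rw [← lintegral_const_mul' _ _ ENNReal.ofReal_ne_top]
            apply lintegral_congr
            intro ξ
            rw [ENNReal.ofReal_mul hC60.le]
        _ ≤ ENNReal.ofReal C6 * (ENNReal.ofReal (1 / p ^ 2) * ∫⁻ ξ, ENNReal.ofReal
              ((‖g ((Real.exp (-x₀) : ℂ) • ξ)‖ ^ 2 + ε) ^ (p / 2)) ∂(sig n)) := by
            apply mul_le_mul_right
            exact sphere_hardy_stein n hn p hp (by linarith) ε hε0 g hg x₀ (1 / A) hx0 hx1
        _ ≤ ENNReal.ofReal C6 * (ENNReal.ofReal (1 / p ^ 2) *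
              (ENNReal.ofReal M + ENNReal.ofReal M * ENNReal.ofReal S)) := by
            apply mul_le_mul_right
            apply mul_le_mul_right
            calc ∫⁻ ξ, ENNReal.ofReal
                  ((‖g ((Real.exp (-x₀) : ℂ) • ξ)‖ ^ 2 + ε) ^ (p / 2)) ∂(sig n)
                ≤ ∫⁻ ξ, (ENNReal.ofReal (‖g ((Real.exp (-x₀) : ℂ) • ξ)‖ ^ p) +
                    ENNReal.ofReal M) ∂(sig n) := by
                  apply lintegral_mono
                  intro ξ
                  dsimp only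
                  rw [← ENNReal.ofReal_add (by positivity) hM.le]
                  apply ENNReal.ofReal_le_ofReal
                  have h1 := Real.rpow_add_le_add_rpow (sq_nonneg ‖g ((Real.exp (-x₀) : ℂ) • ξ)‖)
                    hε0.le hq.le (by linarith : p / 2 ≤ 1)
                  have e2 : (‖g ((Real.exp (-x₀) : ℂ) • ξ)‖ ^ 2) ^ (p / 2) =
                      ‖g ((Real.exp (-x₀) : ℂ) • ξ)‖ ^ p := by
                    rw [← Real.rpow_natCast, ← Real.rpow_mul (norm_nonneg _)]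
                    congr 1
                    push_cast; ring
                  rw [hεp, e2] at h1
                  exact h1
              _ = ∫⁻ ξ, ENNReal.ofReal (‖g ((Real.exp (-x₀) : ℂ) • ξ)‖ ^ p) ∂(sig n) +
                    ENNReal.ofReal M * ENNReal.ofReal S := by
                  rw [lintegral_add_right _ measurable_const, lintegral_const, hSe]
              _ ≤ _ := by
                  apply add_le_add _ le_rfl
                  exact hMb (Real.exp (-x₀)) (Real.exp_pos _).le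
                    (by rw [← Real.exp_zero]; exact Real.exp_lt_exp.2 (by linarith))
        _ = ENNReal.ofReal (D5 * M) := by
            rw [← ENNReal.ofReal_mul hM.le, ← ENNReal.ofReal_add hM.le (by positivity),
              ← ENNReal.ofReal_mul (by positivity), ← ENNReal.ofReal_mul hC60.le]
            congr 1
            rw [hD5]; ring
    rw [ENNReal.ofReal_le_ofReal_iff (by positivity)] at htot
    refine htot.trans ?_
    exact mul_le_mul_of_nonneg_right (by linarith) hM.le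




end Pool.Agent.HpBall2
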