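import Mathlib
import Pool.Agent.HpBall2.Defs
import Pool.Agent.HpBall.Geom
import Pool.Agent.HpBall.Sphere
import Pool.Agent.HpBall2.Weights
import Pool.Agent.HpBall2.Combine
import Pool.Agent.HpBall.Synth1
import Pool.Agent.HpBall.Coef
import Pool.Agent.HpBall.KerInt
import Pool.Agent.HpBall.Molecules
import Pool.Agent.HpBall.Synth2
import Pool.Agent.HpBall.SphereHS
import Pool.Agent.HpBall.Final3
import Pool.Agent.HpBall2.HcProps
import Pool.Agent.HpBall2.Bands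

set_option autoImplicit false

open MeasureTheory Complex
open scoped ENNReal NNReal

namespace Pool.Agent.HpBall2

open Pool.Agent.HpBall

theorem B06_rho_cont {n : ℕ} : Continuous (fun p : E n × E n => rho p.1 p.2) := by
  unfold rho
  fun_prop

theorem B06_w_cont {n : ℕ} {N : ℝ} (hN : 0 < N) (K : ℝ) (x : E n) :
    Continuous (fun ξ : E n => (1 + N * rho ξ x) ^ (-K)) := by
  have h1 : Continuous (fun ξ : E n => rho ξ x) := meas_rho n x
  apply Continuous.rpow_const (by fun_prop)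
  intro ξ
  left
  have := rho_nonneg ξ x
  positivity

theorem B06_cs (n : ℕ) (hn : 1 ≤ n) (K : ℝ) (hK : (n : ℝ) < K) : ∃ C : ℝ, 0 < C ∧
    ∀ N : ℝ, 0 < N → ∀ x : E n, ‖x‖ = 1 → ∀ f : E n → ℂ, Continuous f →
    ENNReal.ofReal ((N ^ (n : ℝ) * ∫ ξ, ‖f ξ‖ * (1 + N * rho ξ x) ^ (-K) ∂(sig n)) ^ 2) ≤
      ENNReal.ofReal (C * N ^ (n : ℝ)) *
        ∫⁻ ξ, ENNReal.ofReal (‖f ξ‖ ^ 2 * (1 + N * rho ξ x) ^ (-K)) ∂(sig n) := by
  obtain ⟨C, hC, hker⟩ := kernel_int n hn K hK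
  refine ⟨C, hC, ?_⟩
  intro N hN x hx f hf
  have hwc := B06_w_cont hN K x
  have hw0 : ∀ ξ : E n, 0 < (1 + N * rho ξ x) ^ (-K) := by
    intro ξ
    have := rho_nonneg ξ x
    positivity
  have hFc : Continuous (fun ξ : E n => ‖f ξ‖ * (1 + N * rho ξ x) ^ (-K)) := hf.norm.mul hwc
  have hFi : Integrable (fun ξ : E n => ‖f ξ‖ * (1 + N * rho ξ x) ^ (-K)) (sig n) :=
    integrable_sig_of_continuous hn _ hFc
  have e1 := ofReal_integral_eq_lintegral_ofReal hFi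
    (Filter.Eventually.of_forall fun ξ => mul_nonneg (norm_nonneg _) (hw0 ξ).le)
  have hN' : 0 < N ^ (n : ℝ) := Real.rpow_pos_of_pos hN _
  have hI0 : 0 ≤ ∫ ξ, ‖f ξ‖ * (1 + N * rho ξ x) ^ (-K) ∂(sig n) :=
    integral_nonneg fun ξ => mul_nonneg (norm_nonneg _) (hw0 ξ).le
  -- Cauchy-Schwarz
  have hpq : (2 : ℝ).HolderConjugate 2 := by
    rw [Real.holderConjugate_iff]
    norm_num
  have hm1 : Measurable (fun ξ : E n =>
      ENNReal.ofReal (‖f ξ‖ * Real.sqrt ((1 + N * rho ξ x) ^ (-K)))) :=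
    (hf.norm.mul (Real.continuous_sqrt.comp hwc)).measurable.ennreal_ofReal
  have hm2 : Measurable (fun ξ : E n =>
      ENNReal.ofReal (Real.sqrt ((1 + N * rho ξ x) ^ (-K)))) :=
    (Real.continuous_sqrt.comp hwc).measurable.ennreal_ofReal
  have hH := ENNReal.lintegral_mul_le_Lp_mul_Lq (sig n) hpq hm1.aemeasurable hm2.aemeasurable
  have e2 : ∫⁻ ξ, ((fun ξ : E n => ENNReal.ofReal (‖f ξ‖ * Real.sqrt ((1 + N * rho ξ x) ^ (-K)))) *
      fun ξ : E n => ENNReal.ofReal (Real.sqrt ((1 + N * rho ξ x) ^ (-K)))) ξ ∂(sig n) =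
      ∫⁻ ξ, ENNReal.ofReal (‖f ξ‖ * (1 + N * rho ξ x) ^ (-K)) ∂(sig n) := by
    apply lintegral_congr
    intro ξ
    simp only [Pi.mul_apply]
    rw [← ENNReal.ofReal_mul (by positivity)]
    congr 1
    rw [mul_assoc, Real.mul_self_sqrt (hw0 ξ).le]
  have e3 : ∫⁻ ξ, (ENNReal.ofReal (‖f ξ‖ * Real.sqrt ((1 + N * rho ξ x) ^ (-K)))) ^ (2 : ℝ)
      ∂(sig n) = ∫⁻ ξ, ENNReal.ofReal (‖f ξ‖ ^ 2 * (1 + N * rho ξ x) ^ (-K)) ∂(sig n) := by
    apply lintegral_congr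
    intro ξ
    rw [ENNReal.ofReal_rpow_of_nonneg (by positivity) (by norm_num)]
    congr 1
    rw [Real.rpow_two, mul_pow, Real.sq_sqrt (hw0 ξ).le]
  have e4 : ∫⁻ ξ : E n, (ENNReal.ofReal (Real.sqrt ((1 + N * rho ξ x) ^ (-K)))) ^ (2 : ℝ)
      ∂(sig n) = ∫⁻ ξ, ENNReal.ofReal ((1 + N * rho ξ x) ^ (-K)) ∂(sig n) := by
    apply lintegral_congr
    intro ξ
    rw [ENNReal.ofReal_rpow_of_nonneg (by positivity) (by norm_num)]
    congr 1
    rw [Real.rpow_two, Real.sq_sqrt (hw0 ξ).le]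
  rw [e2, e3, e4, ← e1] at hH
  set X : ℝ≥0∞ := ∫⁻ ξ, ENNReal.ofReal (‖f ξ‖ ^ 2 * (1 + N * rho ξ x) ^ (-K)) ∂(sig n) with hX
  set Y : ℝ≥0∞ := ∫⁻ ξ : E n, ENNReal.ofReal ((1 + N * rho ξ x) ^ (-K)) ∂(sig n) with hY
  have hY' : Y ≤ ENNReal.ofReal (C * N ^ (-(n : ℝ))) := hker x hx N hN
  have h5 : (ENNReal.ofReal (∫ ξ, ‖f ξ‖ * (1 + N * rho ξ x) ^ (-K) ∂(sig n))) ^ 2 ≤ X * Y := by
    calc (ENNReal.ofReal (∫ ξ, ‖f ξ‖ * (1 + N * rho ξ x) ^ (-K) ∂(sig n))) ^ 2
        ≤ (X ^ (1 / (2 : ℝ)) * Y ^ (1 / (2 : ℝ))) ^ 2 := by gcongr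
      _ = X * Y := by
          have sq : ∀ Z : ℝ≥0∞, (Z ^ (1 / (2 : ℝ))) ^ 2 = Z := by
            intro Z
            rw [← ENNReal.rpow_natCast, ← ENNReal.rpow_mul]
            norm_num
          rw [mul_pow, sq, sq]
  calc ENNReal.ofReal ((N ^ (n : ℝ) * ∫ ξ, ‖f ξ‖ * (1 + N * rho ξ x) ^ (-K) ∂(sig n)) ^ 2)
      = ENNReal.ofReal ((N ^ (n : ℝ)) ^ 2) *
        (ENNReal.ofReal (∫ ξ, ‖f ξ‖ * (1 + N * rho ξ x) ^ (-K) ∂(sig n))) ^ 2 := by
        rw [mul_pow, ENNReal.ofReal_mul (by positivity), ENNReal.ofReal_pow hI0]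
    _ ≤ ENNReal.ofReal ((N ^ (n : ℝ)) ^ 2) * (X * ENNReal.ofReal (C * N ^ (-(n : ℝ)))) := by
        gcongr
        exact h5.trans (by gcongr)
    _ = ENNReal.ofReal ((N ^ (n : ℝ)) ^ 2 * (C * N ^ (-(n : ℝ)))) * X := by
        rw [ENNReal.ofReal_mul (p := (N ^ (n : ℝ)) ^ 2) (by positivity)]
        ring
    _ = ENNReal.ofReal (C * N ^ (n : ℝ)) * X := by
        congr 2
        rw [Real.rpow_neg hN.le]
        field_simp

theorem B06_conv (n : ℕ) (hn : 1 ≤ n) (K : ℝ) (hK : (n : ℝ) < K) : ∃ C : ℝ, 0 < C ∧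
    ∀ N : ℝ, 0 < N → ∀ η x : E n, ‖η‖ = 1 → ‖x‖ = 1 →
    ∫⁻ ξ, ENNReal.ofReal ((1 + N * rho η ξ) ^ (-K) * (1 + N * rho ξ x) ^ (-K)) ∂(sig n) ≤
      ENNReal.ofReal (C * N ^ (-(n : ℝ)) * (1 + N * rho η x) ^ (-K)) := by
  obtain ⟨C, hC, hker⟩ := kernel_int n hn K hK
  have hK0 : 0 ≤ K := le_trans (Nat.cast_nonneg n) hK.le
  refine ⟨4 ^ K * (2 * C), by positivity, ?_⟩
  intro N hN η x hη hx
  have hwx : 0 < (1 + N * rho η x) ^ (-K) := by
    have := rho_nonneg η x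
    positivity
  have h1 : ∀ᵐ ξ ∂(sig n), ENNReal.ofReal ((1 + N * rho η ξ) ^ (-K) * (1 + N * rho ξ x) ^ (-K)) ≤
      ENNReal.ofReal (4 ^ K * (1 + N * rho η x) ^ (-K)) *
        (ENNReal.ofReal ((1 + N * rho ξ η) ^ (-K)) + ENNReal.ofReal ((1 + N * rho ξ x) ^ (-K))) := by
    filter_upwards [sig_ae_norm hn] with ξ hξ
    have h2 := mW_conv hN.le hK0 hη hξ hx
    have h3 := rho_nonneg η ξ
    have h4 := rho_nonneg ξ x
    rw [← ENNReal.ofReal_add (by rw [rho_comm ξ η]; positivity) (by positivity),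
      ← ENNReal.ofReal_mul (by positivity)]
    apply ENNReal.ofReal_le_ofReal
    rw [rho_comm ξ η]
    exact h2
  refine (lintegral_mono_ae h1).trans ?_
  rw [lintegral_const_mul' _ _ ENNReal.ofReal_ne_top,
    lintegral_add_left ((B06_w_cont hN K η).measurable.ennreal_ofReal)]
  calc ENNReal.ofReal (4 ^ K * (1 + N * rho η x) ^ (-K)) *
        (∫⁻ ξ, ENNReal.ofReal ((1 + N * rho ξ η) ^ (-K)) ∂(sig n) +
          ∫⁻ ξ, ENNReal.ofReal ((1 + N * rho ξ x) ^ (-K)) ∂(sig n))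
      ≤ ENNReal.ofReal (4 ^ K * (1 + N * rho η x) ^ (-K)) *
        (ENNReal.ofReal (C * N ^ (-(n : ℝ))) + ENNReal.ofReal (C * N ^ (-(n : ℝ)))) := by
        gcongr
        · exact hker η hη N hN
        · exact hker x hx N hN
    _ = _ := by
        rw [← ENNReal.ofReal_add (by positivity) (by positivity),
          ← ENNReal.ofReal_mul (by positivity)]
        congr 1
        ring

theorem B06_level (n : ℕ) (hn : 1 ≤ n) (β : ℝ → ℝ) (a b : ℝ) (hβ : Bump β a b) (K : ℝ)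
    (hK : (n : ℝ) < K) (N₀ : ℝ) (hN₀ : 0 < N₀) : ∃ C : ℝ, 0 < C ∧
    ∀ g : E n → ℂ, DifferentiableOn ℂ g (Metric.ball 0 1) → ∀ N : ℝ, N₀ ≤ N → ∀ x : E n,
    ‖x‖ = 1 →
      ENNReal.ofReal ((gav n β N K g x) ^ 2) ≤ ENNReal.ofReal (C * N ^ ((n : ℝ) - 1)) *
        ∫⁻ t in Set.Ioc ((2 : ℝ) ^ (-(1 / (n : ℝ))) / N) (1 / N), ∫⁻ ξ,
          ENNReal.ofReal (‖rad g ((Real.exp (-t) : ℂ) • ξ)‖ ^ 2 *
            (1 + N * rho ξ x) ^ (-K)) ∂(sig n) := by
  obtain ⟨C1, hC1, hcs⟩ := B06_cs n hn K hK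
  obtain ⟨C3, hC3, hconv⟩ := B06_conv n hn K hK
  have hK0 : 0 ≤ K := le_trans (Nat.cast_nonneg n) hK.le
  obtain ⟨C2, hC2, hcoef⟩ := coef_bound n hn β a b hβ K hK0 N₀ hN₀
  refine ⟨C1 * C2 * C3, by positivity, ?_⟩
  intro g hg N hN x hx
  have hN0 : 0 < N := lt_of_lt_of_le hN₀ hN
  have hcont := cut_cont n β a b hβ N hN0 g hg
  have h1 := hcs N hN0 x hx (cut β N g) hcont
  refine h1.trans ?_
  set T := Set.Ioc ((2 : ℝ) ^ (-(1 / (n : ℝ))) / N) (1 / N) with hT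
  have hw0 : ∀ ξ y : E n, 0 < (1 + N * rho ξ y) ^ (-K) := by
    intro ξ y
    have := rho_nonneg ξ y
    positivity
  -- the triple integrand
  set Φ : E n → ℝ → E n → ℝ≥0∞ := fun ξ t η =>
    ENNReal.ofReal (‖rad g ((Real.exp (-t) : ℂ) • η)‖ ^ 2 * (1 + N * rho η ξ) ^ (-K)) *
      ENNReal.ofReal ((1 + N * rho ξ x) ^ (-K)) with hΦ
  have hΦm : Measurable (fun q : (E n × ℝ) × E n => Φ q.1.1 q.1.2 q.2) := by
    have m1 : Measurable fun q : (E n × ℝ) × E n => rad g ((Real.exp (-q.1.2) : ℂ) • q.2) := by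
      apply (J15_meas_rad g).comp
      have : Continuous fun q : (E n × ℝ) × E n => (Real.exp (-q.1.2) : ℂ) • q.2 := by fun_prop
      exact this.measurable
    have m2 : Measurable fun q : (E n × ℝ) × E n => rho q.2 q.1.1 := by
      have : Continuous fun q : (E n × ℝ) × E n => rho q.2 q.1.1 := by
        unfold rho; fun_prop
      exact this.measurable
    have m3 : Measurable fun q : (E n × ℝ) × E n => rho q.1.1 x := by
      have : Continuous fun q : (E n × ℝ) × E n => rho q.1.1 x := by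
        unfold rho; fun_prop
      exact this.measurable
    exact (((m1.norm.pow_const 2).mul
      (((m2.const_mul N).const_add 1).pow_const (-K))).ennreal_ofReal).mul
      (((m3.const_mul N).const_add 1).pow_const (-K)).ennreal_ofReal
  have h2 : ∫⁻ ξ, ENNReal.ofReal (‖cut β N g ξ‖ ^ 2 * (1 + N * rho ξ x) ^ (-K)) ∂(sig n) ≤
      ENNReal.ofReal (C2 * N ^ ((n : ℝ) - 1)) * ∫⁻ ξ, (∫⁻ t in T, ∫⁻ η, Φ ξ t η ∂(sig n)) ∂(sig n) := by
    rw [← lintegral_const_mul' _ _ ENNReal.ofReal_ne_top]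
    apply lintegral_mono_ae
    filter_upwards [sig_ae_norm hn] with ξ hξ
    have h3 := hcoef g hg N hN ξ hξ
    rw [ENNReal.ofReal_mul (by positivity)]
    have h4 : ∫⁻ t in T, ∫⁻ η, Φ ξ t η ∂(sig n) = (∫⁻ t in T, ∫⁻ η,
          ENNReal.ofReal (‖rad g ((Real.exp (-t) : ℂ) • η)‖ ^ 2 *
            (1 + N * rho η ξ) ^ (-K)) ∂(sig n)) * ENNReal.ofReal ((1 + N * rho ξ x) ^ (-K)) := by
      rw [← lintegral_mul_const' _ _ ENNReal.ofReal_ne_top]
      apply lintegral_congr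
      intro t
      rw [← lintegral_mul_const' _ _ ENNReal.ofReal_ne_top]
    rw [h4, ← mul_assoc]
    gcongr
  have hswap1 : ∫⁻ ξ, (∫⁻ t in T, ∫⁻ η, Φ ξ t η ∂(sig n)) ∂(sig n) =
      ∫⁻ t in T, ∫⁻ ξ, ∫⁻ η, Φ ξ t η ∂(sig n) ∂(sig n) := by
    apply lintegral_lintegral_swap (f := fun ξ t => ∫⁻ η, Φ ξ t η ∂(sig n))
    exact (hΦm.lintegral_prod_right').aemeasurable
  have hswap2 : ∀ t : ℝ, ∫⁻ ξ, ∫⁻ η, Φ ξ t η ∂(sig n) ∂(sig n) =
      ∫⁻ η, ∫⁻ ξ, Φ ξ t η ∂(sig n) ∂(sig n) := by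
    intro t
    apply lintegral_lintegral_swap (f := fun ξ η => Φ ξ t η)
    have : Measurable (fun p : E n × E n => ((p.1, t), p.2)) := by fun_prop
    exact (hΦm.comp this).aemeasurable
  have h5 : ∫⁻ ξ, (∫⁻ t in T, ∫⁻ η, Φ ξ t η ∂(sig n)) ∂(sig n) ≤
      ENNReal.ofReal (C3 * N ^ (-(n : ℝ))) * ∫⁻ t in T, ∫⁻ ξ,
          ENNReal.ofReal (‖rad g ((Real.exp (-t) : ℂ) • ξ)‖ ^ 2 *
            (1 + N * rho ξ x) ^ (-K)) ∂(sig n) := by
    rw [hswap1, ← lintegral_const_mul' _ _ ENNReal.ofReal_ne_top]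
    apply lintegral_mono
    intro t
    simp only
    rw [hswap2 t, ← lintegral_const_mul' _ _ ENNReal.ofReal_ne_top]
    apply lintegral_mono_ae
    filter_upwards [sig_ae_norm hn] with η hη
    have h6 : ∫⁻ ξ, Φ ξ t η ∂(sig n) = ENNReal.ofReal (‖rad g ((Real.exp (-t) : ℂ) • η)‖ ^ 2) *
        ∫⁻ ξ, ENNReal.ofReal ((1 + N * rho η ξ) ^ (-K) * (1 + N * rho ξ x) ^ (-K)) ∂(sig n) := by
      rw [← lintegral_const_mul' _ _ ENNReal.ofReal_ne_top]
      apply lintegral_congr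
      intro ξ
      simp only [hΦ]
      have := (hw0 η ξ).le
      rw [← ENNReal.ofReal_mul (by positivity), ← ENNReal.ofReal_mul (by positivity)]
      congr 1
      ring
    rw [h6]
    calc ENNReal.ofReal (‖rad g ((Real.exp (-t) : ℂ) • η)‖ ^ 2) *
        ∫⁻ ξ, ENNReal.ofReal ((1 + N * rho η ξ) ^ (-K) * (1 + N * rho ξ x) ^ (-K)) ∂(sig n)
        ≤ ENNReal.ofReal (‖rad g ((Real.exp (-t) : ℂ) • η)‖ ^ 2) *
          ENNReal.ofReal (C3 * N ^ (-(n : ℝ)) * (1 + N * rho η x) ^ (-K)) := by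
          gcongr
          exact hconv N hN0 η x hη hx
      _ = _ := by
          rw [← ENNReal.ofReal_mul (by positivity), ← ENNReal.ofReal_mul (by positivity)]
          congr 1
          ring
  calc ENNReal.ofReal (C1 * N ^ (n : ℝ)) *
        ∫⁻ ξ, ENNReal.ofReal (‖cut β N g ξ‖ ^ 2 * (1 + N * rho ξ x) ^ (-K)) ∂(sig n)
      ≤ ENNReal.ofReal (C1 * N ^ (n : ℝ)) * (ENNReal.ofReal (C2 * N ^ ((n : ℝ) - 1)) *
        (ENNReal.ofReal (C3 * N ^ (-(n : ℝ))) * ∫⁻ t in T, ∫⁻ ξ,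
          ENNReal.ofReal (‖rad g ((Real.exp (-t) : ℂ) • ξ)‖ ^ 2 *
            (1 + N * rho ξ x) ^ (-K)) ∂(sig n))) := by
        gcongr
        exact h2.trans (by gcongr)
    _ = _ := by
        rw [← mul_assoc, ← mul_assoc, ← ENNReal.ofReal_mul (by positivity),
          ← ENNReal.ofReal_mul (by positivity)]
        congr 2
        rw [Real.rpow_neg hN0.le]
        have : N ^ (n : ℝ) ≠ 0 := (Real.rpow_pos_of_pos hN0 _).ne'
        field_simp

theorem B06_bessel {G : ℂ → ℂ} (hG : DifferentiableOn ℂ G (Metric.ball 0 1)) {r : ℝ}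
    (hr0 : 0 < r) (hr1 : r < 1) (m : ℕ) :
    2 * Real.pi * ∑ k ∈ Finset.range m, ‖tc G k‖ ^ 2 * (r ^ k) ^ 2 ≤
      ∫ θ in (0:ℝ)..(2 * Real.pi), ‖G (r * Complex.exp (θ * I))‖ ^ 2 := by
  set Q : ℂ → ℂ := fun z => ∑ k ∈ Finset.range m, tc G k * z ^ k with hQ
  have hQd : DifferentiableOn ℂ Q (Metric.ball 0 1) := by
    have : Differentiable ℂ Q := by rw [hQ]; fun_prop
    exact this.differentiableOn
  set φ : ℝ → ℂ := fun θ => G (r * Complex.exp (θ * I)) with hφ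
  set S : ℝ → ℂ := fun θ => Q (r * Complex.exp (θ * I)) with hS
  have hφc : Continuous φ := J15_cont hG hr0 hr1
  have hSc : Continuous S := J15_cont hQd hr0 hr1
  set V : ℝ := 2 * Real.pi * ∑ k ∈ Finset.range m, ‖tc G k‖ ^ 2 * (r ^ k) ^ 2 with hV
  have hφk : ∀ k < m, ∫ θ in (0:ℝ)..(2 * Real.pi), Complex.exp (-(θ * I)) ^ k * φ θ =
      2 * Real.pi * (tc G k * r ^ k) := fun k _ => J15_coef hG hr0 hr1 k
  have hSk : ∀ k < m, ∫ θ in (0:ℝ)..(2 * Real.pi), Complex.exp (-(θ * I)) ^ k * S θ =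
      2 * Real.pi * (tc G k * r ^ k) := by
    intro k hk
    have h1 := J15_coef hQd hr0 hr1 k
    rw [show tc Q k = tc G k by
      have h2 := tc_poly m (fun k => tc G k) k
      rw [if_pos hk] at h2
      exact h2] at h1
    exact h1
  have hSconj : ∀ θ : ℝ, (starRingEnd ℂ) (S θ) = ∑ k ∈ Finset.range m,
      ((starRingEnd ℂ) (tc G k) * (r : ℂ) ^ k) * Complex.exp (-(θ * I)) ^ k := by
    intro θ
    simp only [hS, hQ]
    rw [map_sum]
    apply Finset.sum_congr rfl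
    intro k _
    rw [map_mul, map_pow, map_mul, Complex.conj_ofReal, ← Complex.exp_conj, map_mul,
      Complex.conj_ofReal, Complex.conj_I, mul_pow]
    rw [show (θ : ℂ) * -I = -(θ * I) by ring]
    ring
  have key : ∀ ψ : ℝ → ℂ, Continuous ψ → (∀ k < m, ∫ θ in (0:ℝ)..(2 * Real.pi),
      Complex.exp (-(θ * I)) ^ k * ψ θ = 2 * Real.pi * (tc G k * r ^ k)) →
      ∫ θ in (0:ℝ)..(2 * Real.pi), (starRingEnd ℂ) (S θ) * ψ θ = (V : ℂ) := by
    intro ψ hψ hk
    have e1 : ∀ θ : ℝ, (starRingEnd ℂ) (S θ) * ψ θ = ∑ k ∈ Finset.range m,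
        ((starRingEnd ℂ) (tc G k) * (r : ℂ) ^ k) * (Complex.exp (-(θ * I)) ^ k * ψ θ) := by
      intro θ
      rw [hSconj, Finset.sum_mul]
      apply Finset.sum_congr rfl
      intro k _
      ring
    simp_rw [e1]
    rw [intervalIntegral.integral_finsetSum]
    · rw [hV]
      push_cast
      rw [Finset.mul_sum]
      apply Finset.sum_congr rfl
      intro k hk'
      rw [intervalIntegral.integral_const_mul, hk k (Finset.mem_range.1 hk')]
      have e2 : (starRingEnd ℂ) (tc G k) * tc G k = ((‖tc G k‖ ^ 2 : ℝ) : ℂ) := by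
        rw [mul_comm, Complex.mul_conj, Complex.normSq_eq_norm_sq]
      push_cast at e2
      linear_combination (2 * Real.pi * (r : ℂ) ^ k * (r : ℂ) ^ k) * e2
    · intro k _
      apply Continuous.intervalIntegrable
      have : Continuous fun θ : ℝ => Complex.exp (-(θ * I)) ^ k := by fun_prop
      exact continuous_const.mul (this.mul hψ)
  have k1 := key φ hφc hφk
  have k2 := key S hSc hSk
  have hpt : ∀ θ : ℝ, (2 * ((starRingEnd ℂ) (S θ) * φ θ) - (starRingEnd ℂ) (S θ) * S θ).re ≤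
      ‖φ θ‖ ^ 2 := by
    intro θ
    rw [Complex.sq_norm, Complex.normSq_apply]
    simp only [Complex.sub_re, Complex.mul_re, Complex.conj_re, Complex.conj_im, Complex.re_ofNat,
      Complex.im_ofNat, Complex.mul_im]
    nlinarith [sq_nonneg ((φ θ).re - (S θ).re), sq_nonneg ((φ θ).im - (S θ).im)]
  have hScc : Continuous fun θ => (starRingEnd ℂ) (S θ) := Complex.continuous_conj.comp hSc
  have i1 : IntervalIntegrable (fun θ => 2 * ((starRingEnd ℂ) (S θ) * φ θ)) volume 0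
      (2 * Real.pi) := (continuous_const.mul (hScc.mul hφc)).intervalIntegrable _ _
  have i2 : IntervalIntegrable (fun θ => (starRingEnd ℂ) (S θ) * S θ) volume 0
      (2 * Real.pi) := (hScc.mul hSc).intervalIntegrable _ _
  have h3 : ∫ θ in (0:ℝ)..(2 * Real.pi),
      (2 * ((starRingEnd ℂ) (S θ) * φ θ) - (starRingEnd ℂ) (S θ) * S θ).re = V := by
    have h4 := Complex.reCLM.intervalIntegral_comp_comm (i1.sub i2)
    simp only [Complex.reCLM_apply] at h4
    rw [h4, intervalIntegral.integral_sub i1 i2, intervalIntegral.integral_const_mul, k1, k2]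
    rw [Complex.sub_re, Complex.mul_re]
    simp
    ring
  rw [← h3]
  apply intervalIntegral.integral_mono_on (by positivity)
  · exact (Complex.continuous_re.comp ((continuous_const.mul (hScc.mul hφc)).sub
      (hScc.mul hSc))).intervalIntegrable _ _
  · exact (hφc.norm.pow 2).intervalIntegrable _ _
  · intro θ _
    exact hpt θ

theorem B06_parseval (n : ℕ) (hn : 1 ≤ n) (g : E n → ℂ) (M : ℝ) (hM : 0 ≤ M) (hg : HB n 2 M g)
    (m : ℕ) : ∑ k ∈ Finset.range m, ∫⁻ ξ, ENNReal.ofReal (‖hc g k ξ‖ ^ 2) ∂(sig n) ≤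
      ENNReal.ofReal M := by
  obtain ⟨hgd, hgM⟩ := hg
  obtain ⟨hcd, -, -⟩ := hc_props n g hgd
  have hcc : ∀ k, Continuous (hc g k) := fun k => (hcd k).continuous
  have h2pi : ENNReal.ofReal (2 * Real.pi) ≠ 0 := by
    rw [Ne, ENNReal.ofReal_eq_zero, not_le]; positivity
  -- the inequality for `r < 1`
  have hr : ∀ r : ℝ, 0 < r → r < 1 → ∑ k ∈ Finset.range m, ENNReal.ofReal ((r ^ k) ^ 2) *
      ∫⁻ ξ, ENNReal.ofReal (‖hc g k ξ‖ ^ 2) ∂(sig n) ≤ ENNReal.ofReal M := by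
    intro r hr0 hr1
    set g' : E n → ℂ := (Metric.ball (0 : E n) 1).indicator g with hg'
    have hg'm : Measurable g' := measurable_ind n g 1 hgd.continuousOn
    have hfm : Measurable (fun ξ : E n => ENNReal.ofReal (‖g' ((r : ℂ) • ξ)‖ ^ 2)) := by
      have h1 : Measurable (fun ξ : E n => (r : ℂ) • ξ) := by fun_prop
      exact ((hg'm.comp h1).norm.pow_const 2).ennreal_ofReal
    have h1 := sig_average n _ hfm
    have h2 : ∫⁻ ξ, ENNReal.ofReal (‖g' ((r : ℂ) • ξ)‖ ^ 2) ∂(sig n) ≤ ENNReal.ofReal M := by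
      refine le_trans (le_of_eq ?_) (hgM r hr0.le hr1)
      apply lintegral_congr_ae
      filter_upwards [sig_ae_norm hn] with ξ hξ
      have hm : (r : ℂ) • ξ ∈ Metric.ball (0 : E n) 1 := by
        rw [mem_ball_zero_iff, norm_smul, hξ, mul_one, Complex.norm_real,
          Real.norm_of_nonneg hr0.le]
        exact hr1
      rw [hg', Set.indicator_of_mem hm, Real.rpow_two]
    have h3 : ENNReal.ofReal (2 * Real.pi) * ∑ k ∈ Finset.range m, ENNReal.ofReal ((r ^ k) ^ 2) *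
        ∫⁻ ξ, ENNReal.ofReal (‖hc g k ξ‖ ^ 2) ∂(sig n) ≤
        ENNReal.ofReal (2 * Real.pi) * ENNReal.ofReal M := by
      calc ENNReal.ofReal (2 * Real.pi) * ∑ k ∈ Finset.range m, ENNReal.ofReal ((r ^ k) ^ 2) *
            ∫⁻ ξ, ENNReal.ofReal (‖hc g k ξ‖ ^ 2) ∂(sig n)
          = ∫⁻ ξ, ENNReal.ofReal (2 * Real.pi * ∑ k ∈ Finset.range m,
              ‖hc g k ξ‖ ^ 2 * (r ^ k) ^ 2) ∂(sig n) := by
            have e1 : ∀ ξ : E n, ENNReal.ofReal (2 * Real.pi * ∑ k ∈ Finset.range m,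
                ‖hc g k ξ‖ ^ 2 * (r ^ k) ^ 2) = ENNReal.ofReal (2 * Real.pi) *
                ∑ k ∈ Finset.range m, ENNReal.ofReal ((r ^ k) ^ 2) *
                  ENNReal.ofReal (‖hc g k ξ‖ ^ 2) := by
              intro ξ
              rw [ENNReal.ofReal_mul (by positivity),
                ENNReal.ofReal_sum_of_nonneg (fun k _ => by positivity)]
              congr 1
              apply Finset.sum_congr rfl
              intro k _
              rw [← ENNReal.ofReal_mul (by positivity)]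
              congr 1
              ring
            simp_rw [e1]
            rw [lintegral_const_mul' _ _ ENNReal.ofReal_ne_top, lintegral_finsetSum]
            · congr 1
              apply Finset.sum_congr rfl
              intro k _
              rw [lintegral_const_mul' _ _ ENNReal.ofReal_ne_top]
            · intro k _
              exact (((hcc k).norm.pow 2).measurable.ennreal_ofReal).const_mul _
        _ ≤ ∫⁻ ξ, ∫⁻ t in Set.Ioc (0:ℝ) (2 * Real.pi),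
              ENNReal.ofReal (‖g' ((r : ℂ) • (Complex.exp (t * I) • ξ))‖ ^ 2) ∂volume ∂(sig n) := by
            apply lintegral_mono_ae
            filter_upwards [sig_ae_norm hn] with ξ hξ
            have hsl := J15_slice hgd hξ
            have h4 := B06_bessel hsl hr0 hr1 m
            have h5 := lintegral_Ioc_eq (fun t : ℝ =>
              ‖(fun z : ℂ => g (z • ξ)) (r * Complex.exp (t * I))‖ ^ 2) 0 (2 * Real.pi)
              (by positivity) ((J15_cont hsl hr0 hr1).norm.pow 2) (fun t => by positivity)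
            have h6 : ∫⁻ t in Set.Ioc (0:ℝ) (2 * Real.pi),
                ENNReal.ofReal (‖g' ((r : ℂ) • (Complex.exp (t * I) • ξ))‖ ^ 2) ∂volume =
                ∫⁻ t in Set.Ioc (0:ℝ) (2 * Real.pi), ENNReal.ofReal
                  (‖(fun z : ℂ => g (z • ξ)) (r * Complex.exp (t * I))‖ ^ 2) := by
              apply lintegral_congr
              intro t
              have hm : (r : ℂ) • (Complex.exp (t * I) • ξ) ∈ Metric.ball (0 : E n) 1 := by
                rw [mem_ball_zero_iff, norm_smul, norm_smul, hξ, mul_one, Complex.norm_real,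
                  Real.norm_of_nonneg hr0.le, Complex.norm_exp_ofReal_mul_I, mul_one]
                exact hr1
              rw [hg', Set.indicator_of_mem hm, smul_smul]
            rw [h6, h5]
            exact ENNReal.ofReal_le_ofReal h4
        _ = ENNReal.ofReal (2 * Real.pi) *
              ∫⁻ ξ, ENNReal.ofReal (‖g' ((r : ℂ) • ξ)‖ ^ 2) ∂(sig n) := h1.symm
        _ ≤ _ := by gcongr
    exact (ENNReal.mul_le_mul_iff_right h2pi ENNReal.ofReal_ne_top).1 h3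
  -- pass to the limit
  set H : ℕ → ℝ := fun k => ∫ ξ, ‖hc g k ξ‖ ^ 2 ∂(sig n) with hH
  have hH0 : ∀ k, 0 ≤ H k := fun k => integral_nonneg fun ξ => by positivity
  have hHe : ∀ k, ∫⁻ ξ, ENNReal.ofReal (‖hc g k ξ‖ ^ 2) ∂(sig n) = ENNReal.ofReal (H k) := by
    intro k
    rw [hH, ofReal_integral_eq_lintegral_ofReal]
    · exact integrable_sig_of_continuous hn _ ((hcc k).norm.pow 2)
    · exact Filter.Eventually.of_forall fun ξ => by positivity
  simp_rw [hHe] at hr ⊢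
  rw [← ENNReal.ofReal_sum_of_nonneg (fun k _ => hH0 k)]
  apply ENNReal.ofReal_le_ofReal
  have hr' : ∀ r : ℝ, 0 < r → r < 1 → ∑ k ∈ Finset.range m, (r ^ k) ^ 2 * H k ≤ M := by
    intro r hr0 hr1
    have h7 := hr r hr0 hr1
    have e : ∀ k ∈ Finset.range m, ENNReal.ofReal ((r ^ k) ^ 2) * ENNReal.ofReal (H k) =
        ENNReal.ofReal ((r ^ k) ^ 2 * H k) := fun k _ => (ENNReal.ofReal_mul (by positivity)).symm
    rw [Finset.sum_congr rfl e, ← ENNReal.ofReal_sum_of_nonneg (fun k _ => by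
      have := hH0 k; positivity), ENNReal.ofReal_le_ofReal_iff hM] at h7
    exact h7
  have hc1 : Continuous fun r : ℝ => ∑ k ∈ Finset.range m, (r ^ k) ^ 2 * H k := by fun_prop
  have ht : Filter.Tendsto (fun r : ℝ => ∑ k ∈ Finset.range m, (r ^ k) ^ 2 * H k)
      (nhdsWithin 1 (Set.Iio 1)) (nhds (∑ k ∈ Finset.range m, ((1:ℝ) ^ k) ^ 2 * H k)) :=
    (hc1.tendsto 1).mono_left nhdsWithin_le_nhds
  have h8 : ∑ k ∈ Finset.range m, ((1:ℝ) ^ k) ^ 2 * H k ≤ M := by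
    apply le_of_tendsto ht
    have : Set.Ioo (0:ℝ) 1 ∈ nhdsWithin (1:ℝ) (Set.Iio 1) :=
      Ioo_mem_nhdsLT (by norm_num)
    filter_upwards [this] with r hr2
    exact hr' r hr2.1 hr2.2
  simpa using h8

theorem B06_sc_add (n i j : ℕ) : sc n (i + j) = sc n i * sc n j := by
  unfold sc
  rw [← Real.rpow_add (by norm_num)]
  congr 1
  push_cast
  ring

theorem B06_sc_mono (n : ℕ) {i j : ℕ} (h : i ≤ j) : sc n i ≤ sc n j := by
  obtain ⟨k, rfl⟩ := Nat.exists_eq_add_of_le h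
  rw [B06_sc_add]
  have h1 := one_le_sc n k
  have h2 := sc_pos n i
  nlinarith

theorem B06_sc_unbdd (n : ℕ) (hn : 1 ≤ n) (x : ℝ) : ∃ d : ℕ, x ≤ sc n d := by
  obtain ⟨d, hd⟩ := pow_unbounded_of_one_lt x (one_lt_two : (1:ℝ) < 2)
  refine ⟨n * d, ?_⟩
  have hn0 : (n : ℝ) ≠ 0 := by positivity
  have : sc n (n * d) = 2 ^ d := by
    unfold sc
    push_cast
    rw [mul_div_cancel_left₀ _ hn0, Real.rpow_natCast]
  rw [this]
  exact hd.le

open Classical in
theorem B06_count (n : ℕ) (A a b : ℝ) (hA : 0 < A) (ha : 0 < a) (D₀ : ℕ)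
    (hD₀ : b / a ≤ sc n D₀) (L k : ℕ) :
    ∑ l ∈ Finset.range L, (if (a * (A * sc n l) < k ∧ (k : ℝ) < b * (A * sc n l)) then
      (1 : ℝ≥0∞) else 0) ≤ D₀ := by
  rw [Finset.sum_boole]
  have hcard : ((Finset.range L).filter fun l =>
      (a * (A * sc n l) < k ∧ (k : ℝ) < b * (A * sc n l))).card ≤ D₀ := by
    by_cases hne : ((Finset.range L).filter fun l =>
      (a * (A * sc n l) < k ∧ (k : ℝ) < b * (A * sc n l))).Nonempty
    · set S := ((Finset.range L).filter fun l =>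
        (a * (A * sc n l) < k ∧ (k : ℝ) < b * (A * sc n l))) with hS
      set l0 := S.min' hne with hl0
      have hl0S : l0 ∈ S := S.min'_mem hne
      have hsub : S ⊆ Finset.Ico l0 (l0 + D₀) := by
        intro l hl
        rw [Finset.mem_Ico]
        refine ⟨S.min'_le l hl, ?_⟩
        by_contra hcon
        rw [not_lt] at hcon
        have h1 := B06_sc_mono n hcon
        rw [B06_sc_add] at h1
        have h2 := (Finset.mem_filter.1 hl0S).2.2
        have h3 := (Finset.mem_filter.1 hl).2.1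
        have h4 := sc_pos n l0
        have h5 : b ≤ a * sc n D₀ := by
          rw [div_le_iff₀ ha] at hD₀
          linarith
        have h6 : b * (A * sc n l0) ≤ (a * sc n D₀) * (A * sc n l0) :=
          mul_le_mul_of_nonneg_right h5 (by positivity)
        have h7 : a * A * (sc n l0 * sc n D₀) ≤ a * A * sc n l :=
          mul_le_mul_of_nonneg_left h1 (by positivity)
        nlinarith
      calc S.card ≤ (Finset.Ico l0 (l0 + D₀)).card := Finset.card_le_card hsub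
        _ = D₀ := by simp
    · rw [Finset.not_nonempty_iff_eq_empty] at hne
      rw [hne]
      simp
  exact_mod_cast hcard

open Classical in
theorem B06_sumcut (n : ℕ) (hn : 1 ≤ n) (A : ℝ) (hA : 0 < A) (β : ℝ → ℝ) (a b : ℝ)
    (hβ : Bump β a b) : ∃ C : ℝ, 0 < C ∧ ∀ (g : E n → ℂ) (M : ℝ), 0 ≤ M → HB n 2 M g →
    ∀ L : ℕ, ∑ l ∈ Finset.range L,
      ∫⁻ ξ, ENNReal.ofReal (‖cut β (A * sc n l) g ξ‖ ^ 2) ∂(sig n) ≤ ENNReal.ofReal (C * M) := by
  obtain ⟨D₀, hD₀⟩ := B06_sc_unbdd n hn (b / a)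
  obtain ⟨B, hB⟩ := (isCompact_Icc (a := a) (b := b)).exists_bound_of_continuousOn
    hβ.smooth.continuous.continuousOn
  have hB' : ∀ x, |β x| ≤ |B| := by
    intro x
    by_cases hx : x ∈ Set.Icc a b
    · exact (hB x hx).trans (le_abs_self B)
    · have : β x = 0 := by
        rw [Set.mem_Icc, not_and_or, not_le, not_le] at hx
        rcases hx with hx | hx
        · exact hβ.lo x hx.le
        · exact hβ.hi x hx.le
      rw [this, abs_zero]
      exact abs_nonneg B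
  refine ⟨3 * (B ^ 2 + 1) * (D₀ + 1), by positivity, ?_⟩
  intro g M hM hg L
  obtain ⟨hcd, hchom, -⟩ := hc_props n g hg.1
  have hcc : ∀ k, Continuous (hc g k) := fun k => (hcd k).continuous
  set h : ℕ → ℝ≥0∞ := fun k => ∫⁻ ξ, ENNReal.ofReal (‖hc g k ξ‖ ^ 2) ∂(sig n) with hh
  set m : ℕ := (Finset.range L).sup (fun l => ⌈b * (A * sc n l)⌉₊) with hm
  have hlev : ∀ l ∈ Finset.range L,
      ∫⁻ ξ, ENNReal.ofReal (‖cut β (A * sc n l) g ξ‖ ^ 2) ∂(sig n) ≤
      ENNReal.ofReal (3 * (B ^ 2 + 1)) * ∑ k ∈ Finset.range m,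
        (if (a * (A * sc n l) < k ∧ (k : ℝ) < b * (A * sc n l)) then (1 : ℝ≥0∞) else 0) * h k := by
    intro l hl
    have hN : 0 < A * sc n l := mul_pos hA (sc_pos n l)
    have h1 := quasi_orth hn (fun k ξ => (β ((k : ℝ) / (A * sc n l)) : ℂ) * hc g k ξ)
      (fun k => continuous_const.mul (hcc k)) 1 (by
        intro i j hij
        have e : ∀ ξ, (β ((i : ℝ) / (A * sc n l)) : ℂ) * hc g i ξ *
            (starRingEnd ℂ) ((β ((j : ℝ) / (A * sc n l)) : ℂ) * hc g j ξ) =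
            ((β ((i : ℝ) / (A * sc n l)) : ℂ) * (starRingEnd ℂ) (β ((j : ℝ) / (A * sc n l)) : ℂ)) *
              (hc g i ξ * (starRingEnd ℂ) (hc g j ξ)) := by
          intro ξ
          rw [map_mul]
          ring
        simp_rw [e]
        rw [integral_const_mul, m_orth (k := i) (k' := j) (by omega) (hc g i) (hc g j)
          (fun c z => hchom i c z) (fun c z => hchom j c z), mul_zero])
      ⌈b * (A * sc n l)⌉₊
    have e2 : ∀ ξ, cut β (A * sc n l) g ξ = ∑ k ∈ Finset.range ⌈b * (A * sc n l)⌉₊,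
        (β ((k : ℝ) / (A * sc n l)) : ℂ) * hc g k ξ := fun ξ => bump_tsum hβ hN _
    simp_rw [e2]
    refine h1.trans ?_
    have hle : ⌈b * (A * sc n l)⌉₊ ≤ m :=
      Finset.le_sup (f := fun l => ⌈b * (A * sc n l)⌉₊) hl
    have h2 : ∀ k : ℕ, ∫⁻ ξ, ENNReal.ofReal (‖(β ((k : ℝ) / (A * sc n l)) : ℂ) * hc g k ξ‖ ^ 2)
        ∂(sig n) ≤ ENNReal.ofReal (B ^ 2 + 1) *
        ((if (a * (A * sc n l) < k ∧ (k : ℝ) < b * (A * sc n l)) then (1 : ℝ≥0∞) else 0) * h k) := by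
      intro k
      have e3 : ∀ ξ, ENNReal.ofReal (‖(β ((k : ℝ) / (A * sc n l)) : ℂ) * hc g k ξ‖ ^ 2) =
          ENNReal.ofReal (β ((k : ℝ) / (A * sc n l)) ^ 2) * ENNReal.ofReal (‖hc g k ξ‖ ^ 2) := by
        intro ξ
        rw [← ENNReal.ofReal_mul (by positivity), norm_mul, mul_pow, Complex.norm_real,
          Real.norm_eq_abs, sq_abs]
      simp_rw [e3]
      rw [lintegral_const_mul' _ _ ENNReal.ofReal_ne_top]
      by_cases hk : (a * (A * sc n l) < k ∧ (k : ℝ) < b * (A * sc n l))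
      · rw [if_pos hk, one_mul]
        have h3 : β ((k : ℝ) / (A * sc n l)) ^ 2 ≤ B ^ 2 + 1 := by
          have h4 := hB' ((k : ℝ) / (A * sc n l))
          have h5 := sq_le_sq.mpr h4
          linarith
        gcongr
      · rw [if_neg hk, zero_mul, mul_zero]
        have h4 : β ((k : ℝ) / (A * sc n l)) = 0 := by
          rw [not_and_or, not_lt, not_lt] at hk
          rcases hk with hk | hk
          · apply hβ.lo
            rwa [div_le_iff₀ hN]
          · apply hβ.hi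
            rwa [le_div_iff₀ hN]
        rw [h4]
        simp
    calc ENNReal.ofReal (2 * ((1 : ℕ) : ℝ) + 1) * ∑ k ∈ Finset.range ⌈b * (A * sc n l)⌉₊,
          ∫⁻ ξ, ENNReal.ofReal (‖(β ((k : ℝ) / (A * sc n l)) : ℂ) * hc g k ξ‖ ^ 2) ∂(sig n)
        ≤ ENNReal.ofReal (2 * ((1 : ℕ) : ℝ) + 1) * ∑ k ∈ Finset.range ⌈b * (A * sc n l)⌉₊,
          ENNReal.ofReal (B ^ 2 + 1) *
          ((if (a * (A * sc n l) < k ∧ (k : ℝ) < b * (A * sc n l)) then (1 : ℝ≥0∞) else 0) *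
            h k) := by
          gcongr with k _
          exact h2 k
      _ ≤ ENNReal.ofReal (2 * ((1 : ℕ) : ℝ) + 1) * ∑ k ∈ Finset.range m,
          ENNReal.ofReal (B ^ 2 + 1) *
          ((if (a * (A * sc n l) < k ∧ (k : ℝ) < b * (A * sc n l)) then (1 : ℝ≥0∞) else 0) *
            h k) := by
          gcongr
      _ = _ := by
          rw [← Finset.mul_sum, ← mul_assoc, ← ENNReal.ofReal_mul (by positivity)]
          congr 2
          push_cast
          ring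
  calc ∑ l ∈ Finset.range L, ∫⁻ ξ, ENNReal.ofReal (‖cut β (A * sc n l) g ξ‖ ^ 2) ∂(sig n)
      ≤ ∑ l ∈ Finset.range L, ENNReal.ofReal (3 * (B ^ 2 + 1)) * ∑ k ∈ Finset.range m,
        (if (a * (A * sc n l) < k ∧ (k : ℝ) < b * (A * sc n l)) then (1 : ℝ≥0∞) else 0) * h k :=
        Finset.sum_le_sum hlev
    _ = ENNReal.ofReal (3 * (B ^ 2 + 1)) * ∑ k ∈ Finset.range m, (∑ l ∈ Finset.range L,
        (if (a * (A * sc n l) < k ∧ (k : ℝ) < b * (A * sc n l)) then (1 : ℝ≥0∞) else 0)) * h k := by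
        rw [← Finset.mul_sum, Finset.sum_comm]
        congr 1
        apply Finset.sum_congr rfl
        intro k _
        rw [Finset.sum_mul]
    _ ≤ ENNReal.ofReal (3 * (B ^ 2 + 1)) * ∑ k ∈ Finset.range m, (D₀ : ℝ≥0∞) * h k := by
        gcongr with k _
        exact B06_count n A a b hA hβ.apos D₀ hD₀ L k
    _ = ENNReal.ofReal (3 * (B ^ 2 + 1)) * ((D₀ : ℝ≥0∞) * ∑ k ∈ Finset.range m, h k) := by
        congr 1
        rw [Finset.mul_sum]
    _ ≤ ENNReal.ofReal (3 * (B ^ 2 + 1)) * (ENNReal.ofReal (D₀ + 1) * ENNReal.ofReal M) := by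
        have h5 : (D₀ : ℝ≥0∞) ≤ ENNReal.ofReal ((D₀ : ℝ) + 1) := by
          rw [← ENNReal.ofReal_natCast]
          exact ENNReal.ofReal_le_ofReal (by linarith)
        gcongr
        exact B06_parseval n hn g M hM hg m
    _ = _ := by
        rw [← ENNReal.ofReal_mul (by positivity), ← ENNReal.ofReal_mul (by positivity)]
        congr 1
        ring

theorem B06_two (n : ℕ) (hn : 1 ≤ n) (K : ℝ) (hK : (n : ℝ) < K) (pt : ℕ → ℕ → E n) (c C : ℝ)
    (hT : TreeFam n pt c C) (A : ℝ) (hA : 0 < A) (β : ℝ → ℝ) (a b : ℝ) (hβ : Bump β a b) :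
    ∃ D : ℝ, 0 < D ∧ ∀ (g : E n → ℂ) (M : ℝ), 0 ≤ M → HB n 2 M g →
    ∀ L : ℕ, fnorm 2 L (fun l i => ((gav n β (A * sc n l) K g (pt l i) : ℝ) : ℂ)) ≤ D * M := by
  obtain ⟨C1, hC1, hcs⟩ := B06_cs n hn K hK
  obtain ⟨D1, hD1, hcount⟩ := counting_A n hn pt c C hT A hA K hK
  obtain ⟨D2, hD2, hsum⟩ := B06_sumcut n hn A hA β a b hβ
  refine ⟨C1 * A ^ (n : ℝ) * D1 * D2, by positivity, ?_⟩
  intro g M hM hg L
  set x : ℕ → ℕ → ℝ := fun l i => gav n β (A * sc n l) K g (pt l i) with hx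
  have hfn : fnorm 2 L (fun l i => ((x l i : ℝ) : ℂ)) =
      ∑ l ∈ Finset.range L, (1 / 2 ^ l) * ∑ i ∈ Finset.range (2 ^ l), (x l i) ^ 2 := by
    unfold fnorm
    have e1 : ∀ j, (∑ l ∈ Finset.range L, ‖((x l (j / 2 ^ (L - l)) : ℝ) : ℂ)‖ ^ 2) ^ ((2 : ℝ) / 2) =
        ∑ l ∈ Finset.range L, (x l (j / 2 ^ (L - l))) ^ 2 := by
      intro j
      rw [div_self (by norm_num), Real.rpow_one]
      apply Finset.sum_congr rfl
      intro l _
      rw [Complex.norm_real, Real.norm_eq_abs, sq_abs]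
    simp_rw [e1]
    rw [Finset.sum_comm, Finset.mul_sum]
    apply Finset.sum_congr rfl
    intro l hl
    rw [Finset.mem_range] at hl
    exact J17b_mean (fun i => (x l i) ^ 2) L l hl.le
  show fnorm 2 L (fun l i => ((x l i : ℝ) : ℂ)) ≤ _
  rw [hfn, ← ENNReal.ofReal_le_ofReal_iff (by positivity),
    ENNReal.ofReal_sum_of_nonneg (fun l _ => by positivity)]
  have hlev : ∀ l ∈ Finset.range L,
      ENNReal.ofReal ((1 / 2 ^ l) * ∑ i ∈ Finset.range (2 ^ l), (x l i) ^ 2) ≤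
      ENNReal.ofReal (C1 * A ^ (n : ℝ) * D1) *
        ∫⁻ ξ, ENNReal.ofReal (‖cut β (A * sc n l) g ξ‖ ^ 2) ∂(sig n) := by
    intro l _
    have hN : 0 < A * sc n l := mul_pos hA (sc_pos n l)
    have hcont := cut_cont n β a b hβ (A * sc n l) hN g hg.1
    have hNn : (A * sc n l) ^ (n : ℝ) = A ^ (n : ℝ) * 2 ^ l := by
      rw [Real.mul_rpow hA.le (sc_pos n l).le, sc_pow n l hn]
    have h1 : ∀ i ∈ Finset.range (2 ^ l), ENNReal.ofReal ((x l i) ^ 2) ≤
        ENNReal.ofReal (C1 * (A * sc n l) ^ (n : ℝ)) *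
        ∫⁻ ξ, ENNReal.ofReal (‖cut β (A * sc n l) g ξ‖ ^ 2 *
          (1 + A * sc n l * rho ξ (pt l i)) ^ (-K)) ∂(sig n) := by
      intro i _
      exact hcs (A * sc n l) hN (pt l i) (hT.unit l i) _ hcont
    have hmeas : ∀ i, Measurable fun ξ : E n => ENNReal.ofReal (‖cut β (A * sc n l) g ξ‖ ^ 2 *
          (1 + A * sc n l * rho ξ (pt l i)) ^ (-K)) := by
      intro i
      exact ((hcont.norm.pow 2).mul (B06_w_cont hN K (pt l i))).measurable.ennreal_ofReal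
    have h2 : ∑ i ∈ Finset.range (2 ^ l), ∫⁻ ξ, ENNReal.ofReal (‖cut β (A * sc n l) g ξ‖ ^ 2 *
          (1 + A * sc n l * rho ξ (pt l i)) ^ (-K)) ∂(sig n) ≤
        ENNReal.ofReal D1 * ∫⁻ ξ, ENNReal.ofReal (‖cut β (A * sc n l) g ξ‖ ^ 2) ∂(sig n) := by
      rw [← lintegral_finsetSum _ (fun i _ => hmeas i),
        ← lintegral_const_mul' _ _ ENNReal.ofReal_ne_top]
      apply lintegral_mono_ae
      filter_upwards [sig_ae_norm hn] with ξ hξ
      have h3 := hcount l ξ hξ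
      have hw0 : ∀ i, 0 < (1 + A * sc n l * rho ξ (pt l i)) ^ (-K) := by
        intro i
        have := rho_nonneg ξ (pt l i)
        positivity
      rw [← ENNReal.ofReal_sum_of_nonneg (fun i _ => by have := (hw0 i).le; positivity),
        ← Finset.mul_sum, ← ENNReal.ofReal_mul (by positivity)]
      apply ENNReal.ofReal_le_ofReal
      have := mul_le_mul_of_nonneg_left h3 (sq_nonneg ‖cut β (A * sc n l) g ξ‖)
      linarith
    calc ENNReal.ofReal ((1 / 2 ^ l) * ∑ i ∈ Finset.range (2 ^ l), (x l i) ^ 2)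
        = ENNReal.ofReal (1 / 2 ^ l) * ∑ i ∈ Finset.range (2 ^ l),
          ENNReal.ofReal ((x l i) ^ 2) := by
          rw [ENNReal.ofReal_mul (by positivity),
            ENNReal.ofReal_sum_of_nonneg (fun i _ => by positivity)]
      _ ≤ ENNReal.ofReal (1 / 2 ^ l) * ∑ i ∈ Finset.range (2 ^ l),
          (ENNReal.ofReal (C1 * (A * sc n l) ^ (n : ℝ)) *
          ∫⁻ ξ, ENNReal.ofReal (‖cut β (A * sc n l) g ξ‖ ^ 2 *
            (1 + A * sc n l * rho ξ (pt l i)) ^ (-K)) ∂(sig n)) := by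
          gcongr with i hi
          exact h1 i hi
      _ ≤ ENNReal.ofReal (1 / 2 ^ l) * (ENNReal.ofReal (C1 * (A * sc n l) ^ (n : ℝ)) *
          (ENNReal.ofReal D1 *
            ∫⁻ ξ, ENNReal.ofReal (‖cut β (A * sc n l) g ξ‖ ^ 2) ∂(sig n))) := by
          rw [← Finset.mul_sum]
          gcongr
      _ = _ := by
          rw [← mul_assoc, ← mul_assoc, ← ENNReal.ofReal_mul (by positivity),
            ← ENNReal.ofReal_mul (by positivity), hNn]
          congr 2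
          field_simp
  calc _ ≤ ∑ l ∈ Finset.range L, ENNReal.ofReal (C1 * A ^ (n : ℝ) * D1) *
        ∫⁻ ξ, ENNReal.ofReal (‖cut β (A * sc n l) g ξ‖ ^ 2) ∂(sig n) := Finset.sum_le_sum hlev
    _ = ENNReal.ofReal (C1 * A ^ (n : ℝ) * D1) * ∑ l ∈ Finset.range L,
        ∫⁻ ξ, ENNReal.ofReal (‖cut β (A * sc n l) g ξ‖ ^ 2) ∂(sig n) := by rw [Finset.mul_sum]
    _ ≤ ENNReal.ofReal (C1 * A ^ (n : ℝ) * D1) * ENNReal.ofReal (D2 * M) := by
        gcongr
        exact hsum g M hM hg L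
    _ = _ := by
        rw [← ENNReal.ofReal_mul (by positivity)]
        congr 1
        ring

/-- TARGET -/
theorem analysis_gav (n : ℕ) (hn : 1 ≤ n) (p : ℝ) (hp : 0 < p) (hp1 : p ≤ 1 ∨ p = 2) :
    ∃ K₀ : ℝ, (n : ℝ) < K₀ ∧ ∀ K : ℝ, K₀ ≤ K → ∀ (pt : ℕ → ℕ → E n) (c C : ℝ), TreeFam n pt c C →
    ∀ A : ℝ, 0 < A → ∀ (β : ℝ → ℝ) (a b : ℝ), Bump β a b → ∃ D : ℝ, 0 < D ∧
    ∀ (g : E n → ℂ) (M : ℝ), 0 ≤ M → HB n p M g →
    ∀ L : ℕ, fnorm p L (fun l i => ((gav n β (A * sc n l) K g (pt l i) : ℝ) : ℂ)) ≤ D * M := by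
  rcases hp1 with hp1 | hp1
  · have hp2 : p < 2 := by linarith
    obtain ⟨K1, hK1, hW⟩ := weights_gen n hn p hp hp2
    refine ⟨max K1 (n + 1), lt_of_lt_of_le hK1 (le_max_left _ _), ?_⟩
    intro K hK pt c C hT A hA β a b hβ
    have hnK : (n : ℝ) < K := lt_of_lt_of_le hK1 ((le_max_left _ _).trans hK)
    obtain ⟨Cc, hCc, hlev⟩ := B06_level n hn β a b hβ K hnK A hA
    obtain ⟨D, hD, hD2⟩ := hW K ((le_max_left _ _).trans hK) pt c C hT A hA Cc hCc
    obtain ⟨D', hD', hF⟩ := fnorm_of_weights p hp hp2 D hD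
    refine ⟨D', hD', fun g M hM hg L => ?_⟩
    rcases Nat.eq_zero_or_pos L with hL | hL
    · subst hL
      have : fnorm p 0 (fun l i => ((gav n β (A * sc n l) K g (pt l i) : ℝ) : ℂ)) = 0 := by
        simp [fnorm, Real.zero_rpow (show p / 2 ≠ 0 by positivity)]
      rw [this]
      positivity
    have key : ∀ δ : ℝ, 0 < δ →
        fnorm p L (fun l i => ((gav n β (A * sc n l) K g (pt l i) : ℝ) : ℂ)) ≤ D' * (M + δ) := by
      intro δ hδ
      obtain ⟨W, hW0, hW1, hW2⟩ := hD2 g hg.1 (M + δ) (by linarith) (fun r hr0 hr1 =>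
        (hg.2 r hr0 hr1).trans (ENNReal.ofReal_le_ofReal (by linarith))) L hL
      have h3 := hW2 (fun l i => ((gav n β (A * sc n l) K g (pt l i) : ℝ) : ℂ)) (by
        intro l _ i
        have h4 := hlev g hg.1 (A * sc n l) (by
          have := one_le_sc n l
          nlinarith) (pt l i) (hT.unit l i)
        rw [Complex.norm_real, Real.norm_eq_abs, sq_abs]
        exact h4)
      exact hF L _ W (M + δ) hL (by linarith) hW0 hW1 h3
    apply le_of_forall_pos_le_add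
    intro e he
    have := key (e / D') (by positivity)
    calc _ ≤ D' * (M + e / D') := this
      _ = D' * M + e := by field_simp
  · subst hp1
    refine ⟨n + 1, by linarith, ?_⟩
    intro K hK pt c C hT A hA β a b hβ
    exact B06_two n hn K (by linarith) pt c C hT A hA β a b hβ

end Pool.Agent.HpBall2

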