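import Mathlib
import Pool.Agent.HpBall2.Defs
import Pool.Agent.HpBall.Combine

set_option autoImplicit false

open MeasureTheory Complex
open scoped ENNReal NNReal

namespace Pool.Agent.HpBall2

open Pool.Agent.HpBall


theorem B20_sum_mul (f : ℕ → ℝ) (a b : ℕ) :
    ∑ J ∈ Finset.range (a * b), f J = ∑ τ ∈ Finset.range a, ∑ j ∈ Finset.range b, f (τ * b + j) := by
  induction a with
  | zero => simp
  | succ a ih => rw [Nat.succ_mul, Finset.sum_range_add, ih, Finset.sum_range_succ]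

theorem B20_div (s L l τ j : ℕ) (hl : l < L) :
    (τ * 2 ^ L + j) / 2 ^ (s + L - (s + l)) = τ * 2 ^ l + j / 2 ^ (L - l) := by
  have e1 : s + L - (s + l) = L - l := by omega
  have e2 : 2 ^ L = 2 ^ (L - l) * 2 ^ l := by rw [← pow_add]; congr 1; omega
  rw [e1]
  have e3 : τ * 2 ^ L + j = 2 ^ (L - l) * (τ * 2 ^ l) + j := by rw [e2]; ring
  rw [e3, Nat.mul_add_div (by positivity)]

theorem B20_split (x : ℕ → ℕ → ℂ) (s L τ j : ℕ) :
    ∑ l ∈ Finset.range (s + L), ‖x l ((τ * 2 ^ L + j) / 2 ^ (s + L - l))‖ ^ 2 =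
    ∑ l ∈ Finset.range s, ‖x l ((τ * 2 ^ L + j) / 2 ^ (s + L - l))‖ ^ 2 +
    ∑ l ∈ Finset.range L, ‖x (s + l) (τ * 2 ^ l + j / 2 ^ (L - l))‖ ^ 2 := by
  rw [Finset.sum_range_add]
  congr 1
  apply Finset.sum_congr rfl
  intro l hl
  rw [B20_div s L l τ j (Finset.mem_range.1 hl)]

/-- TARGET -/
theorem fnorm_subtree (p : ℝ) (hp : 0 < p) (x : ℕ → ℕ → ℂ) (s L : ℕ) :
    (∀ τ < 2 ^ s, fnorm p L (fun l i => x (s + l) (τ * 2 ^ l + i)) ≤ 2 ^ s * fnorm p (s + L) x) ∧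
    ((∀ l < s, ∀ i, x l i = 0) → fnorm p (s + L) x =
      (1 / 2 ^ s) * ∑ τ ∈ Finset.range (2 ^ s), fnorm p L (fun l i => x (s + l) (τ * 2 ^ l + i))) := by
  have e : (2 : ℝ) ^ (s + L) = 2 ^ s * 2 ^ L := pow_add _ _ _
  have h2s : (0 : ℝ) < 2 ^ s := by positivity
  have h2L : (0 : ℝ) < 2 ^ L := by positivity
  have eN : 2 ^ (s + L) = 2 ^ s * 2 ^ L := pow_add _ _ _
  constructor
  · intro τ hτ
    unfold fnorm
    rw [e, eN, B20_sum_mul]
    have h1 : ∑ j ∈ Finset.range (2 ^ L),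
        (∑ l ∈ Finset.range L, ‖x (s + l) (τ * 2 ^ l + j / 2 ^ (L - l))‖ ^ 2) ^ (p / 2) ≤
        ∑ τ ∈ Finset.range (2 ^ s), ∑ j ∈ Finset.range (2 ^ L),
          (∑ l ∈ Finset.range (s + L), ‖x l ((τ * 2 ^ L + j) / 2 ^ (s + L - l))‖ ^ 2) ^ (p / 2) := by
      have h2 : ∑ j ∈ Finset.range (2 ^ L),
          (∑ l ∈ Finset.range (s + L), ‖x l ((τ * 2 ^ L + j) / 2 ^ (s + L - l))‖ ^ 2) ^ (p / 2) ≤
          ∑ τ ∈ Finset.range (2 ^ s), ∑ j ∈ Finset.range (2 ^ L),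
          (∑ l ∈ Finset.range (s + L), ‖x l ((τ * 2 ^ L + j) / 2 ^ (s + L - l))‖ ^ 2) ^ (p / 2) :=
        Finset.single_le_sum (f := fun τ => ∑ j ∈ Finset.range (2 ^ L),
          (∑ l ∈ Finset.range (s + L), ‖x l ((τ * 2 ^ L + j) / 2 ^ (s + L - l))‖ ^ 2) ^ (p / 2))
          (fun i _ => Finset.sum_nonneg fun j _ =>
            Real.rpow_nonneg (Finset.sum_nonneg fun l _ => by positivity) _)
          (Finset.mem_range.2 hτ)
      refine le_trans (Finset.sum_le_sum fun j _ => ?_) h2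
      refine Real.rpow_le_rpow (Finset.sum_nonneg fun l _ => by positivity) ?_ (by positivity)
      rw [B20_split]
      have : 0 ≤ ∑ l ∈ Finset.range s, ‖x l ((τ * 2 ^ L + j) / 2 ^ (s + L - l))‖ ^ 2 :=
        Finset.sum_nonneg fun l _ => by positivity
      linarith
    have h3 : (2 : ℝ) ^ s * (1 / (2 ^ s * 2 ^ L) * ∑ τ ∈ Finset.range (2 ^ s),
        ∑ j ∈ Finset.range (2 ^ L),
          (∑ l ∈ Finset.range (s + L), ‖x l ((τ * 2 ^ L + j) / 2 ^ (s + L - l))‖ ^ 2) ^ (p / 2)) =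
        1 / 2 ^ L * ∑ τ ∈ Finset.range (2 ^ s), ∑ j ∈ Finset.range (2 ^ L),
          (∑ l ∈ Finset.range (s + L), ‖x l ((τ * 2 ^ L + j) / 2 ^ (s + L - l))‖ ^ 2) ^ (p / 2) := by
      field_simp
    rw [h3]
    exact mul_le_mul_of_nonneg_left h1 (by positivity)
  · intro h0
    unfold fnorm
    rw [e, eN, B20_sum_mul, ← Finset.mul_sum, ← mul_assoc]
    congr 1
    · field_simp
    · apply Finset.sum_congr rfl
      intro τ _
      apply Finset.sum_congr rfl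
      intro j _
      rw [B20_split]
      have : ∑ l ∈ Finset.range s, ‖x l ((τ * 2 ^ L + j) / 2 ^ (s + L - l))‖ ^ 2 = 0 := by
        apply Finset.sum_eq_zero
        intro l hl
        rw [h0 l (Finset.mem_range.1 hl)]
        simp
      rw [this, zero_add]


/-- TARGET -/
theorem fnorm_basic (p : ℝ) (hp : 0 < p) :
    (∀ (L : ℕ) (x y : ℕ → ℕ → ℂ), (∀ l < L, ∀ i < 2 ^ l, ‖x l i‖ ≤ ‖y l i‖) →
      fnorm p L x ≤ fnorm p L y) ∧
    (∀ (L L' : ℕ) (x : ℕ → ℕ → ℂ), L ≤ L' → fnorm p L x ≤ fnorm p L' x) ∧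
    (∀ (L : ℕ) (x : ℕ → ℕ → ℂ) (c : ℂ), fnorm p L (fun l i => c * x l i) = ‖c‖ ^ p * fnorm p L x) ∧
    (∀ (L : ℕ) (x : ℕ → ℕ → ℂ), 0 ≤ fnorm p L x) := by
  have hsq : ∀ (L : ℕ) (x : ℕ → ℕ → ℂ) (j : ℕ),
      0 ≤ ∑ l ∈ Finset.range L, ‖x l (j / 2 ^ (L - l))‖ ^ 2 := fun L x j =>
    Finset.sum_nonneg fun l _ => by positivity
  refine ⟨?_, ?_, ?_, ?_⟩
  · intro L x y h
    unfold fnorm
    refine mul_le_mul_of_nonneg_left (Finset.sum_le_sum fun j hj => ?_) (by positivity)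
    refine Real.rpow_le_rpow (hsq L x j) (Finset.sum_le_sum fun l hl => ?_) (by positivity)
    have hl' := Finset.mem_range.1 hl
    have hj' := Finset.mem_range.1 hj
    have : j / 2 ^ (L - l) < 2 ^ l := by
      apply Nat.div_lt_of_lt_mul
      rw [← pow_add]
      have e : L - l + l = L := by omega
      rw [e]; exact hj'
    exact pow_le_pow_left₀ (norm_nonneg _) (h l hl' _ this) 2
  · intro L L' x hL
    have h1 := J17b_mean (fun i => (∑ l ∈ Finset.range L, ‖x l (i / 2 ^ (L - l))‖ ^ 2) ^ (p / 2)) L' L hL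
    have h2 : fnorm p L x = (1 / 2 ^ L) * ∑ i ∈ Finset.range (2 ^ L),
      (fun i => (∑ l ∈ Finset.range L, ‖x l (i / 2 ^ (L - l))‖ ^ 2) ^ (p / 2)) i := rfl
    rw [h2, ← h1]
    unfold fnorm
    refine mul_le_mul_of_nonneg_left (Finset.sum_le_sum fun j hj => ?_) (by positivity)
    refine Real.rpow_le_rpow (hsq L x _) ?_ (by positivity)
    have h3 : ∑ l ∈ Finset.range L, ‖x l (j / 2 ^ (L' - L) / 2 ^ (L - l))‖ ^ 2 =
        ∑ l ∈ Finset.range L, ‖x l (j / 2 ^ (L' - l))‖ ^ 2 := by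
      apply Finset.sum_congr rfl
      intro l hl
      have hl' := Finset.mem_range.1 hl
      rw [Nat.div_div_eq_div_mul, ← pow_add]
      have e : L' - L + (L - l) = L' - l := by omega
      rw [e]
    rw [h3]
    exact Finset.sum_le_sum_of_subset_of_nonneg (Finset.range_mono hL)
      (fun l _ _ => by positivity)
  · intro L x c
    unfold fnorm
    have h0 : ∑ j ∈ Finset.range (2 ^ L),
        (∑ l ∈ Finset.range L, ‖c * x l (j / 2 ^ (L - l))‖ ^ 2) ^ (p / 2) =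
        ‖c‖ ^ p * ∑ j ∈ Finset.range (2 ^ L),
        (∑ l ∈ Finset.range L, ‖x l (j / 2 ^ (L - l))‖ ^ 2) ^ (p / 2) := by
      rw [Finset.mul_sum]
      apply Finset.sum_congr rfl
      intro j _
      have h1 : ∑ l ∈ Finset.range L, ‖c * x l (j / 2 ^ (L - l))‖ ^ 2 =
          ‖c‖ ^ 2 * ∑ l ∈ Finset.range L, ‖x l (j / 2 ^ (L - l))‖ ^ 2 := by
        rw [Finset.mul_sum]
        apply Finset.sum_congr rfl
        intro l _
        rw [norm_mul, mul_pow]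
      rw [h1, Real.mul_rpow (by positivity) (hsq L x j)]
      congr 1
      rw [← Real.rpow_natCast, ← Real.rpow_mul (norm_nonneg _)]
      congr 1
      push_cast
      ring
    show (1 / 2 ^ L) * ∑ j ∈ Finset.range (2 ^ L),
        (∑ l ∈ Finset.range L, ‖c * x l (j / 2 ^ (L - l))‖ ^ 2) ^ (p / 2) = _
    rw [h0]
    ring
  · intro L x
    unfold fnorm
    exact mul_nonneg (by positivity) (Finset.sum_nonneg fun j _ => Real.rpow_nonneg (hsq L x j) _)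

theorem B20_mink (p : ℝ) (hp : 0 < p) (hp1 : p ≤ 1) (S : Finset ℕ) (a b : ℕ → ℂ) :
    (∑ l ∈ S, ‖a l + b l‖ ^ 2) ^ (p / 2) ≤
      (∑ l ∈ S, ‖a l‖ ^ 2) ^ (p / 2) + (∑ l ∈ S, ‖b l‖ ^ 2) ^ (p / 2) := by
  have hA : 0 ≤ ∑ l ∈ S, ‖a l‖ ^ 2 := Finset.sum_nonneg fun l _ => by positivity
  have hB : 0 ≤ ∑ l ∈ S, ‖b l‖ ^ 2 := Finset.sum_nonneg fun l _ => by positivity
  have hC : 0 ≤ ∑ l ∈ S, ‖a l + b l‖ ^ 2 := Finset.sum_nonneg fun l _ => by positivity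
  have key : ∀ u : ℝ, 0 ≤ u → u ^ (p / 2) = (Real.sqrt u) ^ p := by
    intro u hu
    rw [Real.sqrt_eq_rpow, ← Real.rpow_mul hu]
    congr 1; ring
  rw [key _ hA, key _ hB, key _ hC]
  have hM : Real.sqrt (∑ l ∈ S, ‖a l + b l‖ ^ 2) ≤
      Real.sqrt (∑ l ∈ S, ‖a l‖ ^ 2) + Real.sqrt (∑ l ∈ S, ‖b l‖ ^ 2) := by
    have h1 := Real.Lp_add_le_of_nonneg (p := 2) S (f := fun l => ‖a l‖) (g := fun l => ‖b l‖)
      (by norm_num) (fun l _ => norm_nonneg _) (fun l _ => norm_nonneg _)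
    have h2 : ∀ w : ℕ → ℝ, (∑ l ∈ S, (w l) ^ (2 : ℝ)) ^ (1 / (2 : ℝ)) =
        Real.sqrt (∑ l ∈ S, (w l) ^ 2) := by
      intro w
      rw [Real.sqrt_eq_rpow]
      congr 1
      apply Finset.sum_congr rfl
      intro l _
      rw [← Real.rpow_natCast]; norm_num
    rw [h2 (fun l => ‖a l‖ + ‖b l‖), h2 (fun l => ‖a l‖), h2 (fun l => ‖b l‖)] at h1
    refine le_trans (Real.sqrt_le_sqrt (Finset.sum_le_sum fun l _ => ?_)) h1
    exact pow_le_pow_left₀ (norm_nonneg _) (norm_add_le _ _) 2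
  refine le_trans (Real.rpow_le_rpow (Real.sqrt_nonneg _) hM hp.le) ?_
  exact Real.rpow_add_le_add_rpow (Real.sqrt_nonneg _) (Real.sqrt_nonneg _) hp.le hp1

theorem B20_fnorm_add (p : ℝ) (hp : 0 < p) (hp1 : p ≤ 1) (L : ℕ) (a b : ℕ → ℕ → ℂ) :
    fnorm p L (fun l i => a l i + b l i) ≤ fnorm p L a + fnorm p L b := by
  unfold fnorm
  rw [← mul_add, ← Finset.sum_add_distrib]
  refine mul_le_mul_of_nonneg_left (Finset.sum_le_sum fun j _ => ?_) (by positivity)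
  exact B20_mink p hp hp1 _ (fun l => a l (j / 2 ^ (L - l))) (fun l => b l (j / 2 ^ (L - l)))

theorem B20_arr_norm (y : Ix → ℂ) (l i : ℕ) (h : i < 2 ^ l) :
    ‖arr y l i‖ ^ 2 = 2 ^ l * ‖y ⟨l, ⟨i, h⟩⟩‖ ^ 2 := by
  unfold arr
  rw [dif_pos h, norm_mul, mul_pow, Complex.norm_real, Real.norm_eq_abs,
    abs_of_pos (Real.rpow_pos_of_pos two_pos _)]
  congr 1
  rw [← Real.rpow_natCast, ← Real.rpow_mul (by norm_num)]
  have : (l : ℝ) / 2 * ((2 : ℕ) : ℝ) = l := by push_cast; ring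
  rw [this, Real.rpow_natCast]

theorem B20_bd (p : ℝ) (hp : 0 < p) (hp1 : p ≤ 1) (L : ℕ) (y : KS) :
    fnorm p L (arr (⇑y)) ≤ ‖y‖ ^ p := by
  have hsq : ∀ (j : ℕ), 0 ≤ ∑ l ∈ Finset.range L, ‖arr (⇑y) l (j / 2 ^ (L - l))‖ ^ 2 := fun j =>
    Finset.sum_nonneg fun l _ => by positivity
  have h1 : fnorm p L (arr (⇑y)) ≤ ((1 / 2 ^ L) * ∑ j ∈ Finset.range (2 ^ L),
      ∑ l ∈ Finset.range L, ‖arr (⇑y) l (j / 2 ^ (L - l))‖ ^ 2) ^ (p / 2) := by
    have hc := (Real.concaveOn_rpow (p := p / 2) (by positivity) (by linarith)).le_map_sum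
      (t := Finset.range (2 ^ L)) (w := fun _ => (1 / 2 ^ L : ℝ))
      (p := fun j => ∑ l ∈ Finset.range L, ‖arr (⇑y) l (j / 2 ^ (L - l))‖ ^ 2)
      (fun _ _ => by positivity) (by
        rw [Finset.sum_const, Finset.card_range, nsmul_eq_mul]
        push_cast
        field_simp) (fun j _ => hsq j)
    simp only [smul_eq_mul] at hc
    rw [← Finset.mul_sum, ← Finset.mul_sum] at hc
    exact hc
  refine le_trans h1 ?_
  have h2 : (1 / 2 ^ L : ℝ) * ∑ j ∈ Finset.range (2 ^ L),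
      ∑ l ∈ Finset.range L, ‖arr (⇑y) l (j / 2 ^ (L - l))‖ ^ 2 ≤ ‖y‖ ^ 2 := by
    rw [Finset.sum_comm, Finset.mul_sum]
    have h3 : ∑ l ∈ Finset.range L, (1 / 2 ^ L : ℝ) * ∑ j ∈ Finset.range (2 ^ L),
        ‖arr (⇑y) l (j / 2 ^ (L - l))‖ ^ 2 =
        ∑ l ∈ Finset.range L, ∑ i : Fin (2 ^ l), ‖y ⟨l, i⟩‖ ^ 2 := by
      apply Finset.sum_congr rfl
      intro l hl
      have hl' := Finset.mem_range.1 hl
      have h4 := J17b_mean (fun i => ‖arr (⇑y) l i‖ ^ 2) L l hl'.le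
      rw [h4, ← Fin.sum_univ_eq_sum_range (fun i => ‖arr (⇑y) l i‖ ^ 2), Finset.mul_sum]
      apply Finset.sum_congr rfl
      intro i _
      rw [B20_arr_norm _ l i i.2]
      field_simp
    rw [h3]
    have h5 := lp.sum_rpow_le_norm_rpow (p := 2) (by norm_num) y
      ((Finset.range L).sigma fun l => (Finset.univ : Finset (Fin (2 ^ l))))
    rw [Finset.sum_sigma] at h5
    simp only [ENNReal.toReal_ofNat, Real.rpow_ofNat] at h5
    exact h5
  refine le_trans (Real.rpow_le_rpow (mul_nonneg (by positivity)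
    (Finset.sum_nonneg fun j _ => hsq j)) h2 (by positivity)) (le_of_eq ?_)
  rw [← Real.rpow_natCast, ← Real.rpow_mul (norm_nonneg _)]
  congr 1
  push_cast
  ring


/-- TARGET -/
theorem NK_pfun (p : ℝ) (hp : 0 < p) (hp1 : p ≤ 1) : PFun p (fun y : KS => NK p (⇑y)) := by
  refine ⟨?_, ?_, ⟨1, one_pos, ?_⟩⟩
  · intro x y
    show NK p (⇑(x + y)) ≤ NK p (⇑x) + NK p (⇑y)
    unfold NK
    apply iSup_le
    intro L
    have e : arr (⇑(x + y)) = fun l i => arr (⇑x) l i + arr (⇑y) l i := by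
      funext l i
      unfold arr
      split_ifs with h
      · rw [lp.coeFn_add, Pi.add_apply, mul_add]
      · simp
    rw [e]
    refine le_trans (ENNReal.ofReal_le_ofReal (B20_fnorm_add p hp hp1 L _ _)) ?_
    rw [ENNReal.ofReal_add ((fnorm_basic p hp).2.2.2 L _) ((fnorm_basic p hp).2.2.2 L _)]
    exact add_le_add (le_iSup (fun L => ENNReal.ofReal (fnorm p L (arr (⇑x)))) L)
      (le_iSup (fun L => ENNReal.ofReal (fnorm p L (arr (⇑y)))) L)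
  · intro c x
    show NK p (⇑(c • x)) = ENNReal.ofReal (‖c‖ ^ p) * NK p (⇑x)
    unfold NK
    rw [ENNReal.mul_iSup]
    apply iSup_congr
    intro L
    have e : arr (⇑(c • x)) = fun l i => c * arr (⇑x) l i := by
      funext l i
      unfold arr
      split_ifs with h
      · rw [lp.coeFn_smul, Pi.smul_apply, smul_eq_mul]; ring
      · simp
    rw [e, (fnorm_basic p hp).2.2.1, ENNReal.ofReal_mul (by positivity)]
  · intro x
    show NK p (⇑x) ≤ _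
    unfold NK
    apply iSup_le
    intro L
    rw [one_mul]
    exact ENNReal.ofReal_le_ofReal (B20_bd p hp hp1 L x)


/-- TARGET -/
theorem NK_solid (p : ℝ) (hp : 0 < p) (x y : Ix → ℂ) (h : ∀ κ, ‖x κ‖ ≤ ‖y κ‖) :
    NK p x ≤ NK p y := by
  unfold NK
  apply iSup_mono
  intro L
  apply ENNReal.ofReal_le_ofReal
  apply (fnorm_basic p hp).1
  intro l _ i hi
  unfold arr
  rw [dif_pos hi, dif_pos hi, norm_mul, norm_mul]
  exact mul_le_mul_of_nonneg_left (h _) (norm_nonneg _)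


/-- TARGET -/
theorem NK_single (p : ℝ) (hp : 0 < p) (κ : Ix) : 0 < NK p (Pi.single κ (1 : ℂ)) := by
  obtain ⟨l, i, hi⟩ := κ
  unfold NK
  refine lt_of_lt_of_le ?_ (le_iSup (fun L => ENNReal.ofReal (fnorm p L
    (arr (Pi.single (⟨l, ⟨i, hi⟩⟩ : Ix) (1 : ℂ))))) (l + 1))
  rw [ENNReal.ofReal_pos]
  unfold fnorm
  apply mul_pos (by positivity)
  have hsq : ∀ (j : ℕ), 0 ≤ ∑ m ∈ Finset.range (l + 1),
      ‖arr (Pi.single (⟨l, ⟨i, hi⟩⟩ : Ix) (1 : ℂ)) m (j / 2 ^ (l + 1 - m))‖ ^ 2 := fun j =>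
    Finset.sum_nonneg fun m _ => by positivity
  have hj : 2 * i ∈ Finset.range (2 ^ (l + 1)) := by
    rw [Finset.mem_range, pow_succ]; omega
  refine lt_of_lt_of_le ?_ (Finset.single_le_sum (f := fun j => (∑ m ∈ Finset.range (l + 1),
      ‖arr (Pi.single (⟨l, ⟨i, hi⟩⟩ : Ix) (1 : ℂ)) m (j / 2 ^ (l + 1 - m))‖ ^ 2) ^ (p / 2))
      (fun j _ => Real.rpow_nonneg (hsq j) _) hj)
  apply Real.rpow_pos_of_pos
  refine lt_of_lt_of_le ?_ (Finset.single_le_sum (f := fun m =>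
      ‖arr (Pi.single (⟨l, ⟨i, hi⟩⟩ : Ix) (1 : ℂ)) m (2 * i / 2 ^ (l + 1 - m))‖ ^ 2)
      (fun m _ => by positivity) (Finset.mem_range.2 (Nat.lt_succ_self l)))
  have e1 : 2 * i / 2 ^ (l + 1 - l) = i := by
    have : l + 1 - l = 1 := by omega
    rw [this]; omega
  simp only [e1]
  rw [B20_arr_norm _ l i hi, Pi.single_eq_same]
  simp


end Pool.Agent.HpBall2
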