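import Mathlib
import Pool.Agent.HpBall2.Defs

set_option autoImplicit false

open MeasureTheory Complex
open scoped ENNReal NNReal

namespace Pool.Agent.HpBall2

open Pool.Agent.HpBall

theorem B22_mem {H : Type} [NormedAddCommGroup H] [InnerProductSpace ℂ H]
    (t : Ix → H) (B : ℝ)
    (hB : ∀ (h : H) (s : Finset Ix), ∑ κ ∈ s, ‖(inner ℂ (t κ) h : ℂ)‖ ^ 2 ≤ B * ‖h‖ ^ 2) (h : H) :
    Memℓp (fun κ : Ix => (inner ℂ (t κ) h : ℂ)) 2 := by
  apply memℓp_gen' (C := B * ‖h‖ ^ 2)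
  intro s
  refine le_trans (le_of_eq ?_) (hB h s)
  refine Finset.sum_congr rfl fun κ _ => ?_
  simp

/-- TARGET -/
theorem bessel_op {H : Type} [NormedAddCommGroup H] [InnerProductSpace ℂ H] [CompleteSpace H]
    (t : Ix → H) (B : ℝ)
    (hB : ∀ (h : H) (s : Finset Ix), ∑ κ ∈ s, ‖(inner ℂ (t κ) h : ℂ)‖ ^ 2 ≤ B * ‖h‖ ^ 2) :
    ∃ T : H →L[ℂ] KS, (∀ (h : H) (κ : Ix), (T h) κ = inner ℂ (t κ) h) ∧
      ∀ κ : Ix, ContinuousLinearMap.adjoint T (lp.single 2 κ (1 : ℂ)) = t κ := by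
  let T0 : H →ₗ[ℂ] KS :=
    { toFun := fun h => ⟨fun κ : Ix => (inner ℂ (t κ) h : ℂ), B22_mem t B hB h⟩
      map_add' := by
        intro x y
        apply lp.ext
        funext κ
        exact inner_add_right _ _ _
      map_smul' := by
        intro c x
        apply lp.ext
        funext κ
        exact inner_smul_right _ _ _ }
  have hT0 : ∀ (h : H) (κ : Ix), (T0 h) κ = inner ℂ (t κ) h := fun h κ => rfl
  have hbd : ∀ h, ‖T0 h‖ ≤ Real.sqrt (max B 0) * ‖h‖ := by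
    intro h
    apply lp.norm_le_of_forall_sum_le (by norm_num) (by positivity)
    intro s
    have h1 : ∑ κ ∈ s, ‖(T0 h) κ‖ ^ (2 : ℝ≥0∞).toReal = ∑ κ ∈ s, ‖(inner ℂ (t κ) h : ℂ)‖ ^ 2 := by
      refine Finset.sum_congr rfl fun κ _ => ?_
      rw [hT0]; simp
    have h2 : (Real.sqrt (max B 0) * ‖h‖) ^ (2 : ℝ≥0∞).toReal = max B 0 * ‖h‖ ^ 2 := by
      have : (2 : ℝ≥0∞).toReal = (2 : ℕ) := by norm_num
      rw [this, Real.rpow_natCast, mul_pow, Real.sq_sqrt (le_max_right _ _)]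
    rw [h1, h2]
    exact (hB h s).trans (mul_le_mul_of_nonneg_right (le_max_left _ _) (sq_nonneg _))
  refine ⟨T0.mkContinuous _ hbd, fun h κ => rfl, ?_⟩
  intro κ
  apply ext_inner_right ℂ
  intro v
  rw [ContinuousLinearMap.adjoint_inner_left, lp.inner_single_left]
  show inner ℂ (1 : ℂ) ((T0 v) κ) = _
  rw [hT0]
  simp

end Pool.Agent.HpBall2
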