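import Mathlib
import Pool.Agent.HpBall2.Defs

set_option autoImplicit false

open MeasureTheory Complex
open scoped ENNReal NNReal

namespace Pool.Agent.HpBall2

open Pool.Agent.HpBall

/-- the angle function: `0` for `x ≤ 1`, `π/2` for `x ≥ q` -/
noncomputable def B09_th (q x : ℝ) : ℝ := Real.pi / 2 * Real.smoothTransition ((x - 1) / (q - 1))

theorem B09_th_lo {q x : ℝ} (hq : 1 < q) (hx : x ≤ 1) : B09_th q x = 0 := by
  unfold B09_th
  rw [Real.smoothTransition.zero_of_nonpos, mul_zero]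
  exact div_nonpos_of_nonpos_of_nonneg (by linarith) (by linarith)

theorem B09_th_hi {q x : ℝ} (hq : 1 < q) (hx : q ≤ x) : B09_th q x = Real.pi / 2 := by
  unfold B09_th
  rw [Real.smoothTransition.one_of_one_le, mul_one]
  rw [le_div_iff₀ (by linarith)]
  linarith

theorem B09_th_smooth (q : ℝ) : ContDiff ℝ (⊤ : ℕ∞) (B09_th q) := by
  unfold B09_th
  apply contDiff_const.mul
  apply Real.smoothTransition.contDiff.comp
  exact (contDiff_id.sub contDiff_const).div_const _

/-- the bump -/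
noncomputable def B09_be (q x : ℝ) : ℝ := Real.sin (B09_th q x) * Real.cos (B09_th q (x / q))

theorem B09_be_sq {q : ℝ} (hq : 1 < q) (x : ℝ) :
    B09_be q x ^ 2 = Real.sin (B09_th q x) ^ 2 - Real.sin (B09_th q (x / q)) ^ 2 := by
  unfold B09_be
  have hq0 : 0 < q := by linarith
  rcases le_total x q with h | h
  · have h1 : B09_th q (x / q) = 0 := B09_th_lo hq ((div_le_one hq0).2 h)
    rw [h1]; simp
  · have h1 : B09_th q x = Real.pi / 2 := B09_th_hi hq h
    rw [h1, Real.sin_pi_div_two, one_mul, one_pow]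
    have := Real.sin_sq_add_cos_sq (B09_th q (x / q))
    linarith

theorem B09_sum {q : ℝ} (hq : 1 < q) (y : ℝ) (L : ℕ) :
    ∑ l ∈ Finset.range L, B09_be q (y / q ^ l) ^ 2 =
      Real.sin (B09_th q y) ^ 2 - Real.sin (B09_th q (y / q ^ L)) ^ 2 := by
  induction L with
  | zero => simp
  | succ L ih =>
    rw [Finset.sum_range_succ, ih, B09_be_sq hq, pow_succ, div_div]
    ring

/-- TARGET -/
theorem exists_beta (n : ℕ) (hn : 1 ≤ n) : ∃ (β : ℝ → ℝ) (a b A : ℝ), Bump β a b ∧ 0 < A ∧
    ∀ k : ℕ, 1 ≤ k → HasSum (fun l : ℕ => β ((k : ℝ) / (A * sc n l)) ^ 2) 1 := by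
  have hn0 : (0:ℝ) < n := by exact_mod_cast hn
  set q : ℝ := (2:ℝ) ^ ((1:ℝ) / n) with hqdef
  have hq : 1 < q := Real.one_lt_rpow (by norm_num) (by positivity)
  have hq0 : 0 < q := by linarith
  have hsc : ∀ l : ℕ, sc n l = q ^ l := by
    intro l
    unfold sc
    rw [hqdef, ← Real.rpow_natCast, ← Real.rpow_mul (by norm_num)]
    congr 1
    ring
  refine ⟨B09_be q, 1, q ^ 2, 1 / q, ⟨one_pos, ?_, ?_, ?_, ?_⟩, by positivity, ?_⟩
  · nlinarith
  · unfold B09_be
    apply ContDiff.mul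
    · exact Real.contDiff_sin.comp (B09_th_smooth q)
    · exact Real.contDiff_cos.comp ((B09_th_smooth q).comp (contDiff_id.div_const _))
  · intro x hx
    unfold B09_be
    rw [B09_th_lo hq hx]; simp
  · intro x hx
    unfold B09_be
    rw [B09_th_hi hq (x := x / q) (by rw [le_div_iff₀ hq0]; nlinarith)]; simp
  · intro k hk
    have hk1 : (1:ℝ) ≤ k := by exact_mod_cast hk
    set y : ℝ := (k:ℝ) * q with hy
    have hyq : q ≤ y := by rw [hy]; nlinarith
    have hterm : ∀ l : ℕ, (k : ℝ) / (1 / q * sc n l) = y / q ^ l := by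
      intro l
      rw [hsc, hy]
      field_simp
    simp only [hterm]
    obtain ⟨L, hL⟩ := pow_unbounded_of_one_lt y hq
    have hzero : ∀ l, L ≤ l → y / q ^ l ≤ 1 := by
      intro l hl
      rw [div_le_one (by positivity)]
      exact hL.le.trans (pow_le_pow_right₀ hq.le hl)
    have h1 : HasSum (fun l : ℕ => B09_be q (y / q ^ l) ^ 2)
        (∑ l ∈ Finset.range L, B09_be q (y / q ^ l) ^ 2) := by
      apply hasSum_sum_of_ne_finset_zero
      intro l hl
      rw [Finset.mem_range, not_lt] at hl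
      unfold B09_be
      rw [B09_th_lo hq (hzero l hl)]; simp
    rw [B09_sum hq, B09_th_hi hq hyq, B09_th_lo hq (hzero L le_rfl)] at h1
    simpa using h1

end Pool.Agent.HpBall2
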