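import Mathlib
import Pool.Agent.HpBall2.Defs
import Pool.Agent.HpBall.Geom
import Pool.Agent.HpBall.Sphere

set_option autoImplicit false

open MeasureTheory Complex
open scoped ENNReal NNReal

namespace Pool.Agent.HpBall2

open Pool.Agent.HpBall

/-- TARGET -/
theorem exists_cells (n : ℕ) (hn : 1 ≤ n) (V : ℕ) (pt : ℕ → ℕ → ℕ → E n) (C : ℝ)
    (hcov : ∀ (l : ℕ) (ζ : E n), ‖ζ‖ = 1 → ∃ ν < V, ∃ i < 2 ^ l, sc n l * rho ζ (pt ν l i) ≤ C) :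
    ∃ R : ℕ → ℕ → ℕ → Set (E n), (∀ l ν j, MeasurableSet (R l ν j)) ∧
      (∀ l ν j, ν < V → j < 2 ^ l → ∀ ζ ∈ R l ν j, ‖ζ‖ = 1 ∧ sc n l * rho ζ (pt ν l j) ≤ C) ∧
      (∀ l ν j ν' j', ν < V → ν' < V → j < 2 ^ l → j' < 2 ^ l → (ν, j) ≠ (ν', j') →
        Disjoint (R l ν j) (R l ν' j')) ∧
      (∀ l (ζ : E n), ‖ζ‖ = 1 → ∃ ν < V, ∃ j < 2 ^ l, ζ ∈ R l ν j) := by
  classical
  let S : ℕ → ℕ → ℕ → Set (E n) := fun l ν j => {ζ | ‖ζ‖ = 1 ∧ sc n l * rho ζ (pt ν l j) ≤ C}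
  have hS : ∀ l ν j, MeasurableSet (S l ν j) := by
    intro l ν j
    have h1 : Continuous (fun ζ : E n => ‖ζ‖) := continuous_norm
    have h2 : Continuous (fun ζ : E n => sc n l * rho ζ (pt ν l j)) := by
      unfold rho
      fun_prop
    exact (measurableSet_eq_fun h1.measurable measurable_const).inter
      (measurableSet_le h2.measurable measurable_const)
  let U : ℕ → ℕ → Set (E n) := fun l q =>
    ⋃ ν' : ℕ, ⋃ j' : ℕ, {ζ | (ν' < V ∧ j' < 2 ^ l ∧ ν' * 2 ^ l + j' < q) ∧ ζ ∈ S l ν' j'}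
  have hU : ∀ l q, MeasurableSet (U l q) := by
    intro l q
    refine MeasurableSet.iUnion fun ν' => MeasurableSet.iUnion fun j' => ?_
    exact (MeasurableSet.const _).inter (hS l ν' j')
  have hmemU : ∀ l q ζ, ζ ∈ U l q ↔ ∃ ν' j', (ν' < V ∧ j' < 2 ^ l ∧ ν' * 2 ^ l + j' < q) ∧
      ζ ∈ S l ν' j' := by
    intro l q ζ
    simp only [U, Set.mem_iUnion]
    rfl
  refine ⟨fun l ν j => S l ν j \ U l (ν * 2 ^ l + j), fun l ν j => (hS l ν j).diff (hU l _), ?_, ?_, ?_⟩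
  · intro l ν j _ _ ζ hζ
    exact hζ.1
  · have key : ∀ l ν j ν' j', ν < V → j < 2 ^ l → ν * 2 ^ l + j < ν' * 2 ^ l + j' →
        Disjoint (S l ν j \ U l (ν * 2 ^ l + j)) (S l ν' j' \ U l (ν' * 2 ^ l + j')) := by
      intro l ν j ν' j' hν hj hlt
      rw [Set.disjoint_left]
      intro ζ h1 h2
      exact h2.2 ((hmemU _ _ _).2 ⟨ν, j, ⟨hν, hj, hlt⟩, h1.1⟩)
    intro l ν j ν' j' hν hν' hj hj' hne
    rcases lt_trichotomy (ν * 2 ^ l + j) (ν' * 2 ^ l + j') with h | h | h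
    · exact key l ν j ν' j' hν hj h
    · exfalso
      apply hne
      have hp : 0 < 2 ^ l := by positivity
      have h1 : (ν * 2 ^ l + j) / 2 ^ l = ν := by
        rw [add_comm, Nat.add_mul_div_right _ _ hp, Nat.div_eq_of_lt hj, zero_add]
      have h2 : (ν' * 2 ^ l + j') / 2 ^ l = ν' := by
        rw [add_comm, Nat.add_mul_div_right _ _ hp, Nat.div_eq_of_lt hj', zero_add]
      have h3 : ν = ν' := by rw [← h1, ← h2, h]
      subst h3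
      have h4 : j = j' := by omega
      rw [h4]
    · exact (key l ν' j' ν j hν' hj' h).symm
  · intro l ζ hζ
    obtain ⟨ν, hν, j, hj, hc⟩ := hcov l ζ hζ
    have hex : ∃ q, ∃ ν < V, ∃ j < 2 ^ l, q = ν * 2 ^ l + j ∧ ζ ∈ S l ν j :=
      ⟨_, ν, hν, j, hj, rfl, hζ, hc⟩
    obtain ⟨ν₀, hν₀, j₀, hj₀, hq, hS₀⟩ := Nat.find_spec hex
    refine ⟨ν₀, hν₀, j₀, hj₀, hS₀, ?_⟩
    intro hu
    obtain ⟨ν', j', ⟨a1, a2, a3⟩, a4⟩ := (hmemU _ _ _).1 hu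
    rw [← hq] at a3
    exact Nat.find_min hex a3 ⟨ν', a1, j', a2, rfl, a4⟩

end Pool.Agent.HpBall2
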