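import Mathlib
import Pool.Agent.HpBall2.Defs
import Pool.Agent.HpBall.Geom
import Pool.Agent.HpBall.Sphere
import Pool.Agent.HpBall.Tree

set_option autoImplicit false

open MeasureTheory Complex
open scoped ENNReal NNReal

namespace Pool.Agent.HpBall2

open Pool.Agent.HpBall

section B07
open ComplexConjugate

variable {d : ℕ}

/-- boundedness of lattice points -/
def B07_Bd (M K : ℤ) (k : ℕ) (P : Lat d) : Prop :=
  (∀ i, |P.1 i| + 1 ≤ M * 2 ^ k) ∧ (∀ i, |P.2.1 i| + 1 ≤ M * 2 ^ k) ∧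
    |P.2.2| ≤ K * 4 ^ k - 4 * d * M * 2 ^ k - 1

lemma B07_S_bound {R : ℤ} {A B : Fin d → ℤ} (hA : ∀ i, |A i| ≤ R) (hB : ∀ i, |B i| ≤ R) (t : ℕ) :
    |∑ i : Fin d, (B i * dg t (2 * i) - A i * dg t (2 * i + 1))| ≤ 2 * d * R := by
  calc |∑ i : Fin d, (B i * dg t (2 * i) - A i * dg t (2 * i + 1))|
      ≤ ∑ i : Fin d, |(B i * dg t (2 * i) - A i * dg t (2 * i + 1))| :=
        Finset.abs_sum_le_sum_abs _ _
    _ ≤ ∑ i : Fin d, (2 * R) := by
        apply Finset.sum_le_sum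
        intro i _
        have a1 := dg_nonneg t (2 * i)
        have a2 := dg_le t (2 * i)
        have a3 := dg_nonneg t (2 * i + 1)
        have a4 := dg_le t (2 * i + 1)
        have b1 := hA i
        have b2 := hB i
        have c1 : |B i * dg t (2 * i)| ≤ |B i| := by
          rw [abs_mul, abs_of_nonneg a1]
          nlinarith [abs_nonneg (B i)]
        have c2 : |A i * dg t (2 * i + 1)| ≤ |A i| := by
          rw [abs_mul, abs_of_nonneg a3]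
          nlinarith [abs_nonneg (A i)]
        have c3 := abs_sub (B i * dg t (2 * i)) (A i * dg t (2 * i + 1))
        linarith
    _ = 2 * d * R := by simp; ring

lemma B07_f_lt {t : ℕ} (ht : t < 2 ^ (2 * (d + 1))) : t / 2 ^ (2 * d) < 4 := by
  rw [Nat.div_lt_iff_lt_mul (by positivity)]
  calc t < 2 ^ (2 * (d + 1)) := ht
    _ = 4 * 2 ^ (2 * d) := by rw [mul_add, pow_add]; ring

lemma B07_Bd_chd {M K : ℤ} {k : ℕ} {P : Lat d} (h : B07_Bd M K k P) {t : ℕ}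
    (ht : t < 2 ^ (2 * (d + 1))) : B07_Bd M K (k + 1) (chd P t) := by
  obtain ⟨A, B, T⟩ := P
  obtain ⟨h1, h2, h3⟩ := h
  simp only at h1 h2 h3
  refine ⟨fun i => ?_, fun i => ?_, ?_⟩
  · simp only [chd]
    have a0 := h1 i
    have a1 := dg_nonneg t (2 * i)
    have a2 := dg_le t (2 * i)
    have a3 : |2 * A i + dg t (2 * i)| ≤ 2 * |A i| + 1 := by
      refine (abs_add_le _ _).trans ?_
      rw [abs_mul, abs_of_nonneg a1, abs_two]
      linarith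
    rw [pow_succ]
    linarith
  · simp only [chd]
    have a0 := h2 i
    have a1 := dg_nonneg t (2 * i + 1)
    have a2 := dg_le t (2 * i + 1)
    have a3 : |2 * B i + dg t (2 * i + 1)| ≤ 2 * |B i| + 1 := by
      refine (abs_add_le _ _).trans ?_
      rw [abs_mul, abs_of_nonneg a1, abs_two]
      linarith
    rw [pow_succ]
    linarith
  · simp only [chd]
    have hlt := B07_f_lt ht
    have hf0 : (0 : ℤ) ≤ ((t / 2 ^ (2 * d) : ℕ) : ℤ) := Int.natCast_nonneg _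
    have hf1 : ((t / 2 ^ (2 * d) : ℕ) : ℤ) ≤ 3 := by exact_mod_cast Nat.lt_succ_iff.1 hlt
    have hS := B07_S_bound (R := M * 2 ^ k) (A := A) (B := B) (fun i => by linarith [h1 i])
      (fun i => by linarith [h2 i]) t
    generalize ∑ i : Fin d, (B i * dg t (2 * i) - A i * dg t (2 * i + 1)) = S at hS
    generalize ((t / 2 ^ (2 * d) : ℕ) : ℤ) = f at hf0 hf1
    rw [pow_succ, pow_succ]
    rw [abs_le] at h3 hS ⊢
    constructor <;> nlinarith [h3.1, h3.2, hS.1, hS.2]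

lemma B07_one_add_tS_le {M K : ℤ} {k : ℕ} {P : Lat d} (h : B07_Bd M K k P) (hM : 0 ≤ M) :
    ‖1 + tS (fun i => (P.1 i : ℝ) / 2 ^ k) (fun i => (P.2.1 i : ℝ) / 2 ^ k)
      ((P.2.2 : ℝ) / 4 / 4 ^ k)‖ ≤ 1 + d * M ^ 2 / 2 + K / 4 := by
  obtain ⟨h1, h2, h3⟩ := h
  refine (norm_add_le _ _).trans ?_
  rw [norm_one]
  have h4 := Complex.norm_le_abs_re_add_abs_im (tS (fun i => (P.1 i : ℝ) / 2 ^ k)
    (fun i => (P.2.1 i : ℝ) / 2 ^ k) ((P.2.2 : ℝ) / 4 / 4 ^ k))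
  have h2k : (0 : ℝ) < 2 ^ k := by positivity
  have h4k : (0 : ℝ) < 4 ^ k := by positivity
  have hM' : (0 : ℝ) ≤ M := by exact_mod_cast hM
  have hsq : ∀ a : ℤ, |a| + 1 ≤ M * 2 ^ k → ((a : ℝ) / 2 ^ k) ^ 2 ≤ (M : ℝ) ^ 2 := by
    intro a ha
    have ha' : (|(a : ℝ)| : ℝ) + 1 ≤ M * 2 ^ k := by exact_mod_cast ha
    have h5 : |(a : ℝ) / 2 ^ k| ≤ M := by
      rw [abs_div, abs_of_pos h2k, div_le_iff₀ h2k]
      linarith
    rw [← sq_abs]
    exact pow_le_pow_left₀ (abs_nonneg _) h5 2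
  have hre : |(tS (fun i => (P.1 i : ℝ) / 2 ^ k)
    (fun i => (P.2.1 i : ℝ) / 2 ^ k) ((P.2.2 : ℝ) / 4 / 4 ^ k)).re| ≤ d * M ^ 2 / 2 := by
    rw [abs_of_nonneg (tS_re_nonneg _ _ _)]
    simp only [tS]
    have : ∑ i : Fin d, (((P.1 i : ℝ) / 2 ^ k) ^ 2 + ((P.2.1 i : ℝ) / 2 ^ k) ^ 2) ≤
        ∑ i : Fin d, (2 * (M : ℝ) ^ 2) := by
      apply Finset.sum_le_sum
      intro i _
      have := hsq _ (h1 i)
      have := hsq _ (h2 i)
      linarith
    simp only [Finset.sum_const, Finset.card_univ, Fintype.card_fin, nsmul_eq_mul] at this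
    linarith
  have him : |(tS (fun i => (P.1 i : ℝ) / 2 ^ k)
    (fun i => (P.2.1 i : ℝ) / 2 ^ k) ((P.2.2 : ℝ) / 4 / 4 ^ k)).im| ≤ (K : ℝ) / 4 := by
    simp only [tS]
    rw [abs_div, abs_div, abs_of_pos h4k, abs_of_pos (by norm_num : (0:ℝ) < 4), div_le_iff₀ h4k]
    have h5 : (|P.2.2| : ℝ) ≤ K * 4 ^ k - 4 * d * M * 2 ^ k - 1 := by exact_mod_cast h3
    have h6 : (0 : ℝ) ≤ 4 * d * M * 2 ^ k := by positivity
    linarith
  linarith

lemma B07_rho_lower {M K : ℤ} {k : ℕ} {P P' : Lat d} (hM : 0 ≤ M) (h : B07_Bd M K k P)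
    (h' : B07_Bd M K k P') (hne : P ≠ P') {W : ℝ} (hW : 1 + d * M ^ 2 / 2 + K / 4 ≤ W) :
    (1 / 4) ^ k * (1 / 2) / (W ^ 2 : ℝ) ≤ rho (tP k P) (tP k P') := by
  have h1 := (B07_one_add_tS_le h hM).trans hW
  have h2 := (B07_one_add_tS_le h' hM).trans hW
  obtain ⟨A, B, T⟩ := P
  obtain ⟨A', B', T'⟩ := P'
  have h3 := tP_Q_lower (k := k) hne
  rw [tP, tP, rho_tZ]
  have h4 := one_add_tS_norm (fun i => (A i : ℝ) / 2 ^ k) (fun i => (B i : ℝ) / 2 ^ k)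
      ((T : ℝ) / 4 / 4 ^ k)
  have h5 := one_add_tS_norm (fun i => (A' i : ℝ) / 2 ^ k) (fun i => (B' i : ℝ) / 2 ^ k)
      ((T' : ℝ) / 4 / 4 ^ k)
  apply div_le_div₀ (norm_nonneg _) h3
  · positivity
  · rw [sq]
    exact mul_le_mul h1 h2 (norm_nonneg _) (by linarith [norm_nonneg (1 + tS (fun i => (A i : ℝ) / 2 ^ k)
      (fun i => (B i : ℝ) / 2 ^ k) ((T : ℝ) / 4 / 4 ^ k))])

/-- the tree of lattice points with a given root -/
def B07_H (P0 : Lat d) : ℕ → ℕ → Lat d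
  | 0, _ => P0
  | k + 1, i => chd (B07_H P0 k (i / 2 ^ (2 * (d + 1)))) (i % 2 ^ (2 * (d + 1)))

lemma B07_H_Bd {M K : ℤ} {P0 : Lat d} (h0 : B07_Bd M K 0 P0) (k i : ℕ) :
    B07_Bd M K k (B07_H P0 k i) := by
  induction k generalizing i with
  | zero => exact h0
  | succ k ih => exact B07_Bd_chd (ih _) (Nat.mod_lt _ (by positivity))

lemma B07_H_inj (P0 : Lat d) (k : ℕ) {i j : ℕ} (hi : i < 2 ^ (2 * (d + 1) * k))
    (hj : j < 2 ^ (2 * (d + 1) * k)) (h : B07_H P0 k i = B07_H P0 k j) : i = j := by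
  induction k generalizing i j with
  | zero => simp at hi hj; omega
  | succ k ih =>
    obtain ⟨h1, h2⟩ := chd_inj (Nat.mod_lt _ (by positivity)) (Nat.mod_lt _ (by positivity)) h
    have e : 2 ^ (2 * (d + 1) * (k + 1)) = 2 ^ (2 * (d + 1) * k) * 2 ^ (2 * (d + 1)) := by
      rw [← pow_add]; congr 1
    have h3 := ih (by rw [Nat.div_lt_iff_lt_mul (by positivity)]; rwa [e] at hi)
      (by rw [Nat.div_lt_iff_lt_mul (by positivity)]; rwa [e] at hj) h1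
    rw [← Nat.div_add_mod i (2 ^ (2 * (d + 1))), ← Nat.div_add_mod j (2 ^ (2 * (d + 1))), h2, h3]

lemma B07_H_desc (P0 : Lat d) (k m i : ℕ) :
    Real.sqrt (rho (tP (k + m) (B07_H P0 (k + m) i))
      (tP k (B07_H P0 k (i / 2 ^ (2 * (d + 1) * m))))) ≤
      2 * Real.sqrt ((d + 2) / 4) * ((1 / 2) ^ k - (1 / 2) ^ (k + m)) := by
  induction m generalizing i with
  | zero =>
    have : rho (tP k (B07_H P0 k i)) (tP k (B07_H P0 k i)) = 0 := by
      rw [rho, inner_self_eq_norm_sq_to_K, norm_tP]; simp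
    simp [this]
  | succ m ih =>
    have h1 := ih (i / 2 ^ (2 * (d + 1)))
    have e : 2 ^ (2 * (d + 1) * (m + 1)) = 2 ^ (2 * (d + 1)) * 2 ^ (2 * (d + 1) * m) := by
      rw [← pow_add]; congr 1; ring
    rw [Nat.div_div_eq_div_mul, ← e] at h1
    have h2 : rho (tP (k + (m + 1)) (B07_H P0 (k + (m + 1)) i))
        (tP (k + m) (B07_H P0 (k + m) (i / 2 ^ (2 * (d + 1))))) ≤ (1 / 4) ^ (k + m) * ((d + 2) / 4) :=
      rho_tP_child (Nat.mod_lt _ (by positivity))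
    have h3 := sqrt_rho_triangle (norm_tP (k + (m + 1)) (B07_H P0 (k + (m + 1)) i)).le
      (norm_tP (k + m) (B07_H P0 (k + m) (i / 2 ^ (2 * (d + 1)))))
      (norm_tP k (B07_H P0 k (i / 2 ^ (2 * (d + 1) * (m + 1))))).le
    have h4 : Real.sqrt (rho (tP (k + (m + 1)) (B07_H P0 (k + (m + 1)) i))
        (tP (k + m) (B07_H P0 (k + m) (i / 2 ^ (2 * (d + 1)))))) ≤
        (1 / 2) ^ (k + m) * Real.sqrt ((d + 2) / 4) := by
      refine (Real.sqrt_le_sqrt h2).trans ?_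
      rw [Real.sqrt_mul (by positivity)]
      have : (1 / 4 : ℝ) ^ (k + m) = ((1 / 2) ^ (k + m)) ^ 2 := by
        rw [← pow_mul, mul_comm (k + m) 2, pow_mul]; norm_num
      rw [this, Real.sqrt_sq (by positivity)]
    have e2 : (1 / 2 : ℝ) ^ (k + (m + 1)) = (1 / 2) ^ (k + m) * (1 / 2) := by
      rw [← add_assoc, pow_succ]
    rw [e2]
    nlinarith

/-- the family of points of a tree with a given root -/
noncomputable def B07_pt (P0 : Lat d) (l i : ℕ) : E (d + 1) :=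
  tP (l / (2 * (d + 1)) + 1) (B07_H P0 (l / (2 * (d + 1)) + 1)
    (i * 2 ^ (2 * (d + 1) - l % (2 * (d + 1)))))

lemma B07_sc_lo (l : ℕ) : (4 : ℝ) ^ (l / (2 * (d + 1))) ≤ sc (d + 1) l := by
  have hd1 : (0 : ℝ) < (d + 1 : ℕ) := by positivity
  have h1 : (2 : ℝ) * ((l / (2 * (d + 1)) : ℕ) : ℝ) ≤ (l : ℝ) / ((d + 1 : ℕ) : ℝ) := by
    rw [le_div_iff₀ hd1]
    have := Nat.div_mul_le_self l (2 * (d + 1))
    have h2 : (((l / (2 * (d + 1)) : ℕ) : ℝ)) * (2 * (d + 1 : ℕ)) ≤ l := by exact_mod_cast this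
    linarith
  calc (4 : ℝ) ^ (l / (2 * (d + 1))) = (2 : ℝ) ^ ((2 : ℝ) * ((l / (2 * (d + 1)) : ℕ) : ℝ)) := by
        rw [Real.rpow_mul (by norm_num), Real.rpow_natCast]
        norm_num
    _ ≤ _ := Real.rpow_le_rpow_of_exponent_le (by norm_num) h1

lemma B07_sc_hi (l : ℕ) : sc (d + 1) l ≤ 4 * (4 : ℝ) ^ (l / (2 * (d + 1))) := by
  have hd1 : (0 : ℝ) < (d + 1 : ℕ) := by positivity
  have h1 : (l : ℝ) / ((d + 1 : ℕ) : ℝ) ≤ (2 : ℝ) * (((l / (2 * (d + 1)) : ℕ) : ℝ) + 1) := by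
    rw [div_le_iff₀ hd1]
    have := (Nat.lt_mul_div_succ l (show 0 < 2 * (d + 1) by omega)).le
    have h2 : (l : ℝ) ≤ (2 * (d + 1 : ℕ)) * ((((l / (2 * (d + 1)) : ℕ) : ℝ)) + 1) := by
      exact_mod_cast this
    linarith
  calc sc (d + 1) l ≤ (2 : ℝ) ^ ((2 : ℝ) * (((l / (2 * (d + 1)) : ℕ) : ℝ) + 1)) :=
        Real.rpow_le_rpow_of_exponent_le (by norm_num) h1
    _ = _ := by
        rw [Real.rpow_mul (by norm_num)]
        have : (((l / (2 * (d + 1)) : ℕ) : ℝ) + 1) = ((l / (2 * (d + 1)) + 1 : ℕ) : ℝ) := by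
          push_cast; ring
        rw [this, Real.rpow_natCast, pow_succ]
        norm_num
        ring

lemma B07_tree {M K : ℤ} {P0 : Lat d} (hM : 0 ≤ M) (h0 : B07_Bd M K 0 P0) {W : ℝ}
    (hW0 : 0 < W) (hW : 1 + d * M ^ 2 / 2 + K / 4 ≤ W) :
    TreeFam (d + 1) (B07_pt P0) (1 / (8 * W ^ 2)) (16 * (d + 2)) := by
  have hN : 0 < 2 * (d + 1) := by omega
  constructor
  · intro l i
    exact norm_tP _ _
  · positivity
  · intro l i j hi hj hij
    unfold B07_pt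
    set k := l / (2 * (d + 1)) with hk
    set r := l % (2 * (d + 1)) with hr
    have hlr : 2 * (d + 1) * k + r = l := Nat.div_add_mod _ _
    have hrN : r < 2 * (d + 1) := Nat.mod_lt _ hN
    have hpow : 2 ^ (2 * (d + 1) * (k + 1)) = 2 ^ l * 2 ^ (2 * (d + 1) - r) := by
      rw [← pow_add]; congr 1; rw [mul_add, mul_one]; omega
    have hne : B07_H P0 (k + 1) (i * 2 ^ (2 * (d + 1) - r)) ≠
        B07_H P0 (k + 1) (j * 2 ^ (2 * (d + 1) - r)) := by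
      intro h
      have := B07_H_inj P0 (k + 1)
        (by rw [hpow]; exact (Nat.mul_lt_mul_right (by positivity)).2 hi)
        (by rw [hpow]; exact (Nat.mul_lt_mul_right (by positivity)).2 hj) h
      exact hij (Nat.eq_of_mul_eq_mul_right (by positivity) this)
    have h1 := B07_rho_lower hM (B07_H_Bd h0 _ _) (B07_H_Bd h0 _ _) hne hW
    have h2 := B07_sc_lo (d := d) l
    rw [← hk] at h2
    calc (1 : ℝ) / (8 * W ^ 2) = 4 ^ k * ((1 / 4) ^ (k + 1) * (1 / 2) / (W ^ 2)) := by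
          have e' : (4 : ℝ) ^ k * (1 / 4) ^ k = 1 := by rw [← mul_pow]; norm_num
          calc (1 : ℝ) / (8 * W ^ 2) = (1 : ℝ) * (1 / 8) / W ^ 2 := by
                field_simp
            _ = ((4 : ℝ) ^ k * (1 / 4) ^ k) * (1 / 8) / W ^ 2 := by rw [e']
            _ = _ := by rw [pow_succ (1 / 4 : ℝ) k]; ring
      _ ≤ sc (d + 1) l * rho _ _ := mul_le_mul h2 h1 (by positivity) (le_trans (by positivity) h2)
  · intro l m j hlm hj
    unfold B07_pt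
    set k := l / (2 * (d + 1)) with hk
    set r := l % (2 * (d + 1)) with hr
    have hlr : 2 * (d + 1) * k + r = l := Nat.div_add_mod _ _
    have hrN : r < 2 * (d + 1) := Nat.mod_lt _ hN
    set k' := m / (2 * (d + 1)) with hk'
    set r' := m % (2 * (d + 1)) with hr'
    have hlr' : 2 * (d + 1) * k' + r' = m := Nat.div_add_mod _ _
    have hrN' : r' < 2 * (d + 1) := Nat.mod_lt _ hN
    have hkk : k ≤ k' := Nat.div_le_div_right hlm
    have h1 := B07_H_desc P0 k (k' + 1 - k) (j * 2 ^ (2 * (d + 1) - r'))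
    have h2 := B07_H_desc P0 k 1 (j / 2 ^ (m - l) * 2 ^ (2 * (d + 1) - r))
    have e0 : k + (k' + 1 - k) = k' + 1 := by omega
    rw [e0] at h1
    have e1 : j * 2 ^ (2 * (d + 1) - r') / 2 ^ (2 * (d + 1) * (k' + 1 - k)) =
        j / 2 ^ (m - 2 * (d + 1) * k) := by
      obtain ⟨u, hu⟩ : ∃ u, k' = k + u := ⟨k' - k, by omega⟩
      have : 2 * (d + 1) * (k' + 1 - k) = (2 * (d + 1) - r') + (m - 2 * (d + 1) * k) := by
        have a1 : k' + 1 - k = u + 1 := by omega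
        have a2 : 2 * (d + 1) * k' = 2 * (d + 1) * k + 2 * (d + 1) * u := by rw [hu, mul_add]
        have a3 : 2 * (d + 1) * (u + 1) = 2 * (d + 1) * u + 2 * (d + 1) := by rw [mul_add, mul_one]
        rw [a1, a3]
        rw [a2] at hlr'
        generalize 2 * (d + 1) * u = U at *
        generalize 2 * (d + 1) * k = K at *
        omega
      rw [this, pow_add, mul_comm j, Nat.mul_div_mul_left _ _ (by positivity)]
    have e2 : j / 2 ^ (m - l) * 2 ^ (2 * (d + 1) - r) / 2 ^ (2 * (d + 1) * 1) =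
        j / 2 ^ (m - 2 * (d + 1) * k) := by
      have : 2 * (d + 1) * 1 = (2 * (d + 1) - r) + r := by omega
      rw [this, pow_add, mul_comm (j / 2 ^ (m - l)), Nat.mul_div_mul_left _ _ (by positivity),
        Nat.div_div_eq_div_mul, ← pow_add]
      congr 2
      omega
    rw [e1] at h1
    rw [e2] at h2
    have h3 := sqrt_rho_triangle
      (norm_tP (k' + 1) (B07_H P0 (k' + 1) (j * 2 ^ (2 * (d + 1) - r')))).le
      (norm_tP k (B07_H P0 k (j / 2 ^ (m - 2 * (d + 1) * k))))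
      (norm_tP (k + 1) (B07_H P0 (k + 1) (j / 2 ^ (m - l) * 2 ^ (2 * (d + 1) - r)))).le
    rw [rho_comm (tP k (B07_H P0 k (j / 2 ^ (m - 2 * (d + 1) * k))))] at h3
    set g := Real.sqrt (((d : ℝ) + 2) / 4) with hg
    have hg0 : 0 ≤ g := Real.sqrt_nonneg _
    have hg2 : g ^ 2 = (d + 2) / 4 := Real.sq_sqrt (by positivity)
    set ρ := rho (tP (k' + 1) (B07_H P0 (k' + 1) (j * 2 ^ (2 * (d + 1) - r'))))
      (tP (k + 1) (B07_H P0 (k + 1) (j / 2 ^ (m - l) * 2 ^ (2 * (d + 1) - r)))) with hρ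
    have hρ0 : 0 ≤ ρ := rho_nonneg _ _
    have h4 : Real.sqrt ρ ≤ 4 * g * (1 / 2) ^ k := by
      have p1 : (0 : ℝ) ≤ g * (1 / 2) ^ (k' + 1) := by positivity
      have p2 : (0 : ℝ) ≤ g * (1 / 2) ^ (k + 1) := by positivity
      nlinarith
    have h5 : ρ ≤ (4 * g * (1 / 2) ^ k) ^ 2 := by
      rw [← Real.sq_sqrt hρ0]
      exact pow_le_pow_left₀ (Real.sqrt_nonneg _) h4 2
    have h6 : (4 * g * (1 / 2) ^ k) ^ 2 = 4 * (d + 2) * (1 / 4) ^ k := by
      have : (1 / 4 : ℝ) ^ k = ((1 / 2) ^ k) ^ 2 := by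
        rw [← pow_mul, mul_comm k 2, pow_mul]; norm_num
      rw [this]
      calc (4 * g * (1 / 2) ^ k) ^ 2 = 16 * g ^ 2 * ((1 / 2) ^ k) ^ 2 := by ring
        _ = _ := by rw [hg2]; ring
    rw [h6] at h5
    have h7 := B07_sc_hi (d := d) l
    rw [← hk] at h7
    calc sc (d + 1) l * ρ ≤ (4 * 4 ^ k) * (4 * (d + 2) * (1 / 4) ^ k) :=
          mul_le_mul h7 h5 hρ0 (by positivity)
      _ = 16 * (d + 2) * ((4 : ℝ) ^ k * (1 / 4) ^ k) := by ring
      _ = 16 * (d + 2) := by rw [← mul_pow]; norm_num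

lemma B07_bits (m : ℕ) (c : ℕ → Bool) : ∃ u < 2 ^ m, ∀ j < m, u.testBit j = c j := by
  induction m with
  | zero => exact ⟨0, by simp, by simp⟩
  | succ m ih =>
    obtain ⟨u, hu, h⟩ := ih
    by_cases hc : c m = true
    · refine ⟨2 ^ m * 1 + u, by rw [pow_succ]; omega, ?_⟩
      intro j hj
      rw [Nat.testBit_two_pow_mul_add _ hu]
      rcases Nat.lt_or_ge j m with hjm | hjm
      · rw [if_pos hjm]
        exact h j hjm
      · have : j = m := by omega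
        subst this
        simp [hc]
    · refine ⟨u, by rw [pow_succ]; omega, ?_⟩
      intro j hj
      rcases Nat.lt_or_ge j m with hjm | hjm
      · exact h j hjm
      · have : j = m := by omega
        subst this
        rw [Nat.testBit_eq_false_of_lt hu]
        simpa using hc

lemma B07_dg_eq (t j : ℕ) : dg t j = if t.testBit j then 1 else 0 := by
  unfold dg
  rw [Nat.testBit_eq_decide_div_mod_eq]
  have := Nat.mod_lt (t / 2 ^ j) (by norm_num : 2 > 0)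
  by_cases h : t / 2 ^ j % 2 = 1
  · simp [h]
  · have h0 : t / 2 ^ j % 2 = 0 := by omega
    simp [h0]

lemma B07_chd_surj (P' : Lat d) : ∃ (P : Lat d) (t : ℕ), t < 2 ^ (2 * (d + 1)) ∧ chd P t = P' := by
  obtain ⟨A', B', T'⟩ := P'
  obtain ⟨u, hu, hbits⟩ := B07_bits (2 * d) (fun j => if h : j / 2 < d then
    (if j % 2 = 0 then decide (A' ⟨j / 2, h⟩ % 2 = 1) else decide (B' ⟨j / 2, h⟩ % 2 = 1))
    else false)
  set S : ℤ := ∑ i : Fin d, ((B' i / 2) * (A' i % 2) - (A' i / 2) * (B' i % 2)) with hS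
  have hs0 : 0 ≤ (T' + 4 * S) % 4 := Int.emod_nonneg _ (by norm_num)
  have hs4 : (T' + 4 * S) % 4 < 4 := Int.emod_lt_of_pos _ (by norm_num)
  set s : ℕ := ((T' + 4 * S) % 4).toNat with hs
  have hs' : (s : ℤ) = (T' + 4 * S) % 4 := Int.toNat_of_nonneg hs0
  have hslt : s < 4 := by omega
  have hdg0 : ∀ i : Fin d, dg (2 ^ (2 * d) * s + u) (2 * i) = A' i % 2 := by
    intro i
    have hi := i.2
    have e0 : (2 ^ (2 * d) * s + u).testBit (2 * i) = u.testBit (2 * i) := by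
      rw [Nat.testBit_two_pow_mul_add _ hu, if_pos (by omega)]
    rw [B07_dg_eq, e0, hbits _ (by omega)]
    have e1 : 2 * (i : ℕ) / 2 = i := by omega
    have e2 : 2 * (i : ℕ) % 2 = 0 := by omega
    simp only [e1, e2, hi, dif_pos, if_true]
    rcases Int.emod_two_eq_zero_or_one (A' i) with h | h
    · simp [h]
    · simp [h]
  have hdg1 : ∀ i : Fin d, dg (2 ^ (2 * d) * s + u) (2 * i + 1) = B' i % 2 := by
    intro i
    have hi := i.2
    have e0 : (2 ^ (2 * d) * s + u).testBit (2 * i + 1) = u.testBit (2 * i + 1) := by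
      rw [Nat.testBit_two_pow_mul_add _ hu, if_pos (by omega)]
    rw [B07_dg_eq, e0, hbits _ (by omega)]
    have e1 : (2 * (i : ℕ) + 1) / 2 = i := by omega
    have e2 : (2 * (i : ℕ) + 1) % 2 = 1 := by omega
    simp only [e1, e2, hi, dif_pos]
    rcases Int.emod_two_eq_zero_or_one (B' i) with h | h
    · simp [h]
    · simp [h]
  have hdiv : (2 ^ (2 * d) * s + u) / 2 ^ (2 * d) = s := by
    rw [Nat.mul_add_div (by positivity), Nat.div_eq_of_lt hu, add_zero]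
  refine ⟨(fun i => A' i / 2, fun i => B' i / 2, (T' + 4 * S) / 4), 2 ^ (2 * d) * s + u, ?_, ?_⟩
  · have e : 2 ^ (2 * (d + 1)) = 4 * 2 ^ (2 * d) := by rw [mul_add, pow_add]; ring
    rw [e]
    nlinarith
  · simp only [chd, hdg0, hdg1, hdiv, Prod.mk.injEq]
    refine ⟨?_, ?_, ?_⟩
    · funext i
      omega
    · funext i
      omega
    · rw [← hS, hs']
      omega

/-- bounds preserved by taking the parent -/
def B07_Ds (α : ℤ) (k : ℕ) (P : Lat d) : Prop :=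
  (∀ i, -3 * 2 ^ k ≤ P.1 i ∧ P.1 i < 3 * 2 ^ k) ∧ (∀ i, -3 * 2 ^ k ≤ P.2.1 i ∧ P.2.1 i < 3 * 2 ^ k) ∧
    |P.2.2| ≤ α * 4 ^ k + 12 * d * 2 ^ k + 1

lemma B07_Ds_parent {α : ℤ} {k : ℕ} {P : Lat d} {t : ℕ} (ht : t < 2 ^ (2 * (d + 1)))
    (h : B07_Ds α (k + 1) (chd P t)) : B07_Ds α k P := by
  obtain ⟨A, B, T⟩ := P
  obtain ⟨h1, h2, h3⟩ := h
  simp only [chd] at h1 h2 h3
  have hA : ∀ i, -3 * 2 ^ k ≤ A i ∧ A i < 3 * 2 ^ k := by
    intro i
    have a0 := h1 i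
    have a1 := dg_nonneg t (2 * i)
    have a2 := dg_le t (2 * i)
    rw [pow_succ] at a0
    generalize (2 : ℤ) ^ k = q at a0 ⊢
    constructor <;> omega
  have hB : ∀ i, -3 * 2 ^ k ≤ B i ∧ B i < 3 * 2 ^ k := by
    intro i
    have a0 := h2 i
    have a1 := dg_nonneg t (2 * i + 1)
    have a2 := dg_le t (2 * i + 1)
    rw [pow_succ] at a0
    generalize (2 : ℤ) ^ k = q at a0 ⊢
    constructor <;> omega
  refine ⟨hA, hB, ?_⟩
  have hlt := B07_f_lt ht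
  have hf0 : (0 : ℤ) ≤ ((t / 2 ^ (2 * d) : ℕ) : ℤ) := Int.natCast_nonneg _
  have hf1 : ((t / 2 ^ (2 * d) : ℕ) : ℤ) ≤ 3 := by exact_mod_cast Nat.lt_succ_iff.1 hlt
  have hS := B07_S_bound (R := 3 * 2 ^ k) (A := A) (B := B)
    (fun i => by rw [abs_le]; constructor <;> linarith [(hA i).1, (hA i).2])
    (fun i => by rw [abs_le]; constructor <;> linarith [(hB i).1, (hB i).2]) t
  generalize ∑ i : Fin d, (B i * dg t (2 * i) - A i * dg t (2 * i + 1)) = S at hS h3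
  generalize ((t / 2 ^ (2 * d) : ℕ) : ℤ) = f at hf0 hf1 h3
  rw [pow_succ, pow_succ] at h3
  simp only
  rw [abs_le] at h3 hS ⊢
  constructor <;> nlinarith [h3.1, h3.2, hS.1, hS.2]

lemma B07_root {α : ℤ} {k : ℕ} {P : Lat d} (h : B07_Ds α k P) :
    ∃ P0 : Lat d, B07_Ds α 0 P0 ∧ ∃ j < 2 ^ (2 * (d + 1) * k), B07_H P0 k j = P := by
  induction k generalizing P with
  | zero => exact ⟨P, h, 0, by simp, rfl⟩
  | succ k ih =>
    obtain ⟨Q, t, ht, rfl⟩ := B07_chd_surj P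
    obtain ⟨P0, h0, j, hj, hjQ⟩ := ih (B07_Ds_parent ht h)
    refine ⟨P0, h0, j * 2 ^ (2 * (d + 1)) + t, ?_, ?_⟩
    · have e : 2 ^ (2 * (d + 1) * (k + 1)) = 2 ^ (2 * (d + 1) * k) * 2 ^ (2 * (d + 1)) := by
        rw [← pow_add]; congr 1
      rw [e]
      calc j * 2 ^ (2 * (d + 1)) + t < j * 2 ^ (2 * (d + 1)) + 2 ^ (2 * (d + 1)) := by omega
        _ = (j + 1) * 2 ^ (2 * (d + 1)) := by ring
        _ ≤ _ := Nat.mul_le_mul_right _ hj
    · have hN : 0 < 2 ^ (2 * (d + 1)) := by positivity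
      have e1 : (j * 2 ^ (2 * (d + 1)) + t) / 2 ^ (2 * (d + 1)) = j := by
        rw [mul_comm, Nat.mul_add_div hN, Nat.div_eq_of_lt ht, add_zero]
      have e2 : (j * 2 ^ (2 * (d + 1)) + t) % 2 ^ (2 * (d + 1)) = t := by
        rw [mul_comm, Nat.mul_add_mod, Nat.mod_eq_of_lt ht]
      rw [B07_H, e1, e2, hjQ]

lemma B07_approx (x y : Fin d → ℝ) (τ : ℝ) (hx : ∀ i, |x i| ≤ 2) (hy : ∀ i, |y i| ≤ 2)
    (hτ : |τ| ≤ 2) (k : ℕ) : ∃ P : Lat d, B07_Ds (8 + 24 * d) k P ∧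
      rho (tZ x y τ) (tP k P) ≤ (d + 1) * (1 / 4) ^ k := by
  have h2k : (0 : ℝ) < 2 ^ k := by positivity
  have h4k : (0 : ℝ) < 4 ^ k := by positivity
  have h24 : (4 : ℝ) ^ k = (2 ^ k) ^ 2 := by
    rw [← pow_mul, mul_comm k 2, pow_mul]; norm_num
  have h14 : (1 / 4 : ℝ) ^ k = 1 / 4 ^ k := by rw [one_div, inv_pow, one_div]
  have key : ∀ a : ℝ, |a| ≤ 2 → (-3 * 2 ^ k ≤ ⌊2 ^ k * a⌋ ∧ ⌊2 ^ k * a⌋ < 3 * 2 ^ k) ∧
      |a - (⌊2 ^ k * a⌋ : ℝ) / 2 ^ k| ≤ 1 / 2 ^ k ∧ |(⌊2 ^ k * a⌋ : ℝ) / 2 ^ k| ≤ 3 := by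
    intro a ha
    rw [abs_le] at ha
    have f1 := Int.floor_le (2 ^ k * a)
    have f2 := Int.lt_floor_add_one (2 ^ k * a)
    have hq : (1 : ℝ) ≤ 2 ^ k := one_le_pow₀ (by norm_num)
    have b1 : (2 : ℝ) ^ k * a ≤ 2 ^ k * 2 := by
      apply mul_le_mul_of_nonneg_left ha.2 h2k.le
    have b2 : (2 : ℝ) ^ k * (-2) ≤ 2 ^ k * a := by
      apply mul_le_mul_of_nonneg_left ha.1 h2k.le
    have b3 : -3 * (2 : ℝ) ^ k ≤ (⌊2 ^ k * a⌋ : ℝ) := by linarith
    have b4 : (⌊2 ^ k * a⌋ : ℝ) < 3 * (2 : ℝ) ^ k := by linarith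
    refine ⟨⟨by exact_mod_cast b3, by exact_mod_cast b4⟩, ?_, ?_⟩
    · have e : a - (⌊2 ^ k * a⌋ : ℝ) / 2 ^ k = (2 ^ k * a - ⌊2 ^ k * a⌋) / 2 ^ k := by
        field_simp
      rw [e, abs_div, abs_of_pos h2k]
      apply div_le_div_of_nonneg_right _ h2k.le
      rw [abs_le]
      constructor <;> linarith
    · rw [abs_div, abs_of_pos h2k, div_le_iff₀ h2k, abs_le]
      constructor <;> linarith
  set w : ℝ := ∑ i : Fin d, (x i * ((⌊2 ^ k * y i⌋ : ℝ) / 2 ^ k) -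
    y i * ((⌊2 ^ k * x i⌋ : ℝ) / 2 ^ k)) with hw
  have hwb : |w| ≤ 12 * d := by
    calc |w| ≤ ∑ i : Fin d, |(x i * ((⌊2 ^ k * y i⌋ : ℝ) / 2 ^ k) -
            y i * ((⌊2 ^ k * x i⌋ : ℝ) / 2 ^ k))| := Finset.abs_sum_le_sum_abs _ _
      _ ≤ ∑ i : Fin d, (12 : ℝ) := by
          apply Finset.sum_le_sum
          intro i _
          have c1 := (key (y i) (hy i)).2.2
          have c2 := (key (x i) (hx i)).2.2
          have c3 := hx i
          have c4 := hy i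
          have c5 : |x i * ((⌊2 ^ k * y i⌋ : ℝ) / 2 ^ k)| ≤ 6 := by
            rw [abs_mul]
            nlinarith [abs_nonneg (x i), abs_nonneg ((⌊2 ^ k * y i⌋ : ℝ) / 2 ^ k)]
          have c6 : |y i * ((⌊2 ^ k * x i⌋ : ℝ) / 2 ^ k)| ≤ 6 := by
            rw [abs_mul]
            nlinarith [abs_nonneg (y i), abs_nonneg ((⌊2 ^ k * x i⌋ : ℝ) / 2 ^ k)]
          have c7 := abs_sub (x i * ((⌊2 ^ k * y i⌋ : ℝ) / 2 ^ k))
            (y i * ((⌊2 ^ k * x i⌋ : ℝ) / 2 ^ k))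
          linarith
      _ = 12 * d := by simp; ring
  refine ⟨(fun i => ⌊2 ^ k * x i⌋, fun i => ⌊2 ^ k * y i⌋, ⌊4 * 4 ^ k * (τ + w / 2)⌋),
    ⟨fun i => (key _ (hx i)).1, fun i => (key _ (hy i)).1, ?_⟩, ?_⟩
  · show |⌊4 * 4 ^ k * (τ + w / 2)⌋| ≤ (8 + 24 * (d : ℤ)) * 4 ^ k + 12 * d * 2 ^ k + 1
    have f1 := Int.floor_le (4 * 4 ^ k * (τ + w / 2))
    have f2 := Int.lt_floor_add_one (4 * 4 ^ k * (τ + w / 2))
    have g1 : |4 * 4 ^ k * (τ + w / 2)| ≤ 4 * 4 ^ k * (2 + 6 * d) := by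
      rw [abs_mul, abs_of_pos (by positivity : (0 : ℝ) < 4 * 4 ^ k)]
      apply mul_le_mul_of_nonneg_left _ (by positivity)
      refine (abs_add_le _ _).trans ?_
      rw [abs_div, abs_two]
      linarith
    rw [abs_le] at g1
    have g2 : (0 : ℝ) ≤ 12 * d * 2 ^ k := by positivity
    have g3 : |(⌊4 * 4 ^ k * (τ + w / 2)⌋ : ℝ)| ≤ (8 + 24 * (d : ℝ)) * 4 ^ k + 12 * d * 2 ^ k + 1 := by
      rw [abs_le]
      constructor <;> nlinarith [g1.1, g1.2]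
    exact_mod_cast g3
  · refine (rho_tZ_le _ _ _ _ _ _).trans ((Complex.norm_le_abs_re_add_abs_im _).trans ?_)
    rw [tQ_re, tQ_im]
    have hre : |(∑ i : Fin d, ((x i - (⌊2 ^ k * x i⌋ : ℝ) / 2 ^ k) ^ 2 +
        (y i - (⌊2 ^ k * y i⌋ : ℝ) / 2 ^ k) ^ 2)) / 2| ≤ (d : ℝ) * (1 / 4 : ℝ) ^ k := by
      rw [abs_of_nonneg (by positivity)]
      have : ∑ i : Fin d, ((x i - (⌊2 ^ k * x i⌋ : ℝ) / 2 ^ k) ^ 2 +
          (y i - (⌊2 ^ k * y i⌋ : ℝ) / 2 ^ k) ^ 2) ≤ ∑ i : Fin d, (2 * (1 / 4 : ℝ) ^ k) := by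
        apply Finset.sum_le_sum
        intro i _
        have c1 := (key (x i) (hx i)).2.1
        have c2 := (key (y i) (hy i)).2.1
        have c3 : (x i - (⌊2 ^ k * x i⌋ : ℝ) / 2 ^ k) ^ 2 ≤ (1 / 2 ^ k) ^ 2 := by
          rw [← sq_abs]
          exact pow_le_pow_left₀ (abs_nonneg _) c1 2
        have c4 : (y i - (⌊2 ^ k * y i⌋ : ℝ) / 2 ^ k) ^ 2 ≤ (1 / 2 ^ k) ^ 2 := by
          rw [← sq_abs]
          exact pow_le_pow_left₀ (abs_nonneg _) c2 2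
        have c5 : (1 / 2 ^ k : ℝ) ^ 2 = (1 / 4) ^ k := by
          rw [h14, h24, div_pow, one_pow]
        rw [c5] at c3 c4
        linarith
      simp only [Finset.sum_const, Finset.card_univ, Fintype.card_fin, nsmul_eq_mul] at this
      linarith
    have him : |2 * ((⌊4 * 4 ^ k * (τ + w / 2)⌋ : ℝ) / 4 / 4 ^ k - τ) - w| ≤ (1 / 4) ^ k := by
      have f1 := Int.floor_le (4 * 4 ^ k * (τ + w / 2))
      have f2 := Int.lt_floor_add_one (4 * 4 ^ k * (τ + w / 2))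
      have e : 2 * ((⌊4 * 4 ^ k * (τ + w / 2)⌋ : ℝ) / 4 / 4 ^ k - τ) - w =
          (⌊4 * 4 ^ k * (τ + w / 2)⌋ - 4 * 4 ^ k * (τ + w / 2)) / (2 * 4 ^ k) := by
        field_simp
        ring
      rw [e, abs_div, abs_of_pos (by positivity : (0 : ℝ) < 2 * 4 ^ k), h14,
        div_le_div_iff₀ (by positivity) (by positivity)]
      have g : |(⌊4 * 4 ^ k * (τ + w / 2)⌋ : ℝ) - 4 * 4 ^ k * (τ + w / 2)| ≤ 1 := by
        rw [abs_le]
        constructor <;> linarith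
      nlinarith
    calc _ ≤ (d : ℝ) * (1 / 4) ^ k + (1 / 4) ^ k := add_le_add hre him
      _ = _ := by ring

lemma B07_chart (ζ : E (d + 1)) (h1 : ‖ζ‖ = 1) (h0 : 0 ≤ (ζ 0).re) :
    ∃ (x y : Fin d → ℝ) (τ : ℝ), (∀ i, |x i| ≤ 2) ∧ (∀ i, |y i| ≤ 2) ∧ |τ| ≤ 2 ∧
      tZ x y τ = ζ := by
  have hsq : ‖ζ 0‖ ^ 2 + ∑ i : Fin d, ‖ζ i.succ‖ ^ 2 = 1 := by
    rw [← Fin.sum_univ_succ (fun i => ‖ζ i‖ ^ 2), ← EuclideanSpace.norm_sq_eq, h1, one_pow]
  have hsum0 : 0 ≤ ∑ i : Fin d, ‖ζ i.succ‖ ^ 2 := Finset.sum_nonneg fun i _ => by positivity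
  have hz0 : ‖ζ 0‖ ≤ 1 := by
    have : ‖ζ 0‖ ^ 2 ≤ 1 := by linarith
    nlinarith [norm_nonneg (ζ 0)]
  have hzi : ∀ i : Fin d, ‖ζ i.succ‖ ≤ 1 := by
    intro i
    have h2 : ‖ζ i.succ‖ ^ 2 ≤ ∑ i : Fin d, ‖ζ i.succ‖ ^ 2 :=
      Finset.single_le_sum (f := fun i : Fin d => ‖ζ i.succ‖ ^ 2) (fun i _ => by positivity)
        (Finset.mem_univ i)
    have h3 : ‖ζ i.succ‖ ^ 2 ≤ 1 := by nlinarith [norm_nonneg (ζ 0)]
    nlinarith [norm_nonneg (ζ i.succ)]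
  set w : ℂ := 1 + ζ 0 with hw
  have hwn : 1 ≤ ‖w‖ := by
    have := Complex.re_le_norm w
    rw [hw, Complex.add_re, Complex.one_re] at this
    linarith
  have hw0 : w ≠ 0 := by
    intro h
    rw [h, norm_zero] at hwn
    linarith
  set s : ℂ := (1 - ζ 0) / w with hs
  have hsn : ‖s‖ ≤ 2 := by
    rw [hs, norm_div]
    apply div_le_of_le_mul₀ (norm_nonneg _) (by norm_num)
    have := norm_sub_le (1 : ℂ) (ζ 0)
    rw [norm_one] at this
    linarith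
  set z : Fin d → ℂ := fun i => 2 * ζ i.succ / w with hz
  have hzn : ∀ i, ‖z i‖ ≤ 2 := by
    intro i
    rw [hz]
    simp only
    rw [norm_div, norm_mul]
    apply div_le_of_le_mul₀ (norm_nonneg _) (by norm_num)
    have h2 : ‖(2 : ℂ)‖ = 2 := by simp
    rw [h2]
    nlinarith [hzi i, norm_nonneg (ζ i.succ)]
  have htS : tS (fun i => (z i).re) (fun i => (z i).im) s.im = s := by
    apply Complex.ext
    · simp only [tS]
      have e1 : ∀ i, (z i).re ^ 2 + (z i).im ^ 2 = 4 * ‖ζ i.succ‖ ^ 2 / ‖w‖ ^ 2 := by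
        intro i
        have e2 : (z i).re ^ 2 + (z i).im ^ 2 = ‖z i‖ ^ 2 := by
          rw [← Complex.normSq_eq_norm_sq, Complex.normSq_apply]
          ring
        have h2 : ‖(2 : ℂ)‖ = 2 := by simp
        rw [e2, hz]
        simp only
        rw [norm_div, norm_mul, h2]
        ring
      simp only [e1]
      rw [← Finset.sum_div, ← Finset.mul_sum]
      have e3 : ∑ i : Fin d, ‖ζ i.succ‖ ^ 2 = 1 - ‖ζ 0‖ ^ 2 := by linarith
      rw [e3, hs, Complex.div_re, ← Complex.normSq_eq_norm_sq, ← Complex.normSq_eq_norm_sq]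
      have hN : Complex.normSq w ≠ 0 := by simpa using hw0
      have e4 : w.re = 1 + (ζ 0).re := by rw [hw]; simp
      have e5 : w.im = (ζ 0).im := by rw [hw]; simp
      have e6 : (1 - ζ 0).re = 1 - (ζ 0).re := by simp
      have e7 : (1 - ζ 0).im = -(ζ 0).im := by simp
      rw [e6, e7, e4, e5, Complex.normSq_apply (ζ 0)]
      field_simp
      ring
    · simp only [tS]
  refine ⟨fun i => (z i).re, fun i => (z i).im, s.im, fun i => ?_, fun i => ?_, ?_, ?_⟩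
  · exact (Complex.abs_re_le_norm _).trans (hzn i)
  · exact (Complex.abs_im_le_norm _).trans (hzn i)
  · exact (Complex.abs_im_le_norm _).trans hsn
  · have e1 : 1 + s = 2 / w := by
      rw [hs, eq_div_iff hw0, add_mul, one_mul, div_mul_cancel₀ _ hw0, hw]
      ring
    have e2 : 1 - s = 2 * ζ 0 / w := by
      rw [hs]
      field_simp
      rw [hw]
      ring
    unfold tZ
    rw [htS, e1, e2]
    ext i
    refine Fin.cases ?_ (fun i => ?_) i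
    · simp only [Fin.cons_zero]
      field_simp
    · simp only [Fin.cons_succ]
      have e3 : (⟨(z i).re, (z i).im⟩ : ℂ) = z i := rfl
      rw [e3, hz]
      simp only
      field_simp

lemma B07_dense {M K : ℤ} {W : ℝ} (hM : 0 ≤ M) (hW0 : 0 < W)
    (hW : 1 + d * M ^ 2 / 2 + K / 4 ≤ W)
    (hDB : ∀ P0 : Lat d, B07_Ds (8 + 24 * d) 0 P0 → B07_Bd M K 0 P0)
    (ζ : E (d + 1)) (h1 : ‖ζ‖ = 1) (h0 : 0 ≤ (ζ 0).re) (l : ℕ) :
    ∃ P0 : Lat d, B07_Ds (8 + 24 * d) 0 P0 ∧ ∃ i < 2 ^ l,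
      sc (d + 1) l * rho ζ (B07_pt P0 l i) ≤ 40 * (d + 2) := by
  obtain ⟨x, y, τ, hx, hy, hτ, hζ⟩ := B07_chart ζ h1 h0
  set k := l / (2 * (d + 1)) with hk
  have hN : 0 < 2 * (d + 1) := by omega
  obtain ⟨P, hP, hPr⟩ := B07_approx x y τ hx hy hτ (k + 1)
  rw [hζ] at hPr
  obtain ⟨P0, hP0, j, hj, hjP⟩ := B07_root hP
  have hT := B07_tree hM (hDB P0 hP0) hW0 hW
  set m := 2 * (d + 1) * (k + 1) with hm
  have hlm : l ≤ m := (Nat.lt_mul_div_succ l hN).le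
  have hnest := hT.nest l m j hlm hj
  have hmk : m / (2 * (d + 1)) = k + 1 := by rw [hm]; exact Nat.mul_div_cancel_left _ hN
  have hmr : m % (2 * (d + 1)) = 0 := by rw [hm]; exact Nat.mul_mod_right _ _
  have hpt : B07_pt P0 m j = tP (k + 2) (chd P 0) := by
    unfold B07_pt
    rw [hmk, hmr, Nat.sub_zero, B07_H, Nat.mul_div_cancel _ (by positivity), Nat.mul_mod_left, hjP]
  have hc := rho_tP_child (k := k + 1) (P := P) (t := 0) (by positivity)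
  have hn1 : ‖B07_pt P0 m j‖ = 1 := norm_tP _ _
  have h3 : rho ζ (B07_pt P0 m j) ≤ 2 * (rho ζ (tP (k + 1) P) + rho (tP (k + 1) P) (B07_pt P0 m j)) :=
    rho_triangle h1.le (norm_tP _ _) hn1.le
  rw [rho_comm (tP (k + 1) P), hpt] at h3
  rw [hpt] at hnest hn1
  refine ⟨P0, hP0, j / 2 ^ (m - l), ?_, ?_⟩
  · rw [Nat.div_lt_iff_lt_mul (by positivity), ← pow_add]
    have : l + (m - l) = m := by omega
    rw [this]
    exact hj
  · have h4 := rho_triangle (x := ζ) (y := tP (k + 2) (chd P 0)) (z := B07_pt P0 l (j / 2 ^ (m - l)))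
      h1.le hn1 (norm_tP _ _).le
    have h5 := B07_sc_hi (d := d) l
    rw [← hk] at h5
    have h6 : 0 ≤ sc (d + 1) l := le_trans (by positivity) (B07_sc_lo (d := d) l)
    have e' : (4 : ℝ) ^ k * (1 / 4) ^ k = 1 := by rw [← mul_pow]; norm_num
    have h7 : sc (d + 1) l * (1 / 4) ^ (k + 1) ≤ 1 := by
      calc sc (d + 1) l * (1 / 4) ^ (k + 1) ≤ (4 * 4 ^ k) * (1 / 4) ^ (k + 1) :=
            mul_le_mul_of_nonneg_right h5 (by positivity)
        _ = (4 : ℝ) ^ k * (1 / 4) ^ k := by rw [pow_succ]; ring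
        _ = 1 := e'
    have h8 : rho ζ (tP (k + 2) (chd P 0)) ≤ 2 * ((d + 1) + (d + 2) / 4) * (1 / 4) ^ (k + 1) := by
      calc rho ζ (tP (k + 2) (chd P 0)) ≤ 2 * ((d + 1) * (1 / 4) ^ (k + 1) +
            (1 / 4) ^ (k + 1) * ((d + 2) / 4)) := by
            refine h3.trans ?_
            have : rho (tP (k + 2) (chd P 0)) (tP (k + 1) P) ≤ (1 / 4) ^ (k + 1) * ((d + 2) / 4) := hc
            linarith
        _ = _ := by ring
    have h9 : sc (d + 1) l * rho ζ (tP (k + 2) (chd P 0)) ≤ 2 * ((d + 1) + (d + 2) / 4) := by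
      calc sc (d + 1) l * rho ζ (tP (k + 2) (chd P 0))
          ≤ sc (d + 1) l * (2 * ((d + 1) + (d + 2) / 4) * (1 / 4) ^ (k + 1)) :=
            mul_le_mul_of_nonneg_left h8 h6
        _ = 2 * ((d + 1) + (d + 2) / 4) * (sc (d + 1) l * (1 / 4) ^ (k + 1)) := by ring
        _ ≤ 2 * ((d + 1) + (d + 2) / 4) * 1 := mul_le_mul_of_nonneg_left h7 (by positivity)
        _ = _ := by ring
    have hd : (0 : ℝ) ≤ d := Nat.cast_nonneg d
    calc sc (d + 1) l * rho ζ (B07_pt P0 l (j / 2 ^ (m - l)))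
        ≤ sc (d + 1) l * (2 * (rho ζ (tP (k + 2) (chd P 0)) +
            rho (tP (k + 2) (chd P 0)) (B07_pt P0 l (j / 2 ^ (m - l))))) :=
          mul_le_mul_of_nonneg_left h4 h6
      _ = 2 * (sc (d + 1) l * rho ζ (tP (k + 2) (chd P 0))) +
            2 * (sc (d + 1) l * rho (tP (k + 2) (chd P 0)) (B07_pt P0 l (j / 2 ^ (m - l)))) := by
          ring
      _ ≤ 2 * (2 * ((d + 1) + (d + 2) / 4)) + 2 * (16 * (d + 2)) := by linarith
      _ ≤ 40 * (d + 2) := by linarith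

lemma B07_finite : Set.Finite {P : Lat d | B07_Ds (8 + 24 * d) 0 P} := by
  have hf : Set.Finite ((Set.Icc (fun _ => -3 : Fin d → ℤ) (fun _ => 3)) ×ˢ
      ((Set.Icc (fun _ => -3 : Fin d → ℤ) (fun _ => 3)) ×ˢ
        (Set.Icc (-(36 * (d : ℤ) + 9)) (36 * (d : ℤ) + 9)))) :=
    (Set.finite_Icc _ _).prod ((Set.finite_Icc _ _).prod (Set.finite_Icc _ _))
  apply hf.subset
  intro P hP
  obtain ⟨h1, h2, h3⟩ := hP
  simp only [pow_zero, mul_one] at h1 h2 h3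
  rw [abs_le] at h3
  refine ⟨⟨fun i => (h1 i).1, fun i => (h1 i).2.le⟩, ⟨fun i => (h2 i).1, fun i => (h2 i).2.le⟩, ?_, ?_⟩
  · linarith [h3.1]
  · linarith [h3.2]

lemma B07_DB (P0 : Lat d) (h : B07_Ds (8 + 24 * d) 0 P0) :
    B07_Bd 4 (52 * d + 10) 0 P0 := by
  obtain ⟨h1, h2, h3⟩ := h
  simp only [pow_zero, mul_one] at h1 h2 h3
  refine ⟨fun i => ?_, fun i => ?_, ?_⟩
  · have := h1 i
    have h4 : |P0.1 i| ≤ 3 := by rw [abs_le]; omega
    simp only [pow_zero, mul_one]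
    linarith
  · have := h2 i
    have h4 : |P0.2.1 i| ≤ 3 := by rw [abs_le]; omega
    simp only [pow_zero, mul_one]
    linarith
  · simp only [pow_zero, mul_one]
    linarith

lemma B07_rho_neg {n : ℕ} (x y : E n) : rho (-x) y = rho x (-y) := by
  unfold rho
  rw [inner_neg_left, inner_neg_right]

lemma B07_tree_neg {n : ℕ} {pt : ℕ → ℕ → E n} {c C : ℝ} (h : TreeFam n pt c C) :
    TreeFam n (fun l i => - pt l i) c C := by
  refine ⟨fun l i => by rw [norm_neg]; exact h.unit l i, h.cpos, fun l i j hi hj hij => ?_,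
    fun l m j hl hj => ?_⟩
  · rw [B07_rho_neg, neg_neg]
    exact h.sep l i j hi hj hij
  · rw [B07_rho_neg, neg_neg]
    exact h.nest l m j hl hj

end B07

/-- TARGET -/
theorem exists_cover (n : ℕ) (hn : 1 ≤ n) :
    ∃ (V : ℕ) (pt : ℕ → ℕ → ℕ → E n) (c C : ℝ), (∀ ν < V, TreeFam n (pt ν) c C) ∧
      ∀ (l : ℕ) (ζ : E n), ‖ζ‖ = 1 → ∃ ν < V, ∃ i < 2 ^ l, sc n l * rho ζ (pt ν l i) ≤ C := by
  obtain ⟨d, rfl⟩ : ∃ d, n = d + 1 := ⟨n - 1, by omega⟩
  set W : ℝ := 1 + d * ((4 : ℤ) : ℝ) ^ 2 / 2 + ((52 * (d : ℤ) + 10 : ℤ) : ℝ) / 4 with hW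
  have hW0 : 0 < W := by
    rw [hW]
    push_cast
    positivity
  set s := (B07_finite (d := d)).toFinset with hs
  have hmem : ∀ P : Lat d, P ∈ s ↔ B07_Ds (8 + 24 * d) 0 P := by
    intro P
    rw [hs, Set.Finite.mem_toFinset]
    rfl
  set V0 := s.card with hV0
  let r : ℕ → Lat d := fun ν => if h : ν < V0 then (s.equivFin.symm ⟨ν, h⟩).1 else (0, 0, 0)
  have hr1 : ∀ ν < V0, B07_Ds (8 + 24 * d) 0 (r ν) := by
    intro ν hν
    simp only [r, dif_pos hν]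
    exact (hmem _).1 (s.equivFin.symm ⟨ν, hν⟩).2
  have hr2 : ∀ P : Lat d, B07_Ds (8 + 24 * d) 0 P → ∃ ν < V0, r ν = P := by
    intro P hP
    refine ⟨s.equivFin ⟨P, (hmem P).2 hP⟩, (s.equivFin ⟨P, (hmem P).2 hP⟩).2, ?_⟩
    simp only [r]
    rw [dif_pos (s.equivFin ⟨P, (hmem P).2 hP⟩).2]
    simp
  have htree : ∀ ν < V0, TreeFam (d + 1) (B07_pt (r ν)) (1 / (8 * W ^ 2)) (40 * (d + 2)) := by
    intro ν hν
    have h := B07_tree (M := 4) (K := 52 * d + 10) (by norm_num) (B07_DB _ (hr1 ν hν)) hW0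
      (le_of_eq hW.symm)
    refine ⟨h.unit, h.cpos, h.sep, fun l m j hl hj => (h.nest l m j hl hj).trans ?_⟩
    have hd : (0 : ℝ) ≤ d := Nat.cast_nonneg d
    linarith
  refine ⟨V0 + V0, fun ν => if ν < V0 then B07_pt (r ν) else fun l i => - B07_pt (r (ν - V0)) l i,
    1 / (8 * W ^ 2), 40 * (d + 2), fun ν hν => ?_, fun l ζ hζ => ?_⟩
  · by_cases h : ν < V0
    · simp only [if_pos h]
      exact htree ν h
    · simp only [if_neg h]
      exact B07_tree_neg (htree (ν - V0) (by omega))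
  · rcases le_total 0 (ζ 0).re with h0 | h0
    · obtain ⟨P0, hP0, i, hi, hle⟩ := B07_dense (M := 4) (K := 52 * d + 10) (by norm_num) hW0
        (le_of_eq hW.symm) B07_DB ζ hζ h0 l
      obtain ⟨ν, hν, hνP⟩ := hr2 P0 hP0
      refine ⟨ν, by omega, i, hi, ?_⟩
      simp only [if_pos hν]
      rw [hνP]
      exact hle
    · have h0' : 0 ≤ ((-ζ) 0).re := by
        show 0 ≤ (-(ζ 0)).re
        rw [Complex.neg_re]
        linarith
      obtain ⟨P0, hP0, i, hi, hle⟩ := B07_dense (M := 4) (K := 52 * d + 10) (by norm_num) hW0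
        (le_of_eq hW.symm) B07_DB (-ζ) (by rw [norm_neg]; exact hζ) h0' l
      obtain ⟨ν, hν, hνP⟩ := hr2 P0 hP0
      refine ⟨ν + V0, by omega, i, hi, ?_⟩
      have hnot : ¬ (ν + V0 < V0) := by omega
      simp only [if_neg hnot, Nat.add_sub_cancel]
      rw [hνP, ← B07_rho_neg]
      exact hle

end Pool.Agent.HpBall2
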