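import Mathlib
import Pool.Agent.HpBall2.Defs
import Pool.Agent.HpBall.Geom
import Pool.Agent.HpBall.Sphere
import Pool.Agent.HpBall.Kernel

set_option autoImplicit false

open MeasureTheory Complex
open scoped ENNReal NNReal

namespace Pool.Agent.HpBall2

open Pool.Agent.HpBall

/-! ### geometry -/

lemma B05_sq {n : ℕ} {x z : E n} (hx : ‖x‖ = 1) (hz : ‖z‖ = 1) :
    ‖z - (inner ℂ x z : ℂ) • x‖ ^ 2 ≤ 2 * rho x z := by
  set b : ℂ := inner ℂ x z with hb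
  have hxx : (inner ℂ x x : ℂ) = 1 := by
    rw [inner_self_eq_norm_sq_to_K, hx]; simp
  have hz'n : ‖z - b • x‖ ^ 2 = 1 - ‖b‖ ^ 2 := by
    have h1 : (inner ℂ (z - b • x) (z - b • x) : ℂ) = inner ℂ z z - b * (inner ℂ z x : ℂ) := by
      simp only [inner_sub_left, inner_sub_right, inner_smul_left, inner_smul_right, hxx, hb,
        inner_conj_symm]
      ring
    have h2 : b * (inner ℂ z x : ℂ) = (‖b‖ ^ 2 : ℝ) := by
      rw [← inner_conj_symm z x, ← hb, Complex.mul_conj, Complex.normSq_eq_norm_sq]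
    rw [h2, inner_self_eq_norm_sq_to_K, inner_self_eq_norm_sq_to_K, hz] at h1
    have h3 : ((‖z - b • x‖ ^ 2 : ℝ) : ℂ) = ((1 - ‖b‖ ^ 2 : ℝ) : ℂ) := by
      push_cast
      push_cast at h1
      simpa using h1
    exact Complex.ofReal_injective h3
  rw [hz'n]
  have h4 : 1 - ‖b‖ ≤ rho x z := by
    unfold rho
    rw [← hb]
    have := norm_sub_norm_le (1 : ℂ) b
    simpa using this
  have h5 : ‖b‖ ≤ 1 := by
    have := norm_inner_le_norm (𝕜 := ℂ) x z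
    rw [hx, hz] at this
    simpa [hb] using this
  have h6 : 0 ≤ ‖b‖ := norm_nonneg _
  nlinarith

lemma B05_geom {n : ℕ} {x y ξ : E n} (hx : ‖x‖ = 1) (hy : ‖y‖ = 1) (hξ : ‖ξ‖ = 1) :
    ‖(inner ℂ x ξ : ℂ) - inner ℂ y ξ‖ ≤
      rho x y + 2 * (Real.sqrt (rho x y) * Real.sqrt (rho ξ x)) := by
  set u : ℂ := inner ℂ x ξ with hu
  set b : ℂ := inner ℂ x y with hb
  have hxx : (inner ℂ x x : ℂ) = 1 := by
    rw [inner_self_eq_norm_sq_to_K, hx]; simp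
  have h1 : u - (inner ℂ y ξ : ℂ) = u * (1 - (starRingEnd ℂ) b)
      - inner ℂ (y - b • x) (ξ - u • x) := by
    simp only [inner_sub_left, inner_sub_right, inner_smul_left, inner_smul_right, hxx, hb, hu,
      inner_conj_symm]
    ring
  have h2 : ‖u‖ ≤ 1 := by
    have := norm_inner_le_norm (𝕜 := ℂ) x ξ
    rw [hx, hξ] at this
    simpa [hu] using this
  have h3 : ‖1 - (starRingEnd ℂ) b‖ = rho x y := by
    unfold rho
    rw [← hb, ← Complex.norm_conj (1 - b)]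
    simp
  have h4 : ‖y - b • x‖ ≤ Real.sqrt (2 * rho x y) := by
    apply Real.le_sqrt_of_sq_le
    exact B05_sq hx hy
  have h5 : ‖ξ - u • x‖ ≤ Real.sqrt (2 * rho x ξ) := by
    apply Real.le_sqrt_of_sq_le
    exact B05_sq hx hξ
  have h6 : ‖(inner ℂ (y - b • x) (ξ - u • x) : ℂ)‖ ≤ Real.sqrt (2 * rho x y) * Real.sqrt (2 * rho x ξ) :=
    (norm_inner_le_norm _ _).trans (mul_le_mul h4 h5 (norm_nonneg _) (Real.sqrt_nonneg _))
  have h7 : Real.sqrt (2 * rho x y) * Real.sqrt (2 * rho x ξ) =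
      2 * (Real.sqrt (rho x y) * Real.sqrt (rho ξ x)) := by
    rw [Real.sqrt_mul (by norm_num), Real.sqrt_mul (by norm_num), rho_comm x ξ]
    have : Real.sqrt 2 * Real.sqrt 2 = 2 := Real.mul_self_sqrt (by norm_num)
    calc _ = (Real.sqrt 2 * Real.sqrt 2) * (Real.sqrt (rho x y) * Real.sqrt (rho ξ x)) := by ring
      _ = _ := by rw [this]
  rw [h7] at h6
  calc ‖u - (inner ℂ y ξ : ℂ)‖ = ‖u * (1 - (starRingEnd ℂ) b) - inner ℂ (y - b • x) (ξ - u • x)‖ := by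
        rw [h1]
    _ ≤ ‖u * (1 - (starRingEnd ℂ) b)‖ + ‖(inner ℂ (y - b • x) (ξ - u • x) : ℂ)‖ := norm_sub_le _ _
    _ ≤ 1 * rho x y + 2 * (Real.sqrt (rho x y) * Real.sqrt (rho ξ x)) := by
        rw [norm_mul, h3]
        apply add_le_add _ h6
        exact mul_le_mul_of_nonneg_right h2 (rho_nonneg _ _)
    _ = _ := by rw [one_mul]

/-! ### the polynomial coefficients -/

lemma B05_poly (n : ℕ) (hn : 1 ≤ n) : ∃ g : ℕ → ℝ, ∀ k : ℕ,
    cn n k = ∑ i ∈ Finset.range n, g i * (k : ℝ) ^ i := by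
  obtain ⟨m, rfl⟩ : ∃ m, n = m + 1 := ⟨n - 1, by omega⟩
  set P : Polynomial ℝ := (ascPochhammer ℝ m).comp (Polynomial.X + 1) with hP
  refine ⟨fun i => P.coeff i * ((m.factorial : ℝ) * Real.pi ^ (m + 1))⁻¹, ?_⟩
  intro k
  have hdeg : P.natDegree < m + 1 := by
    have h1 : P.natDegree = (ascPochhammer ℝ m).natDegree * (Polynomial.X + 1 : Polynomial ℝ).natDegree :=
      Polynomial.natDegree_comp
    have h2 : (Polynomial.X + 1 : Polynomial ℝ).natDegree = 1 := by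
      have := Polynomial.natDegree_X_add_C (1 : ℝ)
      simpa using this
    rw [h1, h2, ascPochhammer_natDegree, mul_one]
    exact Nat.lt_succ_self m
  have h3 : P.eval (k : ℝ) = ∑ i ∈ Finset.range (m + 1), P.coeff i * (k : ℝ) ^ i :=
    Polynomial.eval_eq_sum_range' hdeg (k : ℝ)
  have h4 : P.eval (k : ℝ) = (m.factorial : ℝ) * ((k + m).choose m : ℝ) := by
    rw [hP, Polynomial.eval_comp]
    simp only [Polynomial.eval_add, Polynomial.eval_X, Polynomial.eval_one]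
    have h5 : ((k : ℝ) + 1) = (((k + 1 : ℕ)) : ℝ) := by push_cast; ring
    rw [h5, ← ascPochhammer_eval_cast, ascPochhammer_nat_eq_ascFactorial,
      Nat.ascFactorial_eq_factorial_mul_choose]
    push_cast
    rfl
  unfold cn
  have h6 : k + (m + 1) - 1 = k + m := by omega
  have h7 : m + 1 - 1 = m := by omega
  rw [h6, h7]
  have hm : (m.factorial : ℝ) ≠ 0 := by exact_mod_cast Nat.factorial_ne_zero m
  have hpi : Real.pi ^ (m + 1) ≠ 0 := pow_ne_zero _ Real.pi_ne_zero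
  have h8 : ∑ i ∈ Finset.range (m + 1), P.coeff i * ((m.factorial : ℝ) * Real.pi ^ (m + 1))⁻¹ * (k : ℝ) ^ i
      = ((m.factorial : ℝ) * Real.pi ^ (m + 1))⁻¹ * ∑ i ∈ Finset.range (m + 1), P.coeff i * (k : ℝ) ^ i := by
    rw [Finset.mul_sum]
    apply Finset.sum_congr rfl
    intro i _
    ring
  rw [h8, ← h3, h4]
  field_simp

/-! ### the function and its derivative -/

/-- the function of one variable -/
noncomputable def B05_F (n : ℕ) (β : ℝ → ℝ) (N : ℝ) (w : ℂ) : ℂ :=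
  ∑' k : ℕ, ((β ((k : ℝ) / N) * cn n k : ℝ) : ℂ) * w ^ k

/-- its derivative -/
noncomputable def B05_G (n : ℕ) (β : ℝ → ℝ) (b N : ℝ) (w : ℂ) : ℂ :=
  ∑ k ∈ Finset.range ⌈b * N⌉₊, ((β ((k : ℝ) / N) * cn n k : ℝ) : ℂ) * ((k : ℂ) * w ^ (k - 1))

lemma B05_F_eq (n : ℕ) (β : ℝ → ℝ) (b N : ℝ) (hN : 0 < N) (hi : ∀ x, b ≤ x → β x = 0) (w : ℂ) :
    B05_F n β N w = ∑ k ∈ Finset.range ⌈b * N⌉₊, ((β ((k : ℝ) / N) * cn n k : ℝ) : ℂ) * w ^ k := by
  unfold B05_F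
  apply tsum_eq_sum
  intro k hk
  have hk' : ⌈b * N⌉₊ ≤ k := by simpa using hk
  have : b ≤ (k : ℝ) / N := by
    rw [le_div_iff₀ hN]
    exact (Nat.le_ceil _).trans (by exact_mod_cast hk')
  rw [hi _ this]
  simp

lemma B05_hasDeriv (n : ℕ) (β : ℝ → ℝ) (b N : ℝ) (hN : 0 < N) (hi : ∀ x, b ≤ x → β x = 0) (w : ℂ) :
    HasDerivAt (B05_F n β N) (B05_G n β b N w) w := by
  have h1 : B05_F n β N = fun w => ∑ k ∈ Finset.range ⌈b * N⌉₊,
      ((β ((k : ℝ) / N) * cn n k : ℝ) : ℂ) * w ^ k := by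
    funext w
    exact B05_F_eq n β b N hN hi w
  rw [h1]
  unfold B05_G
  apply HasDerivAt.fun_sum
  intro k _
  exact (hasDerivAt_pow k w).const_mul _

lemma B05_G_diff (n : ℕ) (β : ℝ → ℝ) (b N : ℝ) : Differentiable ℂ (B05_G n β b N) := by
  unfold B05_G
  apply Differentiable.fun_sum
  intro k _
  apply Differentiable.const_mul
  apply Differentiable.const_mul
  exact differentiable_pow _

lemma B05_wG (n : ℕ) (g : ℕ → ℝ) (hg : ∀ k : ℕ, cn n k = ∑ i ∈ Finset.range n, g i * (k : ℝ) ^ i)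
    (β : ℝ → ℝ) (b N : ℝ) (hN : 0 < N) (hi : ∀ x, b ≤ x → β x = 0) (w : ℂ) :
    w * B05_G n β b N w = ∑ i ∈ Finset.range n, ((g i * N ^ (i + 1) : ℝ) : ℂ) *
      ker (fun t => t ^ (i + 1) * β t) N w := by
  have h1 : ∀ i, ker (fun t => t ^ (i + 1) * β t) N w = ∑ k ∈ Finset.range ⌈b * N⌉₊,
      ((((k : ℝ) / N) ^ (i + 1) * β ((k : ℝ) / N) : ℝ) : ℂ) * w ^ k := by
    intro i
    exact ker_eq_sum (fun t => t ^ (i + 1) * β t) b N hN (fun x hx => by rw [hi x hx, mul_zero])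
      w _ (Nat.le_ceil _)
  simp only [h1]
  unfold B05_G
  rw [Finset.mul_sum]
  have h2 : ∀ i ∈ Finset.range n, ((g i * N ^ (i + 1) : ℝ) : ℂ) * ∑ k ∈ Finset.range ⌈b * N⌉₊,
      ((((k : ℝ) / N) ^ (i + 1) * β ((k : ℝ) / N) : ℝ) : ℂ) * w ^ k
      = ∑ k ∈ Finset.range ⌈b * N⌉₊, ((g i * N ^ (i + 1) : ℝ) : ℂ) *
        (((((k : ℝ) / N) ^ (i + 1) * β ((k : ℝ) / N) : ℝ) : ℂ) * w ^ k) := by
    intro i _
    rw [Finset.mul_sum]
  rw [Finset.sum_congr rfl h2, Finset.sum_comm]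
  apply Finset.sum_congr rfl
  intro k _
  have h3 : w * (((β ((k : ℝ) / N) * cn n k : ℝ) : ℂ) * ((k : ℂ) * w ^ (k - 1)))
      = ((β ((k : ℝ) / N) * cn n k * k : ℝ) : ℂ) * w ^ k := by
    rcases Nat.eq_zero_or_pos k with hk | hk
    · subst hk; simp
    · have : w ^ k = w * w ^ (k - 1) := by
        rw [← pow_succ']
        congr 1
        omega
      rw [this]
      push_cast
      ring
  rw [h3, hg k]
  have h4 : ∀ i ∈ Finset.range n, ((g i * N ^ (i + 1) : ℝ) : ℂ) *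
        (((((k : ℝ) / N) ^ (i + 1) * β ((k : ℝ) / N) : ℝ) : ℂ) * w ^ k)
      = ((β ((k : ℝ) / N) * (g i * (k : ℝ) ^ i) * k : ℝ) : ℂ) * w ^ k := by
    intro i _
    rw [← mul_assoc, ← Complex.ofReal_mul]
    congr 2
    rw [div_pow]
    have : N ^ (i + 1) ≠ 0 := pow_ne_zero _ hN.ne'
    field_simp
    ring
  rw [Finset.sum_congr rfl h4, ← Finset.sum_mul, ← Complex.ofReal_sum]
  congr 2
  rw [← Finset.sum_mul, ← Finset.mul_sum]

lemma B05_bump (β : ℝ → ℝ) (a b : ℝ) (hβ : Bump β a b) (i : ℕ) :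
    Bump (fun t => t ^ i * β t) a b := by
  refine ⟨hβ.apos, hβ.ab, ?_, ?_, ?_⟩
  · exact (contDiff_id.pow i).mul hβ.smooth
  · intro x hx
    rw [hβ.lo x hx, mul_zero]
  · intro x hx
    rw [hβ.hi x hx, mul_zero]

lemma B05_wG_bound (n : ℕ) (hn : 1 ≤ n) (β : ℝ → ℝ) (a b : ℝ) (hβ : Bump β a b) (M : ℕ)
    (N₀ : ℝ) (hN₀ : 0 < N₀) : ∃ D : ℝ, 0 < D ∧ ∀ N : ℝ, N₀ ≤ N → ∀ w : ℂ, ‖w‖ ≤ 1 →
      ‖w * B05_G n β b N w‖ ≤ D * N ^ (n + 1) * ((1 + N * ‖1 - w‖) ^ M)⁻¹ := by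
  obtain ⟨g, hg⟩ := B05_poly n hn
  have hC : ∀ i : ℕ, ∃ C : ℝ, 0 < C ∧ ∀ N : ℝ, N₀ ≤ N → ∀ z : ℂ, ‖z‖ ≤ 1 →
      ‖ker (fun t => t ^ (i + 1) * β t) N z‖ ≤ C * N * (1 + N * ‖1 - z‖) ^ (-(M : ℝ)) :=
    fun i => multiplier_kernel _ a b (B05_bump β a b hβ (i + 1)) M N₀ hN₀
  choose C hCpos hCb using hC
  refine ⟨∑ i ∈ Finset.range n, |g i| * C i / N₀ ^ (n - 1 - i) + 1, ?_, ?_⟩
  · have : 0 ≤ ∑ i ∈ Finset.range n, |g i| * C i / N₀ ^ (n - 1 - i) := by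
      apply Finset.sum_nonneg
      intro i _
      have := (hCpos i).le
      positivity
    linarith
  intro N hN w hw
  have hNp : 0 < N := hN₀.trans_le hN
  rw [B05_wG n g hg β b N hNp hβ.hi w]
  have hbase : 0 < 1 + N * ‖1 - w‖ := by positivity
  set T : ℝ := ((1 + N * ‖1 - w‖) ^ M)⁻¹ with hT
  have hTpos : 0 < T := by positivity
  have hTr : (1 + N * ‖1 - w‖) ^ (-(M : ℝ)) = T := by
    rw [Real.rpow_neg hbase.le, Real.rpow_natCast]
  have hterm : ∀ i ∈ Finset.range n, ‖((g i * N ^ (i + 1) : ℝ) : ℂ) *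
      ker (fun t => t ^ (i + 1) * β t) N w‖ ≤ (|g i| * C i / N₀ ^ (n - 1 - i)) * (N ^ (n + 1) * T) := by
    intro i hi
    have hin : i < n := Finset.mem_range.1 hi
    rw [norm_mul, Complex.norm_real, Real.norm_eq_abs, abs_mul, abs_of_pos (pow_pos hNp (i + 1))]
    have h1 := hCb i N hN w hw
    rw [hTr] at h1
    have h2 : N ^ (i + 1) ≤ N ^ n / N₀ ^ (n - 1 - i) := by
      rw [le_div_iff₀ (pow_pos hN₀ _)]
      calc N ^ (i + 1) * N₀ ^ (n - 1 - i) ≤ N ^ (i + 1) * N ^ (n - 1 - i) := by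
            apply mul_le_mul_of_nonneg_left _ (pow_pos hNp _).le
            exact pow_le_pow_left₀ hN₀.le hN _
        _ = N ^ n := by
            rw [← pow_add]
            congr 1
            omega
    calc |g i| * N ^ (i + 1) * ‖ker (fun t => t ^ (i + 1) * β t) N w‖
        ≤ |g i| * (N ^ n / N₀ ^ (n - 1 - i)) * (C i * N * T) := by
          apply mul_le_mul _ h1 (norm_nonneg _) (by positivity)
          exact mul_le_mul_of_nonneg_left h2 (abs_nonneg _)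
      _ = (|g i| * C i / N₀ ^ (n - 1 - i)) * (N ^ (n + 1) * T) := by
          rw [pow_succ]; ring
  calc ‖∑ i ∈ Finset.range n, ((g i * N ^ (i + 1) : ℝ) : ℂ) *
      ker (fun t => t ^ (i + 1) * β t) N w‖
      ≤ ∑ i ∈ Finset.range n, ‖((g i * N ^ (i + 1) : ℝ) : ℂ) *
      ker (fun t => t ^ (i + 1) * β t) N w‖ := norm_sum_le _ _
    _ ≤ ∑ i ∈ Finset.range n, (|g i| * C i / N₀ ^ (n - 1 - i)) * (N ^ (n + 1) * T) :=
        Finset.sum_le_sum hterm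
    _ = (∑ i ∈ Finset.range n, |g i| * C i / N₀ ^ (n - 1 - i)) * (N ^ (n + 1) * T) := by
        rw [Finset.sum_mul]
    _ ≤ (∑ i ∈ Finset.range n, |g i| * C i / N₀ ^ (n - 1 - i) + 1) * (N ^ (n + 1) * T) := by
        apply mul_le_mul_of_nonneg_right _ (by positivity)
        linarith
    _ = _ := by ring

lemma B05_G_bound (n : ℕ) (hn : 1 ≤ n) (β : ℝ → ℝ) (a b : ℝ) (hβ : Bump β a b) (M : ℕ)
    (N₀ : ℝ) (hN₀ : 0 < N₀) : ∃ D : ℝ, 0 < D ∧ ∀ N : ℝ, N₀ ≤ N → ∀ w : ℂ, ‖w‖ ≤ 1 →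
      ‖B05_G n β b N w‖ ≤ D * N ^ (n + 1) * ((1 + N * ‖1 - w‖) ^ M)⁻¹ := by
  obtain ⟨D, hD, hb⟩ := B05_wG_bound n hn β a b hβ M N₀ hN₀
  refine ⟨2 * 3 ^ M * D, by positivity, ?_⟩
  intro N hN w hw
  have hNp : 0 < N := hN₀.trans_le hN
  -- bound for `1/2 ≤ ‖w‖`
  have hbig : ∀ z : ℂ, ‖z‖ ≤ 1 → 1 / 2 ≤ ‖z‖ →
      ‖B05_G n β b N z‖ ≤ 2 * (D * N ^ (n + 1) * ((1 + N * ‖1 - z‖) ^ M)⁻¹) := by
    intro z hz hz2
    have h1 := hb N hN z hz
    rw [norm_mul] at h1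
    have h2 : 0 ≤ ‖B05_G n β b N z‖ := norm_nonneg _
    nlinarith
  have h3M : (1 : ℝ) ≤ 3 ^ M := one_le_pow₀ (by norm_num)
  rcases le_or_gt (1 / 2) ‖w‖ with hw2 | hw2
  · have h1 := hbig w hw hw2
    have hpos : 0 ≤ D * N ^ (n + 1) * ((1 + N * ‖1 - w‖) ^ M)⁻¹ := by positivity
    calc _ ≤ 2 * (D * N ^ (n + 1) * ((1 + N * ‖1 - w‖) ^ M)⁻¹) := h1
      _ ≤ 2 * (3 ^ M * (D * N ^ (n + 1) * ((1 + N * ‖1 - w‖) ^ M)⁻¹)) := by nlinarith
      _ = _ := by ring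
  · -- maximum principle
    have hmax : ‖B05_G n β b N w‖ ≤ 2 * (D * N ^ (n + 1) * ((1 + N * (1 / 2)) ^ M)⁻¹) := by
      apply Complex.norm_le_of_forall_mem_frontier_norm_le (U := Metric.ball (0 : ℂ) (1 / 2))
        Metric.isBounded_ball ((B05_G_diff n β b N).diffContOnCl)
      · intro z hz
        rw [frontier_ball (0 : ℂ) (by norm_num), mem_sphere_zero_iff_norm] at hz
        have h1 := hbig z (by rw [hz]; norm_num) hz.ge
        refine h1.trans ?_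
        have h2 : 1 / 2 ≤ ‖1 - z‖ := by
          have := norm_sub_norm_le (1 : ℂ) z
          rw [hz] at this
          norm_num at this
          linarith
        have h3 : (1 + N * (1 / 2)) ^ M ≤ (1 + N * ‖1 - z‖) ^ M := by
          apply pow_le_pow_left₀ (by positivity)
          nlinarith
        have h4 : ((1 + N * ‖1 - z‖) ^ M)⁻¹ ≤ ((1 + N * (1 / 2)) ^ M)⁻¹ :=
          inv_anti₀ (by positivity) h3
        have h5 : 0 ≤ D * N ^ (n + 1) := by positivity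
        nlinarith [mul_le_mul_of_nonneg_left h4 h5]
      · rw [closure_ball (0 : ℂ) (by norm_num), mem_closedBall_zero_iff]
        exact hw2.le
    have h6 : ‖1 - w‖ ≤ 3 / 2 := by
      have := norm_sub_le (1 : ℂ) w
      rw [norm_one] at this
      linarith
    have h7 : (1 + N * ‖1 - w‖) ^ M ≤ 3 ^ M * (1 + N * (1 / 2)) ^ M := by
      rw [← mul_pow]
      apply pow_le_pow_left₀ (by positivity)
      nlinarith
    have h8 : ((1 + N * (1 / 2)) ^ M)⁻¹ ≤ 3 ^ M * ((1 + N * ‖1 - w‖) ^ M)⁻¹ := by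
      rw [← div_eq_mul_inv, le_div_iff₀ (by positivity), inv_mul_le_iff₀ (by positivity)]
      linarith
    have h9 : 0 ≤ D * N ^ (n + 1) := by positivity
    calc ‖B05_G n β b N w‖ ≤ 2 * (D * N ^ (n + 1) * ((1 + N * (1 / 2)) ^ M)⁻¹) := hmax
      _ ≤ 2 * (D * N ^ (n + 1) * (3 ^ M * ((1 + N * ‖1 - w‖) ^ M)⁻¹)) := by
          have := mul_le_mul_of_nonneg_left h8 h9
          linarith
      _ = _ := by ring

/-- TARGET -/
theorem kk_diff (n : ℕ) (hn : 1 ≤ n) (β : ℝ → ℝ) (a b : ℝ) (hβ : Bump β a b) (K : ℝ) (hK : 0 ≤ K)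
    (N₀ : ℝ) (hN₀ : 0 < N₀) : ∃ B : ℝ, 0 < B ∧ ∀ N : ℝ, N₀ ≤ N → ∀ x y ξ : E n, ‖x‖ = 1 →
    ‖y‖ = 1 → ‖ξ‖ = 1 → N * rho x y ≤ 1 → ∀ r : ℝ, 0 ≤ r → r ≤ 1 →
      ‖kk n β N x ((r : ℂ) • ξ) - kk n β N y ((r : ℂ) • ξ)‖ ≤
        B * Real.sqrt (N * rho x y) * N ^ (n : ℝ) * (1 + N * rho ξ x) ^ (-K) := by
  set M : ℕ := ⌈K⌉₊ + 1 with hM
  obtain ⟨D, hD, hb⟩ := B05_G_bound n hn β a b hβ M N₀ hN₀
  refine ⟨3 * 144 ^ M * D, by positivity, ?_⟩
  intro N hN x y ξ hx hy hξ hxy r hr0 hr1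
  have hNp : 0 < N := hN₀.trans_le hN
  set u : ℂ := inner ℂ x ξ with hu
  set v : ℂ := inner ℂ y ξ with hv
  have hkx : kk n β N x ((r : ℂ) • ξ) = B05_F n β N ((r : ℂ) * u) := by
    unfold kk B05_F
    rw [inner_smul_right]
  have hky : kk n β N y ((r : ℂ) • ξ) = B05_F n β N ((r : ℂ) * v) := by
    unfold kk B05_F
    rw [inner_smul_right]
  rw [hkx, hky]
  have hu1 : ‖u‖ ≤ 1 := by
    have := norm_inner_le_norm (𝕜 := ℂ) x ξ
    rw [hx, hξ] at this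
    simpa [hu] using this
  have hv1 : ‖v‖ ≤ 1 := by
    have := norm_inner_le_norm (𝕜 := ℂ) y ξ
    rw [hy, hξ] at this
    simpa [hv] using this
  have hru : ‖(r : ℂ) * u‖ ≤ 1 := by
    rw [norm_mul, Complex.norm_real, Real.norm_eq_abs, abs_of_nonneg hr0]
    calc r * ‖u‖ ≤ 1 * 1 := mul_le_mul hr1 hu1 (norm_nonneg _) zero_le_one
      _ = 1 := one_mul 1
  have hrv : ‖(r : ℂ) * v‖ ≤ 1 := by
    rw [norm_mul, Complex.norm_real, Real.norm_eq_abs, abs_of_nonneg hr0]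
    calc r * ‖v‖ ≤ 1 * 1 := mul_le_mul hr1 hv1 (norm_nonneg _) zero_le_one
      _ = 1 := one_mul 1
  have hρ0 : 0 ≤ rho ξ x := rho_nonneg _ _
  have hρu : rho ξ x = ‖1 - u‖ := by
    rw [rho_comm]; rfl
  set X : ℝ := 1 + N * rho ξ x with hX
  have hX1 : 1 ≤ X := by
    have : 0 ≤ N * rho ξ x := by positivity
    linarith
  set s : ℝ := Real.sqrt (N * rho x y) with hs
  have hs0 : 0 ≤ s := Real.sqrt_nonneg _
  have hs2 : s ^ 2 = N * rho x y := Real.sq_sqrt (mul_nonneg hNp.le (rho_nonneg _ _))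
  have hs1 : s ≤ 1 := by
    rw [hs, Real.sqrt_le_iff]
    constructor
    · norm_num
    · simpa using hxy
  set q : ℝ := Real.sqrt X with hq
  have hq2 : q ^ 2 = X := Real.sq_sqrt (by linarith)
  have hq1 : 1 ≤ q := by
    rw [hq, Real.one_le_sqrt]
    exact hX1
  -- |u - v|
  have huv : N * ‖(r : ℂ) * u - (r : ℂ) * v‖ ≤ 3 * s * q := by
    have h1 : ‖(r : ℂ) * u - (r : ℂ) * v‖ ≤ ‖u - v‖ := by
      rw [← mul_sub, norm_mul, Complex.norm_real, Real.norm_eq_abs, abs_of_nonneg hr0]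
      calc r * ‖u - v‖ ≤ 1 * ‖u - v‖ := mul_le_mul_of_nonneg_right hr1 (norm_nonneg _)
        _ = _ := one_mul _
    have h2 := B05_geom hx hy hξ
    have h3 : N * (Real.sqrt (rho x y) * Real.sqrt (rho ξ x)) = s * Real.sqrt (N * rho ξ x) := by
      rw [hs, Real.sqrt_mul hNp.le, Real.sqrt_mul hNp.le]
      have : Real.sqrt N * Real.sqrt N = N := Real.mul_self_sqrt hNp.le
      calc _ = (Real.sqrt N * Real.sqrt N) * (Real.sqrt (rho x y) * Real.sqrt (rho ξ x)) := by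
            rw [this]
        _ = _ := by ring
    have h4 : Real.sqrt (N * rho ξ x) ≤ q := by
      rw [hq]
      apply Real.sqrt_le_sqrt
      linarith
    have h5 : N * ‖u - v‖ ≤ s ^ 2 + 2 * (s * Real.sqrt (N * rho ξ x)) := by
      calc N * ‖u - v‖ ≤ N * (rho x y + 2 * (Real.sqrt (rho x y) * Real.sqrt (rho ξ x))) :=
            mul_le_mul_of_nonneg_left h2 hNp.le
        _ = N * rho x y + 2 * (N * (Real.sqrt (rho x y) * Real.sqrt (rho ξ x))) := by ring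
        _ = _ := by rw [h3, hs2]
    have h6 : s * Real.sqrt (N * rho ξ x) ≤ s * q := mul_le_mul_of_nonneg_left h4 hs0
    have h7 : s ^ 2 ≤ s * q := by nlinarith
    calc N * ‖(r : ℂ) * u - (r : ℂ) * v‖ ≤ N * ‖u - v‖ := mul_le_mul_of_nonneg_left h1 hNp.le
      _ ≤ _ := by linarith
  -- |1 - r u|
  have h1ru : X - 1 ≤ 2 * (N * ‖1 - (r : ℂ) * u‖) := by
    have h1 : ‖1 - u‖ ≤ 2 * ‖1 - (r : ℂ) * u‖ := by
      have h2 : ‖1 - u‖ ≤ ‖1 - (r : ℂ) * u‖ + (1 - r) := by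
        have e1 : 1 - u = (1 - (r : ℂ) * u) - ((1 - r : ℝ) : ℂ) * u := by push_cast; ring
        rw [e1]
        refine (norm_sub_le _ _).trans ?_
        have : ‖((1 - r : ℝ) : ℂ) * u‖ ≤ 1 - r := by
          rw [norm_mul, Complex.norm_real, Real.norm_eq_abs, abs_of_nonneg (by linarith)]
          calc (1 - r) * ‖u‖ ≤ (1 - r) * 1 := mul_le_mul_of_nonneg_left hu1 (by linarith)
            _ = _ := mul_one _
        linarith
      have h3 : 1 - r ≤ ‖1 - (r : ℂ) * u‖ := by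
        have := norm_sub_norm_le (1 : ℂ) ((r : ℂ) * u)
        rw [norm_one, norm_mul, Complex.norm_real, Real.norm_eq_abs, abs_of_nonneg hr0] at this
        have h4 : r * ‖u‖ ≤ r * 1 := mul_le_mul_of_nonneg_left hu1 hr0
        linarith
      linarith
    have h2 : X - 1 = N * ‖1 - u‖ := by rw [hX, hρu]; ring
    rw [h2]
    nlinarith
  -- on the segment
  have hseg : ∀ w ∈ segment ℝ ((r : ℂ) * v) ((r : ℂ) * u),
      ‖w‖ ≤ 1 ∧ X / 144 ≤ 1 + N * ‖1 - w‖ := by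
    intro w hw
    have hw1 : ‖w‖ ≤ 1 := by
      have hc : Convex ℝ (Metric.closedBall (0 : ℂ) 1) := convex_closedBall _ _
      have := hc.segment_subset (mem_closedBall_zero_iff.2 hrv) (mem_closedBall_zero_iff.2 hru) hw
      exact mem_closedBall_zero_iff.1 this
    refine ⟨hw1, ?_⟩
    have hd : ‖(r : ℂ) * u - w‖ ≤ ‖(r : ℂ) * u - (r : ℂ) * v‖ := by
      obtain ⟨α, γ, hα, hγ, hαγ, rfl⟩ := hw
      have e1 : (r : ℂ) * u - (α • ((r : ℂ) * v) + γ • ((r : ℂ) * u)) =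
          α • ((r : ℂ) * u - (r : ℂ) * v) := by
        have hγ' : γ = 1 - α := by linarith
        have : (γ : ℂ) = 1 - (α : ℂ) := by
          rw [hγ']; push_cast; ring
        simp only [Complex.real_smul]
        rw [this]
        ring
      rw [e1, norm_smul, Real.norm_eq_abs, abs_of_nonneg hα]
      have : α ≤ 1 := by linarith
      calc α * ‖(r : ℂ) * u - (r : ℂ) * v‖ ≤ 1 * ‖(r : ℂ) * u - (r : ℂ) * v‖ :=
            mul_le_mul_of_nonneg_right this (norm_nonneg _)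
        _ = _ := one_mul _
    have h1 : ‖1 - (r : ℂ) * u‖ ≤ ‖1 - w‖ + ‖(r : ℂ) * u - w‖ := by
      have e1 : 1 - (r : ℂ) * u = (1 - w) - ((r : ℂ) * u - w) := by ring
      rw [e1]
      exact norm_sub_le _ _
    have h2 : N * ‖1 - (r : ℂ) * u‖ ≤ N * ‖1 - w‖ + 3 * s * q := by
      have := mul_le_mul_of_nonneg_left h1 hNp.le
      have h3 := mul_le_mul_of_nonneg_left hd hNp.le
      linarith
    have h3 : 3 * s * q ≤ 3 * q := by nlinarith
    have h4 : 0 ≤ N * ‖1 - w‖ := by positivity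
    have h5 : (X - 1) / 2 ≤ N * ‖1 - w‖ + 3 * q := by linarith
    rcases le_or_gt 12 q with h12 | h12
    · have : 3 * q ≤ X / 4 := by rw [← hq2]; nlinarith
      linarith
    · have : X ≤ 144 := by rw [← hq2]; nlinarith
      linarith
  have hGb : ∀ w ∈ segment ℝ ((r : ℂ) * v) ((r : ℂ) * u),
      ‖deriv (B05_F n β N) w‖ ≤ D * N ^ (n + 1) * (144 ^ M * (X ^ M)⁻¹) := by
    intro w hw
    obtain ⟨h1, h2⟩ := hseg w hw
    rw [(B05_hasDeriv n β b N hNp hβ.hi w).deriv]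
    refine (hb N hN w h1).trans ?_
    apply mul_le_mul_of_nonneg_left _ (by positivity)
    have h3 : (X / 144) ^ M ≤ (1 + N * ‖1 - w‖) ^ M := pow_le_pow_left₀ (by positivity) h2 M
    have h4 := inv_anti₀ (by positivity) h3
    refine h4.trans (le_of_eq ?_)
    rw [div_pow, inv_div, div_eq_mul_inv]
  have hmv := Convex.norm_image_sub_le_of_norm_deriv_le (f := B05_F n β N)
    (C := D * N ^ (n + 1) * (144 ^ M * (X ^ M)⁻¹))
    (s := segment ℝ ((r : ℂ) * v) ((r : ℂ) * u)) (x := (r : ℂ) * v) (y := (r : ℂ) * u)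
    (fun w _ => (B05_hasDeriv n β b N hNp hβ.hi w).differentiableAt) hGb
    (convex_segment _ _) (left_mem_segment ℝ _ _) (right_mem_segment ℝ _ _)
  refine hmv.trans ?_
  have hNn : N ^ (n : ℝ) = N ^ n := Real.rpow_natCast N n
  rw [hNn]
  have hXK : q * (X ^ M)⁻¹ ≤ X ^ (-K) := by
    have e1 : q = X ^ (1 / 2 : ℝ) := by rw [hq, Real.sqrt_eq_rpow]
    have e2 : (X ^ M)⁻¹ = X ^ (-(M : ℝ)) := by
      rw [Real.rpow_neg (by linarith), Real.rpow_natCast]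
    rw [e1, e2, ← Real.rpow_add (by linarith)]
    apply Real.rpow_le_rpow_of_exponent_le hX1
    have : K ≤ (⌈K⌉₊ : ℝ) := Nat.le_ceil K
    rw [hM]
    push_cast
    linarith
  have hXM : 0 ≤ (X ^ M)⁻¹ := by positivity
  calc D * N ^ (n + 1) * (144 ^ M * (X ^ M)⁻¹) * ‖(r : ℂ) * u - (r : ℂ) * v‖
      = D * N ^ n * 144 ^ M * (X ^ M)⁻¹ * (N * ‖(r : ℂ) * u - (r : ℂ) * v‖) := by
        rw [pow_succ]; ring
    _ ≤ D * N ^ n * 144 ^ M * (X ^ M)⁻¹ * (3 * s * q) := by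
        apply mul_le_mul_of_nonneg_left huv (by positivity)
    _ = 3 * 144 ^ M * D * s * N ^ n * (q * (X ^ M)⁻¹) := by ring
    _ ≤ 3 * 144 ^ M * D * s * N ^ n * X ^ (-K) := by
        apply mul_le_mul_of_nonneg_left hXK (by positivity)

end Pool.Agent.HpBall2
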