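import Mathlib
import Pool.Agent.HpBall2.Defs
import Pool.Agent.HpBall.Geom
import Pool.Agent.HpBall.Sphere
import Pool.Agent.HpBall.Synth1
import Pool.Agent.HpBall2.Bands
import Pool.Agent.HpBall2.KkDecay
import Pool.Agent.HpBall2.KkDiff

set_option autoImplicit false

open MeasureTheory Complex
open scoped ENNReal NNReal

namespace Pool.Agent.HpBall2

open Pool.Agent.HpBall

/-- integrability of continuous functions on the sphere -/
theorem B15_int {G : Type} [NormedAddCommGroup G] {n : ℕ} (hn : 1 ≤ n) (F : E n → G)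
    (hF : Continuous F) [SecondCountableTopology G] : Integrable F (sig n) := by
  obtain ⟨M, hM⟩ := (isCompact_sphere (0 : E n) 1).exists_bound_of_continuousOn hF.continuousOn
  refine Integrable.of_bound hF.aestronglyMeasurable M ?_
  filter_upwards [sig_ae_norm hn] with ξ hξ
  exact hM ξ (by rw [mem_sphere_zero_iff_norm]; exact hξ)

theorem B15_gamma {a b : ℝ} (ha : 0 < a) (hab : a < b) : ∃ γ : ℝ → ℝ, Bump γ (a / 2) (2 * b) ∧
    ∀ x, a ≤ x → x ≤ b → γ x = 1 := by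
  let f : ContDiffBump ((a + b) / 2) := ⟨(b - a) / 2, (b - a) / 2 + a / 2, by linarith, by linarith⟩
  refine ⟨f, ⟨by linarith, by linarith, f.contDiff, ?_, ?_⟩, ?_⟩
  · intro x hx
    apply f.zero_of_le_dist
    show (b - a) / 2 + a / 2 ≤ dist x ((a + b) / 2)
    rw [Real.dist_eq, abs_sub_comm]
    refine le_trans ?_ (le_abs_self _)
    linarith
  · intro x hx
    apply f.zero_of_le_dist
    show (b - a) / 2 + a / 2 ≤ dist x ((a + b) / 2)
    rw [Real.dist_eq]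
    refine le_trans ?_ (le_abs_self _)
    linarith
  · intro x hx1 hx2
    apply f.one_of_mem_closedBall
    rw [Metric.mem_closedBall, Real.dist_eq, abs_le]
    show -((b - a) / 2) ≤ _ ∧ _ ≤ (b - a) / 2
    constructor <;> linarith

theorem B15_mul {β γ : ℝ → ℝ} {a b : ℝ} (hβ : Bump β a b)
    (hγ : ∀ x, a ≤ x → x ≤ b → γ x = 1) : (fun t => β t * γ t) = β := by
  funext t
  rcases le_total t a with h | h
  · rw [hβ.lo t h, zero_mul]
  · rcases le_total b t with h' | h'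
    · rw [hβ.hi t h', zero_mul]
    · rw [hγ t h h', mul_one]

theorem B15_conj (n : ℕ) (γ : ℝ → ℝ) (N : ℝ) (x y : E n) :
    kk n γ N x y = (starRingEnd ℂ) (kk n γ N y x) := by
  unfold kk
  rw [Complex.conj_tsum]
  apply tsum_congr
  intro k
  rw [map_mul, map_pow, Complex.conj_ofReal, inner_conj_symm]

theorem B15_pow {s t c K : ℝ} (hs : 0 < s) (ht : 0 < t) (hc : 0 < c) (hK : 0 ≤ K)
    (h : s ≤ c * t) : t ^ (-K) ≤ c ^ K * s ^ (-K) := by
  rw [Real.rpow_neg ht.le, Real.rpow_neg hs.le, ← div_eq_mul_inv, inv_eq_one_div,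
    div_le_div_iff₀ (by positivity) (by positivity), one_mul, ← Real.mul_rpow hc.le ht.le]
  exact Real.rpow_le_rpow hs.le h hK

theorem B15_geom {n : ℕ} {N C₀ : ℝ} (hN : 0 ≤ N) {ζ x z : E n} (hζ : ‖ζ‖ = 1) (hx : ‖x‖ = 1)
    (hz : ‖z‖ = 1) (h : N * rho z x ≤ C₀) (K : ℝ) (hK : 0 ≤ K) :
    (1 + N * rho ζ x) ^ (-K) ≤ (2 * (1 + |C₀|)) ^ K * (1 + N * rho ζ z) ^ (-K) := by
  have h1 := one_add_rho_mul (x := ζ) (y := x) (z := z) hζ.le hx hz.le hN
  have h2 := rho_nonneg ζ x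
  have h3 := rho_nonneg ζ z
  have h4 : N * rho x z ≤ |C₀| := by
    rw [rho_comm]
    exact h.trans (le_abs_self _)
  apply B15_pow (by positivity) (by positivity) (by positivity) hK
  calc 1 + N * rho ζ z ≤ 2 * (1 + N * rho ζ x) * (1 + N * rho x z) := h1
    _ ≤ 2 * (1 + N * rho ζ x) * (1 + |C₀|) := by
        apply mul_le_mul_of_nonneg_left _ (by positivity)
        linarith
    _ = 2 * (1 + |C₀|) * (1 + N * rho ζ x) := by ring

theorem B15_wcont {n : ℕ} {N : ℝ} (hN : 0 ≤ N) (x : E n) (K : ℝ) :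
    Continuous (fun ζ : E n => (1 + N * rho ζ x) ^ (-K)) := by
  refine Continuous.rpow_const ?_ ?_
  · exact continuous_const.add (continuous_const.mul (meas_rho n x))
  · intro ζ
    left
    have := rho_nonneg ζ x
    positivity

/-- TARGET -/
theorem gav_point (n : ℕ) (hn : 1 ≤ n) (β : ℝ → ℝ) (a b : ℝ) (hβ : Bump β a b) (K : ℝ) (hK : 0 ≤ K)
    (N₀ : ℝ) (hN₀ : 0 < N₀) (C₀ : ℝ) : ∃ D : ℝ, 0 < D ∧ ∀ N : ℝ, N₀ ≤ N → ∀ g : E n → ℂ,
    DifferentiableOn ℂ g (Metric.ball 0 1) → ∀ x y : E n, ‖x‖ = 1 → ‖y‖ = 1 → N * rho x y ≤ C₀ →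
      ‖cut β N g y‖ ≤ D * gav n β N K g x := by
  obtain ⟨γ, hγ, hγ1⟩ := B15_gamma hβ.apos hβ.ab
  obtain ⟨B, hB, hdec⟩ := kk_decay n hn γ _ _ hγ K hK N₀ hN₀
  refine ⟨B * (2 * (1 + |C₀|)) ^ K, by positivity, ?_⟩
  intro N hN g hg x y hx hy hxy
  have hN0 : 0 < N := lt_of_lt_of_le hN₀ hN
  have hconv := cut_conv n hn β γ a b _ _ hβ hγ N hN0 g hg y
  rw [B15_mul hβ hγ1] at hconv
  have hcc := cut_cont n β a b hβ N hN0 g hg
  have hmaj : ∀ᵐ ζ ∂(sig n), ‖cut β N g ζ * kk n γ N ζ y‖ ≤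
      B * (2 * (1 + |C₀|)) ^ K * N ^ (n : ℝ) * (‖cut β N g ζ‖ * (1 + N * rho ζ x) ^ (-K)) := by
    filter_upwards [sig_ae_norm hn] with ζ hζ
    have h1 := hdec N hN y ζ hy hζ 1 zero_le_one le_rfl
    rw [Complex.ofReal_one, one_smul] at h1
    have h2 := B15_geom hN0.le hζ hy hx hxy K hK
    rw [norm_mul, B15_conj, RCLike.norm_conj]
    calc ‖cut β N g ζ‖ * ‖kk n γ N y ζ‖
        ≤ ‖cut β N g ζ‖ * (B * N ^ (n : ℝ) * ((2 * (1 + |C₀|)) ^ K * (1 + N * rho ζ x) ^ (-K))) := by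
          apply mul_le_mul_of_nonneg_left _ (norm_nonneg _)
          exact h1.trans (mul_le_mul_of_nonneg_left h2 (by positivity))
      _ = _ := by ring
  have hint : Integrable (fun ζ => B * (2 * (1 + |C₀|)) ^ K * N ^ (n : ℝ) *
      (‖cut β N g ζ‖ * (1 + N * rho ζ x) ^ (-K))) (sig n) :=
    B15_int hn _ (continuous_const.mul (hcc.norm.mul (B15_wcont hN0.le x K)))
  rw [hconv]
  refine (norm_integral_le_of_norm_le hint hmaj).trans (le_of_eq ?_)
  rw [integral_const_mul]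
  unfold gav
  ring

/-- TARGET -/
theorem gav_diff (n : ℕ) (hn : 1 ≤ n) (β : ℝ → ℝ) (a b : ℝ) (hβ : Bump β a b) (K : ℝ) (hK : 0 ≤ K)
    (N₀ : ℝ) (hN₀ : 0 < N₀) (C₀ : ℝ) : ∃ D : ℝ, 0 < D ∧ ∀ N : ℝ, N₀ ≤ N → ∀ g : E n → ℂ,
    DifferentiableOn ℂ g (Metric.ball 0 1) → ∀ z x y : E n, ‖z‖ = 1 → ‖x‖ = 1 → ‖y‖ = 1 →
      N * rho z x ≤ C₀ → N * rho x y ≤ 1 →
      ‖cut β N g x - cut β N g y‖ ≤ D * Real.sqrt (N * rho x y) * gav n β N K g z := by
  obtain ⟨γ, hγ, hγ1⟩ := B15_gamma hβ.apos hβ.ab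
  obtain ⟨B, hB, hdec⟩ := kk_diff n hn γ _ _ hγ K hK N₀ hN₀
  have hD : 0 < B * (2 * (1 + |C₀|)) ^ K := by positivity
  use B * (2 * (1 + |C₀|)) ^ K
  constructor
  · exact hD
  intro N hN g hg z x y hz hx hy hzx hxy
  have hN0 : 0 < N := lt_of_lt_of_le hN₀ hN
  have hconvx := cut_conv n hn β γ a b _ _ hβ hγ N hN0 g hg x
  have hconvy := cut_conv n hn β γ a b _ _ hβ hγ N hN0 g hg y
  rw [B15_mul hβ hγ1] at hconvx hconvy
  have hcc := cut_cont n β a b hβ N hN0 g hg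
  have hkc := kk_cont n γ _ _ hγ N hN0
  have hkx : ∀ w : E n, Continuous (fun ζ => kk n γ N ζ w) := by
    intro w
    have h1 : Continuous (fun ζ : E n => (ζ, w)) := continuous_id.prodMk continuous_const
    have h2 := hkc.comp h1
    exact h2
  have hix : ∀ w : E n, Integrable (fun ζ => cut β N g ζ * kk n γ N ζ w) (sig n) := by
    intro w
    have h1 : Continuous (fun ζ => cut β N g ζ * kk n γ N ζ w) := hcc.mul (hkx w)
    exact B15_int hn _ h1
  obtain ⟨q, hq⟩ : ∃ q : ℝ, q = Real.sqrt (N * rho x y) := ⟨_, rfl⟩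
  have hq0 : 0 ≤ q := by
    rw [hq]
    exact Real.sqrt_nonneg _
  rw [← hq]
  have hmaj : ∀ᵐ ζ ∂(sig n), ‖cut β N g ζ * kk n γ N ζ x - cut β N g ζ * kk n γ N ζ y‖ ≤
      B * (2 * (1 + |C₀|)) ^ K * q * N ^ (n : ℝ) * (‖cut β N g ζ‖ * (1 + N * rho ζ z) ^ (-K)) := by
    refine (sig_ae_norm hn).mono ?_
    intro ζ hζ
    have h1 := hdec N hN x y ζ hx hy hζ hxy 1 zero_le_one le_rfl
    rw [Complex.ofReal_one, one_smul, ← hq] at h1
    have h2 := B15_geom hN0.le hζ hx hz hzx K hK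
    rw [← mul_sub, norm_mul, B15_conj n γ N ζ x, B15_conj n γ N ζ y, ← map_sub, RCLike.norm_conj]
    calc ‖cut β N g ζ‖ * ‖kk n γ N x ζ - kk n γ N y ζ‖
        ≤ ‖cut β N g ζ‖ * (B * q * N ^ (n : ℝ) *
            ((2 * (1 + |C₀|)) ^ K * (1 + N * rho ζ z) ^ (-K))) := by
          apply mul_le_mul_of_nonneg_left _ (norm_nonneg _)
          exact h1.trans (mul_le_mul_of_nonneg_left h2 (by positivity))
      _ = _ := by ring
  have hint : Integrable (fun ζ => B * (2 * (1 + |C₀|)) ^ K * q * N ^ (n : ℝ) *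
      (‖cut β N g ζ‖ * (1 + N * rho ζ z) ^ (-K))) (sig n) :=
    B15_int hn _ (continuous_const.mul (hcc.norm.mul (B15_wcont hN0.le z K)))
  have hnorm := norm_integral_le_of_norm_le hint hmaj
  have hsub : cut β N g x - cut β N g y =
      ∫ ζ, (cut β N g ζ * kk n γ N ζ x - cut β N g ζ * kk n γ N ζ y) ∂(sig n) := by
    rw [integral_sub (hix x) (hix y), ← hconvx, ← hconvy]
  rw [hsub]
  rw [integral_const_mul] at hnorm
  have hfin : B * (2 * (1 + |C₀|)) ^ K * q * N ^ (n : ℝ) *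
      ∫ ζ, ‖cut β N g ζ‖ * (1 + N * rho ζ z) ^ (-K) ∂(sig n) =
      B * (2 * (1 + |C₀|)) ^ K * q * gav n β N K g z := by
    unfold gav
    ring
  rw [← hfin]
  exact hnorm

end Pool.Agent.HpBall2
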