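import Mathlib
import Pool.Agent.HpBall.Synth
import Pool.Agent.HpBall.Combine

set_option autoImplicit false

open MeasureTheory Complex
open scoped ENNReal NNReal

namespace Pool.Agent.HpBall2

open Pool.Agent.HpBall

theorem synthesis_le_one (n : ℕ) (hn : 1 ≤ n) (p : ℝ) (hp : 0 < p) (hp1 : p ≤ 1) :
    ∃ K : ℝ, (n : ℝ) < K ∧ ∀ (pt : ℕ → ℕ → E n) (c C : ℝ), TreeFam n pt c C → ∀ A : ℝ, 0 < A →
    ∀ (B : ℝ) (D₀ : ℕ), ∃ D : ℝ, 0 < D ∧ ∀ Ψ : ℕ → ℕ → E n → ℂ,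
    (∀ l i, Continuous (Ψ l i)) →
    (∀ l i, i < 2 ^ l → ∀ ξ : E n, ‖ξ‖ = 1 → ∀ r : ℝ, 0 ≤ r → r ≤ 1 →
      ‖Ψ l i ((r : ℂ) • ξ)‖ ≤ B * (1 + A * sc n l * rho ξ (pt l i)) ^ (-K)) →
    (∀ l m i j, l + D₀ ≤ m → ∀ r : ℝ, 0 ≤ r → r ≤ 1 →
      ∫ ξ, Ψ l i ((r : ℂ) • ξ) * (starRingEnd ℂ) (Ψ m j ((r : ℂ) • ξ)) ∂(sig n) = 0) →
    ∀ (x : ℕ → ℕ → ℂ) (L : ℕ) (r : ℝ), 0 ≤ r → r ≤ 1 →
      ∫⁻ ξ, ENNReal.ofReal (‖∑ l ∈ Finset.range L, ∑ i ∈ Finset.range (2 ^ l),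
        x l i * Ψ l i ((r : ℂ) • ξ)‖ ^ p) ∂(sig n) ≤ ENNReal.ofReal (D * fnorm p L x) := by
  have hn0 : (0 : ℝ) < n := by exact_mod_cast hn
  set τ : ℝ := (n + 1) * (2 - p) / p with hτ
  have hτ0 : 0 < τ := by
    have : 0 < 2 - p := by linarith
    positivity
  refine ⟨τ + n + 1, by linarith, ?_⟩
  intro pt c C hT A hA B D₀
  obtain ⟨D1, hD1, hatom⟩ := atom_weighted n hn pt c C hT A hA (τ + n + 1) τ (by linarith) hτ0.le
    (by linarith) B D₀
  obtain ⟨D2, hD2, hker⟩ := kernel_int_A n hn A hA (n + 1) (by linarith)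
  obtain ⟨D3, hD3, hat⟩ := atomic p hp (by linarith)
  set C₀ : ℝ := D1 ^ (p / 2) * D2 ^ ((2 - p) / 2) with hC₀
  have hC₀0 : 0 < C₀ := by positivity
  refine ⟨D3 * C₀, by positivity, ?_⟩
  intro Ψ hΨc hΨ horth x L r hr0 hr1
  set Φ : (ℕ → ℕ → ℂ) → ℝ≥0∞ := fun y => ∫⁻ ξ, ENNReal.ofReal
    (‖∑ l ∈ Finset.range L, ∑ i ∈ Finset.range (2 ^ l), y l i * Ψ l i ((r : ℂ) • ξ)‖ ^ p) ∂(sig n)
    with hΦ
  have hcont : ∀ y : ℕ → ℕ → ℂ, Continuous (fun ξ : E n => ∑ l ∈ Finset.range L,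
      ∑ i ∈ Finset.range (2 ^ l), y l i * Ψ l i ((r : ℂ) • ξ)) := by
    intro y
    refine continuous_finsetSum _ fun l _ => continuous_finsetSum _ fun i _ => ?_
    have := hΨc l i
    fun_prop
  have hΦ0 : Φ 0 = 0 := by
    simp [hΦ, Real.zero_rpow hp.ne']
  have hΦadd : ∀ a b, Φ (a + b) ≤ Φ a + Φ b := by
    intro a b
    rw [hΦ]
    simp only
    rw [← lintegral_add_left]
    swap
    · have := (hcont a).measurable
      fun_prop
    apply lintegral_mono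
    intro ξ
    simp only
    rw [← ENNReal.ofReal_add (by positivity) (by positivity)]
    apply ENNReal.ofReal_le_ofReal
    have e : ∑ l ∈ Finset.range L, ∑ i ∈ Finset.range (2 ^ l), (a + b) l i * Ψ l i ((r : ℂ) • ξ) =
        (∑ l ∈ Finset.range L, ∑ i ∈ Finset.range (2 ^ l), a l i * Ψ l i ((r : ℂ) • ξ)) +
        (∑ l ∈ Finset.range L, ∑ i ∈ Finset.range (2 ^ l), b l i * Ψ l i ((r : ℂ) • ξ)) := by
      rw [← Finset.sum_add_distrib]
      apply Finset.sum_congr rfl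
      intro l _
      rw [← Finset.sum_add_distrib]
      apply Finset.sum_congr rfl
      intro i _
      simp [add_mul]
    rw [e]
    calc ‖_ + _‖ ^ p ≤ (‖∑ l ∈ Finset.range L, ∑ i ∈ Finset.range (2 ^ l),
            a l i * Ψ l i ((r : ℂ) • ξ)‖ + ‖∑ l ∈ Finset.range L, ∑ i ∈ Finset.range (2 ^ l),
            b l i * Ψ l i ((r : ℂ) • ξ)‖) ^ p := by
          apply Real.rpow_le_rpow (norm_nonneg _) (norm_add_le _ _) hp.le
      _ ≤ _ := Real.rpow_add_le_add_rpow (norm_nonneg _) (norm_nonneg _) hp.le hp1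
  have hΦatom : ∀ m j, m < L → j < 2 ^ m → ∀ a : ℕ → ℕ → ℂ,
      (∀ l i, a l i ≠ 0 → m ≤ l ∧ l < L ∧ i / 2 ^ (l - m) = j) →
      Φ a ≤ ENNReal.ofReal (C₀ * (1 / 2 ^ m) * (2 ^ m * ∑ l ∈ Finset.range L,
        (1 / 2 ^ l) * ∑ i ∈ Finset.range (2 ^ l), ‖a l i‖ ^ 2) ^ (p / 2)) := by
    intro m j hmL hj a ha
    set X : ℝ := ∑ l ∈ Finset.range L, (1 / 2 ^ l) * ∑ i ∈ Finset.range (2 ^ l), ‖a l i‖ ^ 2
      with hX
    have hX0 : 0 ≤ X := Finset.sum_nonneg fun l _ => by positivity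
    have h1 := hatom Ψ hΨc hΨ horth L m j hmL hj a ha r hr0 hr1
    set F : E n → ℂ := fun ξ => ∑ l ∈ Finset.range L, ∑ i ∈ Finset.range (2 ^ l),
        a l i * Ψ l i ((r : ℂ) • ξ) with hF
    have hFm : Measurable F := (hcont a).measurable
    have hrm := (meas_rho n (pt m j)).measurable
    set W : E n → ℝ := fun ξ => 1 + A * sc n m * rho ξ (pt m j) with hW
    have hW1 : ∀ ξ, 1 ≤ W ξ := by
      intro ξ
      have := rho_nonneg ξ (pt m j)
      have := (sc_pos n m).le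
      have : 0 ≤ A * sc n m * rho ξ (pt m j) := by positivity
      simp only [hW]
      linarith
    have hWm : Measurable W := by
      rw [hW]
      fun_prop
    have hp2 : 0 < 2 - p := by linarith
    have hconj : (2 / p).HolderConjugate (2 / (2 - p)) := by
      rw [Real.holderConjugate_iff]
      constructor
      · rw [lt_div_iff₀ hp]; linarith
      · field_simp
        ring
    have h2 := ENNReal.lintegral_mul_le_Lp_mul_Lq (sig n) hconj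
      (f := fun ξ => ENNReal.ofReal ((‖F ξ‖ ^ 2 * W ξ ^ τ) ^ (p / 2)))
      (g := fun ξ => ENNReal.ofReal (W ξ ^ (-(τ * p / 2))))
      (by fun_prop) (by fun_prop)
    have h3 : ∀ ξ, ENNReal.ofReal (‖F ξ‖ ^ p) =
        ((fun ξ => ENNReal.ofReal ((‖F ξ‖ ^ 2 * W ξ ^ τ) ^ (p / 2))) *
        (fun ξ => ENNReal.ofReal (W ξ ^ (-(τ * p / 2))))) ξ := by
      intro ξ
      have hW0 : 0 < W ξ := by linarith [hW1 ξ]
      simp only [Pi.mul_apply]
      rw [← ENNReal.ofReal_mul (by positivity)]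
      congr 1
      rw [Real.mul_rpow (by positivity) (by positivity), ← Real.rpow_mul hW0.le, mul_assoc,
        ← Real.rpow_add hW0, ← Real.rpow_natCast, ← Real.rpow_mul (norm_nonneg _)]
      have e1 : ((2:ℕ):ℝ) * (p / 2) = p := by push_cast; ring
      have e2 : τ * (p / 2) + -(τ * p / 2) = 0 := by ring
      rw [e1, e2, Real.rpow_zero, mul_one]
    have h4 : Φ a ≤ (∫⁻ ξ, ENNReal.ofReal ((‖F ξ‖ ^ 2 * W ξ ^ τ) ^ (p / 2)) ^ (2 / p) ∂(sig n)) ^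
        (1 / (2 / p)) * (∫⁻ ξ, ENNReal.ofReal (W ξ ^ (-(τ * p / 2))) ^ (2 / (2 - p)) ∂(sig n)) ^
        (1 / (2 / (2 - p))) := by
      rw [hΦ]
      simp only
      rw [lintegral_congr h3]
      exact h2
    have h5 : ∀ ξ, ENNReal.ofReal ((‖F ξ‖ ^ 2 * W ξ ^ τ) ^ (p / 2)) ^ (2 / p) =
        ENNReal.ofReal (‖F ξ‖ ^ 2 * W ξ ^ τ) := by
      intro ξ
      have hW0 : 0 < W ξ := by linarith [hW1 ξ]
      rw [ENNReal.ofReal_rpow_of_nonneg (by positivity) (by positivity), ← Real.rpow_mul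
        (by positivity)]
      congr 1
      have : p / 2 * (2 / p) = 1 := by field_simp
      rw [this, Real.rpow_one]
    have h6 : ∀ ξ, ENNReal.ofReal (W ξ ^ (-(τ * p / 2))) ^ (2 / (2 - p)) =
        ENNReal.ofReal (W ξ ^ (-((n:ℝ) + 1))) := by
      intro ξ
      have hW0 : 0 < W ξ := by linarith [hW1 ξ]
      rw [ENNReal.ofReal_rpow_of_nonneg (by positivity) (by positivity), ← Real.rpow_mul
        (by positivity)]
      congr 2
      rw [hτ]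
      field_simp
    simp_rw [h5, h6] at h4
    have h7 := hker (pt m j) (hT.unit m j) m
    have h1' : ∫⁻ ξ, ENNReal.ofReal (‖F ξ‖ ^ 2 * W ξ ^ τ) ∂(sig n) ≤ ENNReal.ofReal (D1 * X) := h1
    have e8 : (1 / (2 / p)) = p / 2 := by field_simp
    have e9 : (1 / (2 / (2 - p))) = (2 - p) / 2 := by field_simp
    rw [e8, e9] at h4
    calc Φ a ≤ _ := h4
      _ ≤ (ENNReal.ofReal (D1 * X)) ^ (p / 2) * (ENNReal.ofReal (D2 * (1 / 2 ^ m))) ^
          ((2 - p) / 2) := by gcongr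
      _ = ENNReal.ofReal ((D1 * X) ^ (p / 2) * (D2 * (1 / 2 ^ m)) ^ ((2 - p) / 2)) := by
          rw [ENNReal.ofReal_rpow_of_nonneg (by positivity) (by positivity),
            ENNReal.ofReal_rpow_of_nonneg (by positivity) (by positivity),
            ← ENNReal.ofReal_mul (by positivity)]
      _ = _ := by
          congr 1
          rw [hC₀, Real.mul_rpow hD1.le hX0, Real.mul_rpow hD2.le (by positivity),
            Real.mul_rpow (by positivity) hX0]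
          have e10 : ((1:ℝ) / 2 ^ m) ^ ((2 - p) / 2) = (1 / 2 ^ m) * (2 ^ m) ^ (p / 2) := by
            have hz : (0:ℝ) < 2 ^ m := by positivity
            rw [one_div, Real.inv_rpow hz.le, ← Real.rpow_neg hz.le,
              show -((2 - p) / 2) = -1 + p / 2 by ring, Real.rpow_add hz, Real.rpow_neg_one]
          rw [e10]
          ring
  -- truncate x
  set x' : ℕ → ℕ → ℂ := fun l i => if l < L ∧ i < 2 ^ l then x l i else 0 with hx'
  have e1 : Φ x' = Φ x := by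
    rw [hΦ]
    simp only
    apply lintegral_congr
    intro ξ
    congr 3
    apply Finset.sum_congr rfl
    intro l hl
    apply Finset.sum_congr rfl
    intro i hi
    rw [Finset.mem_range] at hl hi
    simp only [hx', hl, hi, and_self, if_true]
  have e2 : fnorm p L x' = fnorm p L x := by
    unfold fnorm
    congr 1
    apply Finset.sum_congr rfl
    intro j hj
    congr 1
    apply Finset.sum_congr rfl
    intro l hl
    rw [Finset.mem_range] at hl hj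
    have : j / 2 ^ (L - l) < 2 ^ l := by
      apply Nat.div_lt_of_lt_mul
      rw [← pow_add]
      have : L - l + l = L := by omega
      rwa [this]
    simp only [hx', hl, this, and_self, if_true]
  have h := hat L Φ C₀ hC₀0.le hΦ0 hΦadd hΦatom x' (by
    intro l i hli
    by_contra hne
    apply hli
    simp only [hx', hne, if_false])
  rw [e1, e2] at h
  exact h



theorem synthesis_two (n : ℕ) (hn : 1 ≤ n) (K : ℝ) (hK : (n : ℝ) < K)
    (pt : ℕ → ℕ → E n) (c C : ℝ) (hT : TreeFam n pt c C) (A : ℝ) (hA : 0 < A)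
    (B : ℝ) (D₀ : ℕ) : ∃ D : ℝ, 0 < D ∧ ∀ Ψ : ℕ → ℕ → E n → ℂ,
    (∀ l i, Continuous (Ψ l i)) →
    (∀ l i, i < 2 ^ l → ∀ ξ : E n, ‖ξ‖ = 1 → ∀ r : ℝ, 0 ≤ r → r ≤ 1 →
      ‖Ψ l i ((r : ℂ) • ξ)‖ ≤ B * (1 + A * sc n l * rho ξ (pt l i)) ^ (-K)) →
    (∀ l m i j, l + D₀ ≤ m → ∀ r : ℝ, 0 ≤ r → r ≤ 1 →
      ∫ ξ, Ψ l i ((r : ℂ) • ξ) * (starRingEnd ℂ) (Ψ m j ((r : ℂ) • ξ)) ∂(sig n) = 0) →
    ∀ (x : ℕ → ℕ → ℂ) (L : ℕ) (r : ℝ), 0 ≤ r → r ≤ 1 →
      ∫⁻ ξ, ENNReal.ofReal (‖∑ l ∈ Finset.range L, ∑ i ∈ Finset.range (2 ^ l),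
        x l i * Ψ l i ((r : ℂ) • ξ)‖ ^ (2 : ℝ)) ∂(sig n) ≤ ENNReal.ofReal (D * fnorm 2 L x) := by
  obtain ⟨D2, hD2, hl2⟩ := level_l2 n hn pt c C hT A hA K hK B
  refine ⟨(2 * D₀ + 1) * D2, by positivity, ?_⟩
  intro Ψ hΨc hΨ horth x L r hr0 hr1
  have hfn : fnorm 2 L x = ∑ l ∈ Finset.range L, (1 / 2 ^ l) * ∑ i ∈ Finset.range (2 ^ l), ‖x l i‖ ^ 2 := by
    unfold fnorm
    have e1 : ∀ j, (∑ l ∈ Finset.range L, ‖x l (j / 2 ^ (L - l))‖ ^ 2) ^ ((2 : ℝ) / 2) =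
        ∑ l ∈ Finset.range L, ‖x l (j / 2 ^ (L - l))‖ ^ 2 := by
      intro j
      rw [div_self (by norm_num), Real.rpow_one]
    simp_rw [e1]
    rw [Finset.sum_comm, Finset.mul_sum]
    apply Finset.sum_congr rfl
    intro l hl
    rw [Finset.mem_range] at hl
    exact J17b_mean (fun i => ‖x l i‖ ^ 2) L l hl.le
  rw [hfn]
  set X : ℝ := ∑ l ∈ Finset.range L, (1 / 2 ^ l) * ∑ i ∈ Finset.range (2 ^ l), ‖x l i‖ ^ 2 with hX
  have hX0 : 0 ≤ X := Finset.sum_nonneg fun l _ => by positivity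
  have h1 := quasi_orth hn (fun l ξ => ∑ i ∈ Finset.range (2 ^ l), x l i * Ψ l i ((r : ℂ) • ξ))
      (fun l => by
        refine continuous_finsetSum _ fun i _ => ?_
        have := hΨc l i
        fun_prop) D₀ (fun l m' hlm => by
        have e1 : ∀ ξ : E n, (∑ i ∈ Finset.range (2 ^ l), x l i * Ψ l i ((r : ℂ) • ξ)) *
            (starRingEnd ℂ) (∑ i ∈ Finset.range (2 ^ m'), x m' i * Ψ m' i ((r : ℂ) • ξ)) =
            ∑ i ∈ Finset.range (2 ^ l), ∑ i' ∈ Finset.range (2 ^ m'),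
              (x l i * (starRingEnd ℂ) (x m' i')) * (Ψ l i ((r : ℂ) • ξ) *
                (starRingEnd ℂ) (Ψ m' i' ((r : ℂ) • ξ))) := by
          intro ξ
          rw [map_sum, Finset.sum_mul_sum]
          apply Finset.sum_congr rfl
          intro i _
          apply Finset.sum_congr rfl
          intro i' _
          rw [map_mul]
          ring
        simp_rw [e1]
        have hint : ∀ i i', Integrable (fun ξ => (x l i * (starRingEnd ℂ) (x m' i')) *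
            (Ψ l i ((r : ℂ) • ξ) * (starRingEnd ℂ) (Ψ m' i' ((r : ℂ) • ξ)))) (sig n) := by
          intro i i'
          apply integrable_sig_of_continuous hn
          have := hΨc l i
          have := hΨc m' i'
          fun_prop
        rw [integral_finsetSum _ fun i _ => integrable_finsetSum _ fun i' _ => hint i i']
        apply Finset.sum_eq_zero
        intro i _
        rw [integral_finsetSum _ fun i' _ => hint i i']
        apply Finset.sum_eq_zero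
        intro i' _
        rw [integral_const_mul, horth l m' i i' hlm r hr0 hr1, mul_zero]) L
  simp only [Real.rpow_two]
  refine h1.trans ?_
  have h2 : ∑ l ∈ Finset.range L, ∫⁻ ξ, ENNReal.ofReal
      (‖∑ i ∈ Finset.range (2 ^ l), x l i * Ψ l i ((r : ℂ) • ξ)‖ ^ 2) ∂(sig n) ≤
      ENNReal.ofReal (D2 * X) := by
    calc _ ≤ ∑ l ∈ Finset.range L, ENNReal.ofReal (D2 * ((1 / 2 ^ l) *
          ∑ i ∈ Finset.range (2 ^ l), ‖x l i‖ ^ 2)) :=
          Finset.sum_le_sum fun l _ => hl2 Ψ hΨ (x l) l r hr0 hr1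
      _ = ENNReal.ofReal (D2 * X) := by
          rw [← ENNReal.ofReal_sum_of_nonneg (fun l _ => by positivity), hX, Finset.mul_sum]
  calc ENNReal.ofReal (2 * D₀ + 1) * _ ≤ ENNReal.ofReal (2 * D₀ + 1) * ENNReal.ofReal (D2 * X) := by
        gcongr
    _ = _ := by
        rw [← ENNReal.ofReal_mul (by positivity)]
        congr 1
        ring

/-- synthesis, all exponents -/
theorem synth (n : ℕ) (hn : 1 ≤ n) (p : ℝ) (hp : 0 < p) (hp1 : p ≤ 1 ∨ p = 2) :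
    ∃ K₀ : ℝ, (n : ℝ) < K₀ ∧ ∀ K : ℝ, K₀ ≤ K →
    ∀ (pt : ℕ → ℕ → E n) (c C : ℝ), TreeFam n pt c C → ∀ A : ℝ, 0 < A →
    ∀ (B : ℝ) (D₀ : ℕ), ∃ D : ℝ, 0 < D ∧ ∀ Ψ : ℕ → ℕ → E n → ℂ,
    (∀ l i, Continuous (Ψ l i)) →
    (∀ l i, i < 2 ^ l → ∀ ξ : E n, ‖ξ‖ = 1 → ∀ r : ℝ, 0 ≤ r → r ≤ 1 →
      ‖Ψ l i ((r : ℂ) • ξ)‖ ≤ B * (1 + A * sc n l * rho ξ (pt l i)) ^ (-K)) →
    (∀ l m i j, l + D₀ ≤ m → ∀ r : ℝ, 0 ≤ r → r ≤ 1 →
      ∫ ξ, Ψ l i ((r : ℂ) • ξ) * (starRingEnd ℂ) (Ψ m j ((r : ℂ) • ξ)) ∂(sig n) = 0) →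
    ∀ (x : ℕ → ℕ → ℂ) (L : ℕ) (r : ℝ), 0 ≤ r → r ≤ 1 →
      ∫⁻ ξ, ENNReal.ofReal (‖∑ l ∈ Finset.range L, ∑ i ∈ Finset.range (2 ^ l),
        x l i * Ψ l i ((r : ℂ) • ξ)‖ ^ p) ∂(sig n) ≤ ENNReal.ofReal (D * fnorm p L x) := by
  have hn0 : (0 : ℝ) < n := by exact_mod_cast hn
  rcases hp1 with hp1 | hp1
  · obtain ⟨K, hK, h⟩ := synthesis_le_one n hn p hp hp1
    refine ⟨K, hK, ?_⟩
    intro K' hK' pt c C hT A hA B D₀
    obtain ⟨D, hD, h2⟩ := h pt c C hT A hA |B| D₀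
    refine ⟨D, hD, fun Ψ h3 h4 h5 x L r hr0 hr1 => h2 Ψ h3 ?_ h5 x L r hr0 hr1⟩
    intro l i hi ξ hξ r hr0 hr1
    refine (h4 l i hi ξ hξ r hr0 hr1).trans ?_
    have hr := rho_nonneg ξ (pt l i)
    have hs := (sc_pos n l).le
    have h0 : 0 ≤ A * sc n l * rho ξ (pt l i) := by positivity
    calc B * (1 + A * sc n l * rho ξ (pt l i)) ^ (-K') ≤
        |B| * (1 + A * sc n l * rho ξ (pt l i)) ^ (-K') := by
          apply mul_le_mul_of_nonneg_right (le_abs_self B) (by positivity)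
      _ ≤ _ := by
          apply mul_le_mul_of_nonneg_left _ (abs_nonneg B)
          apply Real.rpow_le_rpow_of_exponent_le (by linarith) (by linarith)
  · subst hp1
    refine ⟨n + 1, by linarith, ?_⟩
    intro K' hK' pt c C hT A hA B D₀
    exact synthesis_two n hn K' (by linarith) pt c C hT A hA B D₀

end Pool.Agent.HpBall2
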