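import Mathlib
import Pool.Agent.HpBall2.Defs
import Pool.Agent.HpBall.Geom
import Pool.Agent.HpBall.Sphere
import Pool.Agent.HpBall2.Synth
import Pool.Agent.HpBall.Caps
import Pool.Agent.HpBall.Synth1
import Pool.Agent.HpBall.Molecules
import Pool.Agent.HpBall2.KkDecay
import Pool.Agent.HpBall2.KkDiff
import Pool.Agent.HpBall2.AnaGav
import Pool.Agent.HpBall2.GavPt
import Pool.Agent.HpBall2.Bands

set_option autoImplicit false

open MeasureTheory Complex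
open scoped ENNReal NNReal

namespace Pool.Agent.HpBall2

open Pool.Agent.HpBall

lemma B17_sc_add (n l m : ℕ) : sc n (l + m) = sc n l * sc n m := by
  unfold sc
  rw [← Real.rpow_add (by norm_num)]
  congr 1
  push_cast
  ring

lemma B17_sc_large (n : ℕ) (hn : 1 ≤ n) (T : ℝ) : ∃ m₀ : ℕ, ∀ m : ℕ, m₀ ≤ m → T ≤ sc n m := by
  have hn0 : (0 : ℝ) < n := by exact_mod_cast hn
  have h1 : Filter.Tendsto (fun m : ℕ => (m : ℝ) / (n : ℝ)) Filter.atTop Filter.atTop :=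
    Filter.Tendsto.atTop_div_const hn0 tendsto_natCast_atTop_atTop
  have h2 : Filter.Tendsto (fun m : ℕ => sc n m) Filter.atTop Filter.atTop :=
    (tendsto_rpow_atTop_of_base_gt_one 2 (by norm_num)).comp h1
  obtain ⟨m₀, hm₀⟩ := Filter.eventually_atTop.mp (h2.eventually_ge_atTop T)
  exact ⟨m₀, hm₀⟩

lemma B17_gav_nonneg (n : ℕ) (β : ℝ → ℝ) (N K : ℝ) (hN : 0 ≤ N) (g : E n → ℂ) (x : E n) :
    0 ≤ gav n β N K g x := by
  unfold gav
  apply mul_nonneg (by positivity)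
  apply integral_nonneg
  intro ξ
  have := rho_nonneg ξ x
  simp only [Pi.zero_apply]
  positivity

lemma B17_pt (n : ℕ) (hn : 1 ≤ n) (β : ℝ → ℝ) (a b : ℝ) (hβ : Bump β a b) (K : ℝ) (hK : 0 ≤ K)
    (A : ℝ) (hA : 0 < A) (C₀ : ℝ) (hC₀ : 0 ≤ C₀) :
    ∃ B : ℝ, 0 < B ∧ ∀ N : ℝ, A ≤ N → ∀ g : E n → ℂ, DifferentiableOn ℂ g (Metric.ball 0 1) →
    ∀ z x ζ ξ : E n, ‖z‖ = 1 → ‖x‖ = 1 → ‖ζ‖ = 1 → ‖ξ‖ = 1 → N * rho z x ≤ C₀ →
    N * rho z ζ ≤ C₀ → N * rho x ζ ≤ 1 → ∀ r : ℝ, 0 ≤ r → r ≤ 1 →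
    ‖cut β N g ζ * kk n β N ζ ((r : ℂ) • ξ) - cut β N g x * kk n β N x ((r : ℂ) • ξ)‖ ≤
      B * Real.sqrt (N * rho x ζ) * gav n β N K g z * N ^ (n : ℝ) *
        (1 + N * rho ξ z) ^ (-K) := by
  obtain ⟨D1, hD1, h1⟩ := gav_diff n hn β a b hβ K hK A hA C₀
  obtain ⟨D2, hD2, h2⟩ := gav_point n hn β a b hβ K hK A hA C₀
  obtain ⟨B1, hB1, h3⟩ := kk_decay n hn β a b hβ K hK A hA
  obtain ⟨B2, hB2, h4⟩ := kk_diff n hn β a b hβ K hK A hA
  refine ⟨(D1 * B1 + D2 * B2) * (2 * (1 + C₀)) ^ K, by positivity, ?_⟩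
  intro N hN g hg z x ζ ξ hz hx hζ hξ hzx hzζ hxζ r hr0 hr1
  have hN0 : 0 < N := lt_of_lt_of_le hA hN
  have hG := B17_gav_nonneg n β N K hN0.le g z
  have hρ := rho_nonneg x ζ
  have hρ2 := rho_nonneg ξ z
  have hρ3 := rho_nonneg ξ x
  have hρ4 := rho_nonneg ξ ζ
  -- weights
  have hw : ∀ y : E n, ‖y‖ = 1 → N * rho z y ≤ C₀ →
      (1 + N * rho ξ y) ^ (-K) ≤ (2 * (1 + C₀)) ^ K * (1 + N * rho ξ z) ^ (-K) := by
    intro y hy hzy
    have h5 := one_add_rho_mul (x := ξ) (y := y) (z := z) hξ.le hy hz.le hN0.le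
    have h6 := rho_nonneg ξ y
    have h7 : 1 + N * rho ξ z ≤ (2 * (1 + C₀)) * (1 + N * rho ξ y) := by
      rw [rho_comm y z] at h5
      calc 1 + N * rho ξ z ≤ 2 * (1 + N * rho ξ y) * (1 + N * rho z y) := h5
        _ ≤ 2 * (1 + N * rho ξ y) * (1 + C₀) := by gcongr
        _ = _ := by ring
    have h8 : (1 + N * rho ξ z) ^ K ≤ (2 * (1 + C₀)) ^ K * (1 + N * rho ξ y) ^ K := by
      rw [← Real.mul_rpow (by positivity) (by positivity)]
      exact Real.rpow_le_rpow (by positivity) h7 hK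
    rw [Real.rpow_neg (by positivity), Real.rpow_neg (by positivity), ← div_eq_mul_inv,
      le_div_iff₀ (by positivity), inv_mul_le_iff₀ (by positivity)]
    linarith
  have e1 := h1 N hN g hg z x ζ hz hx hζ hzx hxζ
  have e2 := h2 N hN g hg z x hz hx hzx
  have e3 := h3 N hN ζ ξ hζ hξ r hr0 hr1
  have e4 := h4 N hN x ζ ξ hx hζ hξ hxζ r hr0 hr1
  have w1 := hw ζ hζ hzζ
  have w2 := hw x hx hzx
  have e1' : ‖cut β N g ζ - cut β N g x‖ ≤ D1 * Real.sqrt (N * rho x ζ) * gav n β N K g z := by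
    rw [norm_sub_rev]; exact e1
  have e4' : ‖kk n β N ζ ((r : ℂ) • ξ) - kk n β N x ((r : ℂ) • ξ)‖ ≤
      B2 * Real.sqrt (N * rho x ζ) * N ^ (n : ℝ) * (1 + N * rho ξ x) ^ (-K) := by
    rw [norm_sub_rev]; exact e4
  calc ‖cut β N g ζ * kk n β N ζ ((r : ℂ) • ξ) - cut β N g x * kk n β N x ((r : ℂ) • ξ)‖
      = ‖(cut β N g ζ - cut β N g x) * kk n β N ζ ((r : ℂ) • ξ) +
          cut β N g x * (kk n β N ζ ((r : ℂ) • ξ) - kk n β N x ((r : ℂ) • ξ))‖ := by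
        congr 1; ring
    _ ≤ ‖cut β N g ζ - cut β N g x‖ * ‖kk n β N ζ ((r : ℂ) • ξ)‖ +
          ‖cut β N g x‖ * ‖kk n β N ζ ((r : ℂ) • ξ) - kk n β N x ((r : ℂ) • ξ)‖ := by
        refine (norm_add_le _ _).trans ?_
        rw [norm_mul, norm_mul]
    _ ≤ (D1 * Real.sqrt (N * rho x ζ) * gav n β N K g z) *
          (B1 * N ^ (n : ℝ) * ((2 * (1 + C₀)) ^ K * (1 + N * rho ξ z) ^ (-K))) +
          (D2 * gav n β N K g z) * (B2 * Real.sqrt (N * rho x ζ) * N ^ (n : ℝ) *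
            ((2 * (1 + C₀)) ^ K * (1 + N * rho ξ z) ^ (-K))) := by
        gcongr
        · refine e3.trans ?_
          gcongr
        · refine e4'.trans ?_
          gcongr
    _ = _ := by ring


/-- the difference of the integral over one cell and its discretisation -/
noncomputable def B17_D (n : ℕ) (β : ℝ → ℝ) (N : ℝ) (g : E n → ℂ) (R : Set (E n)) (x z : E n) : ℂ :=
  (∫ ζ in R, cut β N g ζ * kk n β N ζ z ∂(sig n)) -
    (((sig n R).toReal : ℝ) : ℂ) * cut β N g x * kk n β N x z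

lemma B17_D_band (n : ℕ) (hn : 1 ≤ n) (β : ℝ → ℝ) (a b : ℝ) (hβ : Bump β a b) (N : ℝ) (hN : 0 < N)
    (g : E n → ℂ) (hg : DifferentiableOn ℂ g (Metric.ball 0 1)) (R : Set (E n))
    (hR : MeasurableSet R) (x : E n) : Band n a b N (B17_D n β N g R x) := by
  have h1 := band_int n hn β a b hβ N hN (cut β N g) (cut_cont n β a b hβ N hN g hg) R hR
  have h2 := band_kk n β a b hβ N hN x
  have h3 := band_sum n a b N (ι := Bool) Finset.univ
    (fun q => if q then 1 else -((((sig n R).toReal : ℝ) : ℂ) * cut β N g x))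
    (fun q => if q then (fun z => ∫ ζ in R, cut β N g ζ * kk n β N ζ z ∂(sig n)) else kk n β N x)
    (by
      intro q _
      cases q
      · simpa using h2
      · simpa using h1)
  have h4 : B17_D n β N g R x = fun z => ∑ q : Bool,
      (if q then 1 else -((((sig n R).toReal : ℝ) : ℂ) * cut β N g x)) *
      (if q then (fun z => ∫ ζ in R, cut β N g ζ * kk n β N ζ z ∂(sig n)) else kk n β N x) z := by
    funext z
    simp only [Fintype.sum_bool, B17_D]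
    simp
    ring
  rw [h4]
  exact h3

lemma B17_integrable (n : ℕ) (hn : 1 ≤ n) (β : ℝ → ℝ) (a b : ℝ) (hβ : Bump β a b) (N : ℝ)
    (hN : 0 < N) (g : E n → ℂ) (hg : DifferentiableOn ℂ g (Metric.ball 0 1)) (z : E n) :
    Integrable (fun ζ => cut β N g ζ * kk n β N ζ z) (sig n) := by
  have h1 := cut_cont n β a b hβ N hN g hg
  have h0 : Continuous (fun ζ : E n => ((ζ, z) : E n × E n)) := by fun_prop
  have h2 := (kk_cont n β a b hβ N hN).comp h0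
  have h3 : Continuous (fun ζ : E n => cut β N g ζ * kk n β N ζ z) := h1.mul h2
  exact m_integrable hn h3

lemma B17_D_bound (n : ℕ) (hn : 1 ≤ n) (β : ℝ → ℝ) (a b : ℝ) (hβ : Bump β a b) (N : ℝ) (hN : 0 < N)
    (g : E n → ℂ) (hg : DifferentiableOn ℂ g (Metric.ball 0 1)) (R : Set (E n))
    (x z : E n) (T : ℝ)
    (hT : ∀ ζ ∈ R, ‖cut β N g ζ * kk n β N ζ z - cut β N g x * kk n β N x z‖ ≤ T) :
    ‖B17_D n β N g R x z‖ ≤ T * (sig n R).toReal := by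
  have hint := B17_integrable n hn β a b hβ N hN g hg z
  have e : B17_D n β N g R x z =
      ∫ ζ in R, (cut β N g ζ * kk n β N ζ z - cut β N g x * kk n β N x z) ∂(sig n) := by
    rw [integral_sub hint.integrableOn (integrable_const _), setIntegral_const]
    unfold B17_D
    simp only [Measure.real, Complex.real_smul]
    ring
  rw [e]
  have h9 := norm_setIntegral_le_of_norm_le_const (μ := sig n) (s := R) (C := T)
    (f := fun ζ => cut β N g ζ * kk n β N ζ z - cut β N g x * kk n β N x z) (measure_lt_top _ _) hT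
  simpa only [Measure.real] using h9

lemma B17_conv (n : ℕ) (hn : 1 ≤ n) (β : ℝ → ℝ) (a b : ℝ) (hβ : Bump β a b) (N : ℝ) (hN : 0 < N)
    (g : E n → ℂ) (hg : DifferentiableOn ℂ g (Metric.ball 0 1)) {ι : Type} [DecidableEq ι]
    (t : Finset ι)
    (R : ι → Set (E n)) (hRm : ∀ q ∈ t, MeasurableSet (R q))
    (hRd : ∀ q ∈ t, ∀ q' ∈ t, q ≠ q' → Disjoint (R q) (R q'))
    (hRc : ∀ ζ : E n, ‖ζ‖ = 1 → ∃ q ∈ t, ζ ∈ R q) (x : ι → E n) (z : E n) :
    cut (fun t => β t * β t) N g z -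
      ∑ q ∈ t, (((sig n (R q)).toReal : ℝ) : ℂ) * cut β N g (x q) * kk n β N (x q) z =
      ∑ q ∈ t, B17_D n β N g (R q) (x q) z := by
  have hint := B17_integrable n hn β a b hβ N hN g hg z
  have h1 : ∑ q ∈ t, ∫ ζ in R q, cut β N g ζ * kk n β N ζ z ∂(sig n) =
      ∫ ζ, cut β N g ζ * kk n β N ζ z ∂(sig n) := by
    rw [← integral_biUnion_finset t hRm (fun q hq q' hq' hne => hRd q hq q' hq' hne)
      (fun q _ => hint.integrableOn)]
    have h2 : (⋃ q ∈ t, R q) =ᵐ[sig n] Set.univ := by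
      rw [Filter.eventuallyEq_set]
      filter_upwards [sig_ae_norm hn] with ξ hξ
      simp only [Set.mem_iUnion, Set.mem_univ, iff_true]
      obtain ⟨q, hq, hqq⟩ := hRc ξ hξ
      exact ⟨q, hq, hqq⟩
    rw [setIntegral_congr_set h2, setIntegral_univ]
  rw [cut_conv n hn β β a b a b hβ hβ N hN g hg z, ← h1, ← Finset.sum_sub_distrib]
  rfl


lemma B17_node (n : ℕ) (hn : 1 ≤ n) (β : ℝ → ℝ) (a b : ℝ) (hβ : Bump β a b) (K : ℝ) (hK : 0 ≤ K)
    (A : ℝ) (hA : 0 < A) (C : ℝ) (hC : 0 ≤ C) :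
    ∃ B : ℝ, 0 ≤ B ∧ ∃ m₀ : ℕ, ∀ m : ℕ, m₀ ≤ m → ∀ (pt : ℕ → ℕ → E n) (c : ℝ), TreeFam n pt c C →
    ∀ l i : ℕ, i < 2 ^ l → ∀ R : ℕ → Set (E n), (∀ j, MeasurableSet (R j)) →
    (∀ j < 2 ^ (l + m), ∀ ζ ∈ R j, ‖ζ‖ = 1 ∧ sc n (l + m) * rho ζ (pt (l + m) j) ≤ C) →
    (∀ j j', j < 2 ^ (l + m) → j' < 2 ^ (l + m) → j ≠ j' → Disjoint (R j) (R j')) →
    ∀ g : E n → ℂ, DifferentiableOn ℂ g (Metric.ball 0 1) → ∀ ξ : E n, ‖ξ‖ = 1 →
    ∀ r : ℝ, 0 ≤ r → r ≤ 1 →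
    ‖∑ j ∈ (Finset.range (2 ^ (l + m))).filter (fun j => j / 2 ^ m = i),
      B17_D n β (A * sc n l) g (R j) (pt (l + m) j) ((r : ℂ) • ξ)‖ ≤
      B * ((sc n m) ^ (-(1 / 2 : ℝ)) * gav n β (A * sc n l) K g (pt l i)) *
        (1 + A * sc n l * rho ξ (pt l i)) ^ (-K) := by
  set C₀ := 2 * (A * C + 1) with hC₀
  have hC₀0 : 0 < C₀ := by positivity
  obtain ⟨B1, hB1, hpt⟩ := B17_pt n hn β a b hβ K hK A hA C₀ hC₀0.le
  obtain ⟨Cc, hCc, hcap⟩ := cap_upper n hn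
  obtain ⟨m₀, hm₀⟩ := B17_sc_large n hn (A * C)
  refine ⟨B1 * Real.sqrt (A * C) * (Cc * (C₀ + 1) ^ n), by positivity, m₀, ?_⟩
  intro m hm pt c hT l i hi R hRm hRs hRd g hg ξ hξ r hr0 hr1
  have hsl := sc_pos n l
  have hsm := sc_pos n m
  have hsl1 := msc_one n l
  set N := A * sc n l with hN
  have hN0 : 0 < N := by positivity
  have hNA : A ≤ N := by
    rw [hN]; nlinarith
  set z := pt l i with hz
  have hz1 : ‖z‖ = 1 := hT.unit l i
  set G := gav n β N K g z with hG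
  have hG0 : 0 ≤ G := B17_gav_nonneg n β N K hN0.le g z
  set W := (1 + N * rho ξ z) ^ (-K) with hW
  have hW0 : 0 ≤ W := by
    have := rho_nonneg ξ z
    positivity
  set t := (Finset.range (2 ^ (l + m))).filter (fun j => j / 2 ^ m = i) with ht
  have hnear : ∀ j ∈ t, ∀ ζ ∈ R j, ‖ζ‖ = 1 ∧ N * rho z (pt (l + m) j) ≤ C₀ ∧ N * rho z ζ ≤ C₀ ∧
      N * rho (pt (l + m) j) ζ ≤ A * C / sc n m := by
    intro j hj ζ hζ
    rw [ht, Finset.mem_filter, Finset.mem_range] at hj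
    obtain ⟨hj1, hj2⟩ := hj
    obtain ⟨h1, h2⟩ := hRs j hj1 ζ hζ
    rw [B17_sc_add] at h2
    have h3 := hT.nest l (l + m) j (by omega) hj1
    rw [show l + m - l = m by omega, hj2, ← hz] at h3
    have hx1 := hT.unit (l + m) j
    have h4 : N * rho (pt (l + m) j) ζ ≤ A * C / sc n m := by
      rw [le_div_iff₀ hsm, rho_comm]
      calc N * rho ζ (pt (l + m) j) * sc n m = A * (sc n l * sc n m * rho ζ (pt (l + m) j)) := by
            rw [hN]; ring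
        _ ≤ A * C := by gcongr
    have h5 : A * C / sc n m ≤ 1 := by
      rw [div_le_one hsm]; exact hm₀ m hm
    have h6 : N * rho z (pt (l + m) j) ≤ A * C := by
      rw [rho_comm]
      calc N * rho (pt (l + m) j) z = A * (sc n l * rho (pt (l + m) j) z) := by rw [hN]; ring
        _ ≤ A * C := by gcongr
    have h7 := rho_triangle (x := z) (y := pt (l + m) j) (z := ζ) hz1.le hx1 h1.le
    have h8 : N * rho z ζ ≤ C₀ := by
      calc N * rho z ζ ≤ N * (2 * (rho z (pt (l + m) j) + rho (pt (l + m) j) ζ)) := by gcongr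
        _ = 2 * (N * rho z (pt (l + m) j) + N * rho (pt (l + m) j) ζ) := by ring
        _ ≤ C₀ := by rw [hC₀]; linarith
    have h9 : A * C ≤ C₀ := by
      rw [hC₀]
      have : 0 ≤ A * C := by positivity
      linarith
    exact ⟨h1, by linarith, h8, h4⟩
  have hsm1 : A * C / sc n m ≤ 1 := by
    rw [div_le_one hsm]; exact hm₀ m hm
  set T := B1 * Real.sqrt (A * C / sc n m) * G * N ^ (n : ℝ) * W with hTT
  have hT0 : 0 ≤ T := by positivity
  have hD : ∀ j ∈ t, ‖B17_D n β N g (R j) (pt (l + m) j) ((r : ℂ) • ξ)‖ ≤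
      T * (sig n (R j)).toReal := by
    intro j hj
    apply B17_D_bound n hn β a b hβ N hN0 g hg
    intro ζ hζ
    obtain ⟨h1, h2, h3, h4⟩ := hnear j hj ζ hζ
    refine (hpt N hNA g hg z (pt (l + m) j) ζ ξ hz1 (hT.unit _ _) h1 hξ h2 h3 (h4.trans hsm1) r hr0
      hr1).trans ?_
    rw [hTT]
    have : Real.sqrt (N * rho (pt (l + m) j) ζ) ≤ Real.sqrt (A * C / sc n m) :=
      Real.sqrt_le_sqrt h4
    gcongr
  have hmeas : ∑ j ∈ t, (sig n (R j)).toReal ≤ Cc * ((C₀ + 1) / N) ^ n := by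
    rw [← ENNReal.toReal_sum (fun j _ => measure_ne_top _ _), ← measure_biUnion_finset]
    · apply ENNReal.toReal_le_of_le_ofReal (by positivity)
      refine le_trans (measure_mono ?_) (hcap z hz1 ((C₀ + 1) / N) (by positivity))
      intro ζ hζ
      simp only [Set.mem_iUnion] at hζ
      obtain ⟨j, hj, hζj⟩ := hζ
      obtain ⟨h1, h2, h3, h4⟩ := hnear j hj ζ hζj
      simp only [Set.mem_setOf_eq]
      rw [rho_comm, lt_div_iff₀ hN0]
      linarith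
    · intro j hj j' hj' hne
      rw [Finset.mem_coe, ht, Finset.mem_filter, Finset.mem_range] at hj hj'
      exact hRd j j' hj.1 hj'.1 hne
    · intro j _
      exact hRm j
  have hsq : Real.sqrt (A * C / sc n m) = Real.sqrt (A * C) * (sc n m) ^ (-(1 / 2 : ℝ)) := by
    rw [Real.sqrt_div (by positivity), Real.rpow_neg hsm.le, ← Real.sqrt_eq_rpow, div_eq_mul_inv]
  calc ‖∑ j ∈ t, B17_D n β N g (R j) (pt (l + m) j) ((r : ℂ) • ξ)‖
      ≤ ∑ j ∈ t, ‖B17_D n β N g (R j) (pt (l + m) j) ((r : ℂ) • ξ)‖ := norm_sum_le _ _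
    _ ≤ ∑ j ∈ t, T * (sig n (R j)).toReal := Finset.sum_le_sum hD
    _ = T * ∑ j ∈ t, (sig n (R j)).toReal := by rw [Finset.mul_sum]
    _ ≤ T * (Cc * ((C₀ + 1) / N) ^ n) := by gcongr
    _ = _ := by
        rw [hTT, hsq, Real.rpow_natCast, div_pow]
        field_simp


lemma B17_fnorm_smul (p : ℝ) (L : ℕ) (ε : ℝ) (he : 0 ≤ ε) (x : ℕ → ℕ → ℂ) :
    fnorm p L (fun l i => (ε : ℂ) * x l i) = ε ^ p * fnorm p L x := by
  unfold fnorm
  have h1 : ∀ j : ℕ, (∑ l ∈ Finset.range L, ‖(ε : ℂ) * x l (j / 2 ^ (L - l))‖ ^ 2) ^ (p / 2) =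
      ε ^ p * (∑ l ∈ Finset.range L, ‖x l (j / 2 ^ (L - l))‖ ^ 2) ^ (p / 2) := by
    intro j
    have h2 : ∑ l ∈ Finset.range L, ‖(ε : ℂ) * x l (j / 2 ^ (L - l))‖ ^ 2 =
        ε ^ 2 * ∑ l ∈ Finset.range L, ‖x l (j / 2 ^ (L - l))‖ ^ 2 := by
      rw [Finset.mul_sum]
      apply Finset.sum_congr rfl
      intro l _
      rw [norm_mul, mul_pow, Complex.norm_real, Real.norm_eq_abs, sq_abs]
    rw [h2, Real.mul_rpow (by positivity) (by positivity)]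
    congr 1
    rw [← Real.rpow_natCast, ← Real.rpow_mul he]
    congr 1
    push_cast
    ring
  simp only [h1]
  rw [← Finset.mul_sum]
  ring

lemma B17_pow_sum (p : ℝ) (hp : 0 < p) (V : ℕ) (f : ℕ → ℂ) :
    ‖∑ ν ∈ Finset.range V, f ν‖ ^ p ≤ (V : ℝ) ^ p * ∑ ν ∈ Finset.range V, ‖f ν‖ ^ p := by
  rcases Nat.eq_zero_or_pos V with hV | hV
  · subst hV
    simp [Real.zero_rpow hp.ne']
  · obtain ⟨ν₀, h0, h1⟩ := Finset.exists_max_image (Finset.range V) (fun ν => ‖f ν‖)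
      ⟨0, Finset.mem_range.mpr hV⟩
    have h2 : ‖∑ ν ∈ Finset.range V, f ν‖ ≤ V * ‖f ν₀‖ := by
      refine (norm_sum_le _ _).trans ?_
      refine (Finset.sum_le_card_nsmul _ _ _ h1).trans ?_
      simp
    calc ‖∑ ν ∈ Finset.range V, f ν‖ ^ p ≤ (V * ‖f ν₀‖) ^ p :=
          Real.rpow_le_rpow (norm_nonneg _) h2 hp.le
      _ = (V : ℝ) ^ p * ‖f ν₀‖ ^ p := Real.mul_rpow (by positivity) (norm_nonneg _)
      _ ≤ _ := by
          gcongr
          exact Finset.single_le_sum (f := fun ν => ‖f ν‖ ^ p) (fun ν _ => by positivity) h0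

lemma B17_tree (n : ℕ) (hn : 1 ≤ n) (p : ℝ) (hp : 0 < p) (hp1 : p ≤ 1 ∨ p = 2)
    (pt : ℕ → ℕ → E n) (c C : ℝ) (hT : TreeFam n pt c C)
    (R : ℕ → ℕ → Set (E n)) (hRm : ∀ l j, MeasurableSet (R l j))
    (hRs : ∀ l j, j < 2 ^ l → ∀ ζ ∈ R l j, ‖ζ‖ = 1 ∧ sc n l * rho ζ (pt l j) ≤ C)
    (hRd : ∀ l j j', j < 2 ^ l → j' < 2 ^ l → j ≠ j' → Disjoint (R l j) (R l j'))
    (A : ℝ) (hA : 0 < A) (β : ℝ → ℝ) (a b : ℝ) (hβ : Bump β a b) :
    ∃ D : ℝ, 0 < D ∧ ∃ m₀ : ℕ, ∀ m : ℕ, m₀ ≤ m → ∀ (g : E n → ℂ) (M : ℝ), 0 ≤ M → HB n p M g →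
    ∀ (L : ℕ) (r : ℝ), 0 ≤ r → r < 1 →
      ∫⁻ ξ, ENNReal.ofReal (‖∑ l ∈ Finset.range L, ∑ j ∈ Finset.range (2 ^ (l + m)),
        B17_D n β (A * sc n l) g (R (l + m) j) (pt (l + m) j) ((r : ℂ) • ξ)‖ ^ p) ∂(sig n) ≤
      ENNReal.ofReal (D * (sc n m) ^ (-(p / 2)) * M) := by
  obtain ⟨K1, hK1, hsyn⟩ := synth n hn p hp hp1
  obtain ⟨K2, hK2, hana⟩ := analysis_gav n hn p hp hp1
  have hn0 : (0 : ℝ) < n := by exact_mod_cast hn
  set K := max K1 K2 with hKdef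
  have hK0 : 0 ≤ K := by
    have := le_max_left K1 K2
    linarith
  have hC : 0 ≤ C := by
    have h1 := hT.nest 0 0 0 le_rfl (by simp)
    refine le_trans ?_ h1
    exact mul_nonneg (sc_pos n 0).le (rho_nonneg _ _)
  obtain ⟨B, hB, m₀, hnode⟩ := B17_node n hn β a b hβ K hK0 A hA C hC
  obtain ⟨D0, hD0⟩ := B17_sc_large n hn (b / a)
  obtain ⟨DS, hDS, hS⟩ := hsyn K (le_max_left _ _) pt c C hT A hA B D0
  obtain ⟨DA, hDA, hAn⟩ := hana K (le_max_right _ _) pt c C hT A hA β a b hβ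
  refine ⟨DS * DA, by positivity, m₀, ?_⟩
  intro m hm g M hM hg L r hr0 hr1
  have hgd := hg.1
  have hNp : ∀ l, 0 < A * sc n l := fun l => mul_pos hA (sc_pos n l)
  set ε : ℝ := (sc n m) ^ (-(1 / 2 : ℝ)) with heps
  have hε0 : 0 < ε := Real.rpow_pos_of_pos (sc_pos n m) _
  set G : ℕ → ℕ → ℝ := fun l i => gav n β (A * sc n l) K g (pt l i) with hG
  have hG0 : ∀ l i, 0 ≤ G l i := fun l i => B17_gav_nonneg n β _ K (hNp l).le g _
  set s : ℕ → ℕ → ℝ := fun l i => ε * G l i with hs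
  have hs0 : ∀ l i, 0 ≤ s l i := fun l i => mul_nonneg hε0.le (hG0 l i)
  set F : ℕ → ℕ → E n → ℂ := fun l i z =>
    ∑ j ∈ (Finset.range (2 ^ (l + m))).filter (fun j => j / 2 ^ m = i),
      B17_D n β (A * sc n l) g (R (l + m) j) (pt (l + m) j) z with hF
  set Ψ : ℕ → ℕ → E n → ℂ := fun l i z => (((s l i : ℝ) : ℂ))⁻¹ * F l i z with hΨ
  have hband : ∀ l i, Band n a b (A * sc n l) (Ψ l i) := by
    intro l i
    have h1 := band_sum n a b (A * sc n l)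
      ((Finset.range (2 ^ (l + m))).filter (fun j => j / 2 ^ m = i))
      (fun _ => (((s l i : ℝ) : ℂ))⁻¹)
      (fun j => B17_D n β (A * sc n l) g (R (l + m) j) (pt (l + m) j))
      (fun j _ => B17_D_band n hn β a b hβ _ (hNp l) g hgd _ (hRm _ _) _)
    have h2 : Ψ l i = fun z => ∑ j ∈ (Finset.range (2 ^ (l + m))).filter (fun j => j / 2 ^ m = i),
        (((s l i : ℝ) : ℂ))⁻¹ *
          B17_D n β (A * sc n l) g (R (l + m) j) (pt (l + m) j) z := by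
      funext z
      simp only [hΨ, hF, Finset.mul_sum]
    rw [h2]
    exact h1
  have hcont : ∀ l i, Continuous (Ψ l i) := fun l i => band_cont n a b _ _ (hband l i)
  have hFb : ∀ l i, i < 2 ^ l → ∀ ξ : E n, ‖ξ‖ = 1 → ∀ r : ℝ, 0 ≤ r → r ≤ 1 →
      ‖F l i ((r : ℂ) • ξ)‖ ≤ B * s l i * (1 + A * sc n l * rho ξ (pt l i)) ^ (-K) := by
    intro l i hi ξ hξ r hr0 hr1
    exact hnode m hm pt c hT l i hi (fun j => R (l + m) j) (fun j => hRm _ _)
      (fun j hj => hRs _ j hj) (fun j j' hj hj' hne => hRd _ j j' hj hj' hne) g hgd ξ hξ r hr0 hr1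
  have hsΨ : ∀ l i, i < 2 ^ l → ∀ ξ : E n, ‖ξ‖ = 1 → ∀ r : ℝ, 0 ≤ r → r ≤ 1 →
      ((s l i : ℝ) : ℂ) * Ψ l i ((r : ℂ) • ξ) = F l i ((r : ℂ) • ξ) := by
    intro l i hi ξ hξ r hr0 hr1
    rcases eq_or_ne (s l i) 0 with h0 | h0
    · have h1 := hFb l i hi ξ hξ r hr0 hr1
      rw [h0] at h1
      have h2 : F l i ((r : ℂ) • ξ) = 0 := by
        rw [← norm_le_zero_iff]
        simpa using h1
      rw [h2, h0]
      simp
    · have h1 : ((s l i : ℝ) : ℂ) ≠ 0 := by exact_mod_cast h0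
      simp only [hΨ]
      rw [← mul_assoc, mul_inv_cancel₀ h1, one_mul]
  have hΨb : ∀ l i, i < 2 ^ l → ∀ ξ : E n, ‖ξ‖ = 1 → ∀ r : ℝ, 0 ≤ r → r ≤ 1 →
      ‖Ψ l i ((r : ℂ) • ξ)‖ ≤ B * (1 + A * sc n l * rho ξ (pt l i)) ^ (-K) := by
    intro l i hi ξ hξ r hr0 hr1
    have hw : 0 ≤ (1 + A * sc n l * rho ξ (pt l i)) ^ (-K) := by
      have h1 := rho_nonneg ξ (pt l i)
      have h2 := hNp l
      positivity
    have h1 := hFb l i hi ξ hξ r hr0 hr1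
    simp only [hΨ]
    rw [norm_mul, norm_inv, Complex.norm_real, Real.norm_eq_abs, abs_of_nonneg (hs0 l i)]
    rcases (hs0 l i).eq_or_lt with h0 | h0
    · rw [← h0]
      simp only [inv_zero, zero_mul]
      positivity
    · rw [inv_mul_le_iff₀ h0]
      refine h1.trans (le_of_eq ?_)
      ring
  have horth : ∀ l m' i j, l + D0 ≤ m' → ∀ r : ℝ, 0 ≤ r → r ≤ 1 →
      ∫ ξ, Ψ l i ((r : ℂ) • ξ) * (starRingEnd ℂ) (Ψ m' j ((r : ℂ) • ξ)) ∂(sig n) = 0 := by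
    intro l m' i j hlm r _ _
    apply band_orth n hn a b (A * sc n l) (A * sc n m') _ _ (hband l i) (hband m' j)
    have h1 := hD0 (m' - l) (by omega)
    have h2 : sc n m' = sc n l * sc n (m' - l) := by
      rw [← B17_sc_add]; congr 1; omega
    rw [div_le_iff₀ hβ.apos] at h1
    rw [h2]
    have h3 := hNp l
    calc b * (A * sc n l) ≤ (sc n (m' - l) * a) * (A * sc n l) := by gcongr
      _ = _ := by ring
  have key := hS Ψ hcont hΨb horth (fun l i => ((s l i : ℝ) : ℂ)) L r hr0 hr1.le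
  have hfn : fnorm p L (fun l i => ((s l i : ℝ) : ℂ)) ≤ (sc n m) ^ (-(p / 2)) * (DA * M) := by
    have h1 : (fun l i => ((s l i : ℝ) : ℂ)) = fun l i => (ε : ℂ) * ((G l i : ℝ) : ℂ) := by
      funext l i
      simp [hs]
    rw [h1, B17_fnorm_smul p L ε hε0.le (fun l i => ((G l i : ℝ) : ℂ))]
    have h2 : ε ^ p = (sc n m) ^ (-(p / 2)) := by
      rw [heps, ← Real.rpow_mul (sc_pos n m).le]
      congr 1
      ring
    rw [h2]
    have h3 := hAn g M hM hg L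
    have h4 : 0 ≤ (sc n m) ^ (-(p / 2)) := Real.rpow_nonneg (sc_pos n m).le _
    exact mul_le_mul_of_nonneg_left h3 h4
  have hcong : ∫⁻ ξ, ENNReal.ofReal (‖∑ l ∈ Finset.range L, ∑ j ∈ Finset.range (2 ^ (l + m)),
        B17_D n β (A * sc n l) g (R (l + m) j) (pt (l + m) j) ((r : ℂ) • ξ)‖ ^ p) ∂(sig n) =
      ∫⁻ ξ, ENNReal.ofReal (‖∑ l ∈ Finset.range L, ∑ i ∈ Finset.range (2 ^ l),
        ((s l i : ℝ) : ℂ) * Ψ l i ((r : ℂ) • ξ)‖ ^ p) ∂(sig n) := by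
    apply lintegral_congr_ae
    filter_upwards [sig_ae_norm hn] with ξ hξ
    congr 3
    apply Finset.sum_congr rfl
    intro l _
    rw [← Finset.sum_fiberwise_of_maps_to (s := Finset.range (2 ^ (l + m)))
      (t := Finset.range (2 ^ l)) (g := fun j => j / 2 ^ m)]
    · apply Finset.sum_congr rfl
      intro i hi
      rw [hsΨ l i (Finset.mem_range.mp hi) ξ hξ r hr0 hr1.le]
    · intro j hj
      rw [Finset.mem_range] at hj ⊢
      apply Nat.div_lt_of_lt_mul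
      rw [← pow_add, add_comm]
      exact hj
  rw [hcong]
  refine key.trans (ENNReal.ofReal_le_ofReal ?_)
  calc DS * fnorm p L (fun l i => ((s l i : ℝ) : ℂ)) ≤ DS * ((sc n m) ^ (-(p / 2)) * (DA * M)) := by
        gcongr
    _ = _ := by ring

/-- TARGET -/
theorem frame_error (n : ℕ) (hn : 1 ≤ n) (p : ℝ) (hp : 0 < p) (hp1 : p ≤ 1 ∨ p = 2) (V : ℕ)
    (pt : ℕ → ℕ → ℕ → E n) (c C : ℝ) (hT : ∀ ν < V, TreeFam n (pt ν) c C)
    (R : ℕ → ℕ → ℕ → Set (E n)) (hRm : ∀ l ν j, MeasurableSet (R l ν j))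
    (hRs : ∀ l ν j, ν < V → j < 2 ^ l → ∀ ζ ∈ R l ν j, ‖ζ‖ = 1 ∧ sc n l * rho ζ (pt ν l j) ≤ C)
    (hRd : ∀ l ν j ν' j', ν < V → ν' < V → j < 2 ^ l → j' < 2 ^ l → (ν, j) ≠ (ν', j') →
        Disjoint (R l ν j) (R l ν' j'))
    (hRc : ∀ l (ζ : E n), ‖ζ‖ = 1 → ∃ ν < V, ∃ j < 2 ^ l, ζ ∈ R l ν j)
    (A : ℝ) (hA : 0 < A) (β : ℝ → ℝ) (a b : ℝ) (hβ : Bump β a b) :
    ∃ D : ℝ, 0 < D ∧ ∃ m₀ : ℕ, ∀ m : ℕ, m₀ ≤ m → ∀ (g : E n → ℂ) (M : ℝ), 0 ≤ M → HB n p M g →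
    ∀ (L : ℕ) (r : ℝ), 0 ≤ r → r < 1 →
      ∫⁻ ξ, ENNReal.ofReal (‖∑ l ∈ Finset.range L,
        (cut (fun t => β t * β t) (A * sc n l) g ((r : ℂ) • ξ) -
          ∑ ν ∈ Finset.range V, ∑ j ∈ Finset.range (2 ^ (l + m)),
            (((sig n (R (l + m) ν j)).toReal : ℝ) : ℂ) * cut β (A * sc n l) g (pt ν (l + m) j) *
              kk n β (A * sc n l) (pt ν (l + m) j) ((r : ℂ) • ξ))‖ ^ p) ∂(sig n) ≤
        ENNReal.ofReal (D * (sc n m) ^ (-(p / 2)) * M) := by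
  obtain ⟨e, he⟩ : ∃ e : E n, ‖e‖ = 1 :=
    ⟨EuclideanSpace.single ⟨0, by omega⟩ (1 : ℂ), by simp⟩
  have hex : ∀ ν : ℕ, ∃ D : ℝ, 0 < D ∧ ∃ m₀ : ℕ, ν < V → ∀ m : ℕ, m₀ ≤ m →
      ∀ (g : E n → ℂ) (M : ℝ), 0 ≤ M → HB n p M g → ∀ (L : ℕ) (r : ℝ), 0 ≤ r → r < 1 →
      ∫⁻ ξ, ENNReal.ofReal (‖∑ l ∈ Finset.range L, ∑ j ∈ Finset.range (2 ^ (l + m)),
        B17_D n β (A * sc n l) g (R (l + m) ν j) (pt ν (l + m) j) ((r : ℂ) • ξ)‖ ^ p) ∂(sig n) ≤
      ENNReal.ofReal (D * (sc n m) ^ (-(p / 2)) * M) := by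
    intro ν
    by_cases hν : ν < V
    · obtain ⟨D, hD, m₀, h⟩ := B17_tree n hn p hp hp1 (pt ν) c C (hT ν hν) (fun l j => R l ν j)
        (fun l j => hRm l ν j) (fun l j hj => hRs l ν j hν hj)
        (fun l j j' hj hj' hne => hRd l ν j ν j' hν hν hj hj'
          (fun h => hne (Prod.mk.inj h).2)) A hA β a b hβ
      exact ⟨D, hD, m₀, fun _ => h⟩
    · exact ⟨1, one_pos, 0, fun h => absurd h hν⟩
  choose DD hDD mm hmm using hex
  refine ⟨(V : ℝ) ^ p * ∑ ν ∈ Finset.range V, DD ν + 1, ?_, (Finset.range V).sup mm, ?_⟩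
  · have : 0 ≤ ∑ ν ∈ Finset.range V, DD ν := Finset.sum_nonneg fun ν _ => (hDD ν).le
    positivity
  intro m hm g M hM hg L r hr0 hr1
  have hgd := hg.1
  have hNp : ∀ l, 0 < A * sc n l := fun l => mul_pos hA (sc_pos n l)
  have hsm := sc_pos n m
  have hid : ∀ ξ : E n, ∑ l ∈ Finset.range L,
        (cut (fun t => β t * β t) (A * sc n l) g ((r : ℂ) • ξ) -
          ∑ ν ∈ Finset.range V, ∑ j ∈ Finset.range (2 ^ (l + m)),
            (((sig n (R (l + m) ν j)).toReal : ℝ) : ℂ) * cut β (A * sc n l) g (pt ν (l + m) j) *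
              kk n β (A * sc n l) (pt ν (l + m) j) ((r : ℂ) • ξ)) =
      ∑ ν ∈ Finset.range V, ∑ l ∈ Finset.range L, ∑ j ∈ Finset.range (2 ^ (l + m)),
        B17_D n β (A * sc n l) g (R (l + m) ν j) (pt ν (l + m) j) ((r : ℂ) • ξ) := by
    intro ξ
    rw [Finset.sum_comm]
    apply Finset.sum_congr rfl
    intro l _
    have h1 := B17_conv n hn β a b hβ (A * sc n l) (hNp l) g hgd (ι := ℕ × ℕ)
      (Finset.range V ×ˢ Finset.range (2 ^ (l + m))) (fun q => R (l + m) q.1 q.2)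
      (fun q _ => hRm _ _ _)
      (fun q hq q' hq' hne => by
        rw [Finset.mem_product, Finset.mem_range, Finset.mem_range] at hq hq'
        exact hRd _ _ _ _ _ hq.1 hq'.1 hq.2 hq'.2 hne)
      (fun ζ hζ => by
        obtain ⟨ν, hν, j, hj, h⟩ := hRc (l + m) ζ hζ
        exact ⟨(ν, j), by
          rw [Finset.mem_product, Finset.mem_range, Finset.mem_range]
          exact ⟨hν, hj⟩, h⟩)
      (fun q => pt q.1 (l + m) q.2) ((r : ℂ) • ξ)
    rw [Finset.sum_product, Finset.sum_product] at h1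
    exact h1
  simp only [hid]
  have hmeas : ∀ ν : ℕ, Measurable (fun ξ : E n => ENNReal.ofReal (‖∑ l ∈ Finset.range L,
      ∑ j ∈ Finset.range (2 ^ (l + m)),
      B17_D n β (A * sc n l) g (R (l + m) ν j) (pt ν (l + m) j) ((r : ℂ) • ξ)‖ ^ p)) := by
    intro ν
    have hc : Continuous (fun ξ : E n => ∑ l ∈ Finset.range L,
      ∑ j ∈ Finset.range (2 ^ (l + m)),
      B17_D n β (A * sc n l) g (R (l + m) ν j) (pt ν (l + m) j) ((r : ℂ) • ξ)) := by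
      refine continuous_finsetSum _ fun l _ => continuous_finsetSum _ fun j _ => ?_
      have h1 := band_cont n a b _ _
        (B17_D_band n hn β a b hβ _ (hNp l) g hgd _ (hRm (l + m) ν j) (pt ν (l + m) j))
      have h2 : Continuous (fun ξ : E n => (r : ℂ) • ξ) := by fun_prop
      exact h1.comp h2
    have := hc.measurable
    fun_prop
  calc ∫⁻ ξ, ENNReal.ofReal (‖∑ ν ∈ Finset.range V, ∑ l ∈ Finset.range L,
        ∑ j ∈ Finset.range (2 ^ (l + m)),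
        B17_D n β (A * sc n l) g (R (l + m) ν j) (pt ν (l + m) j) ((r : ℂ) • ξ)‖ ^ p) ∂(sig n)
      ≤ ∫⁻ ξ, ENNReal.ofReal ((V : ℝ) ^ p) * ∑ ν ∈ Finset.range V,
          ENNReal.ofReal (‖∑ l ∈ Finset.range L, ∑ j ∈ Finset.range (2 ^ (l + m)),
        B17_D n β (A * sc n l) g (R (l + m) ν j) (pt ν (l + m) j) ((r : ℂ) • ξ)‖ ^ p)
          ∂(sig n) := by
        apply lintegral_mono
        intro ξ
        simp only
        rw [← ENNReal.ofReal_sum_of_nonneg (fun ν _ => by positivity),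
          ← ENNReal.ofReal_mul (by positivity)]
        exact ENNReal.ofReal_le_ofReal (B17_pow_sum p hp V _)
    _ = ENNReal.ofReal ((V : ℝ) ^ p) * ∑ ν ∈ Finset.range V, ∫⁻ ξ,
          ENNReal.ofReal (‖∑ l ∈ Finset.range L, ∑ j ∈ Finset.range (2 ^ (l + m)),
        B17_D n β (A * sc n l) g (R (l + m) ν j) (pt ν (l + m) j) ((r : ℂ) • ξ)‖ ^ p)
          ∂(sig n) := by
        rw [lintegral_const_mul _ (Finset.measurable_fun_sum _ fun ν _ => hmeas ν),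
          lintegral_finsetSum _ fun ν _ => hmeas ν]
    _ ≤ ENNReal.ofReal ((V : ℝ) ^ p) * ∑ ν ∈ Finset.range V,
          ENNReal.ofReal (DD ν * (sc n m) ^ (-(p / 2)) * M) := by
        gcongr with ν hν
        exact hmm ν (Finset.mem_range.mp hν) m
          ((Finset.le_sup (f := mm) hν).trans hm) g M hM hg L r hr0 hr1
    _ = ENNReal.ofReal ((V : ℝ) ^ p * ∑ ν ∈ Finset.range V, (DD ν * (sc n m) ^ (-(p / 2)) * M)) := by
        rw [ENNReal.ofReal_mul (by positivity), ENNReal.ofReal_sum_of_nonneg]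
        intro ν _
        have := (hDD ν).le
        positivity
    _ ≤ _ := by
        apply ENNReal.ofReal_le_ofReal
        rw [← Finset.sum_mul, ← Finset.sum_mul]
        have h5 : 0 ≤ (sc n m) ^ (-(p / 2)) * M := by positivity
        nlinarith

end Pool.Agent.HpBall2
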