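import Mathlib
import Pool.Agent.HpBall2.Defs
import Pool.Agent.HpBall.Geom
import Pool.Agent.HpBall.Sphere
import Pool.Agent.HpBall2.HcProps

set_option autoImplicit false

open MeasureTheory Complex
open scoped ENNReal NNReal

namespace Pool.Agent.HpBall2

open Pool.Agent.HpBall

theorem B18_hc_zero (n : ℕ) (g : E n → ℂ) (z : E n) : hc g 0 z = g 0 := by
  unfold hc tc
  simp

/-- TARGET -/
theorem frame_sum (n : ℕ) (hn : 1 ≤ n) (β : ℝ → ℝ) (a b A : ℝ) (hβ : Bump β a b) (hA : 0 < A)
    (hs : ∀ k : ℕ, 1 ≤ k → HasSum (fun l : ℕ => β ((k : ℝ) / (A * sc n l)) ^ 2) 1)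
    (g : E n → ℂ) (hg : DifferentiableOn ℂ g (Metric.ball 0 1)) (z : E n) (hz : ‖z‖ < 1) :
    HasSum (fun l : ℕ => cut (fun t => β t * β t) (A * sc n l) g z) (g z - g 0) := by
  obtain ⟨-, -, h3⟩ := hc_props n g hg
  obtain ⟨hsum, hhas⟩ := h3 z hz
  set G : ℕ × ℕ → ℂ := fun q =>
    (((β ((q.1 : ℝ) / (A * sc n q.2)) * β ((q.1 : ℝ) / (A * sc n q.2)) : ℝ)) : ℂ) * hc g q.1 z with hG
  have hβ0 : β 0 = 0 := hβ.lo 0 hβ.apos.le
  have hfib : ∀ k : ℕ, HasSum (fun l : ℕ =>
      (β ((k : ℝ) / (A * sc n l)) * β ((k : ℝ) / (A * sc n l)))) (if k = 0 then (0 : ℝ) else 1) := by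
    intro k
    by_cases hk : k = 0
    · subst hk
      simp only [if_true, Nat.cast_zero, zero_div, hβ0, mul_zero]
      exact hasSum_zero
    · simp only [hk, if_false]
      have := hs k (Nat.one_le_iff_ne_zero.mpr hk)
      simpa [pow_two] using this
  have hnorm : ∀ q : ℕ × ℕ, ‖G q‖ =
      (β ((q.1 : ℝ) / (A * sc n q.2)) * β ((q.1 : ℝ) / (A * sc n q.2))) * ‖hc g q.1 z‖ := by
    intro q
    simp only [hG]
    rw [norm_mul, Complex.norm_real, Real.norm_of_nonneg (mul_self_nonneg _)]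
  have hGs : Summable G := by
    apply Summable.of_norm
    rw [summable_prod_of_nonneg (fun q => norm_nonneg _)]
    constructor
    · intro k
      simp only [hnorm]
      exact ((hfib k).mul_right _).summable
    · simp only [hnorm]
      have h1 : ∀ k : ℕ, ∑' l : ℕ, (β ((k : ℝ) / (A * sc n l)) * β ((k : ℝ) / (A * sc n l))) *
          ‖hc g k z‖ = (if k = 0 then (0 : ℝ) else 1) * ‖hc g k z‖ := by
        intro k
        exact ((hfib k).mul_right _).tsum_eq
      simp only [h1]
      apply Summable.of_nonneg_of_le _ _ hsum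
      · intro k
        split_ifs
        · simp
        · simp
      · intro k
        split_ifs
        · simp
        · simp
  have h1 : HasSum (fun k : ℕ => if k = 0 then (0 : ℂ) else hc g k z) (∑' q, G q) := by
    apply HasSum.prod_fiberwise hGs.hasSum
    intro k
    simp only [hG]
    have h2 := (Complex.hasSum_ofReal.mpr (hfib k)).mul_right (hc g k z)
    have h4 : (((if k = 0 then (0 : ℝ) else 1 : ℝ)) : ℂ) * hc g k z =
        if k = 0 then (0 : ℂ) else hc g k z := by
      split_ifs <;> simp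
    rw [h4] at h2
    exact h2
  have h2 : HasSum (fun k : ℕ => if k = 0 then (0 : ℂ) else hc g k z) (g z - g 0) := by
    have := hasSum_ite_sub_hasSum hhas 0
    rwa [B18_hc_zero] at this
  have h3' : (∑' q, G q) = g z - g 0 := h1.unique h2
  have hGs' : Summable (fun q : ℕ × ℕ => G q.swap) := hGs.prod_symm
  have h4 : HasSum (fun q : ℕ × ℕ => G q.swap) (g z - g 0) := by
    rw [← h3']
    exact (Equiv.prodComm ℕ ℕ).hasSum_iff.mpr hGs.hasSum
  have h5 := HasSum.prod_fiberwise h4 (fun l => (hGs'.prod_factor l).hasSum)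
  exact h5

end Pool.Agent.HpBall2
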