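import Mathlib
import Pool.Agent.HpBall2.Defs
import Pool.Agent.HpBall.Geom
import Pool.Agent.HpBall.Sphere

set_option autoImplicit false

open MeasureTheory Complex
open scoped ENNReal NNReal

namespace Pool.Agent.HpBall2

open Pool.Agent.HpBall

theorem B26_zero {β : ℝ → ℝ} {a b : ℝ} (hβ : Bump β a b) {N : ℝ} (hN : 0 < N) {k : ℕ}
    (hk : k ∉ Finset.range ⌈b * N⌉₊) : β ((k : ℝ) / N) = 0 := by
  rw [Finset.mem_range, not_lt] at hk
  apply hβ.hi
  rw [le_div_iff₀ hN]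
  exact (Nat.le_ceil _).trans (by exact_mod_cast hk)

/-- TARGET -/
theorem exists_kkv (n : ℕ) (hn : 1 ≤ n) {H : Type} [NormedAddCommGroup H]
    [InnerProductSpace ℂ H] (M : HModel n H) (β : ℝ → ℝ) (a b : ℝ) (hβ : Bump β a b) (N : ℝ)
    (hN : 0 < N) (x : E n) : ∃ t : H, (∀ z : E n, ‖z‖ < 1 → M.ev t z = kk n β N x z) ∧
      ∀ h : H, (inner ℂ t h : ℂ) = cut β N (M.ev h) x := by
  refine ⟨∑ k ∈ Finset.range ⌈b * N⌉₊, ((β ((k : ℝ) / N) * cn n k : ℝ) : ℂ) • M.v k x, ?_, ?_⟩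
  · intro z hz
    unfold kk
    rw [tsum_eq_sum (s := Finset.range ⌈b * N⌉₊)]
    · rw [map_sum, Finset.sum_apply]
      refine Finset.sum_congr rfl fun k _ => ?_
      rw [map_smul, Pi.smul_apply, M.ev_v k x z hz, smul_eq_mul]
    · intro k hk
      rw [B26_zero hβ hN hk]
      simp
  · intro h
    unfold cut
    rw [tsum_eq_sum (s := Finset.range ⌈b * N⌉₊)]
    · rw [sum_inner]
      refine Finset.sum_congr rfl fun k _ => ?_
      rw [inner_smul_left, M.hc_ev, Complex.conj_ofReal]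
      push_cast
      ring
    · intro k hk
      rw [B26_zero hβ hN hk]
      simp

theorem B26_cn_pos (n : ℕ) : 0 < cn n 0 := by
  unfold cn
  rw [Nat.zero_add, Nat.choose_self]
  have := Real.pi_pos
  positivity

/-- TARGET -/
theorem exists_const (n : ℕ) (hn : 1 ≤ n) {H : Type} [NormedAddCommGroup H]
    [InnerProductSpace ℂ H] (M : HModel n H) : ∃ t : H,
      (∀ z : E n, ‖z‖ < 1 → M.ev t z = ((Real.sqrt (cn n 0) : ℝ) : ℂ)) ∧
      ∀ h : H, (inner ℂ t h : ℂ) = M.ev h 0 / ((Real.sqrt (cn n 0) : ℝ) : ℂ) := by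
  refine ⟨((Real.sqrt (cn n 0) : ℝ) : ℂ) • M.v 0 0, ?_, ?_⟩
  · intro z hz
    rw [map_smul, Pi.smul_apply, M.ev_v 0 0 z hz, pow_zero, smul_eq_mul, mul_one]
  · intro h
    rw [inner_smul_left, Complex.conj_ofReal]
    have h1 := M.hc_ev h 0 0
    have h2 : hc (M.ev h) 0 0 = M.ev h 0 := by
      unfold hc tc
      simp
    rw [h2] at h1
    have hpos := Real.sqrt_pos.2 (B26_cn_pos n)
    have hne : ((Real.sqrt (cn n 0) : ℝ) : ℂ) ≠ 0 := by
      exact_mod_cast hpos.ne'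
    rw [eq_div_iff hne, h1]
    have h3 : ((cn n 0 : ℝ) : ℂ) = ((Real.sqrt (cn n 0) : ℝ) : ℂ) * ((Real.sqrt (cn n 0) : ℝ) : ℂ) := by
      rw [← Complex.ofReal_mul, Real.mul_self_sqrt (B26_cn_pos n).le]
    rw [h3]
    ring

end Pool.Agent.HpBall2
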