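import Mathlib
import Pool.Agent.HpBall2.Defs
import Pool.Agent.HpBall.Geom
import Pool.Agent.HpBall.Sphere

set_option autoImplicit false

open MeasureTheory Complex
open scoped ENNReal NNReal

namespace Pool.Agent.HpBall2

open Pool.Agent.HpBall

theorem B27_tendsto_aux (p : ℝ) (hp : 0 < p) (C : ℝ) {H : Type} [NormedAddCommGroup H]
    (x₀ : H) :
    Filter.Tendsto (fun x : H => ENNReal.ofReal (C * ‖x - x₀‖ ^ p)) (nhds x₀) (nhds 0) := by
  have h1 : Filter.Tendsto (fun x : H => ENNReal.ofReal (C * ‖x - x₀‖ ^ p)) (nhds x₀)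
      (nhds (ENNReal.ofReal (C * ‖x₀ - x₀‖ ^ p))) := by
    apply ENNReal.tendsto_ofReal
    apply Filter.Tendsto.const_mul
    apply Filter.Tendsto.rpow_const
    · exact ((continuous_id.sub continuous_const).norm).tendsto x₀
    · exact Or.inr hp.le
  simpa [Real.zero_rpow hp.ne'] using h1

/-- TARGET -/
theorem pfun_lsc (p : ℝ) (hp : 0 < p) {H : Type} [NormedAddCommGroup H]
    [InnerProductSpace ℂ H] (N : H → ℝ≥0∞) (hN : PFun p N) :
    N 0 = 0 ∧ (∀ x, N x ≠ ⊤) ∧ Continuous N := by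
  have h0 : N 0 = 0 := by
    have := hN.smul 0 0
    rw [smul_zero, norm_zero, Real.zero_rpow hp.ne', ENNReal.ofReal_zero, zero_mul] at this
    exact this
  obtain ⟨C, hC, hbd⟩ := hN.bd
  have hfin : ∀ x, N x ≠ ⊤ := fun x => ne_top_of_le_ne_top ENNReal.ofReal_ne_top (hbd x)
  refine ⟨h0, hfin, ?_⟩
  have hkey : ∀ x y, N x ≤ N y + ENNReal.ofReal (C * ‖x - y‖ ^ p) := by
    intro x y
    calc N x = N (y + (x - y)) := by rw [add_sub_cancel]
      _ ≤ N y + N (x - y) := hN.add _ _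
      _ ≤ N y + ENNReal.ofReal (C * ‖x - y‖ ^ p) := by gcongr; exact hbd _
  rw [continuous_iff_continuousAt]
  intro x₀
  have ht := B27_tendsto_aux p hp C x₀
  have hlow : Filter.Tendsto (fun x : H => N x₀ - ENNReal.ofReal (C * ‖x - x₀‖ ^ p)) (nhds x₀)
      (nhds (N x₀)) := by
    have h1 := ENNReal.Tendsto.sub (tendsto_const_nhds (x := N x₀) (f := nhds x₀)) ht
      (Or.inl (hfin x₀))
    simpa using h1
  have hup : Filter.Tendsto (fun x : H => N x₀ + ENNReal.ofReal (C * ‖x - x₀‖ ^ p)) (nhds x₀)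
      (nhds (N x₀)) := by
    have h1 := (tendsto_const_nhds (x := N x₀) (f := nhds x₀)).add ht
    simpa using h1
  refine tendsto_of_tendsto_of_tendsto_of_le_of_le hlow hup ?_ ?_
  · intro x
    simp only []
    rw [tsub_le_iff_right]
    have := hkey x₀ x
    rwa [norm_sub_rev] at this
  · intro x
    exact hkey x x₀

theorem B27_aemeas (n : ℕ) (hn : 1 ≤ n) (g : E n → ℂ)
    (hg : DifferentiableOn ℂ g (Metric.ball 0 1)) (r : ℝ) (hr0 : 0 ≤ r) (hr1 : r < 1) :
    AEMeasurable (fun ξ : E n => g ((r : ℂ) • ξ)) (sig n) := by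
  have hS : MeasurableSet {ξ : E n | (r : ℂ) • ξ ∈ Metric.ball (0 : E n) 1} := by
    apply (Metric.isOpen_ball.preimage _).measurableSet
    exact continuous_const_smul _
  have hc : ContinuousOn (fun ξ : E n => g ((r : ℂ) • ξ))
      {ξ : E n | (r : ℂ) • ξ ∈ Metric.ball (0 : E n) 1} := by
    apply hg.continuousOn.comp (continuous_const_smul _).continuousOn
    intro ξ hξ
    exact hξ
  have h1 := hc.aemeasurable (μ := sig n) hS
  rwa [Measure.restrict_eq_self_of_ae_mem] at h1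
  filter_upwards [sig_ae_norm hn] with ξ hξ
  change (r : ℂ) • ξ ∈ Metric.ball (0 : E n) 1
  rw [mem_ball_zero_iff, norm_smul, hξ, mul_one, Complex.norm_real, Real.norm_of_nonneg hr0]
  exact hr1

theorem B27_rpow_split (p : ℝ) (hp : 0 < p) (hp1 : p ≤ 1) (s t : ℝ) (hs : 0 < s) (ht : 0 ≤ t) :
    t ^ p ≤ s ^ p + s ^ (p - 2) * t ^ (2 : ℝ) := by
  rcases le_or_gt t s with h | h
  · have h1 : t ^ p ≤ s ^ p := Real.rpow_le_rpow ht h hp.le
    have h2 : 0 ≤ s ^ (p - 2) * t ^ (2 : ℝ) := by positivity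
    linarith
  · have ht0 : 0 < t := hs.trans h
    have h1 : t ^ p = t ^ (p - 2) * t ^ (2 : ℝ) := by
      rw [← Real.rpow_add ht0]; ring_nf
    have h2 : t ^ (p - 2) ≤ s ^ (p - 2) :=
      Real.rpow_le_rpow_of_nonpos hs h.le (by linarith)
    have h3 : 0 ≤ s ^ p := by positivity
    rw [h1]
    have h4 : t ^ (p - 2) * t ^ (2 : ℝ) ≤ s ^ (p - 2) * t ^ (2 : ℝ) :=
      mul_le_mul_of_nonneg_right h2 (by positivity)
    linarith

theorem B27_bd (n : ℕ) (p : ℝ) (hp : 0 < p) (hp1 : p ≤ 1) {H : Type}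
    [NormedAddCommGroup H] [InnerProductSpace ℂ H] (M : HModel n H) (h : H) (r : ℝ)
    (hr0 : 0 ≤ r) (hr1 : r < 1) :
    ∫⁻ ξ, ENNReal.ofReal (‖M.ev h ((r : ℂ) • ξ)‖ ^ p) ∂(sig n) ≤
      ENNReal.ofReal (((sig n Set.univ).toReal + 1) * ‖h‖ ^ p) := by
  by_cases h0 : h = 0
  · subst h0
    simp [Real.zero_rpow hp.ne']
  · have hs : 0 < ‖h‖ := norm_pos_iff.2 h0
    have hcs : 0 ≤ ‖h‖ ^ (p - 2) := by positivity
    calc ∫⁻ ξ, ENNReal.ofReal (‖M.ev h ((r : ℂ) • ξ)‖ ^ p) ∂(sig n)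
        ≤ ∫⁻ ξ, (ENNReal.ofReal (‖h‖ ^ p) + ENNReal.ofReal (‖h‖ ^ (p - 2)) *
            ENNReal.ofReal (‖M.ev h ((r : ℂ) • ξ)‖ ^ (2 : ℝ))) ∂(sig n) := by
          apply lintegral_mono
          intro ξ
          simp only []
          rw [← ENNReal.ofReal_mul hcs, ← ENNReal.ofReal_add (by positivity) (by positivity)]
          apply ENNReal.ofReal_le_ofReal
          exact B27_rpow_split p hp hp1 _ _ hs (norm_nonneg _)
      _ = ENNReal.ofReal (‖h‖ ^ p) * sig n Set.univ + ENNReal.ofReal (‖h‖ ^ (p - 2)) *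
            ∫⁻ ξ, ENNReal.ofReal (‖M.ev h ((r : ℂ) • ξ)‖ ^ (2 : ℝ)) ∂(sig n) := by
          rw [lintegral_add_left measurable_const, lintegral_const,
            lintegral_const_mul' _ _ ENNReal.ofReal_ne_top]
      _ ≤ ENNReal.ofReal (‖h‖ ^ p) * sig n Set.univ + ENNReal.ofReal (‖h‖ ^ (p - 2)) *
            ENNReal.ofReal (‖h‖ ^ 2) := by
          gcongr
          exact M.two h r hr0 hr1
      _ = ENNReal.ofReal (((sig n Set.univ).toReal + 1) * ‖h‖ ^ p) := by
          have h1 : sig n Set.univ = ENNReal.ofReal (sig n Set.univ).toReal := by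
            rw [ENNReal.ofReal_toReal (measure_ne_top _ _)]
          rw [h1, ← ENNReal.ofReal_mul (by positivity), ← ENNReal.ofReal_mul hcs,
            ← ENNReal.ofReal_add (by positivity) (by positivity)]
          congr 1
          have h2 : ‖h‖ ^ (p - 2) * ‖h‖ ^ 2 = ‖h‖ ^ p := by
            rw [← Real.rpow_natCast ‖h‖ 2, ← Real.rpow_add hs]
            norm_num
          rw [h2, ENNReal.toReal_ofReal (by positivity)]
          ring

/-- TARGET -/
theorem NF_pfun (n : ℕ) (hn : 1 ≤ n) (p : ℝ) (hp : 0 < p) (hp1 : p ≤ 1) {H : Type}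
    [NormedAddCommGroup H] [InnerProductSpace ℂ H] (M : HModel n H) :
    PFun p (fun h : H => NF n p (M.ev h)) := by
  refine ⟨?_, ?_, ?_⟩
  · intro x y
    unfold NF
    apply iSup₂_le
    intro r hr
    calc ∫⁻ ξ, ENNReal.ofReal (‖M.ev (x + y) ((r : ℂ) • ξ)‖ ^ p) ∂(sig n)
        ≤ ∫⁻ ξ, (ENNReal.ofReal (‖M.ev x ((r : ℂ) • ξ)‖ ^ p) +
            ENNReal.ofReal (‖M.ev y ((r : ℂ) • ξ)‖ ^ p)) ∂(sig n) := by
          apply lintegral_mono
          intro ξ
          simp only []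
          rw [← ENNReal.ofReal_add (by positivity) (by positivity)]
          apply ENNReal.ofReal_le_ofReal
          rw [map_add, Pi.add_apply]
          calc ‖M.ev x ((r : ℂ) • ξ) + M.ev y ((r : ℂ) • ξ)‖ ^ p
              ≤ (‖M.ev x ((r : ℂ) • ξ)‖ + ‖M.ev y ((r : ℂ) • ξ)‖) ^ p :=
                Real.rpow_le_rpow (norm_nonneg _) (norm_add_le _ _) hp.le
            _ ≤ _ := Real.rpow_add_le_add_rpow (norm_nonneg _) (norm_nonneg _) hp.le hp1
      _ = ∫⁻ ξ, ENNReal.ofReal (‖M.ev x ((r : ℂ) • ξ)‖ ^ p) ∂(sig n) +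
            ∫⁻ ξ, ENNReal.ofReal (‖M.ev y ((r : ℂ) • ξ)‖ ^ p) ∂(sig n) := by
          apply lintegral_add_left'
          have h1 := B27_aemeas n hn (M.ev x) (M.hol x) r hr.1 hr.2
          exact (h1.norm.pow_const p).ennreal_ofReal
      _ ≤ _ := by
          apply add_le_add
          · exact le_iSup₂_of_le r hr le_rfl
          · exact le_iSup₂_of_le r hr le_rfl
  · intro c x
    unfold NF
    simp only [ENNReal.mul_iSup]
    congr 1
    funext r
    congr 1
    funext hr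
    rw [← lintegral_const_mul' _ _ ENNReal.ofReal_ne_top]
    apply lintegral_congr
    intro ξ
    rw [← ENNReal.ofReal_mul (by positivity), map_smul, Pi.smul_apply, norm_smul,
      Real.mul_rpow (norm_nonneg _) (norm_nonneg _)]
  · refine ⟨(sig n Set.univ).toReal + 1, by positivity, ?_⟩
    intro h
    unfold NF
    apply iSup₂_le
    intro r hr
    exact B27_bd n p hp hp1 M h r hr.1 hr.2


end Pool.Agent.HpBall2
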