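import Mathlib
import Pool.Agent.HpBall2.Defs
import Pool.Agent.HpBall.Geom
import Pool.Agent.HpBall.Sphere
import Pool.Agent.HpBall2.Synth
import Pool.Agent.HpBall2.AnaGav
import Pool.Agent.HpBall2.GavPt
import Pool.Agent.HpBall2.KkDecay
import Pool.Agent.HpBall2.Bands
import Pool.Agent.HpBall2.Basic

set_option autoImplicit false

open MeasureTheory Complex
open scoped ENNReal NNReal

namespace Pool.Agent.HpBall2

open Pool.Agent.HpBall

theorem B25_sc_one (n l : ℕ) : 1 ≤ sc n l := by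
  unfold sc
  exact Real.one_le_rpow (by norm_num) (by positivity)

theorem B25_sc_pow (n l : ℕ) (hn : 1 ≤ n) : sc n l ^ (n : ℝ) = 2 ^ l := by
  unfold sc
  rw [← Real.rpow_mul (by norm_num), div_mul_cancel₀, Real.rpow_natCast]
  have : (0:ℝ) < n := by exact_mod_cast hn
  exact this.ne'

/-- TARGET -/
theorem sample_analysis (n : ℕ) (hn : 1 ≤ n) (p : ℝ) (hp : 0 < p) (hp1 : p ≤ 1 ∨ p = 2)
    (pt : ℕ → ℕ → E n) (c C : ℝ) (hT : TreeFam n pt c C) (x : ℕ → ℕ → E n)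
    (hx : ∀ l i, ‖x l i‖ = 1) (C₁ : ℝ) (hxp : ∀ l i, i < 2 ^ l → sc n l * rho (x l i) (pt l i) ≤ C₁)
    (A : ℝ) (hA : 0 < A) (β : ℝ → ℝ) (a b : ℝ) (hβ : Bump β a b) : ∃ D : ℝ, 0 < D ∧
    ∀ (g : E n → ℂ) (M : ℝ), 0 ≤ M → HB n p M g →
    ∀ L : ℕ, fnorm p L (fun l i => cut β (A * sc n l) g (x l i)) ≤ D * M := by
  obtain ⟨K, hK, H⟩ := analysis_gav n hn p hp hp1
  have hn0 : (0:ℝ) < n := by exact_mod_cast hn
  obtain ⟨Da, hDa, Ha⟩ := H K le_rfl pt c C hT A hA β a b hβ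
  obtain ⟨Dg, hDg, Hg⟩ := gav_point n hn β a b hβ K (by linarith) A hA (A * C₁)
  obtain ⟨f1, f2, f3, f4⟩ := fnorm_basic p hp
  refine ⟨Dg ^ p * Da, by positivity, fun g M hM hg L => ?_⟩
  have h1 : fnorm p L (fun l i => cut β (A * sc n l) g (x l i)) ≤
      fnorm p L (fun l i => (Dg : ℂ) * ((gav n β (A * sc n l) K g (pt l i) : ℝ) : ℂ)) := by
    refine f1 L _ _ (fun l hl i hi => ?_)
    have hs := B25_sc_one n l
    have h2 := Hg (A * sc n l) (by nlinarith) g hg.1 (pt l i) (x l i) (hT.unit l i) (hx l i) (by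
      rw [rho_comm, mul_assoc]
      exact mul_le_mul_of_nonneg_left (hxp l i hi) hA.le)
    refine h2.trans ?_
    rw [norm_mul, Complex.norm_real, Complex.norm_real, Real.norm_eq_abs, Real.norm_eq_abs,
      abs_of_pos hDg]
    exact mul_le_mul_of_nonneg_left (le_abs_self _) hDg.le
  refine h1.trans ?_
  rw [f3, Complex.norm_real, Real.norm_eq_abs, abs_of_pos hDg, mul_assoc]
  exact mul_le_mul_of_nonneg_left (Ha g M hM hg L) (by positivity)

/-- TARGET -/
theorem sample_synthesis (n : ℕ) (hn : 1 ≤ n) (p : ℝ) (hp : 0 < p) (hp1 : p ≤ 1 ∨ p = 2)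
    (pt : ℕ → ℕ → E n) (c C : ℝ) (hT : TreeFam n pt c C) (x : ℕ → ℕ → E n)
    (hx : ∀ l i, ‖x l i‖ = 1) (C₁ : ℝ) (hxp : ∀ l i, i < 2 ^ l → sc n l * rho (x l i) (pt l i) ≤ C₁)
    (A : ℝ) (hA : 0 < A) (β : ℝ → ℝ) (a b : ℝ) (hβ : Bump β a b) (w : ℕ → ℕ → ℝ) (C₂ : ℝ)
    (hw : ∀ l i, i < 2 ^ l → |w l i| ≤ C₂ * (1 / 2 ^ l)) : ∃ D : ℝ, 0 < D ∧
    ∀ (y : ℕ → ℕ → ℂ) (L : ℕ) (r : ℝ), 0 ≤ r → r ≤ 1 →
      ∫⁻ ξ, ENNReal.ofReal (‖∑ l ∈ Finset.range L, ∑ i ∈ Finset.range (2 ^ l),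
        y l i * ((w l i : ℝ) : ℂ) * kk n β (A * sc n l) (x l i) ((r : ℂ) • ξ)‖ ^ p) ∂(sig n) ≤
        ENNReal.ofReal (D * fnorm p L y) := by
  obtain ⟨K, hK, H⟩ := synth n hn p hp hp1
  have hn0 : (0:ℝ) < n := by exact_mod_cast hn
  obtain ⟨Bk, hBk, Hk⟩ := kk_decay n hn β a b hβ K (by linarith) A hA
  have hC1 : 0 ≤ C₁ := by
    refine le_trans ?_ (hxp 0 0 (by norm_num))
    exact mul_nonneg (by have := B25_sc_one n 0; linarith) (rho_nonneg _ _)
  have hC2 : 0 ≤ C₂ := by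
    have := hw 0 0 (by norm_num)
    have h2 := abs_nonneg (w 0 0)
    norm_num at this
    linarith
  have hab : 0 < b / a := div_pos (hβ.apos.trans hβ.ab) hβ.apos
  obtain ⟨B, hB⟩ : ∃ B, B = C₂ * Bk * A ^ (n : ℝ) * (2 * (1 + A * C₁)) ^ K := ⟨_, rfl⟩
  obtain ⟨D, hD, HD⟩ := H K le_rfl pt c C hT A hA B (n * ⌈b / a⌉₊)
  refine ⟨D, hD, fun y L r hr0 hr1 => ?_⟩
  obtain ⟨Ψ, hΨ⟩ : ∃ Ψ : ℕ → ℕ → E n → ℂ, ∀ l i z, Ψ l i z =
      (if i < 2 ^ l then ((w l i : ℝ) : ℂ) else 0) * kk n β (A * sc n l) (x l i) z :=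
    ⟨_, fun l i z => rfl⟩
  have hsc : ∀ l, 0 < A * sc n l := fun l => by
    have := B25_sc_one n l
    exact mul_pos hA (by linarith)
  have hband : ∀ l i, Band n a b (A * sc n l) (Ψ l i) := by
    intro l i
    have h1 := band_sum n a b (A * sc n l) ({()} : Finset Unit)
      (fun _ => (if i < 2 ^ l then ((w l i : ℝ) : ℂ) else 0))
      (fun _ => kk n β (A * sc n l) (x l i))
      (fun _ _ => band_kk n β a b hβ (A * sc n l) (hsc l) (x l i))
    have h2 : Ψ l i = fun z => ∑ _j ∈ ({()} : Finset Unit),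
        (if i < 2 ^ l then ((w l i : ℝ) : ℂ) else 0) * kk n β (A * sc n l) (x l i) z := by
      funext z
      rw [Finset.sum_singleton, hΨ]
    rw [h2]
    exact h1
  have key := HD Ψ (fun l i => band_cont n a b _ _ (hband l i)) ?_ ?_ y L r hr0 hr1
  · refine le_trans (le_of_eq ?_) key
    refine lintegral_congr (fun ξ => ?_)
    congr 3
    refine Finset.sum_congr rfl (fun l _ => Finset.sum_congr rfl (fun i hi => ?_))
    rw [hΨ, if_pos (Finset.mem_range.1 hi)]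
    ring
  · intro l i hi ξ hξ r hr0 hr1
    rw [hΨ, if_pos hi, norm_mul, Complex.norm_real, Real.norm_eq_abs]
    have hs := B25_sc_one n l
    have hN : A ≤ A * sc n l := by nlinarith
    have h1 := Hk (A * sc n l) hN (x l i) ξ (hx l i) hξ r hr0 hr1
    have h2 := hw l i hi
    have hr1' := rho_nonneg ξ (x l i)
    have hr2' := rho_nonneg ξ (pt l i)
    have hr3' := rho_nonneg (x l i) (pt l i)
    have hNp := hsc l
    have h3 : 1 + A * sc n l * rho ξ (pt l i) ≤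
        2 * (1 + A * C₁) * (1 + A * sc n l * rho ξ (x l i)) := by
      have h4 := one_add_rho_mul (x := ξ) (y := x l i) (z := pt l i) hξ.le (hx l i)
        (hT.unit l i).le hNp.le
      have h5 : A * sc n l * rho (x l i) (pt l i) ≤ A * C₁ := by
        rw [mul_assoc]; exact mul_le_mul_of_nonneg_left (hxp l i hi) hA.le
      have h6 : 0 ≤ A * sc n l * rho ξ (x l i) := by positivity
      refine h4.trans ?_
      have h7 : 2 * (1 + A * sc n l * rho ξ (x l i)) * (1 + A * sc n l * rho (x l i) (pt l i)) ≤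
          2 * (1 + A * sc n l * rho ξ (x l i)) * (1 + A * C₁) := by
        apply mul_le_mul_of_nonneg_left (by linarith) (by positivity)
      linarith
    have hp1' : 0 < 1 + A * sc n l * rho ξ (x l i) := by positivity
    have hp2' : 0 < 1 + A * sc n l * rho ξ (pt l i) := by positivity
    have hp3' : 0 < 2 * (1 + A * C₁) := by positivity
    have h8 : (1 + A * sc n l * rho ξ (x l i)) ^ (-K) ≤
        (2 * (1 + A * C₁)) ^ K * (1 + A * sc n l * rho ξ (pt l i)) ^ (-K) := by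
      have h9 : ((2 * (1 + A * C₁)) * (1 + A * sc n l * rho ξ (x l i))) ^ (-K) ≤
          (1 + A * sc n l * rho ξ (pt l i)) ^ (-K) :=
        Real.rpow_le_rpow_of_nonpos hp2' h3 (by linarith)
      rw [Real.mul_rpow hp3'.le hp1'.le] at h9
      calc (1 + A * sc n l * rho ξ (x l i)) ^ (-K) =
          (2 * (1 + A * C₁)) ^ K * ((2 * (1 + A * C₁)) ^ (-K) *
            (1 + A * sc n l * rho ξ (x l i)) ^ (-K)) := by
            rw [← mul_assoc, ← Real.rpow_add hp3', add_neg_cancel, Real.rpow_zero, one_mul]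
        _ ≤ _ := mul_le_mul_of_nonneg_left h9 (by positivity)
    have h10 : (A * sc n l) ^ (n : ℝ) = A ^ (n : ℝ) * 2 ^ l := by
      rw [Real.mul_rpow hA.le (by linarith), B25_sc_pow n l hn]
    calc |w l i| * ‖kk n β (A * sc n l) (x l i) ((r : ℂ) • ξ)‖
        ≤ (C₂ * (1 / 2 ^ l)) * (Bk * (A * sc n l) ^ (n : ℝ) *
            (1 + A * sc n l * rho ξ (x l i)) ^ (-K)) := by
          apply mul_le_mul h2 h1 (norm_nonneg _) (by positivity)
      _ = C₂ * Bk * A ^ (n : ℝ) * (1 + A * sc n l * rho ξ (x l i)) ^ (-K) := by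
          rw [h10]
          have : (2:ℝ) ^ l ≠ 0 := by positivity
          field_simp
      _ ≤ C₂ * Bk * A ^ (n : ℝ) * ((2 * (1 + A * C₁)) ^ K *
            (1 + A * sc n l * rho ξ (pt l i)) ^ (-K)) :=
          mul_le_mul_of_nonneg_left h8 (by positivity)
      _ = B * (1 + A * sc n l * rho ξ (pt l i)) ^ (-K) := by rw [hB]; ring
  · intro l m i j hlm r _ _
    refine band_orth n hn a b (A * sc n l) (A * sc n m) _ _ (hband l i) (hband m j) ?_ r
    have hk : (b / a : ℝ) ≤ 2 ^ ((⌈b / a⌉₊ : ℕ)) := by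
      refine (Nat.le_ceil _).trans ?_
      exact_mod_cast (Nat.lt_two_pow_self (n := ⌈b / a⌉₊)).le
    have hsm : sc n l * (b / a) ≤ sc n m := by
      have h1 : sc n (l + n * ⌈b / a⌉₊) ≤ sc n m := by
        unfold sc
        apply Real.rpow_le_rpow_of_exponent_le (by norm_num)
        apply div_le_div_of_nonneg_right _ hn0.le
        exact_mod_cast hlm
      have h2 : sc n (l + n * ⌈b / a⌉₊) = sc n l * 2 ^ ((⌈b / a⌉₊ : ℕ)) := by
        unfold sc
        rw [← Real.rpow_natCast, ← Real.rpow_add (by norm_num)]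
        congr 1
        push_cast
        field_simp
      rw [h2] at h1
      refine le_trans ?_ h1
      exact mul_le_mul_of_nonneg_left hk (by have := B25_sc_one n l; linarith)
    have ha := hβ.apos
    have h3 : a * (sc n l * (b / a)) = b * sc n l := by field_simp
    have h4 : b * sc n l ≤ a * sc n m := by
      rw [← h3]; exact mul_le_mul_of_nonneg_left hsm ha.le
    nlinarith

end Pool.Agent.HpBall2
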