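import Mathlib
import Pool.Agent.HpBall2.Defs

set_option autoImplicit false

open MeasureTheory Complex
open scoped ENNReal NNReal

namespace Pool.Agent.HpBall2

open Pool.Agent.HpBall

theorem B19_ineq (q η : ℝ) (hq : 0 < q) (hη : 0 < η) : ∃ C : ℝ, 0 < C ∧ ∀ a b : ℝ, 0 ≤ a →
    0 ≤ b → b ^ q ≤ C * ((a + b) ^ q - a ^ q) + η * a ^ q := by
  have hr0 : 0 < η ^ (1 / q) := Real.rpow_pos_of_pos hη _
  set r0 : ℝ := η ^ (1 / q) with hr
  have hr0q : r0 ^ q = η := by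
    rw [hr, ← Real.rpow_mul hη.le, one_div, inv_mul_cancel₀ hq.ne', Real.rpow_one]
  have h1 : (1 + r0) ^ (-q) < 1 := Real.rpow_lt_one_of_one_lt_of_neg (by linarith) (by linarith)
  have hκ : 0 < 1 - (1 + r0) ^ (-q) := by linarith
  refine ⟨(1 - (1 + r0) ^ (-q))⁻¹, inv_pos.2 hκ, fun a b ha hb => ?_⟩
  have hab : a ^ q ≤ (a + b) ^ q := Real.rpow_le_rpow ha (by linarith) hq.le
  have haq : 0 ≤ a ^ q := Real.rpow_nonneg ha _
  rcases le_or_gt (b ^ q) (η * a ^ q) with h | h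
  · have : 0 ≤ (1 - (1 + r0) ^ (-q))⁻¹ * ((a + b) ^ q - a ^ q) :=
      mul_nonneg (inv_pos.2 hκ).le (by linarith)
    linarith
  · have h2 : r0 * a ≤ b := by
      by_contra hcon
      push Not at hcon
      have h3 := Real.rpow_lt_rpow hb hcon hq
      rw [Real.mul_rpow hr0.le ha, hr0q] at h3
      linarith
    have h4 : (1 + r0) ^ q * a ^ q ≤ (a + b) ^ q := by
      rw [← Real.mul_rpow (by linarith) ha]
      exact Real.rpow_le_rpow (by positivity) (by linarith) hq.le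
    have h5 : a ^ q ≤ (1 + r0) ^ (-q) * (a + b) ^ q := by
      rw [Real.rpow_neg (by linarith), inv_mul_eq_div, le_div_iff₀ (by positivity), mul_comm]
      exact h4
    have h6 : b ^ q ≤ (a + b) ^ q := Real.rpow_le_rpow hb (by linarith) hq.le
    have h7 : (1 - (1 + r0) ^ (-q)) * b ^ q ≤ (a + b) ^ q - a ^ q := by
      have := mul_le_mul_of_nonneg_left h6 hκ.le
      linarith
    have h8 : b ^ q ≤ (1 - (1 + r0) ^ (-q))⁻¹ * ((a + b) ^ q - a ^ q) := by
      rw [le_inv_mul_iff₀ hκ]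
      exact h7
    have h9 : 0 ≤ η * a ^ q := by positivity
    linarith

theorem B19_sum (g : ℕ → ℝ) (k : ℕ) (hk : 0 < k) (M : ℕ) :
    ∑ j ∈ Finset.range (M * k), g (j / k) = k * ∑ j ∈ Finset.range M, g j := by
  induction M with
  | zero => simp
  | succ M ih =>
    rw [Nat.succ_mul, Finset.sum_range_add, ih, Finset.sum_range_succ]
    have : ∑ x ∈ Finset.range k, g ((M * k + x) / k) = ∑ _x ∈ Finset.range k, g M := by
      refine Finset.sum_congr rfl fun x hx => ?_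
      have hx' := Finset.mem_range.1 hx
      congr 1
      rw [mul_comm M k, Nat.mul_add_div hk, Nat.div_eq_of_lt hx', add_zero]
    rw [this, Finset.sum_const, Finset.card_range, nsmul_eq_mul]
    ring

/-- the lower part, written at a higher level -/
theorem B19_low (p : ℝ) (L m : ℕ) (x : ℕ → ℕ → ℂ) :
    (1 / 2 ^ (L + m)) * ∑ j ∈ Finset.range (2 ^ (L + m)),
      (∑ l ∈ Finset.range L, ‖x l (j / 2 ^ (L + m - l))‖ ^ 2) ^ (p / 2) = fnorm p L x := by
  unfold fnorm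
  have h1 : ∀ j : ℕ, (∑ l ∈ Finset.range L, ‖x l (j / 2 ^ (L + m - l))‖ ^ 2) =
      (∑ l ∈ Finset.range L, ‖x l (j / 2 ^ m / 2 ^ (L - l))‖ ^ 2) := by
    intro j
    refine Finset.sum_congr rfl fun l hl => ?_
    have hl' := Finset.mem_range.1 hl
    rw [Nat.div_div_eq_div_mul, ← pow_add, show m + (L - l) = L + m - l by omega]
  simp only [h1]
  have h2 := B19_sum (fun j => (∑ l ∈ Finset.range L, ‖x l (j / 2 ^ (L - l))‖ ^ 2) ^ (p / 2))
    (2 ^ m) (by positivity) (2 ^ L)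
  have h5 : 2 ^ (L + m) = 2 ^ L * 2 ^ m := pow_add 2 L m
  rw [show Finset.range (2 ^ (L + m)) = Finset.range (2 ^ L * 2 ^ m) by rw [h5], h2]
  push_cast
  rw [pow_add]
  have h3 : (2 : ℝ) ^ m ≠ 0 := by positivity
  have h4 : (2 : ℝ) ^ L ≠ 0 := by positivity
  field_simp

/-- the splitting of the square sum -/
theorem B19_split (L m : ℕ) (x : ℕ → ℕ → ℂ) (j : ℕ) :
    ∑ l ∈ Finset.range (L + m), ‖x l (j / 2 ^ (L + m - l))‖ ^ 2 =
      (∑ l ∈ Finset.range L, ‖x l (j / 2 ^ (L + m - l))‖ ^ 2) +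
      ∑ l ∈ Finset.range (L + m),
        ‖(if L ≤ l then x l (j / 2 ^ (L + m - l)) else 0 : ℂ)‖ ^ 2 := by
  rw [Finset.sum_range_add, Finset.sum_range_add]
  have h1 : ∑ l ∈ Finset.range L, ‖(if L ≤ l then x l (j / 2 ^ (L + m - l)) else 0 : ℂ)‖ ^ 2 = 0 := by
    refine Finset.sum_eq_zero fun l hl => ?_
    have hl' := Finset.mem_range.1 hl
    rw [if_neg (by omega)]
    simp
  rw [h1, zero_add]
  congr 1
  refine Finset.sum_congr rfl fun l _ => ?_
  rw [if_pos (by omega)]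

theorem B19_mono (p : ℝ) (hp : 0 < p) (x : ℕ → ℕ → ℂ) : Monotone fun L => fnorm p L x := by
  refine monotone_nat_of_le_succ fun L => ?_
  show fnorm p L x ≤ fnorm p (L + 1) x
  rw [← B19_low p L 1 x]
  unfold fnorm
  refine mul_le_mul_of_nonneg_left (Finset.sum_le_sum fun j _ => ?_) (by positivity)
  refine Real.rpow_le_rpow (by positivity) ?_ (by positivity)
  rw [B19_split L 1 x j]
  have : 0 ≤ ∑ l ∈ Finset.range (L + 1),
        ‖(if L ≤ l then x l (j / 2 ^ (L + 1 - l)) else 0 : ℂ)‖ ^ 2 := by positivity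
  linarith

/-- the main estimate -/
theorem B19_est (p : ℝ) (η C : ℝ)
    (hC : ∀ a b : ℝ, 0 ≤ a → 0 ≤ b → b ^ (p / 2) ≤ C * ((a + b) ^ (p / 2) - a ^ (p / 2)) +
      η * a ^ (p / 2)) (x : ℕ → ℕ → ℂ) (L m : ℕ) :
    fnorm p (L + m) (fun l i => if L ≤ l then x l i else 0) ≤
      C * (fnorm p (L + m) x - fnorm p L x) + η * fnorm p L x := by
  rw [← B19_low p L m x]
  unfold fnorm
  have h1 : ∀ j : ℕ, (∑ l ∈ Finset.range (L + m),
      ‖(if L ≤ l then x l (j / 2 ^ (L + m - l)) else 0 : ℂ)‖ ^ 2) ^ (p / 2) ≤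
      C * ((∑ l ∈ Finset.range (L + m), ‖x l (j / 2 ^ (L + m - l))‖ ^ 2) ^ (p / 2) -
        (∑ l ∈ Finset.range L, ‖x l (j / 2 ^ (L + m - l))‖ ^ 2) ^ (p / 2)) +
      η * (∑ l ∈ Finset.range L, ‖x l (j / 2 ^ (L + m - l))‖ ^ 2) ^ (p / 2) := by
    intro j
    rw [B19_split L m x j]
    exact hC _ _ (by positivity) (by positivity)
  calc _ ≤ (1 / 2 ^ (L + m)) * ∑ j ∈ Finset.range (2 ^ (L + m)),
        (C * ((∑ l ∈ Finset.range (L + m), ‖x l (j / 2 ^ (L + m - l))‖ ^ 2) ^ (p / 2) -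
        (∑ l ∈ Finset.range L, ‖x l (j / 2 ^ (L + m - l))‖ ^ 2) ^ (p / 2)) +
      η * (∑ l ∈ Finset.range L, ‖x l (j / 2 ^ (L + m - l))‖ ^ 2) ^ (p / 2)) :=
        mul_le_mul_of_nonneg_left (Finset.sum_le_sum fun j _ => h1 j) (by positivity)
    _ = _ := by
        rw [Finset.sum_add_distrib, ← Finset.mul_sum, ← Finset.mul_sum, Finset.sum_sub_distrib]
        ring

/-- TARGET -/
theorem fnorm_tail (p : ℝ) (hp : 0 < p) (x : ℕ → ℕ → ℂ) (D : ℝ)
    (h : ∀ L, fnorm p L x ≤ D) (ε : ℝ) (hε : 0 < ε) :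
    ∃ L₀ : ℕ, ∀ L ≥ L₀, ∀ L' : ℕ, fnorm p L' (fun l i => if L ≤ l then x l i else 0) ≤ ε := by
  have hD : 0 ≤ D := by
    refine le_trans ?_ (h 0)
    unfold fnorm
    positivity
  set η : ℝ := ε / (2 * (D + 1)) with hη
  have hη0 : 0 < η := by positivity
  obtain ⟨C, hC0, hC⟩ := B19_ineq (p / 2) η (by positivity) hη0
  have hmono := B19_mono p hp x
  have hbdd : BddAbove (Set.range fun L => fnorm p L x) := ⟨D, by rintro _ ⟨L, rfl⟩; exact h L⟩
  have hlim := tendsto_atTop_ciSup hmono hbdd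
  have hev := (Metric.tendsto_atTop.1 hlim) (ε / (2 * C)) (by positivity)
  obtain ⟨L₀, hL₀⟩ := hev
  refine ⟨L₀, fun L hL L' => ?_⟩
  rcases lt_or_ge L' L with hlt | hge
  · have h0 : fnorm p L' (fun l i => if L ≤ l then x l i else 0) = 0 := by
      unfold fnorm
      have : ∀ j : ℕ, (∑ l ∈ Finset.range L',
          ‖(if L ≤ l then x l (j / 2 ^ (L' - l)) else 0 : ℂ)‖ ^ 2) = 0 := by
        intro j
        refine Finset.sum_eq_zero fun l hl => ?_
        have hl' := Finset.mem_range.1 hl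
        rw [if_neg (by omega)]
        simp
      simp only [this, Real.zero_rpow (show p / 2 ≠ 0 by positivity)]
      simp
    rw [h0]
    exact hε.le
  · obtain ⟨m, rfl⟩ := Nat.exists_eq_add_of_le hge
    refine (B19_est p η C hC x L m).trans ?_
    have e1 := hL₀ L hL
    rw [Real.dist_eq] at e1
    have e2 : fnorm p (L + m) x ≤ ⨆ L, fnorm p L x := le_ciSup hbdd (L + m)
    have e3 := (abs_lt.1 e1).1
    have e4 : fnorm p (L + m) x - fnorm p L x ≤ ε / (2 * C) := by linarith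
    have e5 : C * (fnorm p (L + m) x - fnorm p L x) ≤ ε / 2 := by
      calc C * (fnorm p (L + m) x - fnorm p L x) ≤ C * (ε / (2 * C)) :=
            mul_le_mul_of_nonneg_left e4 hC0.le
        _ = ε / 2 := by field_simp
    have e6 : η * fnorm p L x ≤ ε / 2 := by
      calc η * fnorm p L x ≤ η * (D + 1) :=
            mul_le_mul_of_nonneg_left (by linarith [h L]) hη0.le
        _ = ε / 2 := by rw [hη]; field_simp
    linarith

end Pool.Agent.HpBall2
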