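import Mathlib
import Pool.Agent.HpBall2.Defs
import Pool.Agent.HpBall.Geom
import Pool.Agent.HpBall.Sphere
import Pool.Agent.HpBall.Caps
import Pool.Agent.HpBall.MaxAbs
import Pool.Agent.HpBall.Coef
import Pool.Agent.HpBall.Synth1
import Pool.Agent.HpBall2.Cover
import Pool.Agent.HpBall2.Cells
import Pool.Agent.HpBall2.Beta
import Pool.Agent.HpBall2.FrameErr
import Pool.Agent.HpBall2.FrameSum
import Pool.Agent.HpBall2.Sample
import Pool.Agent.HpBall2.Kkv
import Pool.Agent.HpBall2.Basic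
import Pool.Agent.HpBall2.Tail
import Pool.Agent.HpBall2.NFp

set_option autoImplicit false

open MeasureTheory Complex
open scoped ENNReal NNReal

namespace Pool.Agent.HpBall2

open Pool.Agent.HpBall

theorem B29_add {p : ℝ} (hp : 0 < p) (hp1 : p ≤ 1) (a b : ℂ) :
    ENNReal.ofReal (‖a + b‖ ^ p) ≤ ENNReal.ofReal (‖a‖ ^ p) + ENNReal.ofReal (‖b‖ ^ p) := by
  rw [← ENNReal.ofReal_add (by positivity) (by positivity)]
  apply ENNReal.ofReal_le_ofReal
  exact (Real.rpow_le_rpow (norm_nonneg _) (norm_add_le a b) hp.le).trans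
    (Real.rpow_add_le_add_rpow (norm_nonneg _) (norm_nonneg _) hp.le hp1)

theorem B29_sum {p : ℝ} (hp : 0 < p) (hp1 : p ≤ 1) {ι : Type} (s : Finset ι) (a : ι → ℂ) :
    ENNReal.ofReal (‖∑ i ∈ s, a i‖ ^ p) ≤ ∑ i ∈ s, ENNReal.ofReal (‖a i‖ ^ p) := by
  classical
  induction s using Finset.induction_on with
  | empty => simp [Real.zero_rpow hp.ne']
  | insert i s hi ih =>
    rw [Finset.sum_insert hi, Finset.sum_insert hi]
    exact (B29_add hp hp1 _ _).trans (add_le_add le_rfl ih)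

theorem B29_sum_int {p : ℝ} (hp : 0 < p) (hp1 : p ≤ 1) {n : ℕ} {ι : Type} (s : Finset ι)
    (G : ι → E n → ℂ) (hG : ∀ i ∈ s, Continuous (G i)) :
    ∫⁻ ξ, ENNReal.ofReal (‖∑ i ∈ s, G i ξ‖ ^ p) ∂(sig n) ≤
      ∑ i ∈ s, ∫⁻ ξ, ENNReal.ofReal (‖G i ξ‖ ^ p) ∂(sig n) := by
  rw [← lintegral_finsetSum s (fun i hi => by
    have := (hG i hi).measurable
    fun_prop)]
  exact lintegral_mono fun ξ => B29_sum hp hp1 s _

theorem B29_kk_eq {n : ℕ} {β : ℝ → ℝ} {a b N : ℝ} (hβ : Bump β a b) (hN : 0 < N) (x z : E n) :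
    kk n β N x z = ∑ k ∈ Finset.range ⌈b * N⌉₊,
      ((β ((k : ℝ) / N) * cn n k : ℝ) : ℂ) * (inner ℂ x z) ^ k := by
  unfold kk
  apply tsum_eq_sum
  intro k hk
  rw [Finset.mem_range, not_lt, Nat.ceil_le] at hk
  rw [hβ.hi _ (by rwa [le_div_iff₀ hN])]
  simp

theorem B29_kk_cont {n : ℕ} {β : ℝ → ℝ} {a b N : ℝ} (hβ : Bump β a b) (hN : 0 < N) (x : E n) :
    Continuous (fun z => kk n β N x z) := by
  have : (fun z => kk n β N x z) = fun z => ∑ k ∈ Finset.range ⌈b * N⌉₊,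
      ((β ((k : ℝ) / N) * cn n k : ℝ) : ℂ) * (inner ℂ x z) ^ k := by
    funext z; exact B29_kk_eq hβ hN x z
  rw [this]
  apply continuous_finsetSum
  intro k _
  exact continuous_const.mul ((continuous_const.inner continuous_id).pow k)

theorem B29_slice {n : ℕ} {g : E n → ℂ} (hg : DifferentiableOn ℂ g (Metric.ball 0 1)) {ζ : E n}
    (hζ : ‖ζ‖ ≤ 1) : DifferentiableOn ℂ (fun z : ℂ => g (z • ζ)) (Metric.ball 0 1) := by
  apply hg.comp (f := fun z : ℂ => z • ζ)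
  · exact (differentiable_id.smul_const ζ).differentiableOn
  · intro z hz
    rw [mem_ball_zero_iff] at hz ⊢
    rw [norm_smul]
    nlinarith [norm_nonneg z, norm_nonneg ζ]

theorem B29_meas_ind {n : ℕ} (g : E n → ℂ) (hg : DifferentiableOn ℂ g (Metric.ball 0 1)) :
    Measurable ((Metric.ball (0 : E n) 1).indicator g) := by
  classical
  have h := hg.continuousOn.measurable_piecewise (g := (0 : E n → ℂ)) continuousOn_const
    Metric.isOpen_ball.measurableSet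
  rwa [Set.piecewise_eq_indicator] at h

theorem B29_hc_meas {n : ℕ} (hn : 1 ≤ n) {g : E n → ℂ}
    (hg : DifferentiableOn ℂ g (Metric.ball 0 1)) (k : ℕ) {r : ℝ} (hr0 : 0 ≤ r) (hr1 : r ≤ 1) :
    AEMeasurable (fun ξ : E n => hc g k ((r : ℂ) • ξ)) (sig n) := by
  have hm := B29_meas_ind g hg
  set g1 : E n → ℂ := (Metric.ball (0 : E n) 1).indicator g with hg1
  have h1 : Measurable (fun ζ : E n => ∫ θ in Set.Ioc (0:ℝ) (2 * Real.pi),
      Complex.exp (-(θ * I)) ^ k * g1 ((((1/2 : ℝ) : ℂ) * Complex.exp (θ * I)) • ζ)) := by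
    apply StronglyMeasurable.measurable
    apply StronglyMeasurable.integral_prod_right
      (f := fun (ζ : E n) (θ : ℝ) => Complex.exp (-(θ * I)) ^ k *
        g1 ((((1/2 : ℝ) : ℂ) * Complex.exp (θ * I)) • ζ))
    apply Measurable.stronglyMeasurable
    have e1 : Continuous (fun q : E n × ℝ => Complex.exp (-(q.2 * I)) ^ k) := by fun_prop
    have e2 : Continuous (fun q : E n × ℝ => (((1/2 : ℝ) : ℂ) * Complex.exp (q.2 * I)) • q.1) := by
      fun_prop
    exact e1.measurable.mul (hm.comp e2.measurable)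
  have h2 : Measurable (fun ξ : E n => (2 * Real.pi * (((1/2 : ℝ) : ℂ)) ^ k)⁻¹ *
      ∫ θ in Set.Ioc (0:ℝ) (2 * Real.pi),
      Complex.exp (-(θ * I)) ^ k * g1 ((((1/2 : ℝ) : ℂ) * Complex.exp (θ * I)) • ((r : ℂ) • ξ))) := by
    have e3 : Measurable (fun ξ : E n => (r : ℂ) • ξ) := by fun_prop
    exact (h1.comp e3).const_mul _
  refine ⟨_, h2, ?_⟩
  filter_upwards [sig_ae_norm hn] with ξ hξ
  have hζ : ‖(r : ℂ) • ξ‖ ≤ 1 := by
    rw [norm_smul, hξ, mul_one, Complex.norm_real, Real.norm_of_nonneg hr0]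
    exact hr1
  have hJ := J15_coef (B29_slice hg hζ) (r := 1 / 2) (by norm_num) (by norm_num) k
  rw [intervalIntegral.integral_of_le (by positivity)] at hJ
  have e4 : ∫ θ in Set.Ioc (0:ℝ) (2 * Real.pi), Complex.exp (-(θ * I)) ^ k *
      g1 ((((1/2 : ℝ) : ℂ) * Complex.exp (θ * I)) • ((r : ℂ) • ξ)) =
      ∫ θ in Set.Ioc (0:ℝ) (2 * Real.pi), Complex.exp (-(θ * I)) ^ k *
      g ((((1/2 : ℝ) : ℂ) * Complex.exp (θ * I)) • ((r : ℂ) • ξ)) := by
    congr 1
    funext θ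
    rw [hg1, Set.indicator_of_mem]
    rw [mem_ball_zero_iff, norm_smul, norm_mul, Complex.norm_exp_ofReal_mul_I, mul_one,
      Complex.norm_real, Real.norm_of_nonneg (by norm_num)]
    nlinarith [norm_nonneg ((r : ℂ) • ξ)]
  rw [e4, hJ]
  unfold hc
  have hpi : (2 * Real.pi : ℂ) ≠ 0 := by
    have := Real.pi_ne_zero
    exact mul_ne_zero two_ne_zero (by exact_mod_cast this)
  have hh : ((((1/2 : ℝ) : ℂ)) ^ k) ≠ 0 := pow_ne_zero _ (by norm_num)
  field_simp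

theorem B29_cut_eq {n : ℕ} {β : ℝ → ℝ} {a b N : ℝ} (hβ : Bump β a b) (hN : 0 < N) (g : E n → ℂ)
    (x : E n) : cut β N g x = ∑ k ∈ Finset.range ⌈b * N⌉₊, (β ((k : ℝ) / N) : ℂ) * hc g k x := by
  unfold cut
  apply tsum_eq_sum
  intro k hk
  rw [Finset.mem_range, not_lt, Nat.ceil_le] at hk
  rw [hβ.hi _ (by rwa [le_div_iff₀ hN])]
  simp

theorem B29_cut_meas {n : ℕ} (hn : 1 ≤ n) {β : ℝ → ℝ} {a b N : ℝ} (hβ : Bump β a b) (hN : 0 < N)
    {g : E n → ℂ} (hg : DifferentiableOn ℂ g (Metric.ball 0 1)) {r : ℝ} (hr0 : 0 ≤ r)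
    (hr1 : r ≤ 1) : AEMeasurable (fun ξ : E n => cut β N g ((r : ℂ) • ξ)) (sig n) := by
  have : (fun ξ : E n => cut β N g ((r : ℂ) • ξ)) = fun ξ =>
      ∑ k ∈ Finset.range ⌈b * N⌉₊, (β ((k : ℝ) / N) : ℂ) * hc g k ((r : ℂ) • ξ) := by
    funext ξ; exact B29_cut_eq hβ hN g _
  rw [this]
  apply Finset.aemeasurable_fun_sum
  intro k _
  exact (B29_hc_meas hn hg k hr0 hr1).const_mul _

theorem B29_bump_sq {β : ℝ → ℝ} {a b : ℝ} (hβ : Bump β a b) : Bump (fun t => β t * β t) a b where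
  apos := hβ.apos
  ab := hβ.ab
  smooth := hβ.smooth.mul hβ.smooth
  lo := fun x hx => by show β x * β x = 0; rw [hβ.lo x hx, mul_zero]
  hi := fun x hx => by show β x * β x = 0; rw [hβ.hi x hx, mul_zero]

theorem B29_fatou {n : ℕ} (hn : 1 ≤ n) (p : ℝ) (hp : 0 < p) (F : E n → ℂ) (G : ℕ → E n → ℂ)
    (hG : ∀ L, AEMeasurable (G L) (sig n))
    (hlim : ∀ ξ : E n, ‖ξ‖ = 1 → Filter.Tendsto (fun L => G L ξ) Filter.atTop
      (nhds (F ξ))) (X : ℝ≥0∞) (L₀ : ℕ)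
    (hX : ∀ L ≥ L₀, ∫⁻ ξ, ENNReal.ofReal (‖G L ξ‖ ^ p) ∂(sig n) ≤ X) :
    ∫⁻ ξ, ENNReal.ofReal (‖F ξ‖ ^ p) ∂(sig n) ≤ X := by
  calc ∫⁻ ξ, ENNReal.ofReal (‖F ξ‖ ^ p) ∂(sig n)
      = ∫⁻ ξ, Filter.liminf (fun L => ENNReal.ofReal (‖G L ξ‖ ^ p)) Filter.atTop
          ∂(sig n) := by
        apply lintegral_congr_ae
        filter_upwards [sig_ae_norm hn] with ξ hξ
        have h1 := hlim ξ hξ
        have h2 : Filter.Tendsto (fun L => ENNReal.ofReal (‖G L ξ‖ ^ p)) Filter.atTop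
            (nhds (ENNReal.ofReal (‖F ξ‖ ^ p))) := by
          apply (ENNReal.continuous_ofReal.tendsto _).comp
          exact (h1.norm).rpow_const (Or.inr hp.le)
        exact h2.liminf_eq.symm
    _ ≤ Filter.liminf (fun L => ∫⁻ ξ, ENNReal.ofReal (‖G L ξ‖ ^ p) ∂(sig n))
          Filter.atTop := by
        apply lintegral_liminf_le'
        intro L
        exact ((hG L).norm.pow_const p).ennreal_ofReal
    _ ≤ X := by
        apply Filter.liminf_le_of_frequently_le'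
        apply Filter.Eventually.frequently
        filter_upwards [Filter.eventually_ge_atTop L₀] with L hL
        exact hX L hL

theorem B29_range_mul {M : Type} [AddCommMonoid M] (f : ℕ → M) (a b : ℕ) :
    ∑ j ∈ Finset.range (a * b), f j =
      ∑ i ∈ Finset.range a, ∑ τ ∈ Finset.range b, f (i * b + τ) := by
  induction a with
  | zero => simp
  | succ a ih =>
    rw [Nat.succ_mul, Finset.sum_range_add, ih, Finset.sum_range_succ]

theorem B29_tail1 (n : ℕ) (hn : 1 ≤ n) (p : ℝ) (hp : 0 < p) (hp1 : p ≤ 1)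
    (pt : ℕ → ℕ → E n) (c C : ℝ) (hT : TreeFam n pt c C) (R : ℕ → ℕ → Set (E n))
    (hRs : ∀ l j, j < 2 ^ l → ∀ ζ ∈ R l j, ‖ζ‖ = 1 ∧ sc n l * rho ζ (pt l j) ≤ C)
    (A : ℝ) (hA : 0 < A) (β : ℝ → ℝ) (a b : ℝ) (hβ : Bump β a b) (m : ℕ) (g : E n → ℂ) (M : ℝ)
    (hM : 0 ≤ M) (hg : HB n p M g) (δ : ℝ) (hδ : 0 < δ) (τ : ℕ) (hτ : τ < 2 ^ m) :
    ∃ L₀ : ℕ, ∀ L ≥ L₀, ∀ L' : ℕ, ∀ r : ℝ, 0 ≤ r → r < 1 →
      ∫⁻ ξ, ENNReal.ofReal (‖∑ l ∈ Finset.range L', ∑ i ∈ Finset.range (2 ^ l),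
          (if L ≤ l then (1 : ℂ) else 0) *
            ((((sig n (R (l + m) (i * 2 ^ m + τ))).toReal : ℝ) : ℂ) *
              cut β (A * sc n l) g (pt (l + m) (i * 2 ^ m + τ)) *
              kk n β (A * sc n l) (pt (l + m) (i * 2 ^ m + τ)) ((r : ℂ) • ξ))‖ ^ p) ∂(sig n) ≤
        ENNReal.ofReal δ := by
  obtain ⟨Cσ, hCσ, hcap⟩ := cap_upper n hn
  have hC0 : 0 ≤ C := by
    have := hT.nest 0 0 0 le_rfl (by norm_num)
    refine le_trans ?_ this
    exact mul_nonneg (sc_pos n 0).le (rho_nonneg _ _)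
  set x : ℕ → ℕ → E n := fun l i => pt (l + m) (i * 2 ^ m + τ) with hx
  set w : ℕ → ℕ → ℝ := fun l i => (sig n (R (l + m) (i * 2 ^ m + τ))).toReal with hw
  have hlt : ∀ l i, i < 2 ^ l → i * 2 ^ m + τ < 2 ^ (l + m) := by
    intro l i hi
    rw [pow_add]
    calc i * 2 ^ m + τ < i * 2 ^ m + 2 ^ m := by omega
      _ = (i + 1) * 2 ^ m := by ring
      _ ≤ 2 ^ l * 2 ^ m := Nat.mul_le_mul_right _ hi
  have hdiv : ∀ i, (i * 2 ^ m + τ) / 2 ^ m = i := by
    intro i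
    rw [Nat.mul_comm, Nat.mul_add_div (by positivity), Nat.div_eq_of_lt hτ, add_zero]
  have hx1 : ∀ l i, ‖x l i‖ = 1 := fun l i => hT.unit _ _
  have hxp : ∀ l i, i < 2 ^ l → sc n l * rho (x l i) (pt l i) ≤ C := by
    intro l i hi
    have h := hT.nest l (l + m) (i * 2 ^ m + τ) (Nat.le_add_right l m) (hlt l i hi)
    rw [Nat.add_sub_cancel_left, hdiv] at h
    exact h
  have hww : ∀ l i, i < 2 ^ l → |w l i| ≤ (Cσ * (C + 1) ^ n) * (1 / 2 ^ l) := by
    intro l i hi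
    have h0 : 0 ≤ w l i := ENNReal.toReal_nonneg
    rw [abs_of_nonneg h0]
    have hs := sc_pos n (l + m)
    have hδ' : 0 < (C + 1) / sc n (l + m) := by positivity
    have h1 : sig n (R (l + m) (i * 2 ^ m + τ)) ≤
        ENNReal.ofReal (Cσ * ((C + 1) / sc n (l + m)) ^ n) := by
      refine le_trans (measure_mono ?_) (hcap (pt (l + m) (i * 2 ^ m + τ)) (hT.unit _ _) _ hδ')
      intro ζ hζ
      have h2 := (hRs (l + m) (i * 2 ^ m + τ) (hlt l i hi) ζ hζ).2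
      show rho ζ (pt (l + m) (i * 2 ^ m + τ)) < (C + 1) / sc n (l + m)
      rw [lt_div_iff₀ hs]
      linarith
    have h2 : w l i ≤ Cσ * ((C + 1) / sc n (l + m)) ^ n := by
      have := ENNReal.toReal_mono ENNReal.ofReal_ne_top h1
      rwa [ENNReal.toReal_ofReal (by positivity)] at this
    refine h2.trans ?_
    have h3 : sc n (l + m) ^ n = 2 ^ (l + m) := by
      have := sc_pow n (l + m) hn
      rwa [Real.rpow_natCast] at this
    rw [div_pow, h3, mul_assoc]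
    apply mul_le_mul_of_nonneg_left _ hCσ.le
    rw [div_eq_mul_one_div]
    apply mul_le_mul_of_nonneg_left _ (by positivity)
    apply one_div_le_one_div_of_le (by positivity)
    exact pow_le_pow_right₀ (by norm_num) (Nat.le_add_right l m)
  obtain ⟨D1, hD1, hana⟩ := sample_analysis n hn p hp (Or.inl hp1) pt c C hT x hx1 C hxp A hA β a b hβ
  obtain ⟨D2, hD2, hsyn⟩ := sample_synthesis n hn p hp (Or.inl hp1) pt c C hT x hx1 C hxp A hA β a b
    hβ w (Cσ * (C + 1) ^ n) hww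
  have hfin := hana g M hM hg
  obtain ⟨L₀, hL₀⟩ := fnorm_tail p hp (fun l i => cut β (A * sc n l) g (x l i)) (D1 * M) hfin
    (δ / D2) (by positivity)
  refine ⟨L₀, ?_⟩
  intro L hL L' r hr0 hr1
  have h1 := hsyn (fun l i => if L ≤ l then cut β (A * sc n l) g (x l i) else 0) L' r hr0 hr1.le
  have h2 := hL₀ L hL L'
  refine le_trans (le_of_eq ?_) (h1.trans (ENNReal.ofReal_le_ofReal ?_))
  · congr 1
    funext ξ
    congr 3
    apply Finset.sum_congr rfl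
    intro l _
    apply Finset.sum_congr rfl
    intro i _
    split_ifs
    · simp only [hx, hw]; ring
    · ring
  · calc D2 * fnorm p L' (fun l i => if L ≤ l then cut β (A * sc n l) g (x l i) else 0)
        ≤ D2 * (δ / D2) := mul_le_mul_of_nonneg_left h2 hD2.le
      _ = δ := by field_simp

theorem B29_tail (n : ℕ) (hn : 1 ≤ n) (p : ℝ) (hp : 0 < p) (hp1 : p ≤ 1) (V : ℕ)
    (pt : ℕ → ℕ → ℕ → E n) (c C : ℝ) (hT : ∀ ν < V, TreeFam n (pt ν) c C)
    (R : ℕ → ℕ → ℕ → Set (E n))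
    (hRs : ∀ l ν j, ν < V → j < 2 ^ l → ∀ ζ ∈ R l ν j, ‖ζ‖ = 1 ∧ sc n l * rho ζ (pt ν l j) ≤ C)
    (A : ℝ) (hA : 0 < A) (β : ℝ → ℝ) (a b : ℝ) (hβ : Bump β a b) (m : ℕ) (g : E n → ℂ) (M : ℝ)
    (hM : 0 ≤ M) (hg : HB n p M g) (ε : ℝ≥0∞) (hε : 0 < ε) :
    ∃ L : ℕ, ∀ L' : ℕ, ∀ r : ℝ, 0 ≤ r → r < 1 →
      ∫⁻ ξ, ENNReal.ofReal (‖∑ l ∈ Finset.range L', (if L ≤ l then (1 : ℂ) else 0) *
          ∑ ν ∈ Finset.range V, ∑ j ∈ Finset.range (2 ^ (l + m)),
            (((sig n (R (l + m) ν j)).toReal : ℝ) : ℂ) * cut β (A * sc n l) g (pt ν (l + m) j) *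
              kk n β (A * sc n l) (pt ν (l + m) j) ((r : ℂ) • ξ)‖ ^ p) ∂(sig n) ≤ ε := by
  classical
  -- choose δ
  obtain ⟨δ, hδ, hδε⟩ : ∃ δ : ℝ, 0 < δ ∧ ((V * 2 ^ m : ℕ) : ℝ≥0∞) * ENNReal.ofReal δ ≤ ε := by
    have h1 : min ε 1 ≠ ⊤ := ne_top_of_le_ne_top ENNReal.one_ne_top (min_le_right _ _)
    have h2 : 0 < (min ε 1).toReal := ENNReal.toReal_pos (lt_min hε one_pos).ne' h1
    refine ⟨(min ε 1).toReal / ((V * 2 ^ m : ℕ) + 1), by positivity, ?_⟩
    have h3 : ((V * 2 ^ m : ℕ) : ℝ≥0∞) = ENNReal.ofReal ((V * 2 ^ m : ℕ) : ℝ) := by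
      rw [ENNReal.ofReal_natCast]
    rw [h3, ← ENNReal.ofReal_mul (by positivity)]
    refine le_trans (ENNReal.ofReal_le_ofReal (?_ : _ ≤ (min ε 1).toReal)) ?_
    · rw [mul_div_assoc', div_le_iff₀ (by positivity)]
      nlinarith
    · rw [ENNReal.ofReal_toReal h1]
      exact min_le_left _ _
  have key : ∀ q : ℕ × ℕ, ∃ L₀ : ℕ, q.1 < V → q.2 < 2 ^ m → ∀ L ≥ L₀, ∀ L' : ℕ, ∀ r : ℝ, 0 ≤ r →
      r < 1 →
      ∫⁻ ξ, ENNReal.ofReal (‖∑ l ∈ Finset.range L', ∑ i ∈ Finset.range (2 ^ l),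
          (if L ≤ l then (1 : ℂ) else 0) *
            ((((sig n (R (l + m) q.1 (i * 2 ^ m + q.2))).toReal : ℝ) : ℂ) *
              cut β (A * sc n l) g (pt q.1 (l + m) (i * 2 ^ m + q.2)) *
              kk n β (A * sc n l) (pt q.1 (l + m) (i * 2 ^ m + q.2)) ((r : ℂ) • ξ))‖ ^ p)
              ∂(sig n) ≤
        ENNReal.ofReal δ := by
    intro q
    by_cases h1 : q.1 < V
    · by_cases h2 : q.2 < 2 ^ m
      · obtain ⟨L₀, hL₀⟩ := B29_tail1 n hn p hp hp1 (pt q.1) c C (hT q.1 h1) (fun l j => R l q.1 j)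
          (fun l j hj ζ hζ => hRs l q.1 j h1 hj ζ hζ) A hA β a b hβ m g M hM hg δ hδ q.2 h2
        exact ⟨L₀, fun _ _ => hL₀⟩
      · exact ⟨0, fun _ h => absurd h h2⟩
    · exact ⟨0, fun h => absurd h h1⟩
  choose Lf hLf using key
  set Q : Finset (ℕ × ℕ) := Finset.range V ×ˢ Finset.range (2 ^ m) with hQ
  refine ⟨Q.sup Lf, ?_⟩
  intro L' r hr0 hr1
  set L := Q.sup Lf with hL
  have hrew : ∀ ξ : E n, (∑ l ∈ Finset.range L', (if L ≤ l then (1 : ℂ) else 0) *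
          ∑ ν ∈ Finset.range V, ∑ j ∈ Finset.range (2 ^ (l + m)),
            (((sig n (R (l + m) ν j)).toReal : ℝ) : ℂ) * cut β (A * sc n l) g (pt ν (l + m) j) *
              kk n β (A * sc n l) (pt ν (l + m) j) ((r : ℂ) • ξ)) =
      ∑ q ∈ Q, ∑ l ∈ Finset.range L', ∑ i ∈ Finset.range (2 ^ l),
          (if L ≤ l then (1 : ℂ) else 0) *
            ((((sig n (R (l + m) q.1 (i * 2 ^ m + q.2))).toReal : ℝ) : ℂ) *
              cut β (A * sc n l) g (pt q.1 (l + m) (i * 2 ^ m + q.2)) *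
              kk n β (A * sc n l) (pt q.1 (l + m) (i * 2 ^ m + q.2)) ((r : ℂ) • ξ)) := by
    intro ξ
    rw [Finset.sum_comm (s := Q)]
    apply Finset.sum_congr rfl
    intro l _
    rw [hQ, Finset.sum_product, Finset.mul_sum]
    apply Finset.sum_congr rfl
    intro ν _
    rw [pow_add, B29_range_mul, Finset.mul_sum, Finset.sum_comm]
    simp only [Finset.mul_sum]
  simp_rw [hrew]
  refine (B29_sum_int hp hp1 Q (fun q ξ => ∑ l ∈ Finset.range L', ∑ i ∈ Finset.range (2 ^ l),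
          (if L ≤ l then (1 : ℂ) else 0) *
            ((((sig n (R (l + m) q.1 (i * 2 ^ m + q.2))).toReal : ℝ) : ℂ) *
              cut β (A * sc n l) g (pt q.1 (l + m) (i * 2 ^ m + q.2)) *
              kk n β (A * sc n l) (pt q.1 (l + m) (i * 2 ^ m + q.2)) ((r : ℂ) • ξ))) ?_).trans ?_
  · intro q _
    apply continuous_finsetSum
    intro l _
    apply continuous_finsetSum
    intro i _
    have h1 := B29_kk_cont hβ (mul_pos hA (sc_pos n l)) (pt q.1 (l + m) (i * 2 ^ m + q.2))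
    have h2 : Continuous (fun ξ : E n => (r : ℂ) • ξ) := by fun_prop
    exact continuous_const.mul (continuous_const.mul (h1.comp h2))
  · have h1 : ∀ q ∈ Q, ∫⁻ ξ, ENNReal.ofReal (‖∑ l ∈ Finset.range L', ∑ i ∈ Finset.range (2 ^ l),
          (if L ≤ l then (1 : ℂ) else 0) *
            ((((sig n (R (l + m) q.1 (i * 2 ^ m + q.2))).toReal : ℝ) : ℂ) *
              cut β (A * sc n l) g (pt q.1 (l + m) (i * 2 ^ m + q.2)) *
              kk n β (A * sc n l) (pt q.1 (l + m) (i * 2 ^ m + q.2)) ((r : ℂ) • ξ))‖ ^ p)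
              ∂(sig n) ≤
        ENNReal.ofReal δ := by
      intro q hq
      have hq' := Finset.mem_product.1 hq
      exact hLf q (Finset.mem_range.1 hq'.1) (Finset.mem_range.1 hq'.2) L
        (Finset.le_sup (f := Lf) hq) L' r hr0 hr1
    refine (Finset.sum_le_sum h1).trans ?_
    rw [Finset.sum_const, nsmul_eq_mul, hQ, Finset.card_product, Finset.card_range,
      Finset.card_range]
    exact hδε

/-- TARGET -/
theorem dense_step (n : ℕ) (hn : 1 ≤ n) (p : ℝ) (hp : 0 < p) (hp1 : p ≤ 1) {H : Type}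
    [NormedAddCommGroup H] [InnerProductSpace ℂ H] (M : HModel n H)
    (g : E n → ℂ) (hg : DifferentiableOn ℂ g (Metric.ball 0 1)) (hN : NF n p g ≠ ⊤) (ε : ℝ≥0∞)
    (hε : 0 < ε) : ∃ h : H, NF n p (fun z => g z - M.ev h z) ≤ ENNReal.ofReal (1 / 2) * NF n p g + ε := by
  classical
  obtain ⟨V, pt, c, C, hT, hcov⟩ := exists_cover n hn
  obtain ⟨R, hRm, hRs, hRd, hRc⟩ := exists_cells n hn V pt C hcov
  obtain ⟨β, a, b, A, hβ, hA, hs⟩ := exists_beta n hn
  obtain ⟨D, hD, m₀, hfe⟩ := frame_error n hn p hp (Or.inl hp1) V pt c C hT R hRm hRs hRd hRc A hA β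
    a b hβ
  set Mg : ℝ := (NF n p g).toReal with hMg
  have hMg0 : 0 ≤ Mg := ENNReal.toReal_nonneg
  have hNF : NF n p g = ENNReal.ofReal Mg := (ENNReal.ofReal_toReal hN).symm
  have hHB : HB n p Mg g := by
    refine ⟨hg, fun r hr0 hr1 => ?_⟩
    rw [← hNF]
    exact le_iSup₂ (f := fun (r : ℝ) (_ : r ∈ Set.Ico (0 : ℝ) 1) =>
      ∫⁻ ξ, ENNReal.ofReal (‖g ((r : ℂ) • ξ)‖ ^ p) ∂(sig n)) r ⟨hr0, hr1⟩
  -- choice of m
  obtain ⟨m, hm0, hm⟩ : ∃ m ≥ m₀, D * (sc n m) ^ (-(p / 2)) ≤ 1 / 2 := by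
    have hn0 : (0 : ℝ) < n := by exact_mod_cast hn
    set q : ℝ := (2 : ℝ) ^ (-(p / (2 * n))) with hq
    have hq0 : 0 < q := by positivity
    have hq1 : q < 1 := Real.rpow_lt_one_of_one_lt_of_neg (by norm_num) (by
      have : 0 < p / (2 * n) := by positivity
      linarith)
    obtain ⟨k, hk⟩ := exists_pow_lt_of_lt_one (show (0 : ℝ) < 1 / (2 * D) by positivity) hq1
    refine ⟨max k m₀, le_max_right _ _, ?_⟩
    have h1 : (sc n (max k m₀)) ^ (-(p / 2)) = q ^ (max k m₀) := by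
      rw [sc, hq, ← Real.rpow_mul (by norm_num), ← Real.rpow_natCast, ← Real.rpow_mul (by norm_num)]
      congr 1
      field_simp
    rw [h1]
    have h2 : q ^ (max k m₀) ≤ q ^ k := pow_le_pow_of_le_one hq0.le hq1.le (le_max_left _ _)
    have h3 : D * q ^ (max k m₀) ≤ D * (1 / (2 * D)) :=
      mul_le_mul_of_nonneg_left (h2.trans hk.le) hD.le
    refine h3.trans (le_of_eq ?_)
    field_simp
  have hfe' := hfe m hm0 g Mg hMg0 hHB
  obtain ⟨L, hL⟩ := B29_tail n hn p hp hp1 V pt c C hT R hRs A hA β a b hβ m g Mg hMg0 hHB ε hε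
  -- the element of H
  have hNl : ∀ l, 0 < A * sc n l := fun l => mul_pos hA (sc_pos n l)
  choose tv htv _htv2 using fun (l : ℕ) (x : E n) => exists_kkv n hn M β a b hβ (A * sc n l) (hNl l) x
  obtain ⟨t0, ht0, _⟩ := exists_const n hn M
  have hcn : 0 < cn n 0 := by
    unfold cn
    have := Real.pi_pos
    have h1 : 0 < (0 + n - 1).choose (n - 1) := Nat.choose_pos (by omega)
    positivity
  set T : ℕ → E n → ℂ := fun l z => ∑ ν ∈ Finset.range V, ∑ j ∈ Finset.range (2 ^ (l + m)),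
            (((sig n (R (l + m) ν j)).toReal : ℝ) : ℂ) * cut β (A * sc n l) g (pt ν (l + m) j) *
              kk n β (A * sc n l) (pt ν (l + m) j) z with hTdef
  set Cc : ℕ → E n → ℂ := fun l z => cut (fun t => β t * β t) (A * sc n l) g z with hCc
  set h : H := (g 0 / ((Real.sqrt (cn n 0) : ℝ) : ℂ)) • t0 +
    ∑ l ∈ Finset.range L, ∑ ν ∈ Finset.range V, ∑ j ∈ Finset.range (2 ^ (l + m)),
      ((((sig n (R (l + m) ν j)).toReal : ℝ) : ℂ) * cut β (A * sc n l) g (pt ν (l + m) j)) •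
        tv l (pt ν (l + m) j) with hh
  have hev : ∀ z : E n, ‖z‖ < 1 → M.ev h z = g 0 + ∑ l ∈ Finset.range L, T l z := by
    intro z hz
    rw [hh, map_add, map_smul, map_sum]
    simp only [map_sum, map_smul, Pi.add_apply, Pi.smul_apply, Finset.sum_apply, smul_eq_mul]
    rw [ht0 z hz]
    congr 1
    · have : ((Real.sqrt (cn n 0) : ℝ) : ℂ) ≠ 0 := by
        have := Real.sqrt_pos.2 hcn
        exact_mod_cast this.ne'
      field_simp
    · apply Finset.sum_congr rfl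
      intro l _
      rw [hTdef]
      apply Finset.sum_congr rfl
      intro ν _
      apply Finset.sum_congr rfl
      intro j _
      rw [htv l _ z hz]
  have hTc : ∀ l, Continuous (T l) := by
    intro l
    apply continuous_finsetSum
    intro ν _
    apply continuous_finsetSum
    intro j _
    exact continuous_const.mul (B29_kk_cont hβ (hNl l) _)
  refine ⟨h, ?_⟩
  rw [hNF]
  unfold NF
  refine iSup₂_le ?_
  rintro r ⟨hr0, hr1⟩
  have hzr : ∀ ξ : E n, ‖ξ‖ = 1 → ‖(r : ℂ) • ξ‖ < 1 := by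
    intro ξ hξ
    rw [norm_smul, hξ, mul_one, Complex.norm_real, Real.norm_of_nonneg hr0]
    exact hr1
  have hsmul : Continuous (fun ξ : E n => (r : ℂ) • ξ) := by fun_prop
  refine B29_fatou hn p hp (fun ξ => g ((r : ℂ) • ξ) - M.ev h ((r : ℂ) • ξ))
    (fun L' ξ => ∑ l ∈ Finset.range L', Cc l ((r : ℂ) • ξ) -
      ∑ l ∈ Finset.range L, T l ((r : ℂ) • ξ)) ?_ ?_ _ L ?_
  · intro L'
    apply AEMeasurable.sub
    · apply Finset.aemeasurable_fun_sum
      intro l _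
      exact B29_cut_meas hn (B29_bump_sq hβ) (hNl l) hg hr0 hr1.le
    · apply Continuous.aemeasurable
      apply continuous_finsetSum
      intro l _
      exact (hTc l).comp hsmul
  · intro ξ hξ
    have hz := hzr ξ hξ
    have h1 := (frame_sum n hn β a b A hβ hA hs g hg ((r : ℂ) • ξ) hz).tendsto_sum_nat
    rw [hev _ hz]
    have h2 := h1.sub_const (∑ l ∈ Finset.range L, T l ((r : ℂ) • ξ))
    convert h2 using 2
    ring
  · intro L' hL'
    have hsplit : ∀ ξ : E n, ∑ l ∈ Finset.range L', Cc l ((r : ℂ) • ξ) -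
      ∑ l ∈ Finset.range L, T l ((r : ℂ) • ξ) =
      ∑ l ∈ Finset.range L', (Cc l ((r : ℂ) • ξ) - T l ((r : ℂ) • ξ)) +
      ∑ l ∈ Finset.range L', (if L ≤ l then (1 : ℂ) else 0) * T l ((r : ℂ) • ξ) := by
      intro ξ
      have h1 : ∑ l ∈ Finset.range L', T l ((r : ℂ) • ξ) = ∑ l ∈ Finset.range L, T l ((r : ℂ) • ξ) +
          ∑ l ∈ Finset.range L', (if L ≤ l then (1 : ℂ) else 0) * T l ((r : ℂ) • ξ) := by
        have h2 : ∑ l ∈ Finset.range L, T l ((r : ℂ) • ξ) =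
            ∑ l ∈ Finset.range L', (if L ≤ l then (0 : ℂ) else 1) * T l ((r : ℂ) • ξ) := by
          rw [← Finset.sum_subset (Finset.range_mono hL')]
          · apply Finset.sum_congr rfl
            intro l hl
            rw [Finset.mem_range] at hl
            rw [if_neg (by omega), one_mul]
          · intro l _ hl
            rw [Finset.mem_range, not_lt] at hl
            rw [if_pos hl, zero_mul]
        rw [h2, ← Finset.sum_add_distrib]
        apply Finset.sum_congr rfl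
        intro l _
        split_ifs <;> ring
      rw [Finset.sum_sub_distrib, h1]
      ring
    simp_rw [hsplit]
    have hTm : Measurable (fun ξ : E n => ENNReal.ofReal (‖∑ l ∈ Finset.range L',
        (if L ≤ l then (1 : ℂ) else 0) * T l ((r : ℂ) • ξ)‖ ^ p)) := by
      have h1 : Continuous (fun ξ : E n => ∑ l ∈ Finset.range L',
        (if L ≤ l then (1 : ℂ) else 0) * T l ((r : ℂ) • ξ)) := by
        apply continuous_finsetSum
        intro l _
        exact continuous_const.mul ((hTc l).comp hsmul)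
      have := h1.measurable
      fun_prop
    calc ∫⁻ ξ, ENNReal.ofReal (‖∑ l ∈ Finset.range L', (Cc l ((r : ℂ) • ξ) - T l ((r : ℂ) • ξ)) +
          ∑ l ∈ Finset.range L', (if L ≤ l then (1 : ℂ) else 0) * T l ((r : ℂ) • ξ)‖ ^ p) ∂(sig n)
        ≤ ∫⁻ ξ, (ENNReal.ofReal (‖∑ l ∈ Finset.range L', (Cc l ((r : ℂ) • ξ) -
            T l ((r : ℂ) • ξ))‖ ^ p) +
          ENNReal.ofReal (‖∑ l ∈ Finset.range L', (if L ≤ l then (1 : ℂ) else 0) *
            T l ((r : ℂ) • ξ)‖ ^ p)) ∂(sig n) := lintegral_mono fun ξ => B29_add hp hp1 _ _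
      _ = ∫⁻ ξ, ENNReal.ofReal (‖∑ l ∈ Finset.range L', (Cc l ((r : ℂ) • ξ) -
            T l ((r : ℂ) • ξ))‖ ^ p) ∂(sig n) +
          ∫⁻ ξ, ENNReal.ofReal (‖∑ l ∈ Finset.range L', (if L ≤ l then (1 : ℂ) else 0) *
            T l ((r : ℂ) • ξ)‖ ^ p) ∂(sig n) := lintegral_add_right _ hTm
      _ ≤ ENNReal.ofReal (D * (sc n m) ^ (-(p / 2)) * Mg) + ε :=
          add_le_add (hfe' L' r hr0 hr1) (hL L' r hr0 hr1)
      _ ≤ ENNReal.ofReal (1 / 2) * ENNReal.ofReal Mg + ε := by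
          apply add_le_add _ le_rfl
          rw [← ENNReal.ofReal_mul (by norm_num)]
          apply ENNReal.ofReal_le_ofReal
          exact mul_le_mul_of_nonneg_right hm hMg0

/-- TARGET -/
theorem ev_dense (n : ℕ) (hn : 1 ≤ n) (p : ℝ) (hp : 0 < p) (hp1 : p ≤ 1) {H : Type}
    [NormedAddCommGroup H] [InnerProductSpace ℂ H] (M : HModel n H)
    (g : E n → ℂ) (hg : DifferentiableOn ℂ g (Metric.ball 0 1)) (hN : NF n p g ≠ ⊤) (ε : ℝ≥0∞)
    (hε : 0 < ε) : ∃ h : H, NF n p (fun z => g z - M.ev h z) ≤ ε := by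
  -- wlog finite ε
  set ε' : ℝ≥0∞ := min ε 1 with hε'
  have hε'0 : 0 < ε' := lt_min hε one_pos
  have hε't : ε' ≠ ⊤ := ne_top_of_le_ne_top ENNReal.one_ne_top (min_le_right _ _)
  obtain ⟨e, he0, hee⟩ : ∃ e : ℝ, 0 < e ∧ ε' = ENNReal.ofReal e :=
    ⟨ε'.toReal, ENNReal.toReal_pos hε'0.ne' hε't, (ENNReal.ofReal_toReal hε't).symm⟩
  obtain ⟨Mg, hMg0, hMg⟩ : ∃ Mg : ℝ, 0 ≤ Mg ∧ NF n p g = ENNReal.ofReal Mg :=
    ⟨(NF n p g).toReal, ENNReal.toReal_nonneg, (ENNReal.ofReal_toReal hN).symm⟩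
  have key : ∀ k : ℕ, ∃ h : H, NF n p (fun z => g z - M.ev h z) ≤
      ENNReal.ofReal ((1 / 2) ^ k * Mg + e / 2) := by
    intro k
    induction k with
    | zero =>
      refine ⟨0, ?_⟩
      have : (fun z => g z - M.ev 0 z) = g := by
        funext z; simp
      rw [this, hMg]
      apply ENNReal.ofReal_le_ofReal
      rw [pow_zero, one_mul]
      linarith
    | succ k ih =>
      obtain ⟨h, hh⟩ := ih
      have hu : DifferentiableOn ℂ (fun z => g z - M.ev h z) (Metric.ball 0 1) :=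
        hg.sub (M.hol h)
      have hfin : NF n p (fun z => g z - M.ev h z) ≠ ⊤ :=
        ne_top_of_le_ne_top ENNReal.ofReal_ne_top hh
      obtain ⟨h', hh'⟩ := dense_step n hn p hp hp1 M _ hu hfin (ENNReal.ofReal (e / 4))
        (ENNReal.ofReal_pos.2 (by positivity))
      refine ⟨h + h', ?_⟩
      have e1 : (fun z => g z - M.ev (h + h') z) = fun z => g z - M.ev h z - M.ev h' z := by
        funext z
        rw [map_add, Pi.add_apply]
        ring
      rw [e1]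
      refine hh'.trans ?_
      calc ENNReal.ofReal (1 / 2) * NF n p (fun z => g z - M.ev h z) + ENNReal.ofReal (e / 4)
          ≤ ENNReal.ofReal (1 / 2) * ENNReal.ofReal ((1 / 2) ^ k * Mg + e / 2) +
            ENNReal.ofReal (e / 4) := by gcongr
        _ = ENNReal.ofReal ((1 / 2) ^ (k + 1) * Mg + e / 2) := by
            rw [← ENNReal.ofReal_mul (by norm_num), ← ENNReal.ofReal_add (by positivity)
              (by positivity)]
            congr 1
            ring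
  obtain ⟨k, hk⟩ := exists_pow_lt_of_lt_one (show (0 : ℝ) < e / (2 * (Mg + 1)) by positivity)
    (show (1 / 2 : ℝ) < 1 by norm_num)
  obtain ⟨h, hh⟩ := key k
  refine ⟨h, hh.trans (le_trans ?_ (min_le_left ε 1))⟩
  rw [← hε', hee]
  apply ENNReal.ofReal_le_ofReal
  have h1 : (1 / 2 : ℝ) ^ k * Mg ≤ e / (2 * (Mg + 1)) * (Mg + 1) := by
    apply mul_le_mul hk.le (by linarith) hMg0 (by positivity)
  have h2 : e / (2 * (Mg + 1)) * (Mg + 1) = e / 2 := by field_simp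
  linarith

end Pool.Agent.HpBall2
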