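import Mathlib
import Pool.Agent.HpBall2.Defs
import Pool.Agent.HpBall.Geom
import Pool.Agent.HpBall.Sphere
import Pool.Agent.HpBall.Caps

set_option autoImplicit false

open MeasureTheory Complex
open scoped ENNReal NNReal

namespace Pool.Agent.HpBall2

open Pool.Agent.HpBall


/-- Tonelli for balls -/
theorem B08_tonelli {X : Type*} [MetricSpace X] [MeasurableSpace X] [BorelSpace X]
    [SecondCountableTopology X] (μ ν : Measure X) [IsFiniteMeasure μ] [IsFiniteMeasure ν] (r : ℝ) :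
    ∫⁻ x, ν (Metric.ball x r) ∂μ = ∫⁻ y, μ (Metric.ball y r) ∂ν := by
  have hA : MeasurableSet {p : X × X | dist p.1 p.2 < r} :=
    (isOpen_lt (by fun_prop) continuous_const).measurableSet
  have h1 := Measure.prod_apply (μ := μ) (ν := ν) hA
  have h2 := Measure.prod_apply_symm (μ := μ) (ν := ν) hA
  rw [h1] at h2
  have e1 : ∀ x, Prod.mk x ⁻¹' {p : X × X | dist p.1 p.2 < r} = Metric.ball x r := by
    intro x
    ext y
    simp [dist_comm]
  have e2 : ∀ y, (fun x => (x, y)) ⁻¹' {p : X × X | dist p.1 p.2 < r} = Metric.ball y r := by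
    intro y
    ext x
    simp
  simp only [e1, e2] at h2
  exact h2

theorem B08_open_le {X : Type*} [MetricSpace X] [MeasurableSpace X] [BorelSpace X]
    [SecondCountableTopology X] (μ ν : Measure X) [IsFiniteMeasure μ] [IsFiniteMeasure ν]
    (S : Set X) (hμS : ∀ᵐ x ∂μ, x ∈ S) (hνS : ∀ᵐ x ∂ν, x ∈ S) (g h : ℝ → ℝ≥0∞)
    (hμ : ∀ r, 0 < r → ∀ x ∈ S, μ (Metric.ball x r) = g r)
    (hν : ∀ r, 0 < r → ∀ x ∈ S, ν (Metric.ball x r) = h r)
    (hν0 : ν Set.univ ≠ 0) (U : Set X) (hU : IsOpen U) :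
    μ U ≤ (μ Set.univ / ν Set.univ) * ν U := by
  have hSne : S.Nonempty := by
    by_contra hS
    rw [Set.not_nonempty_iff_eq_empty] at hS
    apply hν0
    have h1 := ae_iff.1 hνS
    rw [hS] at h1
    simpa using h1
  obtain ⟨x0, hx0⟩ := hSne
  have hne : ∀ r, 0 < r → h r ≠ 0 := by
    intro r hr h0
    have h1 : ν S = 0 := by
      apply measure_null_of_locally_null
      intro x hx
      refine ⟨Metric.ball x r, mem_nhdsWithin_of_mem_nhds (Metric.ball_mem_nhds x hr), ?_⟩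
      rw [hν r hr x hx, h0]
    apply hν0
    rw [← Set.union_compl_self S]
    refine le_antisymm ((measure_union_le _ _).trans ?_) zero_le
    rw [h1, zero_add]
    exact (ae_iff.1 hνS).le
  have hfin : ∀ r, 0 < r → h r ≠ ⊤ := by
    intro r hr
    rw [← hν r hr x0 hx0]
    exact measure_ne_top _ _
  have hconst : ∀ r, 0 < r → g r = h r * (μ Set.univ / ν Set.univ) := by
    intro r hr
    have h1 := B08_tonelli μ ν r
    have h2 : ∫⁻ x, ν (Metric.ball x r) ∂μ = ∫⁻ _, h r ∂μ := by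
      apply lintegral_congr_ae
      filter_upwards [hμS] with x hx
      exact hν r hr x hx
    have h3 : ∫⁻ x, μ (Metric.ball x r) ∂ν = ∫⁻ _, g r ∂ν := by
      apply lintegral_congr_ae
      filter_upwards [hνS] with x hx
      exact hμ r hr x hx
    rw [h2, h3, lintegral_const, lintegral_const] at h1
    rw [← mul_div_assoc, h1]
    rw [ENNReal.mul_div_cancel_right hν0 (measure_ne_top _ _)]
  let V : ℕ → Set X := fun k => (Metric.thickening (1 / ((k : ℝ) + 1)) Uᶜ)ᶜ
  have hVU : ⋃ k, V k = U := by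
    ext x
    simp only [Set.mem_iUnion]
    constructor
    · rintro ⟨k, hk⟩
      by_contra hx
      exact hk (Metric.self_subset_thickening (by positivity) _ hx)
    · intro hx
      obtain ⟨δ, hδ, hball⟩ := Metric.isOpen_iff.1 hU x hx
      obtain ⟨k, hk⟩ := exists_nat_one_div_lt hδ
      refine ⟨k, ?_⟩
      intro hc
      obtain ⟨z, hz, hxz⟩ := Metric.mem_thickening_iff.1 hc
      apply hz
      apply hball
      rw [Metric.mem_ball, dist_comm]
      exact hxz.trans hk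
  have hmono : Monotone V := by
    intro k l hkl
    apply Set.compl_subset_compl.2
    apply Metric.thickening_mono
    apply one_div_le_one_div_of_le (by positivity)
    have : (k : ℝ) ≤ l := by exact_mod_cast hkl
    linarith
  rw [← hVU, hmono.measure_iUnion]
  apply iSup_le
  intro k
  rw [hVU]
  have hr : (0 : ℝ) < 1 / ((k : ℝ) + 1) := by positivity
  obtain ⟨r, hrk⟩ : ∃ r : ℝ, r = 1 / ((k : ℝ) + 1) := ⟨_, rfl⟩
  rw [← hrk] at hr
  have hVk : MeasurableSet (V k) := (Metric.isOpen_thickening.isClosed_compl).measurableSet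
  have hsub : V k ⊆ U := by
    rw [← hVU]
    exact Set.subset_iUnion V k
  have hmain : h r * μ (V k) ≤ h r * (μ Set.univ / ν Set.univ * ν U) := by
    calc h r * μ (V k) = ∫⁻ _ in V k, h r ∂μ := by rw [setLIntegral_const]
      _ ≤ ∫⁻ x in V k, (ν.restrict U) (Metric.ball x r) ∂μ := by
          apply setLIntegral_mono_ae' hVk
          filter_upwards [hμS] with x hx hxV
          rw [Measure.restrict_apply Metric.isOpen_ball.measurableSet]
          rw [Set.inter_eq_left.2, hν r hr x hx]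
          intro z hz
          by_contra hzU
          apply hxV
          rw [Metric.mem_thickening_iff]
          refine ⟨z, hzU, ?_⟩
          rw [dist_comm, ← hrk]
          exact hz
      _ ≤ ∫⁻ x in U, (ν.restrict U) (Metric.ball x r) ∂μ := lintegral_mono_set hsub
      _ = ∫⁻ y in U, (μ.restrict U) (Metric.ball y r) ∂ν := B08_tonelli _ _ _
      _ ≤ ∫⁻ _ in U, g r ∂ν := by
          apply setLIntegral_mono_ae' hU.measurableSet
          filter_upwards [hνS] with y hy _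
          exact (Measure.restrict_apply_le _ _).trans (hμ r hr y hy).le
      _ = g r * ν U := by rw [setLIntegral_const]
      _ = h r * (μ Set.univ / ν Set.univ * ν U) := by rw [hconst r hr, mul_assoc]
  exact (ENNReal.mul_le_mul_iff_right (hne r hr) (hfin r hr)).1 hmain

theorem B08_unif_le {X : Type*} [MetricSpace X] [MeasurableSpace X] [BorelSpace X]
    [SecondCountableTopology X] (μ ν : Measure X) [IsFiniteMeasure μ] [IsFiniteMeasure ν]
    (S : Set X) (hμS : ∀ᵐ x ∂μ, x ∈ S) (hνS : ∀ᵐ x ∂ν, x ∈ S) (g h : ℝ → ℝ≥0∞)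
    (hμ : ∀ r, 0 < r → ∀ x ∈ S, μ (Metric.ball x r) = g r)
    (hν : ∀ r, 0 < r → ∀ x ∈ S, ν (Metric.ball x r) = h r)
    (hν0 : ν Set.univ ≠ 0) (s : Set X) :
    μ s ≤ (μ Set.univ / ν Set.univ) * ν s := by
  have hc : μ Set.univ / ν Set.univ ≠ ⊤ := ENNReal.div_ne_top (measure_ne_top _ _) hν0
  haveI : ((μ Set.univ / ν Set.univ) • ν).OuterRegular := Measure.OuterRegular.smul _ hc
  have h1 : μ s ≤ ((μ Set.univ / ν Set.univ) • ν) s := by
    rw [Set.measure_eq_iInf_isOpen s ((μ Set.univ / ν Set.univ) • ν)]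
    refine le_iInf fun U => le_iInf fun hsU => le_iInf fun hU => (measure_mono hsU).trans ?_
    rw [Measure.smul_apply, smul_eq_mul]
    exact B08_open_le μ ν S hμS hνS g h hμ hν hν0 U hU
  rwa [Measure.smul_apply, smul_eq_mul] at h1

/-- the normalisation is Lipschitz outside the unit ball -/
theorem B08_normalize {W : Type*} [NormedAddCommGroup W] [NormedSpace ℝ W] (x y : W)
    (hx : 1 ≤ ‖x‖) (hy : 1 ≤ ‖y‖) : ‖‖x‖⁻¹ • x - ‖y‖⁻¹ • y‖ ≤ 2 * ‖x - y‖ := by
  have hx0 : 0 < ‖x‖ := by linarith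
  have hy0 : 0 < ‖y‖ := by linarith
  have e : ‖x‖⁻¹ • x - ‖y‖⁻¹ • y = ‖x‖⁻¹ • (x - y) + (‖x‖⁻¹ * (‖y‖ - ‖x‖) * ‖y‖⁻¹) • y := by
    have h1 : ‖x‖⁻¹ * (‖y‖ - ‖x‖) * ‖y‖⁻¹ = ‖x‖⁻¹ - ‖y‖⁻¹ := by
      field_simp
    rw [h1, smul_sub, sub_smul]
    abel
  rw [e]
  have h2 : ‖x‖⁻¹ ≤ 1 := inv_le_one_of_one_le₀ hx
  have h3 : |‖y‖ - ‖x‖| ≤ ‖x - y‖ := by
    rw [norm_sub_rev]
    exact abs_norm_sub_norm_le y x
  calc ‖‖x‖⁻¹ • (x - y) + (‖x‖⁻¹ * (‖y‖ - ‖x‖) * ‖y‖⁻¹) • y‖
      ≤ ‖‖x‖⁻¹ • (x - y)‖ + ‖(‖x‖⁻¹ * (‖y‖ - ‖x‖) * ‖y‖⁻¹) • y‖ := norm_add_le _ _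
    _ = ‖x‖⁻¹ * ‖x - y‖ + ‖x‖⁻¹ * |‖y‖ - ‖x‖| := by
        rw [norm_smul, norm_smul, Real.norm_eq_abs, Real.norm_eq_abs, abs_mul, abs_mul,
          abs_of_pos (inv_pos.2 hx0), abs_of_pos (inv_pos.2 hy0)]
        field_simp
    _ ≤ 1 * ‖x - y‖ + 1 * ‖x - y‖ := by
        gcongr
    _ = 2 * ‖x - y‖ := by ring

/-- parametrisation of the sphere by the faces of a cube -/
noncomputable def B08_face (m : ℕ) (i : Fin (m + 1)) (ε : ℝ) (y : Fin m → ℝ) :
    EuclideanSpace ℝ (Fin (m + 1)) :=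
  ‖(WithLp.toLp 2 (i.insertNth ε y) : EuclideanSpace ℝ (Fin (m + 1)))‖⁻¹ •
    (WithLp.toLp 2 (i.insertNth ε y) : EuclideanSpace ℝ (Fin (m + 1)))

theorem B08_face_norm (m : ℕ) (i : Fin (m + 1)) (ε : ℝ) (hε : |ε| = 1) (y : Fin m → ℝ) :
    1 ≤ ‖(WithLp.toLp 2 (i.insertNth ε y) : EuclideanSpace ℝ (Fin (m + 1)))‖ := by
  have h1 := PiLp.norm_apply_le (p := 2) (WithLp.toLp 2 (i.insertNth ε y) : EuclideanSpace ℝ (Fin (m + 1))) i
  simp only [Fin.insertNth_apply_same, Real.norm_eq_abs, hε] at h1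
  exact h1

theorem B08_face_lip (m : ℕ) (i : Fin (m + 1)) (ε : ℝ) (hε : |ε| = 1) :
    ∃ K : ℝ≥0, LipschitzWith K (B08_face m i ε) := by
  have h1 : LipschitzWith 1 (fun y : Fin m → ℝ => (i.insertNth ε y : Fin (m + 1) → ℝ)) := by
    apply LipschitzWith.of_dist_le_mul
    intro y y'
    rw [NNReal.coe_one, one_mul, dist_pi_le_iff dist_nonneg]
    intro j
    refine i.succAboveCases ?_ ?_ j
    · simp
    · intro k
      simp only [Fin.insertNth_apply_succAbove]
      exact dist_le_pi_dist y y' k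
  have h2 := (PiLp.lipschitzWith_toLp 2 (fun _ : Fin (m + 1) => ℝ)).comp h1
  refine ⟨2 * (((Fintype.card (Fin (m + 1)) : ℝ≥0) ^ (1 / (2 : ℝ≥0∞)).toReal) * 1), ?_⟩
  apply LipschitzWith.of_dist_le_mul
  intro y y'
  rw [dist_eq_norm]
  unfold B08_face
  refine (B08_normalize _ _ (B08_face_norm m i ε hε y) (B08_face_norm m i ε hε y')).trans ?_
  have h3 := h2.dist_le_mul y y'
  rw [dist_eq_norm] at h3
  rw [NNReal.coe_mul, mul_assoc]
  apply mul_le_mul_of_nonneg_left _ (by norm_num)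
  exact h3

theorem B08_face_cover (m : ℕ) (x : EuclideanSpace ℝ (Fin (m + 1))) (hx : ‖x‖ = 1) :
    ∃ (i : Fin (m + 1)) (b : Bool), x ∈ B08_face m i (if b then 1 else -1) '' Metric.closedBall 0 1 := by
  obtain ⟨i, -, hi⟩ := Finset.exists_max_image (Finset.univ : Finset (Fin (m + 1))) (fun j => |x j|)
    ⟨0, Finset.mem_univ _⟩
  have hxi : x i ≠ 0 := by
    intro h0
    have : x = 0 := by
      ext j
      have := hi j (Finset.mem_univ _)
      rw [h0, abs_zero] at this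
      simpa using this
    rw [this] at hx
    simp at hx
  have hpos : 0 < |x i| := abs_pos.2 hxi
  refine ⟨i, decide (0 < x i), fun j => x (i.succAbove j) / |x i|, ?_, ?_⟩
  · rw [mem_closedBall_zero_iff, pi_norm_le_iff_of_nonneg zero_le_one]
    intro j
    rw [norm_div, Real.norm_eq_abs, Real.norm_eq_abs, abs_abs, div_le_one hpos]
    exact hi _ (Finset.mem_univ _)
  · have e : (WithLp.toLp 2 (i.insertNth (if decide (0 < x i) = true then (1 : ℝ) else -1)
        (fun j => x (i.succAbove j) / |x i|) : Fin (m + 1) → ℝ) : EuclideanSpace ℝ (Fin (m + 1))) =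
        |x i|⁻¹ • x := by
      ext j
      refine i.succAboveCases ?_ ?_ j
      · simp only [Fin.insertNth_apply_same, PiLp.smul_apply, smul_eq_mul]
        rcases lt_or_gt_of_ne hxi with h | h
        · rw [abs_of_neg h]
          have : ¬ 0 < x i := not_lt.2 h.le
          simp only [this, decide_false, Bool.false_eq_true, if_false]
          field_simp
        · rw [abs_of_pos h]
          simp only [h, decide_true, if_true]
          field_simp
      · intro k
        simp only [Fin.insertNth_apply_succAbove, PiLp.smul_apply, smul_eq_mul]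
        field_simp
    unfold B08_face
    rw [e, norm_smul, hx, smul_smul]
    rw [Real.norm_eq_abs, abs_of_pos (inv_pos.2 hpos), mul_one, inv_inv, mul_inv_cancel₀ hpos.ne',
      one_smul]

theorem B08_haus_cube (m : ℕ) (s : Set (Fin m → ℝ)) :
    (Measure.hausdorffMeasure (m : ℝ) : Measure (Fin m → ℝ)) s = volume s := by
  have := hausdorffMeasure_pi_real (ι := Fin m)
  rw [Fintype.card_fin] at this
  rw [this]

theorem B08_sphere_finite (m : ℕ) :
    (Measure.hausdorffMeasure (m : ℝ) : Measure (EuclideanSpace ℝ (Fin (m + 1))))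
      (Metric.sphere 0 1) ≠ ⊤ := by
  have hsub : Metric.sphere (0 : EuclideanSpace ℝ (Fin (m + 1))) 1 ⊆
      ⋃ p : Fin (m + 1) × Bool, B08_face m p.1 (if p.2 then 1 else -1) '' Metric.closedBall 0 1 := by
    intro x hx
    obtain ⟨i, b, h⟩ := B08_face_cover m x (by simpa using hx)
    exact Set.mem_iUnion.2 ⟨(i, b), h⟩
  refine ne_top_of_le_ne_top ?_ ((measure_mono hsub).trans (measure_iUnion_fintype_le _ _))
  refine (ENNReal.sum_lt_top.2 ?_).ne
  rintro ⟨i, b⟩ -
  obtain ⟨K, hK⟩ := B08_face_lip m i (if b then 1 else -1) (by split_ifs <;> simp)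
  refine (hK.hausdorffMeasure_image_le (Nat.cast_nonneg m) _).trans_lt ?_
  rw [B08_haus_cube]
  apply ENNReal.mul_lt_top
  · exact ENNReal.rpow_lt_top_of_nonneg (Nat.cast_nonneg m) ENNReal.coe_ne_top
  · exact measure_closedBall_lt_top

theorem B08_sphere_pos (m : ℕ) :
    (Measure.hausdorffMeasure (m : ℝ) : Measure (EuclideanSpace ℝ (Fin (m + 1))))
      (Metric.sphere 0 1) ≠ 0 := by
  intro h0
  have hL : LipschitzWith 1 (fun x : EuclideanSpace ℝ (Fin (m + 1)) => fun j : Fin m => x j.succ) := by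
    apply LipschitzWith.of_dist_le_mul
    intro x y
    rw [NNReal.coe_one, one_mul, dist_pi_le_iff dist_nonneg]
    intro j
    rw [dist_eq_norm, dist_eq_norm]
    exact PiLp.norm_apply_le (p := 2) (x - y) j.succ
  have h1 := hL.hausdorffMeasure_image_le (Nat.cast_nonneg m)
    (Metric.sphere (0 : EuclideanSpace ℝ (Fin (m + 1))) 1)
  rw [h0, mul_zero, B08_haus_cube] at h1
  have h2 : Metric.closedBall (0 : Fin m → ℝ) (1 / ((m : ℝ) + 1)) ⊆
      (fun x : EuclideanSpace ℝ (Fin (m + 1)) => fun j : Fin m => x j.succ) ''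
        Metric.sphere (0 : EuclideanSpace ℝ (Fin (m + 1))) 1 := by
    intro y hy
    rw [mem_closedBall_zero_iff, pi_norm_le_iff_of_nonneg (by positivity)] at hy
    have h3 : ∑ j, y j ^ 2 ≤ 1 := by
      calc ∑ j, y j ^ 2 ≤ ∑ j : Fin m, (1 / ((m : ℝ) + 1)) ^ 2 := by
            apply Finset.sum_le_sum
            intro j _
            have := hy j
            rw [Real.norm_eq_abs] at this
            rw [← sq_abs]
            exact pow_le_pow_left₀ (abs_nonneg _) this 2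
        _ = m * (1 / ((m : ℝ) + 1)) ^ 2 := by simp
        _ ≤ 1 := by
            rw [one_div, inv_pow, ← div_eq_mul_inv, div_le_one (by positivity)]
            have : (0 : ℝ) ≤ m := Nat.cast_nonneg m
            nlinarith
    refine ⟨WithLp.toLp 2 (Fin.cons (Real.sqrt (1 - ∑ j, y j ^ 2)) y), ?_, ?_⟩
    · rw [mem_sphere_zero_iff_norm, EuclideanSpace.norm_eq]
      simp only [Fin.sum_univ_succ, Fin.cons_zero, Fin.cons_succ, Real.norm_eq_abs, sq_abs]
      rw [Real.sq_sqrt (by linarith)]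
      simp
    · funext j
      simp
  have h3 := measure_mono (μ := (volume : Measure (Fin m → ℝ))) h2
  have h4 : 0 < volume (Metric.closedBall (0 : Fin m → ℝ) (1 / ((m : ℝ) + 1))) :=
    Metric.measure_closedBall_pos _ _ (by positivity)
  exact absurd (h3.trans h1) (not_le.2 h4)


theorem B08_sphere_bounds (n : ℕ) (hn : 1 ≤ n) :
    (Measure.hausdorffMeasure ((2 * n - 1 : ℕ) : ℝ) : Measure (E n)) (Metric.sphere 0 1) ≠ ⊤ ∧
    (Measure.hausdorffMeasure ((2 * n - 1 : ℕ) : ℝ) : Measure (E n)) (Metric.sphere 0 1) ≠ 0 := by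
  have hfr : Module.finrank ℝ (E n) = (2 * n - 1) + 1 := by
    have h1 : Module.finrank ℝ (E n) = 2 * Module.finrank ℂ (E n) := finrank_real_of_complex (E n)
    have h2 : Module.finrank ℂ (E n) = n := by simp
    omega
  let L : E n ≃ₗᵢ[ℝ] EuclideanSpace ℝ (Fin ((2 * n - 1) + 1)) :=
    ((stdOrthonormalBasis ℝ (E n)).reindex (finCongr hfr)).repr
  have h3 : (Measure.hausdorffMeasure ((2 * n - 1 : ℕ) : ℝ) : Measure (E n)) (Metric.sphere 0 1) =
      (Measure.hausdorffMeasure ((2 * n - 1 : ℕ) : ℝ) :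
        Measure (EuclideanSpace ℝ (Fin ((2 * n - 1) + 1)))) (Metric.sphere 0 1) := by
    have h4 := L.isometry.hausdorffMeasure_image (d := ((2 * n - 1 : ℕ) : ℝ))
      (Or.inl (Nat.cast_nonneg _)) (Metric.sphere 0 1)
    rw [LinearIsometryEquiv.image_sphere, map_zero] at h4
    exact h4.symm
  rw [h3]
  exact ⟨B08_sphere_finite _, B08_sphere_pos _⟩

theorem B08_isom (n : ℕ) (hn : 1 ≤ n) (x y : E n) (hx : ‖x‖ = 1) (hy : ‖y‖ = 1) :
    ∃ U : E n ≃ₗᵢ[ℂ] E n, U x = y := by
  obtain ⟨U, hU⟩ := J1_exists_isom (⟨0, hn⟩ : Fin n) x hx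
  obtain ⟨V, hV⟩ := J1_exists_isom (⟨0, hn⟩ : Fin n) y hy
  refine ⟨U.symm.trans V, ?_⟩
  rw [LinearIsometryEquiv.trans_apply, ← hU, LinearIsometryEquiv.symm_apply_apply, hV]

/-- TARGET -/
theorem hausdorff_sig (n : ℕ) (hn : 1 ≤ n) : ∃ c C : ℝ≥0∞, c ≠ 0 ∧ C ≠ ⊤ ∧
    ∀ s : Set (E n), MeasurableSet s →
      c * sig n s ≤ (Measure.hausdorffMeasure ((2 * n - 1 : ℕ) : ℝ) : Measure (E n))
        (s ∩ Metric.sphere 0 1) ∧
      (Measure.hausdorffMeasure ((2 * n - 1 : ℕ) : ℝ) : Measure (E n))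
        (s ∩ Metric.sphere 0 1) ≤ C * sig n s := by
  obtain ⟨hfin, hpos⟩ := B08_sphere_bounds n hn
  obtain ⟨μ, hμdef⟩ : ∃ μ : Measure (E n), μ = (Measure.hausdorffMeasure ((2 * n - 1 : ℕ) : ℝ) :
    Measure (E n)).restrict (Metric.sphere 0 1) := ⟨_, rfl⟩
  have hSm : MeasurableSet (Metric.sphere (0 : E n) 1) := Metric.isClosed_sphere.measurableSet
  have hμuniv : μ Set.univ = (Measure.hausdorffMeasure ((2 * n - 1 : ℕ) : ℝ) : Measure (E n))
      (Metric.sphere 0 1) := by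
    rw [hμdef, Measure.restrict_apply_univ]
  have hμfin : IsFiniteMeasure μ := ⟨by rw [hμuniv]; exact lt_top_iff_ne_top.2 hfin⟩
  have hμ0 : μ Set.univ ≠ 0 := by rw [hμuniv]; exact hpos
  have hν0 : sig n Set.univ ≠ 0 := sig_univ_pos.ne'
  have hμS : ∀ᵐ x ∂μ, x ∈ Metric.sphere (0 : E n) 1 := by
    rw [hμdef]
    exact ae_restrict_mem hSm
  have hνS : ∀ᵐ x ∂(sig n), x ∈ Metric.sphere (0 : E n) 1 := by
    filter_upwards [sig_ae_norm hn] with x hx
    rw [mem_sphere_zero_iff_norm]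
    exact hx
  obtain ⟨x0, hx0⟩ : ∃ x0 : E n, ‖x0‖ = 1 := ⟨EuclideanSpace.single ⟨0, hn⟩ 1, by simp⟩
  have hballμ : ∀ r, 0 < r → ∀ x ∈ Metric.sphere (0 : E n) 1,
      μ (Metric.ball x r) = μ (Metric.ball x0 r) := by
    intro r _ x hx
    rw [mem_sphere_zero_iff_norm] at hx
    obtain ⟨U, hU⟩ := B08_isom n hn x x0 hx hx0
    have e : U '' (Metric.ball x r ∩ Metric.sphere 0 1) = Metric.ball x0 r ∩ Metric.sphere 0 1 := by
      rw [Set.image_inter U.injective, LinearIsometryEquiv.image_ball,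
        LinearIsometryEquiv.image_sphere, hU, map_zero]
    rw [hμdef, Measure.restrict_apply Metric.isOpen_ball.measurableSet,
      Measure.restrict_apply Metric.isOpen_ball.measurableSet, ← e]
    exact (U.isometry.hausdorffMeasure_image (Or.inl (Nat.cast_nonneg _)) _).symm
  have hballν : ∀ r, 0 < r → ∀ x ∈ Metric.sphere (0 : E n) 1,
      sig n (Metric.ball x r) = sig n (Metric.ball x0 r) := by
    intro r _ x hx
    rw [mem_sphere_zero_iff_norm] at hx
    obtain ⟨U, hU⟩ := B08_isom n hn x x0 hx hx0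
    conv_rhs => rw [← sig_map_isometry U]
    rw [Measure.map_apply U.continuous.measurable Metric.isOpen_ball.measurableSet]
    congr 1
    rw [← hU]
    ext z
    simp only [Metric.mem_ball, Set.mem_preimage]
    rw [U.dist_map]
  have h1 := B08_unif_le μ (sig n) _ hμS hνS (fun r => μ (Metric.ball x0 r))
    (fun r => sig n (Metric.ball x0 r)) hballμ hballν hν0
  have h2 := B08_unif_le (sig n) μ _ hνS hμS (fun r => sig n (Metric.ball x0 r))
    (fun r => μ (Metric.ball x0 r)) hballν hballμ hμ0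
  have hc1 : μ Set.univ / sig n Set.univ ≠ ⊤ := ENNReal.div_ne_top (measure_ne_top _ _) hν0
  have hc0 : μ Set.univ / sig n Set.univ ≠ 0 := by
    rw [Ne, ENNReal.div_eq_zero_iff, not_or]
    exact ⟨hμ0, measure_ne_top _ _⟩
  refine ⟨μ Set.univ / sig n Set.univ, μ Set.univ / sig n Set.univ, hc0, hc1, ?_⟩
  intro s hs
  have e : (Measure.hausdorffMeasure ((2 * n - 1 : ℕ) : ℝ) : Measure (E n))
        (s ∩ Metric.sphere 0 1) = μ s := by
    rw [hμdef, Measure.restrict_apply hs]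
  rw [e]
  refine ⟨?_, h1 s⟩
  calc μ Set.univ / sig n Set.univ * sig n s
      ≤ μ Set.univ / sig n Set.univ * (sig n Set.univ / μ Set.univ * μ s) := by
        gcongr
        exact h2 s
    _ = μ s := by
        rw [← mul_assoc]
        have : μ Set.univ / sig n Set.univ * (sig n Set.univ / μ Set.univ) = 1 := by
          rw [ENNReal.div_eq_inv_mul, ENNReal.div_eq_inv_mul, mul_comm (sig n Set.univ)⁻¹,
            mul_assoc, ← mul_assoc (sig n Set.univ)⁻¹, mul_comm (sig n Set.univ)⁻¹ (μ Set.univ)⁻¹,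
            mul_assoc, ENNReal.inv_mul_cancel hν0 (measure_ne_top _ _), mul_one,
            ENNReal.mul_inv_cancel hμ0 (measure_ne_top _ _)]
        rw [this, one_mul]

end Pool.Agent.HpBall2
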