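import Mathlib
import Pool.Agent.HpBall2.Defs
import Pool.Agent.HpBall2.Combine
import Pool.Agent.HpBall.Geom
import Pool.Agent.HpBall.Sphere
import Pool.Agent.HpBall.Caps
import Pool.Agent.HpBall2.Cover
import Pool.Agent.HpBall2.Cells
import Pool.Agent.HpBall2.Beta
import Pool.Agent.HpBall2.FrameErr
import Pool.Agent.HpBall2.FrameSum
import Pool.Agent.HpBall2.Sample
import Pool.Agent.HpBall2.Kkv
import Pool.Agent.HpBall2.Bessel
import Pool.Agent.HpBall2.Basic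
import Pool.Agent.HpBall2.NFp

set_option autoImplicit false

open MeasureTheory Complex
open scoped ENNReal NNReal

namespace Pool.Agent.HpBall2

open Pool.Agent.HpBall

/-- block sums -/
lemma B28_block {α : Type*} [AddCommMonoid α] (a b : ℕ) (hb : 0 < b) (f : ℕ → ℕ → α) :
    ∑ j ∈ Finset.range (a * b), f (j / b) (j % b) =
      ∑ τ ∈ Finset.range a, ∑ i ∈ Finset.range b, f τ i := by
  induction a with
  | zero => simp
  | succ a ih =>
    rw [Nat.succ_mul, Finset.sum_range_add, ih, Finset.sum_range_succ]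
    congr 1
    refine Finset.sum_congr rfl fun i hi => ?_
    have hi' := Finset.mem_range.1 hi
    have h1 : (a * b + i) / b = a := by
      rw [mul_comm, Nat.mul_add_div hb, Nat.div_eq_of_lt hi']; rfl
    have h2 : (a * b + i) % b = i := by
      rw [mul_comm, Nat.mul_add_mod, Nat.mod_eq_of_lt hi']
    rw [h1, h2]

lemma B28_block' {α : Type*} [AddCommMonoid α] (a b : ℕ) (hb : 0 < b) (g : ℕ → α) :
    ∑ j ∈ Finset.range (a * b), g j =
      ∑ τ ∈ Finset.range a, ∑ i ∈ Finset.range b, g (τ * b + i) := by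
  rw [← B28_block a b hb (fun τ i => g (τ * b + i))]
  refine Finset.sum_congr rfl fun j _ => ?_
  rw [Nat.div_add_mod']

/-- splitting a sum over the tree in subtrees of level s -/
lemma B28_split {α : Type*} [AddCommMonoid α] (s L : ℕ) (g : ℕ → ℕ → α)
    (hg : ∀ q < s, ∀ j, g q j = 0) :
    ∑ q ∈ Finset.range (s + L), ∑ j ∈ Finset.range (2 ^ q), g q j =
      ∑ τ ∈ Finset.range (2 ^ s), ∑ l ∈ Finset.range L, ∑ i ∈ Finset.range (2 ^ l),
        g (s + l) (τ * 2 ^ l + i) := by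
  rw [Finset.sum_range_add, Finset.sum_eq_zero, zero_add, Finset.sum_comm]
  · refine Finset.sum_congr rfl fun l _ => ?_
    rw [pow_add, B28_block' _ _ (by positivity)]
  · intro q hq
    exact Finset.sum_eq_zero fun j _ => hg q (Finset.mem_range.1 hq) j

/-- the entries of an array indexed by natural numbers -/
noncomputable def B28_at (y : Ix → ℂ) (l i : ℕ) : ℂ := if h : i < 2 ^ l then y ⟨l, ⟨i, h⟩⟩ else 0

lemma B28_arr (y : Ix → ℂ) (l i : ℕ) :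
    arr y l i = (((2 : ℝ) ^ ((l : ℝ) / 2) : ℝ) : ℂ) * B28_at y l i := by
  unfold arr B28_at
  split_ifs
  · rfl
  · simp

/-- the finite set of indices of levels below L -/
def B28_F (L : ℕ) : Finset Ix := (Finset.range L).sigma (fun _ => Finset.univ)

lemma B28_mem (L : ℕ) (κ : Ix) : κ ∈ B28_F L ↔ κ.1 < L := by
  unfold B28_F
  simp

lemma B28_sumF {α : Type*} [AddCommMonoid α] (L : ℕ) (f : Ix → α) (g : ℕ → ℕ → α)
    (h : ∀ κ : Ix, f κ = g κ.1 κ.2) :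
    ∑ κ ∈ B28_F L, f κ = ∑ l ∈ Finset.range L, ∑ i ∈ Finset.range (2 ^ l), g l i := by
  unfold B28_F
  rw [Finset.sum_sigma]
  refine Finset.sum_congr rfl fun l _ => ?_
  rw [← Fin.sum_univ_eq_sum_range]
  exact Finset.sum_congr rfl fun i _ => h ⟨l, i⟩

lemma B28_at_coe (y : Ix → ℂ) (κ : Ix) : B28_at y κ.1 κ.2 = y κ := by
  unfold B28_at
  rw [dif_pos κ.2.2]

lemma B28_sq (l : ℕ) : ((2 : ℝ) ^ ((l : ℝ) / 2)) ^ 2 = 2 ^ l := by
  rw [← Real.rpow_natCast ((2 : ℝ) ^ ((l : ℝ) / 2)) 2, ← Real.rpow_mul (by norm_num),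
    ← Real.rpow_natCast 2 l]
  congr 1
  push_cast
  ring

lemma B28_fnorm_two (L : ℕ) (y : Ix → ℂ) :
    fnorm 2 L (arr y) = ∑ κ ∈ B28_F L, ‖y κ‖ ^ 2 := by
  rw [B28_sumF L (fun κ => ‖y κ‖ ^ 2) (fun l i => ‖B28_at y l i‖ ^ 2)
    (fun κ => by rw [B28_at_coe])]
  unfold fnorm
  have h1 : ∀ j : ℕ, (∑ l ∈ Finset.range L, ‖arr y l (j / 2 ^ (L - l))‖ ^ 2) ^ ((2 : ℝ) / 2) =
      ∑ l ∈ Finset.range L, ‖arr y l (j / 2 ^ (L - l))‖ ^ 2 := by
    intro j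
    rw [show (2 : ℝ) / 2 = 1 by norm_num, Real.rpow_one]
  simp_rw [h1]
  rw [Finset.sum_comm, Finset.mul_sum]
  refine Finset.sum_congr rfl fun l hl => ?_
  have h2 := J17b_mean (fun i => ‖arr y l i‖ ^ 2) L l (Finset.mem_range.1 hl).le
  rw [h2, Finset.mul_sum]
  refine Finset.sum_congr rfl fun i _ => ?_
  rw [B28_arr, norm_mul, mul_pow, Complex.norm_real, Real.norm_eq_abs, sq_abs, B28_sq]
  have : (2 : ℝ) ^ l ≠ 0 := by positivity
  field_simp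

lemma B28_v_cont {n : ℕ} {H : Type} [NormedAddCommGroup H] [InnerProductSpace ℂ H]
    (M : HModel n H) (k : ℕ) : Continuous (M.v k) := by
  rw [continuous_iff_continuousAt]
  intro x
  unfold ContinuousAt
  rw [tendsto_iff_norm_sub_tendsto_zero]
  have h1 : ∀ y, ‖M.v k y - M.v k x‖ ^ 2 =
      (((inner ℂ y y : ℂ) ^ k / (cn n k : ℂ) - (inner ℂ x y : ℂ) ^ k / (cn n k : ℂ)) -
        ((inner ℂ y x : ℂ) ^ k / (cn n k : ℂ) - (inner ℂ x x : ℂ) ^ k / (cn n k : ℂ))).re := by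
    intro y
    have h2 := inner_self_eq_norm_sq_to_K (𝕜 := ℂ) (M.v k y - M.v k x)
    rw [inner_sub_left, inner_sub_right, inner_sub_right, M.gram, M.gram, M.gram, M.gram,
      if_pos rfl, if_pos rfl, if_pos rfl, if_pos rfl] at h2
    rw [h2]
    norm_cast
  have h3 : Filter.Tendsto (fun y => ‖M.v k y - M.v k x‖ ^ 2) (nhds x) (nhds 0) := by
    simp_rw [h1]
    have h4 : Continuous (fun y : E n =>
        (((inner ℂ y y : ℂ) ^ k / (cn n k : ℂ) - (inner ℂ x y : ℂ) ^ k / (cn n k : ℂ)) -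
        ((inner ℂ y x : ℂ) ^ k / (cn n k : ℂ) - (inner ℂ x x : ℂ) ^ k / (cn n k : ℂ))).re) := by
      fun_prop
    have h5 := h4.tendsto x
    simpa using h5
  have h6 := h3.sqrt
  simpa using h6

lemma B28_hc_cont {n : ℕ} {H : Type} [NormedAddCommGroup H] [InnerProductSpace ℂ H]
    (M : HModel n H) (h : H) (k : ℕ) : Continuous (fun x : E n => hc (M.ev h) k x) := by
  have h1 : (fun x : E n => hc (M.ev h) k x) = fun x => (cn n k : ℂ) * inner ℂ (M.v k x) h :=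
    funext fun x => M.hc_ev h k x
  rw [h1]
  have h2 := B28_v_cont M k
  fun_prop

lemma B28_cut_cont {n : ℕ} {H : Type} [NormedAddCommGroup H] [InnerProductSpace ℂ H]
    (M : HModel n H) (h : H) (φ : ℝ → ℝ) (b N : ℝ) (hN : 0 < N) (hφ : ∀ x, b ≤ x → φ x = 0) :
    Continuous (fun x : E n => cut φ N (M.ev h) x) := by
  have h1 : (fun x : E n => cut φ N (M.ev h) x) =
      fun x => ∑ k ∈ Finset.range ⌈b * N⌉₊, (φ ((k : ℝ) / N) : ℂ) * hc (M.ev h) k x := by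
    funext x
    unfold cut
    apply tsum_eq_sum
    intro k hk
    have h2 : b ≤ (k : ℝ) / N := by
      rw [Finset.mem_range, not_lt] at hk
      rw [le_div_iff₀ hN]
      exact Nat.ceil_le.1 hk
    rw [hφ _ h2]
    simp
  rw [h1]
  exact continuous_finsetSum _ fun k _ => continuous_const.mul (B28_hc_cont M h k)

lemma B28_kk_cont (n : ℕ) (φ : ℝ → ℝ) (b N : ℝ) (hN : 0 < N) (hφ : ∀ x, b ≤ x → φ x = 0)
    (x : E n) : Continuous (fun z : E n => kk n φ N x z) := by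
  have h1 : (fun z : E n => kk n φ N x z) =
      fun z => ∑ k ∈ Finset.range ⌈b * N⌉₊,
        ((φ ((k : ℝ) / N) * cn n k : ℝ) : ℂ) * (inner ℂ x z) ^ k := by
    funext z
    unfold kk
    apply tsum_eq_sum
    intro k hk
    have h2 : b ≤ (k : ℝ) / N := by
      rw [Finset.mem_range, not_lt] at hk
      rw [le_div_iff₀ hN]
      exact Nat.ceil_le.1 hk
    rw [hφ _ h2]
    simp
  rw [h1]
  fun_prop

lemma B28_cn0 (n : ℕ) : 0 < cn n 0 := by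
  unfold cn
  have h1 : 0 < (0 + n - 1).choose (n - 1) := Nat.choose_pos (by omega)
  have h2 : (0 : ℝ) < ((0 + n - 1).choose (n - 1) : ℝ) := by exact_mod_cast h1
  have := Real.pi_pos
  positivity

lemma B28_sc_pos (n l : ℕ) : 0 < sc n l := by
  unfold sc
  positivity

lemma B28_sc_tendsto (n : ℕ) (hn : 1 ≤ n) :
    Filter.Tendsto (fun m : ℕ => sc n m) Filter.atTop Filter.atTop := by
  have h0 : (0 : ℝ) < n := by exact_mod_cast hn
  have h1 : Filter.Tendsto (fun m : ℕ => (m : ℝ) / (n : ℝ)) Filter.atTop Filter.atTop :=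
    Filter.Tendsto.atTop_div_const h0 tendsto_natCast_atTop_atTop
  have h2 : Filter.Tendsto (fun x : ℝ => (2 : ℝ) ^ x) Filter.atTop Filter.atTop :=
    tendsto_rpow_atTop_of_base_gt_one 2 (by norm_num)
  exact h2.comp h1

/-- the weight of a cell is at most a constant times the measure of the level -/
lemma B28_weight (n : ℕ) (hn : 1 ≤ n) (C : ℝ) : ∃ C₂ : ℝ, 0 < C₂ ∧
    ∀ (l : ℕ) (x : E n) (S : Set (E n)), ‖x‖ = 1 → (∀ ζ ∈ S, sc n l * rho ζ x ≤ C) →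
      (sig n S).toReal ≤ C₂ * (1 / 2 ^ l) := by
  obtain ⟨K, hK, hcap⟩ := cap_upper n hn
  refine ⟨K * (|C| + 1) ^ n, by positivity, ?_⟩
  intro l x S hx hS
  have hs := B28_sc_pos n l
  have hpow : sc n l ^ n = 2 ^ l := by
    unfold sc
    rw [← Real.rpow_natCast, ← Real.rpow_mul (by norm_num)]
    have h0 : (n : ℝ) ≠ 0 := by positivity
    rw [div_mul_cancel₀ _ h0, Real.rpow_natCast]
  have hδ : 0 < (|C| + 1) / sc n l := by positivity
  have h1 : S ⊆ {ξ | rho ξ x < (|C| + 1) / sc n l} := by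
    intro ζ hζ
    have h2 := hS ζ hζ
    change rho ζ x < (|C| + 1) / sc n l
    rw [lt_div_iff₀ hs]
    have := le_abs_self C
    nlinarith [h2]
  have h3 := (measure_mono h1).trans (hcap x hx _ hδ)
  have h4 := ENNReal.toReal_mono ENNReal.ofReal_ne_top h3
  rw [ENNReal.toReal_ofReal (by positivity)] at h4
  refine h4.trans (le_of_eq ?_)
  rw [div_pow, hpow]
  ring

/-- analysis bound of a family of vectors -/
def B28_An {n : ℕ} {H : Type} [NormedAddCommGroup H] [InnerProductSpace ℂ H] (M : HModel n H)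
    (q : ℝ) (u : ℕ → ℕ → H) : Prop :=
  ∃ D : ℝ, 0 < D ∧ ∀ (h : H) (B : ℝ), 0 ≤ B → HB n q B (M.ev h) → ∀ L : ℕ,
    fnorm q L (fun l i => (((2 : ℝ) ^ ((l : ℝ) / 2) : ℝ) : ℂ) * inner ℂ (u l i) h) ≤ D * B

/-- synthesis bound of a family of vectors -/
def B28_Sy {n : ℕ} {H : Type} [NormedAddCommGroup H] [InnerProductSpace ℂ H] (M : HModel n H)
    (p : ℝ) (u : ℕ → ℕ → H) : Prop :=
  ∃ D : ℝ, 0 < D ∧ ∀ (y : ℕ → ℕ → ℂ) (L : ℕ),
    NF n p (M.ev (∑ l ∈ Finset.range L, ∑ i ∈ Finset.range (2 ^ l), y l i • u l i)) ≤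
      ENNReal.ofReal (D * fnorm p L (fun l i => (((2 : ℝ) ^ ((l : ℝ) / 2) : ℝ) : ℂ) * y l i))

/-- the vectors of the tree made of 2 ^ s subtrees -/
noncomputable def B28_tt {H : Type} [Zero H] (s : ℕ) (u : ℕ → ℕ → ℕ → H) (q j : ℕ) : H :=
  if s ≤ q then u (j / 2 ^ (q - s)) (q - s) (j % 2 ^ (q - s)) else 0

lemma B28_tt_eq {H : Type} [Zero H] (s : ℕ) (u : ℕ → ℕ → ℕ → H) (τ l i : ℕ) (hi : i < 2 ^ l) :
    B28_tt s u (s + l) (τ * 2 ^ l + i) = u τ l i := by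
  unfold B28_tt
  rw [if_pos (by omega), Nat.add_sub_cancel_left]
  have h1 : (τ * 2 ^ l + i) / 2 ^ l = τ := by
    rw [mul_comm, Nat.mul_add_div (by positivity), Nat.div_eq_of_lt hi]; rfl
  have h2 : (τ * 2 ^ l + i) % 2 ^ l = i := by
    rw [mul_comm, Nat.mul_add_mod, Nat.mod_eq_of_lt hi]
  rw [h1, h2]

lemma B28_tt_lt {H : Type} [Zero H] (s : ℕ) (u : ℕ → ℕ → ℕ → H) (q j : ℕ) (hq : q < s) :
    B28_tt s u q j = 0 := by
  unfold B28_tt
  rw [if_neg (by omega)]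

lemma B28_idx (s τ l i : ℕ) (hτ : τ < 2 ^ s) (hi : i < 2 ^ l) : τ * 2 ^ l + i < 2 ^ (s + l) := by
  rw [pow_add]
  have h1 : (τ + 1) * 2 ^ l ≤ 2 ^ s * 2 ^ l := Nat.mul_le_mul_right _ hτ
  nlinarith

lemma B28_at_inner {H : Type} [NormedAddCommGroup H] [InnerProductSpace ℂ H]
    (w : ℕ → ℕ → H) (h : H) (q j : ℕ) (hj : j < 2 ^ q) :
    B28_at (fun κ : Ix => inner ℂ (w κ.1 κ.2) h) q j = inner ℂ (w q j) h := by
  unfold B28_at
  rw [dif_pos hj]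

lemma B28_two_add (s l : ℕ) : (2 : ℝ) ^ (((s + l : ℕ) : ℝ) / 2) =
    (2 : ℝ) ^ ((s : ℝ) / 2) * (2 : ℝ) ^ ((l : ℝ) / 2) := by
  rw [← Real.rpow_add (by norm_num)]
  congr 1
  push_cast
  ring

lemma B28_analysis {n : ℕ} {H : Type} [NormedAddCommGroup H] [InnerProductSpace ℂ H]
    (M : HModel n H) (s : ℕ) (u : ℕ → ℕ → ℕ → H) (q : ℝ) (hq : 0 < q)
    (hA : ∀ τ < 2 ^ s, B28_An M q (u τ)) : ∃ D : ℝ, 0 < D ∧ ∀ (h : H) (B : ℝ), 0 ≤ B →
      HB n q B (M.ev h) → ∀ L : ℕ,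
      fnorm q (s + L) (arr (fun κ : Ix => inner ℂ (B28_tt s u κ.1 κ.2) h)) ≤ D * B := by
  choose! D hD0 hD using hA
  have hnn : 0 ≤ (1 / 2 ^ s) * ∑ τ ∈ Finset.range (2 ^ s), ((2 : ℝ) ^ ((s : ℝ) / 2)) ^ q * D τ := by
    apply mul_nonneg (by positivity)
    apply Finset.sum_nonneg
    intro τ hτ
    have := hD0 τ (Finset.mem_range.1 hτ)
    positivity
  refine ⟨(1 / 2 ^ s) * ∑ τ ∈ Finset.range (2 ^ s), ((2 : ℝ) ^ ((s : ℝ) / 2)) ^ q * D τ + 1,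
    by linarith, ?_⟩
  intro h B hB hh L
  obtain ⟨hb1, hb2, hb3, hb4⟩ := fnorm_basic q hq
  rw [(fnorm_subtree q hq _ s L).2]
  · have key : ∀ τ ∈ Finset.range (2 ^ s),
        fnorm q L (fun l i => arr (fun κ : Ix => inner ℂ (B28_tt s u κ.1 κ.2) h) (s + l)
          (τ * 2 ^ l + i)) ≤ ((2 : ℝ) ^ ((s : ℝ) / 2)) ^ q * D τ * B := by
      intro τ hτ
      have hτ' := Finset.mem_range.1 hτ
      have h1 : fnorm q L (fun l i => arr (fun κ : Ix => inner ℂ (B28_tt s u κ.1 κ.2) h) (s + l)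
          (τ * 2 ^ l + i)) ≤ fnorm q L (fun l i => (((2 : ℝ) ^ ((s : ℝ) / 2) : ℝ) : ℂ) *
            ((((2 : ℝ) ^ ((l : ℝ) / 2) : ℝ) : ℂ) * inner ℂ (u τ l i) h)) := by
        apply hb1
        intro l _ i hi
        apply le_of_eq
        congr 1
        rw [B28_arr, B28_at_inner (fun q j => B28_tt s u q j) h _ _ (B28_idx s τ l i hτ' hi),
          B28_tt_eq s u τ l i hi, B28_two_add, Complex.ofReal_mul]
        ring
      have h2 := hb3 L (fun l i => (((2 : ℝ) ^ ((l : ℝ) / 2) : ℝ) : ℂ) * inner ℂ (u τ l i) h)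
        (((2 : ℝ) ^ ((s : ℝ) / 2) : ℝ) : ℂ)
      rw [h2, Complex.norm_real, Real.norm_eq_abs, abs_of_pos (by positivity)] at h1
      refine h1.trans ?_
      rw [mul_assoc]
      exact mul_le_mul_of_nonneg_left (hD τ hτ' h B hB hh L) (by positivity)
    have h3 := Finset.sum_le_sum key
    rw [← Finset.sum_mul] at h3
    have h4 : (0 : ℝ) < 1 / 2 ^ s := by positivity
    have h5 := mul_le_mul_of_nonneg_left h3 h4.le
    rw [← mul_assoc] at h5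
    nlinarith
  · intro l hl i
    rw [B28_arr]
    unfold B28_at
    split_ifs
    · simp only
      rw [B28_tt_lt s u l _ hl, inner_zero_left, mul_zero]
    · rw [mul_zero]

lemma B28_T {n : ℕ} {H : Type} [NormedAddCommGroup H] [InnerProductSpace ℂ H] [CompleteSpace H]
    (M : HModel n H) (s : ℕ) (u : ℕ → ℕ → ℕ → H) (hA : ∀ τ < 2 ^ s, B28_An M 2 (u τ)) :
    ∃ T : H →L[ℂ] KS, (∀ (h : H) (κ : Ix), (T h) κ = inner ℂ (B28_tt s u κ.1 κ.2) h) ∧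
      ∀ κ : Ix, ContinuousLinearMap.adjoint T (lp.single 2 κ (1 : ℂ)) =
        B28_tt s u κ.1 κ.2 := by
  obtain ⟨D, hD0, hD⟩ := B28_analysis M s u 2 (by norm_num) hA
  refine bessel_op (fun κ : Ix => B28_tt s u κ.1 κ.2) D ?_
  intro h S
  have h1 := hD h (‖h‖ ^ 2) (by positivity) ⟨M.hol h, M.two h⟩
    (S.sup (fun κ => κ.1) + 1)
  rw [B28_fnorm_two] at h1
  refine (Finset.sum_le_sum_of_subset_of_nonneg ?_ ?_).trans h1
  · intro κ hκ
    rw [B28_mem]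
    have : κ.1 ≤ S.sup (fun κ : Ix => κ.1) := Finset.le_sup (f := fun κ : Ix => κ.1) hκ
    omega
  · intro κ _ _
    positivity

lemma B28_adj {H : Type} [NormedAddCommGroup H] [InnerProductSpace ℂ H] [CompleteSpace H]
    (T : H →L[ℂ] KS) (t : Ix → H)
    (hadj : ∀ κ : Ix, ContinuousLinearMap.adjoint T (lp.single 2 κ (1 : ℂ)) = t κ) (s : ℕ)
    (y : KS) : Filter.Tendsto (fun L : ℕ => ∑ κ ∈ B28_F (s + L), y κ • t κ) Filter.atTop
      (nhds (ContinuousLinearMap.adjoint T y)) := by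
  have h1 : HasSum (fun κ : Ix => lp.single 2 κ (y κ : ℂ)) y :=
    lp.hasSum_single (by norm_num) y
  have h2 := h1.mapL (ContinuousLinearMap.adjoint T)
  have h3 : (fun κ : Ix => ContinuousLinearMap.adjoint T (lp.single 2 κ (y κ : ℂ))) =
      fun κ => y κ • t κ := by
    funext κ
    have h4 : (lp.single 2 κ (y κ : ℂ) : KS) = y κ • lp.single 2 κ (1 : ℂ) := by
      rw [← lp.single_smul]
      simp
    rw [h4, map_smul, hadj]
  rw [h3] at h2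
  refine h2.comp ?_
  apply Filter.tendsto_atTop_finset_of_monotone
  · intro a b hab κ hκ
    rw [B28_mem] at *
    omega
  · intro κ
    exact ⟨κ.1 + 1, by rw [B28_mem]; omega⟩

lemma B28_sumtree {H : Type} [NormedAddCommGroup H] [InnerProductSpace ℂ H]
    (s : ℕ) (u : ℕ → ℕ → ℕ → H) (y : Ix → ℂ) (L : ℕ) :
    ∑ κ ∈ B28_F (s + L), y κ • B28_tt s u κ.1 κ.2 =
      ∑ τ ∈ Finset.range (2 ^ s), ∑ l ∈ Finset.range L, ∑ i ∈ Finset.range (2 ^ l),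
        B28_at y (s + l) (τ * 2 ^ l + i) • u τ l i := by
  rw [B28_sumF (s + L) _ (fun q j => B28_at y q j • B28_tt s u q j)
    (fun κ => by rw [B28_at_coe]), B28_split s L (fun q j => B28_at y q j • B28_tt s u q j)]
  · refine Finset.sum_congr rfl fun τ _ => Finset.sum_congr rfl fun l _ =>
      Finset.sum_congr rfl fun i hi => ?_
    rw [B28_tt_eq s u τ l i (Finset.mem_range.1 hi)]
  · intro q hq j
    rw [B28_tt_lt s u q j hq, smul_zero]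

lemma B28_synthesis {n : ℕ} (hn : 1 ≤ n) {H : Type} [NormedAddCommGroup H]
    [InnerProductSpace ℂ H] (M : HModel n H) (s : ℕ) (u : ℕ → ℕ → ℕ → H) (p : ℝ) (hp : 0 < p)
    (hp1 : p ≤ 1) (hS : ∀ τ < 2 ^ s, B28_Sy M p (u τ)) : ∃ D : ℝ≥0∞, D ≠ ⊤ ∧
      ∀ (y : Ix → ℂ) (L : ℕ), NF n p (M.ev (∑ κ ∈ B28_F (s + L), y κ • B28_tt s u κ.1 κ.2)) ≤
        D * NK p y := by
  choose! D hD0 hD using hS
  refine ⟨∑ τ ∈ Finset.range (2 ^ s), ENNReal.ofReal (D τ * 2 ^ s), ?_, ?_⟩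
  · exact ENNReal.sum_ne_top.2 fun τ _ => ENNReal.ofReal_ne_top
  intro y L
  have hP := NF_pfun n hn p hp hp1 M
  obtain ⟨hN0, _, _⟩ := pfun_lsc p hp _ hP
  obtain ⟨hb1, hb2, hb3, hb4⟩ := fnorm_basic p hp
  rw [B28_sumtree, Finset.sum_mul]
  refine (Finset.le_sum_of_subadditive (fun h : H => NF n p (M.ev h)) hN0.le hP.add
    (Finset.range (2 ^ s)) _).trans (Finset.sum_le_sum fun τ hτ => ?_)
  have hτ' := Finset.mem_range.1 hτ
  refine (hD τ hτ' (fun l i => B28_at y (s + l) (τ * 2 ^ l + i)) L).trans ?_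
  have h1 : fnorm p L (fun l i => (((2 : ℝ) ^ ((l : ℝ) / 2) : ℝ) : ℂ) *
      B28_at y (s + l) (τ * 2 ^ l + i)) ≤ fnorm p L (fun l i => arr y (s + l) (τ * 2 ^ l + i)) := by
    apply hb1
    intro l _ i _
    rw [B28_arr, B28_two_add, Complex.ofReal_mul, mul_assoc, norm_mul, norm_mul, norm_mul,
      Complex.norm_real, Complex.norm_real, Real.norm_eq_abs, Real.norm_eq_abs,
      abs_of_pos (by positivity), abs_of_pos (by positivity)]
    have h2 : (1 : ℝ) ≤ (2 : ℝ) ^ ((s : ℝ) / 2) :=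
      Real.one_le_rpow (by norm_num) (by positivity)
    have h3 : 0 ≤ (2 : ℝ) ^ ((l : ℝ) / 2) * ‖B28_at y (s + l) (τ * 2 ^ l + i)‖ := by positivity
    nlinarith
  have h4 := (fnorm_subtree p hp (arr y) s L).1 τ hτ'
  have h5 : D τ * fnorm p L (fun l i => (((2 : ℝ) ^ ((l : ℝ) / 2) : ℝ) : ℂ) *
      B28_at y (s + l) (τ * 2 ^ l + i)) ≤ D τ * 2 ^ s * fnorm p (s + L) (arr y) := by
    rw [mul_assoc]
    exact mul_le_mul_of_nonneg_left (h1.trans h4) (hD0 τ hτ').le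
  refine (ENNReal.ofReal_le_ofReal h5).trans ?_
  have h6 := hD0 τ hτ'
  rw [ENNReal.ofReal_mul (by positivity)]
  gcongr
  unfold NK
  exact le_iSup (fun L : ℕ => ENNReal.ofReal (fnorm p L (arr y))) (s + L)

lemma B28_assemble {n : ℕ} (hn : 1 ≤ n) {H : Type} [NormedAddCommGroup H]
    [InnerProductSpace ℂ H] [CompleteSpace H] (M : HModel n H) (p : ℝ) (hp : 0 < p)
    (hp1 : p ≤ 1) (s : ℕ) (u : ℕ → ℕ → ℕ → H) (hAp : ∀ τ < 2 ^ s, B28_An M p (u τ))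
    (hA2 : ∀ τ < 2 ^ s, B28_An M 2 (u τ)) (hS : ∀ τ < 2 ^ s, B28_Sy M p (u τ)) :
    ∃ (T : H →L[ℂ] KS) (D : ℝ≥0∞), D ≠ ⊤ ∧
      (∀ h : H, NK p (⇑(T h)) ≤ D * NF n p (M.ev h)) ∧
      (∀ y : KS, NF n p (M.ev (ContinuousLinearMap.adjoint T y)) ≤ D * NK p (⇑y)) ∧
      ∀ h : H, Filter.Tendsto (fun L : ℕ => ∑ τ ∈ Finset.range (2 ^ s), ∑ l ∈ Finset.range L,
        ∑ i ∈ Finset.range (2 ^ l), (inner ℂ (u τ l i) h : ℂ) • u τ l i) Filter.atTop
        (nhds (ContinuousLinearMap.adjoint T (T h))) := by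
  obtain ⟨T, hT, hadj⟩ := B28_T M s u hA2
  obtain ⟨D₁, hD₁, hDA⟩ := B28_analysis M s u p hp hAp
  obtain ⟨D₂, hD₂, hDS⟩ := B28_synthesis hn M s u p hp hp1 hS
  have hP := NF_pfun n hn p hp hp1 M
  obtain ⟨hN0, hNtop, hNcont⟩ := pfun_lsc p hp _ hP
  obtain ⟨hb1, hb2, hb3, hb4⟩ := fnorm_basic p hp
  refine ⟨T, ENNReal.ofReal D₁ + D₂, by simp [hD₂], ?_, ?_, ?_⟩
  · intro h
    have h1 : (⇑(T h) : Ix → ℂ) = fun κ : Ix => inner ℂ (B28_tt s u κ.1 κ.2) h :=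
      funext fun κ => hT h κ
    rw [h1]
    unfold NK
    refine iSup_le fun L => ?_
    have h2 : HB n p (NF n p (M.ev h)).toReal (M.ev h) := by
      refine ⟨M.hol h, fun r hr0 hr1 => ?_⟩
      rw [ENNReal.ofReal_toReal (hNtop h)]
      unfold NF
      exact le_iSup₂ (f := fun (r : ℝ) (_ : r ∈ Set.Ico (0 : ℝ) 1) =>
        ∫⁻ ξ, ENNReal.ofReal (‖(M.ev h) ((r : ℂ) • ξ)‖ ^ p) ∂(sig n)) r ⟨hr0, hr1⟩
    have h3 := hDA h _ ENNReal.toReal_nonneg h2 L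
    have h4 := (hb2 L (s + L) (arr (fun κ : Ix => inner ℂ (B28_tt s u κ.1 κ.2) h))
      (by omega)).trans h3
    refine (ENNReal.ofReal_le_ofReal h4).trans ?_
    rw [ENNReal.ofReal_mul hD₁.le, ENNReal.ofReal_toReal (hNtop h)]
    gcongr
    exact le_self_add
  · intro y
    have h1 := B28_adj T _ hadj s y
    have h2 := (hNcont.tendsto (ContinuousLinearMap.adjoint T y)).comp h1
    refine le_of_tendsto' h2 fun L => ?_
    refine (hDS y L).trans ?_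
    gcongr
    exact le_add_self
  · intro h
    have h1 := B28_adj T _ hadj s (T h)
    refine h1.congr fun L => ?_
    rw [B28_sumtree]
    refine Finset.sum_congr rfl fun τ hτ => Finset.sum_congr rfl fun l _ =>
      Finset.sum_congr rfl fun i hi => ?_
    have h2 : (⇑(T h) : Ix → ℂ) = fun κ : Ix => inner ℂ (B28_tt s u κ.1 κ.2) h :=
      funext fun κ => hT h κ
    rw [h2, B28_at_inner (fun q j => B28_tt s u q j) h _ _
      (B28_idx s τ l i (Finset.mem_range.1 hτ) (Finset.mem_range.1 hi)),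
      B28_tt_eq s u τ l i (Finset.mem_range.1 hi)]

lemma B28_An_const {n : ℕ} {H : Type} [NormedAddCommGroup H] [InnerProductSpace ℂ H]
    (M : HModel n H) (q : ℝ) (hq : 0 < q) (e : H) (he : ∃ K : ℝ, 0 < K ∧ ∀ (h : H) (B : ℝ), 0 ≤ B →
      HB n q B (M.ev h) → ‖(inner ℂ e h : ℂ)‖ ^ q ≤ K * B) :
    B28_An M q (fun l _ => if l = 0 then e else 0) := by
  obtain ⟨K, hK, hKe⟩ := he
  refine ⟨K, hK, fun h B hB hh L => ?_⟩
  refine le_trans ?_ (hKe h B hB hh)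
  unfold fnorm
  have h1 : ∀ j ∈ Finset.range (2 ^ L), (∑ l ∈ Finset.range L,
      ‖(((2 : ℝ) ^ ((l : ℝ) / 2) : ℝ) : ℂ) * inner ℂ (if l = 0 then e else 0) h‖ ^ 2) ^ (q / 2) ≤
      ‖(inner ℂ e h : ℂ)‖ ^ q := by
    intro j _
    have h2 : ∑ l ∈ Finset.range L,
        ‖(((2 : ℝ) ^ ((l : ℝ) / 2) : ℝ) : ℂ) * inner ℂ (if l = 0 then e else 0) h‖ ^ 2 ≤
        ‖(inner ℂ e h : ℂ)‖ ^ 2 := by
      have h3 : ∀ l ∈ Finset.range L,
          ‖(((2 : ℝ) ^ ((l : ℝ) / 2) : ℝ) : ℂ) * inner ℂ (if l = 0 then e else 0) h‖ ^ 2 =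
          if l = 0 then ‖(inner ℂ e h : ℂ)‖ ^ 2 else 0 := by
        intro l _
        split_ifs with hl
        · subst hl
          simp
        · simp
      rw [Finset.sum_congr rfl h3, Finset.sum_ite_eq']
      split_ifs
      · exact le_rfl
      · positivity
    have h4 : ‖(inner ℂ e h : ℂ)‖ ^ q = (‖(inner ℂ e h : ℂ)‖ ^ 2) ^ (q / 2) := by
      rw [← Real.rpow_natCast, ← Real.rpow_mul (norm_nonneg _)]
      congr 1
      push_cast
      ring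
    rw [h4]
    exact Real.rpow_le_rpow (Finset.sum_nonneg fun _ _ => by positivity) h2 (by positivity)
  have h6 : (0 : ℝ) < 1 / 2 ^ L := by positivity
  refine (mul_le_mul_of_nonneg_left (Finset.sum_le_sum h1) h6.le).trans (le_of_eq ?_)
  rw [Finset.sum_const, Finset.card_range, nsmul_eq_mul]
  push_cast
  have : (2 : ℝ) ^ L ≠ 0 := by positivity
  field_simp

lemma B28_fnorm_root (p : ℝ) (hp : 0 < p) (L : ℕ) (c : ℕ → ℕ → ℂ) :
    ‖c 0 0‖ ^ p ≤ fnorm p (L + 1) c := by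
  unfold fnorm
  have h1 : ∀ j ∈ Finset.range (2 ^ (L + 1)), ‖c 0 0‖ ^ p ≤ (∑ l ∈ Finset.range (L + 1),
      ‖c l (j / 2 ^ (L + 1 - l))‖ ^ 2) ^ (p / 2) := by
    intro j hj
    have h2 : ‖c 0 0‖ ^ 2 ≤ ∑ l ∈ Finset.range (L + 1), ‖c l (j / 2 ^ (L + 1 - l))‖ ^ 2 := by
      have h3 := Finset.single_le_sum (f := fun l => ‖c l (j / 2 ^ (L + 1 - l))‖ ^ 2)
        (s := Finset.range (L + 1)) (fun _ _ => by positivity) (Finset.mem_range.2 (Nat.succ_pos L))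
      simp only [Nat.sub_zero] at h3
      rwa [Nat.div_eq_of_lt (Finset.mem_range.1 hj)] at h3
    have h4 : ‖c 0 0‖ ^ p = (‖c 0 0‖ ^ 2) ^ (p / 2) := by
      rw [← Real.rpow_natCast, ← Real.rpow_mul (norm_nonneg _)]
      congr 1
      push_cast
      ring
    rw [h4]
    exact Real.rpow_le_rpow (by positivity) h2 (by positivity)
  have h5 := Finset.sum_le_sum h1
  rw [Finset.sum_const, Finset.card_range, nsmul_eq_mul] at h5
  have h6 : (0 : ℝ) < 1 / 2 ^ (L + 1) := by positivity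
  refine le_trans (le_of_eq ?_) (mul_le_mul_of_nonneg_left h5 h6.le)
  push_cast
  have : (2 : ℝ) ^ (L + 1) ≠ 0 := by positivity
  field_simp

lemma B28_Sy_const {n : ℕ} (hn : 1 ≤ n) {H : Type} [NormedAddCommGroup H]
    [InnerProductSpace ℂ H] (M : HModel n H) (p : ℝ) (hp : 0 < p) (hp1 : p ≤ 1) (e : H) :
    B28_Sy M p (fun l _ => if l = 0 then e else 0) := by
  have hP := NF_pfun n hn p hp hp1 M
  obtain ⟨hN0, hNtop, _⟩ := pfun_lsc p hp _ hP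
  obtain ⟨hb1, hb2, hb3, hb4⟩ := fnorm_basic p hp
  have htn : 0 ≤ (NF n p (M.ev e)).toReal := ENNReal.toReal_nonneg
  refine ⟨(NF n p (M.ev e)).toReal + 1, by linarith, ?_⟩
  intro y L
  cases L with
  | zero =>
    have h1 : (∑ l ∈ Finset.range 0, ∑ i ∈ Finset.range (2 ^ l),
        y l i • (if l = 0 then e else 0)) = (0 : H) := by simp
    rw [h1]
    have h2 : NF n p (M.ev 0) = 0 := hN0
    rw [h2]
    exact zero_le
  | succ L =>
    have h1 : (∑ l ∈ Finset.range (L + 1), ∑ i ∈ Finset.range (2 ^ l),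
        y l i • (if l = 0 then e else 0)) = y 0 0 • e := by
      rw [Finset.sum_range_succ']
      simp
    rw [h1]
    have h2 : NF n p (M.ev (y 0 0 • e)) = ENNReal.ofReal (‖y 0 0‖ ^ p) * NF n p (M.ev e) :=
      hP.smul (y 0 0) e
    have h3 : ‖(((2 : ℝ) ^ (((0 : ℕ) : ℝ) / 2) : ℝ) : ℂ) * y 0 0‖ ^ p ≤ fnorm p (L + 1)
        (fun l i => (((2 : ℝ) ^ ((l : ℝ) / 2) : ℝ) : ℂ) * y l i) :=
      B28_fnorm_root p hp L (fun l i => (((2 : ℝ) ^ ((l : ℝ) / 2) : ℝ) : ℂ) * y l i)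
    have h4 : (((2 : ℝ) ^ (((0 : ℕ) : ℝ) / 2) : ℝ) : ℂ) * y 0 0 = y 0 0 := by simp
    rw [h4] at h3
    rw [h2, ← ENNReal.ofReal_toReal (hNtop e), ← ENNReal.ofReal_mul (by positivity)]
    apply ENNReal.ofReal_le_ofReal
    rw [ENNReal.toReal_ofReal htn]
    have h5 : 0 ≤ ‖y 0 0‖ ^ p := by positivity
    nlinarith [mul_le_mul_of_nonneg_right h3 htn]

lemma B28_sqrtW (l : ℕ) (W C₂ : ℝ) (hW0 : 0 ≤ W) (hW : W ≤ C₂ * (1 / 2 ^ l)) :
    (2 : ℝ) ^ ((l : ℝ) / 2) * Real.sqrt W ≤ Real.sqrt C₂ := by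
  apply Real.le_sqrt_of_sq_le
  rw [mul_pow, B28_sq, Real.sq_sqrt hW0]
  have h1 : (0 : ℝ) < 2 ^ l := by positivity
  have h2 := mul_le_mul_of_nonneg_left hW h1.le
  refine h2.trans (le_of_eq ?_)
  field_simp

lemma B28_An_sample {n : ℕ} (hn : 1 ≤ n) {H : Type} [NormedAddCommGroup H]
    [InnerProductSpace ℂ H] (M : HModel n H) (q : ℝ) (hq : 0 < q) (hq1 : q ≤ 1 ∨ q = 2)
    (pt : ℕ → ℕ → E n) (c C : ℝ) (hT : TreeFam n pt c C) (x : ℕ → ℕ → E n)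
    (hx : ∀ l i, ‖x l i‖ = 1) (C₁ : ℝ) (hxp : ∀ l i, i < 2 ^ l → sc n l * rho (x l i) (pt l i) ≤ C₁)
    (A : ℝ) (hA : 0 < A) (β : ℝ → ℝ) (a b : ℝ) (hβ : Bump β a b) (W : ℕ → ℕ → ℝ) (C₂ : ℝ)
    (hW0 : ∀ l i, 0 ≤ W l i) (hW : ∀ l i, i < 2 ^ l → W l i ≤ C₂ * (1 / 2 ^ l))
    (kv : ℕ → ℕ → H)
    (hkv : ∀ l i h, (inner ℂ (kv l i) h : ℂ) = cut β (A * sc n l) (M.ev h) (x l i)) :
    B28_An M q (fun l i => ((Real.sqrt (W l i) : ℝ) : ℂ) • kv l i) := by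
  obtain ⟨D, hD, hDa⟩ := sample_analysis n hn q hq hq1 pt c C hT x hx C₁ hxp A hA β a b hβ
  obtain ⟨hb1, hb2, hb3, hb4⟩ := fnorm_basic q hq
  have hs : 0 ≤ Real.sqrt C₂ := Real.sqrt_nonneg _
  refine ⟨Real.sqrt C₂ ^ q * D + 1, by positivity, ?_⟩
  intro h B hB hh L
  have h1 : fnorm q L (fun l i => (((2 : ℝ) ^ ((l : ℝ) / 2) : ℝ) : ℂ) *
      inner ℂ (((Real.sqrt (W l i) : ℝ) : ℂ) • kv l i) h) ≤
      fnorm q L (fun l i => ((Real.sqrt C₂ : ℝ) : ℂ) * cut β (A * sc n l) (M.ev h) (x l i)) := by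
    apply hb1
    intro l _ i hi
    rw [inner_smul_left, hkv, Complex.conj_ofReal, ← mul_assoc, ← Complex.ofReal_mul, norm_mul,
      norm_mul, Complex.norm_real, Complex.norm_real, Real.norm_eq_abs, Real.norm_eq_abs,
      abs_of_nonneg (by positivity), abs_of_nonneg hs]
    exact mul_le_mul_of_nonneg_right (B28_sqrtW l _ _ (hW0 l i) (hW l i hi)) (norm_nonneg _)
  have h2 := hb3 L (fun l i => cut β (A * sc n l) (M.ev h) (x l i)) ((Real.sqrt C₂ : ℝ) : ℂ)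
  rw [h2, Complex.norm_real, Real.norm_eq_abs, abs_of_nonneg hs] at h1
  have h3 := hDa (M.ev h) B hB hh L
  have h4 : 0 ≤ Real.sqrt C₂ ^ q := by positivity
  have h5 := mul_le_mul_of_nonneg_left h3 h4
  nlinarith

lemma B28_Sy_sample {n : ℕ} (hn : 1 ≤ n) {H : Type} [NormedAddCommGroup H]
    [InnerProductSpace ℂ H] (M : HModel n H) (p : ℝ) (hp : 0 < p) (hp1 : p ≤ 1)
    (pt : ℕ → ℕ → E n) (c C : ℝ) (hT : TreeFam n pt c C) (x : ℕ → ℕ → E n)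
    (hx : ∀ l i, ‖x l i‖ = 1) (C₁ : ℝ) (hxp : ∀ l i, i < 2 ^ l → sc n l * rho (x l i) (pt l i) ≤ C₁)
    (A : ℝ) (hA : 0 < A) (β : ℝ → ℝ) (a b : ℝ) (hβ : Bump β a b) (W : ℕ → ℕ → ℝ) (C₂ : ℝ)
    (hW0 : ∀ l i, 0 ≤ W l i) (hW : ∀ l i, i < 2 ^ l → W l i ≤ C₂ * (1 / 2 ^ l))
    (kv : ℕ → ℕ → H)
    (hkv : ∀ l i (z : E n), ‖z‖ < 1 → M.ev (kv l i) z = kk n β (A * sc n l) (x l i) z) :
    B28_Sy M p (fun l i => ((Real.sqrt (W l i) : ℝ) : ℂ) • kv l i) := by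
  have hw : ∀ l i : ℕ, i < 2 ^ l → |((2 : ℝ) ^ ((l : ℝ) / 2))⁻¹ * Real.sqrt (W l i)| ≤
      Real.sqrt C₂ * (1 / 2 ^ l) := by
    intro l i hi
    have h1 := B28_sqrtW l _ _ (hW0 l i) (hW l i hi)
    rw [abs_of_nonneg (by positivity), ← B28_sq l]
    have h2 : (0 : ℝ) < (2 : ℝ) ^ ((l : ℝ) / 2) := by positivity
    rw [mul_one_div, le_div_iff₀ (by positivity)]
    refine le_trans (le_of_eq ?_) h1
    field_simp
  obtain ⟨D, hD, hDs⟩ := sample_synthesis n hn p hp (Or.inl hp1) pt c C hT x hx C₁ hxp A hA β a b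
    hβ (fun l i => ((2 : ℝ) ^ ((l : ℝ) / 2))⁻¹ * Real.sqrt (W l i)) (Real.sqrt C₂) hw
  refine ⟨D, hD, fun y L => ?_⟩
  unfold NF
  refine iSup₂_le fun r hr => ?_
  refine le_trans (le_of_eq ?_) (hDs (fun l i => (((2 : ℝ) ^ ((l : ℝ) / 2) : ℝ) : ℂ) * y l i) L r
    hr.1 hr.2.le)
  apply lintegral_congr_ae
  filter_upwards [sig_ae_norm hn] with ξ hξ
  have hz : ‖(r : ℂ) • ξ‖ < 1 := by
    rw [norm_smul, hξ, mul_one, Complex.norm_real, Real.norm_eq_abs, abs_of_nonneg hr.1]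
    exact hr.2
  congr 3
  rw [map_sum, Finset.sum_apply]
  refine Finset.sum_congr rfl fun l _ => ?_
  rw [map_sum, Finset.sum_apply]
  refine Finset.sum_congr rfl fun i _ => ?_
  rw [map_smul, map_smul, Pi.smul_apply, Pi.smul_apply, hkv l i _ hz, smul_eq_mul, smul_eq_mul]
  have h2 : (((2 : ℝ) ^ ((l : ℝ) / 2) : ℝ) : ℂ) ≠ 0 := by
    have : (0 : ℝ) < (2 : ℝ) ^ ((l : ℝ) / 2) := by positivity
    exact_mod_cast this.ne'
  rw [Complex.ofReal_mul, Complex.ofReal_inv]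
  field_simp

lemma B28_ev0 (n : ℕ) (q : ℝ) : ∃ K : ℝ, 0 < K ∧ ∀ (g : E n → ℂ) (B : ℝ),
    0 ≤ B → HB n q B g → ‖g 0‖ ^ q ≤ K * B := by
  have hpos : 0 < sig n Set.univ := sig_univ_pos
  have hfin : sig n Set.univ ≠ ⊤ := measure_ne_top _ _
  have hs : 0 < (sig n Set.univ).toReal := ENNReal.toReal_pos hpos.ne' hfin
  refine ⟨1 / (sig n Set.univ).toReal, by positivity, fun g B hB hg => ?_⟩
  have h1 := hg.2 0 le_rfl one_pos
  simp only [Complex.ofReal_zero, zero_smul, lintegral_const] at h1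
  have h2 := ENNReal.toReal_mono ENNReal.ofReal_ne_top h1
  rw [ENNReal.toReal_mul, ENNReal.toReal_ofReal (by positivity), ENNReal.toReal_ofReal hB] at h2
  rw [one_div, inv_mul_eq_div, le_div_iff₀ hs]
  exact h2

lemma B28_fatou {n : ℕ} (hn : 1 ≤ n) (q : ℝ) (hq : 0 < q) (F : ℕ → E n → ℂ) (G : E n → ℂ)
    (hF : ∀ L, Continuous (F L))
    (hlim : ∀ z : E n, ‖z‖ < 1 → Filter.Tendsto (fun L => F L z) Filter.atTop (nhds (G z)))
    (B : ℝ≥0∞) (r : ℝ) (hr0 : 0 ≤ r) (hr1 : r < 1)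
    (hB : ∀ L, ∫⁻ ξ, ENNReal.ofReal (‖F L ((r : ℂ) • ξ)‖ ^ q) ∂(sig n) ≤ B) :
    ∫⁻ ξ, ENNReal.ofReal (‖G ((r : ℂ) • ξ)‖ ^ q) ∂(sig n) ≤ B := by
  have h1 : ∫⁻ ξ, ENNReal.ofReal (‖G ((r : ℂ) • ξ)‖ ^ q) ∂(sig n) =
      ∫⁻ ξ, Filter.liminf (fun L => ENNReal.ofReal (‖F L ((r : ℂ) • ξ)‖ ^ q))
        Filter.atTop ∂(sig n) := by
    apply lintegral_congr_ae
    filter_upwards [sig_ae_norm hn] with ξ hξ
    have hz : ‖(r : ℂ) • ξ‖ < 1 := by
      rw [norm_smul, hξ, mul_one, Complex.norm_real, Real.norm_eq_abs, abs_of_nonneg hr0]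
      exact hr1
    have h2 := hlim _ hz
    have h3 : Filter.Tendsto (fun L => ENNReal.ofReal (‖F L ((r : ℂ) • ξ)‖ ^ q)) Filter.atTop
        (nhds (ENNReal.ofReal (‖G ((r : ℂ) • ξ)‖ ^ q))) :=
      ENNReal.tendsto_ofReal (h2.norm.rpow_const (Or.inr hq.le))
    exact h3.liminf_eq.symm
  rw [h1]
  refine (lintegral_liminf_le fun L => ?_).trans ?_
  · have hc : Continuous (fun ξ : E n => ‖F L ((r : ℂ) • ξ)‖ ^ q) := by
      have h4 : Continuous (fun ξ : E n => F L ((r : ℂ) • ξ)) :=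
        (hF L).comp (continuous_const_smul _)
      exact h4.norm.rpow_const fun _ => Or.inr hq.le
    exact ENNReal.measurable_ofReal.comp hc.measurable
  · exact (Filter.liminf_le_liminf (Filter.Eventually.of_forall hB)).trans
      (Filter.liminf_const _).le

lemma B28_ev_tendsto {n : ℕ} {H : Type} [NormedAddCommGroup H] [InnerProductSpace ℂ H]
    (M : HModel n H) (z : E n) (hz : ‖z‖ < 1) {ι : Type} {f : ι → H} {l : Filter ι} {a : H}
    (hf : Filter.Tendsto f l (nhds a)) :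
    Filter.Tendsto (fun i => M.ev (f i) z) l (nhds (M.ev a z)) := by
  obtain ⟨C, hC, hb⟩ := M.ev_bd z hz
  let φ : H →L[ℂ] ℂ := ((LinearMap.proj z : (E n → ℂ) →ₗ[ℂ] ℂ).comp M.ev).mkContinuous C hb
  exact (φ.continuous.tendsto a).comp hf

lemma B28_choose_m (n : ℕ) (hn : 1 ≤ n) (p D₁ D₂ : ℝ) (hp : 0 < p) (m₁ m₂ : ℕ) :
    ∃ m : ℕ, m₁ ≤ m ∧ m₂ ≤ m ∧ D₁ * sc n m ^ (-(p / 2)) ≤ 1 / 2 ∧
      D₂ * sc n m ^ (-((2 : ℝ) / 2)) ≤ 1 / 4 := by
  have h1 : Filter.Tendsto (fun m : ℕ => D₁ * sc n m ^ (-(p / 2))) Filter.atTop (nhds (D₁ * 0)) :=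
    ((tendsto_rpow_neg_atTop (by positivity)).comp (B28_sc_tendsto n hn)).const_mul D₁
  have h2 : Filter.Tendsto (fun m : ℕ => D₂ * sc n m ^ (-((2 : ℝ) / 2))) Filter.atTop
      (nhds (D₂ * 0)) :=
    ((tendsto_rpow_neg_atTop (by positivity)).comp (B28_sc_tendsto n hn)).const_mul D₂
  rw [mul_zero] at h1 h2
  have h3 := h1.eventually (gt_mem_nhds (by norm_num : (0 : ℝ) < 1 / 2))
  have h4 := h2.eventually (gt_mem_nhds (by norm_num : (0 : ℝ) < 1 / 4))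
  obtain ⟨m, hm⟩ := (h3.and (h4.and ((Filter.eventually_ge_atTop m₁).and
    (Filter.eventually_ge_atTop m₂)))).exists
  exact ⟨m, hm.2.2.1, hm.2.2.2, hm.1.le, hm.2.1.le⟩

lemma B28_reindex {α : Type*} [AddCommMonoid α] (V m L : ℕ) (G : ℕ → ℕ → ℕ → α) :
    ∑ τ ∈ Finset.range (V * 2 ^ m), ∑ l ∈ Finset.range L, ∑ i ∈ Finset.range (2 ^ l),
      G l (τ / 2 ^ m) (2 ^ m * i + τ % 2 ^ m) =
    ∑ l ∈ Finset.range L, ∑ ν ∈ Finset.range V, ∑ j ∈ Finset.range (2 ^ (l + m)), G l ν j := by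
  rw [B28_block V (2 ^ m) (by positivity) (fun ν rr => ∑ l ∈ Finset.range L,
    ∑ i ∈ Finset.range (2 ^ l), G l ν (2 ^ m * i + rr))]
  have h1 : ∀ ν : ℕ, ∑ rr ∈ Finset.range (2 ^ m), ∑ l ∈ Finset.range L,
      ∑ i ∈ Finset.range (2 ^ l), G l ν (2 ^ m * i + rr) =
      ∑ l ∈ Finset.range L, ∑ j ∈ Finset.range (2 ^ (l + m)), G l ν j := by
    intro ν
    rw [Finset.sum_comm]
    refine Finset.sum_congr rfl fun l _ => ?_
    rw [Finset.sum_comm, pow_add, B28_block' (2 ^ l) (2 ^ m) (by positivity)]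
    refine Finset.sum_congr rfl fun i _ => Finset.sum_congr rfl fun rr _ => ?_
    rw [mul_comm (2 ^ m) i]
  simp_rw [h1]
  rw [Finset.sum_comm]

/-- computation of the synthesised analysed vector -/
lemma B28_evP {n : ℕ} {H : Type} [NormedAddCommGroup H] [InnerProductSpace ℂ H]
    (M : HModel n H) (V m s : ℕ) (hs : V * 2 ^ m + 1 ≤ 2 ^ s) (u : ℕ → ℕ → ℕ → H)
    (w : ℕ → ℕ → ℕ → ℝ) (hw0 : ∀ l ν j, 0 ≤ w l ν j) (kv : ℕ → ℕ → ℕ → H) (e : H)
    (hu1 : ∀ τ < V * 2 ^ m, ∀ l i, u τ l i =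
      ((Real.sqrt (w l (τ / 2 ^ m) (2 ^ m * i + τ % 2 ^ m)) : ℝ) : ℂ) •
        kv l (τ / 2 ^ m) (2 ^ m * i + τ % 2 ^ m))
    (hu2 : ∀ l i, u (V * 2 ^ m) l i = if l = 0 then e else 0)
    (hu3 : ∀ τ, V * 2 ^ m < τ → ∀ l i, u τ l i = 0) (h : H) (z : E n) (L : ℕ) :
    M.ev (∑ τ ∈ Finset.range (2 ^ s), ∑ l ∈ Finset.range (L + 1),
        ∑ i ∈ Finset.range (2 ^ l), (inner ℂ (u τ l i) h : ℂ) • u τ l i) z =
      ∑ l ∈ Finset.range (L + 1), ∑ ν ∈ Finset.range V, ∑ j ∈ Finset.range (2 ^ (l + m)),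
        ((w l ν j : ℝ) : ℂ) * (inner ℂ (kv l ν j) h : ℂ) * M.ev (kv l ν j) z +
      (inner ℂ e h : ℂ) * M.ev e z := by
  have h1 : Finset.range (V * 2 ^ m + 1) ⊆ Finset.range (2 ^ s) := by
    intro x hx
    rw [Finset.mem_range] at *
    omega
  rw [← Finset.sum_subset h1, Finset.sum_range_succ, map_add, Pi.add_apply]
  · congr 1
    · rw [← B28_reindex V m (L + 1) (fun l ν j => ((w l ν j : ℝ) : ℂ) *
        (inner ℂ (kv l ν j) h : ℂ) * M.ev (kv l ν j) z)]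
      rw [map_sum, Finset.sum_apply]
      refine Finset.sum_congr rfl fun τ hτ => ?_
      rw [map_sum, Finset.sum_apply]
      refine Finset.sum_congr rfl fun l _ => ?_
      rw [map_sum, Finset.sum_apply]
      refine Finset.sum_congr rfl fun i _ => ?_
      rw [hu1 τ (Finset.mem_range.1 hτ), inner_smul_left, map_smul, map_smul, Pi.smul_apply,
        Pi.smul_apply, smul_eq_mul, smul_eq_mul, Complex.conj_ofReal]
      have h2 := Real.mul_self_sqrt (hw0 l (τ / 2 ^ m) (2 ^ m * i + τ % 2 ^ m))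
      have h3 : ((w l (τ / 2 ^ m) (2 ^ m * i + τ % 2 ^ m) : ℝ) : ℂ) =
          ((Real.sqrt (w l (τ / 2 ^ m) (2 ^ m * i + τ % 2 ^ m)) : ℝ) : ℂ) *
          ((Real.sqrt (w l (τ / 2 ^ m) (2 ^ m * i + τ % 2 ^ m)) : ℝ) : ℂ) := by
        rw [← Complex.ofReal_mul, h2]
      rw [h3]
      ring
    · have h4 : (∑ l ∈ Finset.range (L + 1), ∑ i ∈ Finset.range (2 ^ l),
          (inner ℂ (u (V * 2 ^ m) l i) h : ℂ) • u (V * 2 ^ m) l i) = (inner ℂ e h : ℂ) • e := by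
        simp_rw [hu2]
        rw [Finset.sum_range_succ']
        simp
      rw [h4, map_smul, Pi.smul_apply, smul_eq_mul]
  · intro τ _ hτ
    rw [Finset.mem_range, not_lt] at hτ
    refine Finset.sum_eq_zero fun l _ => Finset.sum_eq_zero fun i _ => ?_
    rw [hu3 τ (by omega), smul_zero]

/-- TARGET -/
theorem frame_op (n : ℕ) (hn : 1 ≤ n) (p : ℝ) (hp : 0 < p) (hp1 : p ≤ 1) {H : Type}
    [NormedAddCommGroup H] [InnerProductSpace ℂ H] [CompleteSpace H] (M : HModel n H) :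
    ∃ (T : H →L[ℂ] KS) (D : ℝ≥0∞), D ≠ ⊤ ∧
      ‖(1 : H →L[ℂ] H) - (ContinuousLinearMap.adjoint T).comp T‖ ≤ 1 / 2 ∧
      (∀ h : H, NF n p (M.ev (h - ContinuousLinearMap.adjoint T (T h))) ≤
        ENNReal.ofReal (1 / 2) * NF n p (M.ev h)) ∧
      (∀ h : H, NK p (⇑(T h)) ≤ D * NF n p (M.ev h)) ∧
      ∀ y : KS, NF n p (M.ev (ContinuousLinearMap.adjoint T y)) ≤ D * NK p (⇑y) := by
  classical
  obtain ⟨V, pt, c, C, hT, hcov⟩ := exists_cover n hn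
  obtain ⟨R, hRm, hRs, hRd, hRc⟩ := exists_cells n hn V pt C hcov
  obtain ⟨β, a, b, A, hβ, hA, hsum⟩ := exists_beta n hn
  obtain ⟨D₁, hD₁, m₁, hE₁⟩ := frame_error n hn p hp (Or.inl hp1) V pt c C hT R hRm hRs hRd hRc
    A hA β a b hβ
  obtain ⟨D₂, hD₂, m₂, hE₂⟩ := frame_error n hn 2 (by norm_num) (Or.inr rfl) V pt c C hT R hRm
    hRs hRd hRc A hA β a b hβ
  obtain ⟨m, hm₁, hm₂, hs₁, hs₂⟩ := B28_choose_m n hn p D₁ D₂ hp m₁ m₂
  obtain ⟨C₂, hC₂, hwt⟩ := B28_weight n hn C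
  have hNl : ∀ l, 0 < A * sc n l := fun l => mul_pos hA (B28_sc_pos n l)
  have hkk := fun (l : ℕ) (x : E n) => exists_kkv n hn M β a b hβ (A * sc n l) (hNl l) x
  choose kq hkq1 hkq2 using hkk
  obtain ⟨tc, htc1, htc2⟩ := exists_const n hn M
  -- weights and vectors
  obtain ⟨w, hw⟩ : ∃ w : ℕ → ℕ → ℕ → ℝ, w = fun l ν j => (sig n (R (l + m) ν j)).toReal := ⟨_, rfl⟩
  obtain ⟨kv, hkv⟩ : ∃ kv : ℕ → ℕ → ℕ → H, kv = fun l ν j => kq l (pt ν (l + m) j) := ⟨_, rfl⟩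
  have hw0 : ∀ l ν j, 0 ≤ w l ν j := by
    intro l ν j; rw [hw]; exact ENNReal.toReal_nonneg
  obtain ⟨s, hs⟩ : ∃ s : ℕ, V * 2 ^ m + 1 ≤ 2 ^ s := ⟨V * 2 ^ m, Nat.lt_two_pow_self⟩
  obtain ⟨u, hu⟩ : ∃ u : ℕ → ℕ → ℕ → H, u = fun τ l i => if τ < V * 2 ^ m then
      ((Real.sqrt (w l (τ / 2 ^ m) (2 ^ m * i + τ % 2 ^ m)) : ℝ) : ℂ) •
        kv l (τ / 2 ^ m) (2 ^ m * i + τ % 2 ^ m)
      else if l = 0 then (if τ = V * 2 ^ m then tc else 0) else 0 := ⟨_, rfl⟩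
  have hu1 : ∀ τ < V * 2 ^ m, ∀ l i, u τ l i =
      ((Real.sqrt (w l (τ / 2 ^ m) (2 ^ m * i + τ % 2 ^ m)) : ℝ) : ℂ) •
        kv l (τ / 2 ^ m) (2 ^ m * i + τ % 2 ^ m) := by
    intro τ hτ l i
    rw [hu]
    simp only
    rw [if_pos hτ]
  have hu1' : ∀ τ < V * 2 ^ m, u τ = fun l i =>
      ((Real.sqrt (w l (τ / 2 ^ m) (2 ^ m * i + τ % 2 ^ m)) : ℝ) : ℂ) •
        kv l (τ / 2 ^ m) (2 ^ m * i + τ % 2 ^ m) := by
    intro τ hτ
    funext l i
    exact hu1 τ hτ l i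
  have hu2 : ∀ l i, u (V * 2 ^ m) l i = if l = 0 then tc else 0 := by
    intro l i
    rw [hu]
    simp
  have hu3 : ∀ τ, V * 2 ^ m < τ → ∀ l i, u τ l i = 0 := by
    intro τ hτ l i
    rw [hu]
    simp only
    rw [if_neg (by omega), if_neg (by omega : ¬ τ = V * 2 ^ m)]
    simp
  have hu2' : u (V * 2 ^ m) = fun l _ => if l = 0 then tc else 0 := by
    funext l i; exact hu2 l i
  have hu3' : ∀ τ, V * 2 ^ m < τ → u τ = fun l _ => if l = 0 then (0 : H) else 0 := by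
    intro τ hτ
    funext l i
    rw [hu3 τ hτ]
    simp
  -- properties of sample points
  have hX : ∀ τ < V * 2 ^ m, ∀ l i, i < 2 ^ l → 2 ^ m * i + τ % 2 ^ m < 2 ^ (l + m) := by
    intro τ _ l i hi
    have h1 : τ % 2 ^ m < 2 ^ m := Nat.mod_lt _ (by positivity)
    rw [pow_add]
    have h2 : (i + 1) * 2 ^ m ≤ 2 ^ l * 2 ^ m := Nat.mul_le_mul_right _ hi
    nlinarith
  have hVτ : ∀ τ < V * 2 ^ m, τ / 2 ^ m < V := by
    intro τ hτ
    exact Nat.div_lt_of_lt_mul (by rwa [mul_comm] at hτ)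
  have hxp : ∀ τ < V * 2 ^ m, ∀ l i, i < 2 ^ l →
      sc n l * rho (pt (τ / 2 ^ m) (l + m) (2 ^ m * i + τ % 2 ^ m)) (pt (τ / 2 ^ m) l i) ≤ C := by
    intro τ hτ l i hi
    have h1 := (hT _ (hVτ τ hτ)).nest l (l + m) (2 ^ m * i + τ % 2 ^ m) (by omega) (hX τ hτ l i hi)
    have h2 : (2 ^ m * i + τ % 2 ^ m) / 2 ^ (l + m - l) = i := by
      rw [Nat.add_sub_cancel_left, Nat.mul_add_div (by positivity),
        Nat.div_eq_of_lt (Nat.mod_lt _ (by positivity)), add_zero]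
    rwa [h2] at h1
  have hWb : ∀ τ < V * 2 ^ m, ∀ l i, i < 2 ^ l →
      w l (τ / 2 ^ m) (2 ^ m * i + τ % 2 ^ m) ≤ C₂ * (1 / 2 ^ l) := by
    intro τ hτ l i hi
    rw [hw]
    have h1 := hwt (l + m) (pt (τ / 2 ^ m) (l + m) (2 ^ m * i + τ % 2 ^ m))
      (R (l + m) (τ / 2 ^ m) (2 ^ m * i + τ % 2 ^ m)) ((hT _ (hVτ τ hτ)).unit _ _)
      (fun ζ hζ => (hRs _ _ _ (hVτ τ hτ) (hX τ hτ l i hi) ζ hζ).2)
    refine h1.trans (mul_le_mul_of_nonneg_left ?_ hC₂.le)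
    apply one_div_le_one_div_of_le (by positivity)
    exact pow_le_pow_right₀ (by norm_num) (by omega)
  have hAnG : ∀ q : ℝ, 0 < q → (q ≤ 1 ∨ q = 2) → ∀ τ < 2 ^ s, B28_An M q (u τ) := by
    intro q hq hq1 τ _
    rcases lt_trichotomy τ (V * 2 ^ m) with hτ | hτ | hτ
    · rw [hu1' τ hτ]
      refine B28_An_sample hn M q hq hq1 (pt (τ / 2 ^ m)) c C (hT _ (hVτ τ hτ))
        (fun l i => pt (τ / 2 ^ m) (l + m) (2 ^ m * i + τ % 2 ^ m))
        (fun l i => (hT _ (hVτ τ hτ)).unit _ _) C (hxp τ hτ) A hA β a b hβ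
        (fun l i => w l (τ / 2 ^ m) (2 ^ m * i + τ % 2 ^ m)) C₂ (fun l i => hw0 _ _ _)
        (hWb τ hτ) (fun l i => kv l (τ / 2 ^ m) (2 ^ m * i + τ % 2 ^ m)) ?_
      intro l i h
      rw [hkv]
      exact hkq2 l _ h
    · rw [hτ, hu2']
      refine B28_An_const M q hq tc ?_
      obtain ⟨K, hK, hK2⟩ := B28_ev0 n q
      have hc : 0 < Real.sqrt (cn n 0) := Real.sqrt_pos.2 (B28_cn0 n)
      refine ⟨K / Real.sqrt (cn n 0) ^ q, by positivity, ?_⟩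
      intro h B hB hh
      rw [htc2, norm_div, Complex.norm_real, Real.norm_eq_abs, abs_of_pos hc,
        Real.div_rpow (norm_nonneg _) hc.le, div_mul_eq_mul_div]
      exact div_le_div_of_nonneg_right (hK2 _ B hB hh) (by positivity)
    · rw [hu3' τ hτ]
      refine B28_An_const M q hq 0 ⟨1, one_pos, fun h B hB _ => ?_⟩
      rw [inner_zero_left, norm_zero, Real.zero_rpow hq.ne']
      linarith
  have hSyG : ∀ τ < 2 ^ s, B28_Sy M p (u τ) := by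
    intro τ _
    rcases lt_trichotomy τ (V * 2 ^ m) with hτ | hτ | hτ
    · rw [hu1' τ hτ]
      refine B28_Sy_sample hn M p hp hp1 (pt (τ / 2 ^ m)) c C (hT _ (hVτ τ hτ))
        (fun l i => pt (τ / 2 ^ m) (l + m) (2 ^ m * i + τ % 2 ^ m))
        (fun l i => (hT _ (hVτ τ hτ)).unit _ _) C (hxp τ hτ) A hA β a b hβ
        (fun l i => w l (τ / 2 ^ m) (2 ^ m * i + τ % 2 ^ m)) C₂ (fun l i => hw0 _ _ _)
        (hWb τ hτ) (fun l i => kv l (τ / 2 ^ m) (2 ^ m * i + τ % 2 ^ m)) ?_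
      intro l i z hz
      rw [hkv]
      exact hkq1 l _ z hz
    · rw [hτ, hu2']
      exact B28_Sy_const hn M p hp hp1 tc
    · rw [hu3' τ hτ]
      exact B28_Sy_const hn M p hp hp1 0
  obtain ⟨T, D, hD, hTa, hTs, hTl⟩ := B28_assemble hn M p hp hp1 s u (hAnG p hp (Or.inl hp1))
    (hAnG 2 (by norm_num) (Or.inr rfl)) hSyG
  -- the error function
  obtain ⟨Er, hEr⟩ : ∃ Er : H → ℕ → E n → ℂ, Er = fun h L z => ∑ l ∈ Finset.range L,
      (cut (fun t => β t * β t) (A * sc n l) (M.ev h) z -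
        ∑ ν ∈ Finset.range V, ∑ j ∈ Finset.range (2 ^ (l + m)),
          (((sig n (R (l + m) ν j)).toReal : ℝ) : ℂ) *
            cut β (A * sc n l) (M.ev h) (pt ν (l + m) j) *
            kk n β (A * sc n l) (pt ν (l + m) j) z) := ⟨_, rfl⟩
  have hErc : ∀ h L, Continuous (Er h L) := by
    intro h L
    rw [hEr]
    refine continuous_finsetSum _ fun l _ => ?_
    refine (B28_cut_cont M h (fun t => β t * β t) b (A * sc n l) (hNl l)
      (fun x hx => by rw [hβ.hi x hx, mul_zero])).sub ?_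
    refine continuous_finsetSum _ fun ν _ => continuous_finsetSum _ fun j _ => ?_
    exact continuous_const.mul (B28_kk_cont n β b (A * sc n l) (hNl l) hβ.hi _)
  have hErl : ∀ h (z : E n), ‖z‖ < 1 → Filter.Tendsto (fun L => Er h L z) Filter.atTop
      (nhds (M.ev (h - ContinuousLinearMap.adjoint T (T h)) z)) := by
    intro h z hz
    have h1 := (frame_sum n hn β a b A hβ hA hsum (M.ev h) (M.hol h) z hz).tendsto_sum_nat
    have h2 := B28_ev_tendsto M z hz (hTl h)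
    have h3 := (h1.sub (h2.sub (tendsto_const_nhds (x := M.ev h 0))))
    have h4 : M.ev h z - M.ev h 0 - (M.ev (ContinuousLinearMap.adjoint T (T h)) z - M.ev h 0) =
        M.ev (h - ContinuousLinearMap.adjoint T (T h)) z := by
      rw [map_sub, Pi.sub_apply]
      ring
    rw [h4] at h3
    refine h3.congr' ?_
    filter_upwards [Filter.eventually_ge_atTop 1] with L hL
    obtain ⟨L', rfl⟩ : ∃ L', L = L' + 1 := ⟨L - 1, by omega⟩
    rw [B28_evP M V m s hs u w hw0 kv tc hu1 hu2 hu3 h z L', hEr]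
    simp only
    rw [Finset.sum_sub_distrib]
    have h5 : (inner ℂ tc h : ℂ) * M.ev tc z = M.ev h 0 := by
      rw [htc2, htc1 z hz]
      have : ((Real.sqrt (cn n 0) : ℝ) : ℂ) ≠ 0 := by
        exact_mod_cast (Real.sqrt_pos.2 (B28_cn0 n)).ne'
      field_simp
    rw [h5, add_sub_cancel_right]
    congr 1
    refine Finset.sum_congr rfl fun l _ => Finset.sum_congr rfl fun ν _ =>
      Finset.sum_congr rfl fun j _ => ?_
    rw [hw, hkv]
    simp only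
    rw [hkq2, hkq1 _ _ z hz]
  have hEbd : ∀ (q Dq : ℝ), 0 < q → (∀ (g : E n → ℂ) (B : ℝ), 0 ≤ B → HB n q B g →
      ∀ (L : ℕ) (r : ℝ), 0 ≤ r → r < 1 →
      ∫⁻ ξ, ENNReal.ofReal (‖∑ l ∈ Finset.range L,
        (cut (fun t => β t * β t) (A * sc n l) g ((r : ℂ) • ξ) -
          ∑ ν ∈ Finset.range V, ∑ j ∈ Finset.range (2 ^ (l + m)),
            (((sig n (R (l + m) ν j)).toReal : ℝ) : ℂ) * cut β (A * sc n l) g (pt ν (l + m) j) *
              kk n β (A * sc n l) (pt ν (l + m) j) ((r : ℂ) • ξ))‖ ^ q) ∂(sig n) ≤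
        ENNReal.ofReal (Dq * B)) → ∀ (h : H) (B : ℝ), 0 ≤ B → HB n q B (M.ev h) →
      ∀ r : ℝ, 0 ≤ r → r < 1 → ∫⁻ ξ, ENNReal.ofReal
        (‖M.ev (h - ContinuousLinearMap.adjoint T (T h)) ((r : ℂ) • ξ)‖ ^ q) ∂(sig n) ≤
        ENNReal.ofReal (Dq * B) := by
    intro q Dq hq hbound h B hB hh r hr0 hr1
    refine B28_fatou hn q hq (Er h) _ (hErc h) (hErl h) _ r hr0 hr1 ?_
    intro L
    rw [hEr]
    exact hbound (M.ev h) B hB hh L r hr0 hr1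
  have hP := NF_pfun n hn p hp hp1 M
  obtain ⟨hN0, hNtop, _⟩ := pfun_lsc p hp _ hP
  refine ⟨T, D, hD, ?_, ?_, hTa, hTs⟩
  · refine ContinuousLinearMap.opNorm_le_bound _ (by norm_num) fun h => ?_
    have h1 : ((1 : H →L[ℂ] H) - (ContinuousLinearMap.adjoint T).comp T) h =
        h - ContinuousLinearMap.adjoint T (T h) := by
      simp
    rw [h1]
    obtain ⟨g, hg⟩ : ∃ g : H, g = h - ContinuousLinearMap.adjoint T (T h) := ⟨_, rfl⟩
    rw [← hg]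
    have h2 : ∀ r : ℝ, 0 ≤ r → r < 1 → ∫⁻ ξ, ENNReal.ofReal
        (‖M.ev g ((r : ℂ) • ξ)‖ ^ (2 : ℝ)) ∂(sig n) ≤ ENNReal.ofReal (1 / 4 * ‖h‖ ^ 2) := by
      intro r hr0 hr1
      rw [hg]
      refine (hEbd 2 (D₂ * sc n m ^ (-((2 : ℝ) / 2))) (by norm_num) ?_ h (‖h‖ ^ 2) (by positivity)
        ⟨M.hol h, M.two h⟩ r hr0 hr1).trans ?_
      · intro g B hB hg L r hr0 hr1
        exact hE₂ m hm₂ g B hB hg L r hr0 hr1
      · apply ENNReal.ofReal_le_ofReal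
        exact mul_le_mul_of_nonneg_right hs₂ (by positivity)
    have h3 := (M.lim g g).norm
    have h4 : ‖(inner ℂ g g : ℂ)‖ ≤ 1 / 4 * ‖h‖ ^ 2 := by
      refine le_of_tendsto h3 ?_
      filter_upwards [Ioo_mem_nhdsLT (zero_lt_one : (0 : ℝ) < 1)] with r hr
      refine (norm_integral_le_lintegral_norm _).trans ?_
      have h5 := ENNReal.toReal_mono ENNReal.ofReal_ne_top (h2 r hr.1.le hr.2)
      rw [ENNReal.toReal_ofReal (by positivity)] at h5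
      refine le_trans (le_of_eq ?_) h5
      congr 2
      funext ξ
      congr 1
      rw [norm_mul, RCLike.norm_conj, Real.rpow_two, sq]
    rw [inner_self_eq_norm_sq_to_K] at h4
    have h6 : ‖((‖g‖ : ℝ) : ℂ) ^ 2‖ = ‖g‖ ^ 2 := by
      rw [norm_pow, Complex.norm_real, norm_norm]
    have h7 : ‖g‖ ^ 2 ≤ 1 / 4 * ‖h‖ ^ 2 := h6 ▸ h4
    apply abs_le_of_sq_le_sq' _ (by positivity) |>.2
    nlinarith
  · intro h
    conv_lhs => unfold NF
    refine iSup₂_le fun r hr => ?_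
    have h2 : HB n p (NF n p (M.ev h)).toReal (M.ev h) := by
      refine ⟨M.hol h, fun r hr0 hr1 => ?_⟩
      rw [ENNReal.ofReal_toReal (hNtop h)]
      unfold NF
      exact le_iSup₂ (f := fun (r : ℝ) (_ : r ∈ Set.Ico (0 : ℝ) 1) =>
        ∫⁻ ξ, ENNReal.ofReal (‖(M.ev h) ((r : ℂ) • ξ)‖ ^ p) ∂(sig n)) r ⟨hr0, hr1⟩
    refine (hEbd p (D₁ * sc n m ^ (-(p / 2))) hp ?_ h _ ENNReal.toReal_nonneg h2 r
      hr.1 hr.2).trans ?_
    · intro g B hB hg L r hr0 hr1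
      exact hE₁ m hm₁ g B hB hg L r hr0 hr1
    · have h3 : D₁ * sc n m ^ (-(p / 2)) * (NF n p (M.ev h)).toReal ≤
          1 / 2 * (NF n p (M.ev h)).toReal :=
        mul_le_mul_of_nonneg_right hs₁ ENNReal.toReal_nonneg
      refine (ENNReal.ofReal_le_ofReal h3).trans (le_of_eq ?_)
      rw [ENNReal.ofReal_mul (by norm_num), ENNReal.ofReal_toReal (hNtop h)]

end Pool.Agent.HpBall2
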