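import Mathlib
import Pool.Agent.HpBall2.Defs
import Pool.Agent.HpBall.Combine
import Pool.Agent.HpBall2.Basic

set_option autoImplicit false

open MeasureTheory Complex
open scoped ENNReal NNReal

namespace Pool.Agent.HpBall2

open Pool.Agent.HpBall

theorem B21_lt (l m i : ℕ) (hi : i < 2 ^ l) : 2 ^ l + i < 2 ^ (l + m + 1) := by
  have h1 : 2 ^ (l + 1) ≤ 2 ^ (l + m + 1) := Nat.pow_le_pow_right (by norm_num) (by omega)
  have h2 : 2 ^ (l + 1) = 2 * 2 ^ l := by ring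
  omega

/-- the index map -/
def B21_phi (q : ℕ × Ix) : Ix :=
  ⟨q.2.1 + q.1 + 1, ⟨2 ^ q.2.1 + q.2.2, B21_lt _ _ _ q.2.2.2⟩⟩

theorem B21_phi_inj : Function.Injective B21_phi := by
  rintro ⟨m, l, i⟩ ⟨m', l', i'⟩ h
  have h1 : l + m + 1 = l' + m' + 1 := congrArg (fun κ : Ix => κ.1) h
  have h2 : 2 ^ l + (i : ℕ) = 2 ^ l' + (i' : ℕ) := congrArg (fun κ : Ix => (κ.2 : ℕ)) h
  have e1 : Nat.log 2 (2 ^ l + (i : ℕ)) = l :=
    Nat.log_eq_of_pow_le_of_lt_pow (by omega) (by have := i.2; rw [pow_succ]; omega)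
  have e2 : Nat.log 2 (2 ^ l' + (i' : ℕ)) = l' :=
    Nat.log_eq_of_pow_le_of_lt_pow (by omega) (by have := i'.2; rw [pow_succ]; omega)
  have hl : l = l' := by rw [← e1, ← e2, h2]
  subst hl
  have hm : m = m' := by omega
  subst hm
  have hi : i = i' := by
    apply Fin.ext; omega
  subst hi
  rfl

/-- splitting of a sum over the leaves -/
theorem B21_split (g : ℕ → ℝ) (L : ℕ) :
    ∑ J ∈ Finset.range (2 ^ L), g J =
      g 0 + ∑ s ∈ Finset.range L, ∑ J ∈ Finset.range (2 ^ s), g (2 ^ s + J) := by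
  induction L with
  | zero => simp
  | succ L ih =>
    rw [show 2 ^ (L + 1) = 2 ^ L + 2 ^ L by ring, Finset.sum_range_add, ih, Finset.sum_range_succ]
    ring

theorem B21_spine (p : ℝ) (hp : 0 < p) (z : ℕ → ℕ → ℂ) (hz : ∀ l, z l 0 = 0) (L : ℕ) :
    fnorm p L z = ∑ m ∈ Finset.range L,
      (1 / 2 ^ (m + 1)) * fnorm p (L - m - 1) (fun l i => z (l + m + 1) (2 ^ l + i)) := by
  unfold fnorm
  rw [B21_split]
  have h0 : (∑ l ∈ Finset.range L, ‖z l (0 / 2 ^ (L - l))‖ ^ 2) ^ (p / 2) = (0 : ℝ) := by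
    rw [Finset.sum_eq_zero]
    · exact Real.zero_rpow (by positivity)
    · intro l _
      simp [hz]
  rw [h0, zero_add, Finset.mul_sum]
  rw [← Finset.sum_range_reflect]
  refine Finset.sum_congr rfl fun m hm => ?_
  have hmL := Finset.mem_range.1 hm
  have hs : L - 1 - m = L - m - 1 := by omega
  rw [hs, ← mul_assoc]
  have hpow : (1 / 2 ^ L : ℝ) = 1 / 2 ^ (m + 1) * (1 / 2 ^ (L - m - 1)) := by
    have : (2 : ℝ) ^ L = 2 ^ (L - m - 1) * 2 ^ (m + 1) := by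
      rw [← pow_add]; congr 1; omega
    rw [this]
    field_simp
  rw [hpow]
  congr 1
  refine Finset.sum_congr rfl fun J hJ => ?_
  have hJs := Finset.mem_range.1 hJ
  congr 1
  set s := L - m - 1 with hsdef
  have hLs : L = (m + 1) + s := by omega
  have hsum : ∑ l ∈ Finset.range L, ‖z l ((2 ^ s + J) / 2 ^ (L - l))‖ ^ 2 =
      ∑ l ∈ Finset.range s, ‖z (m + 1 + l) ((2 ^ s + J) / 2 ^ (L - (m + 1 + l)))‖ ^ 2 := by
    conv_lhs => rw [hLs]
    rw [Finset.sum_range_add, Finset.sum_eq_zero, zero_add]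
    · rw [← hLs]
    · intro l hl
      have hl' := Finset.mem_range.1 hl
      have : (2 ^ s + J) / 2 ^ (m + 1 + s - l) = 0 := by
        apply Nat.div_eq_of_lt
        have h1 : 2 ^ (s + 1) ≤ 2 ^ (m + 1 + s - l) :=
          Nat.pow_le_pow_right (by norm_num) (by omega)
        have h2 : 2 ^ (s + 1) = 2 * 2 ^ s := by ring
        omega
      rw [this, hz]
      simp
  rw [hsum]
  refine Finset.sum_congr rfl fun l hl => ?_
  have hls := Finset.mem_range.1 hl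
  have e1 : L - (m + 1 + l) = s - l := by omega
  have e2 : (2 ^ s + J) / 2 ^ (s - l) = 2 ^ l + J / 2 ^ (s - l) := by
    have : 2 ^ s = 2 ^ (s - l) * 2 ^ l := by
      rw [← pow_add]; congr 1; omega
    rw [this, Nat.mul_add_div (by positivity)]
  rw [e1, e2, show m + 1 + l = l + m + 1 by omega]

/-- the hotel embedding on arrays -/
noncomputable def B21_J (y : ℕ → Ix → ℂ) : Ix → ℂ :=
  Function.extend B21_phi (fun q => y q.1 q.2) 0

theorem B21_J_phi (y : ℕ → Ix → ℂ) (m : ℕ) (κ : Ix) : B21_J y (B21_phi (m, κ)) = y m κ := by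
  unfold B21_J
  rw [B21_phi_inj.extend_apply]

theorem B21_J_not (y : ℕ → Ix → ℂ) (κ : Ix) (h : κ ∉ Set.range B21_phi) : B21_J y κ = 0 := by
  unfold B21_J
  rw [Function.extend_apply']
  · rfl
  · exact h

theorem B21_arr (y : ℕ → Ix → ℂ) (m l i : ℕ) :
    arr (B21_J y) (l + m + 1) (2 ^ l + i) =
      if i < 2 ^ l then (((2 : ℝ) ^ (((m + 1 : ℕ) : ℝ) / 2) : ℝ) : ℂ) * arr (y m) l i
      else arr (B21_J y) (l + m + 1) (2 ^ l + i) := by
  split_ifs with hi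
  · unfold arr
    rw [dif_pos (B21_lt l m i hi), dif_pos hi]
    have : B21_J y ⟨l + m + 1, ⟨2 ^ l + i, B21_lt l m i hi⟩⟩ = y m ⟨l, ⟨i, hi⟩⟩ :=
      B21_J_phi y m ⟨l, ⟨i, hi⟩⟩
    rw [this, ← mul_assoc, ← Complex.ofReal_mul, ← Real.rpow_add (by norm_num)]
    congr 3
    push_cast
    ring
  · rfl

theorem B21_arr_zero (y : ℕ → Ix → ℂ) (l : ℕ) : arr (B21_J y) l 0 = 0 := by
  unfold arr
  rw [dif_pos (by positivity)]
  rw [B21_J_not, mul_zero]
  rintro ⟨⟨m, l', i'⟩, h⟩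
  have h2 : 2 ^ l' + (i' : ℕ) = 0 := congrArg (fun κ : Ix => (κ.2 : ℕ)) h
  have : 0 < 2 ^ l' := by positivity
  omega

theorem B21_fnorm_congr (p : ℝ) (L : ℕ) (x y : ℕ → ℕ → ℂ)
    (h : ∀ l < L, ∀ i < 2 ^ l, x l i = y l i) : fnorm p L x = fnorm p L y := by
  unfold fnorm
  congr 1
  refine Finset.sum_congr rfl fun J hJ => ?_
  congr 1
  refine Finset.sum_congr rfl fun l hl => ?_
  rw [h l (Finset.mem_range.1 hl)]
  apply Nat.div_lt_of_lt_mul
  rw [← pow_add]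
  have : L - l + l = L := by have := Finset.mem_range.1 hl; omega
  rw [this]
  exact Finset.mem_range.1 hJ

/-- the ratio -/
noncomputable def B21_w (p : ℝ) : ℝ := (2 : ℝ) ^ (p / 2 - 1)

theorem B21_w_pos (p : ℝ) : 0 < B21_w p := Real.rpow_pos_of_pos (by norm_num) _

theorem B21_w_lt (p : ℝ) (hp1 : p ≤ 1) : B21_w p < 1 :=
  Real.rpow_lt_one_of_one_lt_of_neg (by norm_num) (by linarith)

theorem B21_fnorm (p : ℝ) (hp : 0 < p) (y : ℕ → Ix → ℂ) (L : ℕ) :
    fnorm p L (arr (B21_J y)) = ∑ m ∈ Finset.range L,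
      B21_w p ^ (m + 1) * fnorm p (L - m - 1) (arr (y m)) := by
  rw [B21_spine p hp _ (B21_arr_zero y)]
  refine Finset.sum_congr rfl fun m _ => ?_
  rw [B21_fnorm_congr p (L - m - 1) (fun l i => arr (B21_J y) (l + m + 1) (2 ^ l + i))
    (fun l i => (((2 : ℝ) ^ (((m + 1 : ℕ) : ℝ) / 2) : ℝ) : ℂ) * arr (y m) l i)]
  · rw [(fnorm_basic p hp).2.2.1, ← mul_assoc]
    congr 1
    rw [Complex.norm_real, Real.norm_of_nonneg (Real.rpow_nonneg (by norm_num) _),
      ← Real.rpow_mul (by norm_num)]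
    unfold B21_w
    rw [← Real.rpow_natCast ((2:ℝ) ^ (p / 2 - 1)), ← Real.rpow_mul (by norm_num), one_div,
      ← Real.rpow_natCast (2:ℝ), ← Real.rpow_neg (by norm_num), ← Real.rpow_add (by norm_num)]
    congr 1
    push_cast
    ring
  · intro l _ i hi
    show arr (B21_J y) (l + m + 1) (2 ^ l + i) = _
    rw [B21_arr, if_pos hi]

theorem B21_ofReal_fnorm (p : ℝ) (hp : 0 < p) (y : ℕ → Ix → ℂ) (L : ℕ) :
    ENNReal.ofReal (fnorm p L (arr (B21_J y))) = ∑ m ∈ Finset.range L,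
      ENNReal.ofReal (B21_w p) ^ (m + 1) * ENNReal.ofReal (fnorm p (L - m - 1) (arr (y m))) := by
  rw [B21_fnorm p hp, ENNReal.ofReal_sum_of_nonneg]
  · refine Finset.sum_congr rfl fun m _ => ?_
    rw [ENNReal.ofReal_mul (pow_nonneg (B21_w_pos p).le _), ENNReal.ofReal_pow (B21_w_pos p).le]
  · intro m _
    exact mul_nonneg (pow_nonneg (B21_w_pos p).le _) ((fnorm_basic p hp).2.2.2 _ _)

theorem B21_NK_le (p : ℝ) (hp : 0 < p) (y : ℕ → Ix → ℂ) :
    NK p (B21_J y) ≤ ∑' m : ℕ, ENNReal.ofReal (B21_w p) ^ (m + 1) * NK p (y m) := by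
  unfold NK
  refine iSup_le fun L => ?_
  rw [B21_ofReal_fnorm p hp]
  refine le_trans ?_ (ENNReal.sum_le_tsum (Finset.range L))
  refine Finset.sum_le_sum fun m _ => ?_
  gcongr
  exact le_iSup (fun L => ENNReal.ofReal (fnorm p L (arr (y m)))) (L - m - 1)

theorem B21_le_NK (p : ℝ) (hp : 0 < p) (y : ℕ → Ix → ℂ) :
    ∑' m : ℕ, ENNReal.ofReal (B21_w p) ^ (m + 1) * NK p (y m) ≤ NK p (B21_J y) := by
  rw [ENNReal.tsum_eq_iSup_nat]
  refine iSup_le fun M => ?_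
  have h1 : ∑ m ∈ Finset.range M, ENNReal.ofReal (B21_w p) ^ (m + 1) * NK p (y m) =
      ∑ m ∈ Finset.range M, ⨆ L : ℕ, ENNReal.ofReal (B21_w p) ^ (m + 1) *
        ENNReal.ofReal (fnorm p L (arr (y m))) := by
    refine Finset.sum_congr rfl fun m _ => ?_
    unfold NK
    rw [ENNReal.mul_iSup]
  rw [h1, ENNReal.finsetSum_iSup_of_monotone]
  · refine iSup_le fun L => ?_
    refine le_trans ?_ (le_iSup _ (L + M))
    rw [B21_ofReal_fnorm p hp]
    have h2 : Finset.range M ⊆ Finset.range (L + M) := by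
      intro x hx
      rw [Finset.mem_range] at *
      omega
    refine le_trans ?_ (Finset.sum_le_sum_of_subset h2)
    refine Finset.sum_le_sum fun m hm => ?_
    gcongr
    apply (fnorm_basic p hp).2.1
    have := Finset.mem_range.1 hm
    omega
  · intro m a b hab
    show _ * _ ≤ _ * _
    gcongr
    exact (fnorm_basic p hp).2.1 _ _ _ hab

theorem B21_two : ((2 : ℝ≥0∞)).toReal = 2 := by simp

theorem B21_sum_prod (y : lp (fun _ : ℕ => KS) 2) :
    Summable (fun q : ℕ × Ix => ‖(y q.1 : Ix → ℂ) q.2‖ ^ (2 : ℝ≥0∞).toReal) ∧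
      ∑' q : ℕ × Ix, ‖(y q.1 : Ix → ℂ) q.2‖ ^ (2 : ℝ≥0∞).toReal = ‖y‖ ^ (2 : ℝ≥0∞).toReal := by
  have hpos : 0 < (2 : ℝ≥0∞).toReal := by rw [B21_two]; norm_num
  have h1 : ∀ m : ℕ, HasSum (fun κ : Ix => ‖(y m : Ix → ℂ) κ‖ ^ (2 : ℝ≥0∞).toReal)
      (‖y m‖ ^ (2 : ℝ≥0∞).toReal) := fun m => lp.hasSum_norm hpos (y m)
  have h2 : HasSum (fun m : ℕ => ‖y m‖ ^ (2 : ℝ≥0∞).toReal) (‖y‖ ^ (2 : ℝ≥0∞).toReal) :=
    lp.hasSum_norm hpos y
  have hs : Summable (fun q : ℕ × Ix => ‖(y q.1 : Ix → ℂ) q.2‖ ^ (2 : ℝ≥0∞).toReal) := by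
    rw [summable_prod_of_nonneg]
    · refine ⟨fun m => (h1 m).summable, ?_⟩
      have : (fun m : ℕ => ∑' κ : Ix, ‖(y m : Ix → ℂ) κ‖ ^ (2 : ℝ≥0∞).toReal) =
          fun m => ‖y m‖ ^ (2 : ℝ≥0∞).toReal := funext fun m => (h1 m).tsum_eq
      rw [this]
      exact h2.summable
    · intro q
      exact Real.rpow_nonneg (norm_nonneg _) _
  refine ⟨hs, ?_⟩
  rw [hs.tsum_prod' (fun m => (h1 m).summable)]
  rw [← h2.tsum_eq]
  refine tsum_congr fun m => ?_
  exact (h1 m).tsum_eq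

theorem B21_sumJ (y : lp (fun _ : ℕ => KS) 2) :
    Summable (fun κ : Ix => ‖B21_J (fun m => (y m : Ix → ℂ)) κ‖ ^ (2 : ℝ≥0∞).toReal) ∧
      ∑' κ : Ix, ‖B21_J (fun m => (y m : Ix → ℂ)) κ‖ ^ (2 : ℝ≥0∞).toReal =
        ‖y‖ ^ (2 : ℝ≥0∞).toReal := by
  have hpos : (2 : ℝ≥0∞).toReal ≠ 0 := by rw [B21_two]; norm_num
  obtain ⟨h1, h2⟩ := B21_sum_prod y
  have e : (fun κ : Ix => ‖B21_J (fun m => (y m : Ix → ℂ)) κ‖ ^ (2 : ℝ≥0∞).toReal) ∘ B21_phi =
      fun q : ℕ × Ix => ‖(y q.1 : Ix → ℂ) q.2‖ ^ (2 : ℝ≥0∞).toReal := by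
    funext q
    simp only [Function.comp]
    rw [B21_J_phi]
  have hz : ∀ κ ∉ Set.range B21_phi,
      ‖B21_J (fun m => (y m : Ix → ℂ)) κ‖ ^ (2 : ℝ≥0∞).toReal = 0 := by
    intro κ hκ
    rw [B21_J_not _ _ hκ, norm_zero, Real.zero_rpow hpos]
  constructor
  · rw [← B21_phi_inj.summable_iff hz, e]
    exact h1
  · rw [← h2, ← B21_phi_inj.tsum_eq]
    · refine tsum_congr fun q => ?_
      exact congrFun e q
    · intro κ hκ
      by_contra hn
      exact hκ (hz κ hn)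

theorem B21_J_add (x y : ℕ → Ix → ℂ) :
    B21_J (fun m => x m + y m) = B21_J x + B21_J y := by
  funext κ
  by_cases h : κ ∈ Set.range B21_phi
  · obtain ⟨⟨m, κ'⟩, rfl⟩ := h
    simp only [Pi.add_apply]
    rw [B21_J_phi, B21_J_phi, B21_J_phi]
    rfl
  · simp only [Pi.add_apply]
    rw [B21_J_not _ _ h, B21_J_not _ _ h, B21_J_not _ _ h, add_zero]

theorem B21_J_smul (c : ℂ) (x : ℕ → Ix → ℂ) :
    B21_J (fun m => c • x m) = c • B21_J x := by
  funext κ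
  by_cases h : κ ∈ Set.range B21_phi
  · obtain ⟨⟨m, κ'⟩, rfl⟩ := h
    simp only [Pi.smul_apply]
    rw [B21_J_phi, B21_J_phi]
    rfl
  · simp only [Pi.smul_apply]
    rw [B21_J_not _ _ h, B21_J_not _ _ h, smul_zero]

/-- the hotel embedding as a map -/
noncomputable def B21_K (y : lp (fun _ : ℕ => KS) 2) : KS :=
  ⟨B21_J (fun m => (y m : Ix → ℂ)), memℓp_gen (B21_sumJ y).1⟩

theorem B21_K_coe (y : lp (fun _ : ℕ => KS) 2) :
    (⇑(B21_K y) : Ix → ℂ) = B21_J (fun m => (y m : Ix → ℂ)) := rfl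

/-- the hotel embedding as a linear isometry -/
noncomputable def B21_iso : lp (fun _ : ℕ => KS) 2 →ₗᵢ[ℂ] KS where
  toFun y := B21_K y
  map_add' x y := by
    apply lp.ext
    rw [lp.coeFn_add, B21_K_coe, B21_K_coe, B21_K_coe, ← B21_J_add]
    congr 1
  map_smul' c x := by
    apply lp.ext
    rw [RingHom.id_apply, lp.coeFn_smul, B21_K_coe, B21_K_coe, ← B21_J_smul]
    congr 1
  norm_map' y := by
    have hpos : 0 < (2 : ℝ≥0∞).toReal := by rw [B21_two]; norm_num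
    have h1 := lp.norm_rpow_eq_tsum hpos (B21_K y)
    have h2 := (B21_sumJ y).2
    have h3 : ‖B21_K y‖ ^ (2 : ℝ≥0∞).toReal = ‖y‖ ^ (2 : ℝ≥0∞).toReal := by
      rw [h1, B21_K_coe]; exact h2
    exact (Real.rpow_left_inj (norm_nonneg _) (norm_nonneg _) hpos.ne').1 h3

theorem B21_iso_apply (y : lp (fun _ : ℕ => KS) 2) :
    (⇑(B21_iso y) : Ix → ℂ) = B21_J (fun m => (y m : Ix → ℂ)) := rfl

theorem B21_adj (k : KS) (m : ℕ) (κ : Ix) :
    ((ContinuousLinearMap.adjoint B21_iso.toContinuousLinearMap k) m : Ix → ℂ) κ =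
      k (B21_phi (m, κ)) := by
  classical
  have h1 : ((ContinuousLinearMap.adjoint B21_iso.toContinuousLinearMap k) m : Ix → ℂ) κ =
      inner ℂ (lp.single 2 m (lp.single 2 κ (1 : ℂ) : KS) : lp (fun _ : ℕ => KS) 2)
        (ContinuousLinearMap.adjoint B21_iso.toContinuousLinearMap k) := by
    rw [lp.inner_single_left, lp.inner_single_left]
    simp
  rw [h1, ContinuousLinearMap.adjoint_inner_right]
  have h2 : B21_iso.toContinuousLinearMap
      (lp.single 2 m (lp.single 2 κ (1 : ℂ) : KS) : lp (fun _ : ℕ => KS) 2) =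
      (lp.single 2 (B21_phi (m, κ)) (1 : ℂ) : KS) := by
    apply lp.ext
    rw [LinearIsometry.coe_toContinuousLinearMap, B21_iso_apply]
    funext κ'
    by_cases h : κ' ∈ Set.range B21_phi
    · obtain ⟨⟨m', κ''⟩, rfl⟩ := h
      rw [B21_J_phi]
      by_cases hm : m' = m
      · subst hm
        by_cases hk : κ'' = κ
        · subst hk
          simp [lp.single_apply]
        · have hne : B21_phi (m', κ'') ≠ B21_phi (m', κ) := fun e => hk (by
            have := B21_phi_inj e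
            simpa using this)
          simp [lp.single_apply, hk, hne]
      · have hne : B21_phi (m', κ'') ≠ B21_phi (m, κ) := fun e => hm (by
            have := B21_phi_inj e
            exact congrArg Prod.fst this)
        simp [lp.single_apply, hm, hne]
    · rw [B21_J_not _ _ h]
      have hne : κ' ≠ B21_phi (m, κ) := fun e => h ⟨_, e.symm⟩
      simp [lp.single_apply, hne]
  rw [h2, lp.inner_single_left]
  simp

/-- TARGET -/
theorem exists_hotel (p : ℝ) (hp : 0 < p) (hp1 : p ≤ 1) :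
    ∃ (j : lp (fun _ : ℕ => KS) 2 →L[ℂ] KS) (ω D : ℝ≥0∞), 0 < ω ∧ ω < 1 ∧ D ≠ ⊤ ∧
      (ContinuousLinearMap.adjoint j).comp j = 1 ∧
      (∀ y : lp (fun _ : ℕ => KS) 2, NK p (⇑(j y)) ≤ D * ∑' m : ℕ, ω ^ m * NK p (⇑(y m))) ∧
      ∀ y : KS, ∑' m : ℕ, ω ^ m * NK p (⇑((ContinuousLinearMap.adjoint j y) m)) ≤ D * NK p (⇑y) := by
  have hw0 : 0 < ENNReal.ofReal (B21_w p) := ENNReal.ofReal_pos.2 (B21_w_pos p)
  have hw1 : ENNReal.ofReal (B21_w p) < 1 := by
    rw [← ENNReal.ofReal_one]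
    exact (ENNReal.ofReal_lt_ofReal_iff one_pos).2 (B21_w_lt p hp1)
  have hwt : ENNReal.ofReal (B21_w p) ≠ ⊤ := ENNReal.ofReal_ne_top
  refine ⟨B21_iso.toContinuousLinearMap, ENNReal.ofReal (B21_w p), (ENNReal.ofReal (B21_w p))⁻¹,
    hw0, hw1, ENNReal.inv_ne_top.2 hw0.ne', ?_, ?_, ?_⟩
  · exact (ContinuousLinearMap.norm_map_iff_adjoint_comp_self _).1 (fun x => B21_iso.norm_map x)
  · intro y
    have h1 := B21_NK_le p hp (fun m => (y m : Ix → ℂ))
    refine le_trans h1 ?_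
    have h2 : ∑' m : ℕ, ENNReal.ofReal (B21_w p) ^ (m + 1) * NK p (⇑(y m)) =
        ENNReal.ofReal (B21_w p) * ∑' m : ℕ, ENNReal.ofReal (B21_w p) ^ m * NK p (⇑(y m)) := by
      rw [← ENNReal.tsum_mul_left]
      refine tsum_congr fun m => ?_
      rw [pow_succ']
      ring
    rw [h2]
    gcongr
    calc ENNReal.ofReal (B21_w p) ≤ 1 := hw1.le
      _ ≤ (ENNReal.ofReal (B21_w p))⁻¹ := ENNReal.one_le_inv.2 hw1.le
  · intro y
    have h1 := B21_le_NK p hp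
      (fun m => ((ContinuousLinearMap.adjoint B21_iso.toContinuousLinearMap y) m : Ix → ℂ))
    have h2 : NK p (B21_J (fun m =>
        ((ContinuousLinearMap.adjoint B21_iso.toContinuousLinearMap y) m : Ix → ℂ))) ≤
        NK p (⇑y) := by
      apply NK_solid p hp
      intro κ
      by_cases h : κ ∈ Set.range B21_phi
      · obtain ⟨⟨m, κ'⟩, rfl⟩ := h
        rw [B21_J_phi, B21_adj]
      · rw [B21_J_not _ _ h]
        simp
    have h3 : ∑' m : ℕ, ENNReal.ofReal (B21_w p) ^ (m + 1) *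
        NK p (⇑((ContinuousLinearMap.adjoint B21_iso.toContinuousLinearMap y) m)) =
        ENNReal.ofReal (B21_w p) * ∑' m : ℕ, ENNReal.ofReal (B21_w p) ^ m *
          NK p (⇑((ContinuousLinearMap.adjoint B21_iso.toContinuousLinearMap y) m)) := by
      rw [← ENNReal.tsum_mul_left]
      refine tsum_congr fun m => ?_
      rw [pow_succ']
      ring
    rw [h3] at h1
    have h4 := h1.trans h2
    calc _ = (ENNReal.ofReal (B21_w p))⁻¹ * (ENNReal.ofReal (B21_w p) *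
          ∑' m : ℕ, ENNReal.ofReal (B21_w p) ^ m *
          NK p (⇑((ContinuousLinearMap.adjoint B21_iso.toContinuousLinearMap y) m))) := by
            rw [← mul_assoc, ENNReal.inv_mul_cancel hw0.ne' hwt, one_mul]
      _ ≤ _ := by gcongr

end Pool.Agent.HpBall2
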