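import Mathlib
import Pool.Agent.HpBall2.Defs
import Pool.Agent.HpBall.Geom
import Pool.Agent.HpBall.Sphere
import Pool.Agent.HpBall.Weights

set_option autoImplicit false

open MeasureTheory Complex
open scoped ENNReal NNReal

namespace Pool.Agent.HpBall2

open Pool.Agent.HpBall

lemma aem_dil {n : ℕ} (hn : 1 ≤ n) {f : E n → ℂ} (hf : DifferentiableOn ℂ f (Metric.ball 0 1))
    {r : ℝ} (hr0 : 0 ≤ r) (hr1 : r < 1) : AEMeasurable (fun ξ : E n => f ((r : ℂ) • ξ)) (sig n) := by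
  have h1 : Measurable (fun ξ : E n => (Metric.ball (0 : E n) 1).indicator f ((r : ℂ) • ξ)) :=
    (meas_ind f hf).comp (measurable_const_smul _)
  refine ⟨_, h1, ?_⟩
  filter_upwards [sig_ae_norm hn] with ξ hξ
  rw [Set.indicator_of_mem]
  rw [mem_ball_zero_iff, norm_smul, hξ, mul_one, Complex.norm_real, Real.norm_of_nonneg hr0]
  exact hr1

lemma NF_add {n : ℕ} (hn : 1 ≤ n) {p : ℝ} (hp : 0 < p) (hp1 : p ≤ 1) {f g : E n → ℂ}
    (hf : DifferentiableOn ℂ f (Metric.ball 0 1)) :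
    NF n p (fun z => f z + g z) ≤ NF n p f + NF n p g := by
  unfold NF
  refine iSup₂_le fun r hr => ?_
  calc ∫⁻ ξ, ENNReal.ofReal (‖f ((r : ℂ) • ξ) + g ((r : ℂ) • ξ)‖ ^ p) ∂(sig n)
      ≤ ∫⁻ ξ, (ENNReal.ofReal (‖f ((r : ℂ) • ξ)‖ ^ p) + ENNReal.ofReal (‖g ((r : ℂ) • ξ)‖ ^ p))
        ∂(sig n) := by
        apply lintegral_mono
        intro ξ
        beta_reduce
        rw [← ENNReal.ofReal_add (by positivity) (by positivity)]
        apply ENNReal.ofReal_le_ofReal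
        calc ‖f ((r : ℂ) • ξ) + g ((r : ℂ) • ξ)‖ ^ p ≤
            (‖f ((r : ℂ) • ξ)‖ + ‖g ((r : ℂ) • ξ)‖) ^ p :=
              Real.rpow_le_rpow (norm_nonneg _) (norm_add_le _ _) hp.le
          _ ≤ _ := Real.rpow_add_le_add_rpow (norm_nonneg _) (norm_nonneg _) hp.le hp1
    _ = ∫⁻ ξ, ENNReal.ofReal (‖f ((r : ℂ) • ξ)‖ ^ p) ∂(sig n) +
        ∫⁻ ξ, ENNReal.ofReal (‖g ((r : ℂ) • ξ)‖ ^ p) ∂(sig n) := by
        rw [lintegral_add_left']
        exact ((aem_dil hn hf hr.1 hr.2).norm.pow_const _).ennreal_ofReal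
    _ ≤ _ := add_le_add (le_iSup₂ (f := fun r (_ : r ∈ Set.Ico (0 : ℝ) 1) =>
          ∫⁻ ξ, ENNReal.ofReal (‖f ((r : ℂ) • ξ)‖ ^ p) ∂(sig n)) r hr)
        (le_iSup₂ (f := fun r (_ : r ∈ Set.Ico (0 : ℝ) 1) =>
          ∫⁻ ξ, ENNReal.ofReal (‖g ((r : ℂ) • ξ)‖ ^ p) ∂(sig n)) r hr)

lemma NF_neg {n : ℕ} {p : ℝ} (f : E n → ℂ) : NF n p (fun z => - f z) = NF n p f := by
  unfold NF
  simp only [norm_neg]

lemma NF_sub_comm {n : ℕ} {p : ℝ} (f g : E n → ℂ) :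
    NF n p (fun z => f z - g z) = NF n p (fun z => g z - f z) := by
  rw [← NF_neg]
  simp only [neg_sub]

/-- abstract end of the proof: from a unitary equivalence with the sequence space to an
unconditional expansion -/
lemma pow_tendsto_zero_of_rpow {p : ℝ} (hp : 0 < p) {a : ℕ → ℝ} (ha : ∀ i, 0 ≤ a i)
    (h : Filter.Tendsto (fun i => a i ^ p) Filter.atTop (nhds 0)) :
    Filter.Tendsto a Filter.atTop (nhds 0) := by
  have h1 := h.rpow_const (p := 1 / p) (Or.inr (by positivity))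
  rw [Real.zero_rpow (by positivity)] at h1
  refine h1.congr fun i => ?_
  rw [← Real.rpow_mul (ha i)]
  rw [mul_one_div_cancel hp.ne', Real.rpow_one]

end Pool.Agent.HpBall2
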