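import Mathlib
import Pool.Agent.HpBall2.Defs
import Pool.Agent.HpBall.Geom
import Pool.Agent.HpBall.Sphere
import Pool.Agent.HpBall.Growth
import Pool.Agent.HpBall.Coef
import Pool.Agent.HpBall.Series
import Pool.Agent.HpBall.Final1
import Pool.Agent.HpBall2.Moment
import Pool.Agent.HpBall2.Repro
import Pool.Agent.HpBall2.HcProps

set_option autoImplicit false

open MeasureTheory Complex
open scoped ENNReal NNReal

namespace Pool.Agent.HpBall2

open Pool.Agent.HpBall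

lemma B13_cn_pos (n k : ℕ) (hn : 1 ≤ n) : 0 < cn n k := by
  unfold cn
  have : 0 < (k + n - 1).choose (n - 1) := Nat.choose_pos (by omega)
  positivity

lemma B13_moment (n : ℕ) (hn : 1 ≤ n) (j k : ℕ) (x y : E n) :
    ∫ ξ, (inner ℂ y ξ : ℂ) ^ k * (starRingEnd ℂ) ((inner ℂ x ξ : ℂ) ^ j) ∂(sig n) =
      if j = k then (inner ℂ y x : ℂ) ^ k / (cn n k : ℂ) else 0 := by
  split_ifs with hjk
  · subst hjk
    have h := repro_hom n hn j (fun z => (inner ℂ y z : ℂ) ^ j) ((innerSL ℂ y).differentiable.pow j)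
      (fun c z => by rw [inner_smul_right, mul_pow]) x
    have hc : (cn n j : ℂ) ≠ 0 := by
      exact_mod_cast (B13_cn_pos n j hn).ne'
    rw [h]
    rw [mul_div_cancel_left₀ _ hc]
    congr 1
    ext ξ
    rw [map_pow, inner_conj_symm]
  · set f : E n → ℂ := fun ξ => (inner ℂ y ξ : ℂ) ^ k * (starRingEnd ℂ) ((inner ℂ x ξ : ℂ) ^ j) with hf
    set θ : ℝ := Real.pi / ((k : ℝ) - j) with hθ
    have hne : (k : ℝ) - j ≠ 0 := by
      rw [sub_ne_zero]; exact_mod_cast (Ne.symm hjk)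
    have h1 := integral_sig_isometry (rot n θ) f
    have h2 : ∀ ξ, f (rot n θ ξ) = -f ξ := by
      intro ξ
      simp only [hf]
      rw [rot_apply, inner_smul_right, inner_smul_right, mul_pow, mul_pow, map_mul, map_pow]
      have e1 : (starRingEnd ℂ) (Complex.exp (θ * I)) = Complex.exp (-(θ * I)) := by
        rw [← Complex.exp_conj, map_mul, Complex.conj_ofReal, Complex.conj_I]
        ring_nf
      have e2 : Complex.exp (θ * I) ^ k * Complex.exp (-(θ * I)) ^ j = -1 := by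
        rw [← Complex.exp_nat_mul, ← Complex.exp_nat_mul, ← Complex.exp_add]
        have e3 : (k : ℂ) * (θ * I) + (j : ℂ) * -(θ * I) = Real.pi * I := by
          have : ((k : ℂ) - j) * θ = Real.pi := by
            have h3 : ((k : ℝ) - j) * θ = Real.pi := by
              rw [hθ]; field_simp
            exact_mod_cast h3
          linear_combination I * this
        rw [e3, Complex.exp_pi_mul_I]
      rw [e1]
      linear_combination (inner ℂ y ξ : ℂ) ^ k * (starRingEnd ℂ ((inner ℂ x ξ : ℂ) ^ j)) * e2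
    simp only [h2] at h1
    rw [integral_neg] at h1
    have h3 : (2 : ℂ) * ∫ ξ, f ξ ∂(sig n) = 0 := by linear_combination -h1
    exact (mul_eq_zero.1 h3).resolve_left two_ne_zero

lemma B13_bd (n : ℕ) (hn : 1 ≤ n) (k : ℕ) (y : E n) :
    ∀ᵐ ξ ∂(sig n), ‖(inner ℂ y ξ : ℂ) ^ k‖ ≤ ‖y‖ ^ k := by
  filter_upwards [sig_ae_norm hn] with ξ hξ
  rw [norm_pow]
  have := norm_inner_le_norm (𝕜 := ℂ) y ξ
  rw [hξ, mul_one] at this
  gcongr

lemma B13_memLp (n : ℕ) (hn : 1 ≤ n) (k : ℕ) (y : E n) :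
    MemLp (fun ξ : E n => (inner ℂ y ξ : ℂ) ^ k) 2 (sig n) := by
  refine MemLp.of_bound ?_ (‖y‖ ^ k) (B13_bd n hn k y)
  have : Continuous (fun ξ : E n => (inner ℂ y ξ : ℂ) ^ k) := by fun_prop
  exact this.aestronglyMeasurable

/-- the class of the function (inner y ξ)^k -/
noncomputable def B13_w (n : ℕ) (hn : 1 ≤ n) (k : ℕ) (y : E n) : Lp ℂ 2 (sig n) :=
  (B13_memLp n hn k y).toLp

lemma B13_w_ae (n : ℕ) (hn : 1 ≤ n) (k : ℕ) (y : E n) :
    ⇑(B13_w n hn k y) =ᵐ[sig n] fun ξ : E n => (inner ℂ y ξ : ℂ) ^ k :=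
  (B13_memLp n hn k y).coeFn_toLp

lemma B13_w_gram (n : ℕ) (hn : 1 ≤ n) (j k : ℕ) (x y : E n) :
    inner ℂ (B13_w n hn j x) (B13_w n hn k y) =
      if j = k then (inner ℂ y x : ℂ) ^ k / (cn n k : ℂ) else 0 := by
  rw [L2.inner_def, ← B13_moment n hn j k x y]
  apply integral_congr_ae
  filter_upwards [B13_w_ae n hn j x, B13_w_ae n hn k y] with ξ h1 h2
  rw [h1, h2]
  simp only [RCLike.inner_apply]

/-- the span of the functions -/
noncomputable def B13_S (n : ℕ) (hn : 1 ≤ n) : Submodule ℂ (Lp ℂ 2 (sig n)) :=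
  (Submodule.span ℂ (Set.range fun q : ℕ × E n => B13_w n hn q.1 q.2)).topologicalClosure

noncomputable instance B13_complete (n : ℕ) (hn : 1 ≤ n) : CompleteSpace (B13_S n hn) :=
  Submodule.topologicalClosure.completeSpace _

/-- the generators in the closed span -/
noncomputable def B13_v (n : ℕ) (hn : 1 ≤ n) (k : ℕ) (y : E n) : B13_S n hn :=
  ⟨B13_w n hn k y, Submodule.le_topologicalClosure _ (Submodule.subset_span ⟨(k, y), rfl⟩)⟩

lemma B13_v_gram (n : ℕ) (hn : 1 ≤ n) (j k : ℕ) (x y : E n) :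
    inner ℂ (B13_v n hn j x) (B13_v n hn k y) =
      if j = k then (inner ℂ y x : ℂ) ^ k / (cn n k : ℂ) else 0 := by
  rw [← B13_w_gram n hn j k x y]
  rfl

lemma B13_v_dense (n : ℕ) (hn : 1 ≤ n) :
    (Submodule.span ℂ (Set.range fun q : ℕ × E n => B13_v n hn q.1 q.2)).topologicalClosure = ⊤ := by
  rw [Submodule.topologicalClosure_eq_top_iff, Submodule.eq_bot_iff]
  intro h hh
  rw [Submodule.mem_orthogonal] at hh
  have h1 : Submodule.span ℂ (Set.range fun q : ℕ × E n => B13_w n hn q.1 q.2) ≤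
      (Submodule.span ℂ {(h : Lp ℂ 2 (sig n))})ᗮ := by
    rw [Submodule.span_le]
    rintro _ ⟨q, rfl⟩
    rw [SetLike.mem_coe, Submodule.mem_orthogonal_singleton_iff_inner_left]
    exact hh (B13_v n hn q.1 q.2) (Submodule.subset_span ⟨q, rfl⟩)
  have h2 : B13_S n hn ≤ (Submodule.span ℂ {(h : Lp ℂ 2 (sig n))})ᗮ :=
    Submodule.topologicalClosure_minimal _ h1 (Submodule.isClosed_orthogonal _)
  have h3 := h2 h.2
  rw [Submodule.mem_orthogonal_singleton_iff_inner_left, inner_self_eq_zero] at h3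
  exact Subtype.ext h3

lemma B13_summ (n : ℕ) (r : ℝ) (hr0 : 0 ≤ r) (hr1 : r < 1) :
    Summable (fun k : ℕ => Real.sqrt (cn n k) * r ^ k) := by
  have h1 : Summable (fun k : ℕ => ((1 : ℝ) + cn n k) * r ^ k) := by
    have h2 : Summable (fun k : ℕ => r ^ k) := summable_geometric_of_lt_one hr0 hr1
    have h3 : Summable (fun k : ℕ => cn n k * r ^ k) := by
      have h4 := summable_choose_mul_geometric_of_norm_lt_one (R := ℝ) (n - 1) (r := r)
        (by rwa [Real.norm_of_nonneg hr0])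
      rcases Nat.eq_zero_or_pos n with h0 | h0
      · subst h0
        simp only [cn]
        have : (fun k : ℕ => (((k + 0 - 1).choose (0 - 1) : ℕ) : ℝ) / Real.pi ^ 0 * r ^ k) = fun k => r ^ k := by
          ext k
          simp
        rw [this]
        exact h2
      · have h5 := h4.mul_left (Real.pi ^ n)⁻¹
        refine h5.congr fun k => ?_
        unfold cn
        have : k + n - 1 = k + (n - 1) := by omega
        rw [this]
        ring
    simpa [add_mul] using h2.add h3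
  refine Summable.of_nonneg_of_le (fun k => by positivity) (fun k => ?_) h1
  have hc : 0 ≤ cn n k := by unfold cn; positivity
  have : Real.sqrt (cn n k) ≤ 1 + cn n k := by
    rw [Real.sqrt_le_left (by positivity)]
    nlinarith
  gcongr


section abs

variable {n : ℕ} {H : Type} [NormedAddCommGroup H] [InnerProductSpace ℂ H] [CompleteSpace H]

lemma B13_v_norm (hn : 1 ≤ n) (v : ℕ → E n → H) (gram : ∀ j k x y, inner ℂ (v j x) (v k y) =
    if j = k then (inner ℂ y x : ℂ) ^ k / (cn n k : ℂ) else 0) (k : ℕ) (y : E n) :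
    ‖v k y‖ = ‖y‖ ^ k / Real.sqrt (cn n k) := by
  have h := gram k k y y
  rw [if_pos rfl, inner_self_eq_norm_sq_to_K, inner_self_eq_norm_sq_to_K] at h
  have hc := B13_cn_pos n k hn
  have h1 : ‖v k y‖ ^ 2 = (‖y‖ ^ 2) ^ k / cn n k := by
    have h2 : ((‖v k y‖ ^ 2 : ℝ) : ℂ) = (((‖y‖ ^ 2) ^ k / cn n k : ℝ) : ℂ) := by
      push_cast
      exact h
    exact_mod_cast h2
  have h3 : ‖v k y‖ ^ 2 = (‖y‖ ^ k / Real.sqrt (cn n k)) ^ 2 := by
    rw [h1, div_pow, Real.sq_sqrt hc.le, ← pow_mul, ← pow_mul, mul_comm 2 k]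
  exact (pow_left_inj₀ (norm_nonneg _) (by positivity) two_ne_zero).1 h3

/-- term of the reproducing kernel -/
lemma B13_term_norm (hn : 1 ≤ n) (v : ℕ → E n → H) (gram : ∀ j k x y, inner ℂ (v j x) (v k y) =
    if j = k then (inner ℂ y x : ℂ) ^ k / (cn n k : ℂ) else 0) (k : ℕ) (y : E n) :
    ‖(cn n k : ℂ) • v k y‖ = Real.sqrt (cn n k) * ‖y‖ ^ k := by
  have hc := B13_cn_pos n k hn
  rw [norm_smul, B13_v_norm hn v gram, Complex.norm_real, Real.norm_of_nonneg hc.le]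
  have hs : 0 < Real.sqrt (cn n k) := Real.sqrt_pos.2 hc
  nth_rewrite 1 [← Real.mul_self_sqrt hc.le]
  field_simp

/-- the reproducing kernel -/
noncomputable def B13_K (v : ℕ → E n → H) (z : E n) : H :=
  ∑' k : ℕ, (cn n k : ℂ) • v k z

lemma B13_K_summable (hn : 1 ≤ n) (v : ℕ → E n → H) (gram : ∀ j k x y, inner ℂ (v j x) (v k y) =
    if j = k then (inner ℂ y x : ℂ) ^ k / (cn n k : ℂ) else 0) (z : E n) (hz : ‖z‖ < 1) :
    Summable (fun k : ℕ => (cn n k : ℂ) • v k z) := by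
  apply Summable.of_norm
  simp_rw [B13_term_norm hn v gram]
  exact B13_summ n ‖z‖ (norm_nonneg _) hz

lemma B13_K_norm (hn : 1 ≤ n) (v : ℕ → E n → H) (gram : ∀ j k x y, inner ℂ (v j x) (v k y) =
    if j = k then (inner ℂ y x : ℂ) ^ k / (cn n k : ℂ) else 0)
    (r : ℝ) (hr1 : r < 1) (z : E n) (hz : ‖z‖ ≤ r) :
    ‖B13_K v z‖ ≤ ∑' k : ℕ, Real.sqrt (cn n k) * r ^ k := by
  have hr0 : 0 ≤ r := (norm_nonneg _).trans hz
  have hs := B13_summ n ‖z‖ (norm_nonneg _) (hz.trans_lt hr1)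
  have hs' := B13_summ n r hr0 hr1
  have h1 : Summable (fun k : ℕ => ‖(cn n k : ℂ) • v k z‖) := by
    simp_rw [B13_term_norm hn v gram]
    exact hs
  refine (norm_tsum_le_tsum_norm h1).trans ?_
  refine h1.tsum_le_tsum (fun k => ?_) hs'
  rw [B13_term_norm hn v gram]
  gcongr

/-- evaluation -/
noncomputable def B13_ev (v : ℕ → E n → H) : H →ₗ[ℂ] (E n → ℂ) :=
  LinearMap.pi fun z => (innerSL ℂ (B13_K v z)).toLinearMap

lemma B13_ev_apply (v : ℕ → E n → H) (h : H) (z : E n) :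
    B13_ev v h z = inner ℂ (B13_K v z) h := rfl

lemma B13_ev_hasSum (hn : 1 ≤ n) (v : ℕ → E n → H) (gram : ∀ j k x y, inner ℂ (v j x) (v k y) =
    if j = k then (inner ℂ y x : ℂ) ^ k / (cn n k : ℂ) else 0) (h : H) (z : E n) (hz : ‖z‖ < 1) :
    HasSum (fun k : ℕ => (cn n k : ℂ) * inner ℂ (v k z) h) (B13_ev v h z) := by
  have h1 := (B13_K_summable hn v gram z hz).hasSum
  have h2 := (innerSL ℂ h).hasSum h1
  have h3 := h2.map (starRingEnd ℂ) continuous_conj
  convert h3 using 1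
  · ext k
    simp only [Function.comp_apply]
    rw [innerSL_apply_apply, inner_conj_symm, inner_smul_left, Complex.conj_ofReal]
  · rw [B13_ev_apply]
    show _ = (starRingEnd ℂ) (innerSL ℂ h (B13_K v z))
    rw [innerSL_apply_apply, inner_conj_symm]

lemma B13_ev_v (hn : 1 ≤ n) (v : ℕ → E n → H) (gram : ∀ j k x y, inner ℂ (v j x) (v k y) =
    if j = k then (inner ℂ y x : ℂ) ^ k / (cn n k : ℂ) else 0) (k : ℕ) (y z : E n) (hz : ‖z‖ < 1) :
    B13_ev v (v k y) z = (inner ℂ y z : ℂ) ^ k := by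
  have h1 := B13_ev_hasSum hn v gram (v k y) z hz
  have h2 : HasSum (fun j : ℕ => (cn n j : ℂ) * inner ℂ (v j z) (v k y))
      ((cn n k : ℂ) * inner ℂ (v k z) (v k y)) := by
    apply hasSum_single
    intro j hj
    rw [gram, if_neg hj, mul_zero]
  have hc : (cn n k : ℂ) ≠ 0 := by
    exact_mod_cast (B13_cn_pos n k hn).ne'
  rw [h1.unique h2, gram, if_pos rfl]
  field_simp

lemma B13_ev_bd (hn : 1 ≤ n) (v : ℕ → E n → H) (gram : ∀ j k x y, inner ℂ (v j x) (v k y) =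
    if j = k then (inner ℂ y x : ℂ) ^ k / (cn n k : ℂ) else 0) (r : ℝ) (hr0 : 0 ≤ r) (hr1 : r < 1) :
    ∃ C : ℝ, 0 < C ∧ ∀ z : E n, ‖z‖ ≤ r → ∀ h : H, ‖B13_ev v h z‖ ≤ C * ‖h‖ := by
  refine ⟨∑' k : ℕ, Real.sqrt (cn n k) * r ^ k + 1, ?_, fun z hz h => ?_⟩
  · have : 0 ≤ ∑' k : ℕ, Real.sqrt (cn n k) * r ^ k := tsum_nonneg fun k => by positivity
    linarith
  · rw [B13_ev_apply]
    refine (norm_inner_le_norm _ _).trans ?_
    have h1 := B13_K_norm hn v gram r hr1 z hz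
    gcongr
    linarith

lemma B13_v_smul (hn : 1 ≤ n) (v : ℕ → E n → H) (ι : H →ₗᵢ[ℂ] Lp ℂ 2 (sig n))
    (hι : ∀ k y, ι (v k y) = B13_w n hn k y) (k : ℕ) (c : ℂ) (y : E n) :
    v k (c • y) = ((starRingEnd ℂ) c) ^ k • v k y := by
  apply ι.injective
  rw [map_smul, hι, hι]
  apply Lp.ext
  filter_upwards [B13_w_ae n hn k (c • y), B13_w_ae n hn k y,
    Lp.coeFn_smul (((starRingEnd ℂ) c) ^ k) (B13_w n hn k y)] with ξ h1 h2 h3
  rw [h1, h3, Pi.smul_apply, h2, inner_smul_left, mul_pow, smul_eq_mul]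

/-- the class of a monomial -/
lemma B13_mono (hn : 1 ≤ n) (k : ℕ) (s : Fin k → Fin n) :
    MemLp (fun ξ : E n => ∏ i, ξ (s i)) 2 (sig n) := by
  refine MemLp.of_bound ?_ 1 ?_
  · have : Continuous (fun ξ : E n => ∏ i, ξ (s i)) := by fun_prop
    exact this.aestronglyMeasurable
  · filter_upwards [sig_ae_norm hn] with ξ hξ
    rw [norm_prod]
    apply Finset.prod_le_one (fun i _ => norm_nonneg _)
    intro i _
    rw [← hξ]
    exact PiLp.norm_apply_le ξ (s i)

lemma B13_poly (hn : 1 ≤ n) (v : ℕ → E n → H) (ι : H →ₗᵢ[ℂ] Lp ℂ 2 (sig n))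
    (hι : ∀ k y, ι (v k y) = B13_w n hn k y) (k : ℕ) (h : H) :
    Differentiable ℂ (fun z : E n => (inner ℂ (v k z) h : ℂ)) := by
  have h1 : ∀ z : E n, (inner ℂ (v k z) h : ℂ) =
      ∑ s : Fin k → Fin n, (∏ i, z (s i)) * inner ℂ ((B13_mono hn k s).toLp) (ι h) := by
    intro z
    have h2 : B13_w n hn k z = ∑ s : Fin k → Fin n, ((starRingEnd ℂ) (∏ i, z (s i))) •
        (B13_mono hn k s).toLp := by
      apply Lp.ext
      have h3 : ∀ᵐ ξ ∂(sig n), ∀ s : Fin k → Fin n,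
          ((B13_mono hn k s).toLp : E n → ℂ) ξ = ∏ i, ξ (s i) := by
        rw [ae_all_iff]
        intro s
        exact (B13_mono hn k s).coeFn_toLp
      have h4 : ⇑(∑ s : Fin k → Fin n, ((starRingEnd ℂ) (∏ i, z (s i))) •
          (B13_mono hn k s).toLp) =ᵐ[sig n] ∑ s : Fin k → Fin n, ⇑(((starRingEnd ℂ) (∏ i, z (s i))) •
          (B13_mono hn k s).toLp) := Lp.coeFn_finsetSum _ _
      have h5 : ∀ᵐ ξ ∂(sig n), ∀ s : Fin k → Fin n,
          (⇑(((starRingEnd ℂ) (∏ i, z (s i))) • (B13_mono hn k s).toLp) : E n → ℂ) ξ =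
            ((starRingEnd ℂ) (∏ i, z (s i))) * ((B13_mono hn k s).toLp : E n → ℂ) ξ := by
        rw [ae_all_iff]
        intro s
        exact Lp.coeFn_smul _ _
      filter_upwards [h3, h4, h5, B13_w_ae n hn k z] with ξ g3 g4 g5 g6
      rw [g6, g4, Finset.sum_apply]
      simp_rw [g5, g3]
      have g7 : (inner ℂ z ξ : ℂ) = ∑ i, (starRingEnd ℂ) (z i) * ξ i := by
        rw [PiLp.inner_apply]
        apply Finset.sum_congr rfl
        intro i _
        rw [RCLike.inner_apply, mul_comm]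
      rw [g7, Fintype.sum_pow]
      apply Finset.sum_congr rfl
      intro s _
      rw [Finset.prod_mul_distrib, map_prod]
    rw [← ι.inner_map_map, hι, h2, sum_inner]
    apply Finset.sum_congr rfl
    intro s _
    rw [inner_smul_left, Complex.conj_conj]
  rw [funext h1]
  fun_prop


lemma B13_locsum (hn : 1 ≤ n) (v : ℕ → E n → H) (gram : ∀ j k x y, inner ℂ (v j x) (v k y) =
    if j = k then (inner ℂ y x : ℂ) ^ k / (cn n k : ℂ) else 0) (h : H) :
    LocSum (fun k (z : E n) => (cn n k : ℂ) * inner ℂ (v k z) h) := by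
  intro r hr0 hr1
  refine ⟨fun k => Real.sqrt (cn n k) * r ^ k * ‖h‖, (B13_summ n r hr0 hr1).mul_right _, ?_⟩
  intro k z hz
  have h1 : (cn n k : ℂ) * inner ℂ (v k z) h = inner ℂ ((cn n k : ℂ) • v k z) h := by
    rw [inner_smul_left, Complex.conj_ofReal]
  show ‖(cn n k : ℂ) * inner ℂ (v k z) h‖ ≤ Real.sqrt (cn n k) * r ^ k * ‖h‖
  rw [h1]
  refine (norm_inner_le_norm _ _).trans ?_
  rw [B13_term_norm hn v gram]
  gcongr

lemma B13_ev_eq (hn : 1 ≤ n) (v : ℕ → E n → H) (gram : ∀ j k x y, inner ℂ (v j x) (v k y) =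
    if j = k then (inner ℂ y x : ℂ) ^ k / (cn n k : ℂ) else 0) (h : H) (z : E n)
    (hz : z ∈ Metric.ball (0 : E n) 1) :
    B13_ev v h z = ∑' k : ℕ, (cn n k : ℂ) * inner ℂ (v k z) h := by
  rw [mem_ball_zero_iff] at hz
  exact (B13_ev_hasSum hn v gram h z hz).tsum_eq.symm

lemma B13_hol (hn : 1 ≤ n) (v : ℕ → E n → H) (gram : ∀ j k x y, inner ℂ (v j x) (v k y) =
    if j = k then (inner ℂ y x : ℂ) ^ k / (cn n k : ℂ) else 0) (ι : H →ₗᵢ[ℂ] Lp ℂ 2 (sig n))
    (hι : ∀ k y, ι (v k y) = B13_w n hn k y) (h : H) :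
    DifferentiableOn ℂ (B13_ev v h) (Metric.ball 0 1) := by
  refine ((B13_locsum hn v gram h).differentiableOn
    (fun k => (B13_poly hn v ι hι k h).const_mul _)).congr ?_
  intro z hz
  exact B13_ev_eq hn v gram h z hz

lemma B13_tc_mono (l : ℕ) (a : ℂ) (k : ℕ) :
    tc (fun w => w ^ l * a) k = if k = l then a else 0 := by
  unfold tc
  have h1 : (fun w : ℂ => w ^ l * a) = fun w => a * w ^ l := by
    ext w; ring
  rw [h1, iteratedDeriv_const_mul_field, iteratedDeriv_fun_pow_zero]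
  have hm : (k.factorial : ℂ) ≠ 0 := by exact_mod_cast k.factorial_ne_zero
  split_ifs with h
  · subst h
    push_cast
    field_simp
  · push_cast
    ring

lemma B13_hc_le (hn : 1 ≤ n) (v : ℕ → E n → H) (gram : ∀ j k x y, inner ℂ (v j x) (v k y) =
    if j = k then (inner ℂ y x : ℂ) ^ k / (cn n k : ℂ) else 0) (ι : H →ₗᵢ[ℂ] Lp ℂ 2 (sig n))
    (hι : ∀ k y, ι (v k y) = B13_w n hn k y) (h : H) (k : ℕ) (x : E n) (hx : ‖x‖ ≤ 1) :
    hc (B13_ev v h) k x = (cn n k : ℂ) * inner ℂ (v k x) h := by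
  have h1 := hc_series (B13_locsum hn v gram h)
    (fun k => (B13_poly hn v ι hι k h).const_mul _) 0 hx k
  have h2 : ∀ l, hc (fun z : E n => (cn n l : ℂ) * inner ℂ (v l z) h) k x =
      if k = l then (cn n l : ℂ) * inner ℂ (v l x) h else 0 := by
    intro l
    rw [← B13_tc_mono]
    unfold hc
    congr 1
    ext w
    show (cn n l : ℂ) * inner ℂ (v l (w • x)) h = _
    rw [B13_v_smul hn v ι hι, inner_smul_left, map_pow, Complex.conj_conj]
    ring
  simp_rw [h2] at h1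
  have h3 : HasSum (fun l => if k = l then (cn n l : ℂ) * inner ℂ (v l x) h else 0)
      ((cn n k : ℂ) * inner ℂ (v k x) h) := by
    have := hasSum_ite_eq k ((cn n k : ℂ) * inner ℂ (v k x) h)
    convert this using 1
    ext l
    split_ifs with a b b
    · rw [a]
    · exact absurd a.symm b
    · exact absurd b.symm a
    · rfl
  have h4 := h1.unique h3
  have h5 : hc (B13_ev v h) k x =
      hc (fun z => 0 + ∑' l, (cn n l : ℂ) * inner ℂ (v l z) h) k x := by
    unfold hc tc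
    congr 1
    apply Filter.EventuallyEq.iteratedDeriv_eq
    have h6 : Metric.ball (0 : ℂ) 1 ∈ nhds (0 : ℂ) := Metric.ball_mem_nhds _ one_pos
    filter_upwards [h6] with w hw
    rw [zero_add]
    apply B13_ev_eq hn v gram
    rw [mem_ball_zero_iff] at hw ⊢
    rw [norm_smul]
    calc ‖w‖ * ‖x‖ ≤ ‖w‖ * 1 := by gcongr
      _ < 1 := by rwa [mul_one]
  rw [h5, ← h4]
  simp

lemma B13_hc (hn : 1 ≤ n) (v : ℕ → E n → H) (gram : ∀ j k x y, inner ℂ (v j x) (v k y) =
    if j = k then (inner ℂ y x : ℂ) ^ k / (cn n k : ℂ) else 0) (ι : H →ₗᵢ[ℂ] Lp ℂ 2 (sig n))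
    (hι : ∀ k y, ι (v k y) = B13_w n hn k y) (h : H) (k : ℕ) (x : E n) :
    hc (B13_ev v h) k x = (cn n k : ℂ) * inner ℂ (v k x) h := by
  obtain ⟨R, x', h1, h2⟩ : ∃ (R : ℝ) (x' : E n), x = (R : ℂ) • x' ∧ ‖x'‖ ≤ 1 := by
    have hR0 : 0 < max 1 ‖x‖ := lt_of_lt_of_le one_pos (le_max_left _ _)
    have hR' : ((max 1 ‖x‖ : ℝ) : ℂ) ≠ 0 := by exact_mod_cast hR0.ne'
    refine ⟨max 1 ‖x‖, (((max 1 ‖x‖ : ℝ) : ℂ)⁻¹) • x, ?_, ?_⟩
    · rw [smul_smul, mul_inv_cancel₀ hR', one_smul]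
    · rw [norm_smul, norm_inv, Complex.norm_real, Real.norm_of_nonneg hR0.le, inv_mul_le_iff₀ hR0,
        mul_one]
      exact le_max_right _ _
  have h3 := B13_hc_le hn v gram ι hι h k x' h2
  have h4 := (hc_props n _ (B13_hol hn v gram ι hι h)).2.1 k (R : ℂ) x'
  rw [h1, h4, h3, B13_v_smul hn v ι hι, inner_smul_left, map_pow, Complex.conj_conj]
  ring


lemma B13_inner_mem (hn : 1 ≤ n) (v : ℕ → E n → H) (gram : ∀ j k x y, inner ℂ (v j x) (v k y) =
    if j = k then (inner ℂ y x : ℂ) ^ k / (cn n k : ℂ) else 0) :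
    OrthogonalFamily ℂ (fun k => Submodule.span ℂ (Set.range (v k)))
      (fun k => (Submodule.span ℂ (Set.range (v k))).subtypeₗᵢ) := by
  intro j k hjk
  have h1 : Submodule.span ℂ (Set.range (v j)) ⟂ Submodule.span ℂ (Set.range (v k)) := by
    rw [Submodule.isOrtho_span]
    rintro _ ⟨x, rfl⟩ _ ⟨y, rfl⟩
    rw [gram, if_neg hjk]
  intro a b
  exact h1.inner_eq a.2 b.2

/-- dilation -/
lemma B13_T (hn : 1 ≤ n) (v : ℕ → E n → H) (gram : ∀ j k x y, inner ℂ (v j x) (v k y) =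
    if j = k then (inner ℂ y x : ℂ) ^ k / (cn n k : ℂ) else 0) (ι : H →ₗᵢ[ℂ] Lp ℂ 2 (sig n))
    (hι : ∀ k y, ι (v k y) = B13_w n hn k y)
    (dense : (Submodule.span ℂ (Set.range fun q : ℕ × E n => v q.1 q.2)).topologicalClosure = ⊤)
    (r : ℝ) (hr0 : 0 ≤ r) (hr1 : r < 1) :
    ∃ T : H →L[ℂ] Lp ℂ 2 (sig n),
      (∀ h, ⇑(T h) =ᵐ[sig n] fun ξ => B13_ev v h ((r : ℂ) • ξ)) ∧
      (∀ k y, T (v k y) = ((r : ℂ) ^ k) • ι (v k y)) ∧ (∀ h, ‖T h‖ ≤ ‖h‖) := by
  obtain ⟨C, hC, hb⟩ := B13_ev_bd hn v gram r hr0 hr1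
  have hb' : ∀ h : H, ∀ᵐ ξ ∂(sig n), ‖B13_ev v h ((r : ℂ) • ξ)‖ ≤ C * ‖h‖ := by
    intro h
    filter_upwards [sig_ae_norm hn] with ξ hξ
    apply hb
    rw [norm_smul, hξ, mul_one, Complex.norm_real, Real.norm_of_nonneg hr0]
  have hmeas : ∀ h : H, AEStronglyMeasurable (fun ξ => B13_ev v h ((r : ℂ) • ξ)) (sig n) := by
    intro h
    have h1 : ContinuousOn (fun ξ : E n => B13_ev v h ((r : ℂ) • ξ)) (Metric.sphere 0 1) := by
      apply (B13_hol hn v gram ι hι h).continuousOn.comp (by fun_prop)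
      intro ξ hξ
      rw [mem_sphere_zero_iff_norm] at hξ
      rw [mem_ball_zero_iff, norm_smul, hξ, mul_one, Complex.norm_real, Real.norm_of_nonneg hr0]
      exact hr1
    have h2 : (sig n).restrict (Metric.sphere 0 1) = sig n := by
      apply Measure.restrict_eq_self_of_ae_mem
      filter_upwards [sig_ae_norm hn] with ξ hξ
      rw [mem_sphere_zero_iff_norm]
      exact hξ
    rw [← h2]
    exact h1.aestronglyMeasurable Metric.isClosed_sphere.measurableSet
  have hmem : ∀ h : H, MemLp (fun ξ => B13_ev v h ((r : ℂ) • ξ)) 2 (sig n) := fun h =>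
    MemLp.of_bound (hmeas h) (C * ‖h‖) (hb' h)
  set T : H →L[ℂ] Lp ℂ 2 (sig n) := LinearMap.mkContinuous
    { toFun := fun h => (hmem h).toLp
      map_add' := by
        intro a b
        rw [← MemLp.toLp_add]
        apply MemLp.toLp_congr
        filter_upwards with ξ
        simp
      map_smul' := by
        intro c a
        rw [RingHom.id_apply, ← MemLp.toLp_const_smul]
        apply MemLp.toLp_congr
        filter_upwards with ξ
        simp } ((measureUnivNNReal (sig n) : ℝ) ^ (2 : ℝ≥0∞).toReal⁻¹ * C) (by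
      intro h
      have h1 := Lp.norm_le_of_ae_bound (f := (hmem h).toLp) (C := C * ‖h‖) (by positivity) (by
        filter_upwards [(hmem h).coeFn_toLp, hb' h] with ξ h1 h2
        rw [h1]
        exact h2)
      rw [mul_assoc]
      exact h1) with hT
  have hTapp : ∀ h, T h = (hmem h).toLp := fun h => rfl
  have hTv : ∀ k y, T (v k y) = ((r : ℂ) ^ k) • ι (v k y) := by
    intro k y
    rw [hTapp, hι]
    apply Lp.ext
    filter_upwards [(hmem (v k y)).coeFn_toLp, B13_w_ae n hn k y,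
      Lp.coeFn_smul ((r : ℂ) ^ k) (B13_w n hn k y), sig_ae_norm hn] with ξ h1 h2 h3 h4
    rw [h1, h3, Pi.smul_apply, h2, B13_ev_v hn v gram]
    · rw [inner_smul_right, mul_pow, smul_eq_mul]
    · rw [norm_smul, h4, mul_one, Complex.norm_real, Real.norm_of_nonneg hr0]
      exact hr1
  refine ⟨T, fun h => (hmem h).coeFn_toLp, hTv, ?_⟩
  -- contractivity
  have hspan : ∀ h ∈ Submodule.span ℂ (Set.range fun q : ℕ × E n => v q.1 q.2), ‖T h‖ ≤ ‖h‖ := by
    intro h hh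
    have h1 : Submodule.span ℂ (Set.range fun q : ℕ × E n => v q.1 q.2) ≤
        ⨆ k, Submodule.span ℂ (Set.range (v k)) := by
      rw [Submodule.span_le]
      rintro _ ⟨q, rfl⟩
      exact Submodule.mem_iSup_of_mem q.1 (Submodule.subset_span ⟨q.2, rfl⟩)
    obtain ⟨f, hf, hsum⟩ := (Submodule.mem_iSup_iff_exists_finsupp _ _).1 (h1 hh)
    have h2 : ∀ k, ∀ x ∈ Submodule.span ℂ (Set.range (v k)), T x = ((r : ℂ) ^ k) • ι x := by
      intro k x hx
      induction hx using Submodule.span_induction with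
      | mem x hx => obtain ⟨y, rfl⟩ := hx; exact hTv k y
      | zero => simp
      | add x y _ _ hx hy => rw [map_add, map_add, hx, hy, smul_add]
      | smul a x _ hx => rw [map_smul, map_smul, hx, smul_comm]
    have horth := B13_inner_mem hn v gram
    set l : ∀ k, Submodule.span ℂ (Set.range (v k)) := fun k => ⟨f k, hf k⟩ with hl
    have h3 := horth.norm_sum l f.support
    have h4 := horth.norm_sum (fun k => ((r : ℂ) ^ k) • l k) f.support
    have h5 : h = ∑ k ∈ f.support, (Submodule.span ℂ (Set.range (v k))).subtypeₗᵢ (l k) := by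
      rw [← hsum]
      rfl
    have h6 : T h = ι (∑ k ∈ f.support, (Submodule.span ℂ (Set.range (v k))).subtypeₗᵢ
        (((r : ℂ) ^ k) • l k)) := by
      rw [h5, map_sum, map_sum]
      apply Finset.sum_congr rfl
      intro k _
      rw [map_smul, map_smul]
      exact h2 k _ (hf k)
    rw [h6, ι.norm_map]
    have h7 : ‖∑ k ∈ f.support, (Submodule.span ℂ (Set.range (v k))).subtypeₗᵢ
        (((r : ℂ) ^ k) • l k)‖ ^ 2 ≤ ‖h‖ ^ 2 := by
      rw [h4, h5, h3]
      apply Finset.sum_le_sum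
      intro k _
      rw [norm_smul, norm_pow, Complex.norm_real, Real.norm_of_nonneg hr0]
      have h8 : r ^ k ≤ 1 := pow_le_one₀ hr0 hr1.le
      have h9 : r ^ k * ‖l k‖ ≤ ‖l k‖ := by
        have := norm_nonneg (l k)
        nlinarith
      have h10 : 0 ≤ r ^ k := by positivity
      exact pow_le_pow_left₀ (by positivity) h9 2
    exact le_of_sq_le_sq h7 (norm_nonneg _)
  intro h
  have h1 : IsClosed {h : H | ‖T h‖ ≤ ‖h‖} :=
    isClosed_le (by fun_prop) (by fun_prop)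
  have h2 : (Submodule.span ℂ (Set.range fun q : ℕ × E n => v q.1 q.2) : Set H) ⊆
      {h : H | ‖T h‖ ≤ ‖h‖} := fun x hx => hspan x hx
  have h3 := closure_minimal h2 h1
  have h4 : h ∈ (Submodule.span ℂ (Set.range fun q : ℕ × E n => v q.1 q.2)).topologicalClosure := by
    rw [dense]; trivial
  exact h3 h4


lemma B13_norm_sq (f : Lp ℂ 2 (sig n)) (g : E n → ℂ) (h : ⇑f =ᵐ[sig n] g) :
    ∫⁻ ξ, ENNReal.ofReal (‖g ξ‖ ^ (2 : ℝ)) ∂(sig n) = ENNReal.ofReal (‖f‖ ^ 2) := by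
  have h1 : ∫⁻ ξ, ENNReal.ofReal (‖g ξ‖ ^ (2 : ℝ)) ∂(sig n) =
      ∫⁻ ξ, ‖f ξ‖ₑ ^ (2 : ℝ) ∂(sig n) := by
    apply lintegral_congr_ae
    filter_upwards [h] with ξ hξ
    rw [hξ, ← ENNReal.ofReal_rpow_of_nonneg (norm_nonneg _) (by norm_num), ofReal_norm]
  rw [h1, Lp.norm_def, eLpNorm_eq_lintegral_rpow_enorm_toReal (by norm_num) (by norm_num)]
  simp only [ENNReal.toReal_ofNat]
  have h2 : ∫⁻ ξ, ‖f ξ‖ₑ ^ (2 : ℝ) ∂(sig n) ≠ ⊤ := by
    have h3 := Lp.eLpNorm_ne_top f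
    rw [eLpNorm_eq_lintegral_rpow_enorm_toReal (by norm_num) (by norm_num)] at h3
    simp only [ENNReal.toReal_ofNat] at h3
    intro h4
    rw [h4] at h3
    simp at h3
  rw [← ENNReal.toReal_pow, ENNReal.ofReal_toReal]
  · rw [← ENNReal.rpow_natCast, ← ENNReal.rpow_mul]
    simp
  · apply ENNReal.pow_ne_top
    exact ENNReal.rpow_ne_top_of_nonneg (by norm_num) h2

theorem B13_main (hn : 1 ≤ n) (v : ℕ → E n → H) (gram : ∀ j k x y, inner ℂ (v j x) (v k y) =
    if j = k then (inner ℂ y x : ℂ) ^ k / (cn n k : ℂ) else 0) (ι : H →ₗᵢ[ℂ] Lp ℂ 2 (sig n))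
    (hι : ∀ k y, ι (v k y) = B13_w n hn k y)
    (dense : (Submodule.span ℂ (Set.range fun q : ℕ × E n => v q.1 q.2)).topologicalClosure = ⊤) :
    Nonempty (HModel n H) := by
  have hT := fun r hr0 hr1 => B13_T hn v gram ι hι dense r hr0 hr1
  choose! T hT1 hT2 hT3 using hT
  have hev : ∀ᶠ r : ℝ in nhdsWithin (1 : ℝ) (Set.Iio 1), 0 ≤ r ∧ r < 1 := by
    have h1 : ∀ᶠ r : ℝ in nhdsWithin (1 : ℝ) (Set.Iio 1), 0 ≤ r :=
      mem_nhdsWithin_of_mem_nhds (Ici_mem_nhds (by norm_num))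
    have h2 : ∀ᶠ r : ℝ in nhdsWithin (1 : ℝ) (Set.Iio 1), r < 1 := self_mem_nhdsWithin
    exact h1.and h2
  -- strong convergence
  have hlim : ∀ h : H, Filter.Tendsto (fun r : ℝ => T r h) (nhdsWithin (1 : ℝ) (Set.Iio 1))
      (nhds (ι h)) := by
    have hs : ∀ h ∈ Submodule.span ℂ (Set.range fun q : ℕ × E n => v q.1 q.2),
        Filter.Tendsto (fun r : ℝ => T r h) (nhdsWithin (1 : ℝ) (Set.Iio 1)) (nhds (ι h)) := by
      intro h hh
      induction hh using Submodule.span_induction with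
      | mem x hx =>
        obtain ⟨q, rfl⟩ := hx
        have h1 : Filter.Tendsto (fun r : ℝ => ((r : ℂ) ^ q.1) • ι (v q.1 q.2))
            (nhdsWithin (1 : ℝ) (Set.Iio 1)) (nhds ((((1 : ℝ) : ℂ) ^ q.1) • ι (v q.1 q.2))) := by
          apply Filter.Tendsto.mono_left _ nhdsWithin_le_nhds
          apply Continuous.tendsto
          fun_prop
        rw [Complex.ofReal_one, one_pow, one_smul] at h1
        refine h1.congr' ?_
        filter_upwards [hev] with r hr
        exact (hT2 r hr.1 hr.2 q.1 q.2).symm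
      | zero => simp
      | add x y _ _ hx hy => simpa using hx.add hy
      | smul a x _ hx => simpa using hx.const_smul a
    intro h
    rw [Metric.tendsto_nhds]
    intro ε hε
    have h1 : h ∈ closure ((Submodule.span ℂ (Set.range fun q : ℕ × E n => v q.1 q.2) : Submodule ℂ H) : Set H) := by
      have h2 : h ∈ (Submodule.span ℂ (Set.range fun q : ℕ × E n => v q.1 q.2)).topologicalClosure := by
        rw [dense]; trivial
      exact h2
    obtain ⟨g, hg, hgh⟩ := Metric.mem_closure_iff.1 h1 (ε / 3) (by positivity)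
    have h3 := (Metric.tendsto_nhds.1 (hs g hg)) (ε / 3) (by positivity)
    filter_upwards [h3, hev] with r hr hr'
    have h4 : dist (T r h) (T r g) ≤ dist h g := by
      rw [dist_eq_norm, dist_eq_norm, ← map_sub]
      exact hT3 r hr'.1 hr'.2 _
    have h5 : dist (ι g) (ι h) = dist g h := ι.dist_map g h
    have h6 := dist_triangle4 (T r h) (T r g) (ι g) (ι h)
    rw [h5, dist_comm g h] at h6
    linarith
  refine ⟨⟨v, B13_ev v, gram, dense, B13_ev_v hn v gram, ?_, B13_hol hn v gram ι hι,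
    B13_hc hn v gram ι hι, ?_, ?_⟩⟩
  · intro z hz
    obtain ⟨C, hC, hb⟩ := B13_ev_bd hn v gram ‖z‖ (norm_nonneg _) hz
    exact ⟨C, hC, fun h => hb z le_rfl h⟩
  · intro h r hr0 hr1
    rw [B13_norm_sq (T r h) _ (hT1 r hr0 hr1 h)]
    apply ENNReal.ofReal_le_ofReal
    exact pow_le_pow_left₀ (norm_nonneg _) (hT3 r hr0 hr1 h) 2
  · intro g h
    have h1 := (hlim g).inner (𝕜 := ℂ) (hlim h)
    rw [ι.inner_map_map] at h1
    refine h1.congr' ?_
    filter_upwards [hev] with r hr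
    rw [L2.inner_def]
    apply integral_congr_ae
    filter_upwards [hT1 r hr.1 hr.2 g, hT1 r hr.1 hr.2 h] with ξ h2 h3
    rw [h2, h3, RCLike.inner_apply, mul_comm]

end abs

/-- TARGET -/
theorem exists_hmodel (n : ℕ) (hn : 1 ≤ n) :
    ∃ (H : Type) (_ : NormedAddCommGroup H) (_ : InnerProductSpace ℂ H) (_ : CompleteSpace H),
      Nonempty (HModel n H) := by
  refine ⟨B13_S n hn, inferInstance, inferInstance, inferInstance, ?_⟩
  exact B13_main hn (B13_v n hn) (B13_v_gram n hn) (B13_S n hn).subtypeₗᵢ (fun k y => rfl)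
    (B13_v_dense n hn)

end Pool.Agent.HpBall2
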