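import Mathlib
import Pool.Agent.HpBall2.Defs
import Pool.Agent.HpBall.Neumann

set_option autoImplicit false

open MeasureTheory Complex
open scoped ENNReal NNReal

namespace Pool.Agent.HpBall2

open Pool.Agent.HpBall

/-- coefficients of `(1-x)^{-1/2}` -/
noncomputable def B10_a : ℕ → ℝ
  | 0 => 1
  | m + 1 => B10_a m * ((2 * m + 1) / (2 * m + 2))

theorem B10_a_pos (m : ℕ) : 0 < B10_a m := by
  induction m with
  | zero => simp [B10_a]
  | succ m ih => rw [B10_a]; positivity

theorem B10_a_le (m : ℕ) : B10_a m ≤ 1 := by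
  induction m with
  | zero => simp [B10_a]
  | succ m ih =>
    rw [B10_a]
    have h : (2 * (m : ℝ) + 1) / (2 * m + 2) ≤ 1 := by
      rw [div_le_one (by positivity)]; linarith
    have h0 : 0 ≤ (2 * (m : ℝ) + 1) / (2 * m + 2) := by positivity
    calc B10_a m * ((2 * m + 1) / (2 * m + 2)) ≤ 1 * 1 := mul_le_mul ih h h0 zero_le_one
      _ = 1 := one_mul 1

theorem B10_a_rec (m : ℕ) : 2 * ((m : ℝ) + 1) * B10_a (m + 1) = (2 * m + 1) * B10_a m := by
  rw [B10_a]
  field_simp

theorem B10_conv (m : ℕ) : ∑ p ∈ Finset.HasAntidiagonal.antidiagonal m, B10_a p.1 * B10_a p.2 = 1 := by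
  induction m with
  | zero => simp [B10_a]
  | succ m ih =>
    have h1 : ((m : ℝ) + 1) * ∑ p ∈ Finset.HasAntidiagonal.antidiagonal (m + 1), B10_a p.1 * B10_a p.2 =
        2 * ∑ p ∈ Finset.HasAntidiagonal.antidiagonal (m + 1), (p.1 : ℝ) * (B10_a p.1 * B10_a p.2) := by
      have h2 : ∑ p ∈ Finset.HasAntidiagonal.antidiagonal (m + 1), (p.2 : ℝ) * (B10_a p.1 * B10_a p.2) =
          ∑ p ∈ Finset.HasAntidiagonal.antidiagonal (m + 1), (p.1 : ℝ) * (B10_a p.1 * B10_a p.2) := by
        rw [← Finset.Nat.sum_antidiagonal_swap]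
        refine Finset.sum_congr rfl fun p _ => ?_
        simp only [Prod.fst_swap, Prod.snd_swap]
        ring
      rw [two_mul]
      nth_rewrite 2 [← h2]
      rw [← Finset.sum_add_distrib, Finset.mul_sum]
      refine Finset.sum_congr rfl fun p hp => ?_
      have h3 : (p.1 : ℝ) + p.2 = m + 1 := by
        have := Finset.HasAntidiagonal.mem_antidiagonal.1 hp
        exact_mod_cast this
      rw [← h3]; ring
    have h4 : 2 * ∑ p ∈ Finset.HasAntidiagonal.antidiagonal (m + 1), (p.1 : ℝ) * (B10_a p.1 * B10_a p.2) =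
        ∑ p ∈ Finset.HasAntidiagonal.antidiagonal m, (2 * (p.1 : ℝ) + 1) * (B10_a p.1 * B10_a p.2) := by
      rw [Finset.Nat.sum_antidiagonal_succ]
      simp only [Nat.cast_zero, zero_mul, zero_add]
      rw [Finset.mul_sum]
      refine Finset.sum_congr rfl fun p _ => ?_
      have := B10_a_rec p.1
      push_cast
      linear_combination B10_a p.2 * this
    have h5 : ∑ p ∈ Finset.HasAntidiagonal.antidiagonal m, (2 * (p.1 : ℝ) + 1) * (B10_a p.1 * B10_a p.2) =
        ((m : ℝ) + 1) * ∑ p ∈ Finset.HasAntidiagonal.antidiagonal m, B10_a p.1 * B10_a p.2 := by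
      have h2 : ∑ p ∈ Finset.HasAntidiagonal.antidiagonal m, (p.2 : ℝ) * (B10_a p.1 * B10_a p.2) =
          ∑ p ∈ Finset.HasAntidiagonal.antidiagonal m, (p.1 : ℝ) * (B10_a p.1 * B10_a p.2) := by
        rw [← Finset.Nat.sum_antidiagonal_swap]
        refine Finset.sum_congr rfl fun p _ => ?_
        simp only [Prod.fst_swap, Prod.snd_swap]
        ring
      have h6 : ∑ p ∈ Finset.HasAntidiagonal.antidiagonal m, (2 * (p.1 : ℝ) + 1) * (B10_a p.1 * B10_a p.2) =
          ∑ p ∈ Finset.HasAntidiagonal.antidiagonal m, (p.1 : ℝ) * (B10_a p.1 * B10_a p.2) +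
          ∑ p ∈ Finset.HasAntidiagonal.antidiagonal m, (p.1 : ℝ) * (B10_a p.1 * B10_a p.2) +
          ∑ p ∈ Finset.HasAntidiagonal.antidiagonal m, B10_a p.1 * B10_a p.2 := by
        rw [← Finset.sum_add_distrib, ← Finset.sum_add_distrib]
        refine Finset.sum_congr rfl fun p _ => ?_
        ring
      rw [h6]
      nth_rewrite 2 [← h2]
      rw [← Finset.sum_add_distrib, ← Finset.sum_add_distrib, Finset.mul_sum]
      refine Finset.sum_congr rfl fun p hp => ?_
      have h3 : (p.1 : ℝ) + p.2 = m := by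
        have := Finset.HasAntidiagonal.mem_antidiagonal.1 hp
        exact_mod_cast this
      rw [← h3]; ring
    rw [h4, h5, ih, mul_one] at h1
    have h7 : (m : ℝ) + 1 ≠ 0 := by positivity
    exact mul_left_cancel₀ h7 (h1.trans (mul_one _).symm)

/-- TARGET -/
theorem matrix_invsqrt {ι : Type} [Fintype ι] [DecidableEq ι] (w : ι → ι → ℝ)
    (hw : ∀ i j, 0 < w i j) (C₁ : ℝ) (hC₁ : 0 < C₁)
    (hconv : ∀ i k, ∑ j, w i j * w j k ≤ C₁ * w i k)
    (G : Matrix ι ι ℂ) (hGh : G.IsHermitian) (ε : ℝ) (hε0 : 0 ≤ ε) (hε : ε * C₁ ≤ 1 / 2)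
    (hG : ∀ i j, ‖(G - 1) i j‖ ≤ ε * w i j) :
    ∃ S : Matrix ι ι ℂ, S.IsHermitian ∧ S * G * S = 1 ∧ ∀ i j, ‖(S - 1) i j‖ ≤ 2 * ε * w i j := by
  set F : Matrix ι ι ℂ := 1 - G with hF
  have hFb : ∀ i j, ‖F i j‖ ≤ ε * w i j := by
    intro i j
    have h1 : F i j = - ((G - 1) i j) := by
      rw [hF]; simp [Matrix.sub_apply]
    rw [h1, norm_neg]
    exact hG i j
  have hpow : ∀ m : ℕ, ∀ i j, ‖(F ^ (m + 1)) i j‖ ≤ ε * (1 / 2) ^ m * w i j := by
    intro m
    induction m with
    | zero => intro i j; simpa using hFb i j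
    | succ m ih =>
      intro i k
      rw [pow_succ, Matrix.mul_apply]
      calc ‖∑ j, (F ^ (m + 1)) i j * F j k‖ ≤ ∑ j, ‖(F ^ (m + 1)) i j * F j k‖ := norm_sum_le _ _
        _ ≤ ∑ j, (ε * (1 / 2) ^ m * ε) * (w i j * w j k) := by
            apply Finset.sum_le_sum
            intro j _
            rw [norm_mul]
            have h1 := ih i j
            have h2 := hFb j k
            calc ‖(F ^ (m + 1)) i j‖ * ‖F j k‖ ≤ (ε * (1 / 2) ^ m * w i j) * (ε * w j k) := by
                  apply mul_le_mul h1 h2 (norm_nonneg _)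
                  have := (hw i j).le
                  positivity
              _ = _ := by ring
        _ = (ε * (1 / 2) ^ m * ε) * ∑ j, w i j * w j k := by rw [Finset.mul_sum]
        _ ≤ (ε * (1 / 2) ^ m * ε) * (C₁ * w i k) := by
            apply mul_le_mul_of_nonneg_left (hconv i k)
            positivity
        _ = (ε * (1 / 2) ^ m * w i k) * (ε * C₁) := by ring
        _ ≤ (ε * (1 / 2) ^ m * w i k) * (1 / 2) := by
            apply mul_le_mul_of_nonneg_left hε
            have := (hw i k).le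
            positivity
        _ = _ := by ring
  have hgeo : Summable (fun m : ℕ => ((1 : ℝ) / 2) ^ m) := summable_geometric_two
  have hs1 : ∀ i j, Summable (fun m : ℕ => ‖(F ^ (m + 1)) i j‖) := by
    intro i j
    apply Summable.of_nonneg_of_le (fun m => norm_nonneg _) (fun m => hpow m i j)
    exact (hgeo.mul_left ε).mul_right _
  have hs0 : ∀ i j, Summable (fun m : ℕ => ‖(F ^ m) i j‖) := fun i j =>
    (summable_nat_add_iff 1).1 (hs1 i j)
  have hs : Summable (fun m : ℕ => F ^ m) := by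
    refine Pi.summable.2 fun i => Pi.summable.2 fun j => ?_
    exact (hs0 i j).of_norm
  have hG' : G = 1 - F := by rw [hF]; simp
  -- the scaled powers
  have hna : ∀ m i j, ‖(B10_a m : ℂ) * (F ^ m) i j‖ ≤ ‖(F ^ m) i j‖ := by
    intro m i j
    rw [norm_mul, Complex.norm_real, Real.norm_eq_abs, abs_of_pos (B10_a_pos m)]
    calc _ ≤ 1 * ‖(F ^ m) i j‖ := mul_le_mul_of_nonneg_right (B10_a_le m) (norm_nonneg _)
      _ = _ := one_mul _
  have hsa : ∀ i j, Summable (fun m : ℕ => ‖(B10_a m : ℂ) * (F ^ m) i j‖) := fun i j =>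
    Summable.of_nonneg_of_le (fun m => norm_nonneg _) (fun m => hna m i j) (hs0 i j)
  set S : Matrix ι ι ℂ := Matrix.of fun i j => ∑' m : ℕ, (B10_a m : ℂ) * (F ^ m) i j with hS
  have hSa : ∀ i j, S i j = ∑' m : ℕ, (B10_a m : ℂ) * (F ^ m) i j := fun i j => rfl
  have hFh : F.IsHermitian := by
    rw [hF]; exact Matrix.isHermitian_one.sub hGh
  have hSh : S.IsHermitian := by
    ext i j
    rw [Matrix.conjTranspose_apply, hSa, hSa, ← starRingEnd_apply, Complex.conj_tsum]
    refine tsum_congr fun m => ?_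
    rw [map_mul, Complex.conj_ofReal]
    congr 1
    have h1 : (F ^ m).IsHermitian := hFh.pow m
    have h2 := congrFun (congrFun h1 i) j
    rw [Matrix.conjTranspose_apply] at h2
    exact h2
  have hSF : S * F = F * S := by
    ext i k
    rw [Matrix.mul_apply, Matrix.mul_apply]
    have h1 : ∀ j, S i j * F j k = ∑' m : ℕ, ((B10_a m : ℂ) * (F ^ m) i j) * F j k := fun j => by
      rw [hSa, tsum_mul_right]
    have h2 : ∀ j, F i j * S j k = ∑' m : ℕ, F i j * ((B10_a m : ℂ) * (F ^ m) j k) := fun j => by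
      rw [hSa, tsum_mul_left]
    simp only [h1, h2]
    rw [← Summable.tsum_finsetSum (fun j _ => ((hsa i j).of_norm.mul_right _)),
      ← Summable.tsum_finsetSum (fun j _ => ((hsa j k).of_norm.mul_left _))]
    refine tsum_congr fun m => ?_
    have h3 : ∑ j, ((B10_a m : ℂ) * (F ^ m) i j) * F j k = (B10_a m : ℂ) * (F ^ m * F) i k := by
      rw [Matrix.mul_apply, Finset.mul_sum]
      exact Finset.sum_congr rfl fun j _ => by ring
    have h4 : ∑ j, F i j * ((B10_a m : ℂ) * (F ^ m) j k) = (B10_a m : ℂ) * (F * F ^ m) i k := by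
      rw [Matrix.mul_apply, Finset.mul_sum]
      exact Finset.sum_congr rfl fun j _ => by ring
    rw [h3, h4, ← pow_succ, ← pow_succ']
  have hSS : S * S = ∑' m, F ^ m := by
    ext i k
    have h0 : (∑' m, F ^ m) i k = ∑' m, (F ^ m) i k := by
      have h3 : HasSum (fun m : ℕ => F ^ m) (∑' m, F ^ m) := hs.hasSum
      have h4 := (Pi.hasSum.1 (Pi.hasSum.1 h3 i)) k
      exact h4.tsum_eq.symm
    rw [h0, Matrix.mul_apply]
    have h1 : ∀ j, S i j * S j k = ∑' m : ℕ, ∑ p ∈ Finset.HasAntidiagonal.antidiagonal m,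
        ((B10_a p.1 : ℂ) * (F ^ p.1) i j) * ((B10_a p.2 : ℂ) * (F ^ p.2) j k) := fun j => by
      rw [hSa, hSa]
      exact tsum_mul_tsum_eq_tsum_sum_antidiagonal_of_summable_norm (hsa i j) (hsa j k)
    simp only [h1]
    rw [← Summable.tsum_finsetSum (fun j _ =>
      (summable_norm_sum_mul_antidiagonal_of_summable_norm (hsa i j) (hsa j k)).of_norm)]
    refine tsum_congr fun m => ?_
    rw [Finset.sum_comm]
    have h2 : ∀ p ∈ Finset.HasAntidiagonal.antidiagonal m, ∑ j, ((B10_a p.1 : ℂ) * (F ^ p.1) i j) *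
        ((B10_a p.2 : ℂ) * (F ^ p.2) j k) = ((B10_a p.1 * B10_a p.2 : ℝ) : ℂ) * (F ^ m) i k := by
      intro p hp
      rw [← Finset.HasAntidiagonal.mem_antidiagonal.1 hp, pow_add, Matrix.mul_apply, Finset.mul_sum]
      refine Finset.sum_congr rfl fun j _ => ?_
      push_cast; ring
    rw [Finset.sum_congr rfl h2, ← Finset.sum_mul, ← Complex.ofReal_sum, B10_conv]
    simp
  refine ⟨S, hSh, ?_, ?_⟩
  · have h1 : S * G = G * S := by
      rw [hG', mul_sub, sub_mul, hSF, mul_one, one_mul]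
    rw [h1, mul_assoc, hSS, hG']
    exact hs.one_sub_mul_tsum_pow
  · intro i j
    have h1 : (S - 1) i j = ∑' m : ℕ, (B10_a (m + 1) : ℂ) * (F ^ (m + 1)) i j := by
      rw [Matrix.sub_apply, hSa, (hsa i j).of_norm.tsum_eq_zero_add]
      simp [B10_a]
    rw [h1]
    calc ‖∑' m : ℕ, (B10_a (m + 1) : ℂ) * (F ^ (m + 1)) i j‖ ≤ ∑' m : ℕ, ε * (1 / 2) ^ m * w i j := by
          apply tsum_of_norm_bounded ((hgeo.mul_left ε).mul_right _).hasSum
          intro m; exact (hna (m + 1) i j).trans (hpow m i j)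
      _ = 2 * ε * w i j := by
          rw [tsum_mul_right, tsum_mul_left, tsum_geometric_two]; ring

end Pool.Agent.HpBall2
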