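import Mathlib
import Pool.Agent.HpBall2.Defs
import Pool.Agent.HpBall.Geom
import Pool.Agent.HpBall.Sphere
import Pool.Agent.HpBall.Molecules
import Pool.Agent.HpBall.KerInt
import Pool.Agent.HpBall2.Kkv
import Pool.Agent.HpBall2.KkDecay
import Pool.Agent.HpBall2.Bands
import Pool.Agent.HpBall2.InvSqrt
import Pool.Agent.HpBall2.GavPt

set_option autoImplicit false

open MeasureTheory Complex
open scoped ENNReal NNReal

namespace Pool.Agent.HpBall2

open Pool.Agent.HpBall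

/-! ### auxiliary facts -/

lemma B23_cn_pos (n k : ℕ) : 0 < cn n k := by
  unfold cn
  have : 0 < (k + n - 1).choose (n - 1) := Nat.choose_pos (by omega)
  have h : (0 : ℝ) < ((k + n - 1).choose (n - 1) : ℝ) := by exact_mod_cast this
  positivity

lemma B23_cn_lower (n : ℕ) (hn : 1 ≤ n) {N : ℝ} (hN : 0 ≤ N) {k : ℕ} (hk : N ≤ k) :
    ((n - 1).factorial * Real.pi ^ n : ℝ)⁻¹ * N ^ (n - 1) ≤ cn n k := by
  have h1 : (k + 1) ^ (n - 1) ≤ (n - 1).factorial * (k + n - 1).choose (n - 1) := by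
    rw [← Nat.descFactorial_eq_factorial_mul_choose]
    have := Nat.pow_sub_le_descFactorial (k + n - 1) (n - 1)
    rwa [show k + n - 1 + 1 - (n - 1) = k + 1 by omega] at this
  have h2 : ((k : ℝ) + 1) ^ (n - 1) ≤ (n - 1).factorial * ((k + n - 1).choose (n - 1) : ℝ) := by
    exact_mod_cast h1
  have h3 : N ^ (n - 1) ≤ ((k : ℝ) + 1) ^ (n - 1) := pow_le_pow_left₀ hN (by linarith) _
  have hf : (0 : ℝ) < (n - 1).factorial := by exact_mod_cast (n - 1).factorial_pos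
  have hpi : 0 < Real.pi ^ n := by positivity
  unfold cn
  rw [inv_mul_le_iff₀ (by positivity)]
  calc N ^ (n - 1) ≤ (n - 1).factorial * ((k + n - 1).choose (n - 1) : ℝ) := h3.trans h2
    _ = _ := by field_simp

/-- the diagonal value -/
noncomputable def B23_mu (n : ℕ) (δ N : ℝ) : ℝ :=
  ∑ k ∈ Finset.range ⌈δ * N⌉₊, (mAl δ ((k : ℝ) / N) * mAl δ ((k : ℝ) / N)) * cn n k

lemma B23_mu_lower (n : ℕ) (hn : 1 ≤ n) {δ : ℝ} (hδ : 1 < δ) : ∃ c N₀ : ℝ, 0 < c ∧ 0 < N₀ ∧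
    ∀ N : ℝ, N₀ ≤ N → c * N ^ (n : ℝ) ≤ B23_mu n δ N := by
  obtain ⟨c1, N1, hc1, hN1, h⟩ := mKap_lower hδ
  set c2 : ℝ := ((n - 1).factorial * Real.pi ^ n : ℝ)⁻¹ with hc2
  have hf : (0 : ℝ) < (n - 1).factorial := by exact_mod_cast (n - 1).factorial_pos
  have hc20 : 0 < c2 := by rw [hc2]; positivity
  refine ⟨c2 * (c1 ^ 2 / (2 * δ)), max N1 1, by positivity, by positivity, fun N hN => ?_⟩
  have hNN1 : N1 ≤ N := (le_max_left _ _).trans hN
  have hN1' : 1 ≤ N := (le_max_right _ _).trans hN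
  have hN0 : 0 < N := by linarith
  have hδN : 1 ≤ δ * N := by nlinarith
  have h1 := h N hNN1
  have h2 : (mKap δ N) ^ 2 ≤ (⌈δ * N⌉₊ : ℝ) *
      ∑ k ∈ Finset.range ⌈δ * N⌉₊, (mAl δ ((k : ℝ) / N)) ^ 2 := by
    have := sq_sum_le_card_mul_sum_sq (s := Finset.range ⌈δ * N⌉₊)
      (f := fun k => mAl δ ((k : ℝ) / N))
    rwa [Finset.card_range] at this
  have h3 : (⌈δ * N⌉₊ : ℝ) ≤ 2 * δ * N := by
    have := Nat.ceil_lt_add_one (show 0 ≤ δ * N by positivity)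
    linarith
  set Sq := ∑ k ∈ Finset.range ⌈δ * N⌉₊, (mAl δ ((k : ℝ) / N)) ^ 2 with hSq
  have hSq0 : 0 ≤ Sq := Finset.sum_nonneg fun _ _ => sq_nonneg _
  have h4 : (c1 * N) ^ 2 ≤ 2 * δ * N * Sq := by
    have e1 : (c1 * N) ^ 2 ≤ (mKap δ N) ^ 2 := pow_le_pow_left₀ (by positivity) h1 2
    exact e1.trans (h2.trans (mul_le_mul_of_nonneg_right h3 hSq0))
  have h5 : c1 ^ 2 / (2 * δ) * N ≤ Sq := by
    rw [div_mul_eq_mul_div, div_le_iff₀ (by positivity)]
    have : N * (c1 ^ 2 * N) ≤ N * (Sq * (2 * δ)) := by nlinarith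
    exact le_of_mul_le_mul_left this hN0
  have h6 : c2 * N ^ (n - 1) * Sq ≤ B23_mu n δ N := by
    unfold B23_mu
    rw [hSq, Finset.mul_sum]
    refine Finset.sum_le_sum fun k _ => ?_
    by_cases hz : mAl δ ((k : ℝ) / N) = 0
    · rw [hz]; simp
    · have hk : N ≤ k := by
        by_contra hlt
        push Not at hlt
        exact hz ((mAl_bump hδ).lo _ (by rw [div_le_one hN0]; exact hlt.le))
      have := B23_cn_lower n hn hN0.le hk
      have h7 : 0 ≤ mAl δ ((k : ℝ) / N) * mAl δ ((k : ℝ) / N) := mul_self_nonneg _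
      calc c2 * N ^ (n - 1) * (mAl δ ((k : ℝ) / N)) ^ 2
          = (mAl δ ((k : ℝ) / N) * mAl δ ((k : ℝ) / N)) * (c2 * N ^ (n - 1)) := by ring
        _ ≤ _ := mul_le_mul_of_nonneg_left this h7
  have h8 : N ^ (n : ℝ) = N ^ (n - 1) * N := by
    rw [Real.rpow_natCast, ← pow_succ]
    congr 1; omega
  calc c2 * (c1 ^ 2 / (2 * δ)) * N ^ (n : ℝ) = c2 * N ^ (n - 1) * (c1 ^ 2 / (2 * δ) * N) := by
        rw [h8]; ring
    _ ≤ c2 * N ^ (n - 1) * Sq := mul_le_mul_of_nonneg_left h5 (by positivity)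
    _ ≤ _ := h6

/-- square of the bump -/
noncomputable def B23_sq (δ : ℝ) (x : ℝ) : ℝ := mAl δ x * mAl δ x

lemma B23_sq_bump {δ : ℝ} (hδ : 1 < δ) : Bump (B23_sq δ) 1 δ where
  apos := one_pos
  ab := hδ
  smooth := (mAl_bump hδ).smooth.mul (mAl_bump hδ).smooth
  lo := fun x hx => by unfold B23_sq; rw [(mAl_bump hδ).lo x hx, zero_mul]
  hi := fun x hx => by unfold B23_sq; rw [(mAl_bump hδ).hi x hx, zero_mul]

lemma B23_diag (n : ℕ) {δ N : ℝ} (hδ : 1 < δ) (hN : 0 < N) {x : E n} (hx : ‖x‖ = 1) :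
    kk n (B23_sq δ) N x x = (B23_mu n δ N : ℂ) := by
  unfold kk B23_mu
  rw [tsum_eq_sum (s := Finset.range ⌈δ * N⌉₊)]
  · rw [Complex.ofReal_sum]
    refine Finset.sum_congr rfl fun k _ => ?_
    rw [minner_self hx, one_pow, mul_one]
    rfl
  · intro k hk
    have : mAl δ ((k : ℝ) / N) = 0 := mAl_zero_of_ceil hδ hN hk
    unfold B23_sq
    rw [this]; simp

lemma B23_inner_v {n : ℕ} {H : Type} [NormedAddCommGroup H] [InnerProductSpace ℂ H]
    (M : HModel n H) (β : ℝ → ℝ) (N : ℝ) (y : E n) (t : H)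
    (ht : ∀ h : H, (inner ℂ t h : ℂ) = cut β N (M.ev h) y) (k : ℕ) (x : E n) :
    (inner ℂ t (M.v k x) : ℂ) = (β ((k : ℝ) / N) : ℂ) * (inner ℂ x y : ℂ) ^ k := by
  rw [ht]
  unfold cut
  rw [tsum_eq_single k]
  · rw [M.hc_ev, M.gram, if_pos rfl]
    have : (cn n k : ℂ) ≠ 0 := by exact_mod_cast (B23_cn_pos n k).ne'
    field_simp
  · intro m hm
    rw [M.hc_ev, M.gram, if_neg hm]
    simp

lemma B23_gram {n : ℕ} {H : Type} [NormedAddCommGroup H] [InnerProductSpace ℂ H]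
    (M : HModel n H) (β : ℝ → ℝ) (N N' : ℝ) (x y : E n) (t t' : H)
    (ht : ∀ h : H, (inner ℂ t h : ℂ) = cut β N (M.ev h) x)
    (ht' : ∀ h : H, (inner ℂ t' h : ℂ) = cut β N' (M.ev h) y) :
    (inner ℂ t t' : ℂ) = ∑' k : ℕ, ((β ((k : ℝ) / N) * β ((k : ℝ) / N') * cn n k : ℝ) : ℂ) *
      (inner ℂ y x : ℂ) ^ k := by
  rw [ht]
  unfold cut
  congr 1
  funext k
  rw [M.hc_ev, ← inner_conj_symm, B23_inner_v M β N' y t' ht', map_mul, map_pow, inner_conj_symm,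
    Complex.conj_ofReal]
  push_cast
  ring

lemma B23_gram_same {n : ℕ} {H : Type} [NormedAddCommGroup H] [InnerProductSpace ℂ H]
    (M : HModel n H) (δ : ℝ) (N : ℝ) (x y : E n) (t t' : H)
    (ht : ∀ h : H, (inner ℂ t h : ℂ) = cut (mAl δ) N (M.ev h) x)
    (ht' : ∀ h : H, (inner ℂ t' h : ℂ) = cut (mAl δ) N (M.ev h) y) :
    (inner ℂ t t' : ℂ) = kk n (B23_sq δ) N y x :=
  B23_gram M (mAl δ) N N x y t t' ht ht'

lemma B23_gram_ne {n : ℕ} {H : Type} [NormedAddCommGroup H] [InnerProductSpace ℂ H]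
    (M : HModel n H) {δ : ℝ} (hδ : 1 < δ) {N N' : ℝ} (hN : 0 < N) (hN' : 0 < N')
    (hNN : δ * N ≤ N') (x y : E n) (t t' : H)
    (ht : ∀ h : H, (inner ℂ t h : ℂ) = cut (mAl δ) N (M.ev h) x)
    (ht' : ∀ h : H, (inner ℂ t' h : ℂ) = cut (mAl δ) N' (M.ev h) y) :
    (inner ℂ t t' : ℂ) = 0 := by
  rw [B23_gram M (mAl δ) N N' x y t t' ht ht']
  have : ∀ k : ℕ, ((mAl δ ((k : ℝ) / N) * mAl δ ((k : ℝ) / N') * cn n k : ℝ) : ℂ) *
      (inner ℂ y x : ℂ) ^ k = 0 := by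
    intro k
    rcases le_total ((k : ℝ)) N' with h | h
    · rw [(mAl_bump hδ).lo ((k : ℝ) / N') (by rw [div_le_one hN']; exact h)]
      simp
    · rw [(mAl_bump hδ).hi ((k : ℝ) / N) (by rw [le_div_iff₀ hN]; linarith)]
      simp
  simp_rw [this]
  exact tsum_zero

/-- the matrix of coefficients at one level -/
lemma B23_matrix {n : ℕ} {pt : ℕ → ℕ → E n} {c C : ℝ} (hT : TreeFam n pt c C) {A K D CP : ℝ}
    (hA : 1 ≤ A) (hK : 0 ≤ K) (hD0 : 0 < D) (hCP : 0 < CP)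
    (hD : ∀ (l : ℕ) (ξ : E n), ‖ξ‖ = 1 →
      ∑ i ∈ Finset.range (2 ^ l), (1 + sc n l * rho ξ (pt l i)) ^ (-K) ≤ D)
    (l : ℕ) (G : Matrix (Fin (2 ^ l)) (Fin (2 ^ l)) ℂ) (hGh : G.IsHermitian)
    (hG1 : ∀ i, G i i = 1)
    (hGd : ∀ i j, ‖G i j‖ ≤ CP * (1 + A * sc n l * rho (pt l i) (pt l j)) ^ (-(K + 1)))
    (hε1 : CP / (1 + A * c) * (4 ^ K * (2 * D)) ≤ 1 / 2) (hε2 : CP / (1 + A * c) ≤ 1 / 2) :
    ∃ S : Matrix (Fin (2 ^ l)) (Fin (2 ^ l)) ℂ, S.IsHermitian ∧ S * G * S = 1 ∧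
      ∀ i j, ‖S i j‖ ≤ 2 * (1 + A * sc n l * rho (pt l i) (pt l j)) ^ (-K) := by
  classical
  set N := A * sc n l with hN
  have hN0 : 0 < N := mul_pos (by linarith) (msc_pos n l)
  have hApos : 0 < A := by linarith
  have hc := hT.cpos
  set ε := CP / (1 + A * c) with hε
  have hε0 : 0 ≤ ε := by positivity
  set w : Fin (2 ^ l) → Fin (2 ^ l) → ℝ := fun i j => (1 + N * rho (pt l i) (pt l j)) ^ (-K) with hw
  have hbase : ∀ x y : E n, 0 < 1 + N * rho x y := by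
    intro x y
    have := mul_nonneg hN0.le (rho_nonneg x y); linarith
  have hwpos : ∀ i j, 0 < w i j := fun i j => Real.rpow_pos_of_pos (hbase _ _) _
  have hC1 : 0 < (4 : ℝ) ^ K * (2 * D) := by
    have : 0 < (4 : ℝ) ^ K := Real.rpow_pos_of_pos (by norm_num) _
    positivity
  have hconv : ∀ i k, ∑ j, w i j * w j k ≤ (4 ^ K * (2 * D)) * w i k := by
    intro i k
    have := mW_sum' hT.unit hA hK hD l (pt l i) (pt l k) (hT.unit _ _) (hT.unit _ _)
    rw [Finset.sum_range] at this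
    exact this
  have hGb : ∀ i j, ‖(G - 1) i j‖ ≤ ε * w i j := by
    intro i j
    by_cases hij : i = j
    · subst hij
      have : (G - 1) i i = 0 := by
        rw [Matrix.sub_apply, Matrix.one_apply_eq, hG1, sub_self]
      rw [this, norm_zero]
      exact mul_nonneg hε0 (hwpos i i).le
    · have h1 : (G - 1) i j = G i j := by
        rw [Matrix.sub_apply, Matrix.one_apply_ne hij, sub_zero]
      rw [h1]
      refine (hGd i j).trans ?_
      have hsep := hT.sep l i j i.2 j.2 (fun h => hij (Fin.ext h))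
      have h3 : 1 + A * c ≤ 1 + N * rho (pt l i) (pt l j) := by
        have : A * c ≤ A * (sc n l * rho (pt l i) (pt l j)) := mul_le_mul_of_nonneg_left hsep hApos.le
        rw [hN]; linarith
      have h4 : (1 + N * rho (pt l i) (pt l j)) ^ (-(K + 1)) =
          (1 + N * rho (pt l i) (pt l j))⁻¹ * w i j := by
        rw [hw]
        simp only
        rw [neg_add, Real.rpow_add (hbase _ _), Real.rpow_neg_one, mul_comm]
      rw [h4, hε]
      have h5 : (1 + N * rho (pt l i) (pt l j))⁻¹ ≤ (1 + A * c)⁻¹ :=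
        inv_anti₀ (by positivity) h3
      have h6 := mul_le_mul_of_nonneg_right h5 (hwpos i j).le
      have h7 := mul_le_mul_of_nonneg_left h6 hCP.le
      rw [div_eq_mul_inv]
      linarith
  obtain ⟨S, hSh, hSGS, hSb⟩ := matrix_invsqrt w hwpos _ hC1 hconv G hGh ε hε0 hε1 hGb
  refine ⟨S, hSh, hSGS, ?_⟩
  intro i j
  have h1 := hSb i j
  have h2 : w i j = (1 + N * rho (pt l i) (pt l j)) ^ (-K) := rfl
  rw [h2] at h1
  have hWp : 0 < (1 + N * rho (pt l i) (pt l j)) ^ (-K) := Real.rpow_pos_of_pos (hbase _ _) _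
  have h3 : 2 * ε * (1 + N * rho (pt l i) (pt l j)) ^ (-K) ≤
      (1 + N * rho (pt l i) (pt l j)) ^ (-K) := by
    nlinarith
  by_cases h : i = j
  · subst h
    have h4 : rho (pt l i) (pt l i) = 0 := by
      unfold rho; rw [minner_self (hT.unit _ _)]; simp
    rw [h4, mul_zero, add_zero, Real.one_rpow] at h1 h3 ⊢
    rw [Matrix.sub_apply, Matrix.one_apply_eq] at h1
    have h5 : ‖S i i‖ ≤ ‖S i i - 1‖ + ‖(1 : ℂ)‖ := by
      have := norm_add_le (S i i - 1) (1 : ℂ)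
      rwa [sub_add_cancel] at this
    rw [norm_one] at h5
    linarith
  · rw [Matrix.sub_apply, Matrix.one_apply_ne h, sub_zero] at h1
    linarith

lemma B23_integrable {n : ℕ} (hn : 1 ≤ n) {g : E n → ℝ} (hg : Continuous g) :
    Integrable g (sig n) := by
  obtain ⟨C, hC⟩ := (isCompact_sphere (0 : E n) 1).exists_bound_of_continuousOn hg.continuousOn
  apply Integrable.of_bound hg.aestronglyMeasurable C
  filter_upwards [sig_ae_norm hn] with ξ hξ
  exact hC ξ (by simpa using hξ)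

lemma B23_wcont {n : ℕ} {N K : ℝ} (hN : 0 ≤ N) (x : E n) :
    Continuous (fun ξ : E n => (1 + N * rho ξ x) ^ (-K)) := by
  refine Continuous.rpow_const ?_ ?_
  · exact continuous_const.add (continuous_const.mul (continuous_rho_left' x))
  · intro ξ
    left
    have := mul_nonneg hN (rho_nonneg ξ x)
    linarith

/-- powers of the scale -/
lemma B23_pow (n : ℕ) (hn : 1 ≤ n) {A : ℝ} (hA : 0 < A) (l : ℕ) :
    (A * sc n l) ^ ((n : ℝ) / 2) = A ^ ((n : ℝ) / 2) * (2 : ℝ) ^ ((l : ℝ) / 2) := by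
  have hn0 : (n : ℝ) ≠ 0 := by
    have : 0 < n := hn
    exact_mod_cast this.ne'
  rw [Real.mul_rpow hA.le (msc_pos n l).le]
  congr 1
  unfold sc
  rw [← Real.rpow_mul (by norm_num)]
  congr 1
  field_simp

/-- TARGET -/
theorem ortho_molecules (n : ℕ) (hn : 1 ≤ n) {H : Type} [NormedAddCommGroup H]
    [InnerProductSpace ℂ H] (M : HModel n H) (pt : ℕ → ℕ → E n) (c C : ℝ) (hT : TreeFam n pt c C)
    (K : ℝ) (hK : (n : ℝ) < K) :
    ∃ (A B : ℝ) (α : ℝ → ℝ) (a b : ℝ) (Ψ : ℕ → ℕ → H) (ψ : ℕ → ℕ → E n → ℂ), 0 < A ∧ 0 ≤ B ∧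
      Bump α a b ∧
      (∀ l i m j, i < 2 ^ l → j < 2 ^ m →
        inner ℂ (Ψ l i) (Ψ m j) = if l = m ∧ i = j then (1 : ℂ) else 0) ∧
      (∀ l i, Continuous (ψ l i)) ∧
      (∀ l i, i < 2 ^ l → ∀ z : E n, ‖z‖ < 1 → M.ev (Ψ l i) z = ψ l i z) ∧
      (∀ l i, i < 2 ^ l → ∀ ξ : E n, ‖ξ‖ = 1 → ∀ r : ℝ, 0 ≤ r → r ≤ 1 →
        ‖ψ l i ((r : ℂ) • ξ)‖ ≤ B * (2 : ℝ) ^ ((l : ℝ) / 2) * (1 + A * sc n l * rho ξ (pt l i)) ^ (-K)) ∧
      (∀ l m i j, l + 1 ≤ m → ∀ r : ℝ, 0 ≤ r → r ≤ 1 →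
        ∫ ξ, ψ l i ((r : ℂ) • ξ) * (starRingEnd ℂ) (ψ m j ((r : ℂ) • ξ)) ∂(sig n) = 0) ∧
      (∀ (h : H) (l i : ℕ), i < 2 ^ l → ‖(inner ℂ (Ψ l i) h : ℂ)‖ ≤
        B * (2 : ℝ) ^ (-((l : ℝ) / 2)) * gav n α (A * sc n l) K (M.ev h) (pt l i)) := by
  classical
  have hn0 : (0 : ℝ) < n := by
    have : 0 < n := hn
    exact_mod_cast this
  have hK0 : 0 ≤ K := by linarith
  have hcp := hT.cpos
  -- the numbers
  set δ : ℝ := (2 : ℝ) ^ (1 / (4 * (n : ℝ))) with hδ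
  set q : ℝ := (2 : ℝ) ^ (1 / (n : ℝ)) with hq
  have hδ1 : 1 < δ := Real.one_lt_rpow (by norm_num) (by positivity)
  have hδ0 : 0 < δ := by linarith
  have hδq : δ ≤ q := by
    apply Real.rpow_le_rpow_of_exponent_le (by norm_num)
    apply one_div_le_one_div_of_le hn0
    linarith
  have hscq : ∀ l m, l + 1 ≤ m → sc n l * q ≤ sc n m := by
    intro l m hlm
    rw [hq]; unfold sc
    rw [← Real.rpow_add (by norm_num)]
    apply Real.rpow_le_rpow_of_exponent_le (by norm_num)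
    rw [← add_div]
    apply div_le_div_of_nonneg_right _ hn0.le
    exact_mod_cast hlm
  have hα : Bump (mAl δ) 1 δ := mAl_bump hδ1
  -- the constants
  obtain ⟨D, hD0, hD⟩ := counting n hn pt c C hT K hK
  obtain ⟨cμ, N₁, hcμ, hN₁, hμl⟩ := B23_mu_lower n hn hδ1
  obtain ⟨B1, hB1, hdec1⟩ := kk_decay n hn (B23_sq δ) 1 δ (B23_sq_bump hδ1) (K + 1) (by linarith)
    1 one_pos
  obtain ⟨B2, hB2, hdec2⟩ := kk_decay n hn (mAl δ) 1 δ hα K hK0 1 one_pos
  obtain ⟨D2, hD2, hgav⟩ := gav_point n hn (mAl δ) 1 δ hα K hK0 1 one_pos 0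
  set CP : ℝ := B1 / cμ with hCP
  have hCP0 : 0 < CP := by positivity
  have h4K : 0 < (4 : ℝ) ^ K := Real.rpow_pos_of_pos (by norm_num) _
  set C₁ : ℝ := 4 ^ K * (2 * D) with hC₁
  have hC₁0 : 0 < C₁ := by positivity
  set A : ℝ := max 1 (max N₁ (2 * CP * (C₁ + 1) / c)) with hA
  have hA1 : 1 ≤ A := le_max_left _ _
  have hAN : N₁ ≤ A := (le_max_left _ _).trans (le_max_right _ _)
  have hAc : 2 * CP * (C₁ + 1) ≤ A * c := by
    have : 2 * CP * (C₁ + 1) / c ≤ A := (le_max_right _ _).trans (le_max_right _ _)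
    rwa [div_le_iff₀ hcp] at this
  have hA0 : 0 < A := by linarith
  have hNpos : ∀ l, 0 < A * sc n l := fun l => mul_pos hA0 (msc_pos n l)
  have hNA : ∀ l, A ≤ A * sc n l := fun l => le_mul_of_one_le_right hA0.le (msc_one n l)
  have hN1 : ∀ l, 1 ≤ A * sc n l := fun l => hA1.trans (hNA l)
  have h1Ac : 0 < 1 + A * c := by positivity
  have hε2 : CP / (1 + A * c) ≤ 1 / 2 := by
    rw [div_le_iff₀ h1Ac]
    have := mul_pos hCP0 hC₁0
    linarith
  have hε1 : CP / (1 + A * c) * C₁ ≤ 1 / 2 := by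
    rw [div_mul_eq_mul_div, div_le_iff₀ h1Ac]
    linarith
  have hbase : ∀ (l : ℕ) (x y : E n), 0 < 1 + A * sc n l * rho x y := by
    intro l x y
    have := mul_nonneg (hNpos l).le (rho_nonneg x y); linarith
  -- the vectors
  have hvec := fun (l i : ℕ) => exists_kkv n hn M (mAl δ) 1 δ hα (A * sc n l) (hNpos l) (pt l i)
  choose e he1 he2 using hvec
  -- the diagonal
  set μ : ℕ → ℝ := fun l => B23_mu n δ (A * sc n l) with hμ
  have hμlow : ∀ l, cμ * (A * sc n l) ^ (n : ℝ) ≤ μ l := fun l => hμl _ (hAN.trans (hNA l))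
  have hμpos : ∀ l, 0 < μ l := fun l =>
    lt_of_lt_of_le (mul_pos hcμ (Real.rpow_pos_of_pos (hNpos l) _)) (hμlow l)
  have hμC : ∀ l, (μ l : ℂ) ≠ 0 := fun l => by exact_mod_cast (hμpos l).ne'
  -- the matrices
  set G : (l : ℕ) → Matrix (Fin (2 ^ l)) (Fin (2 ^ l)) ℂ := fun l =>
    Matrix.of fun i j => (inner ℂ (e l i) (e l j) : ℂ) / (μ l : ℂ) with hG
  have hGS : ∀ l, ∃ S : Matrix (Fin (2 ^ l)) (Fin (2 ^ l)) ℂ, S.IsHermitian ∧ S * G l * S = 1 ∧
      ∀ i j, ‖S i j‖ ≤ 2 * (1 + A * sc n l * rho (pt l i) (pt l j)) ^ (-K) := by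
    intro l
    refine B23_matrix hT hA1 hK0 hD0 hCP0 hD l (G l) ?_ ?_ ?_ hε1 hε2
    · ext i j
      rw [Matrix.conjTranspose_apply, hG]
      simp only [Matrix.of_apply]
      rw [star_div₀]
      congr 1
      · exact inner_conj_symm _ _
      · exact Complex.conj_ofReal _
    · intro i
      rw [hG]
      simp only [Matrix.of_apply]
      rw [B23_gram_same M δ _ _ _ _ _ (he2 l i) (he2 l i), B23_diag n hδ1 (hNpos l) (hT.unit l i)]
      exact div_self (hμC l)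
    · intro i j
      rw [hG]
      simp only [Matrix.of_apply]
      rw [B23_gram_same M δ _ _ _ _ _ (he2 l i) (he2 l j), norm_div, Complex.norm_real,
        Real.norm_of_nonneg (hμpos l).le, div_le_iff₀ (hμpos l)]
      have h1 := hdec1 _ (hN1 l) (pt l j) (pt l i) (hT.unit l j) (hT.unit l i) 1 zero_le_one le_rfl
      rw [Complex.ofReal_one, one_smul] at h1
      refine h1.trans ?_
      have hp : 0 ≤ (1 + A * sc n l * rho (pt l i) (pt l j)) ^ (-(K + 1)) :=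
        Real.rpow_nonneg (hbase l _ _).le _
      have h2 := mul_le_mul_of_nonneg_left (hμlow l) (mul_nonneg hCP0.le hp)
      refine le_trans (le_of_eq ?_) h2
      rw [hCP]
      field_simp
  choose S hSh hSG hSb using hGS
  -- the coefficients
  set s : ℕ → ℝ := fun l => (Real.sqrt (μ l))⁻¹ with hs
  have hs0 : ∀ l, 0 < s l := fun l => inv_pos.2 (Real.sqrt_pos.2 (hμpos l))
  have hs2 : ∀ l, s l * s l * μ l = 1 := by
    intro l
    have h1 : Real.sqrt (μ l) * Real.sqrt (μ l) = μ l := Real.mul_self_sqrt (hμpos l).le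
    have h2 : Real.sqrt (μ l) ≠ 0 := (Real.sqrt_pos.2 (hμpos l)).ne'
    simp only [hs]
    nth_rewrite 3 [← h1]
    field_simp
  have hsb : ∀ l, s l ≤ (Real.sqrt cμ * (A ^ ((n : ℝ) / 2) * (2 : ℝ) ^ ((l : ℝ) / 2)))⁻¹ := by
    intro l
    simp only [hs]
    apply inv_anti₀
    · have := Real.sqrt_pos.2 hcμ
      positivity
    · rw [← B23_pow n hn hA0 l]
      apply Real.le_sqrt_of_sq_le
      rw [mul_pow, Real.sq_sqrt hcμ.le, ← Real.rpow_natCast, ← Real.rpow_mul (hNpos l).le]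
      have : (n : ℝ) / 2 * ((2 : ℕ) : ℝ) = n := by push_cast; ring
      rw [this]
      exact hμlow l
  set y : ℕ → ℕ → ℕ → ℂ := fun l i j =>
    if h : i < 2 ^ l ∧ j < 2 ^ l then (s l : ℂ) * S l ⟨j, h.2⟩ ⟨i, h.1⟩ else 0 with hy
  have hyb : ∀ l i j, i < 2 ^ l → j < 2 ^ l →
      ‖y l i j‖ ≤ (2 * s l) * (1 + A * sc n l * rho (pt l j) (pt l i)) ^ (-K) := by
    intro l i j hi hj
    simp only [hy]
    rw [dif_pos ⟨hi, hj⟩, norm_mul, Complex.norm_real, Real.norm_of_nonneg (hs0 l).le]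
    have := hSb l ⟨j, hj⟩ ⟨i, hi⟩
    have h2 := mul_le_mul_of_nonneg_left this (hs0 l).le
    refine h2.trans (le_of_eq ?_)
    simp only
    ring
  set Ψ : ℕ → ℕ → H := fun l i => ∑ j ∈ Finset.range (2 ^ l), y l i j • e l j with hΨ
  set ψ : ℕ → ℕ → E n → ℂ := fun l i z =>
    ∑ j ∈ Finset.range (2 ^ l), y l i j * kk n (mAl δ) (A * sc n l) (pt l j) z with hψ
  have hΨin : ∀ l i m j, (inner ℂ (Ψ l i) (Ψ m j) : ℂ) =
      ∑ a ∈ Finset.range (2 ^ l), ∑ b ∈ Finset.range (2 ^ m),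
        (starRingEnd ℂ) (y l i a) * y m j b * inner ℂ (e l a) (e m b) := by
    intro l i m j
    simp only [hΨ]
    rw [sum_inner]
    refine Finset.sum_congr rfl fun a _ => ?_
    rw [inner_sum]
    refine Finset.sum_congr rfl fun b _ => ?_
    rw [inner_smul_left, inner_smul_right]
    ring
  have hlm0 : ∀ l m, l + 1 ≤ m → δ * (A * sc n l) ≤ A * sc n m := by
    intro l m hlm
    have h1 := hscq l m hlm
    have h2 : δ * (A * sc n l) ≤ q * (A * sc n l) :=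
      mul_le_mul_of_nonneg_right hδq (hNpos l).le
    have h3 : A * (sc n l * q) ≤ A * sc n m := mul_le_mul_of_nonneg_left h1 hA0.le
    linarith
  set B : ℝ := 2 * B2 * C₁ * A ^ ((n : ℝ) / 2) / Real.sqrt cμ +
    2 * D2 * C₁ / (Real.sqrt cμ * A ^ ((n : ℝ) / 2)) with hB
  have hsc : 0 < Real.sqrt cμ := Real.sqrt_pos.2 hcμ
  have hAn : 0 < A ^ ((n : ℝ) / 2) := Real.rpow_pos_of_pos hA0 _
  have hBa : 0 ≤ 2 * B2 * C₁ * A ^ ((n : ℝ) / 2) / Real.sqrt cμ := by positivity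
  have hBb : 0 ≤ 2 * D2 * C₁ / (Real.sqrt cμ * A ^ ((n : ℝ) / 2)) := by positivity
  refine ⟨A, B, mAl δ, 1, δ, Ψ, ψ, hA0, by positivity, hα, ?_, ?_, ?_, ?_, ?_, ?_⟩
  · -- orthonormality
    intro l i m j hi hj
    rw [hΨin]
    by_cases hlm : l = m
    · subst hlm
      have h1 : ∑ a ∈ Finset.range (2 ^ l), ∑ b ∈ Finset.range (2 ^ l),
          (starRingEnd ℂ) (y l i a) * y l j b * inner ℂ (e l a) (e l b) =
          (S l * G l * S l) ⟨i, hi⟩ ⟨j, hj⟩ := by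
        rw [Finset.sum_range]
        rw [Matrix.mul_assoc, Matrix.mul_apply]
        refine Finset.sum_congr rfl fun a _ => ?_
        rw [Finset.sum_range, Matrix.mul_apply, Finset.mul_sum]
        refine Finset.sum_congr rfl fun b _ => ?_
        simp only [hy]
        rw [dif_pos ⟨hi, a.2⟩, dif_pos ⟨hj, b.2⟩]
        have h2 : (starRingEnd ℂ) (S l a ⟨i, hi⟩) = S l ⟨i, hi⟩ a := by
          have := congrFun (congrFun (hSh l) ⟨i, hi⟩) a
          rw [Matrix.conjTranspose_apply] at this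
          exact this
        have h3 : (inner ℂ (e l a) (e l b) : ℂ) = μ l * G l a b := by
          rw [hG]
          simp only [Matrix.of_apply]
          field_simp [hμC l]
        rw [map_mul, Complex.conj_ofReal, h3]
        have h4 : (s l : ℂ) * (s l : ℂ) * (μ l : ℂ) = 1 := by exact_mod_cast hs2 l
        have h5 : (starRingEnd ℂ) (S l ⟨a, a.2⟩ ⟨i, hi⟩) = S l ⟨i, hi⟩ a := h2
        rw [h5]
        linear_combination (S l ⟨i, hi⟩ a * (G l a b * S l ⟨b, b.2⟩ ⟨j, hj⟩)) * h4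
      rw [h1, hSG, Matrix.one_apply]
      simp only [Fin.mk.injEq, true_and]
    · rw [if_neg (fun h => hlm h.1)]
      apply Finset.sum_eq_zero
      intro a _
      apply Finset.sum_eq_zero
      intro b _
      have h1 : (inner ℂ (e l a) (e m b) : ℂ) = 0 := by
        rcases lt_or_gt_of_ne hlm with h | h
        · exact B23_gram_ne M hδ1 (hNpos l) (hNpos m) (hlm0 l m h) _ _ _ _ (he2 l a) (he2 m b)
        · rw [← inner_conj_symm, B23_gram_ne M hδ1 (hNpos m) (hNpos l) (hlm0 m l h) _ _ _ _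
            (he2 m b) (he2 l a), map_zero]
      rw [h1, mul_zero]
  · -- continuity
    intro l i
    simp only [hψ]
    refine continuous_finsetSum _ fun j _ => continuous_const.mul ?_
    have := kk_cont n (mAl δ) 1 δ hα (A * sc n l) (hNpos l)
    exact this.comp (Continuous.prodMk continuous_const continuous_id)
  · -- evaluation
    intro l i _ z hz
    simp only [hΨ, hψ]
    rw [map_sum, Finset.sum_apply]
    refine Finset.sum_congr rfl fun j _ => ?_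
    rw [map_smul, Pi.smul_apply, smul_eq_mul, he1 l j z hz]
  · -- decay
    intro l i hi ξ hξ r hr0 hr1
    set N := A * sc n l with hN
    have hNp : 0 < N := hNpos l
    have hterm : ∀ j ∈ Finset.range (2 ^ l),
        ‖y l i j * kk n (mAl δ) N (pt l j) ((r : ℂ) • ξ)‖ ≤
          (2 * s l * (B2 * N ^ (n : ℝ))) * ((1 + N * rho ξ (pt l j)) ^ (-K) *
            (1 + N * rho (pt l j) (pt l i)) ^ (-K)) := by
      intro j hj
      rw [Finset.mem_range] at hj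
      rw [norm_mul]
      have h1 := hdec2 N (hN1 l) (pt l j) ξ (hT.unit l j) hξ r hr0 hr1
      have h2 := hyb l i j hi hj
      have p1 : 0 ≤ (1 + N * rho (pt l j) (pt l i)) ^ (-K) := Real.rpow_nonneg (hbase l _ _).le _
      have p2 : 0 ≤ 2 * s l := by have := hs0 l; positivity
      calc ‖y l i j‖ * ‖kk n (mAl δ) N (pt l j) ((r : ℂ) • ξ)‖
          ≤ ((2 * s l) * (1 + N * rho (pt l j) (pt l i)) ^ (-K)) *
            (B2 * N ^ (n : ℝ) * (1 + N * rho ξ (pt l j)) ^ (-K)) :=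
            mul_le_mul h2 h1 (norm_nonneg _) (mul_nonneg p2 p1)
        _ = _ := by ring
    have hsum := mW_sum' hT.unit hA1 hK0 hD l ξ (pt l i) hξ (hT.unit _ _)
    have pW : 0 ≤ (1 + N * rho ξ (pt l i)) ^ (-K) := Real.rpow_nonneg (hbase l _ _).le _
    have pN : 0 ≤ N ^ (n : ℝ) := Real.rpow_nonneg hNp.le _
    have hcoef : 0 ≤ 2 * s l * (B2 * N ^ (n : ℝ)) := by have := hs0 l; positivity
    have hkey : 2 * s l * (B2 * N ^ (n : ℝ)) * C₁ ≤ B * (2 : ℝ) ^ ((l : ℝ) / 2) := by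
      have hX : 0 < A ^ ((n : ℝ) / 2) * (2 : ℝ) ^ ((l : ℝ) / 2) := by positivity
      have hNn : N ^ (n : ℝ) = (A ^ ((n : ℝ) / 2) * (2 : ℝ) ^ ((l : ℝ) / 2)) *
          (A ^ ((n : ℝ) / 2) * (2 : ℝ) ^ ((l : ℝ) / 2)) := by
        rw [← B23_pow n hn hA0 l, ← Real.rpow_add hNp]
        congr 1; ring
      have h2 : s l * N ^ (n : ℝ) ≤ A ^ ((n : ℝ) / 2) * (2 : ℝ) ^ ((l : ℝ) / 2) / Real.sqrt cμ := by
        rw [hNn]
        have h3 := mul_le_mul_of_nonneg_right (hsb l) (mul_nonneg hX.le hX.le)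
        refine h3.trans (le_of_eq ?_)
        field_simp
      have h3 : 0 ≤ 2 * B2 * C₁ := by positivity
      have h4 := mul_le_mul_of_nonneg_left h2 h3
      have h5 : 0 ≤ 2 * D2 * C₁ / (Real.sqrt cμ * A ^ ((n : ℝ) / 2)) * (2 : ℝ) ^ ((l : ℝ) / 2) := by
        positivity
      calc 2 * s l * (B2 * N ^ (n : ℝ)) * C₁ = 2 * B2 * C₁ * (s l * N ^ (n : ℝ)) := by ring
        _ ≤ 2 * B2 * C₁ * (A ^ ((n : ℝ) / 2) * (2 : ℝ) ^ ((l : ℝ) / 2) / Real.sqrt cμ) := h4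
        _ = 2 * B2 * C₁ * A ^ ((n : ℝ) / 2) / Real.sqrt cμ * (2 : ℝ) ^ ((l : ℝ) / 2) := by ring
        _ ≤ B * (2 : ℝ) ^ ((l : ℝ) / 2) := by rw [hB, add_mul]; linarith
    calc ‖ψ l i ((r : ℂ) • ξ)‖
        ≤ ∑ j ∈ Finset.range (2 ^ l), (2 * s l * (B2 * N ^ (n : ℝ))) *
            ((1 + N * rho ξ (pt l j)) ^ (-K) * (1 + N * rho (pt l j) (pt l i)) ^ (-K)) :=
          norm_sum_le_of_le _ hterm
      _ = (2 * s l * (B2 * N ^ (n : ℝ))) * ∑ j ∈ Finset.range (2 ^ l),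
            ((1 + N * rho ξ (pt l j)) ^ (-K) * (1 + N * rho (pt l j) (pt l i)) ^ (-K)) := by
          rw [← Finset.mul_sum]
      _ ≤ (2 * s l * (B2 * N ^ (n : ℝ))) * (C₁ * (1 + N * rho ξ (pt l i)) ^ (-K)) :=
          mul_le_mul_of_nonneg_left hsum hcoef
      _ = (2 * s l * (B2 * N ^ (n : ℝ)) * C₁) * (1 + N * rho ξ (pt l i)) ^ (-K) := by ring
      _ ≤ (B * (2 : ℝ) ^ ((l : ℝ) / 2)) * (1 + N * rho ξ (pt l i)) ^ (-K) :=
          mul_le_mul_of_nonneg_right hkey pW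
  · -- orthogonality of the levels
    intro l m i j hlm r _ _
    refine band_orth n hn 1 δ (A * sc n l) (A * sc n m) (ψ l i) (ψ m j) ?_ ?_ ?_ r
    · exact band_sum n 1 δ (A * sc n l) (Finset.range (2 ^ l)) (fun j => y l i j)
        (fun j => kk n (mAl δ) (A * sc n l) (pt l j))
        (fun j _ => band_kk n (mAl δ) 1 δ hα (A * sc n l) (hNpos l) (pt l j))
    · exact band_sum n 1 δ (A * sc n m) (Finset.range (2 ^ m)) (fun i => y m j i)
        (fun i => kk n (mAl δ) (A * sc n m) (pt m i))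
        (fun i _ => band_kk n (mAl δ) 1 δ hα (A * sc n m) (hNpos m) (pt m i))
    · rw [one_mul]
      exact hlm0 l m hlm
  · -- pairing
    intro h l i hi
    set N := A * sc n l with hN
    have hNp : 0 < N := hNpos l
    set g := M.ev h with hg
    have hgd : DifferentiableOn ℂ g (Metric.ball 0 1) := M.hol h
    have hcutc : Continuous (cut (mAl δ) N g) := cut_cont n (mAl δ) 1 δ hα N hNp g hgd
    have h1 : (inner ℂ (Ψ l i) h : ℂ) =
        ∑ j ∈ Finset.range (2 ^ l), (starRingEnd ℂ) (y l i j) * cut (mAl δ) N g (pt l j) := by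
      simp only [hΨ]
      rw [sum_inner]
      refine Finset.sum_congr rfl fun j _ => ?_
      rw [inner_smul_left, he2 l j h]
    have hint : ∀ x : E n, Integrable (fun ξ => ‖cut (mAl δ) N g ξ‖ * (1 + N * rho ξ x) ^ (-K))
        (sig n) := fun x => B23_integrable hn (hcutc.norm.mul (B23_wcont hNp.le x))
    have hterm : ∀ j ∈ Finset.range (2 ^ l),
        ‖(starRingEnd ℂ) (y l i j) * cut (mAl δ) N g (pt l j)‖ ≤
          (2 * s l * D2 * N ^ (n : ℝ)) * ∫ ξ, ‖cut (mAl δ) N g ξ‖ *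
            ((1 + N * rho ξ (pt l j)) ^ (-K) * (1 + N * rho (pt l j) (pt l i)) ^ (-K)) ∂(sig n) := by
      intro j hj
      rw [Finset.mem_range] at hj
      rw [norm_mul, RCLike.norm_conj]
      have h2 := hyb l i j hi hj
      have h3 := hgav N (hN1 l) g hgd (pt l j) (pt l j) (hT.unit l j) (hT.unit l j) (by
        have h4 : rho (pt l j) (pt l j) = 0 := by
          unfold rho; rw [minner_self (hT.unit _ _)]; simp
        rw [h4, mul_zero])
      have p1 : 0 ≤ (1 + N * rho (pt l j) (pt l i)) ^ (-K) := Real.rpow_nonneg (hbase l _ _).le _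
      have p2 : 0 ≤ 2 * s l := by have := hs0 l; positivity
      have h5 : ∫ ξ, ‖cut (mAl δ) N g ξ‖ *
            ((1 + N * rho ξ (pt l j)) ^ (-K) * (1 + N * rho (pt l j) (pt l i)) ^ (-K)) ∂(sig n) =
          (∫ ξ, ‖cut (mAl δ) N g ξ‖ * (1 + N * rho ξ (pt l j)) ^ (-K) ∂(sig n)) *
            (1 + N * rho (pt l j) (pt l i)) ^ (-K) := by
        rw [← integral_mul_const]
        congr 1
        funext ξ
        ring
      rw [h5]
      calc ‖y l i j‖ * ‖cut (mAl δ) N g (pt l j)‖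
          ≤ ((2 * s l) * (1 + N * rho (pt l j) (pt l i)) ^ (-K)) *
            (D2 * gav n (mAl δ) N K g (pt l j)) :=
            mul_le_mul h2 h3 (norm_nonneg _) (mul_nonneg p2 p1)
        _ = _ := by unfold gav; ring
    have pN : 0 ≤ N ^ (n : ℝ) := Real.rpow_nonneg hNp.le _
    have hcoef : 0 ≤ 2 * s l * D2 * N ^ (n : ℝ) := by have := hs0 l; positivity
    have hsumint : ∑ j ∈ Finset.range (2 ^ l), ∫ ξ, ‖cut (mAl δ) N g ξ‖ *
            ((1 + N * rho ξ (pt l j)) ^ (-K) * (1 + N * rho (pt l j) (pt l i)) ^ (-K)) ∂(sig n) ≤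
          C₁ * ∫ ξ, ‖cut (mAl δ) N g ξ‖ * (1 + N * rho ξ (pt l i)) ^ (-K) ∂(sig n) := by
      have hint2 : ∀ j ∈ Finset.range (2 ^ l), Integrable (fun ξ => ‖cut (mAl δ) N g ξ‖ *
            ((1 + N * rho ξ (pt l j)) ^ (-K) * (1 + N * rho (pt l j) (pt l i)) ^ (-K))) (sig n) := by
        intro j _
        refine B23_integrable hn (hcutc.norm.mul ((B23_wcont hNp.le _).mul continuous_const))
      rw [← integral_finsetSum _ hint2, ← integral_const_mul]
      refine integral_mono_ae (integrable_finsetSum _ hint2) ((hint _).const_mul _) ?_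
      filter_upwards [sig_ae_norm hn] with ξ hξ
      rw [← Finset.mul_sum]
      have hsum := mW_sum' hT.unit hA1 hK0 hD l ξ (pt l i) hξ (hT.unit _ _)
      have h6 := mul_le_mul_of_nonneg_left hsum (norm_nonneg (cut (mAl δ) N g ξ))
      refine h6.trans (le_of_eq ?_)
      ring
    have hI0 : 0 ≤ ∫ ξ, ‖cut (mAl δ) N g ξ‖ * (1 + N * rho ξ (pt l i)) ^ (-K) ∂(sig n) :=
      integral_nonneg fun ξ => mul_nonneg (norm_nonneg _) (Real.rpow_nonneg (hbase l _ _).le _)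
    have hkey : 2 * s l * D2 * C₁ ≤ B * (2 : ℝ) ^ (-((l : ℝ) / 2)) := by
      have h2 : s l ≤ (Real.sqrt cμ * A ^ ((n : ℝ) / 2))⁻¹ * (2 : ℝ) ^ (-((l : ℝ) / 2)) := by
        refine (hsb l).trans (le_of_eq ?_)
        rw [← mul_assoc, mul_inv, Real.rpow_neg (by norm_num)]
      have h3 : 0 ≤ 2 * D2 * C₁ := by positivity
      have h4 := mul_le_mul_of_nonneg_left h2 h3
      have h5 : 0 ≤ 2 * B2 * C₁ * A ^ ((n : ℝ) / 2) / Real.sqrt cμ *
          (2 : ℝ) ^ (-((l : ℝ) / 2)) := by positivity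
      calc 2 * s l * D2 * C₁ = 2 * D2 * C₁ * s l := by ring
        _ ≤ 2 * D2 * C₁ * ((Real.sqrt cμ * A ^ ((n : ℝ) / 2))⁻¹ * (2 : ℝ) ^ (-((l : ℝ) / 2))) := h4
        _ = 2 * D2 * C₁ / (Real.sqrt cμ * A ^ ((n : ℝ) / 2)) * (2 : ℝ) ^ (-((l : ℝ) / 2)) := by
            rw [div_eq_mul_inv]; ring
        _ ≤ B * (2 : ℝ) ^ (-((l : ℝ) / 2)) := by rw [hB, add_mul]; linarith
    rw [h1]
    calc ‖∑ j ∈ Finset.range (2 ^ l), (starRingEnd ℂ) (y l i j) * cut (mAl δ) N g (pt l j)‖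
        ≤ ∑ j ∈ Finset.range (2 ^ l), (2 * s l * D2 * N ^ (n : ℝ)) * ∫ ξ, ‖cut (mAl δ) N g ξ‖ *
            ((1 + N * rho ξ (pt l j)) ^ (-K) * (1 + N * rho (pt l j) (pt l i)) ^ (-K)) ∂(sig n) :=
          norm_sum_le_of_le _ hterm
      _ = (2 * s l * D2 * N ^ (n : ℝ)) * ∑ j ∈ Finset.range (2 ^ l), ∫ ξ, ‖cut (mAl δ) N g ξ‖ *
            ((1 + N * rho ξ (pt l j)) ^ (-K) * (1 + N * rho (pt l j) (pt l i)) ^ (-K)) ∂(sig n) := by
          rw [← Finset.mul_sum]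
      _ ≤ (2 * s l * D2 * N ^ (n : ℝ)) * (C₁ * ∫ ξ, ‖cut (mAl δ) N g ξ‖ *
            (1 + N * rho ξ (pt l i)) ^ (-K) ∂(sig n)) :=
          mul_le_mul_of_nonneg_left hsumint hcoef
      _ = (2 * s l * D2 * C₁) * gav n (mAl δ) N K g (pt l i) := by unfold gav; ring
      _ ≤ (B * (2 : ℝ) ^ (-((l : ℝ) / 2))) * gav n (mAl δ) N K g (pt l i) := by
          refine mul_le_mul_of_nonneg_right hkey ?_
          unfold gav
          exact mul_nonneg pN hI0

end Pool.Agent.HpBall2
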