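import Mathlib
import Pool.Agent.HpBall2.Defs
import Pool.Agent.HpBall.Geom
import Pool.Agent.HpBall.Sphere
import Pool.Agent.HpBall2.Synth
import Pool.Agent.HpBall.Tree
import Pool.Agent.HpBall2.Mol
import Pool.Agent.HpBall2.AnaGav
import Pool.Agent.HpBall2.NFp
import Pool.Agent.HpBall2.Basic

set_option autoImplicit false

open MeasureTheory Complex
open scoped ENNReal NNReal

namespace Pool.Agent.HpBall2

open Pool.Agent.HpBall

/-- the finite set of nodes of level less than L -/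
def B24_s (L : ℕ) : Finset Ix :=
  (Finset.range L).sigma fun l => (Finset.univ : Finset (Fin (2 ^ l)))

theorem B24_s_tendsto : Filter.Tendsto B24_s Filter.atTop Filter.atTop := by
  apply Filter.tendsto_atTop_finset_of_monotone
  · intro a b hab x hx
    simp only [B24_s, Finset.mem_sigma, Finset.mem_range, Finset.mem_univ, and_true] at hx ⊢
    omega
  · intro x
    refine ⟨x.1 + 1, ?_⟩
    simp [B24_s]

theorem B24_sum {X : Type} [AddCommMonoid X] (f : Ix → X) (g : ℕ → ℕ → X)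
    (hfg : ∀ κ : Ix, f κ = g κ.1 κ.2) (L : ℕ) :
    ∑ κ ∈ B24_s L, f κ = ∑ l ∈ Finset.range L, ∑ i ∈ Finset.range (2 ^ l), g l i := by
  unfold B24_s
  rw [Finset.sum_sigma]
  refine Finset.sum_congr rfl fun l _ => ?_
  rw [Finset.sum_range]
  exact Finset.sum_congr rfl fun i _ => hfg ⟨l, i⟩

/-- TARGET -/
theorem mol_op (n : ℕ) (hn : 1 ≤ n) (p : ℝ) (hp : 0 < p) (hp1 : p ≤ 1) {H : Type}
    [NormedAddCommGroup H] [InnerProductSpace ℂ H] [CompleteSpace H] (M : HModel n H) :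
    ∃ (U : KS →L[ℂ] H) (D : ℝ≥0∞), D ≠ ⊤ ∧ (ContinuousLinearMap.adjoint U).comp U = 1 ∧
      (∀ y : KS, NF n p (M.ev (U y)) ≤ D * NK p (⇑y)) ∧
      ∀ h : H, NK p (⇑(ContinuousLinearMap.adjoint U h)) ≤ D * NF n p (M.ev h) := by
  classical
  obtain ⟨pt, c, C, hT⟩ := exists_tree n hn
  obtain ⟨K₁, hK₁, hsyn⟩ := synth n hn p hp (Or.inl hp1)
  obtain ⟨K₂, hK₂, hana⟩ := analysis_gav n hn p hp (Or.inl hp1)
  have hK : (n : ℝ) < max K₁ K₂ := lt_of_lt_of_le hK₁ (le_max_left _ _)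
  obtain ⟨A, B, α, a, b, Ψ, ψ, hA, hB, hbump, horth, hψc, hevψ, hψbd, hψorth, hinner⟩ :=
    ortho_molecules n hn M pt c C hT (max K₁ K₂) hK
  obtain ⟨D1, hD1, hsyn⟩ := hsyn _ (le_max_left K₁ K₂) pt c C hT A hA B 1
  obtain ⟨D2, hD2, hana⟩ := hana _ (le_max_right K₁ K₂) pt c C hT A hA α a b hbump
  -- the orthonormal family
  set v : Ix → H := fun κ => Ψ κ.1 κ.2 with hv
  have hon : Orthonormal ℂ v := by
    rw [orthonormal_iff_ite]
    intro κ κ'
    simp only [hv]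
    rw [horth κ.1 κ.2 κ'.1 κ'.2 κ.2.2 κ'.2.2]
    congr 1
    apply propext
    constructor
    · rintro ⟨h1, h2⟩
      obtain ⟨l, i⟩ := κ
      obtain ⟨l', i'⟩ := κ'
      simp only at h1 h2
      subst h1
      have : i = i' := Fin.ext h2
      rw [this]
    · rintro rfl
      exact ⟨rfl, rfl⟩
  have hV := hon.orthogonalFamily
  set U0 : KS →ₗᵢ[ℂ] H := hV.linearIsometry with hU0
  set U : KS →L[ℂ] H := U0.toContinuousLinearMap with hU
  have hUsum : ∀ y : KS, HasSum (fun κ => y κ • v κ) (U y) := by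
    intro y
    exact hV.hasSum_linearIsometry y
  have hUsingle : ∀ κ : Ix, U (lp.single 2 κ (1 : ℂ)) = v κ := by
    intro κ
    have := hV.linearIsometry_apply_single (i := κ) (1 : ℂ)
    rw [hU, hU0]
    refine this.trans ?_
    simp
  have hadj : ∀ (h : H) (κ : Ix), (ContinuousLinearMap.adjoint U h) κ = inner ℂ (v κ) h := by
    intro h κ
    have e1 : inner ℂ (lp.single 2 κ (1 : ℂ) : KS) (ContinuousLinearMap.adjoint U h)
        = inner ℂ (v κ) h := by
      rw [ContinuousLinearMap.adjoint_inner_right, hUsingle]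
    rw [lp.inner_single_left] at e1
    rw [← e1]
    simp
  refine ⟨U, ENNReal.ofReal D1 + ENNReal.ofReal (B ^ p * D2),
    ENNReal.add_ne_top.2 ⟨ENNReal.ofReal_ne_top, ENNReal.ofReal_ne_top⟩, ?_, ?_, ?_⟩
  · have := (ContinuousLinearMap.norm_map_iff_adjoint_comp_self U).1
      (fun x => U0.norm_map x)
    exact this
  · -- synthesis
    intro y
    obtain ⟨hN0, hNt, hNc⟩ := pfun_lsc p hp (fun h : H => NF n p (M.ev h))
      (NF_pfun n hn p hp hp1 M)
    have hlim : Filter.Tendsto (fun L : ℕ => NF n p (M.ev (∑ κ ∈ B24_s L, y κ • v κ)))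
        Filter.atTop (nhds (NF n p (M.ev (U y)))) := by
      have h1 : Filter.Tendsto (fun L : ℕ => ∑ κ ∈ B24_s L, y κ • v κ) Filter.atTop
          (nhds (U y)) := by
        have h2 := hUsum y
        rw [HasSum, SummationFilter.unconditional_filter] at h2
        exact h2.comp B24_s_tendsto
      exact (hNc.tendsto (U y)).comp h1
    refine le_of_tendsto' hlim fun L => ?_
    have hsq : ∀ l : ℕ, (((2 : ℝ) ^ ((l : ℝ) / 2) : ℝ) : ℂ) *
        (((2 : ℝ) ^ (-((l : ℝ) / 2)) : ℝ) : ℂ) = 1 := by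
      intro l
      rw [← Complex.ofReal_mul, ← Real.rpow_add (by norm_num), add_neg_cancel, Real.rpow_zero,
        Complex.ofReal_one]
    have hev : ∀ z : E n, ‖z‖ < 1 → M.ev (∑ κ ∈ B24_s L, y κ • v κ) z =
        ∑ l ∈ Finset.range L, ∑ i ∈ Finset.range (2 ^ l),
          arr (⇑y) l i * ((((2 : ℝ) ^ (-((l : ℝ) / 2)) : ℝ) : ℂ) * ψ l i z) := by
      intro z hz
      rw [map_sum, Finset.sum_apply]
      apply B24_sum
      intro κ
      rw [map_smul, Pi.smul_apply, smul_eq_mul]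
      simp only [hv]
      rw [hevψ κ.1 κ.2 κ.2.2 z hz]
      unfold arr
      rw [dif_pos κ.2.2]
      have := hsq κ.1
      calc y κ * ψ κ.1 κ.2 z = ((((2 : ℝ) ^ (((κ.1 : ℕ) : ℝ) / 2) : ℝ) : ℂ) *
          (((2 : ℝ) ^ (-(((κ.1 : ℕ) : ℝ) / 2)) : ℝ) : ℂ)) * (y κ * ψ κ.1 κ.2 z) := by
            rw [this, one_mul]
        _ = _ := by ring
    have hb : ∀ r : ℝ, 0 ≤ r → r < 1 →
        ∫⁻ ξ, ENNReal.ofReal (‖M.ev (∑ κ ∈ B24_s L, y κ • v κ) ((r : ℂ) • ξ)‖ ^ p) ∂(sig n) ≤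
        ENNReal.ofReal (D1 * fnorm p L (arr (⇑y))) := by
      intro r hr0 hr1
      refine le_trans (le_of_eq ?_) (hsyn
        (fun l i z => (((2 : ℝ) ^ (-((l : ℝ) / 2)) : ℝ) : ℂ) * ψ l i z) ?_ ?_ ?_
        (arr (⇑y)) L r hr0 hr1.le)
      · apply lintegral_congr_ae
        filter_upwards [sig_ae_norm hn] with ξ hξ
        rw [hev]
        rw [norm_smul, hξ, mul_one, Complex.norm_real, Real.norm_of_nonneg hr0]
        exact hr1
      · intro l i
        exact continuous_const.mul (hψc l i)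
      · intro l i hi ξ hξ r hr0 hr1
        rw [norm_mul, Complex.norm_real, Real.norm_of_nonneg (by positivity)]
        calc (2 : ℝ) ^ (-((l : ℝ) / 2)) * ‖ψ l i ((r : ℂ) • ξ)‖
            ≤ (2 : ℝ) ^ (-((l : ℝ) / 2)) * (B * (2 : ℝ) ^ ((l : ℝ) / 2) *
              (1 + A * sc n l * rho ξ (pt l i)) ^ (-(max K₁ K₂))) :=
              mul_le_mul_of_nonneg_left (hψbd l i hi ξ hξ r hr0 hr1) (by positivity)
          _ = ((2 : ℝ) ^ (-((l : ℝ) / 2)) * (2 : ℝ) ^ ((l : ℝ) / 2)) *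
              (B * (1 + A * sc n l * rho ξ (pt l i)) ^ (-(max K₁ K₂))) := by ring
          _ = B * (1 + A * sc n l * rho ξ (pt l i)) ^ (-(max K₁ K₂)) := by
              rw [← Real.rpow_add (by norm_num), neg_add_cancel, Real.rpow_zero, one_mul]
      · intro l m i j hlm r hr0 hr1
        have h0 := hψorth l m i j hlm r hr0 hr1
        have : (fun ξ : E n => ((((2 : ℝ) ^ (-((l : ℝ) / 2)) : ℝ) : ℂ) * ψ l i ((r : ℂ) • ξ)) *
            (starRingEnd ℂ) ((((2 : ℝ) ^ (-((m : ℝ) / 2)) : ℝ) : ℂ) * ψ m j ((r : ℂ) • ξ))) =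
            fun ξ : E n => ((((2 : ℝ) ^ (-((l : ℝ) / 2)) : ℝ) : ℂ) *
              (((2 : ℝ) ^ (-((m : ℝ) / 2)) : ℝ) : ℂ)) * (ψ l i ((r : ℂ) • ξ) *
              (starRingEnd ℂ) (ψ m j ((r : ℂ) • ξ))) := by
          funext ξ
          rw [map_mul, Complex.conj_ofReal]
          ring
        show ∫ ξ, ((((2 : ℝ) ^ (-((l : ℝ) / 2)) : ℝ) : ℂ) * ψ l i ((r : ℂ) • ξ)) *
            (starRingEnd ℂ) ((((2 : ℝ) ^ (-((m : ℝ) / 2)) : ℝ) : ℂ) * ψ m j ((r : ℂ) • ξ))
            ∂(sig n) = 0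
        rw [this, integral_const_mul, h0, mul_zero]
    calc NF n p (M.ev (∑ κ ∈ B24_s L, y κ • v κ))
        ≤ ENNReal.ofReal (D1 * fnorm p L (arr (⇑y))) := by
          unfold NF
          exact iSup₂_le fun r hr => hb r hr.1 hr.2
      _ = ENNReal.ofReal D1 * ENNReal.ofReal (fnorm p L (arr (⇑y))) :=
          ENNReal.ofReal_mul hD1.le
      _ ≤ ENNReal.ofReal D1 * NK p (⇑y) := by
          gcongr
          exact le_iSup (fun L : ℕ => ENNReal.ofReal (fnorm p L (arr (⇑y)))) L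
      _ ≤ _ := by
          gcongr
          exact le_self_add
  · -- analysis
    intro h
    obtain ⟨hN0, hNt, hNc⟩ := pfun_lsc p hp (fun h : H => NF n p (M.ev h))
      (NF_pfun n hn p hp hp1 M)
    have hfin : NF n p (M.ev h) ≠ ⊤ := hNt h
    have hHB : HB n p (NF n p (M.ev h)).toReal (M.ev h) := by
      refine ⟨M.hol h, fun r hr0 hr1 => ?_⟩
      rw [ENNReal.ofReal_toReal hfin]
      unfold NF
      exact le_iSup₂_of_le r ⟨hr0, hr1⟩ le_rfl
    obtain ⟨hf1, hf2, hf3, hf4⟩ := fnorm_basic p hp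
    unfold NK
    refine iSup_le fun L => ?_
    have h1 : fnorm p L (arr (⇑(ContinuousLinearMap.adjoint U h))) ≤
        fnorm p L (fun l i => (B : ℂ) *
          ((gav n α (A * sc n l) (max K₁ K₂) (M.ev h) (pt l i) : ℝ) : ℂ)) := by
      apply hf1
      intro l hl i hi
      unfold arr
      rw [dif_pos hi, hadj, norm_mul, norm_mul, Complex.norm_real, Complex.norm_real,
        Complex.norm_real, Real.norm_of_nonneg (by positivity), Real.norm_of_nonneg hB]
      have h2 := hinner h l i hi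
      simp only [hv]
      calc (2 : ℝ) ^ ((l : ℝ) / 2) * ‖(inner ℂ (Ψ l i) h : ℂ)‖
          ≤ (2 : ℝ) ^ ((l : ℝ) / 2) * (B * (2 : ℝ) ^ (-((l : ℝ) / 2)) *
            gav n α (A * sc n l) (max K₁ K₂) (M.ev h) (pt l i)) :=
            mul_le_mul_of_nonneg_left h2 (by positivity)
        _ = ((2 : ℝ) ^ ((l : ℝ) / 2) * (2 : ℝ) ^ (-((l : ℝ) / 2))) * (B *
            gav n α (A * sc n l) (max K₁ K₂) (M.ev h) (pt l i)) := by ring
        _ = B * gav n α (A * sc n l) (max K₁ K₂) (M.ev h) (pt l i) := by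
            rw [← Real.rpow_add (by norm_num), add_neg_cancel, Real.rpow_zero, one_mul]
        _ ≤ B * ‖gav n α (A * sc n l) (max K₁ K₂) (M.ev h) (pt l i)‖ :=
            mul_le_mul_of_nonneg_left (Real.le_norm_self _) hB
    have h3 : fnorm p L (fun l i => (B : ℂ) *
          ((gav n α (A * sc n l) (max K₁ K₂) (M.ev h) (pt l i) : ℝ) : ℂ)) ≤
        B ^ p * (D2 * (NF n p (M.ev h)).toReal) := by
      rw [hf3 L (fun l i => ((gav n α (A * sc n l) (max K₁ K₂) (M.ev h) (pt l i) : ℝ) : ℂ))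
        (B : ℂ), Complex.norm_real, Real.norm_of_nonneg hB]
      exact mul_le_mul_of_nonneg_left (hana (M.ev h) _ ENNReal.toReal_nonneg hHB L)
        (by positivity)
    calc ENNReal.ofReal (fnorm p L (arr (⇑(ContinuousLinearMap.adjoint U h))))
        ≤ ENNReal.ofReal (B ^ p * D2 * (NF n p (M.ev h)).toReal) := by
          apply ENNReal.ofReal_le_ofReal
          calc _ ≤ _ := h1.trans h3
            _ = _ := by ring
      _ = ENNReal.ofReal (B ^ p * D2) * NF n p (M.ev h) := by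
          rw [ENNReal.ofReal_mul (by positivity), ENNReal.ofReal_toReal hfin]
      _ ≤ _ := by
          gcongr
          exact le_add_self

end Pool.Agent.HpBall2
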