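import Mathlib
import Pool.Agent.HpBall2.Defs
import Pool.Agent.HpBall2.NFp

set_option autoImplicit false

open MeasureTheory Complex
open scoped ENNReal NNReal

namespace Pool.Agent.HpBall2

open Pool.Agent.HpBall

section B12

variable {H K : Type} [NormedAddCommGroup H] [InnerProductSpace ℂ H] [CompleteSpace H]
  [NormedAddCommGroup K] [InnerProductSpace ℂ K] [CompleteSpace K]

omit [CompleteSpace K] in
theorem B12_mem_map (T : K →L[ℂ] K) (v : lp (fun _ : ℕ => K) 2) :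
    Memℓp (fun i => T (v i)) 2 := by
  have h := lp.memℓp v
  rw [memℓp_gen_iff (by norm_num)] at h ⊢
  refine Summable.of_nonneg_of_le (fun i => by positivity) (fun i => ?_)
    (h.mul_left (‖T‖ ^ (2 : ℝ≥0∞).toReal))
  rw [← Real.mul_rpow (norm_nonneg _) (norm_nonneg _)]
  exact Real.rpow_le_rpow (norm_nonneg _) (T.le_opNorm _) (by norm_num)

/-- coordinatewise operator -/
noncomputable def B12_map (T : K →L[ℂ] K) : lp (fun _ : ℕ => K) 2 →ₗ[ℂ] lp (fun _ : ℕ => K) 2 where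
  toFun v := ⟨fun i => T (v i), B12_mem_map T v⟩
  map_add' u v := by
    ext i
    change T ((u + v) i) = T (u i) + T (v i)
    rw [lp.coeFn_add, Pi.add_apply, map_add]
  map_smul' c v := by
    ext i
    change T ((c • v) i) = c • T (v i)
    rw [lp.coeFn_smul, Pi.smul_apply, map_smul]

omit [CompleteSpace K] in
theorem B12_map_apply (T : K →L[ℂ] K) (v : lp (fun _ : ℕ => K) 2) (i : ℕ) :
    (B12_map T v) i = T (v i) := rfl

omit [CompleteSpace K] in
theorem B12_mem_shl (v : lp (fun _ : ℕ => K) 2) : Memℓp (fun i => v (i + 1)) 2 := by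
  have h := lp.memℓp v
  rw [memℓp_gen_iff (by norm_num)] at h ⊢
  exact (summable_nat_add_iff (f := fun i => ‖v i‖ ^ (2 : ℝ≥0∞).toReal) 1).mpr h

/-- left shift -/
noncomputable def B12_shl : lp (fun _ : ℕ => K) 2 →ₗ[ℂ] lp (fun _ : ℕ => K) 2 where
  toFun v := ⟨fun i => v (i + 1), B12_mem_shl v⟩
  map_add' u v := by
    ext i
    change (u + v) (i + 1) = u (i + 1) + v (i + 1)
    rw [lp.coeFn_add, Pi.add_apply]
  map_smul' c v := by
    ext i
    change (c • v) (i + 1) = c • v (i + 1)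
    rw [lp.coeFn_smul, Pi.smul_apply]

omit [CompleteSpace K] in
theorem B12_shl_apply (v : lp (fun _ : ℕ => K) 2) (i : ℕ) : (B12_shl v) i = v (i + 1) := rfl

/-- sequence with first term `a` -/
def B12_cf (a : K) (f : ℕ → K) : ℕ → K
  | 0 => a
  | i + 1 => f i

omit [CompleteSpace K] in
theorem B12_mem_cns (a : K) (v : lp (fun _ : ℕ => K) 2) : Memℓp (B12_cf a v) 2 := by
  have h := lp.memℓp v
  rw [memℓp_gen_iff (by norm_num)] at h ⊢
  exact (summable_nat_add_iff (f := fun i => ‖B12_cf a v i‖ ^ (2 : ℝ≥0∞).toReal) 1).mp h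

noncomputable def B12_cns (a : K) (v : lp (fun _ : ℕ => K) 2) : lp (fun _ : ℕ => K) 2 :=
  ⟨B12_cf a v, B12_mem_cns a v⟩

omit [CompleteSpace K] in
theorem B12_cns_zero (a : K) (v : lp (fun _ : ℕ => K) 2) : (B12_cns a v) 0 = a := rfl
omit [CompleteSpace K] in
theorem B12_cns_succ (a : K) (v : lp (fun _ : ℕ => K) 2) (i : ℕ) :
    (B12_cns a v) (i + 1) = v i := rfl

omit [CompleteSpace K] in
theorem B12_inner_cns (a : K) (u w : lp (fun _ : ℕ => K) 2) :
    (inner ℂ (B12_cns a u) w : ℂ) = inner ℂ a (w 0) + inner ℂ u (B12_shl w) := by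
  have h := (lp.summable_inner (𝕜 := ℂ) (B12_cns a u) w).tsum_eq_zero_add
  rw [lp.inner_eq_tsum, lp.inner_eq_tsum]
  exact h

omit [CompleteSpace K] in
theorem B12_inner_map (T : K →L[ℂ] K) (hT : ∀ a b, (inner ℂ (T a) b : ℂ) = inner ℂ a (T b))
    (u w : lp (fun _ : ℕ => K) 2) :
    (inner ℂ (B12_map T u) w : ℂ) = inner ℂ u (B12_map T w) := by
  rw [lp.inner_eq_tsum, lp.inner_eq_tsum]
  exact tsum_congr fun i => hT (u i) (w i)

/-- the complementary projection `1 - U U*` -/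
noncomputable def B12_R (U : lp (fun _ : ℕ => K) 2 →L[ℂ] H) : H →L[ℂ] H :=
  1 - U.comp (ContinuousLinearMap.adjoint U)

/-- `J (1 - U U*) J*` -/
noncomputable def B12_Q (U : lp (fun _ : ℕ => K) 2 →L[ℂ] H) (J : H →L[ℂ] K) : K →L[ℂ] K :=
  J.comp ((B12_R U).comp (ContinuousLinearMap.adjoint J))

variable (U : lp (fun _ : ℕ => K) 2 →L[ℂ] H) (J : H →L[ℂ] K)

theorem B12_R_apply (x : H) : B12_R U x = x - U (ContinuousLinearMap.adjoint U x) := rfl

theorem B12_Q_apply (y : K) : B12_Q U J y = J (B12_R U (ContinuousLinearMap.adjoint J y)) := rfl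

theorem B12_R_sa (a b : H) : (inner ℂ (B12_R U a) b : ℂ) = inner ℂ a (B12_R U b) := by
  rw [B12_R_apply, B12_R_apply, inner_sub_left, inner_sub_right,
    ← ContinuousLinearMap.adjoint_inner_left, ContinuousLinearMap.adjoint_inner_right]

theorem B12_Q_sa (a b : K) : (inner ℂ (B12_Q U J a) b : ℂ) = inner ℂ a (B12_Q U J b) := by
  rw [B12_Q_apply, B12_Q_apply, ← ContinuousLinearMap.adjoint_inner_right, B12_R_sa,
    ContinuousLinearMap.adjoint_inner_left]

variable {U J}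

theorem B12_UU (hU : (ContinuousLinearMap.adjoint U).comp U = 1) (v : lp (fun _ : ℕ => K) 2) :
    ContinuousLinearMap.adjoint U (U v) = v := by
  have h := congrArg (fun T : lp (fun _ : ℕ => K) 2 →L[ℂ] lp (fun _ : ℕ => K) 2 => T v) hU
  exact h

theorem B12_JJ (hJ : (ContinuousLinearMap.adjoint J).comp J = 1) (x : H) :
    ContinuousLinearMap.adjoint J (J x) = x := by
  have h := congrArg (fun T : H →L[ℂ] H => T x) hJ
  exact h

theorem B12_UR (hU : (ContinuousLinearMap.adjoint U).comp U = 1) (x : H) :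
    ContinuousLinearMap.adjoint U (B12_R U x) = 0 := by
  rw [B12_R_apply, map_sub, B12_UU hU, sub_self]

theorem B12_RU (hU : (ContinuousLinearMap.adjoint U).comp U = 1) (v : lp (fun _ : ℕ => K) 2) :
    B12_R U (U v) = 0 := by
  rw [B12_R_apply, B12_UU hU, sub_self]

theorem B12_RR (hU : (ContinuousLinearMap.adjoint U).comp U = 1) (x : H) :
    B12_R U (B12_R U x) = B12_R U x := by
  conv_lhs => rw [B12_R_apply U (B12_R U x)]
  rw [B12_UR hU, map_zero, sub_zero]

theorem B12_QJR (hU : (ContinuousLinearMap.adjoint U).comp U = 1)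
    (hJ : (ContinuousLinearMap.adjoint J).comp J = 1) (x : H) :
    B12_Q U J (J (B12_R U x)) = J (B12_R U x) := by
  rw [B12_Q_apply, B12_JJ hJ, B12_RR hU]

theorem B12_RJQ (hU : (ContinuousLinearMap.adjoint U).comp U = 1)
    (hJ : (ContinuousLinearMap.adjoint J).comp J = 1) (y : K) :
    B12_R U (ContinuousLinearMap.adjoint J (B12_Q U J y)) =
      B12_R U (ContinuousLinearMap.adjoint J y) := by
  rw [B12_Q_apply, B12_JJ hJ, B12_RR hU]

theorem B12_QQ (hU : (ContinuousLinearMap.adjoint U).comp U = 1)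
    (hJ : (ContinuousLinearMap.adjoint J).comp J = 1) (y : K) :
    B12_Q U J (B12_Q U J y) = B12_Q U J y := by
  conv_lhs => rw [B12_Q_apply U J (B12_Q U J y)]
  rw [B12_RJQ hU hJ, ← B12_Q_apply]

/-- complementary projection -/
noncomputable def B12_Q' (U : lp (fun _ : ℕ => K) 2 →L[ℂ] H) (J : H →L[ℂ] K) : K →L[ℂ] K :=
  1 - B12_Q U J

theorem B12_Q'_apply (U : lp (fun _ : ℕ => K) 2 →L[ℂ] H) (J : H →L[ℂ] K) (y : K) :
    B12_Q' U J y = y - B12_Q U J y := rfl

theorem B12_Q'_sa (a b : K) : (inner ℂ (B12_Q' U J a) b : ℂ) = inner ℂ a (B12_Q' U J b) := by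
  rw [B12_Q'_apply, B12_Q'_apply, inner_sub_left, inner_sub_right, B12_Q_sa]

/-- auxiliary sequence -/
noncomputable def B12_V (U : lp (fun _ : ℕ => K) 2 →L[ℂ] H) (J : H →L[ℂ] K) :
    lp (fun _ : ℕ => K) 2 →ₗ[ℂ] lp (fun _ : ℕ => K) 2 :=
  B12_map (B12_Q' U J) + (B12_map (B12_Q U J)).comp B12_shl

theorem B12_V_coord (w : lp (fun _ : ℕ => K) 2) (i : ℕ) :
    (B12_V U J w) i = B12_Q' U J (w i) + B12_Q U J (w (i + 1)) := by
  change (B12_map (B12_Q' U J) w + B12_map (B12_Q U J) (B12_shl w)) i = _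
  rw [lp.coeFn_add, Pi.add_apply, B12_map_apply, B12_map_apply, B12_shl_apply]

/-- the isomorphism -/
noncomputable def B12_Phi (U : lp (fun _ : ℕ => K) 2 →L[ℂ] H) (J : H →L[ℂ] K) :
    lp (fun _ : ℕ => K) 2 →ₗ[ℂ] H :=
  (U : lp (fun _ : ℕ => K) 2 →ₗ[ℂ] H).comp (B12_V U J) +
    (((B12_R U).comp (ContinuousLinearMap.adjoint J) : K →L[ℂ] H) : K →ₗ[ℂ] H).comp
      (lp.evalₗ (𝕜 := ℂ) (fun _ : ℕ => K) 2 0)

theorem B12_Phi_apply (w : lp (fun _ : ℕ => K) 2) :
    B12_Phi U J w = U (B12_V U J w) + B12_R U (ContinuousLinearMap.adjoint J (w 0)) := rfl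

/-- the inverse -/
noncomputable def B12_Psi (U : lp (fun _ : ℕ => K) 2 →L[ℂ] H) (J : H →L[ℂ] K) (x : H) :
    lp (fun _ : ℕ => K) 2 :=
  B12_cns (J (B12_R U x)) (B12_map (B12_Q U J) (ContinuousLinearMap.adjoint U x)) +
    B12_map (B12_Q' U J) (ContinuousLinearMap.adjoint U x)

theorem B12_Psi_zero (x : H) : (B12_Psi U J x) 0 =
    J (B12_R U x) + B12_Q' U J ((ContinuousLinearMap.adjoint U x) 0) := by
  unfold B12_Psi
  rw [lp.coeFn_add, Pi.add_apply, B12_cns_zero, B12_map_apply]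

theorem B12_Psi_succ (x : H) (i : ℕ) : (B12_Psi U J x) (i + 1) =
    B12_Q U J ((ContinuousLinearMap.adjoint U x) i) +
      B12_Q' U J ((ContinuousLinearMap.adjoint U x) (i + 1)) := by
  unfold B12_Psi
  rw [lp.coeFn_add, Pi.add_apply, B12_cns_succ, B12_map_apply, B12_map_apply]

theorem B12_PhiPsi (hU : (ContinuousLinearMap.adjoint U).comp U = 1)
    (hJ : (ContinuousLinearMap.adjoint J).comp J = 1) (x : H) :
    B12_Phi U J (B12_Psi U J x) = x := by
  have hV : B12_V U J (B12_Psi U J x) = ContinuousLinearMap.adjoint U x := by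
    ext i
    rw [B12_V_coord, B12_Psi_succ]
    have h2 : B12_Q U J (B12_Q U J ((ContinuousLinearMap.adjoint U x) i) +
        B12_Q' U J ((ContinuousLinearMap.adjoint U x) (i + 1))) =
        B12_Q U J ((ContinuousLinearMap.adjoint U x) i) := by
      rw [map_add, B12_QQ hU hJ, B12_Q'_apply, map_sub, B12_QQ hU hJ, sub_self, add_zero]
    rw [h2]
    cases i with
    | zero =>
      rw [B12_Psi_zero]
      have h3 : B12_Q' U J (J (B12_R U x) + B12_Q' U J ((ContinuousLinearMap.adjoint U x) 0)) =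
          B12_Q' U J ((ContinuousLinearMap.adjoint U x) 0) := by
        rw [B12_Q'_apply, B12_Q'_apply, map_add, map_sub, B12_QJR hU hJ, B12_QQ hU hJ]
        abel
      rw [h3, B12_Q'_apply]
      abel
    | succ i =>
      rw [B12_Psi_succ]
      have h3 : B12_Q' U J (B12_Q U J ((ContinuousLinearMap.adjoint U x) i) +
          B12_Q' U J ((ContinuousLinearMap.adjoint U x) (i + 1))) =
          B12_Q' U J ((ContinuousLinearMap.adjoint U x) (i + 1)) := by
        rw [B12_Q'_apply, B12_Q'_apply, map_add, map_sub, B12_QQ hU hJ, B12_QQ hU hJ]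
        abel
      rw [h3, B12_Q'_apply]
      abel
  rw [B12_Phi_apply, hV, B12_Psi_zero, map_add, map_add, B12_JJ hJ, B12_RR hU]
  have h4 : B12_R U (ContinuousLinearMap.adjoint J
      (B12_Q' U J ((ContinuousLinearMap.adjoint U x) 0))) = 0 := by
    rw [B12_Q'_apply, map_sub, map_sub, B12_RJQ hU hJ, sub_self]
  rw [h4, add_zero, B12_R_apply]
  abel

theorem B12_PsiPhi (hU : (ContinuousLinearMap.adjoint U).comp U = 1)
    (hJ : (ContinuousLinearMap.adjoint J).comp J = 1) (w : lp (fun _ : ℕ => K) 2) :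
    B12_Psi U J (B12_Phi U J w) = w := by
  have h1 : ContinuousLinearMap.adjoint U (B12_Phi U J w) = B12_V U J w := by
    rw [B12_Phi_apply, map_add, B12_UU hU, B12_UR hU, add_zero]
  have h2 : B12_R U (B12_Phi U J w) = B12_R U (ContinuousLinearMap.adjoint J (w 0)) := by
    rw [B12_Phi_apply, map_add, B12_RU hU, B12_RR hU, zero_add]
  ext i
  cases i with
  | zero =>
    rw [B12_Psi_zero, h1, h2, ← B12_Q_apply, B12_V_coord]
    rw [B12_Q'_apply, B12_Q'_apply, map_add, map_sub, B12_QQ hU hJ, B12_QQ hU hJ]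
    abel
  | succ i =>
    rw [B12_Psi_succ, h1, B12_V_coord, B12_V_coord]
    rw [B12_Q'_apply, B12_Q'_apply, B12_Q'_apply, map_add, map_add, map_sub, map_sub,
      B12_QQ hU hJ, B12_QQ hU hJ, B12_QQ hU hJ]
    abel

theorem B12_adj (x : H) (w : lp (fun _ : ℕ => K) 2) :
    (inner ℂ (B12_Psi U J x) w : ℂ) = inner ℂ x (B12_Phi U J w) := by
  unfold B12_Psi
  rw [inner_add_left, B12_inner_cns, B12_inner_map _ (B12_Q_sa U J), B12_inner_map _ (B12_Q'_sa (U := U) (J := J)),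
    B12_Phi_apply, inner_add_right, ← B12_R_sa, ContinuousLinearMap.adjoint_inner_right,
    ← ContinuousLinearMap.adjoint_inner_left]
  have h1 : B12_V U J w = B12_map (B12_Q' U J) w + B12_map (B12_Q U J) (B12_shl w) := rfl
  rw [h1, inner_add_right]
  ring

theorem B12_norm (hU : (ContinuousLinearMap.adjoint U).comp U = 1)
    (hJ : (ContinuousLinearMap.adjoint J).comp J = 1) (w : lp (fun _ : ℕ => K) 2) :
    ‖B12_Phi U J w‖ = ‖w‖ := by
  have h1 : (inner ℂ (B12_Phi U J w) (B12_Phi U J w) : ℂ) = inner ℂ w w := by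
    rw [← B12_adj, B12_PsiPhi hU hJ]
  rw [inner_self_eq_norm_sq_to_K, inner_self_eq_norm_sq_to_K] at h1
  have h2 : ‖B12_Phi U J w‖ ^ 2 = ‖w‖ ^ 2 := by exact_mod_cast h1
  exact (pow_left_inj₀ (norm_nonneg _) (norm_nonneg _) two_ne_zero).mp h2

noncomputable def B12_equiv (hU : (ContinuousLinearMap.adjoint U).comp U = 1)
    (hJ : (ContinuousLinearMap.adjoint J).comp J = 1) : lp (fun _ : ℕ => K) 2 ≃ₗᵢ[ℂ] H :=
  { toFun := B12_Phi U J
    map_add' := map_add _
    map_smul' := map_smul _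
    invFun := B12_Psi U J
    left_inv := B12_PsiPhi hU hJ
    right_inv := B12_PhiPsi hU hJ
    norm_map' := B12_norm hU hJ }

omit [CompleteSpace H] in
theorem B12_neg {p : ℝ} {N : H → ℝ≥0∞} (hN : PFun p N) (x : H) : N (-x) = N x := by
  have h := hN.smul (-1) x
  simpa using h

end B12

/-- TARGET -/
theorem pelczynski (p : ℝ) (hp : 0 < p) (hp1 : p ≤ 1) {H K : Type} [NormedAddCommGroup H]
    [InnerProductSpace ℂ H] [CompleteSpace H] [NormedAddCommGroup K] [InnerProductSpace ℂ K]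
    [CompleteSpace K] (NH : H → ℝ≥0∞) (NR : K → ℝ≥0∞) (hNH : PFun p NH) (hNR : PFun p NR)
    (ω : ℝ≥0∞) (hω0 : 0 < ω) (hω1 : ω < 1)
    (J : H →L[ℂ] K) (hJ : (ContinuousLinearMap.adjoint J).comp J = 1)
    (U : lp (fun _ : ℕ => K) 2 →L[ℂ] H) (hU : (ContinuousLinearMap.adjoint U).comp U = 1)
    (D : ℝ≥0∞) (hD : D ≠ ⊤)
    (hJ1 : ∀ x, NR (J x) ≤ D * NH x)
    (hJ2 : ∀ y, NH (ContinuousLinearMap.adjoint J y) ≤ D * NR y)
    (hU1 : ∀ y, NH (U y) ≤ D * ∑' m : ℕ, ω ^ m * NR (y m))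
    (hU2 : ∀ x, ∑' m : ℕ, ω ^ m * NR ((ContinuousLinearMap.adjoint U x) m) ≤ D * NH x) :
    ∃ (Φ : lp (fun _ : ℕ => K) 2 ≃ₗᵢ[ℂ] H) (D' : ℝ≥0∞), D' ≠ ⊤ ∧
      (∀ w, NH (Φ w) ≤ D' * ∑' m : ℕ, ω ^ m * NR (w m)) ∧
      ∀ x, ∑' m : ℕ, ω ^ m * NR ((Φ.symm x) m) ≤ D' * NH x := by
  have hωtop : ω ≠ ⊤ := (hω1.trans ENNReal.one_lt_top).ne
  have hωi : ω⁻¹ * ω = 1 := ENNReal.inv_mul_cancel hω0.ne' hωtop
  have hP : ∀ x, NH (U (ContinuousLinearMap.adjoint U x)) ≤ D * (D * NH x) := fun x =>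
    (hU1 _).trans (by gcongr; exact hU2 x)
  have hR : ∀ x, NH (B12_R U x) ≤ (1 + D * D) * NH x := by
    intro x
    rw [B12_R_apply, sub_eq_add_neg]
    refine (hNH.add _ _).trans ?_
    rw [B12_neg hNH]
    calc NH x + NH (U (ContinuousLinearMap.adjoint U x)) ≤ NH x + D * (D * NH x) := by
          gcongr
          exact hP x
      _ = (1 + D * D) * NH x := by ring
  have hRJ : ∀ y, NH (B12_R U (ContinuousLinearMap.adjoint J y)) ≤
      (1 + D * D) * (D * NR y) := fun y => (hR _).trans (by gcongr; exact hJ2 y)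
  set A : ℝ≥0∞ := D * ((1 + D * D) * D) with hA
  have hQ : ∀ y, NR (B12_Q U J y) ≤ A * NR y := by
    intro y
    rw [B12_Q_apply]
    refine (hJ1 _).trans ?_
    calc D * NH (B12_R U (ContinuousLinearMap.adjoint J y)) ≤ D * ((1 + D * D) * (D * NR y)) := by
          gcongr
          exact hRJ y
      _ = A * NR y := by rw [hA]; ring
  have hQ' : ∀ y, NR (B12_Q' U J y) ≤ (1 + A) * NR y := by
    intro y
    rw [B12_Q'_apply, sub_eq_add_neg]
    refine (hNR.add _ _).trans ?_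
    rw [B12_neg hNR]
    calc NR y + NR (B12_Q U J y) ≤ NR y + A * NR y := by
          gcongr
          exact hQ y
      _ = (1 + A) * NR y := by ring
  set B : ℝ≥0∞ := 1 + A with hB
  have hsplit : ∀ f : ℕ → ℝ≥0∞, ∑' m, f m = f 0 + ∑' m, f (m + 1) := fun f =>
    tsum_eq_zero_add' ENNReal.summable
  have hshift : ∀ w : lp (fun _ : ℕ => K) 2, ∑' m : ℕ, ω ^ m * NR (w (m + 1)) ≤
      ω⁻¹ * ∑' m : ℕ, ω ^ m * NR (w m) := by
    intro w
    have h1 : ∀ m : ℕ, ω ^ m * NR (w (m + 1)) = ω⁻¹ * (ω ^ (m + 1) * NR (w (m + 1))) := by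
      intro m
      calc ω ^ m * NR (w (m + 1)) = (ω⁻¹ * ω) * (ω ^ m * NR (w (m + 1))) := by
            rw [hωi, one_mul]
        _ = _ := by ring
    rw [tsum_congr h1, ENNReal.tsum_mul_left]
    gcongr ω⁻¹ * ?_
    rw [hsplit (fun m => ω ^ m * NR (w m))]
    exact le_add_self
  have hV : ∀ w : lp (fun _ : ℕ => K) 2, ∑' m : ℕ, ω ^ m * NR ((B12_V U J w) m) ≤
      (B + A * ω⁻¹) * ∑' m : ℕ, ω ^ m * NR (w m) := by
    intro w
    calc ∑' m : ℕ, ω ^ m * NR ((B12_V U J w) m)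
        ≤ ∑' m : ℕ, (B * (ω ^ m * NR (w m)) + A * (ω ^ m * NR (w (m + 1)))) := by
          apply ENNReal.tsum_le_tsum
          intro m
          rw [B12_V_coord]
          calc ω ^ m * NR (B12_Q' U J (w m) + B12_Q U J (w (m + 1)))
              ≤ ω ^ m * (B * NR (w m) + A * NR (w (m + 1))) := by
                gcongr
                exact (hNR.add _ _).trans (add_le_add (hQ' _) (hQ _))
            _ = _ := by ring
      _ = B * ∑' m : ℕ, ω ^ m * NR (w m) + A * ∑' m : ℕ, ω ^ m * NR (w (m + 1)) := by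
          rw [ENNReal.tsum_add, ENNReal.tsum_mul_left, ENNReal.tsum_mul_left]
      _ ≤ B * ∑' m : ℕ, ω ^ m * NR (w m) + A * (ω⁻¹ * ∑' m : ℕ, ω ^ m * NR (w m)) := by
          gcongr
          exact hshift w
      _ = _ := by ring
  have h0 : ∀ w : lp (fun _ : ℕ => K) 2, NR (w 0) ≤ ∑' m : ℕ, ω ^ m * NR (w m) := by
    intro w
    rw [hsplit (fun m => ω ^ m * NR (w m)), pow_zero, one_mul]
    exact le_self_add
  have hAtop : A ≠ ⊤ := by
    rw [hA]
    finiteness
  have hBtop : B ≠ ⊤ := by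
    rw [hB]
    finiteness
  have hωitop : ω⁻¹ ≠ ⊤ := ENNReal.inv_ne_top.mpr hω0.ne'
  set C1 : ℝ≥0∞ := D * (B + A * ω⁻¹) + (1 + D * D) * D with hC1
  set C2 : ℝ≥0∞ := D * (1 + D * D) + (A + 2 * B) * D with hC2
  refine ⟨B12_equiv hU hJ, C1 + C2, ?_, ?_, ?_⟩
  · rw [hC1, hC2]
    finiteness
  · intro w
    have h1 : NH (B12_Phi U J w) ≤ C1 * ∑' m : ℕ, ω ^ m * NR (w m) := by
      rw [B12_Phi_apply]
      refine (hNH.add _ _).trans ?_
      calc NH (U (B12_V U J w)) + NH (B12_R U (ContinuousLinearMap.adjoint J (w 0)))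
          ≤ D * ∑' m : ℕ, ω ^ m * NR ((B12_V U J w) m) + (1 + D * D) * (D * NR (w 0)) :=
            add_le_add (hU1 _) (hRJ _)
        _ ≤ D * ((B + A * ω⁻¹) * ∑' m : ℕ, ω ^ m * NR (w m)) +
            (1 + D * D) * (D * ∑' m : ℕ, ω ^ m * NR (w m)) := by
            gcongr
            · exact hV w
            · exact h0 w
        _ = C1 * ∑' m : ℕ, ω ^ m * NR (w m) := by rw [hC1]; ring
    exact h1.trans (by gcongr; exact le_self_add)
  · intro x
    have h1 : ∑' m : ℕ, ω ^ m * NR ((B12_Psi U J x) m) ≤ C2 * NH x := by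
      set v := ContinuousLinearMap.adjoint U x with hv
      rw [hsplit (fun m => ω ^ m * NR ((B12_Psi U J x) m)), pow_zero, one_mul]
      have e1 : NR ((B12_Psi U J x) 0) ≤ D * ((1 + D * D) * NH x) +
          B * ∑' m : ℕ, ω ^ m * NR (v m) := by
        rw [B12_Psi_zero]
        refine (hNR.add _ _).trans (add_le_add ((hJ1 _).trans ?_) ((hQ' _).trans ?_))
        · gcongr
          exact hR x
        · gcongr
          exact h0 v
      have e2 : ∑' m : ℕ, ω ^ (m + 1) * NR ((B12_Psi U J x) (m + 1)) ≤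
          A * ∑' m : ℕ, ω ^ m * NR (v m) + B * ∑' m : ℕ, ω ^ m * NR (v m) := by
        calc ∑' m : ℕ, ω ^ (m + 1) * NR ((B12_Psi U J x) (m + 1))
            ≤ ∑' m : ℕ, (A * (ω ^ m * NR (v m)) + B * (ω ^ (m + 1) * NR (v (m + 1)))) := by
              apply ENNReal.tsum_le_tsum
              intro m
              rw [B12_Psi_succ]
              calc ω ^ (m + 1) * NR (B12_Q U J (v m) + B12_Q' U J (v (m + 1)))
                  ≤ ω ^ (m + 1) * (A * NR (v m) + B * NR (v (m + 1))) := by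
                    gcongr
                    exact (hNR.add _ _).trans (add_le_add (hQ _) (hQ' _))
                _ = A * (ω ^ (m + 1) * NR (v m)) + B * (ω ^ (m + 1) * NR (v (m + 1))) := by ring
                _ ≤ A * (ω ^ m * NR (v m)) + B * (ω ^ (m + 1) * NR (v (m + 1))) := by
                    gcongr ?_ + _
                    gcongr A * (?_ * _)
                    rw [pow_succ]
                    exact mul_le_of_le_one_right' hω1.le
          _ = A * ∑' m : ℕ, ω ^ m * NR (v m) + B * ∑' m : ℕ, ω ^ (m + 1) * NR (v (m + 1)) := by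
              rw [ENNReal.tsum_add, ENNReal.tsum_mul_left, ENNReal.tsum_mul_left]
          _ ≤ A * ∑' m : ℕ, ω ^ m * NR (v m) + B * ∑' m : ℕ, ω ^ m * NR (v m) := by
              gcongr _ + B * ?_
              rw [hsplit (fun m => ω ^ m * NR (v m))]
              exact le_add_self
      have e3 : ∑' m : ℕ, ω ^ m * NR (v m) ≤ D * NH x := hU2 x
      calc NR ((B12_Psi U J x) 0) + ∑' m : ℕ, ω ^ (m + 1) * NR ((B12_Psi U J x) (m + 1))
          ≤ (D * ((1 + D * D) * NH x) + B * ∑' m : ℕ, ω ^ m * NR (v m)) +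
            (A * ∑' m : ℕ, ω ^ m * NR (v m) + B * ∑' m : ℕ, ω ^ m * NR (v m)) :=
            add_le_add e1 e2
        _ ≤ (D * ((1 + D * D) * NH x) + B * (D * NH x)) +
            (A * (D * NH x) + B * (D * NH x)) := by gcongr
        _ = C2 * NH x := by rw [hC2]; ring
    exact h1.trans (by gcongr; exact le_add_self)

end Pool.Agent.HpBall2
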