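import Mathlib
import Pool.Agent.HpBall2.Defs
import Pool.Agent.HpBall2.NFp

set_option autoImplicit false

open MeasureTheory Complex
open scoped ENNReal NNReal

namespace Pool.Agent.HpBall2

open Pool.Agent.HpBall

/-- the coefficients of (1 - x)^(-1/2) -/
noncomputable def B11_b : ℕ → ℝ
  | 0 => 1
  | m + 1 => B11_b m * ((2 * m + 1) / (2 * (m + 1)))

theorem B11_b_pos (m : ℕ) : 0 < B11_b m := by
  induction m with
  | zero => simp [B11_b]
  | succ m ih => rw [B11_b]; positivity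

theorem B11_b_le (m : ℕ) : B11_b m ≤ 1 := by
  induction m with
  | zero => simp [B11_b]
  | succ m ih =>
    rw [B11_b]
    have h1 : ((2 * m + 1) / (2 * (m + 1)) : ℝ) ≤ 1 := by
      rw [div_le_one (by positivity)]; linarith
    exact mul_le_one₀ ih (by positivity) h1

theorem B11_b_succ (m : ℕ) : ((m : ℝ) + 1) * B11_b (m + 1) = (m + 1 / 2) * B11_b m := by
  rw [B11_b]
  have : (m : ℝ) + 1 ≠ 0 := by positivity
  field_simp

theorem B11_conv (m : ℕ) :
    ∑ p ∈ Finset.HasAntidiagonal.antidiagonal m, B11_b p.1 * B11_b p.2 = 1 := by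
  induction m with
  | zero => simp [B11_b]
  | succ m ih =>
    have hsym : ∀ k : ℕ, ∑ p ∈ Finset.HasAntidiagonal.antidiagonal k, (p.1 : ℝ) * (B11_b p.1 * B11_b p.2) =
        ∑ p ∈ Finset.HasAntidiagonal.antidiagonal k, (p.2 : ℝ) * (B11_b p.1 * B11_b p.2) := by
      intro k
      have := Finset.Nat.sum_antidiagonal_swap (n := k)
        (f := fun p : ℕ × ℕ => (p.2 : ℝ) * (B11_b p.1 * B11_b p.2))
      rw [← this]
      refine Finset.sum_congr rfl fun p _ => ?_
      simp [mul_comm]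
    have htot : ∀ k : ℕ, 2 * ∑ p ∈ Finset.HasAntidiagonal.antidiagonal k, (p.1 : ℝ) * (B11_b p.1 * B11_b p.2) =
        k * ∑ p ∈ Finset.HasAntidiagonal.antidiagonal k, B11_b p.1 * B11_b p.2 := by
      intro k
      rw [two_mul]
      nth_rewrite 2 [hsym k]
      rw [← Finset.sum_add_distrib, Finset.mul_sum]
      refine Finset.sum_congr rfl fun p hp => ?_
      have : p.1 + p.2 = k := Finset.HasAntidiagonal.mem_antidiagonal.mp hp
      rw [← this]
      push_cast
      ring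
    have h1 := htot (m + 1)
    rw [Finset.Nat.sum_antidiagonal_succ] at h1
    have h2 : ∑ p ∈ Finset.HasAntidiagonal.antidiagonal m, (((p.1 + 1 : ℕ) : ℝ)) *
        (B11_b (p.1 + 1) * B11_b p.2) =
        ∑ p ∈ Finset.HasAntidiagonal.antidiagonal m, ((p.1 : ℝ) * (B11_b p.1 * B11_b p.2) +
          1 / 2 * (B11_b p.1 * B11_b p.2)) := by
      refine Finset.sum_congr rfl fun p _ => ?_
      have := B11_b_succ p.1
      push_cast
      calc ((p.1 : ℝ) + 1) * (B11_b (p.1 + 1) * B11_b p.2)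
          = (((p.1 : ℝ) + 1) * B11_b (p.1 + 1)) * B11_b p.2 := by ring
        _ = _ := by rw [this]; ring
    simp only [Nat.cast_zero, zero_mul, zero_add] at h1
    rw [h2, Finset.sum_add_distrib, ← Finset.mul_sum, mul_add, htot m, ih] at h1
    have h3 : ((m : ℝ) + 1) ≠ 0 := by positivity
    push_cast at h1
    have h4 : ((m : ℝ) + 1) * ∑ p ∈ Finset.HasAntidiagonal.antidiagonal (m + 1), B11_b p.1 * B11_b p.2 =
        ((m : ℝ) + 1) * 1 := by
      rw [← h1]; ring
    exact mul_left_cancel₀ h3 h4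

theorem B11_summable {H : Type} [NormedAddCommGroup H]
    [InnerProductSpace ℂ H] [CompleteSpace H] (E : H →L[ℂ] H) (hE : ‖E‖ ≤ 1 / 2) :
    Summable fun m : ℕ => ‖((B11_b m : ℝ) : ℂ) • E ^ m‖ := by
  refine Summable.of_nonneg_of_le (fun _ => norm_nonneg _) (fun m => ?_)
    (summable_geometric_of_lt_one (by norm_num : (0 : ℝ) ≤ 1 / 2) (by norm_num))
  rw [norm_smul, Complex.norm_real, Real.norm_eq_abs, abs_of_pos (B11_b_pos m)]
  have h1 : ‖E ^ m‖ ≤ (1 / 2) ^ m := by
    rcases Nat.eq_zero_or_pos m with h | h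
    · subst h
      simp only [pow_zero]
      exact ContinuousLinearMap.norm_id_le
    · exact (norm_pow_le' E h).trans (pow_le_pow_left₀ (norm_nonneg _) hE m)
  calc B11_b m * ‖E ^ m‖ ≤ 1 * (1 / 2) ^ m :=
        mul_le_mul (B11_b_le m) h1 (norm_nonneg _) zero_le_one
    _ = _ := one_mul _

theorem B11_sq {H : Type} [NormedAddCommGroup H]
    [InnerProductSpace ℂ H] [CompleteSpace H] (E : H →L[ℂ] H) (hE : ‖E‖ ≤ 1 / 2) :
    ((∑' m : ℕ, ((B11_b m : ℝ) : ℂ) • E ^ m) * ∑' m : ℕ, ((B11_b m : ℝ) : ℂ) • E ^ m) * (1 - E)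
      = 1 := by
  rw [tsum_mul_tsum_eq_tsum_sum_antidiagonal_of_summable_norm (B11_summable E hE)
    (B11_summable E hE)]
  have h : ∀ m : ℕ, ∑ kl ∈ Finset.HasAntidiagonal.antidiagonal m,
      (((B11_b kl.1 : ℝ) : ℂ) • E ^ kl.1) * (((B11_b kl.2 : ℝ) : ℂ) • E ^ kl.2) = E ^ m := by
    intro m
    have h1 : ∀ kl ∈ Finset.HasAntidiagonal.antidiagonal m,
        (((B11_b kl.1 : ℝ) : ℂ) • E ^ kl.1) * (((B11_b kl.2 : ℝ) : ℂ) • E ^ kl.2) =
          (((B11_b kl.1 * B11_b kl.2 : ℝ)) : ℂ) • E ^ m := by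
      intro kl hkl
      have : kl.1 + kl.2 = m := Finset.HasAntidiagonal.mem_antidiagonal.mp hkl
      rw [smul_mul_smul_comm, ← pow_add, this]
      push_cast
      rfl
    rw [Finset.sum_congr rfl h1, ← Finset.sum_smul, ← Complex.ofReal_sum, B11_conv m]
    simp
  rw [tsum_congr h]
  exact geom_series_mul_neg E (lt_of_le_of_lt hE (by norm_num))

/-- TARGET -/
theorem sqrt_step (p : ℝ) (hp : 0 < p) (hp1 : p ≤ 1) {H K : Type} [NormedAddCommGroup H]
    [InnerProductSpace ℂ H] [CompleteSpace H] [NormedAddCommGroup K] [InnerProductSpace ℂ K]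
    [CompleteSpace K] (NH : H → ℝ≥0∞) (NR : K → ℝ≥0∞) (hNH : PFun p NH) (hNR : PFun p NR)
    (T : H →L[ℂ] K)
    (hE : ‖(1 : H →L[ℂ] H) - (ContinuousLinearMap.adjoint T).comp T‖ ≤ 1 / 2)
    (hNE : ∀ x, NH (x - ContinuousLinearMap.adjoint T (T x)) ≤ ENNReal.ofReal (1 / 2) * NH x)
    (D : ℝ≥0∞) (hT : ∀ x, NR (T x) ≤ D * NH x)
    (hT' : ∀ y, NH (ContinuousLinearMap.adjoint T y) ≤ D * NR y) :
    ∃ J : H →L[ℂ] K, (ContinuousLinearMap.adjoint J).comp J = 1 ∧
      (∀ x, NR (J x) ≤ 2 * D * NH x) ∧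
      ∀ y, NH (ContinuousLinearMap.adjoint J y) ≤ 2 * D * NR y := by
  set E : H →L[ℂ] H := 1 - (ContinuousLinearMap.adjoint T).comp T with hEdef
  have hEsa : IsSelfAdjoint E := by
    have h1 : IsSelfAdjoint ((ContinuousLinearMap.adjoint T).comp T) := by
      rw [ContinuousLinearMap.isSelfAdjoint_iff']
      rw [ContinuousLinearMap.adjoint_comp, ContinuousLinearMap.adjoint_adjoint]
    exact (IsSelfAdjoint.one _).sub h1
  set S : H →L[ℂ] H := ∑' m : ℕ, ((B11_b m : ℝ) : ℂ) • E ^ m with hS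
  have hsum : Summable fun m : ℕ => ((B11_b m : ℝ) : ℂ) • E ^ m := (B11_summable E hE).of_norm
  have hSsa : ContinuousLinearMap.adjoint S = S := by
    rw [← ContinuousLinearMap.star_eq_adjoint, hS, tsum_star]
    refine tsum_congr fun m => ?_
    rw [star_smul, star_pow, hEsa.star_eq]
    congr 1
    simp
  have hTT : (ContinuousLinearMap.adjoint T).comp T = 1 - E := by
    rw [hEdef]; abel
  have hcomm : Commute (1 - E) S := by
    rw [hS]
    refine Commute.tsum_right _ fun m => ?_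
    exact ((Commute.one_left _).sub_left ((Commute.refl E).pow_right m |>.smul_right _ |> id)
      |> fun h => h)
  have hSS : S * S * (1 - E) = 1 := B11_sq E hE
  have hJJ : S * ((1 - E) * S) = 1 := by
    rw [hcomm.eq, ← mul_assoc, hSS]
  obtain ⟨hN0, hNtop, hNc⟩ := pfun_lsc p hp NH hNH
  have hEx : ∀ x, NH (E x) ≤ ENNReal.ofReal (1 / 2) * NH x := by
    intro x
    have := hNE x
    simpa [hEdef] using this
  have hEm : ∀ (m : ℕ) x, NH ((E ^ m) x) ≤ ENNReal.ofReal (1 / 2) ^ m * NH x := by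
    intro m
    induction m with
    | zero => intro x; simp
    | succ m ih =>
      intro x
      rw [pow_succ', ContinuousLinearMap.mul_apply, pow_succ', mul_assoc]
      exact (hEx _).trans (mul_le_mul_right (ih x) _)
  have hterm : ∀ (m : ℕ) x, NH ((((B11_b m : ℝ) : ℂ) • E ^ m) x) ≤
      ENNReal.ofReal (1 / 2) ^ m * NH x := by
    intro m x
    rw [ContinuousLinearMap.smul_apply, hNH.smul]
    have h1 : ENNReal.ofReal (‖((B11_b m : ℝ) : ℂ)‖ ^ p) ≤ 1 := by
      rw [← ENNReal.ofReal_one]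
      apply ENNReal.ofReal_le_ofReal
      rw [Complex.norm_real, Real.norm_eq_abs, abs_of_pos (B11_b_pos m)]
      exact Real.rpow_le_one (B11_b_pos m).le (B11_b_le m) hp.le
    calc _ ≤ 1 * NH ((E ^ m) x) := mul_le_mul_left h1 _
      _ = NH ((E ^ m) x) := one_mul _
      _ ≤ _ := hEm m x
  have hpart : ∀ (M : ℕ) x, NH (∑ m ∈ Finset.range M, (((B11_b m : ℝ) : ℂ) • E ^ m) x) ≤
      2 * NH x := by
    intro M x
    have h1 : NH (∑ m ∈ Finset.range M, (((B11_b m : ℝ) : ℂ) • E ^ m) x) ≤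
        ∑ m ∈ Finset.range M, ENNReal.ofReal (1 / 2) ^ m * NH x := by
      induction M with
      | zero => simp [hN0]
      | succ M ih =>
        rw [Finset.sum_range_succ, Finset.sum_range_succ]
        exact (hNH.add _ _).trans (add_le_add ih (hterm M x))
    refine h1.trans ?_
    rw [← Finset.sum_mul]
    refine mul_le_mul_left ?_ _
    have h2 : ∑ m ∈ Finset.range M, ENNReal.ofReal (1 / 2) ^ m ≤
        ∑' m : ℕ, ENNReal.ofReal (1 / 2) ^ m := ENNReal.sum_le_tsum _
    refine h2.trans ?_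
    have h3 : ENNReal.ofReal (1 / 2) = 2⁻¹ := by
      rw [one_div, ENNReal.ofReal_inv_of_pos (by norm_num)]
      simp
    rw [h3, ENNReal.tsum_geometric_two]
  have hSx : ∀ x, NH (S x) ≤ 2 * NH x := by
    intro x
    have h1 : HasSum (fun m : ℕ => (((B11_b m : ℝ) : ℂ) • E ^ m) x) (S x) := by
      have := hsum.hasSum
      exact this.mapL (ContinuousLinearMap.apply ℂ H x)
    have h2 := h1.tendsto_sum_nat
    have h3 := (hNc.tendsto (S x)).comp h2
    exact le_of_tendsto' h3 fun M => hpart M x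
  refine ⟨T.comp S, ?_, ?_, ?_⟩
  · rw [ContinuousLinearMap.adjoint_comp, hSsa]
    calc (S.comp (ContinuousLinearMap.adjoint T)).comp (T.comp S)
        = S * (((ContinuousLinearMap.adjoint T).comp T) * S) := rfl
      _ = 1 := by rw [hTT, hJJ]
  · intro x
    calc NR (T (S x)) ≤ D * NH (S x) := hT _
      _ ≤ D * (2 * NH x) := mul_le_mul_right (hSx x) _
      _ = 2 * D * NH x := by ring
  · intro y
    rw [ContinuousLinearMap.adjoint_comp, hSsa]
    calc NH (S (ContinuousLinearMap.adjoint T y)) ≤ 2 * NH (ContinuousLinearMap.adjoint T y) :=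
          hSx _
      _ ≤ 2 * (D * NR y) := mul_le_mul_right (hT' y) _
      _ = 2 * D * NR y := by ring

end Pool.Agent.HpBall2
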