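import Mathlib
import Pool.Agent.HpBall2.MainA
import Pool.Agent.HpBall2.Model
import Pool.Agent.HpBall2.NFp
import Pool.Agent.HpBall2.Basic
import Pool.Agent.HpBall2.FrameOp
import Pool.Agent.HpBall2.SqrtStep
import Pool.Agent.HpBall2.MolOp
import Pool.Agent.HpBall2.Hotel
import Pool.Agent.HpBall2.Pelc
import Pool.Agent.HpBall2.Dense

set_option autoImplicit false

open MeasureTheory Complex
open scoped ENNReal NNReal

namespace Pool.Agent.HpBall2

open Pool.Agent.HpBall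

/-- the direct sum space -/
noncomputable abbrev DS : Type := ↥(lp (fun _ : ℕ => KS) 2)

/-- the functional on the direct sum space -/
noncomputable def ND (p : ℝ) (ω : ℝ≥0∞) (w : DS) : ℝ≥0∞ := ∑' m : ℕ, ω ^ m * NK p (⇑(w m))

/-- unit vectors -/
noncomputable def bv (q : ℕ × Ix) : DS := lp.single 2 q.1 (lp.single 2 q.2 (1 : ℂ) : KS)

lemma inner_bv (q : ℕ × Ix) (w : DS) : (inner ℂ (bv q) w : ℂ) = (w q.1) q.2 := by
  unfold bv
  rw [lp.inner_single_left, lp.inner_single_left]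
  simp

lemma bv_apply (q : ℕ × Ix) (m : ℕ) (κ : Ix) :
    ((bv q : DS) m) κ = if q = (m, κ) then 1 else 0 := by
  unfold bv
  obtain ⟨m', κ'⟩ := q
  by_cases h1 : m' = m
  · subst h1
    rw [lp.single_apply_self]
    by_cases h2 : κ' = κ
    · subst h2
      rw [lp.single_apply_self]; simp
    · rw [lp.single_apply_ne _ _ _ (Ne.symm h2)]
      simp [h2]
  · rw [lp.single_apply_ne _ _ _ (Ne.symm h1)]
    simp [h1]

lemma bv_orthonormal : Orthonormal ℂ bv := by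
  rw [orthonormal_iff_ite]
  intro q q'
  rw [inner_bv, bv_apply]
  by_cases h : q = q'
  · subst h; simp
  · simp [h, Ne.symm h]

lemma bv_perp : (Submodule.span ℂ (Set.range bv))ᗮ = ⊥ := by
  rw [Submodule.eq_bot_iff]
  intro w hw
  have h : ∀ q : ℕ × Ix, (w q.1 : KS) q.2 = 0 := by
    intro q
    rw [← inner_bv]
    exact hw _ (Submodule.subset_span ⟨q, rfl⟩)
  ext m : 2
  ext κ : 2
  exact h (m, κ)

lemma exists_hilbert (e0 : ℕ ≃ ℕ × Ix) (w : DS) :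
    HasSum (fun k : ℕ => ((w (e0 k).1 : KS) (e0 k).2) • bv (e0 k)) w := by
  set B := HilbertBasis.mkOfOrthogonalEqBot bv_orthonormal bv_perp with hB
  have h1 := B.hasSum_repr w
  have h2 : ∀ q : ℕ × Ix, B q = bv q := fun q => by rw [hB, HilbertBasis.coe_mkOfOrthogonalEqBot]
  have h3 : ∀ q : ℕ × Ix, B.repr w q = (w q.1 : KS) q.2 := by
    intro q
    rw [HilbertBasis.repr_apply_apply, h2, inner_bv]
  have h4 : HasSum (fun q : ℕ × Ix => ((w q.1 : KS) q.2) • bv q) w := by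
    convert h1 using 2 with q
    rw [h2, h3]
  exact (e0.hasSum_iff (f := fun q : ℕ × Ix => ((w q.1 : KS) q.2) • bv q)).2 h4

lemma NK_single_smul (p : ℝ) (hp : 0 < p) (hp1 : p ≤ 1) (κ : Ix) (c : ℂ) :
    NK p (Pi.single κ c) = ENNReal.ofReal (‖c‖ ^ p) * NK p (Pi.single κ (1 : ℂ)) := by
  have h := (NK_pfun p hp hp1).smul c (lp.single 2 κ (1 : ℂ) : KS)
  have h1 : (⇑(c • (lp.single 2 κ (1 : ℂ) : KS)) : Ix → ℂ) = Pi.single κ c := by
    funext κ'
    by_cases h2 : κ' = κ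
    · subst h2; simp
    · simp [h2]
  have h3 : (⇑(lp.single 2 κ (1 : ℂ) : KS) : Ix → ℂ) = Pi.single κ 1 := by
    funext κ'
    by_cases h2 : κ' = κ
    · subst h2; simp
    · simp [h2]
  simp only at h
  rw [h1, h3] at h
  exact h

lemma coef_le (p : ℝ) (hp : 0 < p) (hp1 : p ≤ 1) (ω : ℝ≥0∞) (w : DS) (q : ℕ × Ix) :
    ENNReal.ofReal (‖(w q.1 : KS) q.2‖ ^ p) * (ω ^ q.1 * NK p (Pi.single q.2 (1 : ℂ))) ≤ ND p ω w := by
  unfold ND
  refine le_trans ?_ (ENNReal.le_tsum q.1)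
  have h1 : NK p (Pi.single q.2 ((w q.1 : KS) q.2)) ≤ NK p (⇑(w q.1 : KS)) := by
    apply NK_solid p hp
    intro κ
    by_cases h : κ = q.2
    · subst h; simp
    · simp [h]
  rw [NK_single_smul p hp hp1] at h1
  calc _ = ω ^ q.1 * (ENNReal.ofReal (‖(w q.1 : KS) q.2‖ ^ p) * NK p (Pi.single q.2 (1 : ℂ))) := by ring
    _ ≤ _ := by gcongr

lemma sum_apply (e0 : ℕ ≃ ℕ × Ix) (a : ℕ → ℂ) (G : Finset ℕ) (m : ℕ) (κ : Ix) :
    ((∑ k ∈ G, a k • bv (e0 k) : DS) m) κ =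
      if e0.symm (m, κ) ∈ G then a (e0.symm (m, κ)) else 0 := by
  have h1 : ((∑ k ∈ G, a k • bv (e0 k) : DS) m) κ = ∑ k ∈ G, a k * ((bv (e0 k) : DS) m) κ := by
    rw [← inner_bv (m, κ), inner_sum]
    apply Finset.sum_congr rfl
    intro k _
    rw [inner_smul_right, inner_bv]
  rw [h1]
  simp_rw [bv_apply]
  have h2 : ∀ k, (e0 k = (m, κ)) ↔ k = e0.symm (m, κ) := fun k => by
    rw [Equiv.eq_symm_apply]
  simp_rw [h2]
  simp

lemma ND_mono (p : ℝ) (hp : 0 < p) (ω : ℝ≥0∞) (w w' : DS)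
    (h : ∀ m κ, ‖(w m : KS) κ‖ ≤ ‖(w' m : KS) κ‖) : ND p ω w ≤ ND p ω w' := by
  unfold ND
  apply ENNReal.tsum_le_tsum
  intro m
  gcongr
  exact NK_solid p hp _ _ (h m)

end Pool.Agent.HpBall2
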