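import Mathlib
import Pool.Agent.HpBall2.Defs
import Pool.Agent.HpBall.Geom
import Pool.Agent.HpBall.Sphere
import Pool.Agent.HpBall2.Haus
import Pool.Agent.HpBall2.MainC

set_option autoImplicit false

open MeasureTheory Complex
open scoped ENNReal NNReal

namespace Pool.Agent.HpBall2

open Pool.Agent.HpBall

section B31
variable {X : Type} [NormedAddCommGroup X] [InnerProductSpace ℂ X] [FiniteDimensional ℂ X]
  [MeasurableSpace X] [BorelSpace X]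

/-- the supremum of the integral means with respect to the Hausdorff measure -/
noncomputable def B31_NH (d p : ℝ) (g : X → ℂ) : ℝ≥0∞ :=
  ⨆ r ∈ Set.Ico (0 : ℝ) 1, ∫⁻ ζ in Metric.sphere (0 : X) 1, ‖g ((r : ℂ) • ζ)‖ₑ ^ p
    ∂(MeasureTheory.Measure.hausdorffMeasure d : MeasureTheory.Measure X)

theorem B31_enorm (p : ℝ) (hp : 0 < p) (z : ℂ) : ‖z‖ₑ ^ p = ENNReal.ofReal (‖z‖ ^ p) := by
  rw [← ofReal_norm, ENNReal.ofReal_rpow_of_nonneg (norm_nonneg z) hp.le]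

theorem B31_trans {n : ℕ} (Φ : X ≃ₗᵢ[ℂ] E n) (d : ℝ) (F : E n → ℝ≥0∞) :
    ∫⁻ ζ in Metric.sphere (0 : X) 1, F (Φ ζ) ∂(Measure.hausdorffMeasure d : Measure X) =
    ∫⁻ y in Metric.sphere (0 : E n) 1, F y ∂(Measure.hausdorffMeasure d : Measure (E n)) := by
  have h1 := Φ.toIsometryEquiv.measurePreserving_hausdorffMeasure d
  have h2 : MeasurableEmbedding Φ.toIsometryEquiv := Φ.toIsometryEquiv.toHomeomorph.measurableEmbedding
  have h3 := h1.setLIntegral_comp_preimage_emb h2 F (Metric.sphere (0 : E n) 1)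
  have h4 : Φ.toIsometryEquiv ⁻¹' (Metric.sphere (0 : E n) 1) = Metric.sphere (0 : X) 1 := by
    ext x
    simp
  rw [h4] at h3
  exact h3

theorem B31_NH_eq {n : ℕ} (Φ : X ≃ₗᵢ[ℂ] E n) (d p : ℝ) (hp : 0 < p) (g : X → ℂ) :
    B31_NH d p g = ⨆ r ∈ Set.Ico (0 : ℝ) 1, ∫⁻ y in Metric.sphere (0 : E n) 1,
      ENNReal.ofReal (‖g (Φ.symm ((r : ℂ) • y))‖ ^ p) ∂(Measure.hausdorffMeasure d : Measure (E n)) := by
  unfold B31_NH
  refine iSup_congr fun r => iSup_congr fun _ => ?_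
  rw [← B31_trans Φ d]
  refine lintegral_congr fun ζ => ?_
  rw [B31_enorm p hp, map_smul, LinearIsometryEquiv.symm_apply_apply]

theorem B31_comp (n : ℕ) (hn : 1 ≤ n) : ∃ K C : ℝ≥0∞, K ≠ ⊤ ∧ C ≠ ⊤ ∧ ∀ F : E n → ℝ≥0∞,
    ∫⁻ y, F y ∂(sig n) ≤ K * ∫⁻ y in Metric.sphere (0 : E n) 1, F y
      ∂(Measure.hausdorffMeasure ((2 * n - 1 : ℕ) : ℝ) : Measure (E n)) ∧
    ∫⁻ y in Metric.sphere (0 : E n) 1, F y
      ∂(Measure.hausdorffMeasure ((2 * n - 1 : ℕ) : ℝ) : Measure (E n)) ≤ C * ∫⁻ y, F y ∂(sig n) := by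
  obtain ⟨c, C, hc, hC, h⟩ := hausdorff_sig n hn
  have hc1 : min c 1 ≠ 0 := by
    rcases le_total c 1 with h | h
    · rwa [min_eq_left h]
    · rw [min_eq_right h]; exact one_ne_zero
  have hc2 : min c 1 ≠ ⊤ := ne_top_of_le_ne_top ENNReal.one_ne_top (min_le_right _ _)
  refine ⟨(min c 1)⁻¹, C, ENNReal.inv_ne_top.2 hc1, hC, fun F => ⟨?_, ?_⟩⟩
  · rw [← ENNReal.mul_le_iff_le_inv hc1 hc2, ← smul_eq_mul, ← lintegral_smul_measure]
    refine lintegral_mono' ?_ le_rfl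
    rw [Measure.le_iff]
    intro s hs
    rw [Measure.restrict_apply hs, Measure.smul_apply, smul_eq_mul]
    exact (mul_le_mul_left (min_le_left _ _) _).trans (h s hs).1
  · have e : C * ∫⁻ y, F y ∂(sig n) = ∫⁻ y, F y ∂(C • sig n) := by
      rw [lintegral_smul_measure, smul_eq_mul]
    rw [e]
    refine lintegral_mono' ?_ le_rfl
    rw [Measure.le_iff]
    intro s hs
    rw [Measure.restrict_apply hs, Measure.smul_apply, smul_eq_mul]
    exact (h s hs).2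

theorem B31_cmp {n : ℕ} (hn : 1 ≤ n) (Φ : X ≃ₗᵢ[ℂ] E n) (p : ℝ) (hp : 0 < p) :
    ∃ K C : ℝ≥0∞, K ≠ ⊤ ∧ C ≠ ⊤ ∧ ∀ g : X → ℂ,
      NF n p (fun y => g (Φ.symm y)) ≤ K * B31_NH ((2 * n - 1 : ℕ) : ℝ) p g ∧
      B31_NH ((2 * n - 1 : ℕ) : ℝ) p g ≤ C * NF n p (fun y => g (Φ.symm y)) := by
  obtain ⟨K, C, hK, hC, h⟩ := B31_comp n hn
  refine ⟨K, C, hK, hC, fun g => ⟨?_, ?_⟩⟩
  · unfold NF
    refine iSup₂_le fun r hr => ?_
    refine ((h _).1).trans ?_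
    rw [B31_NH_eq Φ _ p hp]
    gcongr
    exact le_iSup₂ (f := fun (r : ℝ) (_ : r ∈ Set.Ico (0 : ℝ) 1) => ∫⁻ y in Metric.sphere (0 : E n) 1,
      ENNReal.ofReal (‖g (Φ.symm ((r : ℂ) • y))‖ ^ p)
        ∂(Measure.hausdorffMeasure ((2 * n - 1 : ℕ) : ℝ) : Measure (E n))) r hr
  · rw [B31_NH_eq Φ _ p hp]
    refine iSup₂_le fun r hr => ?_
    refine ((h _).2).trans ?_
    unfold NF
    gcongr
    exact le_iSup₂ (f := fun (r : ℝ) (_ : r ∈ Set.Ico (0 : ℝ) 1) => ∫⁻ y,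
      ENNReal.ofReal (‖g (Φ.symm ((r : ℂ) • y))‖ ^ p) ∂(sig n)) r hr

theorem B31_lt {x y C ε : ℝ≥0∞} (h : x ≤ C * y) (hy : y < ε / (C + 1)) : x < ε := by
  refine lt_of_le_of_lt ?_ (ENNReal.mul_lt_of_lt_div hy)
  refine h.trans ?_
  rw [mul_comm]
  gcongr
  exact le_self_add

theorem B31_fin (n : ℕ) (p : ℝ) (hp : 0 < p) (hp1 : p ≤ 1) (g : E n → ℂ)
    (h : ∀ r : ℝ, 0 ≤ r → r < 1 →
      ∫⁻ ξ, ENNReal.ofReal (‖g ((r : ℂ) • ξ)‖ ^ (2 : ℝ)) ∂(sig n) ≤ 1) : NF n p g ≠ ⊤ := by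
  have key : NF n p g ≤ sig n Set.univ + 1 := by
    unfold NF
    refine iSup₂_le fun r hr => ?_
    have h1 : ∫⁻ ξ, ENNReal.ofReal (‖g ((r : ℂ) • ξ)‖ ^ p) ∂(sig n) ≤
        ∫⁻ ξ, (1 + ENNReal.ofReal (‖g ((r : ℂ) • ξ)‖ ^ (2 : ℝ))) ∂(sig n) := by
      refine lintegral_mono fun ξ => ?_
      simp only
      rw [← ENNReal.ofReal_one, ← ENNReal.ofReal_add zero_le_one (by positivity)]
      refine ENNReal.ofReal_le_ofReal ?_
      have h0 := norm_nonneg (g ((r : ℂ) • ξ))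
      rcases le_total ‖g ((r : ℂ) • ξ)‖ 1 with h2 | h2
      · have := Real.rpow_le_one h0 h2 hp.le
        have h3 : 0 ≤ ‖g ((r : ℂ) • ξ)‖ ^ (2 : ℝ) := by positivity
        linarith
      · have := Real.rpow_le_rpow_of_exponent_le h2 (show p ≤ 2 by linarith)
        linarith
    refine h1.trans ?_
    rw [lintegral_add_left measurable_const, lintegral_one]
    gcongr
    exact h r hr.1 hr.2
  refine ne_top_of_le_ne_top ?_ key
  exact ENNReal.add_ne_top.2 ⟨measure_ne_top _ _, ENNReal.one_ne_top⟩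

end B31

/-- TARGET -/
theorem S04283_of :
    ∀ (E : Type) [NormedAddCommGroup E] [InnerProductSpace ℂ E] [FiniteDimensional ℂ E]
      [MeasurableSpace E] [BorelSpace E],
      2 ≤ Module.finrank ℂ E → ∀ p : ℝ, 0 < p → p < 1 →
        ∃ e : ℕ → (E → ℂ),
          (∀ k, DifferentiableOn ℂ (e k) (Metric.ball (0 : E) 1) ∧
            (⨆ r ∈ Set.Ico (0 : ℝ) 1,
              ∫⁻ ζ in Metric.sphere (0 : E) 1, ‖e k ((r : ℂ) • ζ)‖ₑ ^ p
                ∂(MeasureTheory.Measure.hausdorffMeasure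
                    ((2 * Module.finrank ℂ E - 1 : ℕ) : ℝ) : MeasureTheory.Measure E)) < ⊤) ∧
          ∀ f : E → ℂ, DifferentiableOn ℂ f (Metric.ball (0 : E) 1) →
            (⨆ r ∈ Set.Ico (0 : ℝ) 1,
              ∫⁻ ζ in Metric.sphere (0 : E) 1, ‖f ((r : ℂ) • ζ)‖ₑ ^ p
                ∂(MeasureTheory.Measure.hausdorffMeasure
                    ((2 * Module.finrank ℂ E - 1 : ℕ) : ℝ) : MeasureTheory.Measure E)) < ⊤ →
            ∃! a : ℕ → ℂ, ∀ ε : ENNReal, 0 < ε → ∃ F : Finset ℕ, ∀ G : Finset ℕ, F ⊆ G →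
              (⨆ r ∈ Set.Ico (0 : ℝ) 1,
                ∫⁻ ζ in Metric.sphere (0 : E) 1,
                  ‖f ((r : ℂ) • ζ) - ∑ k ∈ G, a k * e k ((r : ℂ) • ζ)‖ₑ ^ p
                  ∂(MeasureTheory.Measure.hausdorffMeasure
                    ((2 * Module.finrank ℂ E - 1 : ℕ) : ℝ) : MeasureTheory.Measure E)) < ε := by
  intro X _ _ _ _ _ hn p hp hp1
  have hm : 1 ≤ Module.finrank ℂ X := le_trans (by norm_num) hn
  let Φ : X ≃ₗᵢ[ℂ] EuclideanSpace ℂ (Fin (Module.finrank ℂ X)) := (stdOrthonormalBasis ℂ X).repr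
  obtain ⟨K, C, hK, hC, hcmp⟩ := B31_cmp hm Φ p hp
  obtain ⟨e, he1, he2, _, he4⟩ := main_basis _ hm p hp hp1.le
  have hball : Set.MapsTo Φ (Metric.ball 0 1) (Metric.ball 0 1) := by
    intro x hx
    simpa using hx
  have hball' : Set.MapsTo Φ.symm (Metric.ball 0 1) (Metric.ball 0 1) := by
    intro x hx
    simpa using hx
  refine ⟨fun k z => e k (Φ z), fun k => ⟨?_, ?_⟩, ?_⟩
  · exact (he1 k).comp Φ.differentiable.differentiableOn hball
  · have h1 := (hcmp (fun z => e k (Φ z))).2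
    simp only [LinearIsometryEquiv.apply_symm_apply] at h1
    refine lt_of_le_of_lt h1 ?_
    exact ENNReal.mul_lt_top hC.lt_top (B31_fin _ p hp hp1.le (e k) (he2 k)).lt_top
  · intro f hf hfin
    have h1 := (hcmp f).1
    have h2 : NF _ p (fun y => f (Φ.symm y)) ≠ ⊤ := by
      refine ne_top_of_le_ne_top ?_ h1
      exact (ENNReal.mul_lt_top hK.lt_top hfin).ne
    obtain ⟨a, ha, huniq⟩ := he4 (fun y => f (Φ.symm y))
      (hf.comp Φ.symm.differentiable.differentiableOn hball') h2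
    have hG : ∀ (b : ℕ → ℂ) (G : Finset ℕ),
        NF _ p (fun z => f (Φ.symm z) - ∑ k ∈ G, b k * e k z) ≤
          K * B31_NH ((2 * Module.finrank ℂ X - 1 : ℕ) : ℝ) p (fun z => f z - ∑ k ∈ G, b k * e k (Φ z)) ∧
        B31_NH ((2 * Module.finrank ℂ X - 1 : ℕ) : ℝ) p (fun z => f z - ∑ k ∈ G, b k * e k (Φ z)) ≤
          C * NF _ p (fun z => f (Φ.symm z) - ∑ k ∈ G, b k * e k z) := by
      intro b G
      have h3 := hcmp (fun z => f z - ∑ k ∈ G, b k * e k (Φ z))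
      simp only [LinearIsometryEquiv.apply_symm_apply] at h3
      exact h3
    refine ⟨a, ?_, ?_⟩
    · intro ε hε
      obtain ⟨F, hF⟩ := ha (ε / (C + 1)) (ENNReal.div_pos hε.ne' (ENNReal.add_ne_top.2 ⟨hC, ENNReal.one_ne_top⟩))
      refine ⟨F, fun G hFG => ?_⟩
      exact B31_lt (hG a G).2 (hF G hFG)
    · intro b hb
      refine huniq b fun ε hε => ?_
      obtain ⟨F, hF⟩ := hb (ε / (K + 1)) (ENNReal.div_pos hε.ne' (ENNReal.add_ne_top.2 ⟨hK, ENNReal.one_ne_top⟩))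
      refine ⟨F, fun G hFG => ?_⟩
      exact B31_lt (hG b G).1 (hF G hFG)

end Pool.Agent.HpBall2
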