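import Mathlib
import Pool.Agent.HpBall2.Defs
import Pool.Agent.HpBall.Geom
import Pool.Agent.HpBall.Sphere
import Pool.Agent.HpBall.Transfer
import Pool.Agent.HpBall2.MainC

set_option autoImplicit false

open MeasureTheory Complex
open scoped ENNReal NNReal

namespace Pool.Agent.HpBall2

open Pool.Agent.HpBall

lemma B32_smul {n : ℕ} (c : ℝ) (z : Fin n → ℂ) : (c • z) = ((c : ℂ) • z) := by
  funext i
  simp [Complex.real_smul]

/-- the radial mean of order one -/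
noncomputable def B32_I {n : ℕ} (u : (Fin n → ℂ) → ℂ) (r : ℝ) : ℝ :=
  ∫ z : Fin n → ℂ, ‖u ((r / Real.sqrt (∑ i, ‖z i‖ ^ 2)) • z)‖ * Real.exp (-(∑ i, ‖z i‖ ^ 2))

lemma B32_I_nonneg {n : ℕ} (u : (Fin n → ℂ) → ℂ) (r : ℝ) : 0 ≤ B32_I u r :=
  integral_nonneg fun z => by positivity

lemma B32_T1 {n : ℕ} (hn : 1 ≤ n) {u : (Fin n → ℂ) → ℂ}
    (hu : DifferentiableOn ℂ u {z : Fin n → ℂ | ∑ i, ‖z i‖ ^ 2 < 1}) {r : ℝ} (hr0 : 0 ≤ r)
    (hr1 : r < 1) :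
    ENNReal.ofReal (B32_I u r) =
      ∫⁻ ξ : E n, ENNReal.ofReal (‖(fun z : E n => u (WithLp.ofLp z)) ((r : ℂ) • ξ)‖ ^ (1 : ℝ)) ∂(sig n) := by
  have h := transfer n hn 1 one_pos u hu r hr0 hr1
  rw [← h]
  unfold B32_I
  congr 1
  refine integral_congr_ae (Filter.Eventually.of_forall fun z => ?_)
  simp only [Real.rpow_one, B32_smul]

lemma B32_meas {n : ℕ} (hn : 1 ≤ n) {g : E n → ℂ} (hg : DifferentiableOn ℂ g (Metric.ball 0 1))
    {r : ℝ} (hr0 : 0 ≤ r) (hr1 : r < 1) :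
    AEMeasurable (fun ξ : E n => g ((r : ℂ) • ξ)) (sig n) := by
  set ft : E n → ℂ := (Metric.ball (0 : E n) 1).indicator g with hftd
  have hft : Measurable ft := by
    apply measurable_of_restrict_of_restrict_compl Metric.isOpen_ball.measurableSet
    · have : (Metric.ball (0 : E n) 1).domRestrict ft = (Metric.ball (0 : E n) 1).domRestrict g := by
        ext z
        simp only [Set.domRestrict_apply, hftd]
        rw [Set.indicator_of_mem z.2]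
      rw [this]
      exact (continuousOn_iff_continuous_domRestrict.1 hg.continuousOn).measurable
    · have : (Metric.ball (0 : E n) 1)ᶜ.domRestrict ft = fun _ => 0 := by
        ext z
        simp only [Set.domRestrict_apply, hftd]
        rw [Set.indicator_of_notMem z.2]
      rw [this]
      exact measurable_const
  refine ⟨fun ξ => ft ((r : ℂ) • ξ), hft.comp (measurable_const_smul (r : ℂ)), ?_⟩
  filter_upwards [sig_ae_norm hn] with ξ hξ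
  simp only [hftd]
  rw [Set.indicator_of_mem]
  rw [mem_ball_zero_iff, norm_smul, hξ, Complex.norm_real, Real.norm_of_nonneg hr0]
  linarith

/-- the value at `r = 0` is controlled by the values for `r > 0` -/
lemma B32_zero {n : ℕ} (hn : 1 ≤ n) {g : E n → ℂ} (hg : DifferentiableOn ℂ g (Metric.ball 0 1))
    (B : ℝ≥0∞) (hB : ∀ r : ℝ, 0 < r → r < 1 →
      ∫⁻ ξ, ENNReal.ofReal (‖g ((r : ℂ) • ξ)‖ ^ (1 : ℝ)) ∂(sig n) ≤ B) :
    ∫⁻ ξ, ENNReal.ofReal (‖g (((0 : ℝ) : ℂ) • ξ)‖ ^ (1 : ℝ)) ∂(sig n) ≤ B := by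
  let rr : ℕ → ℝ := fun k => 1 / ((k : ℝ) + 2)
  have hrr0 : ∀ k, 0 < rr k := fun k => by positivity
  have hrr1 : ∀ k, rr k < 1 := fun k => by
    show 1 / ((k : ℝ) + 2) < 1
    rw [div_lt_one (by positivity)]
    have : (0 : ℝ) ≤ k := by positivity
    linarith
  have hrrt : Filter.Tendsto rr Filter.atTop (nhds 0) := by
    have h1 : Filter.Tendsto (fun k : ℕ => (k : ℝ) + 2) Filter.atTop Filter.atTop :=
      Filter.tendsto_atTop_add_const_right _ _ tendsto_natCast_atTop_atTop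
    exact h1.const_div_atTop 1
  have hlim : ∀ ξ : E n, Filter.Tendsto
      (fun k => ENNReal.ofReal (‖g ((rr k : ℂ) • ξ)‖ ^ (1 : ℝ))) Filter.atTop
      (nhds (ENNReal.ofReal (‖g (((0 : ℝ) : ℂ) • ξ)‖ ^ (1 : ℝ)))) := by
    intro ξ
    have h1 : Filter.Tendsto (fun k => ((rr k : ℝ) : ℂ) • ξ) Filter.atTop
        (nhds (((0 : ℝ) : ℂ) • ξ)) :=
      (((Complex.continuous_ofReal.tendsto 0).comp hrrt).smul_const ξ)
    have h2 : ContinuousAt g (((0 : ℝ) : ℂ) • ξ) := by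
      have h0 : ((0 : ℝ) : ℂ) • ξ = 0 := by simp
      rw [h0]
      exact (hg.differentiableAt (Metric.ball_mem_nhds 0 one_pos)).continuousAt
    have h3 := (h2.tendsto.comp h1).norm
    simp only [Real.rpow_one]
    exact ENNReal.tendsto_ofReal h3
  have e1 : ∫⁻ ξ, ENNReal.ofReal (‖g (((0 : ℝ) : ℂ) • ξ)‖ ^ (1 : ℝ)) ∂(sig n) =
      ∫⁻ ξ, Filter.liminf (fun k => ENNReal.ofReal (‖g ((rr k : ℂ) • ξ)‖ ^ (1 : ℝ))) Filter.atTop
        ∂(sig n) := by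
    refine lintegral_congr fun ξ => ?_
    exact (hlim ξ).liminf_eq.symm
  rw [e1]
  refine (lintegral_liminf_le' fun k => ?_).trans ?_
  · exact ((B32_meas hn hg (hrr0 k).le (hrr1 k)).norm.pow_const (1 : ℝ)).ennreal_ofReal
  · refine Filter.liminf_le_of_frequently_le' ?_
    exact Filter.Frequently.of_forall fun k => hB (rr k) (hrr0 k) (hrr1 k)

lemma B32_NF_le {n : ℕ} (hn : 1 ≤ n) {u : (Fin n → ℂ) → ℂ}
    (hu : DifferentiableOn ℂ u {z : Fin n → ℂ | ∑ i, ‖z i‖ ^ 2 < 1}) (B : ℝ)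
    (hB : ∀ r : ℝ, 0 < r → r < 1 → B32_I u r ≤ B) :
    NF n 1 (fun z : E n => u (WithLp.ofLp z)) ≤ ENNReal.ofReal B := by
  have h1 : ∀ r : ℝ, 0 < r → r < 1 → ∫⁻ ξ, ENNReal.ofReal
      (‖(fun z : E n => u (WithLp.ofLp z)) ((r : ℂ) • ξ)‖ ^ (1 : ℝ)) ∂(sig n) ≤ ENNReal.ofReal B := by
    intro r hr0 hr1
    rw [← B32_T1 hn hu hr0.le hr1]
    exact ENNReal.ofReal_le_ofReal (hB r hr0 hr1)
  unfold NF
  refine iSup₂_le fun r hr => ?_
  rcases hr.1.eq_or_lt with h0 | h0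
  · rw [← h0]
    exact B32_zero hn ((transfer_diff n u).1 hu) _ h1
  · exact h1 r h0 hr.2

lemma B32_I_le {n : ℕ} (hn : 1 ≤ n) {u : (Fin n → ℂ) → ℂ}
    (hu : DifferentiableOn ℂ u {z : Fin n → ℂ | ∑ i, ‖z i‖ ^ 2 < 1})
    (hNF : NF n 1 (fun z : E n => u (WithLp.ofLp z)) ≠ ⊤) {r : ℝ} (hr0 : 0 < r) (hr1 : r < 1) :
    B32_I u r ≤ (NF n 1 (fun z : E n => u (WithLp.ofLp z))).toReal := by
  rw [← ENNReal.ofReal_le_iff_le_toReal hNF, B32_T1 hn hu hr0.le hr1]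
  unfold NF
  exact le_iSup₂_of_le r ⟨hr0.le, hr1⟩ le_rfl

/-- finiteness of the quasi norm from the second order means -/
lemma B32_NF_e {n : ℕ} (hn : 1 ≤ n) {g : E n → ℂ} (hg : DifferentiableOn ℂ g (Metric.ball 0 1))
    (h2 : ∀ r : ℝ, 0 ≤ r → r < 1 →
        ∫⁻ ξ, ENNReal.ofReal (‖g ((r : ℂ) • ξ)‖ ^ (2 : ℝ)) ∂(sig n) ≤ 1) :
    NF n 1 g ≠ ⊤ := by
  have h3 : NF n 1 g ≤ sig n Set.univ + 1 := by
    unfold NF
    refine iSup₂_le fun r hr => ?_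
    calc ∫⁻ ξ, ENNReal.ofReal (‖g ((r : ℂ) • ξ)‖ ^ (1 : ℝ)) ∂(sig n)
        ≤ ∫⁻ ξ, (1 + ENNReal.ofReal (‖g ((r : ℂ) • ξ)‖ ^ (2 : ℝ))) ∂(sig n) := by
          refine lintegral_mono fun ξ => ?_
          rw [← ENNReal.ofReal_one, ← ENNReal.ofReal_add zero_le_one (by positivity)]
          refine ENNReal.ofReal_le_ofReal ?_
          rw [Real.rpow_one]
          have : ‖g ((r : ℂ) • ξ)‖ ^ (2 : ℝ) = ‖g ((r : ℂ) • ξ)‖ ^ 2 := by
            rw [← Real.rpow_natCast]; norm_num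
          rw [this]
          nlinarith [sq_nonneg (‖g ((r : ℂ) • ξ)‖ - 1), norm_nonneg (g ((r : ℂ) • ξ))]
      _ = sig n Set.univ + ∫⁻ ξ, ENNReal.ofReal (‖g ((r : ℂ) • ξ)‖ ^ (2 : ℝ)) ∂(sig n) := by
          rw [lintegral_add_left measurable_const, lintegral_const, one_mul]
      _ ≤ sig n Set.univ + 1 := by gcongr; exact h2 r hr.1 hr.2
  exact ne_top_of_le_ne_top (ENNReal.add_ne_top.2 ⟨measure_ne_top _ _, ENNReal.one_ne_top⟩) h3

lemma B32_NF_sub {n : ℕ} (hn : 1 ≤ n) {g : E n → ℂ} {e : ℕ → E n → ℂ}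
    (hg : DifferentiableOn ℂ g (Metric.ball 0 1))
    (he : ∀ k, DifferentiableOn ℂ (e k) (Metric.ball 0 1))
    (hgf : NF n 1 g ≠ ⊤) (hef : ∀ k, NF n 1 (e k) ≠ ⊤) (a : ℕ → ℂ) (G : Finset ℕ) :
    NF n 1 (fun z => g z - ∑ k ∈ G, a k * e k z) ≠ ⊤ := by
  have h1 : NF n 1 (fun z => g z - ∑ k ∈ G, a k * e k z) ≤
      NF n 1 g + ∑ k ∈ G, ENNReal.ofReal ‖a k‖ * NF n 1 (e k) := by
    conv_lhs => unfold NF
    refine iSup₂_le fun r hr => ?_
    have hm : ∀ {u : E n → ℂ}, DifferentiableOn ℂ u (Metric.ball 0 1) →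
        AEMeasurable (fun ξ => ENNReal.ofReal ‖u ((r : ℂ) • ξ)‖) (sig n) := fun hu =>
      (B32_meas hn hu hr.1 hr.2).norm.ennreal_ofReal
    have hle : ∀ u : E n → ℂ, ∫⁻ ξ, ENNReal.ofReal ‖u ((r : ℂ) • ξ)‖ ∂(sig n) ≤ NF n 1 u := by
      intro u
      unfold NF
      refine le_iSup₂_of_le r hr ?_
      simp only [Real.rpow_one]
      exact le_rfl
    calc ∫⁻ ξ, ENNReal.ofReal (‖g ((r : ℂ) • ξ) - ∑ k ∈ G, a k * e k ((r : ℂ) • ξ)‖ ^ (1 : ℝ)) ∂(sig n)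
        ≤ ∫⁻ ξ, (ENNReal.ofReal ‖g ((r : ℂ) • ξ)‖ +
          ∑ k ∈ G, ENNReal.ofReal ‖a k‖ * ENNReal.ofReal ‖e k ((r : ℂ) • ξ)‖) ∂(sig n) := by
          refine lintegral_mono fun ξ => ?_
          have e1 : ∑ k ∈ G, ENNReal.ofReal ‖a k‖ * ENNReal.ofReal ‖e k ((r : ℂ) • ξ)‖ =
              ENNReal.ofReal (∑ k ∈ G, ‖a k * e k ((r : ℂ) • ξ)‖) := by
            rw [ENNReal.ofReal_sum_of_nonneg fun k _ => norm_nonneg _]
            refine Finset.sum_congr rfl fun k _ => ?_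
            rw [← ENNReal.ofReal_mul (norm_nonneg _), norm_mul]
          rw [e1, ← ENNReal.ofReal_add (norm_nonneg _) (Finset.sum_nonneg fun k _ => norm_nonneg _),
            Real.rpow_one]
          refine ENNReal.ofReal_le_ofReal ?_
          exact (norm_sub_le _ _).trans (add_le_add le_rfl (norm_sum_le _ _))
      _ = ∫⁻ ξ, ENNReal.ofReal ‖g ((r : ℂ) • ξ)‖ ∂(sig n) +
          ∑ k ∈ G, ENNReal.ofReal ‖a k‖ * ∫⁻ ξ, ENNReal.ofReal ‖e k ((r : ℂ) • ξ)‖ ∂(sig n) := by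
          rw [lintegral_add_left' (hm hg), lintegral_finsetSum' _ fun k _ => (hm (he k)).const_mul _]
          congr 1
          refine Finset.sum_congr rfl fun k _ => ?_
          rw [lintegral_const_mul'' _ (hm (he k))]
      _ ≤ _ := by
          refine add_le_add (hle g) (Finset.sum_le_sum fun k _ => ?_)
          gcongr
          exact hle (e k)
  refine ne_top_of_le_ne_top (ENNReal.add_ne_top.2 ⟨hgf, ?_⟩) h1
  refine (ENNReal.sum_lt_top.2 fun k _ => ?_).ne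
  exact ENNReal.mul_lt_top ENNReal.ofReal_lt_top (hef k).lt_top

/-- transfer of complex integrals -/
lemma B32_TC {n : ℕ} (hn : 1 ≤ n) {g h : E n → ℂ} (hg : DifferentiableOn ℂ g (Metric.ball 0 1))
    (hh : DifferentiableOn ℂ h (Metric.ball 0 1)) {r : ℝ} (hr0 : 0 ≤ r) (hr1 : r < 1) :
    ∫ z : Fin n → ℂ, g (WithLp.toLp 2 ((r / Real.sqrt (∑ i, ‖z i‖ ^ 2)) • z))
            * starRingEnd ℂ (h (WithLp.toLp 2 ((r / Real.sqrt (∑ i, ‖z i‖ ^ 2)) • z)))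
            * ((Real.exp (-(∑ i, ‖z i‖ ^ 2)) : ℝ) : ℂ) =
      ∫ ξ, g ((r : ℂ) • ξ) * (starRingEnd ℂ) (h ((r : ℂ) • ξ)) ∂(sig n) := by
  set F : E n → ℂ := fun ξ => g ((r : ℂ) • ξ) * (starRingEnd ℂ) (h ((r : ℂ) • ξ)) with hF
  -- measurable version
  set S : Set (E n) := Metric.closedBall (0 : E n) 1 with hS
  have hFc : ContinuousOn F S := by
    have hmaps : Set.MapsTo (fun ξ : E n => (r : ℂ) • ξ) S (Metric.ball 0 1) := by
      intro ξ hξ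
      rw [mem_closedBall_zero_iff] at hξ
      rw [mem_ball_zero_iff, norm_smul, Complex.norm_real, Real.norm_of_nonneg hr0]
      nlinarith [norm_nonneg ξ]
    have hsm : ContinuousOn (fun ξ : E n => (r : ℂ) • ξ) S := (continuous_const_smul (r : ℂ)).continuousOn
    exact (hg.continuousOn.comp hsm hmaps).mul
      (Complex.continuous_conj.comp_continuousOn (hh.continuousOn.comp hsm hmaps))
  set ft : E n → ℂ := S.indicator F with hftd
  have hSm : MeasurableSet S := Metric.isClosed_closedBall.measurableSet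
  have hft : Measurable ft := by
    apply measurable_of_restrict_of_restrict_compl hSm
    · have : S.domRestrict ft = S.domRestrict F := by
        ext z
        simp only [Set.domRestrict_apply, hftd]
        rw [Set.indicator_of_mem z.2]
      rw [this]
      exact (continuousOn_iff_continuous_domRestrict.1 hFc).measurable
    · have : Sᶜ.domRestrict ft = fun _ => 0 := by
        ext z
        simp only [Set.domRestrict_apply, hftd]
        rw [Set.indicator_of_notMem z.2]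
      rw [this]
      exact measurable_const
  have htoLp : Measurable (fun z : Fin n → ℂ => (WithLp.toLp 2 z : E n)) :=
    (PiLp.continuous_toLp 2 (fun _ : Fin n => ℂ)).measurable
  have hnorm : ∀ z : Fin n → ℂ, ‖(WithLp.toLp 2 z : E n)‖ = Real.sqrt (∑ i, ‖z i‖ ^ 2) := by
    intro z
    rw [EuclideanSpace.norm_eq]
  have hproj : ∀ z : E n, ((((‖z‖⁻¹ : ℝ)) : ℂ) • z) ∈ S := by
    intro z
    rw [hS, mem_closedBall_zero_iff, norm_smul, Complex.norm_real, norm_inv, norm_norm]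
    exact inv_mul_le_one
  have e1 : ∫ ξ, F ξ ∂(sig n) = ∫ ξ, ft ξ ∂(sig n) := by
    apply integral_congr_ae
    filter_upwards [sig_ae_norm hn] with ξ hξ
    rw [hftd, Set.indicator_of_mem]
    rw [hS, mem_closedBall_zero_iff, hξ]
  have e2 : ∫ ξ, ft ξ ∂(sig n) = ∫ z : E n, ft ((((‖z‖⁻¹ : ℝ)) : ℂ) • z) ∂(gam n) := by
    rw [sig, integral_map measurable_proj.aemeasurable hft.aestronglyMeasurable]
  have hex : Measurable (fun z : E n => ENNReal.ofReal (Real.exp (-‖z‖ ^ 2))) := by fun_prop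
  have e3 : ∫ z : E n, ft ((((‖z‖⁻¹ : ℝ)) : ℂ) • z) ∂(gam n) =
      ∫ z : E n, (ENNReal.ofReal (Real.exp (-‖z‖ ^ 2))).toReal • ft ((((‖z‖⁻¹ : ℝ)) : ℂ) • z) ∂(vol n) := by
    rw [gam, integral_withDensity_eq_integral_toReal_smul hex
      (Filter.Eventually.of_forall fun _ => ENNReal.ofReal_lt_top)]
  have e4 : ∫ z : E n, (ENNReal.ofReal (Real.exp (-‖z‖ ^ 2))).toReal • ft ((((‖z‖⁻¹ : ℝ)) : ℂ) • z) ∂(vol n)
      = ∫ z : Fin n → ℂ, (ENNReal.ofReal (Real.exp (-‖(WithLp.toLp 2 z : E n)‖ ^ 2))).toReal •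
        ft ((((‖(WithLp.toLp 2 z : E n)‖⁻¹ : ℝ)) : ℂ) • (WithLp.toLp 2 z : E n)) := by
    rw [vol, integral_map htoLp.aemeasurable]
    exact ((hex.ennreal_toReal).smul (hft.comp measurable_proj)).aestronglyMeasurable
  rw [e1, e2, e3, e4]
  refine integral_congr_ae (Filter.Eventually.of_forall fun z => ?_)
  have hw : (r : ℂ) • ((((‖(WithLp.toLp 2 z : E n)‖⁻¹ : ℝ)) : ℂ) • (WithLp.toLp 2 z : E n)) =
      WithLp.toLp 2 ((r / Real.sqrt (∑ i, ‖z i‖ ^ 2)) • z) := by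
    rw [hnorm, smul_smul, B32_smul, WithLp.toLp_smul]
    simp only [div_eq_mul_inv, Complex.ofReal_mul]
  have hq : ‖(WithLp.toLp 2 z : E n)‖ ^ 2 = ∑ i, ‖z i‖ ^ 2 := by
    rw [EuclideanSpace.norm_sq_eq]
  show g (WithLp.toLp 2 ((r / Real.sqrt (∑ i, ‖z i‖ ^ 2)) • z))
            * starRingEnd ℂ (h (WithLp.toLp 2 ((r / Real.sqrt (∑ i, ‖z i‖ ^ 2)) • z)))
            * ((Real.exp (-(∑ i, ‖z i‖ ^ 2)) : ℝ) : ℂ) =
    (ENNReal.ofReal (Real.exp (-‖(WithLp.toLp 2 z : E n)‖ ^ 2))).toReal •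
        ft ((((‖(WithLp.toLp 2 z : E n)‖⁻¹ : ℝ)) : ℂ) • (WithLp.toLp 2 z : E n))
  rw [hftd, Set.indicator_of_mem (hproj _), hF]
  simp only
  rw [hw, hq, ENNReal.toReal_ofReal (Real.exp_pos _).le, Complex.real_smul]
  ring

/-- TARGET -/
theorem S02791_of :
    ∀ n : ℕ, 2 ≤ n →
    ∃ e : ℕ → (Fin n → ℂ) → ℂ,
      (∀ k, DifferentiableOn ℂ (e k) {z : Fin n → ℂ | ∑ i, ‖z i‖ ^ 2 < 1}) ∧
      (∀ k, BddAbove (Set.range fun r : Set.Ioo (0:ℝ) 1 =>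
          ∫ z : Fin n → ℂ, ‖e k (((r : ℝ) / Real.sqrt (∑ i, ‖z i‖ ^ 2)) • z)‖ ^ 2
            * Real.exp (-(∑ i, ‖z i‖ ^ 2)))) ∧
      (∃ c : ℝ, 0 < c ∧ ∀ j k : ℕ, Filter.Tendsto (fun r : ℝ =>
          ∫ z : Fin n → ℂ, e j ((r / Real.sqrt (∑ i, ‖z i‖ ^ 2)) • z)
            * starRingEnd ℂ (e k ((r / Real.sqrt (∑ i, ‖z i‖ ^ 2)) • z))
            * ((Real.exp (-(∑ i, ‖z i‖ ^ 2)) : ℝ) : ℂ))
          (nhdsWithin (1:ℝ) (Set.Iio 1)) (nhds (if j = k then (c : ℂ) else 0))) ∧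
      ∀ f : (Fin n → ℂ) → ℂ,
        DifferentiableOn ℂ f {z : Fin n → ℂ | ∑ i, ‖z i‖ ^ 2 < 1} →
        BddAbove (Set.range fun r : Set.Ioo (0:ℝ) 1 =>
          ∫ z : Fin n → ℂ, ‖f (((r : ℝ) / Real.sqrt (∑ i, ‖z i‖ ^ 2)) • z)‖
            * Real.exp (-(∑ i, ‖z i‖ ^ 2))) →
        ∃! a : ℕ → ℂ, Filter.Tendsto (fun G : Finset ℕ =>
          ⨆ r : Set.Ioo (0:ℝ) 1, ∫ z : Fin n → ℂ,
            ‖f (((r : ℝ) / Real.sqrt (∑ i, ‖z i‖ ^ 2)) • z)
              - ∑ k ∈ G, a k * e k (((r : ℝ) / Real.sqrt (∑ i, ‖z i‖ ^ 2)) • z)‖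
            * Real.exp (-(∑ i, ‖z i‖ ^ 2)))
          Filter.atTop (nhds 0) := by
  intro n hn2
  have hn : 1 ≤ n := by omega
  obtain ⟨e', he'd, he'2, he'o, he'b⟩ := main_basis n hn 1 one_pos le_rfl
  set e : ℕ → (Fin n → ℂ) → ℂ := fun k z => e' k (WithLp.toLp 2 z) with he
  have hed : ∀ k, DifferentiableOn ℂ (e k) {z : Fin n → ℂ | ∑ i, ‖z i‖ ^ 2 < 1} := fun k =>
    (transfer_diff n (e k)).2 (he'd k)
  refine ⟨e, hed, ?_, ⟨1, one_pos, ?_⟩, ?_⟩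
  · intro k
    refine ⟨1, ?_⟩
    rintro _ ⟨⟨r, hr0, hr1⟩, rfl⟩
    have h1 := transfer n hn 2 two_pos (e k) (hed k) r hr0.le hr1
    have h2 := he'2 k r hr0.le hr1
    have h3 : ENNReal.ofReal (∫ z : Fin n → ℂ, ‖e k (((r / Real.sqrt (∑ i, ‖z i‖ ^ 2) : ℝ) : ℂ) • z)‖ ^ (2 : ℝ)
            * Real.exp (-(∑ i, ‖z i‖ ^ 2))) ≤ 1 := by
      rw [h1]
      exact h2
    rw [ENNReal.ofReal_le_one] at h3
    refine le_trans (le_of_eq ?_) h3
    refine integral_congr_ae (Filter.Eventually.of_forall fun z => ?_)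
    simp only [B32_smul]
    congr 1
    rw [← Real.rpow_natCast]
    norm_num
  · intro j k
    have h1 := he'o j k
    simp only [Complex.ofReal_one]
    refine h1.congr' ?_
    have h2 : Set.Ioo (0 : ℝ) 1 ∈ nhdsWithin (1 : ℝ) (Set.Iio 1) := Ioo_mem_nhdsLT one_pos
    filter_upwards [h2] with r hr
    exact (B32_TC hn (he'd j) (he'd k) hr.1.le hr.2).symm
  · intro f hf hfb
    have hf' := (transfer_diff n f).1 hf
    obtain ⟨B, hB⟩ := hfb
    have hfI : ∀ r : ℝ, 0 < r → r < 1 → B32_I f r ≤ B := fun r h0 h1 => hB ⟨⟨r, h0, h1⟩, rfl⟩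
    have hNFf : NF n 1 (fun z : E n => f (WithLp.ofLp z)) ≠ ⊤ :=
      ne_top_of_le_ne_top ENNReal.ofReal_ne_top (B32_NF_le hn hf B hfI)
    have hNFe : ∀ k, NF n 1 (e' k) ≠ ⊤ := fun k => B32_NF_e hn (he'd k) (he'2 k)
    refine (existsUnique_congr fun a => ?_).1 (he'b _ hf' hNFf)
    -- the difference
    set u : Finset ℕ → (Fin n → ℂ) → ℂ := fun G z => f z - ∑ k ∈ G, a k * e k z with hu
    have hud : ∀ G, DifferentiableOn ℂ (u G) {z : Fin n → ℂ | ∑ i, ‖z i‖ ^ 2 < 1} := fun G =>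
      hf.sub (DifferentiableOn.fun_sum fun k _ => (hed k).const_mul (a k))
    have huN : ∀ G, NF n 1 (fun z : E n => u G (WithLp.ofLp z)) ≠ ⊤ := fun G =>
      B32_NF_sub hn hf' he'd hNFf hNFe a G
    have hS : ∀ G, (⨆ r : Set.Ioo (0:ℝ) 1, B32_I (u G) (r : ℝ)) ≤
        (NF n 1 (fun z : E n => u G (WithLp.ofLp z))).toReal := by
      intro G
      haveI : Nonempty (Set.Ioo (0:ℝ) 1) := ⟨⟨1 / 2, by norm_num, by norm_num⟩⟩
      exact ciSup_le fun r => B32_I_le hn (hud G) (huN G) r.2.1 r.2.2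
    have hbdd : ∀ G, BddAbove (Set.range fun r : Set.Ioo (0:ℝ) 1 => B32_I (u G) (r : ℝ)) := by
      intro G
      refine ⟨(NF n 1 (fun z : E n => u G (WithLp.ofLp z))).toReal, ?_⟩
      rintro _ ⟨r, rfl⟩
      exact B32_I_le hn (hud G) (huN G) r.2.1 r.2.2
    have hN : ∀ G, NF n 1 (fun z : E n => u G (WithLp.ofLp z)) ≤
        ENNReal.ofReal (⨆ r : Set.Ioo (0:ℝ) 1, B32_I (u G) (r : ℝ)) := by
      intro G
      refine B32_NF_le hn (hud G) _ fun r h0 h1 => ?_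
      exact le_ciSup (hbdd G) ⟨r, h0, h1⟩
    have hS0 : ∀ G, 0 ≤ ⨆ r : Set.Ioo (0:ℝ) 1, B32_I (u G) (r : ℝ) := fun G =>
      Real.iSup_nonneg fun r => B32_I_nonneg _ _
    show (∀ ε : ℝ≥0∞, 0 < ε → ∃ F : Finset ℕ, ∀ G : Finset ℕ, F ⊆ G →
          NF n 1 (fun z : E n => u G (WithLp.ofLp z)) < ε) ↔
        Filter.Tendsto (fun G : Finset ℕ => ⨆ r : Set.Ioo (0:ℝ) 1, B32_I (u G) (r : ℝ))
          Filter.atTop (nhds 0)
    constructor
    · intro h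
      rw [Metric.tendsto_atTop]
      intro ε hε
      obtain ⟨F, hF⟩ := h (ENNReal.ofReal ε) (ENNReal.ofReal_pos.2 hε)
      refine ⟨F, fun G hG => ?_⟩
      rw [Real.dist_eq, sub_zero, abs_of_nonneg (hS0 G)]
      refine (hS G).trans_lt ?_
      have := hF G hG
      rw [← ENNReal.toReal_ofReal hε.le]
      exact (ENNReal.toReal_lt_toReal (huN G) ENNReal.ofReal_ne_top).2 this
    · intro h ε hε
      obtain ⟨δ, hδ0, hδ⟩ : ∃ δ : ℝ, 0 < δ ∧ ENNReal.ofReal δ < ε := by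
        obtain ⟨q, hq0, hq⟩ := ENNReal.lt_iff_exists_nnreal_btwn.1 hε
        refine ⟨q, by exact_mod_cast hq0, ?_⟩
        rw [ENNReal.ofReal_coe_nnreal]
        exact hq
      obtain ⟨F, hF⟩ := (Metric.tendsto_atTop.1 h) δ hδ0
      refine ⟨F, fun G hG => ?_⟩
      have h1 := hF G hG
      rw [Real.dist_eq, sub_zero, abs_of_nonneg (hS0 G)] at h1
      exact ((hN G).trans (ENNReal.ofReal_le_ofReal h1.le)).trans_lt hδ

end Pool.Agent.HpBall2
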